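import Pool.Agent.Work.MP_e17eac_co.Bd.B14

/-!
# Existence of a base cell
-/

namespace Pool.Agent.Work.MP_e17eac_co.PS

open Finset
open Pool.Agent.Work.MP_e17eac_co.DH

namespace XBaseEx

lemma asy (D b : ℝ) (e : ℕ) (hD : 0 ≤ D) (hb : 0 < b) : ∃ n0 : ℕ, 1 ≤ n0 ∧ ∀ n : ℝ, (n0 : ℝ) ≤ n →
    D * (4 * (1 + Real.log n)) ^ e ≤ n ^ b := by
  obtain ⟨δ, hδ⟩ : ∃ δ : ℝ, δ = b / (2 * (e + 1)) := ⟨_, rfl⟩
  have he : (0 : ℝ) ≤ e := by positivity
  have hδ0 : 0 < δ := by rw [hδ]; positivity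
  obtain ⟨D', hD'⟩ : ∃ D' : ℝ, D' = D * (4 * (1 + 1 / δ)) ^ e := ⟨_, rfl⟩
  have hD'0 : 0 ≤ D' := by rw [hD']; positivity
  refine ⟨max 1 ⌈D' ^ (2 / b)⌉₊, le_max_left _ _, ?_⟩
  intro n hn
  have hn1 : 1 ≤ n := by
    refine le_trans ?_ hn
    exact_mod_cast le_max_left _ _
  have hn0 : 0 < n := by linarith
  have hnD : D' ^ (2 / b) ≤ n := by
    refine (Nat.le_ceil _).trans (le_trans ?_ hn)
    exact_mod_cast le_max_right _ _
  have h1 : Real.log n ≤ n ^ δ / δ := Real.log_le_rpow_div hn0.le hδ0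
  have h2 : 1 ≤ n ^ δ := Real.one_le_rpow hn1 hδ0.le
  have h0 : 0 ≤ Real.log n := Real.log_nonneg hn1
  have h3 : 4 * (1 + Real.log n) ≤ (4 * (1 + 1 / δ)) * n ^ δ := by
    have e1 : (4 * (1 + 1 / δ)) * n ^ δ = 4 * (n ^ δ + n ^ δ / δ) := by ring
    rw [e1]
    linarith
  have h4 : (4 * (1 + Real.log n)) ^ e ≤ ((4 * (1 + 1 / δ)) * n ^ δ) ^ e :=
    pow_le_pow_left₀ (by linarith) h3 e
  have h5 : (n ^ δ) ^ e ≤ n ^ (b / 2) := by
    rw [← Real.rpow_natCast, ← Real.rpow_mul hn0.le]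
    apply Real.rpow_le_rpow_of_exponent_le hn1
    rw [hδ, div_mul_eq_mul_div, div_le_iff₀ (by positivity)]
    nlinarith
  have h6 : D' ≤ n ^ (b / 2) := by
    have h7 : (D' ^ (2 / b)) ^ (b / 2) ≤ n ^ (b / 2) :=
      Real.rpow_le_rpow (Real.rpow_nonneg hD'0 _) hnD (by positivity)
    rw [← Real.rpow_mul hD'0] at h7
    have e1 : 2 / b * (b / 2) = 1 := by field_simp
    rw [e1, Real.rpow_one] at h7
    exact h7
  calc D * (4 * (1 + Real.log n)) ^ e ≤ D * ((4 * (1 + 1 / δ)) * n ^ δ) ^ e :=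
        mul_le_mul_of_nonneg_left h4 hD
    _ = D' * (n ^ δ) ^ e := by rw [mul_pow, hD']; ring
    _ ≤ n ^ (b / 2) * n ^ (b / 2) := mul_le_mul h6 h5 (by positivity) (by positivity)
    _ = n ^ b := by rw [← Real.rpow_add hn0]; congr 1; ring

lemma ratio (b x y d : ℝ) (hb : 1 < b) (hx : 0 < x) (hy : 0 < y)
    (h : Real.logb b y - Real.logb b x ≤ d) : y ≤ x * b ^ d := by
  have hb0 : 0 < b := by linarith
  have h1 : Real.logb b (y / x) ≤ d := by rw [Real.logb_div hy.ne' hx.ne']; exact h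
  rw [Real.logb_le_iff_le_rpow hb (by positivity), div_le_iff₀ hx] at h1
  linarith

variable {ι : Type} [Fintype ι] [DecidableEq ι]

lemma card_le_sq (K : KSys ι) (E : Finset ℕ) (hE : ∀ n ∈ E, n < K.N) :
    E.card ≤ (Fintype.card ι) ^ 2 := by
  have h1 : E.card ≤ (univ : Finset (ι × ι)).card := by
    refine card_le_card_of_injOn (fun n => (K.b n, K.a n)) (fun n _ => mem_coe.2 (mem_univ _)) ?_
    intro n hn n' hn' h
    rw [Prod.mk.injEq] at h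
    exact XPL.inj K n n' (hE n hn) (hE n' hn') h.1 h.2
  rw [card_univ, Fintype.card_prod] at h1
  rw [sq]
  exact h1

lemma log2_le (N n : ℕ) (hn : 1 ≤ n) (hN : N ≤ n ^ 2) (hN0 : N ≠ 0) :
    (Nat.log 2 N : ℝ) + 1 ≤ 4 * (1 + Real.log n) := by
  have h1 : ((2 : ℕ) ^ Nat.log 2 N : ℕ) ≤ N := Nat.pow_log_le_self 2 hN0
  have h2 : ((2 : ℝ)) ^ Nat.log 2 N ≤ (n : ℝ) ^ 2 := by
    have : (2 : ℕ) ^ Nat.log 2 N ≤ n ^ 2 := h1.trans hN
    exact_mod_cast this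
  have hn' : (1 : ℝ) ≤ n := by exact_mod_cast hn
  have h3 := Real.log_le_log (by positivity) h2
  rw [Real.log_pow, Real.log_pow] at h3
  have h4 := Real.log_two_gt_d9
  have h5 : (0 : ℝ) ≤ (Nat.log 2 N : ℝ) := by positivity
  have h6 : 0 ≤ Real.log n := Real.log_nonneg hn'
  push_cast at h3
  nlinarith

/-- the last cells contain one edge each -/
lemma last_inj (K : KSys ι) (m : ℝ) (hm : 1 ≤ m) (hgap : Gap K m) (Q j : ℕ) (hQ : 1 ≤ Q)
    (hmQ : m ≤ (Q : ℝ) ^ j) (E : Finset ℕ) (hE : ∀ n ∈ E, n < K.N ∧ 0 ≤ K.t n ∧ K.t n < 1) :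
    im E (K.cell Q j) = E.card := by
  unfold im
  apply card_image_of_injOn
  have hp : (0 : ℝ) < (Q : ℝ) ^ j := by linarith
  have key : ∀ n ∈ E, ∀ n' ∈ E, n < n' → K.cell Q j n ≠ K.cell Q j n' := by
    intro n hn n' hn' hlt h
    obtain ⟨h1, h2, h3⟩ := hE n hn
    obtain ⟨h1', h2', h3'⟩ := hE n' hn'
    have h4 := hgap n n' hlt h1'
    obtain ⟨h5, h6⟩ := XBase1.cell_window K Q j n hQ h2
    obtain ⟨h7, h8⟩ := XBase1.cell_window K Q j n' hQ h2'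
    rw [← h] at h8
    have e : (((K.cell Q j n : ℕ) : ℝ) + 1) / (Q : ℝ) ^ j =
        ((K.cell Q j n : ℕ) : ℝ) / (Q : ℝ) ^ j + 1 / (Q : ℝ) ^ j := by rw [add_div]
    have h9 : K.t n' - K.t n < 1 / (Q : ℝ) ^ j := by linarith
    rw [lt_div_iff₀ hp] at h9
    have h10 : 0 ≤ K.t n' - K.t n := by
      have := K.t_lt n n' hlt h1'
      linarith
    nlinarith
  intro n hn n' hn' h
  rcases lt_trichotomy n n' with h1 | h1 | h1
  · exact absurd h (key n hn n' hn' h1)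
  · exact h1
  · exact absurd h.symm (key n' hn' n hn h1)

end XBaseEx

open XBaseEx in
theorem I_BaseEx (hReg : StReg) (hNL : StNL) (hT2 : StT2) : StBaseEx := by
  classical
  obtain ⟨C, hC, hT⟩ := hT2
  intro C0 hC0
  obtain ⟨σ, hσ⟩ : ∃ σ : ℝ, σ = 1 / (8 * (C0 + 1)) := ⟨_, rfl⟩
  have hσ0 : 0 < σ := by rw [hσ]; positivity
  refine ⟨σ, hσ0, ?_⟩
  intro J B' hJ
  obtain ⟨κ0, hκ0⟩ := hNL J σ hJ hσ0
  obtain ⟨H, hH⟩ : ∃ H : ℕ, H = 4 * (κ0 + 1) * (B' + 1) := ⟨_, rfl⟩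
  have hH4 : 4 ≤ H := by rw [hH]; nlinarith
  have hHκ : 4 * κ0 ≤ H := by rw [hH]; nlinarith
  have hHB : 4 * (κ0 * B') ≤ H := by rw [hH]; nlinarith
  have hHr : (4 : ℝ) ≤ H := by exact_mod_cast hH4
  obtain ⟨η, hη⟩ : ∃ η : ℝ, η = 1 / (H : ℝ) := ⟨_, rfl⟩
  have hη0 : 0 < η := by rw [hη]; positivity
  have hηH : η * H = 1 := by rw [hη]; field_simp
  have hη4 : η ≤ 1 / 4 := by
    rw [hη]
    exact one_div_le_one_div_of_le (by norm_num) hHr
  obtain ⟨jm, hjm⟩ : ∃ jm : ℕ, jm = ⌈C0 * H⌉₊ := ⟨_, rfl⟩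
  have hjm1 : C0 * H ≤ jm := by rw [hjm]; exact Nat.le_ceil _
  have hjm2 : (jm : ℝ) ≤ (C0 + 1) * H := by
    have := Nat.ceil_lt_add_one (show 0 ≤ C0 * H by positivity)
    rw [← hjm] at this
    nlinarith
  refine ⟨η / 4, jm, by positivity, ?_⟩
  intro q0
  obtain ⟨n1, hn1, ha1⟩ := asy (64 * (jm + 2) ^ 2) (η / 2) (2 * (jm + 1)) (by positivity)
    (by positivity)
  obtain ⟨n2, hn2, ha2⟩ := asy ((J + 1) * C) η 0 (by positivity) hη0
  obtain ⟨n3, hn3, ha3⟩ := asy q0 η 0 (by positivity) hη0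
  obtain ⟨n4, hn4, ha4⟩ := asy 2 η 0 (by norm_num) hη0
  refine ⟨n1 + n2 + n3 + n4, ?_⟩
  intro ι _ _ K m hcard hx hg hm hmn hsep hgap hbig
  obtain ⟨n, hn⟩ : ∃ n : ℝ, n = (Fintype.card ι : ℝ) := ⟨_, rfl⟩
  rw [← hn] at hmn hbig
  have hcr : ((n1 : ℝ) + n2 + n3 + n4) ≤ n := by rw [hn]; exact_mod_cast hcard
  have p1 : (1 : ℝ) ≤ n1 := by exact_mod_cast hn1
  have p2 : (1 : ℝ) ≤ n2 := by exact_mod_cast hn2
  have p3 : (1 : ℝ) ≤ n3 := by exact_mod_cast hn3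
  have p4 : (1 : ℝ) ≤ n4 := by exact_mod_cast hn4
  have hn1' : 1 ≤ n := by linarith
  have hn0 : 0 < n := by linarith
  have b1 := ha1 n (by linarith)
  have b2 := ha2 n (by linarith)
  have b3 := ha3 n (by linarith)
  have b4 := ha4 n (by linarith)
  rw [pow_zero, mul_one] at b2 b3 b4
  -- the set of edges
  obtain ⟨E0, hE0⟩ : ∃ E0 : Finset ℕ, E0 = (range K.N).filter (fun k => 0 ≤ K.t k ∧ K.t k < 1) :=
    ⟨_, rfl⟩
  have hbig' : n ^ ((4 : ℝ) / 3 - η / 4) ≤ (E0.card : ℝ) := by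
    rw [hE0]
    convert hbig using 3
  have hE0pos : (0 : ℝ) < E0.card := lt_of_lt_of_le (by positivity) hbig'
  have hE0ne : E0.Nonempty := by
    rw [← card_pos]
    exact_mod_cast hE0pos
  have hE0sub : ∀ k ∈ E0, k < K.N ∧ 0 ≤ K.t k ∧ K.t k < 1 := by
    intro k hk
    rw [hE0, mem_filter, mem_range] at hk
    exact hk
  obtain ⟨L, hL⟩ : ∃ L : ℝ, L = (Nat.log 2 E0.card : ℝ) + 1 := ⟨_, rfl⟩
  have hL1 : 1 ≤ L := by
    rw [hL]
    have : (0 : ℝ) ≤ (Nat.log 2 E0.card : ℝ) := by positivity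
    linarith
  have hLn : L ≤ 4 * (1 + Real.log n) := by
    rw [hL, hn]
    refine log2_le _ _ ?_ (card_le_sq K E0 fun k hk => (hE0sub k hk).1) (by
      rw [ne_eq, card_eq_zero]
      exact hE0ne.ne_empty)
    have : (1 : ℝ) ≤ (Fintype.card ι : ℝ) := by rw [← hn]; exact hn1'
    exact_mod_cast this
  -- the base of the scales
  obtain ⟨Q0, hQ0⟩ : ∃ Q0 : ℕ, Q0 = ⌈n ^ η⌉₊ := ⟨_, rfl⟩
  have hQ0n : n ^ η ≤ Q0 := by rw [hQ0]; exact Nat.le_ceil _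
  have hQ02 : (2 : ℝ) ≤ Q0 := b4.trans hQ0n
  have hQ02' : 2 ≤ Q0 := by exact_mod_cast hQ02
  have hQ0le : (Q0 : ℝ) ≤ n ^ (2 * η) := by
    have h1 := Nat.ceil_lt_add_one (show 0 ≤ n ^ η by positivity)
    rw [← hQ0] at h1
    have h2 : n ^ (2 * η) = n ^ η * n ^ η := by
      rw [← Real.rpow_add hn0]
      congr 1
      ring
    rw [h2]
    nlinarith
  have hQ0pos : (0 : ℝ) < Q0 := by linarith
  have hQ01 : (1 : ℝ) < Q0 := by linarith
  -- regularisation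
  obtain ⟨E', hE'sub, hE'ne, hE'card, hE'reg⟩ := hReg ℕ (Fin (jm + 1))
    (fun j k => K.cell Q0 (j : ℕ) k) E0 hE0ne
  rw [Fintype.card_fin, ← hL] at hE'card hE'reg
  obtain ⟨Λ, hΛ⟩ : ∃ Λ : ℝ, Λ = 8 * (((jm + 1 : ℕ) : ℝ) + 1) * L ^ (jm + 1) := ⟨_, rfl⟩
  rw [← hΛ] at hE'reg
  have hLp : 1 ≤ L ^ (jm + 1) := one_le_pow₀ hL1
  have hjm0 : (0 : ℝ) ≤ jm := by positivity
  have hΛL : 2 * L ^ (jm + 1) ≤ Λ := by
    rw [hΛ]
    push_cast
    nlinarith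
  have hΛ1 : 1 ≤ Λ := by linarith
  have hΛsq : Λ ^ 2 ≤ n ^ (η / 2) := by
    refine le_trans ?_ b1
    rw [hΛ]
    push_cast
    have h1 : L ^ (2 * (jm + 1)) ≤ (4 * (1 + Real.log n)) ^ (2 * (jm + 1)) :=
      pow_le_pow_left₀ (by linarith) hLn _
    calc (8 * ((jm : ℝ) + 1 + 1) * L ^ (jm + 1)) ^ 2
        = 64 * ((jm : ℝ) + 2) ^ 2 * L ^ (2 * (jm + 1)) := by ring
      _ ≤ _ := mul_le_mul_of_nonneg_left h1 (by positivity)
  have hE'pos : (0 : ℝ) < E'.card := by exact_mod_cast hE'ne.card_pos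
  have hE'sub' : ∀ k ∈ E', k < K.N ∧ 0 ≤ K.t k ∧ K.t k < 1 := fun k hk =>
    hE0sub k (hE'sub hk)
  have hE'big : n ^ ((4 : ℝ) / 3 - η / 4) ≤ Λ * E'.card := by
    refine hbig'.trans (hE'card.trans ?_)
    exact mul_le_mul_of_nonneg_right hΛL hE'pos.le
  obtain ⟨M, hM⟩ : ∃ M : ℕ → ℝ, ∀ j, M j = (im E' (K.cell Q0 j) : ℝ) := ⟨_, fun _ => rfl⟩
  have hM1 : ∀ j, 1 ≤ M j := by
    intro j
    rw [hM]
    unfold im
    exact_mod_cast (hE'ne.image _).card_pos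
  have hmQ : m ≤ (Q0 : ℝ) ^ jm := by
    calc m ≤ n ^ C0 := hmn
      _ ≤ n ^ (η * jm) := by
          apply Real.rpow_le_rpow_of_exponent_le hn1'
          calc C0 = η * (C0 * H) := by rw [mul_comm C0, ← mul_assoc, hηH, one_mul]
            _ ≤ η * jm := mul_le_mul_of_nonneg_left hjm1 hη0.le
      _ = (n ^ η) ^ jm := by rw [Real.rpow_mul hn0.le, Real.rpow_natCast]
      _ ≤ (Q0 : ℝ) ^ jm := pow_le_pow_left₀ (by positivity) hQ0n _
  have hMjm : M jm = E'.card := by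
    rw [hM]
    exact_mod_cast last_inj K m hm hgap Q0 jm (by omega) hmQ E' hE'sub'
  have hhalf : n ^ ((1 : ℝ) / 2) ≤ M jm := by
    rw [hMjm]
    have h1 : n ^ ((1 : ℝ) / 2) * Λ ≤ E'.card * Λ := by
      calc n ^ ((1 : ℝ) / 2) * Λ ≤ n ^ ((1 : ℝ) / 2) * Λ ^ 2 := by
            apply mul_le_mul_of_nonneg_left _ (by positivity)
            nlinarith
        _ ≤ n ^ ((1 : ℝ) / 2) * n ^ (η / 2) := mul_le_mul_of_nonneg_left hΛsq (by positivity)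
        _ = n ^ ((1 : ℝ) / 2 + η / 2) := by rw [Real.rpow_add hn0]
        _ ≤ n ^ ((4 : ℝ) / 3 - η / 4) :=
            Real.rpow_le_rpow_of_exponent_le hn1' (by linarith)
        _ ≤ Λ * E'.card := hE'big
        _ = E'.card * Λ := mul_comm _ _
    exact le_of_mul_le_mul_right h1 (by linarith)
  -- the first level with many cells
  have hex : ∃ j, n ^ ((1 : ℝ) / 2) ≤ M j := ⟨jm, hhalf⟩
  obtain ⟨j1, hj1⟩ : ∃ j1, j1 = Nat.find hex := ⟨_, rfl⟩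
  have hj1a : n ^ ((1 : ℝ) / 2) ≤ M j1 := by rw [hj1]; exact Nat.find_spec hex
  have hj1b : ∀ j, j < j1 → M j < n ^ ((1 : ℝ) / 2) := by
    intro j hj
    rw [hj1] at hj
    exact not_le.1 (Nat.find_min hex hj)
  have hj1m : j1 ≤ jm := by rw [hj1]; exact Nat.find_min' hex hhalf
  obtain ⟨μ, hμ⟩ : ∃ μ : ℕ → ℝ, ∀ j, μ j = Real.logb Q0 (M j) := ⟨_, fun _ => rfl⟩
  have hM0' : ∀ j, 0 < M j := fun j => by have := hM1 j; linarith
  have hμmono : Monotone μ := by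
    apply monotone_nat_of_le_succ
    intro j
    rw [hμ, hμ]
    apply Real.logb_le_logb_of_le hQ01 (hM0' j)
    rw [hM, hM]
    exact_mod_cast XBase1.im_mono K Q0 (by omega) E' j 1
  have hμinc : ∀ j, μ (j + 1) ≤ μ j + 1 := by
    intro j
    rw [hμ, hμ]
    have h1 : M (j + 1) ≤ Q0 * M j := by
      rw [hM, hM]
      exact_mod_cast XBase1.im_step K Q0 (by omega) E' j
    have h2 := Real.logb_le_logb_of_le hQ01 (hM0' (j + 1)) h1
    rw [Real.logb_mul hQ0pos.ne' (hM0' j).ne', Real.logb_self_eq_one hQ01] at h2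
    linarith
  have hμ0 : μ 0 = 0 := by
    rw [hμ, hM, XBase1.im_zero K Q0 E' hE'ne fun k hk => (hE'sub' k hk).2]
    simp
  have hμj1 : (H : ℝ) / 4 ≤ μ j1 := by
    have h1 : Real.logb Q0 (n ^ ((1 : ℝ) / 2)) ≤ μ j1 := by
      rw [hμ]
      exact Real.logb_le_logb_of_le hQ01 (by positivity) hj1a
    refine le_trans ?_ h1
    rw [Real.le_logb_iff_rpow_le hQ01 (by positivity)]
    calc (Q0 : ℝ) ^ ((H : ℝ) / 4) ≤ (n ^ (2 * η)) ^ ((H : ℝ) / 4) :=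
          Real.rpow_le_rpow hQ0pos.le hQ0le (by positivity)
      _ = n ^ ((1 : ℝ) / 2) := by
          rw [← Real.rpow_mul hn0.le]
          congr 1
          have : 2 * η * ((H : ℝ) / 4) = (η * H) / 2 := by ring
          rw [this, hηH]
  have hj1μ : μ j1 ≤ j1 := by
    have : ∀ j, μ j ≤ j := by
      intro j
      induction j with
      | zero => rw [hμ0]; simp
      | succ j ih =>
        have := hμinc j
        push_cast
        linarith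
    exact this j1
  have hκj : κ0 ≤ j1 := by
    have h1 : (κ0 : ℝ) ≤ j1 := by
      have h2 : (4 : ℝ) * κ0 ≤ H := by exact_mod_cast hHκ
      linarith
    exact_mod_cast h1
  obtain ⟨κ, a, s, hκ1, hκκ, haJ, hσs, hs1, hlin⟩ := hκ0 μ j1 hμmono hμinc hκj (by
    rw [hμ0, sub_zero]
    refine le_trans ?_ hμj1
    have h1 : (j1 : ℝ) ≤ (C0 + 1) * H := by
      have : (j1 : ℝ) ≤ jm := by exact_mod_cast hj1m
      linarith
    calc 2 * σ * j1 ≤ 2 * σ * ((C0 + 1) * H) := mul_le_mul_of_nonneg_left h1 (by positivity)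
      _ = (H : ℝ) / 4 := by
          rw [hσ]
          field_simp
          ring)
  have hs0 : 0 < s := lt_of_lt_of_le hσ0 hσs
  obtain ⟨Q, hQ⟩ : ∃ Q : ℕ, Q = Q0 ^ κ := ⟨_, rfl⟩
  have hQr : (Q : ℝ) = (Q0 : ℝ) ^ κ := by rw [hQ]; push_cast; rfl
  have hQ0Q : (Q0 : ℝ) ≤ Q := by
    rw [hQr]
    exact le_self_pow₀ hQ01.le (by omega)
  have hQpos : (0 : ℝ) < Q := by linarith
  have hpw : ∀ i : ℕ, (Q0 : ℝ) ^ (s * κ * i + κ) = Q * (Q : ℝ) ^ (s * i) := by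
    intro i
    rw [hQr, ← Real.rpow_natCast, ← Real.rpow_mul hQ0pos.le, ← Real.rpow_add hQ0pos]
    congr 1
    ring
  have hlt : ∀ i, i ≤ J → M (a + κ * i) ≤ Q * (Q : ℝ) ^ (s * i) * M a := by
    intro i hi
    have h1 := (abs_le.1 (hlin i hi)).2
    rw [hμ, hμ] at h1
    have h2 := ratio Q0 (M a) (M (a + κ * i)) (s * κ * i + κ) hQ01 (hM0' _) (hM0' _) (by linarith)
    rw [hpw] at h2
    linarith
  have hgt : ∀ i, i ≤ J → M a * (Q : ℝ) ^ (s * i) ≤ Q * M (a + κ * i) := by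
    intro i hi
    have h1 := (abs_le.1 (hlin i hi)).1
    rw [hμ, hμ] at h1
    have h2 := ratio Q0 (M (a + κ * i)) (M a) (κ - s * κ * i) hQ01 (hM0' _) (hM0' _) (by linarith)
    have h3 : (Q0 : ℝ) ^ ((κ : ℝ) - s * κ * i) * (Q : ℝ) ^ (s * i) = Q := by
      rw [hQr, ← Real.rpow_natCast, ← Real.rpow_mul hQ0pos.le, ← Real.rpow_add hQ0pos]
      congr 1
      ring
    calc M a * (Q : ℝ) ^ (s * i)
        ≤ (M (a + κ * i) * (Q0 : ℝ) ^ ((κ : ℝ) - s * κ * i)) * (Q : ℝ) ^ (s * i) :=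
          mul_le_mul_of_nonneg_right h2 (by positivity)
      _ = M (a + κ * i) * ((Q0 : ℝ) ^ ((κ : ℝ) - s * κ * i) * (Q : ℝ) ^ (s * i)) := by ring
      _ = Q * M (a + κ * i) := by rw [h3, mul_comm]
  have haj1 : a < j1 := by
    have : 1 ≤ κ * J := Nat.mul_pos hκ1 hJ
    omega
  have hMa : M a < n ^ ((1 : ℝ) / 2) := hj1b a haj1
  obtain ⟨W, hW⟩ : ∃ W : ℝ, W = n / (M a) ^ ((3 : ℝ) / 4) := ⟨_, rfl⟩
  have hWn : n ^ ((1 : ℝ) / 2) ≤ W := by
    rw [hW, le_div_iff₀ (by have := hM0' a; positivity)]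
    calc n ^ ((1 : ℝ) / 2) * M a ^ ((3 : ℝ) / 4)
        ≤ n ^ ((1 : ℝ) / 2) * (n ^ ((1 : ℝ) / 2)) ^ ((3 : ℝ) / 4) := by
          apply mul_le_mul_of_nonneg_left _ (by positivity)
          exact Real.rpow_le_rpow (hM0' a).le hMa.le (by norm_num)
      _ = n ^ ((7 : ℝ) / 8) := by
          rw [← Real.rpow_mul hn0.le, ← Real.rpow_add hn0]
          norm_num
      _ ≤ n ^ (1 : ℝ) := Real.rpow_le_rpow_of_exponent_le hn1' (by norm_num)
      _ = n := Real.rpow_one n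
  have hW1 : 1 ≤ W := le_trans (Real.one_le_rpow hn1' (by norm_num)) hWn
  have hκ1' : (1 : ℝ) ≤ κ := by exact_mod_cast hκ1
  have hΛη : n ^ (η / 2) ≤ n ^ η := Real.rpow_le_rpow_of_exponent_le hn1' (by linarith)
  obtain ⟨E, c, R, hR, hBase⟩ := base_of K m hm hsep Q0 κ a J Q hQ02' hκ1 hQ s Λ C n W hs0 hs1
    hC hn0 E' hE'ne hE'sub' hΛ1 (by
      intro i hi
      have h1 : a + κ * i ≤ jm := by
        have : κ * i ≤ κ * J := Nat.mul_le_mul_left _ hi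
        omega
      exact hE'reg ⟨a + κ * i, by omega⟩)
    (by
      intro i hi
      have := hlt i hi
      rw [hM, hM] at this
      exact this)
    (by
      intro i hi
      have := hgt i hi
      rw [hM, hM] at this
      exact this)
    (by linarith)
    (by linarith)
    (by
      intro i _
      have h1 := hT ι K hx hg (E'.image (K.cell Q0 (a + κ * i)))
        (fun c => (c : ℝ) / (Q0 : ℝ) ^ (a + κ * i))
        (fun c => ((c : ℝ) + 1) / (Q0 : ℝ) ^ (a + κ * i))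
        (fun c _ c' _ h => XBase1.windows_disj Q0 (a + κ * i) (by omega) c c' h)
      rw [← hn] at h1
      exact h1)
    (by
      have h1 : n ^ ((4 : ℝ) / 3) * Λ * Λ ≤ Q * (E'.card : ℝ) * Λ := by
        calc n ^ ((4 : ℝ) / 3) * Λ * Λ = n ^ ((4 : ℝ) / 3) * Λ ^ 2 := by ring
          _ ≤ n ^ ((4 : ℝ) / 3) * n ^ (η / 2) := mul_le_mul_of_nonneg_left hΛsq (by positivity)
          _ = n ^ ((4 : ℝ) / 3 + η / 2) := by rw [Real.rpow_add hn0]
          _ ≤ n ^ (η + ((4 : ℝ) / 3 - η / 4)) :=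
              Real.rpow_le_rpow_of_exponent_le hn1' (by linarith)
          _ = n ^ η * n ^ ((4 : ℝ) / 3 - η / 4) := by rw [Real.rpow_add hn0]
          _ ≤ Q * (Λ * E'.card) :=
              mul_le_mul (by linarith) hE'big (by positivity) hQpos.le
          _ = Q * (E'.card : ℝ) * Λ := by ring
      exact le_of_mul_le_mul_right h1 (by linarith))
    (by rw [← hM]; exact hW) hW1
  refine ⟨K.resc c R hR, Q, s, W, E, hBase, ⟨c, R, hR, rfl⟩, hσs, ?_, ?_, ?_⟩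
  · have : (q0 : ℝ) ≤ Q := by linarith
    exact_mod_cast this
  · refine hmQ.trans ?_
    exact pow_le_pow_left₀ hQ0pos.le hQ0Q _
  · refine le_trans ?_ hWn
    rw [hQr, ← pow_mul, ← Real.rpow_natCast]
    calc (Q0 : ℝ) ^ ((κ * B' : ℕ) : ℝ) ≤ (Q0 : ℝ) ^ ((H : ℝ) / 4) := by
          apply Real.rpow_le_rpow_of_exponent_le hQ01.le
          have h1 : κ * B' ≤ κ0 * B' := Nat.mul_le_mul_right _ hκκ
          have h2 : (4 : ℝ) * ((κ0 * B' : ℕ) : ℝ) ≤ H := by exact_mod_cast hHB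
          have h3 : ((κ * B' : ℕ) : ℝ) ≤ ((κ0 * B' : ℕ) : ℝ) := by exact_mod_cast h1
          linarith
      _ ≤ (n ^ (2 * η)) ^ ((H : ℝ) / 4) :=
          Real.rpow_le_rpow hQ0pos.le hQ0le (by positivity)
      _ = n ^ ((1 : ℝ) / 2) := by
          rw [← Real.rpow_mul hn0.le]
          congr 1
          have : 2 * η * ((H : ℝ) / 4) = (η * H) / 2 := by ring
          rw [this, hηH]

end Pool.Agent.Work.MP_e17eac_co.PS
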