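import Pool.Agent.Work.MP_e17eac_co.PS.Lg

/-!
# Project PS, block REG: (A0), there are few boxes of size `dl 0`
-/

set_option autoImplicit false

namespace Pool.Agent.Work.MP_e17eac_co.PS

open Finset
open Pool.Agent.Work.MP_e17eac_co.DH

namespace XA0

theorem floor_near {u v r : ℝ} {N : ℕ} (h : |u - v| ≤ r) (hr : r ≤ N) :
    ⌊v⌋ ∈ Finset.Icc (⌊u⌋ - (N : ℤ)) (⌊u⌋ + (N : ℤ)) := by
  have h1 := abs_le.1 h
  have a1 := Int.floor_le u
  have a2 := Int.lt_floor_add_one u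
  have a3 := Int.floor_le v
  have a4 := Int.lt_floor_add_one v
  rw [Finset.mem_Icc]
  constructor
  · have : ((⌊u⌋ - (N : ℤ) : ℤ) : ℝ) < ((⌊v⌋ + 1 : ℤ) : ℝ) := by push_cast; linarith
    have := Int.cast_lt.1 this
    omega
  · have : ((⌊v⌋ : ℤ) : ℝ) < ((⌊u⌋ + (N : ℤ) + 1 : ℤ) : ℝ) := by push_cast; linarith
    have := Int.cast_lt.1 this
    omega

end XA0

theorem I_A0 (hNest : StNest) (hCls0 : StCls0) : StA0 := by
  intro ι _ _ X hX hgJ i hi hd
  have h0 := hX.toOK0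
  have hQ1 : 1 ≤ X.Q := by have := h0.hQ; omega
  have hQp := h0.Q_pos
  have hdl : 0 < X.dl 0 := by
    have h1 := hX.deep 0 (by omega)
    by_contra hcon
    push Not at hcon
    have h2 := h0.Qpow_pos X.I
    nlinarith
  obtain ⟨κ, hκ⟩ := hCls0 ι X h0 0 (by omega) hdl (hX.typ 0 (by omega))
  have hcell : ∀ n ∈ X.E, X.cl 0 n = 0 := by
    intro n hn
    obtain ⟨_, h1, h2⟩ := h0.sub n hn
    exact (hNest ι X.K X.Q hQ1).2.2.2.2.2.2.2 n h1 h2
  -- boxes of one class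
  set B : ℕ := 16 * X.Q ^ (X.g + 2) with hB
  have hcls : ∀ k, ((X.E.filter (fun n => κ n = k)).image (fun n => X.box i n)).card ≤
      (2 * (2 * B) + 1) * (2 * B + 1) := by
    intro k
    rcases (X.E.filter (fun n => κ n = k)).eq_empty_or_nonempty with he | ⟨n0, hn0⟩
    · rw [he]; simp
    · have hn0' := Finset.mem_filter.1 hn0
      have hsub : (X.E.filter (fun n => κ n = k)).image (fun n => X.box i n) ⊆
          (Finset.Icc (⌊X.K.x (X.K.a n0) * (X.Q : ℝ) ^ i⌋ - ((2 * B : ℕ) : ℤ))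
            (⌊X.K.x (X.K.a n0) * (X.Q : ℝ) ^ i⌋ + ((2 * B : ℕ) : ℤ))) ×ˢ
          (Finset.Icc (⌊X.K.y (X.K.a n0) * (X.Q : ℝ) ^ i⌋ - (B : ℤ))
            (⌊X.K.y (X.K.a n0) * (X.Q : ℝ) ^ i⌋ + (B : ℤ))) := by
        intro b hb
        obtain ⟨n, hn, rfl⟩ := Finset.mem_image.1 hb
        have hn' := Finset.mem_filter.1 hn
        have hfl := hκ.flat n0 hn0'.1 n hn'.1 (by rw [hcell _ hn0'.1, hcell _ hn'.1])
          (by rw [hn0'.2, hn'.2])
        have hr0 := hfl 0 (by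
          rw [hcell _ hn0'.1]; unfold InC; simp)
        have hr1 := hfl 1 (by
          rw [hcell _ hn0'.1]; unfold InC; simp)
        have hR : (X.Q : ℝ) ^ (X.g + 1) * X.dl 0 * (X.Q : ℝ) ^ i ≤ (B : ℝ) := by
          have h2 := h0.Qpow_pos (X.g + 1)
          calc (X.Q : ℝ) ^ (X.g + 1) * X.dl 0 * (X.Q : ℝ) ^ i
              = (X.Q : ℝ) ^ (X.g + 1) * (X.dl 0 * (X.Q : ℝ) ^ i) := by ring
            _ ≤ (X.Q : ℝ) ^ (X.g + 1) * (16 * X.Q) := mul_le_mul_of_nonneg_left hd h2.le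
            _ = (B : ℝ) := by rw [hB]; push_cast; ring
        unfold KSys.ht at hr0 hr1
        simp only [mul_zero, add_zero, mul_one] at hr0 hr1
        have hQi := h0.Qpow_pos i
        have hy : |X.K.y (X.K.a n0) * (X.Q : ℝ) ^ i - X.K.y (X.K.a n) * (X.Q : ℝ) ^ i| ≤
            (X.Q : ℝ) ^ (X.g + 1) * X.dl 0 * (X.Q : ℝ) ^ i := by
          rw [← sub_mul, abs_mul, abs_of_pos hQi]
          exact mul_le_mul_of_nonneg_right hr0 hQi.le
        have hx : |X.K.x (X.K.a n0) * (X.Q : ℝ) ^ i - X.K.x (X.K.a n) * (X.Q : ℝ) ^ i| ≤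
            2 * ((X.Q : ℝ) ^ (X.g + 1) * X.dl 0 * (X.Q : ℝ) ^ i) := by
          rw [← sub_mul, abs_mul, abs_of_pos hQi]
          have h5 : |X.K.x (X.K.a n0) - X.K.x (X.K.a n)| ≤
              2 * ((X.Q : ℝ) ^ (X.g + 1) * X.dl 0) := by
            have b0 := abs_le.1 hr0
            have b1 := abs_le.1 hr1
            rw [abs_le]
            constructor <;> linarith [b0.1, b0.2, b1.1, b1.2]
          calc _ ≤ 2 * ((X.Q : ℝ) ^ (X.g + 1) * X.dl 0) * (X.Q : ℝ) ^ i :=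
                mul_le_mul_of_nonneg_right h5 hQi.le
            _ = _ := by ring
        rw [Finset.mem_product]
        constructor
        · exact XA0.floor_near hx (by push_cast; linarith)
        · exact XA0.floor_near hy hR
      refine (Finset.card_le_card hsub).trans ?_
      rw [Finset.card_product, Int.card_Icc, Int.card_Icc]
      apply Nat.mul_le_mul
      · omega
      · omega
  have hcard : im X.E (fun n => X.box i n) ≤
      X.Q ^ (2 * X.g) * ((2 * (2 * B) + 1) * (2 * B + 1)) := by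
    have hsub : X.E.image (fun n => X.box i n) ⊆
        (Finset.range (X.Q ^ (2 * X.g))).biUnion
          (fun k => (X.E.filter (fun n => κ n = k)).image (fun n => X.box i n)) := by
      intro b hb
      obtain ⟨n, hn, rfl⟩ := Finset.mem_image.1 hb
      rw [Finset.mem_biUnion]
      exact ⟨κ n, Finset.mem_range.2 (hκ.lt n hn),
        Finset.mem_image_of_mem _ (Finset.mem_filter.2 ⟨hn, rfl⟩)⟩
    calc im X.E (fun n => X.box i n) ≤ _ := Finset.card_le_card hsub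
      _ ≤ ∑ k ∈ Finset.range (X.Q ^ (2 * X.g)), _ := Finset.card_biUnion_le
      _ ≤ ∑ _k ∈ Finset.range (X.Q ^ (2 * X.g)), ((2 * (2 * B) + 1) * (2 * B + 1)) :=
          Finset.sum_le_sum (fun k _ => hcls k)
      _ = _ := by rw [Finset.sum_const, Finset.card_range, smul_eq_mul]
  have hfin : X.Q ^ (2 * X.g) * ((2 * (2 * B) + 1) * (2 * B + 1)) ≤ X.Q ^ (4 * X.g + 8) := by
    have hQ20 : 1048576 ≤ X.Q := by have := h0.hQ; norm_num at this; exact this
    have hY : 1 ≤ X.Q ^ (X.g + 2) := Nat.one_le_pow _ _ (by omega)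
    have e1 : (2 * (2 * B) + 1) * (2 * B + 1) ≤ (65 * X.Q ^ (X.g + 2)) * (33 * X.Q ^ (X.g + 2)) :=
      Nat.mul_le_mul (by omega) (by omega)
    calc X.Q ^ (2 * X.g) * ((2 * (2 * B) + 1) * (2 * B + 1))
        ≤ X.Q ^ (2 * X.g) * ((65 * X.Q ^ (X.g + 2)) * (33 * X.Q ^ (X.g + 2))) :=
          Nat.mul_le_mul_left _ e1
      _ = 2145 * X.Q ^ (4 * X.g + 4) := by ring
      _ ≤ X.Q ^ 4 * X.Q ^ (4 * X.g + 4) := by
          apply Nat.mul_le_mul_right
          calc 2145 ≤ X.Q ^ 1 := by rw [pow_one]; omega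
            _ ≤ X.Q ^ 4 := Nat.pow_le_pow_right (by omega) (by norm_num)
      _ = _ := by rw [← pow_add]; congr 1; omega
  have h7 : (im X.E (fun n => X.box i n) : ℝ) ≤ (X.Q : ℝ) ^ (4 * X.g + 8) := by
    exact_mod_cast hcard.trans hfin
  have h8 := h0.lg_le (by linarith [h0.im_pos (fun n => X.box i n)]) h7
  rw [h0.lg_Qpow] at h8
  unfold RS.lB
  push_cast at h8
  exact h8

end Pool.Agent.Work.MP_e17eac_co.PS
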