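import Pool.Agent.Work.MP_e17eac_co.PS.Lg

/-!
# Project PS, block REG: (A1), two far cells share few boxes
-/

set_option autoImplicit false

namespace Pool.Agent.Work.MP_e17eac_co.PS

open Finset
open Pool.Agent.Work.MP_e17eac_co.DH

namespace XA1

theorem floor_near {u v r : ℝ} {N : ℕ} (h : |u - v| ≤ r) (hr : r ≤ N) :
    ⌊v⌋ ∈ Finset.Icc (⌊u⌋ - (N : ℤ)) (⌊u⌋ + (N : ℤ)) := by
  have h1 := abs_le.1 h
  have a1 := Int.floor_le u
  have a2 := Int.lt_floor_add_one u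
  have a3 := Int.floor_le v
  have a4 := Int.lt_floor_add_one v
  rw [Finset.mem_Icc]
  constructor
  · have : ((⌊u⌋ - (N : ℤ) : ℤ) : ℝ) < ((⌊v⌋ + 1 : ℤ) : ℝ) := by push_cast; linarith
    have := Int.cast_lt.1 this
    omega
  · have : ((⌊v⌋ : ℤ) : ℝ) < ((⌊u⌋ + (N : ℤ) + 1 : ℤ) : ℝ) := by push_cast; linarith
    have := Int.cast_lt.1 this
    omega

/-- two affine functions which are close at two times at distance at least `1/w` -/
theorem two_times {x y r r' A B w : ℝ} (hw : 0 < w) (h0 : 0 ≤ r) (h1 : r ≤ 1)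
    (hr : 1 / w ≤ r' - r) (hA : |y + x * r| ≤ A) (hB : |y + x * r'| ≤ B) :
    |x| ≤ (A + B) * w ∧ |y| ≤ A + (A + B) * w := by
  have a := abs_le.1 hA
  have b := abs_le.1 hB
  have hpos : 0 < 1 / w := by positivity
  have e : |x| * (r' - r) ≤ A + B := by
    have : |x| * (r' - r) = |(y + x * r') - (y + x * r)| := by
      have e1 : (y + x * r') - (y + x * r) = x * (r' - r) := by ring
      rw [e1, abs_mul, abs_of_pos (by linarith : (0 : ℝ) < r' - r)]
    rw [this]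
    have := abs_sub (y + x * r') (y + x * r)
    linarith
  have hx : |x| ≤ (A + B) * w := by
    have h2 : |x| * (1 / w) ≤ A + B :=
      (mul_le_mul_of_nonneg_left hr (abs_nonneg x)).trans e
    have h3 : |x| * (1 / w) * w ≤ (A + B) * w := mul_le_mul_of_nonneg_right h2 hw.le
    have h4 : |x| * (1 / w) * w = |x| := by field_simp
    linarith
  refine ⟨hx, ?_⟩
  have h5 : |y| ≤ |y + x * r| + |x * r| := by
    have := abs_sub (y + x * r) (x * r)
    have e2 : (y + x * r) - x * r = y := by ring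
    rwa [e2] at this
  have h6 : |x * r| ≤ |x| := by
    rw [abs_mul, abs_of_nonneg h0]
    exact mul_le_of_le_one_right (abs_nonneg x) h1
  linarith

/-- cells of level `j` in cells of level `g` which are at least `2` apart -/
theorem far_cells {Q j g c c' : ℕ} (hQ : 1 ≤ Q) (hg : g ≤ j)
    (h : c / Q ^ (j - g) + 2 ≤ c' / Q ^ (j - g)) :
    1 / (Q : ℝ) ^ g ≤ (c' : ℝ) / (Q : ℝ) ^ j - ((c : ℝ) + 1) / (Q : ℝ) ^ j := by
  have hP : 0 < Q ^ (j - g) := Nat.pow_pos (by omega)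
  have h1 : c < (c / Q ^ (j - g) + 1) * Q ^ (j - g) := by
    rw [Nat.add_mul, Nat.one_mul]
    have := Nat.div_add_mod c (Q ^ (j - g))
    have h2 := Nat.mod_lt c hP
    rw [mul_comm] at this
    omega
  have h2 : (c' / Q ^ (j - g)) * Q ^ (j - g) ≤ c' := Nat.div_mul_le_self _ _
  have h3 : (c / Q ^ (j - g) + 2) * Q ^ (j - g) ≤ (c' / Q ^ (j - g)) * Q ^ (j - g) :=
    Nat.mul_le_mul_right _ h
  have h4 : c + 1 + Q ^ (j - g) ≤ c' := by
    have e : (c / Q ^ (j - g) + 2) * Q ^ (j - g) =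
      (c / Q ^ (j - g) + 1) * Q ^ (j - g) + Q ^ (j - g) := by ring
    omega
  have h5 : (c : ℝ) + 1 + (Q : ℝ) ^ (j - g) ≤ (c' : ℝ) := by exact_mod_cast h4
  have hQ0 : (0 : ℝ) < Q := by exact_mod_cast hQ
  have hj : (0 : ℝ) < (Q : ℝ) ^ j := by positivity
  rw [← sub_div, div_le_div_iff₀ (by positivity) hj]
  have e : (Q : ℝ) ^ j = (Q : ℝ) ^ (j - g) * (Q : ℝ) ^ g := by
    rw [← pow_add, Nat.sub_add_cancel hg]
  have hgp : (0 : ℝ) < (Q : ℝ) ^ g := by positivity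
  calc 1 * (Q : ℝ) ^ j = (Q : ℝ) ^ (j - g) * (Q : ℝ) ^ g := by rw [one_mul, e]
    _ ≤ ((c' : ℝ) - ((c : ℝ) + 1)) * (Q : ℝ) ^ g :=
      mul_le_mul_of_nonneg_right (by linarith) hgp.le

end XA1

theorem I_A1 (hNest : StNest) (hCls0 : StCls0) : StA1 := by
  classical
  intro ι _ _ X hX j i c c' hgj hjJ hi hd hcc
  have h0 := hX.toOK0
  have hQ1 : 1 ≤ X.Q := by have := h0.hQ; omega
  have hQp := h0.Q_pos
  have hdl : 0 < X.dl j := by
    have h1 := hX.deep j hjJ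
    by_contra hcon
    push Not at hcon
    have h2 := h0.Qpow_pos X.I
    nlinarith
  obtain ⟨κ, hκ⟩ := hCls0 ι X h0 j hjJ hdl (hX.typ j hjJ)
  obtain ⟨-, -, hN3, -, -, -, hN7, -⟩ := hNest ι X.K X.Q hQ1
  set S := (X.E.filter (fun n => X.cl j n = c)).image (fun n => X.box i n) ∩
    (X.E.filter (fun n => X.cl j n = c')).image (fun n => X.box i n) with hS
  have hu : ∀ f : ℤ × ℤ, ∃ n, f ∈ S → n ∈ X.E ∧ X.cl j n = c ∧ X.box i n = f := by
    intro f
    by_cases hf : f ∈ S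
    · obtain ⟨n, hn, hn2⟩ := Finset.mem_image.1 (Finset.mem_inter.1 hf).1
      exact ⟨n, fun _ => ⟨(Finset.mem_filter.1 hn).1, (Finset.mem_filter.1 hn).2, hn2⟩⟩
    · exact ⟨0, fun h => absurd h hf⟩
  have hv : ∀ f : ℤ × ℤ, ∃ n, f ∈ S → n ∈ X.E ∧ X.cl j n = c' ∧ X.box i n = f := by
    intro f
    by_cases hf : f ∈ S
    · obtain ⟨n, hn, hn2⟩ := Finset.mem_image.1 (Finset.mem_inter.1 hf).2
      exact ⟨n, fun _ => ⟨(Finset.mem_filter.1 hn).1, (Finset.mem_filter.1 hn).2, hn2⟩⟩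
    · exact ⟨0, fun h => absurd h hf⟩
  choose u hu using hu
  choose v hv using hv
  set N1 : ℕ := 36 * X.Q ^ (2 * X.g + 2) with hN1
  set N2 : ℕ := 52 * X.Q ^ (2 * X.g + 2) with hN2
  -- boxes of one colour
  have hcol : ∀ k ∈ (Finset.range (X.Q ^ (2 * X.g))) ×ˢ (Finset.range (X.Q ^ (2 * X.g))),
      (S.filter (fun f => (κ (u f), κ (v f)) = k)).card ≤ (2 * N1 + 1) * (2 * N2 + 1) := by
    intro k _
    rcases (S.filter (fun f => (κ (u f), κ (v f)) = k)).eq_empty_or_nonempty with he | ⟨f0, hf0⟩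
    · rw [he]; simp
    · have hf0' := Finset.mem_filter.1 hf0
      have hsub : S.filter (fun f => (κ (u f), κ (v f)) = k) ⊆
          (Finset.Icc (f0.1 - (N1 : ℤ)) (f0.1 + (N1 : ℤ))) ×ˢ
          (Finset.Icc (f0.2 - (N2 : ℤ)) (f0.2 + (N2 : ℤ))) := by
        intro f hf
        have hf' := Finset.mem_filter.1 hf
        obtain ⟨u1, u2, u3⟩ := hu f hf'.1
        obtain ⟨v1, v2, v3⟩ := hv f hf'.1
        obtain ⟨w1, w2, w3⟩ := hu f0 hf0'.1
        obtain ⟨z1, z2, z3⟩ := hv f0 hf0'.1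
        have hk : κ (u f0) = κ (u f) ∧ κ (v f0) = κ (v f) := by
          have := hf0'.2.trans hf'.2.symm
          simpa using this
        have hQi := h0.Qpow_pos i
        have hQj := h0.Qpow_pos j
        -- the two times
        have ht1 : InC X.Q j c (((c : ℝ) + 1) / (X.Q : ℝ) ^ j) := by
          unfold InC
          exact ⟨by gcongr; linarith, le_rfl⟩
        have ht2 : InC X.Q j c' ((c' : ℝ) / (X.Q : ℝ) ^ j) := by
          unfold InC
          exact ⟨le_rfl, by gcongr; linarith⟩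
        have hfar := XA1.far_cells hQ1 hgj hcc
        have hr0 : (0 : ℝ) ≤ ((c : ℝ) + 1) / (X.Q : ℝ) ^ j := by positivity
        have hpos : 0 < 1 / (X.Q : ℝ) ^ X.g := by
          have := h0.Qpow_pos X.g; positivity
        have hr1' : (c' : ℝ) / (X.Q : ℝ) ^ j ≤ 1 := by
          obtain ⟨_, s1, s2⟩ := h0.sub _ z1
          have := (hN3 j (v f0) s1).1
          have e : X.K.cell X.Q j (v f0) = c' := z2
          rw [e] at this
          linarith
        have hr1 : ((c : ℝ) + 1) / (X.Q : ℝ) ^ j ≤ 1 := by linarith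
        have hr0' : 0 ≤ (c' : ℝ) / (X.Q : ℝ) ^ j := by positivity
        -- closeness
        have f1 := hκ.flat (u f0) w1 (u f) u1 (by rw [w2, u2]) hk.1
          (((c : ℝ) + 1) / (X.Q : ℝ) ^ j) (by rw [w2]; exact ht1)
        have f2 := hκ.flat (v f0) z1 (v f) v1 (by rw [z2, v2]) hk.2
          ((c' : ℝ) / (X.Q : ℝ) ^ j) (by rw [z2]; exact ht2)
        have f3 := (hN7 i (X.K.a (u f0)) (X.K.a (v f0)) ((c' : ℝ) / (X.Q : ℝ) ^ j)
          (w3.trans z3.symm) hr0' hr1').1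
        have f4 := (hN7 i (X.K.a (u f)) (X.K.a (v f)) ((c' : ℝ) / (X.Q : ℝ) ^ j)
          (u3.trans v3.symm) hr0' hr1').1
        set A : ℝ := (X.Q : ℝ) ^ (X.g + 1) * X.dl j with hA
        have hAQ : A * (X.Q : ℝ) ^ i ≤ 16 * (X.Q : ℝ) ^ (X.g + 2) := by
          have h2 := h0.Qpow_pos (X.g + 1)
          calc A * (X.Q : ℝ) ^ i
              = (X.Q : ℝ) ^ (X.g + 1) * (X.dl j * (X.Q : ℝ) ^ i) := by rw [hA]; ring
            _ ≤ (X.Q : ℝ) ^ (X.g + 1) * (16 * X.Q) := mul_le_mul_of_nonneg_left hd h2.le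
            _ = _ := by ring
        have f5 : |X.K.ht (X.K.a (u f0)) ((c' : ℝ) / (X.Q : ℝ) ^ j) -
            X.K.ht (X.K.a (u f)) ((c' : ℝ) / (X.Q : ℝ) ^ j)| ≤ A + 4 / (X.Q : ℝ) ^ i := by
          have b2 := abs_le.1 f2
          have b3 := abs_le.1 f3
          have b4 := abs_le.1 f4
          have e : (4 : ℝ) / (X.Q : ℝ) ^ i = 2 / (X.Q : ℝ) ^ i + 2 / (X.Q : ℝ) ^ i := by ring
          rw [abs_le, e]
          constructor <;> linarith [b2.1, b2.2, b3.1, b3.2, b4.1, b4.2]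
        have g1 : |(X.K.y (X.K.a (u f0)) - X.K.y (X.K.a (u f))) +
            (X.K.x (X.K.a (u f0)) - X.K.x (X.K.a (u f))) * (((c : ℝ) + 1) / (X.Q : ℝ) ^ j)| ≤
            A := by
          have e : (X.K.y (X.K.a (u f0)) - X.K.y (X.K.a (u f))) +
            (X.K.x (X.K.a (u f0)) - X.K.x (X.K.a (u f))) * (((c : ℝ) + 1) / (X.Q : ℝ) ^ j) =
            X.K.ht (X.K.a (u f0)) (((c : ℝ) + 1) / (X.Q : ℝ) ^ j) -
            X.K.ht (X.K.a (u f)) (((c : ℝ) + 1) / (X.Q : ℝ) ^ j) := by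
            unfold KSys.ht; ring
          rw [e]; exact f1
        have g2 : |(X.K.y (X.K.a (u f0)) - X.K.y (X.K.a (u f))) +
            (X.K.x (X.K.a (u f0)) - X.K.x (X.K.a (u f))) * ((c' : ℝ) / (X.Q : ℝ) ^ j)| ≤
            A + 4 / (X.Q : ℝ) ^ i := by
          have e : (X.K.y (X.K.a (u f0)) - X.K.y (X.K.a (u f))) +
            (X.K.x (X.K.a (u f0)) - X.K.x (X.K.a (u f))) * ((c' : ℝ) / (X.Q : ℝ) ^ j) =
            X.K.ht (X.K.a (u f0)) ((c' : ℝ) / (X.Q : ℝ) ^ j) -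
            X.K.ht (X.K.a (u f)) ((c' : ℝ) / (X.Q : ℝ) ^ j) := by
            unfold KSys.ht; ring
          rw [e]; exact f5
        obtain ⟨x1, y1⟩ := XA1.two_times (h0.Qpow_pos X.g) hr0 hr1 hfar g1 g2
        -- in units of the boxes
        have hG : (1 : ℝ) ≤ (X.Q : ℝ) ^ X.g := h0.one_le_Qpow _
        have hG2 : (1 : ℝ) ≤ (X.Q : ℝ) ^ (X.g + 2) := h0.one_le_Qpow _
        have hmix : (X.Q : ℝ) ^ (X.g + 2) * (X.Q : ℝ) ^ X.g = (X.Q : ℝ) ^ (2 * X.g + 2) := by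
          rw [← pow_add]; congr 1; ring
        have hle : (X.Q : ℝ) ^ (X.g + 2) ≤ (X.Q : ℝ) ^ (2 * X.g + 2) := by
          rw [← hmix]
          exact le_mul_of_one_le_right (by linarith) hG
        have hAB : (A + (A + 4 / (X.Q : ℝ) ^ i)) * (X.Q : ℝ) ^ X.g * (X.Q : ℝ) ^ i ≤
            36 * (X.Q : ℝ) ^ (2 * X.g + 2) := by
          have e : (A + (A + 4 / (X.Q : ℝ) ^ i)) * (X.Q : ℝ) ^ X.g * (X.Q : ℝ) ^ i =
            (2 * (A * (X.Q : ℝ) ^ i) + 4) * (X.Q : ℝ) ^ X.g := by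
            field_simp; ring
          rw [e]
          calc (2 * (A * (X.Q : ℝ) ^ i) + 4) * (X.Q : ℝ) ^ X.g
              ≤ (36 * (X.Q : ℝ) ^ (X.g + 2)) * (X.Q : ℝ) ^ X.g :=
                mul_le_mul_of_nonneg_right (by linarith) (by linarith)
            _ = _ := by rw [mul_assoc, hmix]
        have hx : |X.K.x (X.K.a (u f0)) * (X.Q : ℝ) ^ i - X.K.x (X.K.a (u f)) * (X.Q : ℝ) ^ i| ≤
            36 * (X.Q : ℝ) ^ (2 * X.g + 2) := by
          rw [← sub_mul, abs_mul, abs_of_pos hQi]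
          exact (mul_le_mul_of_nonneg_right x1 hQi.le).trans hAB
        have hy : |X.K.y (X.K.a (u f0)) * (X.Q : ℝ) ^ i - X.K.y (X.K.a (u f)) * (X.Q : ℝ) ^ i| ≤
            52 * (X.Q : ℝ) ^ (2 * X.g + 2) := by
          rw [← sub_mul, abs_mul, abs_of_pos hQi]
          refine (mul_le_mul_of_nonneg_right y1 hQi.le).trans ?_
          rw [add_mul]
          linarith
        have e1 : f0 = (⌊X.K.x (X.K.a (u f0)) * (X.Q : ℝ) ^ i⌋,
            ⌊X.K.y (X.K.a (u f0)) * (X.Q : ℝ) ^ i⌋) := w3.symm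
        have e2 : f = (⌊X.K.x (X.K.a (u f)) * (X.Q : ℝ) ^ i⌋,
            ⌊X.K.y (X.K.a (u f)) * (X.Q : ℝ) ^ i⌋) := u3.symm
        have e3 := XA1.floor_near hx (N := N1) (by rw [hN1]; push_cast; exact le_rfl)
        have e4 := XA1.floor_near hy (N := N2) (by rw [hN2]; push_cast; exact le_rfl)
        rw [Finset.mem_product, congrArg Prod.fst e1, congrArg Prod.snd e1,
          congrArg Prod.fst e2, congrArg Prod.snd e2]
        exact ⟨e3, e4⟩
      refine (Finset.card_le_card hsub).trans ?_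
      rw [Finset.card_product, Int.card_Icc, Int.card_Icc]
      apply Nat.mul_le_mul
      · omega
      · omega
  have hmaps : ∀ f ∈ S, (κ (u f), κ (v f)) ∈
      (Finset.range (X.Q ^ (2 * X.g))) ×ˢ (Finset.range (X.Q ^ (2 * X.g))) := by
    intro f hf
    rw [Finset.mem_product, Finset.mem_range, Finset.mem_range]
    exact ⟨hκ.lt _ (hu f hf).1, hκ.lt _ (hv f hf).1⟩
  have hcard := Finset.card_le_mul_card_image_of_maps_to hmaps _ hcol
  rw [Finset.card_product, Finset.card_range] at hcard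
  have hfin : (2 * N1 + 1) * (2 * N2 + 1) * (X.Q ^ (2 * X.g) * X.Q ^ (2 * X.g)) ≤
      X.Q ^ (8 * X.g + 6) := by
    have hQ20 : 1048576 ≤ X.Q := by have := h0.hQ; norm_num at this; exact this
    have hY : 1 ≤ X.Q ^ (2 * X.g + 2) := Nat.one_le_pow _ _ (by omega)
    have e1 : (2 * N1 + 1) * (2 * N2 + 1) ≤
        (73 * X.Q ^ (2 * X.g + 2)) * (105 * X.Q ^ (2 * X.g + 2)) :=
      Nat.mul_le_mul (by omega) (by omega)
    calc (2 * N1 + 1) * (2 * N2 + 1) * (X.Q ^ (2 * X.g) * X.Q ^ (2 * X.g))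
        ≤ (73 * X.Q ^ (2 * X.g + 2)) * (105 * X.Q ^ (2 * X.g + 2)) *
          (X.Q ^ (2 * X.g) * X.Q ^ (2 * X.g)) := Nat.mul_le_mul_right _ e1
      _ = 7665 * X.Q ^ (8 * X.g + 4) := by ring
      _ ≤ X.Q ^ 2 * X.Q ^ (8 * X.g + 4) := by
          apply Nat.mul_le_mul_right
          calc 7665 ≤ X.Q ^ 1 := by rw [pow_one]; omega
            _ ≤ X.Q ^ 2 := Nat.pow_le_pow_right (by omega) (by norm_num)
      _ = _ := by rw [← pow_add]; congr 1; omega
  exact_mod_cast hcard.trans hfin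

end Pool.Agent.Work.MP_e17eac_co.PS
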