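import Pool.Agent.Work.MP_e17eac_co.PS.Spr

/-! # Greedy selection (item Greedy of block SPR) -/

namespace Pool.Agent.Work.MP_e17eac_co.PS

open Finset

namespace XGreedy

theorem aux (l : ℕ → ℝ) (D : ℕ → ℕ → ℝ) (T : ℕ) (hD : ∀ i k, D i k = D k i) :
    ∀ (n : ℕ) (S : Finset ℕ), S.card = n →
      (∀ i ∈ S, (S.filter (fun k => D i k ≤ l i)).card ≤ T) →
      ∃ S' ⊆ S, S.card ≤ (T + 1) * S'.card ∧
        ∀ i ∈ S', ∀ k ∈ S', i ≠ k → max (l i) (l k) < D i k := by
  intro n
  induction n using Nat.strong_induction_on with
  | _ n ih =>
    intro S hS hT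
    rcases S.eq_empty_or_nonempty with h0 | h0
    · refine ⟨∅, by simp, by simp [h0], by simp⟩
    · obtain ⟨i0, hi0, hmax⟩ := Finset.exists_max_image S l h0
      set S1 : Finset ℕ := (S.erase i0).filter (fun k => ¬ D i0 k ≤ l i0) with hS1
      have hS1S : S1 ⊆ S := (Finset.filter_subset _ _).trans (Finset.erase_subset _ _)
      have hi01 : i0 ∉ S1 := by simp [hS1]
      have hlt : S1.card < n := by
        rw [← hS]
        exact Finset.card_lt_card
          ⟨hS1S, fun h => hi01 (h hi0)⟩
      have hT1 : ∀ i ∈ S1, (S1.filter (fun k => D i k ≤ l i)).card ≤ T := fun i hi =>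
        (Finset.card_le_card (Finset.filter_subset_filter _ hS1S)).trans (hT i (hS1S hi))
      obtain ⟨S1', hsub, hcard, hsep⟩ := ih S1.card hlt S1 rfl hT1
      have hi0' : i0 ∉ S1' := fun h => hi01 (hsub h)
      refine ⟨insert i0 S1', ?_, ?_, ?_⟩
      · intro k hk
        rcases Finset.mem_insert.1 hk with h | h
        · exact h ▸ hi0
        · exact hS1S (hsub h)
      · rw [Finset.card_insert_of_notMem hi0']
        have h1 : S.card ≤ 1 + T + S1.card := by
          have hcov : S ⊆ ({i0} ∪ S.filter (fun k => D i0 k ≤ l i0)) ∪ S1 := by
            intro k hk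
            by_cases hk0 : k = i0
            · simp [hk0]
            · by_cases hkd : D i0 k ≤ l i0
              · simp [hk, hkd]
              · simp only [hS1, Finset.mem_union, Finset.mem_filter, Finset.mem_erase]
                exact Or.inr ⟨⟨hk0, hk⟩, hkd⟩
          calc S.card ≤ _ := Finset.card_le_card hcov
            _ ≤ _ := Finset.card_union_le _ _
            _ ≤ (({i0} : Finset ℕ).card + (S.filter (fun k => D i0 k ≤ l i0)).card)
                  + S1.card := Nat.add_le_add_right (Finset.card_union_le _ _) _
            _ ≤ 1 + T + S1.card := by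
                have := hT i0 hi0
                simp only [Finset.card_singleton]
                omega
        calc S.card ≤ 1 + T + S1.card := h1
          _ ≤ 1 + T + (T + 1) * S1'.card := Nat.add_le_add_left hcard _
          _ = (T + 1) * (S1'.card + 1) := by ring
      · have key : ∀ k ∈ S1', max (l i0) (l k) < D i0 k := by
          intro k hk
          have hk1 := hsub hk
          rw [hS1, Finset.mem_filter, Finset.mem_erase] at hk1
          have hk2 : l i0 < D i0 k := not_le.1 hk1.2
          exact max_lt hk2 (lt_of_le_of_lt (hmax k hk1.1.2) hk2)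
        intro i hi k hk hik
        rcases Finset.mem_insert.1 hi with h | h
        · subst h
          rcases Finset.mem_insert.1 hk with h' | h'
          · exact absurd h'.symm hik
          · exact key k h'
        · rcases Finset.mem_insert.1 hk with h' | h'
          · subst h'
            rw [hD, max_comm]
            exact key i h
          · exact hsep i h k h' hik

end XGreedy

theorem I_Greedy : StGreedy := by
  intro S l D T hD hT
  classical
  refine XGreedy.aux l D T hD S.card S rfl ?_
  intro i hi
  have := hT i hi
  convert this

end Pool.Agent.Work.MP_e17eac_co.PS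

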