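import Pool.Agent.Work.MP_e17eac_co.PS.Lg

/-!
# Project PS, item Q7: pairs (cell, box) against pairs (cell, slot)
-/

namespace Pool.Agent.Work.MP_e17eac_co.PS

open Finset
open Pool.Agent.Work.MP_e17eac_co.DH

namespace XQ7

/-- Number of values, counted in the fibres of another function. -/
theorem im_le_mul {α β : Type} [DecidableEq α] [DecidableEq β] (E : Finset ℕ)
    (G : ℕ → α) (H : ℕ → β) (M : ℕ)
    (hM : ∀ n0 ∈ E, im (E.filter (fun n => H n = H n0)) G ≤ M) :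
    im E G ≤ im E H * M := by
  classical
  unfold im
  have hsub : E.image G ⊆
      (E.image H).biUnion (fun b => (E.filter (fun n => H n = b)).image G) := by
    intro a ha
    obtain ⟨n, hn, rfl⟩ := Finset.mem_image.1 ha
    refine Finset.mem_biUnion.2 ⟨H n, Finset.mem_image_of_mem _ hn, ?_⟩
    exact Finset.mem_image_of_mem _ (Finset.mem_filter.2 ⟨hn, rfl⟩)
  refine (Finset.card_le_card hsub).trans ?_
  refine Finset.card_biUnion_le_card_mul _ _ _ ?_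
  intro b hb
  obtain ⟨n0, hn0, rfl⟩ := Finset.mem_image.1 hb
  exact hM n0 hn0

theorem im_pair_le {α : Type} [DecidableEq α] (E : Finset ℕ) (A : ℕ → α) (κ : ℕ → ℕ) (M : ℕ)
    (hκ : ∀ n ∈ E, κ n < M) : im E (fun n => (A n, κ n)) ≤ im E A * M := by
  unfold im
  have hsub : E.image (fun n => (A n, κ n)) ⊆ (E.image A) ×ˢ (Finset.range M) := by
    intro a ha
    obtain ⟨n, hn, rfl⟩ := Finset.mem_image.1 ha
    exact Finset.mem_product.2 ⟨Finset.mem_image_of_mem _ hn, Finset.mem_range.2 (hκ n hn)⟩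
  have := Finset.card_le_card hsub
  rwa [Finset.card_product, Finset.card_range] at this

theorem floor_diff {a b R : ℝ} (h : |a - b| ≤ R) : |((⌊a⌋ : ℝ) - (⌊b⌋ : ℝ))| ≤ R + 1 := by
  have h1 := Int.floor_le a
  have h2 := Int.lt_floor_add_one a
  have h3 := Int.floor_le b
  have h4 := Int.lt_floor_add_one b
  have h5 := abs_le.1 h
  rw [abs_le]
  constructor <;> linarith [h5.1, h5.2]

variable {ι : Type} [Fintype ι] [DecidableEq ι]

theorem fibre (hNest : StNest) (X : RS ι) (h : X.OK) (j i : ℕ)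
    (hd : X.dl j * (X.Q : ℝ) ^ i ≤ 16 * X.Q) (κ : ℕ → ℕ) (hκ : X.Cls j κ)
    (n0 : ℕ) (hn0 : n0 ∈ X.E) (n : ℕ) (hn : n ∈ X.E) (hc : X.cl j n = X.cl j n0)
    (hs : X.slot i n = X.slot i n0) (hk : κ n = κ n0) :
    |(X.box i n).2 - (X.box i n0).2| ≤ ((16 * X.Q ^ (X.g + 2) + 2 : ℕ) : ℤ) := by
  have h0 := h.toOK0
  have hQ1 : 1 ≤ X.Q := by
    have := h0.one_lt_Q
    have h1 : 1 < X.Q := by exact_mod_cast this
    omega
  obtain ⟨-, -, hin, -, -, -, -, -⟩ := hNest ι X.K X.Q hQ1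
  have hsub := h0.sub n hn
  have hr := hin j n hsub.2.1
  have hfl := hκ.flat n hn n0 hn0 hc hk (X.K.t n) hr
  have hQi : (0 : ℝ) < (X.Q : ℝ) ^ i := h0.Qpow_pos i
  have ht0 := hsub.2.1
  have ht1 := hsub.2.2
  -- slopes
  have hx : |X.K.x (X.K.a n) * (X.Q : ℝ) ^ i - X.K.x (X.K.a n0) * (X.Q : ℝ) ^ i| ≤ 1 := by
    have hs' : ⌊X.K.x (X.K.a n) * (X.Q : ℝ) ^ i⌋ = ⌊X.K.x (X.K.a n0) * (X.Q : ℝ) ^ i⌋ := hs
    have h1 := Int.floor_le (X.K.x (X.K.a n) * (X.Q : ℝ) ^ i)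
    have h2 := Int.lt_floor_add_one (X.K.x (X.K.a n) * (X.Q : ℝ) ^ i)
    have h3 := Int.floor_le (X.K.x (X.K.a n0) * (X.Q : ℝ) ^ i)
    have h4 := Int.lt_floor_add_one (X.K.x (X.K.a n0) * (X.Q : ℝ) ^ i)
    rw [hs'] at h1 h2
    rw [abs_le]
    constructor <;> linarith
  have hy : |X.K.y (X.K.a n) * (X.Q : ℝ) ^ i - X.K.y (X.K.a n0) * (X.Q : ℝ) ^ i| ≤
      16 * (X.Q : ℝ) ^ (X.g + 2) + 1 := by
    have e : X.K.y (X.K.a n) * (X.Q : ℝ) ^ i - X.K.y (X.K.a n0) * (X.Q : ℝ) ^ i =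
        (X.K.ht (X.K.a n) (X.K.t n) - X.K.ht (X.K.a n0) (X.K.t n)) * (X.Q : ℝ) ^ i -
        (X.K.x (X.K.a n) * (X.Q : ℝ) ^ i - X.K.x (X.K.a n0) * (X.Q : ℝ) ^ i) * X.K.t n := by
      unfold KSys.ht; ring
    rw [e]
    have h1 : |(X.K.ht (X.K.a n) (X.K.t n) - X.K.ht (X.K.a n0) (X.K.t n)) * (X.Q : ℝ) ^ i| ≤
        16 * (X.Q : ℝ) ^ (X.g + 2) := by
      rw [abs_mul, abs_of_pos hQi]
      calc |X.K.ht (X.K.a n) (X.K.t n) - X.K.ht (X.K.a n0) (X.K.t n)| * (X.Q : ℝ) ^ i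
          ≤ ((X.Q : ℝ) ^ (X.g + 1) * X.dl j) * (X.Q : ℝ) ^ i :=
            mul_le_mul_of_nonneg_right hfl hQi.le
        _ = (X.Q : ℝ) ^ (X.g + 1) * (X.dl j * (X.Q : ℝ) ^ i) := by ring
        _ ≤ (X.Q : ℝ) ^ (X.g + 1) * (16 * X.Q) :=
            mul_le_mul_of_nonneg_left hd (h0.Qpow_pos _).le
        _ = 16 * (X.Q : ℝ) ^ (X.g + 2) := by ring
    have h2 : |(X.K.x (X.K.a n) * (X.Q : ℝ) ^ i - X.K.x (X.K.a n0) * (X.Q : ℝ) ^ i) * X.K.t n|
        ≤ 1 := by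
      rw [abs_mul, abs_of_nonneg ht0]
      have h3 := abs_nonneg
        (X.K.x (X.K.a n) * (X.Q : ℝ) ^ i - X.K.x (X.K.a n0) * (X.Q : ℝ) ^ i)
      nlinarith
    exact (abs_sub _ _).trans (by linarith)
  have hfin := floor_diff hy
  have e2 : ((X.box i n).2 - (X.box i n0).2 : ℤ) =
      ⌊X.K.y (X.K.a n) * (X.Q : ℝ) ^ i⌋ - ⌊X.K.y (X.K.a n0) * (X.Q : ℝ) ^ i⌋ := rfl
  rw [e2]
  have : ((|⌊X.K.y (X.K.a n) * (X.Q : ℝ) ^ i⌋ - ⌊X.K.y (X.K.a n0) * (X.Q : ℝ) ^ i⌋| : ℤ) : ℝ) ≤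
      (((16 * X.Q ^ (X.g + 2) + 2 : ℕ) : ℤ) : ℝ) := by
    push_cast
    linarith
  exact_mod_cast this

end XQ7

theorem I_Q7 (hNest : StNest) (hCls0 : StCls0) : StQ7 := by
  classical
  intro ι _ _ X h j i hj hi hd
  have h0 := h.toOK0
  have hdl : 0 < X.dl j := by
    have h1 := h.deep j hj
    by_contra hcon
    push Not at hcon
    have h2 := h0.Qpow_pos X.I
    nlinarith
  obtain ⟨κ, hκ⟩ := hCls0 ι X h0 j hj hdl (h.typ j hj)
  set R : ℕ := 16 * X.Q ^ (X.g + 2) + 2 with hR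
  have s1 : im X.E (fun n => (X.cl j n, X.box i n)) ≤
      im X.E (fun n => ((X.cl j n, X.box i n), κ n)) := by
    refine RS.im_le_im X.E _ _ ?_
    intro n _ k _ e
    exact (Prod.mk.inj e).1
  have s2 : im X.E (fun n => ((X.cl j n, X.box i n), κ n)) ≤
      im X.E (fun n => ((X.cl j n, X.slot i n), κ n)) * (2 * R + 1) := by
    refine XQ7.im_le_mul X.E _ _ _ ?_
    intro n0 hn0
    unfold im
    have hsub : (X.E.filter (fun n => ((X.cl j n, X.slot i n), κ n) =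
        ((X.cl j n0, X.slot i n0), κ n0))).image (fun n => ((X.cl j n, X.box i n), κ n)) ⊆
        (Finset.Icc ((X.box i n0).2 - (R : ℤ)) ((X.box i n0).2 + (R : ℤ))).image
          (fun y => ((X.cl j n0, (X.slot i n0, y)), κ n0)) := by
      intro a ha
      obtain ⟨n, hn, rfl⟩ := Finset.mem_image.1 ha
      obtain ⟨hnE, hne⟩ := Finset.mem_filter.1 hn
      have e1 := Prod.mk.inj hne
      have e2 := Prod.mk.inj e1.1
      have hb := XQ7.fibre hNest X h j i hd κ hκ n0 hn0 n hnE e2.1 e2.2 e1.2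
      have hb2 := abs_le.1 hb
      refine Finset.mem_image.2 ⟨(X.box i n).2, ?_, ?_⟩
      · rw [Finset.mem_Icc]
        constructor
        · linarith [hb2.1]
        · linarith [hb2.2]
      · have e3 : X.box i n = (X.slot i n, (X.box i n).2) := rfl
        rw [e3, e2.1, e2.2, e1.2]
    refine (Finset.card_le_card hsub).trans ?_
    refine Finset.card_image_le.trans ?_
    rw [Int.card_Icc]
    omega
  have s3 := XQ7.im_pair_le X.E (fun n => (X.cl j n, X.slot i n)) κ (X.Q ^ (2 * X.g)) hκ.lt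
  have s4 : im X.E (fun n => (X.cl j n, X.box i n)) ≤
      im X.E (fun n => (X.cl j n, X.slot i n)) * X.Q ^ (2 * X.g) * (2 * R + 1) :=
    (s1.trans s2).trans (Nat.mul_le_mul_right _ s3)
  have s5 : (im X.E (fun n => (X.cl j n, X.box i n)) : ℝ) ≤
      (im X.E (fun n => (X.cl j n, X.slot i n)) : ℝ) * (X.Q : ℝ) ^ (2 * X.g) *
        (33 * (X.Q : ℝ) ^ (X.g + 2)) := by
    have h1 : (im X.E (fun n => (X.cl j n, X.box i n)) : ℝ) ≤
      (im X.E (fun n => (X.cl j n, X.slot i n)) : ℝ) * (X.Q : ℝ) ^ (2 * X.g) *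
        (2 * (R : ℝ) + 1) := by exact_mod_cast s4
    refine h1.trans (mul_le_mul_of_nonneg_left ?_ ?_)
    · rw [hR]
      push_cast
      have h2 : (1048576 : ℝ) ≤ (X.Q : ℝ) ^ (X.g + 2) := by
        calc (1048576 : ℝ) ≤ X.Q := h0.Q_gt
          _ = (X.Q : ℝ) ^ 1 := (pow_one _).symm
          _ ≤ (X.Q : ℝ) ^ (X.g + 2) := pow_le_pow_right₀ h0.one_lt_Q.le (by omega)
      linarith
    · have := h0.Qpow_pos (2 * X.g)
      positivity
  have p1 := h0.im_pos (fun n => (X.cl j n, X.box i n))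
  have p2 := h0.im_pos (fun n => (X.cl j n, X.slot i n))
  have s6 := h0.lg_le (by linarith) s5
  rw [h0.lg_mul (mul_pos (by linarith) (h0.Qpow_pos _)) (mul_pos (by norm_num) (h0.Qpow_pos _)),
    h0.lg_mul (by linarith) (h0.Qpow_pos _), h0.lg_mul (by norm_num) (h0.Qpow_pos _),
    h0.lg_Qpow, h0.lg_Qpow] at s6
  have s7 := h0.lg_const (c := 33) (by norm_num) 6 (by norm_num)
  push_cast at s6 s7
  show X.lg (im X.E (fun n => (X.cl j n, X.box i n))) ≤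
    X.lg (im X.E (fun n => (X.cl j n, X.slot i n))) + 3 * X.g + 6
  linarith

end Pool.Agent.Work.MP_e17eac_co.PS
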