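import Pool.Agent.Work.MP_e17eac_co.PS.FinalSp
import Pool.Agent.Work.MP_e17eac_co.PS.P_Greedy
import Pool.Agent.Work.MP_e17eac_co.PS.P_Q7
import Pool.Agent.Work.MP_e17eac_co.PS.P_A1
import Pool.Agent.Work.MP_e17eac_co.PS.P_A0
import Pool.Agent.Work.MP_e17eac_co.RING.RingFinal

/-!
# Project PS: the closed theorem
-/

namespace Pool.Agent.Work.MP_e17eac_co.PS

theorem winSp : StWinSp :=
  winSp_of I_Greedy (I_Q7 YNest YCls0) (I_A1 YNest YCls0) (I_A0 YNest YCls0) RING.ringMain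

end Pool.Agent.Work.MP_e17eac_co.PS
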