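import Pool.Agent.Work.MP_e17eac_co.Bd.B23

/-!
# Project PS, item MainS: from one window to all edges
-/

namespace Pool.Agent.Work.MP_e17eac_co.PS

open Finset
open Pool.Agent.Work.MP_e17eac_co.DH

/-- All edges, by an affine change of time. -/
theorem I_MainS (h : StWinR) : StMainS := by
  classical
  intro B hB
  obtain ⟨c, hc, C, hC, hW⟩ := h B hB
  refine ⟨c, hc, C, hC, ?_⟩
  intro ι _ _ K m hm hsep hgp hmB
  rcases Nat.eq_zero_or_pos K.N with h0 | h0
  · rw [h0, Nat.cast_zero]
    positivity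
  -- all times are in [t0, t0 + R)
  obtain ⟨t0, R, hR, ht⟩ : ∃ t0 R : ℝ, 0 < R ∧ ∀ n, n < K.N → t0 ≤ K.t n ∧ K.t n < t0 + R := by
    obtain ⟨a, ha⟩ := ((range K.N).image K.t).bddBelow
    obtain ⟨b, hb⟩ := ((range K.N).image K.t).bddAbove
    have h1 : ∀ n, n < K.N → a ≤ K.t n ∧ K.t n ≤ b := by
      intro n hn
      have hmem : K.t n ∈ ((range K.N).image K.t : Finset ℝ) :=
        Finset.mem_image.2 ⟨n, Finset.mem_range.2 hn, rfl⟩
      exact ⟨ha (Finset.mem_coe.2 hmem), hb (Finset.mem_coe.2 hmem)⟩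
    have h2 := h1 0 h0
    refine ⟨a, b - a + 1, by linarith, fun n hn => ?_⟩
    have := h1 n hn
    exact ⟨this.1, by linarith⟩
  have hx : (K.resc t0 R hR).x = K.x := rfl
  have hN : (K.resc t0 R hR).N = K.N := rfl
  have hsep' : (K.resc t0 R hR).Sep m := hsep
  have hgp' : ∀ i j l, i ≠ j → i ≠ l → j ≠ l →
      det3 (K.resc t0 R hR).x (K.resc t0 R hR).y i j l ≠ 0 := by
    intro i j l hij hil hjl
    have e : det3 (K.resc t0 R hR).x (K.resc t0 R hR).y i j l = det3 K.x K.y i j l / R := by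
      unfold det3 KSys.resc
      simp only
      field_simp
      ring
    rw [e]
    exact div_ne_zero (hgp i j l hij hil hjl) hR.ne'
  have hmain := hW ι (K.resc t0 R hR) m hm hsep' hgp' hmB
  have hfil : ((range (K.resc t0 R hR).N).filter
      (fun n => 0 ≤ (K.resc t0 R hR).t n ∧ (K.resc t0 R hR).t n < 1)) = range K.N := by
    rw [hN]
    apply Finset.filter_true_of_mem
    intro n hn
    have h1 := ht n (Finset.mem_range.1 hn)
    have e : (K.resc t0 R hR).t n = (K.t n - t0) / R := rfl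
    rw [e]
    constructor
    · exact div_nonneg (by linarith) hR.le
    · rw [div_lt_one hR]
      linarith
  rw [hfil, Finset.card_range] at hmain
  exact hmain

end Pool.Agent.Work.MP_e17eac_co.PS
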