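import Pool.Agent.Work.MP_e17eac_co.Bd.B23

/-!
# Project PS, item PtShear: choice of a shear which separates the abscissae
-/

namespace Pool.Agent.Work.MP_e17eac_co.PS

open Finset
open Pool.Agent.Work.MP_e17eac_co.DH

namespace XPtShear

/-- Two different shears cannot both be bad for the same pair. -/
theorem one_bad (a b d M ei ej : ℝ) (hd : 0 < d) (hM : 1 ≤ M) (h : d ≤ |a| ∨ d ≤ |b|)
    (hei0 : 0 ≤ ei) (hei : ei ≤ 1 / 2) (hij : 1 ≤ 2 * M * |ei - ej|)
    (h1 : 8 * M * |a + ei * b| < d) (h2 : 8 * M * |a + ej * b| < d) : False := by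
  have hM0 : 0 < M := by linarith
  have hb : |b| < d / 2 := by
    have e1 : |ei - ej| * |b| ≤ |a + ei * b| + |a + ej * b| := by
      rw [← abs_mul]
      have : (ei - ej) * b = (a + ei * b) - (a + ej * b) := by ring
      rw [this]
      exact abs_sub _ _
    have e2 : |b| ≤ 2 * M * (|ei - ej| * |b|) := by
      have := mul_le_mul_of_nonneg_right hij (abs_nonneg b)
      linarith
    have e3 : 2 * M * (|ei - ej| * |b|) ≤ 2 * M * (|a + ei * b| + |a + ej * b|) :=
      mul_le_mul_of_nonneg_left e1 (by linarith)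
    nlinarith
  have ha : d ≤ |a| := by
    rcases h with h | h
    · exact h
    · linarith
  have e4 : |a| ≤ |a + ei * b| + ei * |b| := by
    have : a = (a + ei * b) - ei * b := by ring
    calc |a| = |(a + ei * b) - ei * b| := by rw [← this]
      _ ≤ |a + ei * b| + |ei * b| := abs_sub _ _
      _ = |a + ei * b| + ei * |b| := by rw [abs_mul, abs_of_nonneg hei0]
  have e5 : ei * |b| ≤ 1 / 2 * |b| := mul_le_mul_of_nonneg_right hei (abs_nonneg b)
  have e6 : |a + ei * b| ≤ M * |a + ei * b| := by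
    have := mul_le_mul_of_nonneg_right hM (abs_nonneg (a + ei * b))
    linarith
  linarith

end XPtShear

open XPtShear in
theorem I_PtShear : StShear := by
  intro P d hd hP hsep
  have hN1 : 1 ≤ P.card := Finset.card_pos.2 hP
  have hNr : (1 : ℝ) ≤ (P.card : ℝ) := by exact_mod_cast hN1
  have hM : (1 : ℝ) ≤ (P.card : ℝ) ^ 2 := by nlinarith
  have hM0 : (0 : ℝ) < (P.card : ℝ) ^ 2 := by linarith
  by_contra hcon
  push Not at hcon
  have hle : ∀ i ∈ Finset.range (P.card ^ 2 + 1), (i : ℝ) / (2 * (P.card : ℝ) ^ 2) ≤ 1 / 2 := by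
    intro i hi
    rw [Finset.mem_range] at hi
    have : (i : ℝ) ≤ (P.card : ℝ) ^ 2 := by exact_mod_cast Nat.lt_succ_iff.1 hi
    rw [div_le_iff₀ (by positivity)]
    linarith
  have hbad : ∀ i ∈ Finset.range (P.card ^ 2 + 1), ∃ pq ∈ P.offDiag,
      8 * (P.card : ℝ) ^ 2 * |(pq.1.1 + (i : ℝ) / (2 * (P.card : ℝ) ^ 2) * pq.1.2) -
        (pq.2.1 + (i : ℝ) / (2 * (P.card : ℝ) ^ 2) * pq.2.2)| < d := by
    intro i hi
    obtain ⟨p, hp, q, hq, hpq, h⟩ := hcon ((i : ℝ) / (2 * (P.card : ℝ) ^ 2)) (by positivity)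
      (hle i hi)
    exact ⟨(p, q), Finset.mem_offDiag.2 ⟨hp, hq, hpq⟩, h⟩
  choose! f hf1 hf2 using hbad
  obtain ⟨i, hi, j, hj, hij, hfij⟩ := Finset.exists_ne_map_eq_of_card_lt_of_maps_to
    (s := Finset.range (P.card ^ 2 + 1)) (t := P.offDiag) (f := f)
    (by
      rw [Finset.card_range, Finset.offDiag_card]
      have : P.card ^ 2 = P.card * P.card := sq _
      omega) (fun i hi => hf1 i hi)
  have h1 := hf2 i hi
  have h2 := hf2 j hj
  rw [← hfij] at h2
  have hm := Finset.mem_offDiag.1 (hf1 i hi)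
  have hs := hsep _ hm.1 _ hm.2.1 hm.2.2
  refine one_bad ((f i).1.1 - (f i).2.1) ((f i).1.2 - (f i).2.2) d ((P.card : ℝ) ^ 2)
    ((i : ℝ) / (2 * (P.card : ℝ) ^ 2)) ((j : ℝ) / (2 * (P.card : ℝ) ^ 2)) hd hM hs
    (by positivity) (hle i hi) ?_ ?_ ?_
  · have e1 : (i : ℝ) / (2 * (P.card : ℝ) ^ 2) - (j : ℝ) / (2 * (P.card : ℝ) ^ 2) =
        ((i : ℝ) - j) / (2 * (P.card : ℝ) ^ 2) := by ring
    rw [e1, abs_div, abs_of_pos (by positivity : (0 : ℝ) < 2 * (P.card : ℝ) ^ 2),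
      mul_div_cancel₀ _ (by positivity)]
    have : (1 : ℤ) ≤ |(i : ℤ) - j| := Int.one_le_abs (by omega)
    exact_mod_cast this
  · refine lt_of_eq_of_lt ?_ h1
    congr 2
    ring
  · refine lt_of_eq_of_lt ?_ h2
    congr 2
    ring

end Pool.Agent.Work.MP_e17eac_co.PS
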