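import Pool.Agent.Work.MP_e17eac_co.PS.WinSp
import Pool.Agent.Work.MP_e17eac_co.PS.P_MainS
import Pool.Agent.Work.MP_e17eac_co.Bd.B23
import Pool.Agent.Work.MP_e17eac_co.Bd.B32
import Pool.Agent.Work.MP_e17eac_co.Bd.B24
import Pool.Agent.Work.MP_e17eac_co.PS.P_PtShear

/-!
# Project PS: from the window theorem to point sets
-/

namespace Pool.Agent.Work.MP_e17eac_co.PS

open Finset
open Pool.Agent.Work.MP_e17eac_co.DH

theorem winR_of_winSp (h : StWinSp) : StWinR := by
  intro B hB
  obtain ⟨c, hc, C, hC, H⟩ := h B hB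
  refine ⟨c, hc, C, hC, ?_⟩
  intro ι _ _ K m hm hsep hgp hmB
  refine H ι K m hm hsep ?_ hmB
  intro i j l h1 h2 h3
  have := hgp i j l h1 h2 h3
  unfold det3 at this
  exact sub_ne_zero.1 this

/-- Everything about point sets follows from the window theorem. -/
theorem I_Pts (h : StWinSp) : StU :=
  have hM : StMainS := I_MainS (winR_of_winSp h)
  have hX : StX := I_ResX hM I_PtSwy
  I_ResU hX (I_ResS hX I_PtShear)

end Pool.Agent.Work.MP_e17eac_co.PS
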