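import Pool.Agent.Work.MP_e17eac_co.PS.Lg

/-!
# Item A of block REG: Cordoba between far cells
-/

namespace Pool.Agent.Work.MP_e17eac_co.PS

open Finset
open Pool.Agent.Work.MP_e17eac_co.DH

namespace XA

/-- Number of pairs which are not near. -/
theorem pairs {β : Type} [DecidableEq β] (T : Finset β) (R : β → β → Prop) [DecidableRel R]
    (P M : ℝ) (hP : 0 ≤ P) (hT : P ≤ (T.card : ℝ)) (hM : M ≤ P / 2)
    (hR : ∀ b ∈ T, ((T.filter (fun b2 => R b b2)).card : ℝ) ≤ M) :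
    P ^ 2 / 2 ≤ (((T ×ˢ T).filter (fun z => ¬ R z.1 z.2)).card : ℝ) := by
  classical
  have h1 : ((T ×ˢ T).filter (fun z => ¬ R z.1 z.2)).card =
      ∑ b ∈ T, (T.filter (fun b2 => ¬ R b b2)).card := by
    rw [Finset.card_filter, Finset.sum_product]
    refine Finset.sum_congr rfl ?_
    intro b _
    rw [Finset.card_filter]
  have h2 : ∀ b ∈ T, (T.card : ℝ) - M ≤ ((T.filter (fun b2 => ¬ R b b2)).card : ℝ) := by
    intro b hb
    have h3 := Finset.card_filter_add_card_filter_not (s := T) (fun b2 => R b b2)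
    have h4 : ((T.filter (fun b2 => R b b2)).card : ℝ) +
      ((T.filter (fun b2 => ¬ R b b2)).card : ℝ) = (T.card : ℝ) := by exact_mod_cast h3
    have h5 := hR b hb
    linarith
  have h3 : ∑ _b ∈ T, ((T.card : ℝ) - M) ≤
      ∑ b ∈ T, ((T.filter (fun b2 => ¬ R b b2)).card : ℝ) := Finset.sum_le_sum h2
  rw [Finset.sum_const, nsmul_eq_mul] at h3
  rw [h1]
  push_cast
  refine le_trans ?_ h3
  nlinarith

/-- Double counting of the triples (box, cell, cell). -/
theorem core (E : Finset ℕ) (c : ℕ → ℕ) (F B : ℕ → ℤ × ℤ)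
    (hFB : ∀ n ∈ E, ∀ k ∈ E, F n = F k → B n = B k) (R : ℕ → ℕ → Prop) [DecidableRel R]
    (A K0 d : ℝ) (hK : 0 ≤ K0)
    (h1 : ∀ n ∈ E, A ≤ (((((E.filter (fun k => F k = F n)).image c) ×ˢ
      ((E.filter (fun k => F k = F n)).image c)).filter (fun z => ¬ R z.1 z.2)).card : ℝ))
    (h2 : ∀ x y, ¬ R x y → (((E.filter (fun k => c k = x)).image F ∩
      (E.filter (fun k => c k = y)).image F).card : ℝ) ≤ K0)
    (h3 : ∀ n ∈ E, (((E.filter (fun k => B k = B n)).image c).card : ℝ) ≤ d) :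
    ((E.image F).card : ℝ) * A ≤ K0 * (((E.image B).card : ℝ) * d ^ 2) := by
  classical
  obtain ⟨T, hT⟩ : ∃ T : Finset ((ℤ × ℤ) × ℕ × ℕ),
      T = ((E ×ˢ E).filter (fun z => F z.1 = F z.2 ∧ ¬ R (c z.1) (c z.2))).image
        (fun z => (F z.1, c z.1, c z.2)) := ⟨_, rfl⟩
  have memT : ∀ a x y, (a, x, y) ∈ T ↔ (∃ n ∈ E, F n = a ∧ c n = x) ∧
      (∃ k ∈ E, F k = a ∧ c k = y) ∧ ¬ R x y := by
    intro a x y
    rw [hT, Finset.mem_image]
    constructor
    · rintro ⟨⟨n, k⟩, hz, he⟩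
      obtain ⟨hz1, hz2, hz3⟩ := Finset.mem_filter.1 hz
      obtain ⟨hn, hk⟩ := Finset.mem_product.1 hz1
      simp only [Prod.mk.injEq] at he
      obtain ⟨e1, e2, e3⟩ := he
      dsimp only at hn hk hz2 hz3
      refine ⟨⟨n, hn, e1, e2⟩, ⟨k, hk, by rw [← hz2, e1], e3⟩, ?_⟩
      rw [← e2, ← e3]; exact hz3
    · rintro ⟨⟨n, hn, e1, e2⟩, ⟨k, hk, e3, e4⟩, hR⟩
      refine ⟨(n, k), Finset.mem_filter.2 ⟨Finset.mem_product.2 ⟨hn, hk⟩, ?_, ?_⟩, ?_⟩
      · show F n = F k
        rw [e1, e3]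
      · show ¬ R (c n) (c k)
        rw [e2, e4]; exact hR
      · show (F n, c n, c k) = (a, x, y)
        rw [e1, e2, e4]
  -- lower bound
  have low : ((E.image F).card : ℝ) * A ≤ (T.card : ℝ) := by
    have hmap : ∀ z ∈ T, z.1 ∈ E.image F := by
      rintro ⟨a, x, y⟩ hz
      obtain ⟨⟨n, hn, e1, -⟩, -, -⟩ := (memT a x y).1 hz
      exact Finset.mem_image.2 ⟨n, hn, e1⟩
    have e := Finset.card_eq_sum_card_fiberwise hmap
    have e' : (T.card : ℝ) = ∑ a ∈ E.image F, ((T.filter (fun z => z.1 = a)).card : ℝ) := by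
      exact_mod_cast e
    rw [e', ← nsmul_eq_mul, ← Finset.sum_const]
    refine Finset.sum_le_sum ?_
    intro a ha
    obtain ⟨n, hn, rfl⟩ := Finset.mem_image.1 ha
    refine (h1 n hn).trans ?_
    have : ((((E.filter (fun k => F k = F n)).image c) ×ˢ
      ((E.filter (fun k => F k = F n)).image c)).filter (fun z => ¬ R z.1 z.2)).card ≤
        (T.filter (fun z => z.1 = F n)).card := by
      refine Finset.card_le_card_of_injOn (fun z => (F n, z.1, z.2)) ?_ ?_
      · rintro ⟨x, y⟩ hz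
        rw [Finset.mem_coe] at hz
        obtain ⟨hz1, hz2⟩ := Finset.mem_filter.1 hz
        obtain ⟨hx, hy⟩ := Finset.mem_product.1 hz1
        obtain ⟨k, hk, ek⟩ := Finset.mem_image.1 hx
        obtain ⟨l, hl, el⟩ := Finset.mem_image.1 hy
        obtain ⟨hk1, hk2⟩ := Finset.mem_filter.1 hk
        obtain ⟨hl1, hl2⟩ := Finset.mem_filter.1 hl
        rw [Finset.mem_coe, Finset.mem_filter]
        exact ⟨(memT _ _ _).2 ⟨⟨k, hk1, hk2, ek⟩, ⟨l, hl1, hl2, el⟩, hz2⟩, rfl⟩
      · rintro ⟨x, y⟩ _ ⟨x', y'⟩ _ he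
        simp only [Prod.mk.injEq, true_and] at he
        rw [he.1, he.2]
    exact_mod_cast this
  -- the pairs of cells
  obtain ⟨S, hS⟩ : ∃ S : Finset (ℕ × ℕ), S = T.image (fun z => z.2) := ⟨_, rfl⟩
  have up1 : (T.card : ℝ) ≤ K0 * (S.card : ℝ) := by
    have hmap : ∀ z ∈ T, z.2 ∈ S := by
      intro z hz
      rw [hS]; exact Finset.mem_image_of_mem _ hz
    have e := Finset.card_eq_sum_card_fiberwise hmap
    have e' : (T.card : ℝ) = ∑ a ∈ S, ((T.filter (fun z => z.2 = a)).card : ℝ) := by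
      exact_mod_cast e
    rw [e', mul_comm, ← nsmul_eq_mul, ← Finset.sum_const]
    refine Finset.sum_le_sum ?_
    rintro ⟨x, y⟩ ha
    rw [hS] at ha
    obtain ⟨⟨a, x1, y1⟩, hz, he⟩ := Finset.mem_image.1 ha
    have he' : x1 = x ∧ y1 = y := by simpa [Prod.mk.injEq] using he
    obtain ⟨e1, e2⟩ := he'
    subst e1 e2
    have hR : ¬ R x1 y1 := ((memT _ _ _).1 hz).2.2
    refine le_trans ?_ (h2 x1 y1 hR)
    have : (T.filter (fun z => z.2 = (x1, y1))).card ≤
        ((E.filter (fun k => c k = x1)).image F ∩ (E.filter (fun k => c k = y1)).image F).card := by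
      refine Finset.card_le_card_of_injOn (fun z => z.1) ?_ ?_
      · rintro ⟨b, x, y⟩ hz'
        rw [Finset.mem_coe] at hz'
        obtain ⟨hz1, hz2⟩ := Finset.mem_filter.1 hz'
        have hz2' : x = x1 ∧ y = y1 := by simpa [Prod.mk.injEq] using hz2
        obtain ⟨e1, e2⟩ := hz2'
        subst e1 e2
        obtain ⟨⟨n, hn, f1, f2⟩, ⟨k, hk, f3, f4⟩, -⟩ := (memT _ _ _).1 hz1
        rw [Finset.mem_coe, Finset.mem_inter]
        exact ⟨Finset.mem_image.2 ⟨n, Finset.mem_filter.2 ⟨hn, f2⟩, f1⟩,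
          Finset.mem_image.2 ⟨k, Finset.mem_filter.2 ⟨hk, f4⟩, f3⟩⟩
      · rintro ⟨b, x, y⟩ hz' ⟨b', x', y'⟩ hz'' he
        rw [Finset.mem_coe] at hz' hz''
        have e1 := (Finset.mem_filter.1 hz').2
        have e2 := (Finset.mem_filter.1 hz'').2
        dsimp only at e1 e2 he
        rw [e1, e2, he]
    exact_mod_cast this
  have up2 : (S.card : ℝ) ≤ ((E.image B).card : ℝ) * d ^ 2 := by
    have hsub : S ⊆ (E.image B).biUnion (fun b =>
        ((E.filter (fun k => B k = b)).image c) ×ˢ ((E.filter (fun k => B k = b)).image c)) := by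
      rintro ⟨x, y⟩ hxy
      rw [hS] at hxy
      obtain ⟨⟨a, x1, y1⟩, hz, he⟩ := Finset.mem_image.1 hxy
      have he' : x1 = x ∧ y1 = y := by simpa [Prod.mk.injEq] using he
      obtain ⟨e1, e2⟩ := he'
      subst e1 e2
      obtain ⟨⟨n, hn, f1, f2⟩, ⟨k, hk, f3, f4⟩, -⟩ := (memT _ _ _).1 hz
      refine Finset.mem_biUnion.2 ⟨B n, Finset.mem_image_of_mem _ hn, ?_⟩
      refine Finset.mem_product.2 ⟨?_, ?_⟩
      · exact Finset.mem_image.2 ⟨n, Finset.mem_filter.2 ⟨hn, rfl⟩, f2⟩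
      · refine Finset.mem_image.2 ⟨k, Finset.mem_filter.2 ⟨hk, ?_⟩, f4⟩
        exact hFB k hk n hn (by rw [f1, f3])
    have h4 := (Finset.card_le_card hsub).trans Finset.card_biUnion_le
    have h5 : (S.card : ℝ) ≤ ∑ b ∈ E.image B, ((((E.filter (fun k => B k = b)).image c) ×ˢ
        ((E.filter (fun k => B k = b)).image c)).card : ℝ) := by exact_mod_cast h4
    refine h5.trans ?_
    rw [← nsmul_eq_mul, ← Finset.sum_const]
    refine Finset.sum_le_sum ?_
    intro b hb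
    obtain ⟨n, hn, rfl⟩ := Finset.mem_image.1 hb
    have h6 := h3 n hn
    rw [Finset.card_product]
    push_cast
    have h7 : (0 : ℝ) ≤ (((E.filter (fun k => B k = B n)).image c).card : ℝ) := Nat.cast_nonneg _
    nlinarith
  calc ((E.image F).card : ℝ) * A ≤ (T.card : ℝ) := low
    _ ≤ K0 * (S.card : ℝ) := up1
    _ ≤ _ := mul_le_mul_of_nonneg_left up2 hK

/-- Few elements of `S` near `u`. -/
theorem near3 (S : Finset ℕ) (q u : ℕ) (M : ℝ) (R : ℕ → Prop) [DecidablePred R]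
    (hR : ∀ b, R b → ¬ (u + 2 ≤ b / q ∨ b / q + 2 ≤ u))
    (hM : ∀ v : ℕ, ((S.filter (fun b => b / q = v)).card : ℝ) ≤ M) :
    ((S.filter (fun b => R b)).card : ℝ) ≤ 3 * M := by
  classical
  obtain ⟨B, hB⟩ : ∃ B : Finset ℕ, B = {u - 1, u, u + 1} := ⟨_, rfl⟩
  have hBc : B.card ≤ 3 := by
    rw [hB]; exact Finset.card_le_three
  have hM0 : 0 ≤ M := le_trans (Nat.cast_nonneg _) (hM 0)
  have h1 : (S.filter (fun b => R b)) ⊆
      B.biUnion (fun v => S.filter (fun b => b / q = v)) := by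
    intro b hb
    obtain ⟨hb1, hb2'⟩ := Finset.mem_filter.1 hb
    have hb2 := hR b hb2'
    refine Finset.mem_biUnion.2 ⟨b / q, ?_, Finset.mem_filter.2 ⟨hb1, rfl⟩⟩
    rw [hB]
    simp only [Finset.mem_insert, Finset.mem_singleton]
    generalize b / q = x at hb2
    omega
  have h2 := (Finset.card_le_card h1).trans Finset.card_biUnion_le
  have h3 : ((S.filter (fun b => R b)).card : ℝ) ≤
      ∑ v ∈ B, ((S.filter (fun b => b / q = v)).card : ℝ) := by exact_mod_cast h2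
  refine h3.trans ?_
  calc _ ≤ ∑ _v ∈ B, M := Finset.sum_le_sum (fun v _ => hM v)
    _ = (B.card : ℝ) * M := by rw [Finset.sum_const, nsmul_eq_mul]
    _ ≤ 3 * M := by
      have : (B.card : ℝ) ≤ 3 := by exact_mod_cast hBc
      exact mul_le_mul_of_nonneg_right this hM0

end XA

theorem I_A (hNest : StNest) (hA1 : StA1) (hQ5 : StQ5) : StA := by
  classical
  intro ι _ _ X hX j i i0 hgj hj h0 hi hd
  have h := hX.toOK0
  have hQ1 : 1 ≤ X.Q := by
    have := h.one_lt_Q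
    exact_mod_cast this.le
  obtain ⟨-, hcl, -, hbx, -⟩ := hNest ι X.K X.Q hQ1
  have hjJ : j ≤ X.J := by omega
  have hgJ : X.g ≤ X.J := by omega
  have hi0 : i0 ≤ X.I := h0.trans hi
  have nb : ∀ n ∈ X.E, ∀ k ∈ X.E, X.box i n = X.box i k → X.box i0 n = X.box i0 k :=
    fun n _ k _ e => hbx i0 i _ _ h0 e
  have ncl : ∀ n ∈ X.E, X.cl X.g n = X.cl j n / X.Q ^ (j - X.g) :=
    fun n hn => hcl X.g j n hgj (h.sub n hn).2.1
  -- the numbers
  obtain ⟨G, hG⟩ : ∃ G : ℝ, G = (im X.E (fun n => (X.cl j n, X.box i n)) : ℝ) := ⟨_, rfl⟩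
  obtain ⟨G0, hG0⟩ : ∃ G : ℝ, G = (im X.E (fun n => (X.cl j n, X.box i0 n)) : ℝ) := ⟨_, rfl⟩
  obtain ⟨Gg, hGg⟩ : ∃ G : ℝ, G = (im X.E (fun n => (X.cl X.g n, X.box i n)) : ℝ) := ⟨_, rfl⟩
  obtain ⟨b, hb⟩ : ∃ b : ℝ, b = (im X.E (fun n => X.box i n) : ℝ) := ⟨_, rfl⟩
  obtain ⟨b0, hb0⟩ : ∃ b : ℝ, b = (im X.E (fun n => X.box i0 n) : ℝ) := ⟨_, rfl⟩
  have pG : 1 ≤ G := by rw [hG]; exact h.im_pos _
  have pG0 : 1 ≤ G0 := by rw [hG0]; exact h.im_pos _
  have pGg : 1 ≤ Gg := by rw [hGg]; exact h.im_pos _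
  have pb : 1 ≤ b := by rw [hb]; exact h.im_pos _
  have pb0 : 1 ≤ b0 := by rw [hb0]; exact h.im_pos _
  have eG : X.lG j i = X.lg G := by rw [hG]; rfl
  have eG0 : X.lG j i0 = X.lg G0 := by rw [hG0]; rfl
  have eGg : X.lG X.g i = X.lg Gg := by rw [hGg]; rfl
  have eb : X.lB i = X.lg b := by rw [hb]; rfl
  have eb0 : X.lB i0 = X.lg b0 := by rw [hb0]; rfl
  have hL := h.hL
  have pL := h.L_pos
  have hL4 : X.Λ ^ 4 ≤ (X.Q : ℝ) :=
    (pow_le_pow_right₀ hL (by norm_num : 4 ≤ 100)).trans h.hLQ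
  have pL4 : 0 < X.Λ ^ 4 := pow_pos pL 4
  have hq5 := hQ5 ι X hX j i hjJ hi
  have hq5g := hQ5 ι X hX X.g i hgJ hi
  have hsg := h.hsg
  -- Gg is large
  have big : 6 * X.Λ ^ 4 * b ≤ Gg := by
    have a1 : 6 * X.Λ ^ 4 * b ≤ (X.Q : ℝ) ^ 2 * b := by
      have : 6 * X.Λ ^ 4 ≤ (X.Q : ℝ) ^ 2 := by
        have hq := h.Q_gt
        nlinarith
      exact mul_le_mul_of_nonneg_right this (by linarith)
    refine a1.trans ?_
    refine h.le_of_lg (mul_pos (h.Qpow_pos 2) (by linarith)) (by linarith) ?_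
    rw [h.lg_mul (h.Qpow_pos 2) (by linarith), h.lg_Qpow, ← eb, ← eGg]
    push_cast
    linarith
  obtain ⟨P, hP⟩ : ∃ P : ℝ, P = G / (X.Λ ^ 2 * b) := ⟨_, rfl⟩
  have hPpos : 0 < P := by rw [hP]; positivity
  obtain ⟨M, hM⟩ : ∃ M : ℝ, M = X.Λ ^ 2 * G / Gg := ⟨_, rfl⟩
  have hMP : 3 * M ≤ P / 2 := by
    rw [hM, hP, mul_div_assoc', div_div, div_le_div_iff₀ (by linarith) (by positivity)]
    have e : 3 * (X.Λ ^ 2 * G) * (X.Λ ^ 2 * b * 2) = G * (6 * X.Λ ^ 4 * b) := by ring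
    rw [e]
    exact mul_le_mul_of_nonneg_left big (by linarith)
  obtain ⟨q, hq⟩ : ∃ q : ℕ, q = X.Q ^ (j - X.g) := ⟨_, rfl⟩
  obtain ⟨R, hR⟩ : ∃ R : ℕ → ℕ → Prop, R = fun x y => ¬ (x / q + 2 ≤ y / q ∨ y / q + 2 ≤ x / q) :=
    ⟨_, rfl⟩
  have main := XA.core X.E (X.cl j) (X.box i) (X.box i0) nb R (P ^ 2 / 2)
    ((X.Q : ℝ) ^ (8 * X.g + 6)) (X.Λ ^ 2 * G0 / b0) (h.Qpow_pos _).le ?_ ?_ ?_
  · -- conclusion
    have e1 : (((X.E.image (X.box i)).card : ℕ) : ℝ) = b := by rw [hb]; rfl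
    have e2 : (((X.E.image (X.box i0)).card : ℕ) : ℝ) = b0 := by rw [hb0]; rfl
    rw [e1, e2] at main
    have e3 : b0 * (X.Λ ^ 2 * G0 / b0) ^ 2 = X.Λ ^ 4 * G0 ^ 2 / b0 := by
      field_simp
    have e4 : b * (P ^ 2 / 2) = G ^ 2 / (2 * X.Λ ^ 4 * b) := by
      rw [hP]
      field_simp
    rw [e3, e4] at main
    have l1 := h.lg_le (by positivity) main
    have l2 : X.lg (G ^ 2 / (2 * X.Λ ^ 4 * b)) =
        2 * X.lg G - (X.lg 2 + 4 * X.lg X.Λ + X.lg b) := by
      rw [h.lg_div (by positivity) (by positivity), h.lg_mul (by positivity) (by linarith),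
        h.lg_mul (by norm_num) pL4, h.lg_pow, h.lg_pow]
      push_cast
      ring
    have l3 : X.lg ((X.Q : ℝ) ^ (8 * X.g + 6) * (X.Λ ^ 4 * G0 ^ 2 / b0)) =
        (8 * X.g + 6) + (4 * X.lg X.Λ + 2 * X.lg G0 - X.lg b0) := by
      rw [h.lg_mul (h.Qpow_pos _) (by positivity), h.lg_Qpow,
        h.lg_div (by positivity) (by linarith),
        h.lg_mul pL4 (by positivity), h.lg_pow, h.lg_pow]
      push_cast
      ring
    rw [l2, l3] at l1
    have hl := h.lgL_le
    have hl2 := h.lg2_le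
    rw [eG, eb] at hq5
    rw [eb, eb0, eG0]
    linarith
  · -- many far pairs
    intro n hn
    refine XA.pairs _ R P (3 * M) hPpos.le ?_ hMP ?_
    · have hc := (h.cnt (fun n => X.box i n) (fun n => (X.cl j n, X.box i n))
        (hX.regB i hi) (hX.regG j i hjJ hi)
        (fun n _ k _ e => ((Prod.mk.injEq _ _ _ _).mp e).2) n hn).1
      have hle : im (X.E.filter (fun k => X.box i k = X.box i n))
          (fun n => (X.cl j n, X.box i n)) ≤
          ((X.E.filter (fun k => X.box i k = X.box i n)).image (X.cl j)).card := by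
        refine RS.im_le_im _ (fun n => (X.cl j n, X.box i n)) (X.cl j) ?_
        intro a ha c hc e
        have e1 := (Finset.mem_filter.1 ha).2
        have e2 := (Finset.mem_filter.1 hc).2
        show (X.cl j a, X.box i a) = (X.cl j c, X.box i c)
        rw [e1, e2, e]
      have hle' : (im (X.E.filter (fun k => X.box i k = X.box i n))
          (fun n => (X.cl j n, X.box i n)) : ℝ) ≤
          (((X.E.filter (fun k => X.box i k = X.box i n)).image (X.cl j)).card : ℝ) := by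
        exact_mod_cast hle
      rw [← hG, ← hb] at hc
      rw [hP, div_le_iff₀ (by positivity)]
      refine hc.trans ?_
      have := mul_le_mul_of_nonneg_left hle' (by positivity : 0 ≤ X.Λ ^ 2 * b)
      linarith
    · intro x _
      refine XA.near3 _ q (x / q) M (fun y => R x y) (fun y hy => by rw [hR] at hy; exact hy) ?_
      intro v
      by_cases hex : ∃ k ∈ X.E, (X.cl X.g k, X.box i k) = (v, X.box i n)
      · obtain ⟨k, hk, hkv⟩ := hex
        have hc := (h.cnt (fun n => (X.cl X.g n, X.box i n)) (fun n => (X.cl j n, X.box i n))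
          (hX.regG X.g i hgJ hi) (hX.regG j i hjJ hi)
          (fun n hn k hk e => by
            have e1 := (Prod.mk.injEq _ _ _ _).mp e
            show (X.cl X.g n, X.box i n) = (X.cl X.g k, X.box i k)
            rw [ncl n hn, ncl k hk, e1.1, e1.2]) k hk).2
        have hsub : (((X.E.filter (fun k => X.box i k = X.box i n)).image (X.cl j)).filter
            (fun b => b / q = v)).card ≤
            im (X.E.filter (fun l => (X.cl X.g l, X.box i l) = (X.cl X.g k, X.box i k)))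
              (fun n => (X.cl j n, X.box i n)) := by
          refine le_trans ?_ (RS.im_le_im _ (X.cl j) (fun n => (X.cl j n, X.box i n)) ?_)
          · refine Finset.card_le_card ?_
            intro y hy
            obtain ⟨hy1, hy2⟩ := Finset.mem_filter.1 hy
            obtain ⟨l, hl, rfl⟩ := Finset.mem_image.1 hy1
            obtain ⟨hl1, hl2⟩ := Finset.mem_filter.1 hl
            refine Finset.mem_image_of_mem _ (Finset.mem_filter.2 ⟨hl1, ?_⟩)
            rw [hkv, ncl l hl1, ← hq, hy2, hl2]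
          · intro a _ c _ e
            exact ((Prod.mk.injEq _ _ _ _).mp e).1
        have hsub' : ((((X.E.filter (fun k => X.box i k = X.box i n)).image (X.cl j)).filter
            (fun b => b / q = v)).card : ℝ) ≤
            (im (X.E.filter (fun l => (X.cl X.g l, X.box i l) = (X.cl X.g k, X.box i k)))
              (fun n => (X.cl j n, X.box i n)) : ℝ) := by exact_mod_cast hsub
        rw [hM, le_div_iff₀ (by linarith)]
        rw [← hG, ← hGg] at hc
        exact (mul_le_mul_of_nonneg_right hsub' (by linarith)).trans hc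
      · have : (((X.E.filter (fun k => X.box i k = X.box i n)).image (X.cl j)).filter
            (fun b => b / q = v)) = ∅ := by
          rw [Finset.eq_empty_iff_forall_notMem]
          intro y hy
          obtain ⟨hy1, hy2⟩ := Finset.mem_filter.1 hy
          obtain ⟨l, hl, rfl⟩ := Finset.mem_image.1 hy1
          obtain ⟨hl1, hl2⟩ := Finset.mem_filter.1 hl
          exact hex ⟨l, hl1, by rw [ncl l hl1, ← hq, hy2, hl2]⟩
        rw [this, Finset.card_empty, hM]
        push_cast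
        positivity
  · -- few shared boxes
    intro x y hxy
    rw [hR] at hxy
    have hxy' : x / q + 2 ≤ y / q ∨ y / q + 2 ≤ x / q := not_not.1 hxy
    rcases hxy' with hxy' | hxy'
    · rw [hq] at hxy'
      exact hA1 ι X hX j i x y hgj hj hi hd hxy'
    · rw [hq] at hxy'
      have := hA1 ι X hX j i y x hgj hj hi hd hxy'
      rw [Finset.inter_comm]
      exact this
  · -- degrees
    intro n hn
    have hc := (h.cnt (fun n => X.box i0 n) (fun n => (X.cl j n, X.box i0 n))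
      (hX.regB i0 hi0) (hX.regG j i0 hjJ hi0)
      (fun n _ k _ e => ((Prod.mk.injEq _ _ _ _).mp e).2) n hn).2
    have hle : ((X.E.filter (fun k => X.box i0 k = X.box i0 n)).image (X.cl j)).card ≤
        im (X.E.filter (fun k => X.box i0 k = X.box i0 n)) (fun n => (X.cl j n, X.box i0 n)) := by
      refine RS.im_le_im _ (X.cl j) (fun n => (X.cl j n, X.box i0 n)) ?_
      intro a _ c _ e
      exact ((Prod.mk.injEq _ _ _ _).mp e).1
    have hle' : (((X.E.filter (fun k => X.box i0 k = X.box i0 n)).image (X.cl j)).card : ℝ) ≤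
        (im (X.E.filter (fun k => X.box i0 k = X.box i0 n))
          (fun n => (X.cl j n, X.box i0 n)) : ℝ) := by exact_mod_cast hle
    rw [← hG0, ← hb0] at hc
    rw [le_div_iff₀ (by linarith)]
    exact (mul_le_mul_of_nonneg_right hle' (by linarith)).trans hc

end Pool.Agent.Work.MP_e17eac_co.PS
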