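import Pool.Agent.Work.MP_e17eac_co.PS.Lg

/-!
# Item B1 of block REG: pairs of class mates, lower bound
-/

namespace Pool.Agent.Work.MP_e17eac_co.PS

open Finset
open Pool.Agent.Work.MP_e17eac_co.DH

namespace XB1

/-- A coarser function factors through a finer one. -/
theorem factor {α β : Type} [Inhabited α] (E : Finset ℕ) (f : ℕ → α) (g : ℕ → β)
    (hfg : ∀ n ∈ E, ∀ k ∈ E, g n = g k → f n = f k) :
    ∃ ψ : β → α, ∀ n ∈ E, ψ (g n) = f n := by
  classical
  refine ⟨fun b => if hb : ∃ n ∈ E, g n = b then f hb.choose else default, ?_⟩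
  intro n hn
  have hb : ∃ k ∈ E, g k = g n := ⟨n, hn, rfl⟩
  simp only [hb, dif_pos]
  exact hfg _ hb.choose_spec.1 _ hn hb.choose_spec.2

/-- Pigeonhole over the values of `κ`. -/
theorem pigeon {β : Type} [DecidableEq β] (E : Finset ℕ) (κ : ℕ → ℕ) (m : ℕ) (b : ℕ → β)
    (hm : 0 < m) (hκ : ∀ n ∈ E, κ n < m) (P : ℝ) (_hP : 0 < P) (hb : P * m ≤ ((E.image b).card : ℝ)) :
    ∃ kv, P ≤ (((E.filter (fun n => κ n = kv)).image b).card : ℝ) := by
  classical
  by_contra hcon
  push Not at hcon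
  have h1 : (E.image b) ⊆ (range m).biUnion (fun kv => (E.filter (fun n => κ n = kv)).image b) := by
    intro x hx
    obtain ⟨n, hn, rfl⟩ := Finset.mem_image.1 hx
    refine Finset.mem_biUnion.2 ⟨κ n, Finset.mem_range.2 (hκ n hn), ?_⟩
    exact Finset.mem_image_of_mem b (Finset.mem_filter.2 ⟨hn, rfl⟩)
  have h2 := (Finset.card_le_card h1).trans Finset.card_biUnion_le
  have h3 : ((E.image b).card : ℝ) ≤
      ∑ kv ∈ range m, (((E.filter (fun n => κ n = kv)).image b).card : ℝ) := by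
    exact_mod_cast h2
  · have h4 : ∑ kv ∈ range m, (((E.filter (fun n => κ n = kv)).image b).card : ℝ) <
        ∑ _kv ∈ range m, P := by
      refine Finset.sum_lt_sum_of_nonempty ⟨0, Finset.mem_range.2 hm⟩ ?_
      intro kv _
      exact hcon kv
    rw [Finset.sum_const, Finset.card_range, nsmul_eq_mul] at h4
    nlinarith

/-- Number of pairs which are not near. -/
theorem pairs {β : Type} [DecidableEq β] (T : Finset β) (R : β → β → Prop) [DecidableRel R]
    (P M : ℝ) (hP : 0 ≤ P) (hT : P ≤ (T.card : ℝ)) (hM : M ≤ P / 2)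
    (hR : ∀ b ∈ T, ((T.filter (fun b2 => R b b2)).card : ℝ) ≤ M) :
    P ^ 2 / 2 ≤ (((T ×ˢ T).filter (fun z => ¬ R z.1 z.2)).card : ℝ) := by
  classical
  have h1 : ((T ×ˢ T).filter (fun z => ¬ R z.1 z.2)).card =
      ∑ b ∈ T, (T.filter (fun b2 => ¬ R b b2)).card := by
    rw [Finset.card_filter, Finset.sum_product]
    refine Finset.sum_congr rfl ?_
    intro b _
    rw [Finset.card_filter]
  have h2 : ∀ b ∈ T, (T.card : ℝ) - M ≤ ((T.filter (fun b2 => ¬ R b b2)).card : ℝ) := by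
    intro b hb
    have h3 := Finset.card_filter_add_card_filter_not (s := T) (fun b2 => R b b2)
    have h4 : ((T.filter (fun b2 => R b b2)).card : ℝ) +
      ((T.filter (fun b2 => ¬ R b b2)).card : ℝ) = (T.card : ℝ) := by exact_mod_cast h3
    have h5 := hR b hb
    linarith
  have h3 : ∑ _b ∈ T, ((T.card : ℝ) - M) ≤
      ∑ b ∈ T, ((T.filter (fun b2 => ¬ R b b2)).card : ℝ) := Finset.sum_le_sum h2
  rw [Finset.sum_const, nsmul_eq_mul] at h3
  rw [h1]
  push_cast
  refine le_trans ?_ h3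
  nlinarith

/-- Few fine boxes near a given box. -/
theorem near {β : Type} [DecidableEq β] (S : Finset β) (ψ : β → ℤ × ℤ) (u : ℤ × ℤ) (M : ℝ)
    (hM : ∀ v : ℤ × ℤ, ((S.filter (fun b => ψ b = v)).card : ℝ) ≤ M) :
    ((S.filter (fun b => |u.1 - (ψ b).1| ≤ 1 ∧ |u.2 - (ψ b).2| ≤ 1)).card : ℝ) ≤ 9 * M := by
  classical
  obtain ⟨B, hB⟩ : ∃ B : Finset (ℤ × ℤ), B = Finset.Icc (u.1 - 1) (u.1 + 1) ×ˢ
      Finset.Icc (u.2 - 1) (u.2 + 1) := ⟨_, rfl⟩
  have hBc : B.card = 9 := by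
    rw [hB, Finset.card_product, Int.card_Icc, Int.card_Icc]
    have e1 : u.1 + 1 + 1 - (u.1 - 1) = 3 := by ring
    have e2 : u.2 + 1 + 1 - (u.2 - 1) = 3 := by ring
    rw [e1, e2]
    rfl
  have h1 : (S.filter (fun b => |u.1 - (ψ b).1| ≤ 1 ∧ |u.2 - (ψ b).2| ≤ 1)) ⊆
      B.biUnion (fun v => S.filter (fun b => ψ b = v)) := by
    intro b hb
    obtain ⟨hb1, hb2, hb3⟩ := Finset.mem_filter.1 hb
    rw [abs_le] at hb2 hb3
    refine Finset.mem_biUnion.2 ⟨ψ b, ?_, Finset.mem_filter.2 ⟨hb1, rfl⟩⟩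
    rw [hB, Finset.mem_product, Finset.mem_Icc, Finset.mem_Icc]
    omega
  have h2 := (Finset.card_le_card h1).trans Finset.card_biUnion_le
  have h3 : ((S.filter (fun b => |u.1 - (ψ b).1| ≤ 1 ∧ |u.2 - (ψ b).2| ≤ 1)).card : ℝ) ≤
      ∑ v ∈ B, ((S.filter (fun b => ψ b = v)).card : ℝ) := by exact_mod_cast h2
  refine h3.trans ?_
  calc _ ≤ ∑ _v ∈ B, M := Finset.sum_le_sum (fun v _ => hM v)
    _ = 9 * M := by rw [Finset.sum_const, hBc, nsmul_eq_mul]; norm_num

end XB1

theorem I_B1 (hNest : StNest) : StB1 := by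
  classical
  intro ι _ _ X hX j i i' i'' κ hj hi h1 h2 hκ hlg
  have h := hX.toOK0
  have hQ1 : 1 ≤ X.Q := by
    have := h.one_lt_Q
    exact_mod_cast this.le
  obtain ⟨-, -, -, hbx, -⟩ := hNest ι X.K X.Q hQ1
  -- nesting of boxes
  have nb' : ∀ n ∈ X.E, ∀ k ∈ X.E, X.box i n = X.box i k → X.box i' n = X.box i' k :=
    fun n _ k _ e => hbx i' i _ _ (h1.trans h2) e
  have nb'' : ∀ n ∈ X.E, ∀ k ∈ X.E, X.box i n = X.box i k → X.box i'' n = X.box i'' k :=
    fun n _ k _ e => hbx i'' i _ _ h2 e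
  obtain ⟨ψ', hψ'⟩ := XB1.factor X.E (X.box i') (X.box i) nb'
  obtain ⟨ψ'', hψ''⟩ := XB1.factor X.E (X.box i'') (X.box i) nb''
  -- the three numbers
  obtain ⟨G, hG⟩ : ∃ G : ℝ, G = (im X.E (fun n => (X.cl j n, X.box i n)) : ℝ) := ⟨_, rfl⟩
  obtain ⟨G', hG'⟩ : ∃ G : ℝ, G = (im X.E (fun n => (X.cl j n, X.box i' n)) : ℝ) := ⟨_, rfl⟩
  obtain ⟨G'', hG''⟩ : ∃ G : ℝ, G = (im X.E (fun n => (X.cl j n, X.box i'' n)) : ℝ) := ⟨_, rfl⟩
  have pG : 1 ≤ G := by rw [hG]; exact h.im_pos _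
  have pG' : 1 ≤ G' := by rw [hG']; exact h.im_pos _
  have pG'' : 1 ≤ G'' := by rw [hG'']; exact h.im_pos _
  have eG : X.lG j i = X.lg G := by rw [hG]; rfl
  have eG' : X.lG j i' = X.lg G' := by rw [hG']; rfl
  have eG'' : X.lG j i'' = X.lg G'' := by rw [hG'']; rfl
  obtain ⟨m, hm⟩ : ∃ m : ℝ, m = (X.Q : ℝ) ^ (2 * X.g) := ⟨_, rfl⟩
  have pm : 1 ≤ m := by rw [hm]; exact h.one_le_Qpow _
  have hL := h.hL
  have pL := h.L_pos
  -- G'' is large
  have big : 18 * X.Λ ^ 4 * G' * m ≤ G'' := by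
    have hL4 : X.Λ ^ 4 ≤ (X.Q : ℝ) :=
      (pow_le_pow_right₀ hL (by norm_num : 4 ≤ 100)).trans h.hLQ
    have a1 : 18 * X.Λ ^ 4 * G' * m ≤ (X.Q : ℝ) ^ 2 * G' * m := by
      have : 18 * X.Λ ^ 4 ≤ (X.Q : ℝ) ^ 2 := by
        have hq := h.Q_gt
        nlinarith
      have := mul_le_mul_of_nonneg_right this (by linarith : (0 : ℝ) ≤ G')
      exact mul_le_mul_of_nonneg_right this (by linarith)
    refine a1.trans ?_
    refine h.le_of_lg (by have := h.Qpow_pos 2; positivity) (by linarith) ?_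
    rw [h.lg_mul (by have := h.Qpow_pos 2; positivity) (by linarith),
      h.lg_mul (h.Qpow_pos 2) (by linarith), hm, h.lg_Qpow, h.lg_Qpow]
    rw [eG', eG''] at hlg
    push_cast
    linarith
  -- P0
  obtain ⟨P, hP⟩ : ∃ P : ℝ, P = G / (X.Λ ^ 2 * G' * m) := ⟨_, rfl⟩
  have hPpos : 0 < P := by rw [hP]; positivity
  have hPm : P * m * (X.Λ ^ 2 * G') = G := by
    rw [hP]; field_simp
  -- the nearness bound
  obtain ⟨M, hM⟩ : ∃ M : ℝ, M = X.Λ ^ 2 * G / G'' := ⟨_, rfl⟩
  have hMP : 9 * M ≤ P / 2 := by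
    rw [hM, hP, mul_div_assoc', div_div, div_le_div_iff₀ (by linarith) (by positivity)]
    have e : 9 * (X.Λ ^ 2 * G) * (X.Λ ^ 2 * G' * m * 2) = G * (18 * X.Λ ^ 4 * G' * m) := by ring
    rw [e]
    exact mul_le_mul_of_nonneg_left big (by linarith)
  have cntf : ∀ c : ℕ, ∀ v : ℤ × ℤ,
      ((((X.E.filter (fun k => X.cl j k = c)).image (X.box i)).filter
        (fun b => ψ'' b = v)).card : ℝ) ≤ M := by
    intro c v
    by_cases hex : ∃ n ∈ X.E, (X.cl j n, X.box i'' n) = (c, v)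
    · obtain ⟨n, hn, hnv⟩ := hex
      have hc := (h.cnt (fun n => (X.cl j n, X.box i'' n)) (fun n => (X.cl j n, X.box i n))
        (hX.regG j i'' hj (h2.trans hi)) (hX.regG j i hj hi)
        (fun n hn k hk e => by
          have e1 := (Prod.mk.injEq _ _ _ _).mp e
          have e2 := nb'' n hn k hk e1.2
          show (X.cl j n, X.box i'' n) = (X.cl j k, X.box i'' k)
          rw [e1.1, e2]) n hn).2
      have hsub : (((X.E.filter (fun k => X.cl j k = c)).image (X.box i)).filter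
          (fun b => ψ'' b = v)).card ≤
          im (X.E.filter (fun k => (X.cl j k, X.box i'' k) = (X.cl j n, X.box i'' n)))
            (fun n => (X.cl j n, X.box i n)) := by
        refine le_trans ?_ (RS.im_le_im _ (X.box i) (fun n => (X.cl j n, X.box i n)) ?_)
        · refine Finset.card_le_card ?_
          intro b hb
          obtain ⟨hb1, hb2⟩ := Finset.mem_filter.1 hb
          obtain ⟨k, hk, rfl⟩ := Finset.mem_image.1 hb1
          obtain ⟨hk1, hk2⟩ := Finset.mem_filter.1 hk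
          refine Finset.mem_image_of_mem _ (Finset.mem_filter.2 ⟨hk1, ?_⟩)
          rw [hnv, ← hb2, hψ'' k hk1, hk2]
        · intro a _ b _ e
          exact ((Prod.mk.injEq _ _ _ _).mp e).2
      have hsub' : ((((X.E.filter (fun k => X.cl j k = c)).image (X.box i)).filter
          (fun b => ψ'' b = v)).card : ℝ) ≤
          (im (X.E.filter (fun k => (X.cl j k, X.box i'' k) = (X.cl j n, X.box i'' n)))
            (fun n => (X.cl j n, X.box i n)) : ℝ) := by exact_mod_cast hsub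
      rw [hM, le_div_iff₀ (by linarith)]
      rw [← hG, ← hG''] at hc
      exact (mul_le_mul_of_nonneg_right hsub' (by linarith)).trans hc
    · have : (((X.E.filter (fun k => X.cl j k = c)).image (X.box i)).filter
          (fun b => ψ'' b = v)) = ∅ := by
        rw [Finset.eq_empty_iff_forall_notMem]
        intro b hb
        obtain ⟨hb1, hb2⟩ := Finset.mem_filter.1 hb
        obtain ⟨k, hk, rfl⟩ := Finset.mem_image.1 hb1
        obtain ⟨hk1, hk2⟩ := Finset.mem_filter.1 hk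
        refine hex ⟨k, hk1, ?_⟩
        rw [← hb2, hψ'' k hk1, hk2]
      rw [this, hM]
      simp only [Finset.card_empty, Nat.cast_zero]
      positivity
  -- each fibre
  have fibre : ∀ a ∈ X.E.image (fun n => (X.cl j n, X.box i' n)),
      P ^ 2 / 2 ≤ (((X.Psi κ j i i' i'').filter (fun t => (t.1, ψ' t.2.1) = a)).card : ℝ) := by
    intro a ha
    obtain ⟨n0, hn0, rfl⟩ := Finset.mem_image.1 ha
    obtain ⟨E', hE'⟩ : ∃ E' : Finset ℕ, E' = X.E.filter (fun k => (X.cl j k, X.box i' k) =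
      (X.cl j n0, X.box i' n0)) := ⟨_, rfl⟩
    have mE' : ∀ k, k ∈ E' ↔ k ∈ X.E ∧ X.cl j k = X.cl j n0 ∧ X.box i' k = X.box i' n0 := by
      intro k
      rw [hE', Finset.mem_filter, Prod.mk.injEq]
    have hc := (h.cnt (fun n => (X.cl j n, X.box i' n)) (fun n => (X.cl j n, X.box i n))
        (hX.regG j i' hj ((h1.trans h2).trans hi)) (hX.regG j i hj hi)
        (fun n hn k hk e => by
          have e1 := (Prod.mk.injEq _ _ _ _).mp e
          have e2 := nb' n hn k hk e1.2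
          show (X.cl j n, X.box i' n) = (X.cl j k, X.box i' k)
          rw [e1.1, e2]) n0 hn0).1
    rw [← hG, ← hG', ← hE'] at hc
    have him : im E' (fun n => (X.cl j n, X.box i n)) ≤ (E'.image (X.box i)).card := by
      refine RS.im_le_im E' (fun n => (X.cl j n, X.box i n)) (X.box i) ?_
      intro a ha b hb e
      show (X.cl j a, X.box i a) = (X.cl j b, X.box i b)
      rw [e, ((mE' a).1 ha).2.1, ((mE' b).1 hb).2.1]
    have him' : (im E' (fun n => (X.cl j n, X.box i n)) : ℝ) ≤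
      ((E'.image (X.box i)).card : ℝ) := by exact_mod_cast him
    have hbig : P * ((X.Q ^ (2 * X.g) : ℕ) : ℝ) ≤ ((E'.image (X.box i)).card : ℝ) := by
      push_cast
      rw [← hm]
      have e1 : P * m * (X.Λ ^ 2 * G') ≤ ((E'.image (X.box i)).card : ℝ) * (X.Λ ^ 2 * G') := by
        rw [hPm]
        refine hc.trans ?_
        have := mul_le_mul_of_nonneg_left him' (by positivity : (0 : ℝ) ≤ X.Λ ^ 2 * G')
        linarith
      exact le_of_mul_le_mul_right e1 (by positivity)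
    obtain ⟨kv, hkv⟩ := XB1.pigeon E' κ (X.Q ^ (2 * X.g)) (X.box i)
      (Nat.pow_pos (Nat.lt_of_lt_of_le Nat.zero_lt_one hQ1)) (fun n hn => hκ n ((mE' n).1 hn).1) P hPpos hbig
    obtain ⟨T, hT⟩ : ∃ T : Finset (ℤ × ℤ),
      T = (E'.filter (fun n => κ n = kv)).image (X.box i) := ⟨_, rfl⟩
    rw [← hT] at hkv
    have mT : ∀ b ∈ T, ∃ n ∈ X.E, X.cl j n = X.cl j n0 ∧ X.box i' n = X.box i' n0 ∧ κ n = kv ∧
        X.box i n = b := by
      intro b hb
      rw [hT] at hb
      obtain ⟨n, hn, hnb⟩ := Finset.mem_image.1 hb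
      obtain ⟨hn1, hn2⟩ := Finset.mem_filter.1 hn
      obtain ⟨hn3, hn4, hn5⟩ := (mE' n).1 hn1
      exact ⟨n, hn3, hn4, hn5, hn2, hnb⟩
    have hpairs := XB1.pairs T (fun b b2 => |(ψ'' b).1 - (ψ'' b2).1| ≤ 1 ∧
      |(ψ'' b).2 - (ψ'' b2).2| ≤ 1) P (9 * M) hPpos.le hkv hMP (by
        intro b _
        refine XB1.near T ψ'' (ψ'' b) M ?_
        intro v
        refine le_trans ?_ (cntf (X.cl j n0) v)
        have : (T.filter (fun b => ψ'' b = v)) ⊆
          (((X.E.filter (fun k => X.cl j k = X.cl j n0)).image (X.box i)).filter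
          (fun b => ψ'' b = v)) := by
          refine Finset.filter_subset_filter _ ?_
          intro b hb
          obtain ⟨n, hn1, hn2, -, -, rfl⟩ := mT b hb
          exact Finset.mem_image_of_mem _ (Finset.mem_filter.2 ⟨hn1, hn2⟩)
        exact_mod_cast Finset.card_le_card this)
    refine hpairs.trans ?_
    have hinj : (((T ×ˢ T).filter (fun z => ¬ (|(ψ'' z.1).1 - (ψ'' z.2).1| ≤ 1 ∧
        |(ψ'' z.1).2 - (ψ'' z.2).2| ≤ 1)))).card ≤
        ((X.Psi κ j i i' i'').filter (fun t => (t.1, ψ' t.2.1) =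
          (X.cl j n0, X.box i' n0))).card := by
      refine Finset.card_le_card_of_injOn (fun z => (X.cl j n0, z.1, z.2)) ?_ ?_
      · intro z hz
        rw [Finset.mem_coe] at hz
        obtain ⟨hz1, hz2⟩ := Finset.mem_filter.1 hz
        obtain ⟨hz3, hz4⟩ := Finset.mem_product.1 hz1
        obtain ⟨n1, a1, a2, a3, a4, a5⟩ := mT _ hz3
        obtain ⟨n2, b1, b2, b3, b4, b5⟩ := mT _ hz4
        rw [Finset.mem_coe, Finset.mem_filter]
        refine ⟨?_, ?_⟩
        · unfold RS.Psi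
          rw [Finset.mem_image]
          refine ⟨(n1, n2), ?_, ?_⟩
          · rw [Finset.mem_filter, Finset.mem_product]
            refine ⟨⟨a1, b1⟩, ?_, ?_, ?_, ?_⟩
            · show X.cl j n1 = X.cl j n2
              rw [a2, b2]
            · show κ n1 = κ n2
              rw [a4, b4]
            · show X.box i' n1 = X.box i' n2
              rw [a3, b3]
            · show ¬ (|(X.box i'' n1).1 - (X.box i'' n2).1| ≤ 1 ∧
                |(X.box i'' n1).2 - (X.box i'' n2).2| ≤ 1)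
              rw [← hψ'' n1 a1, ← hψ'' n2 b1, a5, b5]
              exact hz2
          · show (X.cl j n1, X.box i n1, X.box i n2) = (X.cl j n0, z.1, z.2)
            rw [a2, a5, b5]
        · show (X.cl j n0, ψ' z.1) = (X.cl j n0, X.box i' n0)
          rw [← a5, hψ' n1 a1, a3]
      · intro z _ z' _ e
        have e1 := (Prod.mk.injEq _ _ _ _).mp e
        have e2 := (Prod.mk.injEq _ _ _ _).mp e1.2
        exact Prod.ext e2.1 e2.2
    exact_mod_cast hinj
  -- sum over the fibres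
  have total : G' * (P ^ 2 / 2) ≤ ((X.Psi κ j i i' i'').card : ℝ) := by
    have e := Finset.card_eq_sum_card_fiberwise (s := X.Psi κ j i i' i'')
      (f := fun t => (t.1, ψ' t.2.1)) (t := X.E.image (fun n => (X.cl j n, X.box i' n))) (by
        intro t ht
        rw [Finset.mem_coe] at ht ⊢
        unfold RS.Psi at ht
        rw [Finset.mem_image] at ht
        obtain ⟨z, hz, rfl⟩ := ht
        obtain ⟨hz1, -⟩ := Finset.mem_filter.1 hz
        obtain ⟨hz3, -⟩ := Finset.mem_product.1 hz1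
        refine Finset.mem_image.2 ⟨z.1, hz3, ?_⟩
        show (X.cl j z.1, X.box i' z.1) = (X.cl j z.1, ψ' (X.box i z.1))
        rw [hψ' z.1 hz3])
    rw [e]
    push_cast
    calc G' * (P ^ 2 / 2) = ∑ _a ∈ X.E.image (fun n => (X.cl j n, X.box i' n)), (P ^ 2 / 2) := by
          rw [Finset.sum_const, nsmul_eq_mul, hG']; rfl
      _ ≤ _ := Finset.sum_le_sum fibre
  -- logarithms
  have hfin := h.lg_le (by positivity) total
  have e3 : G' * (P ^ 2 / 2) = G ^ 2 / (2 * X.Λ ^ 4 * G' * m ^ 2) := by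
    rw [hP]
    field_simp
  rw [e3, h.lg_div (by positivity) (by positivity), h.lg_mul (by positivity) (by positivity),
    h.lg_mul (by positivity) (by linarith), h.lg_mul (by norm_num) (by positivity), h.lg_pow,
    h.lg_pow, h.lg_pow, hm, h.lg_Qpow] at hfin
  have l2 := h.lg2_le
  have lL := h.lgL_le
  rw [eG, eG']
  push_cast at hfin
  linarith

end Pool.Agent.Work.MP_e17eac_co.PS
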