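import Pool.Agent.Work.MP_e17eac_co.PS.Lg

/-!
# Item B2: pairs of class mates, upper bound
-/

namespace Pool.Agent.Work.MP_e17eac_co.PS

open Finset
open Pool.Agent.Work.MP_e17eac_co.DH

namespace XB2

theorem fib_le {α β : Type} [DecidableEq β] (s : Finset α) (f : α → β) (B : ℝ)
    (h : ∀ a ∈ s, ((s.filter (fun x => f x = f a)).card : ℝ) ≤ B) :
    (s.card : ℝ) ≤ B * ((s.image f).card : ℝ) := by
  classical
  have e : (s.card : ℝ) = ∑ a ∈ s.image f, ((s.filter (fun k => f k = a)).card : ℝ) := by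
    exact_mod_cast Finset.card_eq_sum_card_image f s
  rw [e]
  calc _ ≤ ∑ _a ∈ s.image f, B := by
        refine Finset.sum_le_sum fun a ha => ?_
        obtain ⟨n, hn, rfl⟩ := Finset.mem_image.1 ha
        exact h n hn
    _ = _ := by rw [Finset.sum_const, nsmul_eq_mul, mul_comm]

theorem card_two (D : Finset ℕ) (h : ∀ d ∈ D, ∀ d' ∈ D, d ≤ d' + 1) : D.card ≤ 2 := by
  rcases D.eq_empty_or_nonempty with rfl | hne
  · simp
  · have hs : D ⊆ {D.min' hne, D.min' hne + 1} := by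
      intro d hd
      have h1 := h d hd _ (D.min'_mem hne)
      have h2 := D.min'_le d hd
      simp only [Finset.mem_insert, Finset.mem_singleton]
      omega
    exact (Finset.card_le_card hs).trans Finset.card_le_two

theorem fl {u v : ℝ} (h : |u - v| < 1) : |⌊u⌋ - ⌊v⌋| ≤ 1 := by
  have h1 := Int.floor_le u
  have h2 := Int.lt_floor_add_one u
  have h3 := Int.floor_le v
  have h4 := Int.lt_floor_add_one v
  have h5 := abs_lt.1 h
  have h6 : (⌊u⌋ : ℝ) < ⌊v⌋ + 2 := by linarith [h5.2]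
  have h7 : (⌊v⌋ : ℝ) < ⌊u⌋ + 2 := by linarith [h5.1]
  have h8 : ⌊u⌋ < ⌊v⌋ + 2 := by exact_mod_cast h6
  have h9 : ⌊v⌋ < ⌊u⌋ + 2 := by exact_mod_cast h7
  rw [abs_le]
  constructor <;> omega

theorem geo {x y r r' q R L : ℝ} (h1 : |y + x * r| ≤ R) (h2 : |y + x * r'| ≤ R) (hr0 : 0 ≤ r)
    (hr1 : r ≤ 1) (hq : 0 < q) (hf : 1 ≤ |x| * q ∨ 1 ≤ |y| * q) (h4 : 4 * q * R ≤ 1)
    (hL : 0 ≤ L) (h8 : 8 * q * R * L ≤ 1) : |r - r'| * L ≤ 1 := by
  have hx : 1 ≤ 4 * (|x| * q) := by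
    rcases hf with h | h
    · linarith
    · have e : |y| ≤ |y + x * r| + |x| * r := by
        have e1 : y = (y + x * r) - x * r := by ring
        calc |y| = |(y + x * r) - x * r| := by rw [← e1]
          _ ≤ |y + x * r| + |x * r| := abs_sub _ _
          _ = _ := by rw [abs_mul, abs_of_nonneg hr0]
      have e2 : |x| * r ≤ |x| := mul_le_of_le_one_right (abs_nonneg x) hr1
      have e3 : |y| * q ≤ (R + |x|) * q := mul_le_mul_of_nonneg_right (by linarith) hq.le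
      nlinarith
  have hd : |x| * |r - r'| ≤ 2 * R := by
    rw [← abs_mul]
    have e1 : x * (r - r') = (y + x * r) - (y + x * r') := by ring
    rw [e1]
    refine (abs_sub _ _).trans ?_
    linarith
  have h9 : 0 ≤ |r - r'| * L := mul_nonneg (abs_nonneg _) hL
  calc |r - r'| * L ≤ (4 * (|x| * q)) * (|r - r'| * L) := by nlinarith
    _ = 4 * q * L * (|x| * |r - r'|) := by ring
    _ ≤ 4 * q * L * (2 * R) := mul_le_mul_of_nonneg_left hd (by positivity)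
    _ = 8 * q * R * L := by ring
    _ ≤ 1 := h8

theorem floor_adj {u v : ℝ} (hv : 0 ≤ v) (h : |u - v| ≤ 1) : ⌊u⌋₊ ≤ ⌊v⌋₊ + 1 := by
  have h1 : u ≤ v + 1 := by linarith [(abs_le.1 h).2]
  calc ⌊u⌋₊ ≤ ⌊v + 1⌋₊ := Nat.floor_le_floor h1
    _ = ⌊v⌋₊ + 1 := Nat.floor_add_one hv

variable {ι : Type} [Fintype ι] [DecidableEq ι]

theorem mem_Psi {X : RS ι} {κ : ℕ → ℕ} {j i i' i'' : ℕ} {z : ℕ × (ℤ × ℤ) × (ℤ × ℤ)}
    (hz : z ∈ X.Psi κ j i i' i'') : ∃ n1 ∈ X.E, ∃ n2 ∈ X.E, X.cl j n1 = X.cl j n2 ∧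
      κ n1 = κ n2 ∧ X.box i' n1 = X.box i' n2 ∧
      ¬ (|(X.box i'' n1).1 - (X.box i'' n2).1| ≤ 1 ∧
        |(X.box i'' n1).2 - (X.box i'' n2).2| ≤ 1) ∧
      z = (X.cl j n1, X.box i n1, X.box i n2) := by
  unfold RS.Psi at hz
  rw [Finset.mem_image] at hz
  obtain ⟨⟨n1, n2⟩, hz1, rfl⟩ := hz
  rw [Finset.mem_filter, Finset.mem_product] at hz1
  exact ⟨n1, hz1.1.1, n2, hz1.1.2, hz1.2.1, hz1.2.2.1, hz1.2.2.2.1, hz1.2.2.2.2, rfl⟩

/-- Boxes of level `i''` which are not near. -/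
theorem far {K : KSys ι} {Q i'' : ℕ} {p1 p2 : ι}
    (hn : ¬ (|(bx K Q i'' p1).1 - (bx K Q i'' p2).1| ≤ 1 ∧
      |(bx K Q i'' p1).2 - (bx K Q i'' p2).2| ≤ 1)) :
    1 ≤ |K.x p1 - K.x p2| * (Q : ℝ) ^ i'' ∨ 1 ≤ |K.y p1 - K.y p2| * (Q : ℝ) ^ i'' := by
  by_contra hc
  push Not at hc
  apply hn
  have hq : |(Q : ℝ) ^ i''| = (Q : ℝ) ^ i'' := abs_of_nonneg (by positivity)
  constructor
  · apply fl
    rw [← sub_mul, abs_mul, hq]
    exact hc.1
  · apply fl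
    rw [← sub_mul, abs_mul, hq]
    exact hc.2

/-- Two class-mates in the boxes of `m1`, `m2`: their lines are near at the time `t n1`. -/
theorem near (hNest : StNest) {X : RS ι} (hX : X.OK) {j i : ℕ} {κ : ℕ → ℕ}
    (hd : X.dl j * (X.Q : ℝ) ^ i ≤ 16 * X.Q) (hκ : X.Cls j κ) {m1 m2 n1 n2 : ℕ}
    (hn1 : n1 ∈ X.E) (hn2 : n2 ∈ X.E) (hc : X.cl j n1 = X.cl j n2) (hk : κ n1 = κ n2)
    (hb1 : X.box i n1 = X.box i m1) (hb2 : X.box i n2 = X.box i m2) :
    |(X.K.y (X.K.a m1) - X.K.y (X.K.a m2)) + (X.K.x (X.K.a m1) - X.K.x (X.K.a m2)) * X.K.t n1| ≤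
      17 * (X.Q : ℝ) ^ (X.g + 2) / (X.Q : ℝ) ^ i := by
  have h0 := hX.toOK0
  have hQ1 : 1 ≤ X.Q := by
    have := h0.one_lt_Q
    exact_mod_cast this.le
  obtain ⟨-, -, hN3, -, -, -, hN7, -⟩ := hNest ι X.K X.Q hQ1
  obtain ⟨-, ht0, ht1⟩ := h0.sub n1 hn1
  have hf := hκ.flat n1 hn1 n2 hn2 hc hk (X.K.t n1) (hN3 j n1 ht0)
  have h1 := (hN7 i (X.K.a n1) (X.K.a m1) (X.K.t n1) hb1 ht0 ht1.le).1
  have h2 := (hN7 i (X.K.a n2) (X.K.a m2) (X.K.t n1) hb2 ht0 ht1.le).1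
  have hP : (0 : ℝ) < (X.Q : ℝ) ^ i := h0.Qpow_pos i
  have hg : (1 : ℝ) ≤ (X.Q : ℝ) ^ (X.g + 2) := h0.one_le_Qpow _
  have e1 : (X.K.y (X.K.a m1) - X.K.y (X.K.a m2)) +
      (X.K.x (X.K.a m1) - X.K.x (X.K.a m2)) * X.K.t n1 =
      -(X.K.ht (X.K.a n1) (X.K.t n1) - X.K.ht (X.K.a m1) (X.K.t n1)) +
      (X.K.ht (X.K.a n2) (X.K.t n1) - X.K.ht (X.K.a m2) (X.K.t n1)) +
      (X.K.ht (X.K.a n1) (X.K.t n1) - X.K.ht (X.K.a n2) (X.K.t n1)) := by
    unfold KSys.ht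
    ring
  rw [e1, le_div_iff₀ hP]
  have e2 : (X.Q : ℝ) ^ (X.g + 1) * X.dl j * (X.Q : ℝ) ^ i ≤ 16 * (X.Q : ℝ) ^ (X.g + 2) := by
    calc (X.Q : ℝ) ^ (X.g + 1) * X.dl j * (X.Q : ℝ) ^ i
        = (X.Q : ℝ) ^ (X.g + 1) * (X.dl j * (X.Q : ℝ) ^ i) := by ring
      _ ≤ (X.Q : ℝ) ^ (X.g + 1) * (16 * X.Q) :=
        mul_le_mul_of_nonneg_left hd (h0.Qpow_pos _).le
      _ = 16 * (X.Q : ℝ) ^ (X.g + 2) := by ring
  have h1' := abs_le.1 h1
  have h2' := abs_le.1 h2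
  have hf' := abs_le.1 hf
  have e3 : |-(X.K.ht (X.K.a n1) (X.K.t n1) - X.K.ht (X.K.a m1) (X.K.t n1)) +
      (X.K.ht (X.K.a n2) (X.K.t n1) - X.K.ht (X.K.a m2) (X.K.t n1)) +
      (X.K.ht (X.K.a n1) (X.K.t n1) - X.K.ht (X.K.a n2) (X.K.t n1))| ≤
      4 / (X.Q : ℝ) ^ i + (X.Q : ℝ) ^ (X.g + 1) * X.dl j := by
    have e4 : (4 : ℝ) / (X.Q : ℝ) ^ i = 2 / (X.Q : ℝ) ^ i + 2 / (X.Q : ℝ) ^ i := by ring
    rw [abs_le, e4]
    constructor <;> linarith [h1'.1, h1'.2, h2'.1, h2'.2, hf'.1, hf'.2]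
  have hQ2 : (4 : ℝ) ≤ (X.Q : ℝ) ^ (X.g + 2) := by
    have hQ := h0.Q_gt
    calc (4 : ℝ) ≤ X.Q := by linarith
      _ = (X.Q : ℝ) ^ 1 := (pow_one _).symm
      _ ≤ (X.Q : ℝ) ^ (X.g + 2) := pow_le_pow_right₀ h0.one_lt_Q.le (by omega)
  calc _ ≤ (4 / (X.Q : ℝ) ^ i + (X.Q : ℝ) ^ (X.g + 1) * X.dl j) * (X.Q : ℝ) ^ i :=
        mul_le_mul_of_nonneg_right e3 hP.le
    _ = 4 + (X.Q : ℝ) ^ (X.g + 1) * X.dl j * (X.Q : ℝ) ^ i := by
        field_simp
    _ ≤ 17 * (X.Q : ℝ) ^ (X.g + 2) := by linarith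

/-- The cells of level `l` of two triples with the same boxes are adjacent. -/
theorem adj (hNest : StNest) {X : RS ι} (hX : X.OK) {j l i i'' : ℕ} {κ : ℕ → ℕ}
    (hd : X.dl j * (X.Q : ℝ) ^ i ≤ 16 * X.Q) (hκ : X.Cls j κ)
    (hl : l + X.g + 4 + i'' ≤ i) {n1 n2 k1 k2 : ℕ}
    (hn1 : n1 ∈ X.E) (hn2 : n2 ∈ X.E) (hk1 : k1 ∈ X.E) (hk2 : k2 ∈ X.E)
    (hc : X.cl j n1 = X.cl j n2) (hk : κ n1 = κ n2)
    (hc' : X.cl j k1 = X.cl j k2) (hk' : κ k1 = κ k2)
    (hnear : ¬ (|(X.box i'' n1).1 - (X.box i'' n2).1| ≤ 1 ∧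
        |(X.box i'' n1).2 - (X.box i'' n2).2| ≤ 1))
    (hb1 : X.box i n1 = X.box i k1) (hb2 : X.box i n2 = X.box i k2) :
    X.cl l n1 ≤ X.cl l k1 + 1 := by
  have h0 := hX.toOK0
  have hA := near hNest hX hd hκ hn1 hn2 hc hk rfl rfl
  have hB := near hNest hX hd hκ hk1 hk2 hc' hk' hb1.symm hb2.symm
  have hfar := far (K := X.K) (Q := X.Q) (i'' := i'') (p1 := X.K.a n1) (p2 := X.K.a n2) hnear
  obtain ⟨-, ht0, ht1⟩ := h0.sub n1 hn1
  obtain ⟨-, hs0, hs1⟩ := h0.sub k1 hk1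
  have hP : (0 : ℝ) < (X.Q : ℝ) ^ i := h0.Qpow_pos i
  have hQ := h0.Q_gt
  have hbig : 136 * (X.Q : ℝ) ^ (i'' + (X.g + 2) + l) ≤ (X.Q : ℝ) ^ i := by
    calc 136 * (X.Q : ℝ) ^ (i'' + (X.g + 2) + l)
        ≤ X.Q * (X.Q : ℝ) ^ (i'' + (X.g + 2) + l) :=
          mul_le_mul_of_nonneg_right (by linarith) (h0.Qpow_pos _).le
      _ = (X.Q : ℝ) ^ (i'' + (X.g + 2) + l + 1) := by ring
      _ ≤ (X.Q : ℝ) ^ i := pow_le_pow_right₀ h0.one_lt_Q.le (by omega)
  have hmono : (X.Q : ℝ) ^ (i'' + (X.g + 2)) ≤ (X.Q : ℝ) ^ (i'' + (X.g + 2) + l) :=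
    pow_le_pow_right₀ h0.one_lt_Q.le (by omega)
  have hpos := h0.Qpow_pos (i'' + (X.g + 2))
  have hg := geo hA hB ht0 ht1.le (h0.Qpow_pos i'') hfar (L := (X.Q : ℝ) ^ l) (by
      have e : 4 * (X.Q : ℝ) ^ i'' * (17 * (X.Q : ℝ) ^ (X.g + 2) / (X.Q : ℝ) ^ i) =
          68 * (X.Q : ℝ) ^ (i'' + (X.g + 2)) / (X.Q : ℝ) ^ i := by
        rw [pow_add (X.Q : ℝ) i'' (X.g + 2)]
        ring
      rw [e, div_le_one hP]
      linarith) (h0.Qpow_pos l).le (by
      have e : 8 * (X.Q : ℝ) ^ i'' * (17 * (X.Q : ℝ) ^ (X.g + 2) / (X.Q : ℝ) ^ i) *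
          (X.Q : ℝ) ^ l = 136 * (X.Q : ℝ) ^ (i'' + (X.g + 2) + l) / (X.Q : ℝ) ^ i := by
        rw [pow_add (X.Q : ℝ) (i'' + (X.g + 2)) l, pow_add (X.Q : ℝ) i'' (X.g + 2)]
        ring
      rw [e, div_le_one hP]
      exact hbig)
  unfold RS.cl KSys.cell
  apply floor_adj (mul_nonneg hs0 (h0.Qpow_pos l).le)
  rw [← sub_mul, abs_mul, abs_of_pos (h0.Qpow_pos l)]
  exact hg

end XB2

theorem I_B2 (hNest : StNest) : StB2 := by
  classical
  intro ι _ _ X hX j l i i' i'' κ hj hi hd hi' hi'' hl hl' hκ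
  have h0 := hX.toOK0
  have hQ1 : 1 ≤ X.Q := by
    have := h0.one_lt_Q
    exact_mod_cast this.le
  obtain ⟨hN1, hN2, hN3, hN4, -, -, -, hN8⟩ := hNest ι X.K X.Q hQ1
  have hjJ : j ≤ X.J := by omega
  have hbox : ∀ n ∈ X.E, ∀ k ∈ X.E, X.box i n = X.box i k → X.box i' n = X.box i' k :=
    fun n _ k _ h => hN4 i' i _ _ (hi'.trans hi'') h
  have hcell : ∀ n ∈ X.E, ∀ k ∈ X.E, X.cl j n = X.cl j k → X.cl l n = X.cl l k :=
    fun n hn k hk h => hN1 l j n k hl (h0.sub n hn).2.1 (h0.sub k hk).2.1 h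
  have hpair : ∀ n ∈ X.E, ∀ k ∈ X.E, (X.cl j n, X.box i n) = (X.cl j k, X.box i k) →
      (X.cl l n, X.box i n) = (X.cl l k, X.box i k) := by
    intro n hn k hk h
    rw [Prod.mk.injEq] at h
    rw [hcell n hn k hk h.1, h.2]
  have hLB : X.lB i' ≤ X.lB i := h0.lg_im_le _ _ hbox
  have hLG : X.lG l i ≤ X.lG j i := h0.lg_im_le _ _ hpair
  have hLB0 : 0 ≤ X.lB i := h0.lg_im_nonneg _
  rcases Nat.eq_zero_or_pos (X.Psi κ j i i' i'').card with hz | hz
  · rw [hz]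
    have : X.lg ((0 : ℕ) : ℝ) = 0 := by
      unfold RS.lg
      simp
    rw [this]
    linarith
  set P := X.Psi κ j i i' i'' with hP
  have hb' : (1 : ℝ) ≤ (im X.E (fun n => X.box i' n) : ℝ) := h0.im_pos _
  have hb : (1 : ℝ) ≤ (im X.E (fun n => X.box i n) : ℝ) := h0.im_pos _
  have hGl : (1 : ℝ) ≤ (im X.E (fun n => (X.cl l n, X.box i n)) : ℝ) := h0.im_pos _
  have hGj : (1 : ℝ) ≤ (im X.E (fun n => (X.cl j n, X.box i n)) : ℝ) := h0.im_pos _
  have hL := h0.L_pos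
  -- cells of level `l`
  have hcl : ∀ n ∈ X.E, X.cl j n / X.Q ^ (j - l) = X.cl l n :=
    fun n hn => (hN2 l j n hl (h0.sub n hn).2.1).symm
  -- fibres over pairs of boxes
  have hfibA : ∀ a ∈ P, ((P.filter (fun x => x.2 = a.2)).card : ℝ) ≤
      X.Λ ^ 2 * (im X.E (fun n => (X.cl j n, X.box i n)) : ℝ) /
        (im X.E (fun n => (X.cl l n, X.box i n)) : ℝ) * 2 := by
    intro a ha
    have h1 := XB2.fib_le (P.filter (fun x => x.2 = a.2)) (fun x => x.1 / X.Q ^ (j - l))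
      (X.Λ ^ 2 * (im X.E (fun n => (X.cl j n, X.box i n)) : ℝ) /
        (im X.E (fun n => (X.cl l n, X.box i n)) : ℝ)) (by
      intro z hz
      rw [Finset.mem_filter] at hz
      obtain ⟨n1, hn1, n2, hn2, -, -, -, -, hzz⟩ := XB2.mem_Psi hz.1
      have hcnt := (h0.cnt (fun n => (X.cl l n, X.box i n)) (fun n => (X.cl j n, X.box i n))
        (hX.regG l i (hl.trans hjJ) hi) (hX.regG j i hjJ hi) hpair n1 hn1).2
      rw [le_div_iff₀ (by linarith)]
      refine le_trans (mul_le_mul_of_nonneg_right ?_ (by linarith)) hcnt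
      have hinj : ((P.filter (fun x => x.2 = a.2)).filter
          (fun x => x.1 / X.Q ^ (j - l) = z.1 / X.Q ^ (j - l))).card ≤
          ((X.E.filter (fun k => (X.cl l k, X.box i k) = (X.cl l n1, X.box i n1))).image
            (fun n => (X.cl j n, X.box i n))).card := by
        refine Finset.card_le_card_of_injOn (fun x => (x.1, x.2.1)) ?_ ?_
        · intro x hx
          rw [Finset.mem_coe, Finset.mem_filter, Finset.mem_filter] at hx
          obtain ⟨k1, hk1, k2, hk2, -, -, -, -, hxx⟩ := XB2.mem_Psi hx.1.1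
          rw [Finset.mem_coe, Finset.mem_image]
          refine ⟨k1, Finset.mem_filter.2 ⟨hk1, ?_⟩, ?_⟩
          · have e1 : X.cl l k1 = X.cl l n1 := by
              rw [← hcl k1 hk1, ← hcl n1 hn1]
              have := hx.2
              rw [hxx, hzz] at this
              exact this
            have e2 : X.box i k1 = X.box i n1 := by
              have e3 := hx.1.2.trans hz.2.symm
              rw [hxx, hzz] at e3
              exact congrArg Prod.fst e3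
            rw [e1, e2]
          · rw [hxx]
        · intro x hx y hy hxy
          rw [Finset.mem_coe, Finset.mem_filter, Finset.mem_filter] at hx hy
          have e1 : x.2 = y.2 := hx.1.2.trans hy.1.2.symm
          have e2 : x.1 = y.1 := (Prod.mk.inj hxy).1
          exact Prod.ext e2 e1
      exact_mod_cast hinj)
    refine h1.trans (mul_le_mul_of_nonneg_left ?_ (by positivity))
    have h2 : ((P.filter (fun x => x.2 = a.2)).image (fun x => x.1 / X.Q ^ (j - l))).card ≤ 2 := by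
      apply XB2.card_two
      intro d hd' d' hd''
      rw [Finset.mem_image] at hd' hd''
      obtain ⟨z, hz, rfl⟩ := hd'
      obtain ⟨x, hx, rfl⟩ := hd''
      rw [Finset.mem_filter] at hz hx
      obtain ⟨n1, hn1, n2, hn2, hc, hk, -, hnear, hzz⟩ := XB2.mem_Psi hz.1
      obtain ⟨k1, hk1, k2, hk2, hc', hk', -, -, hxx⟩ := XB2.mem_Psi hx.1
      have e3 := hz.2.trans hx.2.symm
      rw [hxx, hzz] at e3
      have e1 : X.box i n1 = X.box i k1 := congrArg Prod.fst e3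
      have e2 : X.box i n2 = X.box i k2 := congrArg Prod.snd e3
      have e4 : z.1 / X.Q ^ (j - l) = X.cl l n1 := by rw [hzz]; exact hcl n1 hn1
      have e5 : x.1 / X.Q ^ (j - l) = X.cl l k1 := by rw [hxx]; exact hcl k1 hk1
      show z.1 / X.Q ^ (j - l) ≤ x.1 / X.Q ^ (j - l) + 1
      rw [e4, e5]
      rcases hl' with rfl | hl'
      · have := hN8 n1 (h0.sub n1 hn1).2.1 (h0.sub n1 hn1).2.2
        show X.K.cell X.Q 0 n1 ≤ _
        rw [this]
        exact Nat.zero_le _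
      · exact XB2.adj hNest hX hd hκ hl' hn1 hn2 hk1 hk2 hc hk hc' hk' hnear e1 e2
    exact_mod_cast h2
  have hA := XB2.fib_le P (fun x => x.2) _ hfibA
  -- fibres over the first box
  have hfibB : ∀ a ∈ P.image (fun x => x.2),
      (((P.image (fun x => x.2)).filter (fun x => x.1 = a.1)).card : ℝ) ≤
      X.Λ ^ 2 * (im X.E (fun n => X.box i n) : ℝ) / (im X.E (fun n => X.box i' n) : ℝ) := by
    intro a ha
    rw [Finset.mem_image] at ha
    obtain ⟨z, hz, rfl⟩ := ha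
    obtain ⟨n1, hn1, n2, hn2, -, -, -, -, hzz⟩ := XB2.mem_Psi hz
    have hcnt := (h0.cnt (fun n => X.box i' n) (fun n => X.box i n)
      (hX.regB i' ((hi'.trans hi'').trans hi)) (hX.regB i hi) hbox n1 hn1).2
    rw [le_div_iff₀ (by linarith)]
    refine le_trans (mul_le_mul_of_nonneg_right ?_ (by linarith)) hcnt
    have hinj : ((P.image (fun x => x.2)).filter (fun x => x.1 = z.2.1)).card ≤
        ((X.E.filter (fun k => X.box i' k = X.box i' n1)).image (fun n => X.box i n)).card := by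
      refine Finset.card_le_card_of_injOn (fun x => x.2) ?_ ?_
      · intro x hx
        rw [Finset.mem_coe, Finset.mem_filter, Finset.mem_image] at hx
        obtain ⟨⟨w, hw, hwx⟩, hx2⟩ := hx
        obtain ⟨k1, hk1, k2, hk2, -, -, hbb, -, hww⟩ := XB2.mem_Psi hw
        rw [Finset.mem_coe, Finset.mem_image]
        have e1 : X.box i k1 = X.box i n1 := by
          rw [← hwx, hww, hzz] at hx2
          exact hx2
        refine ⟨k2, Finset.mem_filter.2 ⟨hk2, ?_⟩, ?_⟩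
        · rw [← hbb]
          exact hbox k1 hk1 n1 hn1 e1
        · rw [← hwx, hww]
      · intro x hx y hy hxy
        rw [Finset.mem_coe, Finset.mem_filter] at hx hy
        exact Prod.ext (hx.2.trans hy.2.symm) hxy
    exact_mod_cast hinj
  have hB := XB2.fib_le (P.image (fun x => x.2)) (fun x => x.1) _ hfibB
  -- the first boxes
  have hC : ((((P.image (fun x => x.2)).image (fun x => x.1)).card : ℕ) : ℝ) ≤
      (im X.E (fun n => X.box i n) : ℝ) := by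
    have : ((P.image (fun x => x.2)).image (fun x => x.1)).card ≤ im X.E (fun n => X.box i n) := by
      apply Finset.card_le_card
      intro x hx
      rw [Finset.mem_image] at hx
      obtain ⟨y, hy, rfl⟩ := hx
      rw [Finset.mem_image] at hy
      obtain ⟨z, hz, rfl⟩ := hy
      obtain ⟨n1, hn1, n2, hn2, -, -, -, -, hzz⟩ := XB2.mem_Psi hz
      rw [Finset.mem_image]
      exact ⟨n1, hn1, by rw [hzz]⟩
    exact_mod_cast this
  have hPc : (1 : ℝ) ≤ (P.card : ℝ) := by exact_mod_cast hz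
  have key : (P.card : ℝ) * ((im X.E (fun n => (X.cl l n, X.box i n)) : ℝ) *
      (im X.E (fun n => X.box i' n) : ℝ)) ≤
      2 * X.Λ ^ 4 * ((im X.E (fun n => (X.cl j n, X.box i n)) : ℝ) *
        ((im X.E (fun n => X.box i n) : ℝ) * (im X.E (fun n => X.box i n) : ℝ))) := by
    have h2 := hA.trans (mul_le_mul_of_nonneg_left (hB.trans
      (mul_le_mul_of_nonneg_left hC (by positivity))) (by positivity))
    have h3 := mul_le_mul_of_nonneg_right h2 (a := ((im X.E (fun n => (X.cl l n, X.box i n)) : ℝ) *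
      (im X.E (fun n => X.box i' n) : ℝ))) (by positivity)
    refine h3.trans (le_of_eq ?_)
    have n1 : (im X.E (fun n => (X.cl l n, X.box i n)) : ℝ) ≠ 0 := by linarith
    have n2 : (im X.E (fun n => X.box i' n) : ℝ) ≠ 0 := by linarith
    field_simp
  have hlg := h0.lg_le (by positivity) key
  rw [h0.lg_mul (by linarith) (by positivity), h0.lg_mul (by linarith) (by linarith),
    h0.lg_mul (by positivity) (by positivity), h0.lg_mul (by norm_num) (by positivity),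
    h0.lg_mul (by linarith) (by positivity), h0.lg_mul (by linarith) (by linarith),
    h0.lg_pow] at hlg
  have hl2 := h0.lg2_le
  have hlL := h0.lgL_le
  unfold RS.lB RS.lG
  push_cast at hlg
  linarith

end Pool.Agent.Work.MP_e17eac_co.PS
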