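import Pool.Agent.Work.MP_e17eac_co.PS.Lg

/-!
# Project PS, block REG, item Bad: gaps are not tiny
-/

namespace Pool.Agent.Work.MP_e17eac_co.PS

open Finset
open Pool.Agent.Work.MP_e17eac_co.DH

namespace XBad

variable {ι : Type} [Fintype ι] [DecidableEq ι]

/-- More pairs (cell, line) than `Q^(2g)` times the number of cells. -/
theorem many {X : RS ι} (h : X.OK0) (hQ1 : StQ1) (hQ3 : StQ3) (j : ℕ) (hj : j + X.g ≤ X.J) :
    (im X.E (fun n => X.cl j n)) * X.Q ^ (2 * X.g) <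
      im X.E (fun n => (X.cl j n, X.K.ln false n)) := by
  have hjJ : j ≤ X.J := by omega
  have h1 := ((hQ1 ι X h).2.1 j hjJ).2
  have h2 := ((hQ3 ι X h) j hjJ).1 false
  have hw := h.hw
  have hs0 := h.hs0
  have hs1 := h.hs1
  have hj0 : (0 : ℝ) ≤ j := Nat.cast_nonneg j
  have hjJ' : (j : ℝ) ≤ X.J := by exact_mod_cast hjJ
  have hsj : X.s * (j : ℝ) ≤ j := by nlinarith
  have hsj0 : 0 ≤ X.s * (j : ℝ) := by positivity
  have hg0 : (0 : ℝ) ≤ X.g := Nat.cast_nonneg _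
  have key : X.lM j + (2 * X.g : ℕ) < X.lL false j := by
    push_cast
    linarith
  have hm := h.im_pos (fun n => X.cl j n)
  have hl := h.im_pos (fun n => (X.cl j n, X.K.ln false n))
  have hq : (0 : ℝ) < (X.Q : ℝ) ^ (2 * X.g) := h.Qpow_pos _
  have key2 : X.lg ((im X.E (fun n => X.cl j n) : ℝ) * (X.Q : ℝ) ^ (2 * X.g)) <
      X.lg (im X.E (fun n => (X.cl j n, X.K.ln false n)) : ℝ) := by
    rw [h.lg_mul (by linarith) hq, h.lg_Qpow]
    exact key
  have := h.lt_of_lg (mul_pos (by linarith) hq) (by linarith) key2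
  exact_mod_cast this

/-- Two class-mates with different lines. -/
theorem mates {X : RS ι} (h : X.OK0) (hQ1 : StQ1) (hQ3 : StQ3) (j : ℕ) (hj : j + X.g ≤ X.J)
    (κ : ℕ → ℕ) (hκ : ∀ n ∈ X.E, κ n < X.Q ^ (2 * X.g)) :
    ∃ n ∈ X.E, ∃ n' ∈ X.E, X.cl j n = X.cl j n' ∧ κ n = κ n' ∧ X.K.a n ≠ X.K.a n' := by
  classical
  have hlt := many h hQ1 hQ3 j hj
  have hrep : ∀ z ∈ X.E.image (fun n => (X.cl j n, X.K.ln false n)),
      ∃ n ∈ X.E, (X.cl j n, X.K.ln false n) = z := fun z hz => Finset.mem_image.1 hz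
  choose! rep hrepE hrepz using hrep
  have hcard : ((X.E.image (fun n => X.cl j n)) ×ˢ (Finset.range (X.Q ^ (2 * X.g)))).card <
      (X.E.image (fun n => (X.cl j n, X.K.ln false n))).card := by
    rw [Finset.card_product, Finset.card_range]
    exact hlt
  obtain ⟨z, hz, z', hz', hne, heq⟩ := Finset.exists_ne_map_eq_of_card_lt_of_maps_to hcard
    (f := fun z => (z.1, κ (rep z))) (by
      intro z hz
      have hz0 := Finset.mem_coe.1 hz
      refine Finset.mem_coe.2 (Finset.mem_product.2 ⟨?_, ?_⟩)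
      · have e := hrepz z hz0
        refine Finset.mem_image.2 ⟨rep z, hrepE z hz0, ?_⟩
        exact congrArg Prod.fst e
      · exact Finset.mem_range.2 (hκ _ (hrepE z hz0)))
  have e1 := hrepz z hz
  have e2 := hrepz z' hz'
  have heq2 := Prod.mk.inj heq
  have e3 : z.1 = z'.1 := heq2.1
  have e4 : κ (rep z) = κ (rep z') := heq2.2
  refine ⟨rep z, hrepE z hz, rep z', hrepE z' hz', ?_, e4, ?_⟩
  · have f1 : X.cl j (rep z) = z.1 := congrArg Prod.fst e1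
    have f2 : X.cl j (rep z') = z'.1 := congrArg Prod.fst e2
    rw [f1, f2, e3]
  · intro hcon
    apply hne
    have f1 : X.K.ln false (rep z) = z.2 := congrArg Prod.snd e1
    have f2 : X.K.ln false (rep z') = z'.2 := congrArg Prod.snd e2
    refine Prod.ext e3 ?_
    rw [← f1, ← f2]
    exact hcon

/-- Slopes of two lines which are close at both ends of a cell. -/
theorem slopes (K : KSys ι) (p q : ι) (r R δ : ℝ)
    (h0 : |K.ht p r - K.ht q r| ≤ δ) (h1 : |K.ht p (r + R) - K.ht q (r + R)| ≤ δ)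
    (hR : 0 ≤ R) : |K.x p - K.x q| * R ≤ 2 * δ := by
  have e : (K.x p - K.x q) * R =
      (K.ht p (r + R) - K.ht q (r + R)) - (K.ht p r - K.ht q r) := by
    simp only [KSys.ht]; ring
  have e2 : |K.x p - K.x q| * R = |(K.x p - K.x q) * R| := by
    rw [abs_mul, abs_of_nonneg hR]
  rw [e2, e]
  refine (abs_sub _ _).trans ?_
  linarith

end XBad

theorem I_Bad (hNest : StNest) (hQ1 : StQ1) (hQ3 : StQ3) (hCls0 : StCls0) : StBad := by
  intro ι _ _ X h m hm hsep j hj hdl hdm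
  by_contra hcon
  have hor : (∀ n ∈ X.E, ¬ UpGap X.K X.Q j (X.cl j n) (X.K.a n) (2 * X.dl j)) ∨
      (∀ n ∈ X.E, ¬ DnGap X.K X.Q j (X.cl j n) (X.K.a n) (2 * X.dl j)) := by
    by_contra hc
    push Not at hc
    exact hcon hc
  obtain ⟨κ, hκ⟩ := hCls0 ι X h j hj hdl hor
  obtain ⟨n, hn, n', hn', hcl, hkk, hne⟩ := XBad.mates h hQ1 hQ3 j hj κ hκ.lt
  have hflat := hκ.flat n hn n' hn' hcl hkk
  have hQj : (0 : ℝ) < (X.Q : ℝ) ^ j := h.Qpow_pos j
  have hs := XBad.slopes X.K (X.K.a n) (X.K.a n') ((X.cl j n : ℝ) / (X.Q : ℝ) ^ j)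
    (1 / (X.Q : ℝ) ^ j) ((X.Q : ℝ) ^ (X.g + 1) * X.dl j)
    (hflat _ ⟨le_refl _, by
      apply div_le_div_of_nonneg_right _ hQj.le
      linarith⟩)
    (hflat _ ⟨by
      have : (0 : ℝ) ≤ 1 / (X.Q : ℝ) ^ j := by positivity
      linarith, by
      rw [← add_div]⟩) (by positivity)
  have hsepn := hsep _ _ hne
  have h1 : |X.K.x (X.K.a n) - X.K.x (X.K.a n')| ≤
      2 * ((X.Q : ℝ) ^ (X.g + 1) * X.dl j) * (X.Q : ℝ) ^ j := by
    have := mul_le_mul_of_nonneg_right hs hQj.le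
    rwa [mul_assoc, one_div, inv_mul_cancel₀ hQj.ne', mul_one] at this
  have hm0 : (0 : ℝ) < m := by linarith
  have h2 : (1 : ℝ) ≤ m * (2 * ((X.Q : ℝ) ^ (X.g + 1) * X.dl j) * (X.Q : ℝ) ^ j) :=
    hsepn.trans (mul_le_mul_of_nonneg_left h1 hm0.le)
  have h3 : (X.Q : ℝ) ^ (X.g + 1) * (X.Q : ℝ) ^ j ≤ (X.Q : ℝ) ^ (X.J + 1) := by
    rw [← pow_add]
    exact pow_le_pow_right₀ h.one_lt_Q.le (by omega)
  have h4 : m * (2 * ((X.Q : ℝ) ^ (X.g + 1) * X.dl j) * (X.Q : ℝ) ^ j) ≤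
      2 * (m * X.dl j * (X.Q : ℝ) ^ (X.J + 1)) := by
    have := mul_le_mul_of_nonneg_left h3 (mul_pos hm0 hdl).le
    nlinarith
  have h5 : (m * X.dl j * (X.Q : ℝ) ^ (X.J + 1)) * X.Q ≤ 1 := by
    have e : (m * X.dl j * (X.Q : ℝ) ^ (X.J + 1)) * X.Q =
        X.dl j * (m * (X.Q : ℝ) ^ (X.J + 2)) := by ring
    rw [e]; exact hdm
  have h6 : (1 : ℝ) ≤ 2 * (m * X.dl j * (X.Q : ℝ) ^ (X.J + 1)) := h2.trans h4
  have hQg := h.Q_gt
  nlinarith

end Pool.Agent.Work.MP_e17eac_co.PS
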