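import Pool.Agent.Work.MP_e17eac_co.PS.Spr

/-!
# Project PS, version 2, item Chain1: the chain of scales
-/

namespace Pool.Agent.Work.MP_e17eac_co.PS

open Finset
open Pool.Agent.Work.MP_e17eac_co.DH

namespace XChain1

/-- Double counting for a decreasing chain of sets. -/
theorem sum_le {ι : Type} [DecidableEq ι] (Ls : Finset ι) (V : ℕ → Finset ι)
    (hV : ∀ k, V k ⊆ Ls) (hanti : ∀ k k', k ≤ k' → V k' ⊆ V k) (K0 : Finset ℕ) (b : ℕ) :
    ∑ k ∈ K0, (V k \ V (k + b)).card ≤ Ls.card * b := by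
  classical
  have h1 : ∀ k ∈ K0, (V k \ V (k + b)).card =
      ∑ l ∈ Ls, if l ∈ V k \ V (k + b) then 1 else 0 := by
    intro k _
    rw [← Finset.card_filter]
    congr 1
    ext l
    simp only [Finset.mem_filter]
    constructor
    · intro hl
      exact ⟨hV k (Finset.mem_sdiff.1 hl).1, hl⟩
    · intro hl
      exact hl.2
  rw [Finset.sum_congr rfl h1, Finset.sum_comm]
  have h2 : ∀ l ∈ Ls, (∑ k ∈ K0, if l ∈ V k \ V (k + b) then 1 else 0) ≤ b := by
    intro l _
    rw [← Finset.card_filter]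
    rcases (K0.filter (fun k => l ∈ V k \ V (k + b))).eq_empty_or_nonempty with h | h
    · rw [h]
      simp
    · obtain ⟨k1, hk1, hmin⟩ := Finset.exists_min_image _ (fun k => k) h
      have hsub : K0.filter (fun k => l ∈ V k \ V (k + b)) ⊆ Finset.Ico k1 (k1 + b) := by
        intro k hk
        have hle := hmin k hk
        have hm1 := (Finset.mem_filter.1 hk1).2
        have hm2 := (Finset.mem_filter.1 hk).2
        rw [Finset.mem_sdiff] at hm1 hm2
        rw [Finset.mem_Ico]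
        refine ⟨hle, ?_⟩
        by_contra hcon
        push Not at hcon
        exact hm1.2 (hanti _ _ hcon hm2.1)
      have := Finset.card_le_card hsub
      rw [Nat.card_Ico] at this
      omega
  have h3 := Finset.sum_le_card_nsmul Ls _ b h2
  rwa [smul_eq_mul] at h3

/-- The elementary inequality at one scale. -/
theorem scale_le {N M u : ℕ} (hNM : N ≤ M) (h : N ^ 3 ≤ 2 ^ 16 * u ^ 4) :
    (N : ℝ) ≤ 16 * (u : ℝ) * (M : ℝ) ^ ((1 : ℝ) / 4) := by
  have hM0 : (0 : ℝ) ≤ M := Nat.cast_nonneg _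
  have hr : (0 : ℝ) ≤ (M : ℝ) ^ ((1 : ℝ) / 4) := Real.rpow_nonneg hM0 _
  have hu : (0 : ℝ) ≤ u := Nat.cast_nonneg _
  have hr4 : ((M : ℝ) ^ ((1 : ℝ) / 4)) ^ 4 = M := by
    rw [← Real.rpow_natCast, ← Real.rpow_mul hM0]
    norm_num
  refine le_of_pow_le_pow_left₀ (n := 4) (by norm_num) (by positivity) ?_
  have e : (16 * (u : ℝ) * (M : ℝ) ^ ((1 : ℝ) / 4)) ^ 4 = 65536 * (u : ℝ) ^ 4 * M := by
    rw [mul_pow, mul_pow, hr4]
    norm_num
  rw [e]
  have h1 : N ^ 4 ≤ 65536 * u ^ 4 * M := by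
    calc N ^ 4 = N ^ 3 * N := by ring
      _ ≤ (2 ^ 16 * u ^ 4) * M := Nat.mul_le_mul h hNM
      _ = 65536 * u ^ 4 * M := by norm_num
  exact_mod_cast h1

theorem lines_mono {ι : Type} [Fintype ι] [DecidableEq ι] (K : KSys ι) {E E' : Finset ℕ}
    (h : E ⊆ E') : K.lines E ⊆ K.lines E' := by
  unfold KSys.lines
  exact Finset.union_subset_union (Finset.image_subset_image h) (Finset.image_subset_image h)

end XChain1

theorem I_Chain1 (hFan1 : StFan1) : StChain1 := by
  classical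
  intro ι _ _ K m q B p p' e L F k hm hsep hq hmq hp' hside hL hF hFne hk
  have hq0 : (0 : ℝ) < q := by
    have : (2 : ℝ) ≤ q := by exact_mod_cast hq
    linarith
  have hq1 : (1 : ℝ) ≤ q := by
    have : (2 : ℝ) ≤ q := by exact_mod_cast hq
    linarith
  obtain ⟨V, hVdef⟩ : ∃ V : ℕ → Finset ι, ∀ j, V j =
      K.lines ((Ico p p').filter (fun n => |K.t n - e| ≤ L / (q : ℝ) ^ j)) := ⟨_, fun _ => rfl⟩
  have hVsub : ∀ j, V j ⊆ K.lines (Ico p p') := by
    intro j
    rw [hVdef]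
    exact XChain1.lines_mono K (Finset.filter_subset _ _)
  have hanti : ∀ j j', j ≤ j' → V j' ⊆ V j := by
    intro j j' hjj
    rw [hVdef, hVdef]
    refine XChain1.lines_mono K ?_
    intro n hn
    rw [Finset.mem_filter] at hn ⊢
    refine ⟨hn.1, hn.2.trans ?_⟩
    exact div_le_div_of_nonneg_left hL.le (pow_pos hq0 j) (pow_le_pow_right₀ hq1 hjj)
  obtain ⟨k0, hk0, hmax⟩ := Finset.exists_max_image (F.image k)
    (fun j => (F.filter (fun n => k n = j)).card) (hFne.image k)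
  refine ⟨k0, ?_⟩
  have hscale : ∀ j ∈ F.image k, ((F.filter (fun n => k n = j)).card : ℝ) ≤
      16 * (((V j \ V (j + (B + 2))).card : ℕ) : ℝ) *
        ((F.filter (fun n => k n = k0)).card : ℝ) ^ ((1 : ℝ) / 4) := by
    intro j hj
    refine XChain1.scale_le (hmax j hj) ?_
    have hfan := hFan1 ι K m p p' e (L / (q : ℝ) ^ (j + (B + 2))) (L / (q : ℝ) ^ j) hm hsep hp'
      (by positivity) hside
    rw [hVdef, hVdef]
    refine le_trans (Nat.pow_le_pow_left (Finset.card_le_card ?_) 3) hfan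
    intro n hn
    obtain ⟨hnF, hnk⟩ := Finset.mem_filter.1 hn
    obtain ⟨h1, h2⟩ := hk n hnF
    rw [hnk] at h1 h2
    rw [Finset.mem_filter]
    refine ⟨hF hnF, lt_of_lt_of_le ?_ h1, h2⟩
    have hpos : 0 < L / (q : ℝ) ^ (j + (B + 2)) := by positivity
    calc 4 * m * (L / (q : ℝ) ^ (j + (B + 2))) < (q : ℝ) ^ (B + 1) * (L / (q : ℝ) ^ (j + (B + 2))) :=
          mul_lt_mul_of_pos_right hmq hpos
      _ = L / (q : ℝ) ^ (j + 1) := by
          have e1 : (q : ℝ) ^ (j + (B + 2)) = (q : ℝ) ^ (j + 1) * (q : ℝ) ^ (B + 1) := by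
            rw [← pow_add]
            congr 1
            ring
          rw [e1]
          field_simp
  have hsum := XChain1.sum_le (K.lines (Ico p p')) V hVsub hanti (F.image k) (B + 2)
  have hcard := Finset.card_eq_sum_card_image k F
  have hr : (0 : ℝ) ≤ ((F.filter (fun n => k n = k0)).card : ℝ) ^ ((1 : ℝ) / 4) :=
    Real.rpow_nonneg (Nat.cast_nonneg _) _
  have hcardR : (F.card : ℝ) = ∑ j ∈ F.image k, ((F.filter (fun n => k n = j)).card : ℝ) := by
    exact_mod_cast hcard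
  have hsumR : (∑ j ∈ F.image k, (((V j \ V (j + (B + 2))).card : ℕ) : ℝ)) ≤
      ((K.lines (Ico p p')).card : ℝ) * ((B : ℝ) + 2) := by
    exact_mod_cast hsum
  calc (F.card : ℝ) = ∑ j ∈ F.image k, ((F.filter (fun n => k n = j)).card : ℝ) := hcardR
    _ ≤ ∑ j ∈ F.image k, 16 * (((V j \ V (j + (B + 2))).card : ℕ) : ℝ) *
        ((F.filter (fun n => k n = k0)).card : ℝ) ^ ((1 : ℝ) / 4) := Finset.sum_le_sum hscale
    _ = 16 * (∑ j ∈ F.image k, (((V j \ V (j + (B + 2))).card : ℕ) : ℝ)) *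
        ((F.filter (fun n => k n = k0)).card : ℝ) ^ ((1 : ℝ) / 4) := by
        rw [← Finset.sum_mul, ← Finset.mul_sum]
    _ ≤ 16 * (((K.lines (Ico p p')).card : ℝ) * ((B : ℝ) + 2)) *
        ((F.filter (fun n => k n = k0)).card : ℝ) ^ ((1 : ℝ) / 4) := by
        refine mul_le_mul_of_nonneg_right ?_ hr
        linarith
    _ = 16 * ((B : ℝ) + 2) * ((K.lines (Ico p p')).card : ℝ) *
        ((F.filter (fun n => k n = k0)).card : ℝ) ^ ((1 : ℝ) / 4) := by ring

end Pool.Agent.Work.MP_e17eac_co.PS
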