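import Pool.Agent.Work.MP_e17eac_co.PS.Lg

/-!
# Project PS, item Child: three children
-/

set_option autoImplicit false

namespace Pool.Agent.Work.MP_e17eac_co.PS

open Finset
open Pool.Agent.Work.MP_e17eac_co.DH

/-- **Child** -/
theorem I_Child (hNest : StNest) (hQ2 : StQ2) (hQ3 : StQ3) : StChild := by
  intro ι _ _ X h j hj n hn
  have hQ1 : 1 ≤ X.Q := le_trans (by norm_num) h.hQ
  obtain ⟨hN, -⟩ := hNest ι X.K X.Q hQ1
  have hreg1 := h.regL false j (by omega)
  have hreg2 := h.regL false (j + X.g) hj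
  have hfg : ∀ k ∈ X.E, ∀ l ∈ X.E, (X.cl (j + X.g) k, X.K.ln false k) =
      (X.cl (j + X.g) l, X.K.ln false l) →
      (X.cl j k, X.K.ln false k) = (X.cl j l, X.K.ln false l) := by
    intro k hk l hl hkl
    rw [Prod.mk.injEq] at hkl ⊢
    exact ⟨hN j (j + X.g) k l (by omega) (h.sub k hk).2.1 (h.sub l hl).2.1 hkl.1, hkl.2⟩
  obtain ⟨h1, h2, _⟩ := h.lg_cnt (fun k => (X.cl j k, X.K.ln false k))
    (fun k => (X.cl (j + X.g) k, X.K.ln false k)) hreg1 hreg2 hfg n hn
  have h3 := (hQ2 ι X h j (by omega)).1 false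
  have h4 := (hQ3 ι X h (j + X.g) hj).1 false
  unfold RS.lL at h3 h4
  have h5 := h.hsg
  push_cast at h4
  set F := X.E.filter (fun k => (X.cl j k, X.K.ln false k) = (X.cl j n, X.K.ln false n)) with hF
  have h6 : (2 : ℝ) < (im F (fun k => (X.cl (j + X.g) k, X.K.ln false k)) : ℝ) := by
    refine h.lt_of_lg (by norm_num) (by linarith) ?_
    have := h.lg2_le
    linarith
  have h7 : 2 < im F (fun k => (X.cl (j + X.g) k, X.K.ln false k)) := by exact_mod_cast h6
  have hFne : F.Nonempty := ⟨n, Finset.mem_filter.2 ⟨hn, rfl⟩⟩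
  obtain ⟨n1, hn1, hmin⟩ := Finset.exists_min_image F (fun k => X.cl (j + X.g) k) hFne
  obtain ⟨n2, hn2, hmax⟩ := Finset.exists_max_image F (fun k => X.cl (j + X.g) k) hFne
  obtain ⟨a1, a2⟩ := Finset.mem_filter.1 hn1
  obtain ⟨b1, b2⟩ := Finset.mem_filter.1 hn2
  rw [Prod.mk.injEq] at a2 b2
  refine ⟨n1, a1, n2, b1, a2.1, b2.1, a2.2, b2.2, ?_⟩
  by_contra hcon
  have hsub : F.image (fun k => (X.cl (j + X.g) k, X.K.ln false k)) ⊆
      {(X.cl (j + X.g) n1, X.K.ln false n), (X.cl (j + X.g) n1 + 1, X.K.ln false n)} := by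
    intro z hz
    obtain ⟨k, hk, rfl⟩ := Finset.mem_image.1 hz
    have hk2 := (Finset.mem_filter.1 hk).2
    rw [Prod.mk.injEq] at hk2
    have c1 := hmin k hk
    have c2 := hmax k hk
    rw [Finset.mem_insert, Finset.mem_singleton, Prod.mk.injEq, Prod.mk.injEq]
    rcases Nat.lt_or_ge (X.cl (j + X.g) n1) (X.cl (j + X.g) k) with h0 | h0
    · right
      exact ⟨by omega, hk2.2⟩
    · left
      exact ⟨by omega, hk2.2⟩
  have h8 := (Finset.card_le_card hsub).trans Finset.card_le_two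
  unfold im at h7
  omega

end Pool.Agent.Work.MP_e17eac_co.PS
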