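import Pool.Agent.Work.MP_e17eac_co.PS.Lg

/-!
# Project PS, item Cls0: class functions
-/

namespace Pool.Agent.Work.MP_e17eac_co.PS

open Finset
open Pool.Agent.Work.MP_e17eac_co.DH

namespace XCls0

theorem code (q a1 b1 a2 b2 : ℕ) (hb1 : b1 < q) (hb2 : b2 < q) (h : a1 * q + b1 = a2 * q + b2) :
    a1 = a2 ∧ b1 = b2 := by
  have hq : 0 < q := by omega
  have h1 : (a1 * q + b1) / q = a1 := by
    rw [mul_comm, Nat.mul_add_div hq, Nat.div_eq_of_lt hb1, add_zero]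
  have h2 : (a2 * q + b2) / q = a2 := by
    rw [mul_comm, Nat.mul_add_div hq, Nat.div_eq_of_lt hb2, add_zero]
  have h3 : a1 = a2 := by rw [← h1, h, h2]
  refine ⟨h3, ?_⟩
  subst h3
  omega

theorem code_lt (q g a b : ℕ) (ha : a < q ^ g) (hb : b < q ^ g) :
    a * q ^ g + b < q ^ (2 * g) := by
  rw [two_mul, pow_add]
  have : (a + 1) * q ^ g ≤ q ^ g * q ^ g := Nat.mul_le_mul_right _ ha
  rw [add_mul, one_mul] at this
  omega

end XCls0

open XCls0 in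
theorem I_Cls0 (hNest : StNest) (hChild : StChild) (hCont : StCont) : StCls0 := by
  classical
  intro ι _ _ X hX j hj hdl hno
  have hQ := hX.hQ
  have hQ0 : 0 < X.Q := by omega
  have hqg : 0 < X.Q ^ X.g := Nat.pow_pos hQ0
  set F : ℕ → Finset ℕ := fun n =>
    X.E.filter (fun n' => X.cl j n' = X.cl j n ∧ X.K.a n' = X.K.a n) with hF
  have hself : ∀ n ∈ X.E, n ∈ F n := fun n hn => Finset.mem_filter.2 ⟨hn, rfl, rfl⟩
  have hmn : ∀ n, ∃ k, n ∈ X.E → k ∈ F n ∧ ∀ n' ∈ F n, X.cl (j + X.g) k ≤ X.cl (j + X.g) n' := by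
    intro n
    by_cases hn : n ∈ X.E
    · obtain ⟨k, hk, hk'⟩ := Finset.exists_min_image (F n) (fun n' => X.cl (j + X.g) n')
        ⟨n, hself n hn⟩
      exact ⟨k, fun _ => ⟨hk, hk'⟩⟩
    · exact ⟨0, fun h => absurd h hn⟩
  have hmx : ∀ n, ∃ k, n ∈ X.E → k ∈ F n ∧ ∀ n' ∈ F n, X.cl (j + X.g) n' ≤ X.cl (j + X.g) k := by
    intro n
    by_cases hn : n ∈ X.E
    · obtain ⟨k, hk, hk'⟩ := Finset.exists_max_image (F n) (fun n' => X.cl (j + X.g) n')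
        ⟨n, hself n hn⟩
      exact ⟨k, fun _ => ⟨hk, hk'⟩⟩
    · exact ⟨0, fun h => absurd h hn⟩
  choose mn hmn using hmn
  choose mx hmx using hmx
  have hdiv : ∀ n ∈ X.E, X.cl j n = X.cl (j + X.g) n / X.Q ^ X.g := by
    intro n hn
    have h := (hNest ι X.K X.Q (by omega)).2.1 j (j + X.g) n (Nat.le_add_right _ _)
      (hX.sub n hn).2.1
    rw [Nat.add_sub_cancel_left] at h
    exact h
  refine ⟨fun n => (X.cl (j + X.g) (mn n) % X.Q ^ X.g) * X.Q ^ X.g +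
    X.cl (j + X.g) (mx n) % X.Q ^ X.g, ?_, ?_, ?_⟩
  · intro n _
    exact code_lt X.Q X.g _ _ (Nat.mod_lt _ hqg) (Nat.mod_lt _ hqg)
  · intro n hn n' hn' hc ha
    have hFF : F n = F n' := by
      simp only [hF]
      rw [hc, ha]
    obtain ⟨h1, h2⟩ := hmn n hn
    obtain ⟨h1', h2'⟩ := hmn n' hn'
    obtain ⟨h3, h4⟩ := hmx n hn
    obtain ⟨h3', h4'⟩ := hmx n' hn'
    have e1 : X.cl (j + X.g) (mn n) = X.cl (j + X.g) (mn n') :=
      le_antisymm (h2 _ (hFF ▸ h1')) (h2' _ (hFF ▸ h1))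
    have e2 : X.cl (j + X.g) (mx n) = X.cl (j + X.g) (mx n') :=
      le_antisymm (h4' _ (hFF ▸ h3)) (h4 _ (hFF ▸ h3'))
    show X.cl (j + X.g) (mn n) % X.Q ^ X.g * X.Q ^ X.g + X.cl (j + X.g) (mx n) % X.Q ^ X.g =
      X.cl (j + X.g) (mn n') % X.Q ^ X.g * X.Q ^ X.g + X.cl (j + X.g) (mx n') % X.Q ^ X.g
    rw [e1, e2]
  · intro n hn n' hn' hc hκ r hr
    obtain ⟨hm1, hm2⟩ := code (X.Q ^ X.g) _ _ _ _ (Nat.mod_lt _ hqg) (Nat.mod_lt _ hqg) hκ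
    obtain ⟨h1, h2⟩ := hmn n hn
    obtain ⟨h1', h2'⟩ := hmn n' hn'
    obtain ⟨h3, h4⟩ := hmx n hn
    obtain ⟨h3', h4'⟩ := hmx n' hn'
    have g1 := Finset.mem_filter.1 h1
    have g1' := Finset.mem_filter.1 h1'
    have g3 := Finset.mem_filter.1 h3
    have g3' := Finset.mem_filter.1 h3'
    have e1 : X.cl (j + X.g) (mn n) = X.cl (j + X.g) (mn n') := by
      rw [← Nat.div_add_mod (X.cl (j + X.g) (mn n)) (X.Q ^ X.g),
        ← Nat.div_add_mod (X.cl (j + X.g) (mn n')) (X.Q ^ X.g), hm1, ← hdiv _ g1.1,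
        ← hdiv _ g1'.1, g1.2.1, g1'.2.1, hc]
    have e2 : X.cl (j + X.g) (mx n) = X.cl (j + X.g) (mx n') := by
      rw [← Nat.div_add_mod (X.cl (j + X.g) (mx n)) (X.Q ^ X.g),
        ← Nat.div_add_mod (X.cl (j + X.g) (mx n')) (X.Q ^ X.g), hm2, ← hdiv _ g3.1,
        ← hdiv _ g3'.1, g3.2.1, g3'.2.1, hc]
    obtain ⟨n1, hn1, n2, hn2, c1, c2, a1, a2, h12⟩ := hChild ι X hX j hj n hn
    have e3 : X.cl (j + X.g) (mn n) + 2 ≤ X.cl (j + X.g) (mx n) := by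
      have i1 := h2 n1 (Finset.mem_filter.2 ⟨hn1, c1, a1⟩)
      have i2 := h4 n2 (Finset.mem_filter.2 ⟨hn2, c2, a2⟩)
      omega
    have hfin := hCont ι X.K X.Q j X.g (X.dl j) X.E hQ hdl
      (fun n hn => ⟨(hX.sub n hn).1, (hX.sub n hn).2.1⟩) hno
      (mn n) g1.1 (mx n) g3.1 (mn n') g1'.1 (mx n') g3'.1
      (g3.2.1.trans g1.2.1.symm) ((g1'.2.1.trans hc.symm).trans g1.2.1.symm)
      ((g3'.2.1.trans hc.symm).trans g1.2.1.symm) (g1.2.2.trans g3.2.2.symm)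
      (g1'.2.2.trans g3'.2.2.symm) e1 e2 e3 r
      (by
        have : X.K.cell X.Q j (mn n) = X.cl j n := g1.2.1
        rw [this]
        exact hr)
    rw [g1.2.2, g1'.2.2] at hfin
    exact hfin

end Pool.Agent.Work.MP_e17eac_co.PS
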