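import Pool.Agent.Work.MP_e17eac_co.PS.Lg

/-!
# Project PS, item Cont: contact of two lines
-/

namespace Pool.Agent.Work.MP_e17eac_co.PS

open Finset
open Pool.Agent.Work.MP_e17eac_co.DH

namespace XCont

/-- An affine function which is small at two far points is small everywhere in the cell. -/
theorem core (α β δ u v r len hh M : ℝ) (hδ : 0 < δ) (hh0 : 0 < hh) (huv : hh ≤ v - u)
    (fu1 : α + β * u ≤ 2 * δ) (fu2 : -(2 * δ) ≤ α + β * u) (fv1 : α + β * v ≤ 2 * δ)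
    (fv2 : -(2 * δ) ≤ α + β * v) (hr : |r - u| ≤ len) (hlen : len = M * hh) (hM : 0 ≤ M) :
    |α + β * r| ≤ 2 * δ + 4 * δ * M := by
  have h1 : |β| * (v - u) ≤ 4 * δ := by
    have : |β| * (v - u) = |(α + β * v) - (α + β * u)| := by
      have e : (α + β * v) - (α + β * u) = β * (v - u) := by ring
      rw [e, abs_mul, abs_of_pos (by linarith : 0 < v - u)]
    rw [this, abs_le]
    constructor <;> linarith
  have h2 : |β| * hh ≤ 4 * δ := le_trans (mul_le_mul_of_nonneg_left huv (abs_nonneg β)) h1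
  have h3 : |α + β * r| ≤ |α + β * u| + |β| * |r - u| := by
    have e : α + β * r = (α + β * u) + β * (r - u) := by ring
    rw [e, ← abs_mul]
    exact abs_add_le _ _
  have h4 : |α + β * u| ≤ 2 * δ := abs_le.2 ⟨fu2, fu1⟩
  have h5 : |β| * |r - u| ≤ |β| * len := mul_le_mul_of_nonneg_left hr (abs_nonneg β)
  have h6 : |β| * len = M * (|β| * hh) := by rw [hlen]; ring
  have h7 : M * (|β| * hh) ≤ M * (4 * δ) := mul_le_mul_of_nonneg_left h2 hM
  linarith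

/-- Upper bound for an affine function between two points. -/
theorem aff_le (α β C a b x : ℝ) (h1 : α + β * a ≤ C) (h2 : α + β * b ≤ C) (hax : a ≤ x)
    (hxb : x ≤ b) : α + β * x ≤ C := by
  rcases le_total 0 β with hβ | hβ
  · have := mul_le_mul_of_nonneg_left hxb hβ
    linarith
  · have := mul_le_mul_of_nonpos_left hax hβ
    linarith

theorem le_aff (α β C a b x : ℝ) (h1 : C ≤ α + β * a) (h2 : C ≤ α + β * b) (hax : a ≤ x)
    (hxb : x ≤ b) : C ≤ α + β * x := by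
  rcases le_total 0 β with hβ | hβ
  · have := mul_le_mul_of_nonneg_left hax hβ
    linarith
  · have := mul_le_mul_of_nonpos_left hxb hβ
    linarith

variable {ι : Type} [Fintype ι] [DecidableEq ι]

theorem cell_le (K : KSys ι) (Q j n : ℕ) (hQ : 0 < Q) (ht : 0 ≤ K.t n) :
    (K.cell Q j n : ℝ) / (Q : ℝ) ^ j ≤ K.t n := by
  have hQ' : (0 : ℝ) < (Q : ℝ) ^ j := by positivity
  rw [div_le_iff₀ hQ']
  exact Nat.floor_le (by positivity)

theorem lt_cell (K : KSys ι) (Q j n : ℕ) (hQ : 0 < Q) :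
    K.t n < ((K.cell Q j n : ℝ) + 1) / (Q : ℝ) ^ j := by
  have hQ' : (0 : ℝ) < (Q : ℝ) ^ j := by positivity
  rw [lt_div_iff₀ hQ']
  exact Nat.lt_floor_add_one _

theorem ci_le (hIdx : StIdx) (K : KSys ι) (Q j n : ℕ) (hQ : 0 < Q) (ht : 0 ≤ K.t n) :
    K.ci Q j (K.cell Q j n) ≤ n := by
  by_contra h
  push Not at h
  have h1 := ((hIdx ι K).2.1 n _).1 h
  exact absurd h1.2 (not_lt.2 (cell_le K Q j n hQ ht))

theorem lt_ci (hIdx : StIdx) (K : KSys ι) (Q j n : ℕ) (hQ : 0 < Q) (hn : n < K.N) :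
    n < K.ci Q j (K.cell Q j n + 1) := by
  apply ((hIdx ι K).2.1 n _).2
  refine ⟨hn, ?_⟩
  have := lt_cell K Q j n hQ
  push_cast
  exact this

theorem up (hLeq : StLeq) (hIdx : StIdx) (K : KSys ι) (Q j n n' : ℕ) (δ : ℝ) (hQ : 0 < Q)
    (hn : n < K.N) (ht : 0 ≤ K.t n) (hc : K.cell Q j n = K.cell Q j n')
    (hno : ¬ UpGap K Q j (K.cell Q j n') (K.a n') (2 * δ)) :
    K.ht (K.a n) (K.t n) - K.ht (K.a n') (K.t n) ≤ 2 * δ := by
  by_contra h
  push Not at h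
  apply hno
  obtain ⟨-, -, -, hv, -⟩ := hLeq ι K n hn
  rw [← hc]
  exact ⟨n, K.t n, ci_le hIdx K Q j n hQ ht, (lt_ci hIdx K Q j n hQ hn).le, hv,
    ⟨cell_le K Q j n hQ ht, (lt_cell K Q j n hQ).le⟩, K.a n, K.a_mem n hn, by linarith⟩

theorem dn (hLeq : StLeq) (hIdx : StIdx) (K : KSys ι) (Q j n n' : ℕ) (δ : ℝ) (hQ : 0 < Q)
    (hn : n < K.N) (ht : 0 ≤ K.t n) (hc : K.cell Q j n = K.cell Q j n')
    (hno : ¬ DnGap K Q j (K.cell Q j n') (K.a n') (2 * δ)) :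
    -(2 * δ) ≤ K.ht (K.a n) (K.t n) - K.ht (K.a n') (K.t n) := by
  by_contra h
  push Not at h
  apply hno
  obtain ⟨-, -, -, -, hv⟩ := hLeq ι K n hn
  rw [← hc]
  refine ⟨n + 1, K.t n, (ci_le hIdx K Q j n hQ ht).trans (Nat.le_succ n),
    lt_ci hIdx K Q j n hQ hn, hv,
    ⟨cell_le K Q j n hQ ht, (lt_cell K Q j n hQ).le⟩, K.a n, ?_, by linarith⟩
  rw [K.S_succ n hn]
  intro hmem
  rw [Finset.mem_insert] at hmem
  rcases hmem with hmem | hmem
  · exact K.b_mem n hn (hmem ▸ K.a_mem n hn)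
  · exact absurd rfl (Finset.ne_of_mem_erase hmem)

end XCont

open XCont in
theorem I_Cont (hLeq : StLeq) (hIdx : StIdx) (hNest : StNest) : StCont := by
  intro ι _ _ K Q j g δ E hQ hδ hE hno k hk l hl k' hk' l' hl' c1 c2 c3 hakl hakl' d1 d2 d3 r hr
  have hQ0 : 0 < Q := by omega
  obtain ⟨kN, kt⟩ := hE k hk
  obtain ⟨lN, lt⟩ := hE l hl
  obtain ⟨kN', kt'⟩ := hE k' hk'
  obtain ⟨lN', lt'⟩ := hE l' hl'
  have hQj : (0 : ℝ) < (Q : ℝ) ^ j := by positivity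
  have hQg : (0 : ℝ) < (Q : ℝ) ^ g := by positivity
  have hQjg : (0 : ℝ) < (Q : ℝ) ^ (j + g) := by positivity
  set u : ℝ := ((K.cell Q (j + g) k : ℝ) + 1) / (Q : ℝ) ^ (j + g) with hu
  set v : ℝ := (K.cell Q (j + g) l : ℝ) / (Q : ℝ) ^ (j + g) with hv
  have tk : K.t k ≤ u := (lt_cell K Q (j + g) k hQ0).le
  have tk' : K.t k' ≤ u := by
    rw [hu, d1]
    exact (lt_cell K Q (j + g) k' hQ0).le
  have tl : v ≤ K.t l := cell_le K Q (j + g) l hQ0 lt
  have tl' : v ≤ K.t l' := by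
    rw [hv, d2]
    exact cell_le K Q (j + g) l' hQ0 lt'
  have huv : 1 / (Q : ℝ) ^ (j + g) ≤ v - u := by
    rw [hu, hv, ← sub_div]
    apply div_le_div_of_nonneg_right _ hQjg.le
    have : (K.cell Q (j + g) k : ℝ) + 2 ≤ (K.cell Q (j + g) l : ℝ) := by exact_mod_cast d3
    linarith
  have hh0 : (0 : ℝ) < 1 / (Q : ℝ) ^ (j + g) := by positivity
  have huv' : u ≤ v := by linarith
  -- the affine function
  have hf : ∀ s, K.ht (K.a k) s - K.ht (K.a k') s =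
      (K.y (K.a k) - K.y (K.a k')) + (K.x (K.a k) - K.x (K.a k')) * s := by
    intro s
    unfold KSys.ht
    ring
  set α : ℝ := K.y (K.a k) - K.y (K.a k')
  set β : ℝ := K.x (K.a k) - K.x (K.a k')
  have key : (α + β * u ≤ 2 * δ ∧ -(2 * δ) ≤ α + β * u) ∧
      (α + β * v ≤ 2 * δ ∧ -(2 * δ) ≤ α + β * v) := by
    rcases hno with hno | hno
    · have e1 := up hLeq hIdx K Q j k k' δ hQ0 kN kt c2.symm (hno k' hk')
      have e2 := up hLeq hIdx K Q j l l' δ hQ0 lN lt (c1.trans c3.symm) (hno l' hl')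
      have e3 := up hLeq hIdx K Q j k' k δ hQ0 kN' kt' c2 (hno k hk)
      have e4 := up hLeq hIdx K Q j l' l δ hQ0 lN' lt' (c3.trans c1.symm) (hno l hl)
      rw [← hakl, ← hakl'] at e2 e4
      rw [hf] at e1 e2
      have e3' := hf (K.t k')
      have e4' := hf (K.t l')
      have g3 : -(2 * δ) ≤ α + β * K.t k' := by linarith
      have g4 : -(2 * δ) ≤ α + β * K.t l' := by linarith
      exact ⟨⟨aff_le α β _ _ _ u e1 e2 tk (huv'.trans tl),
        le_aff α β _ _ _ u g3 g4 tk' (huv'.trans tl')⟩,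
        ⟨aff_le α β _ _ _ v e1 e2 (tk.trans huv') tl,
        le_aff α β _ _ _ v g3 g4 (tk'.trans huv') tl'⟩⟩
    · have e1 := dn hLeq hIdx K Q j k k' δ hQ0 kN kt c2.symm (hno k' hk')
      have e2 := dn hLeq hIdx K Q j l l' δ hQ0 lN lt (c1.trans c3.symm) (hno l' hl')
      have e3 := dn hLeq hIdx K Q j k' k δ hQ0 kN' kt' c2 (hno k hk)
      have e4 := dn hLeq hIdx K Q j l' l δ hQ0 lN' lt' (c3.trans c1.symm) (hno l hl)
      rw [← hakl, ← hakl'] at e2 e4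
      rw [hf] at e1 e2
      have e3' := hf (K.t k')
      have e4' := hf (K.t l')
      have g3 : α + β * K.t k' ≤ 2 * δ := by linarith
      have g4 : α + β * K.t l' ≤ 2 * δ := by linarith
      exact ⟨⟨aff_le α β _ _ _ u g3 g4 tk' (huv'.trans tl'),
        le_aff α β _ _ _ u e1 e2 tk (huv'.trans tl)⟩,
        ⟨aff_le α β _ _ _ v g3 g4 (tk'.trans huv') tl',
        le_aff α β _ _ _ v e1 e2 (tk.trans huv') tl⟩⟩
  obtain ⟨⟨fu1, fu2⟩, fv1, fv2⟩ := key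
  have hulo : (K.cell Q j k : ℝ) / (Q : ℝ) ^ j ≤ u := (cell_le K Q j k hQ0 kt).trans tk
  have huhi : u ≤ ((K.cell Q j k : ℝ) + 1) / (Q : ℝ) ^ j := by
    rw [← c1]
    exact (huv'.trans tl).trans (lt_cell K Q j l hQ0).le
  have hru : |r - u| ≤ 1 / (Q : ℝ) ^ j := by
    obtain ⟨r1, r2⟩ := hr
    have e : ((K.cell Q j k : ℝ) + 1) / (Q : ℝ) ^ j =
        (K.cell Q j k : ℝ) / (Q : ℝ) ^ j + 1 / (Q : ℝ) ^ j := by rw [add_div]
    rw [abs_le]
    constructor <;> linarith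
  have hlen : 1 / (Q : ℝ) ^ j = (Q : ℝ) ^ g * (1 / (Q : ℝ) ^ (j + g)) := by
    rw [pow_add]
    field_simp
  have hmain := core α β δ u v r (1 / (Q : ℝ) ^ j) (1 / (Q : ℝ) ^ (j + g)) ((Q : ℝ) ^ g) hδ hh0
    huv fu1 fu2 fv1 fv2 hru hlen hQg.le
  rw [hf]
  refine hmain.trans ?_
  have hQ6 : (6 : ℝ) ≤ (Q : ℝ) := by
    have : 6 ≤ Q := by omega
    exact_mod_cast this
  have hg1 : (1 : ℝ) ≤ (Q : ℝ) ^ g := one_le_pow₀ (by linarith)
  rw [pow_succ]
  have h1 : 2 * δ ≤ 2 * δ * (Q : ℝ) ^ g := by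
    have := mul_le_mul_of_nonneg_left hg1 (by linarith : 0 ≤ 2 * δ)
    linarith
  have h2 : 6 * (δ * (Q : ℝ) ^ g) ≤ (Q : ℝ) * (δ * (Q : ℝ) ^ g) :=
    mul_le_mul_of_nonneg_right hQ6 (by positivity)
  nlinarith

end Pool.Agent.Work.MP_e17eac_co.PS
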