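import Pool.Agent.Work.MP_e17eac_co.PS.Lg

/-!
# Project PS: all relations together
-/

set_option autoImplicit false

namespace Pool.Agent.Work.MP_e17eac_co.PS

open Finset
open Pool.Agent.Work.MP_e17eac_co.DH

theorem I_Ex (hGapD : StGapD) (hQ1 : StQ1) (hQ2 : StQ2) (hQ3 : StQ3) (hQ4 : StQ4) (hQ5 : StQ5)
    (hQ7 : StQ7) (hQ8x : StQ8x) (hQ8y : StQ8y) (hA : StA) (hA0 : StA0) (hIN : StIN)
    (hP2a : StP2a) (hP2b : StP2b) (hB1 : StB1) (hB2 : StB2) (hCls0 : StCls0) (hLo : StLo) :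
    StEx := by
  intro ι _ _ X h hgJ f hf
  have h0 : X.OK0 := h.toOK0
  obtain ⟨-, q1b, q1c, q1d, q1e, q1f, -, -, -⟩ := hQ1 ι X h0
  obtain ⟨gd, -⟩ := hGapD ι X h
  have hQ1' : (1 : ℝ) ≤ X.Q := h0.one_lt_Q.le
  have q2 := hQ2 ι X h0
  have q3 := hQ3 ι X h0
  have hdl : ∀ j, j + X.g ≤ X.J → 0 < X.dl j := fun j hj => (gd j hj).1
  have hpow : ∀ j, j + X.g ≤ X.J → ∀ i i' : ℕ, i ≤ i' →
      X.dl j * (X.Q : ℝ) ^ i ≤ X.dl j * (X.Q : ℝ) ^ i' := fun j hj i i' hi =>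
    mul_le_mul_of_nonneg_left (pow_le_pow_right₀ hQ1' hi) (hdl j hj).le
  have triv : ∀ j i, j ≤ X.J → i ≤ X.I → X.lG j i ≤ X.s * j + 2 + X.lB i := by
    intro j i hj _
    have h1 := (q1c j i).2
    have h2 := (q1b j hj).2
    linarith
  have q4 : ∀ j i, j + X.g ≤ X.J → f j ≤ i → i ≤ X.I → X.lG j i ≤ X.lB i + X.s * j / 4 + 21 := by
    intro j i hj hfi hi
    exact hQ4 ι X h j i hj hi ((hf.lo j hj).trans (hpow j hj _ _ hfi))
  have hA' : ∀ j i0, X.g ≤ j → j + X.g ≤ X.J → i0 ≤ f j →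
      X.lB (f j) + X.lB i0 + X.s * j / 2 ≤ 2 * X.lG j i0 + 8 * X.g + 60 := by
    intro j i0 hgj hj hi0
    exact hA ι X h j (f j) i0 hgj hj hi0 (hf.le j hj) (hf.hi j hj)
  have hg0 : 0 + X.g ≤ X.J := by omega
  have hA0' : X.lB (f 0) ≤ 4 * X.g + 8 :=
    hA0 ι X h (by omega) (f 0) (hf.le 0 hg0) (hf.hi 0 hg0)
  have hsJ : ∀ j, j ≤ X.J → X.s * j ≤ X.s * X.J := by
    intro j hj
    have : (j : ℝ) ≤ X.J := by exact_mod_cast hj
    exact mul_le_mul_of_nonneg_left this h0.hs0.le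
  have hgn : (0 : ℝ) ≤ X.g := Nat.cast_nonneg _
  have hbig1 : ∀ j, X.g ≤ j → j + X.g ≤ X.J →
      X.lB (f j) ≤ 3 / 2 * (X.s * X.J) + 16 * X.g + 100 := by
    intro j hgj hj
    have h1 := hA' j (f 0) hgj hj (hf.mono 0 j (Nat.zero_le _) hj)
    have h2 := triv j (f 0) (by omega) (hf.le 0 hg0)
    have h3 := hsJ j (by omega)
    linarith
  have hbig : ∀ j, j + X.g ≤ X.J → X.lB (f j) ≤ 3 / 2 * (X.s * X.J) + 16 * X.g + 100 := by
    intro j hj
    rcases le_total X.g j with hgj | hgj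
    · exact hbig1 j hgj hj
    · have h1 : f j ≤ f X.g := hf.mono j X.g hgj (by omega)
      exact (q1d _ _ h1).trans (hbig1 X.g le_rfl (by omega))
  refine ⟨hf.mono, hf.le, fun i i' hi _ => q1d i i' hi, fun j j' i hj _ _ => q1e j j' i hj,
    fun j i i' _ hi _ => q1f j i i' hi, triv, q4, ?_, ?_, hA', hA0', ?_, ?_, ?_⟩
  · intro j i hj hi
    exact hQ5 ι X h j i hj hi
  · -- F
    intro j0 j hj0 hj
    have hj0g : j0 + X.g ≤ X.J := by omega
    have hi0 : f j0 ≤ X.I := hf.le j0 hj0g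
    have hsz : X.dl j * (X.Q : ℝ) ^ f j0 ≤ 16 * X.Q :=
      (hpow j hj _ _ (hf.mono j0 j hj0 hj)).trans (hf.hi j hj)
    have h7 := hQ7 ι X h j (f j0) hj hi0 hsz
    have hMj := q1b j (by omega)
    have hMj0 := q1b j0 (by omega)
    by_cases hc : X.lS j (f j0) ≤ X.lM j + 3 * X.g + 10
    · left
      linarith
    · right
      obtain ⟨E2, l, hmid⟩ := hQ8x ι X h j (f j0) hj hi0 (not_le.1 hc)
      have h8 := hQ8y ι X h j0 j (f j0) hj0 hj hi0 E2 l hmid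
      have h9 := (q3 j (by omega)).2 false
      have h10 := (q2 j0 (by omega)).2 false
      have h11 := (q1c j0 (f j0)).1
      have h12 := q4 j0 (f j0) hj0g le_rfl hi0
      linarith
  · -- P2
    intro j hj
    have hi : f j ≤ X.I := hf.le j hj
    have h1 := hIN ι X h (f j) hi (hbig j hj)
    have h2 := hP2b ι X h (f j) hi (hbig j hj) h1
    have h3 := hP2a ι X h j (f j) (by omega) hi
    have h4 := q4 j (f j) hj le_rfl hi
    have h5 := (q2 j (by omega)).2 false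
    have h6 := (q2 j (by omega)).2 true
    have h7 := (q1b j (by omega)).1
    linarith
  · -- B
    intro j l i' i'' hj hi' hi'' hl hor hbigG
    have hi : f j ≤ X.I := hf.le j hj
    obtain ⟨κ, hκ⟩ := hCls0 ι X h0 j hj (hdl j hj) (h.typ j hj)
    have h1 := hB1 ι X h j (f j) i' i'' κ (by omega) hi hi' hi'' hκ.lt hbigG
    have h2 := hB2 ι X h j l (f j) i' i'' κ hj hi (hf.hi j hj) hi' hi'' hl hor hκ
    linarith
  · -- Lo
    intro j0 j hj0 hj hlt
    have hj0g : j0 + X.g ≤ X.J := by omega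
    have hi0 : f j0 ≤ X.I := hf.le j0 hj0g
    by_cases hc : 1 < X.D false j * (X.Q : ℝ) ^ f j0
    · exfalso
      have h1 := hLo ι X h j0 j (f j0) hj0 (by omega) hi0 hc
      have h2 := (q3 j (by omega)).2 false
      have h3 := (q2 j0 (by omega)).2 false
      have h4 := (q1c j0 (f j0)).1
      have h5 := q4 j0 (f j0) hj0g le_rfl hi0
      have h6 := (q1b j0 (by omega)).1
      linarith
    · rw [not_lt] at hc
      by_contra hcon
      have h1 : f j ≤ j + f j0 := by omega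
      have h2 := hpow j hj _ _ h1
      have h3 := hf.lo j hj
      have h4 := (gd j hj).2.2 false
      have h5 : X.dl j * (X.Q : ℝ) ^ (j + f j0) = X.dl j * (X.Q : ℝ) ^ j * (X.Q : ℝ) ^ f j0 := by
        rw [pow_add]; ring
      have h6 : X.dl j * (X.Q : ℝ) ^ j * (X.Q : ℝ) ^ f j0 ≤
          2 * X.D false j * (X.Q : ℝ) ^ f j0 :=
        mul_le_mul_of_nonneg_right h4 (h0.Qpow_pos _).le
      nlinarith

end Pool.Agent.Work.MP_e17eac_co.PS
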