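import Pool.Agent.Work.MP_e17eac_co.PS.S7

/-!
# Project PS, item F1: popular edges
-/

set_option autoImplicit false

namespace Pool.Agent.Work.MP_e17eac_co.PS

open Finset
open Pool.Agent.Work.MP_e17eac_co.DH

namespace XF1

/-- If every fibre has weight at most `c` then the set has weight at most `c` times the number of
fibres. -/
theorem card_fib {α : Type} [DecidableEq α] (S : Finset ℕ) (f : ℕ → α) (G c : ℝ)
    (h : ∀ n ∈ S, ((S.filter (fun k => f k = f n)).card : ℝ) * G ≤ c) :
    (S.card : ℝ) * G ≤ ((S.image f).card : ℝ) * c := by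
  have e : (S.card : ℝ) = ∑ a ∈ S.image f, ((S.filter (fun k => f k = a)).card : ℝ) := by
    exact_mod_cast Finset.card_eq_sum_card_image f S
  rw [e, Finset.sum_mul]
  calc ∑ a ∈ S.image f, ((S.filter (fun k => f k = a)).card : ℝ) * G
      ≤ ∑ _a ∈ S.image f, c := by
        apply Finset.sum_le_sum
        intro a ha
        obtain ⟨n, hn, rfl⟩ := Finset.mem_image.1 ha
        exact h n hn
    _ = ((S.image f).card : ℝ) * c := by rw [Finset.sum_const, nsmul_eq_mul]

end XF1

open XF1 in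
theorem I_F1 (hNest : StNest) : StF1 := by
  intro ι _ _ X h j i i' κ hj hi' hi hκ
  have _ := hNest
  have h0 : X.OK0 := h.toOK0
  have hQ := h0.Q_pos
  set φ : ℝ := X.lG j i - X.lG j i' - 2 * X.g - 1 with hφ
  set P : ℕ → Prop := fun n => (X.Q : ℝ) ^ φ ≤ ((X.mates κ j i i' n).card : ℝ) with hP
  classical
  refine ⟨X.E.filter P, Finset.filter_subset _ _, ?_, ?_⟩
  swap
  · intro n hn
    exact h0.le_lg_of_le (Finset.mem_filter.1 hn).2
  set E3 := X.E.filter (fun n => ¬ P n) with hE3
  have hsum : (X.E.filter P).card + E3.card = X.E.card :=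
    Finset.card_filter_add_card_filter_not _
  set G : ℝ := (im X.E (fun n => (X.cl j n, X.box i n)) : ℝ) with hG
  set G' : ℝ := (im X.E (fun n => (X.cl j n, X.box i' n)) : ℝ) with hG'
  have hGpos : 1 ≤ G := h0.im_pos _
  have hGpos' : 1 ≤ G' := h0.im_pos _
  have hE := h0.card_pos
  have hL := h0.L_pos
  have hQφ : 0 < (X.Q : ℝ) ^ φ := Real.rpow_pos_of_pos hQ _
  -- the size of one class
  have hcls : ∀ n ∈ E3, ((E3.filter (fun k => (X.cl j k, X.box i' k, κ k) =
      (X.cl j n, X.box i' n, κ n))).card : ℝ) * G ≤ (X.Q : ℝ) ^ φ * (X.Λ * X.E.card) := by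
    intro n hn
    set C := E3.filter (fun k => (X.cl j k, X.box i' k, κ k) = (X.cl j n, X.box i' n, κ n))
      with hC
    have hCE : C ⊆ X.E := (Finset.filter_subset _ _).trans (Finset.filter_subset _ _)
    have h1 := card_fib C (fun k => (X.cl j k, X.box i k)) G (X.Λ * X.E.card) (by
      intro k hk
      refine le_trans ?_ (h.regG j i hj hi k (hCE hk)).2
      have h2 : (C.filter (fun l => (X.cl j l, X.box i l) = (X.cl j k, X.box i k))).card ≤
          (X.E.filter (fun l => (X.cl j l, X.box i l) = (X.cl j k, X.box i k))).card :=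
        Finset.card_le_card (Finset.filter_subset_filter _ hCE)
      have h3 : ((C.filter (fun l => (X.cl j l, X.box i l) = (X.cl j k, X.box i k))).card : ℝ) ≤
          ((X.E.filter (fun l => (X.cl j l, X.box i l) = (X.cl j k, X.box i k))).card : ℝ) := by
        exact_mod_cast h2
      exact mul_le_mul_of_nonneg_right h3 (by linarith))
    refine h1.trans (mul_le_mul_of_nonneg_right ?_ (by positivity))
    have h4 : (C.image (fun k => (X.cl j k, X.box i k))).card ≤ (X.mates κ j i i' n).card := by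
      have h5 : C.image (fun k => (X.cl j k, X.box i k)) ⊆
          (X.mates κ j i i' n).image (fun B => (X.cl j n, B)) := by
        intro v hv
        obtain ⟨k, hk, rfl⟩ := Finset.mem_image.1 hv
        have h6 := (Finset.mem_filter.1 hk).2
        simp only [Prod.mk.injEq] at h6
        refine Finset.mem_image.2 ⟨X.box i k, ?_, by simp only [h6.1]⟩
        unfold RS.mates
        exact Finset.mem_image_of_mem _ (Finset.mem_filter.2 ⟨hCE hk, h6.1, h6.2.1, h6.2.2⟩)
      exact (Finset.card_le_card h5).trans Finset.card_image_le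
    have h7 : ((X.mates κ j i i' n).card : ℝ) < (X.Q : ℝ) ^ φ := not_le.1 (Finset.mem_filter.1 hn).2
    have h8 : ((C.image (fun k => (X.cl j k, X.box i k))).card : ℝ) ≤
        ((X.mates κ j i i' n).card : ℝ) := by exact_mod_cast h4
    exact h8.trans h7.le
  have h9 := card_fib E3 (fun k => (X.cl j k, X.box i' k, κ k)) G _ hcls
  -- the number of classes
  have h10 : ((E3.image (fun k => (X.cl j k, X.box i' k, κ k))).card : ℝ) ≤
      G' * (X.Q : ℝ) ^ (2 * X.g) := by
    have h11 : (E3.image (fun k => (X.cl j k, X.box i' k, κ k))) ⊆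
        ((X.E.image (fun n => (X.cl j n, X.box i' n))) ×ˢ range (X.Q ^ (2 * X.g))).image
          (fun p => (p.1.1, p.1.2, p.2)) := by
      intro v hv
      obtain ⟨k, hk, rfl⟩ := Finset.mem_image.1 hv
      have hkE : k ∈ X.E := (Finset.mem_filter.1 hk).1
      exact Finset.mem_image.2 ⟨((X.cl j k, X.box i' k), κ k), Finset.mem_product.2
        ⟨Finset.mem_image_of_mem _ hkE, Finset.mem_range.2 (hκ k hkE)⟩, rfl⟩
    have h12 := (Finset.card_le_card h11).trans Finset.card_image_le
    rw [Finset.card_product, Finset.card_range] at h12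
    have h13 : (((E3.image (fun k => (X.cl j k, X.box i' k, κ k))).card : ℕ) : ℝ) ≤
        (((X.E.image (fun n => (X.cl j n, X.box i' n))).card * X.Q ^ (2 * X.g) : ℕ) : ℝ) := by
      exact_mod_cast h12
    push_cast at h13
    exact h13
  -- the exponent
  have hQG : (X.Q : ℝ) ^ φ * (G' * (X.Q : ℝ) ^ (2 * X.g) * X.Q) = G := by
    have e1 : (X.Q : ℝ) ^ (X.lG j i) = G := h0.rpow_lg (by linarith)
    have e2 : (X.Q : ℝ) ^ (X.lG j i') = G' := h0.rpow_lg (by linarith)
    have e3 : (X.Q : ℝ) ^ (2 * X.g) = (X.Q : ℝ) ^ ((2 * X.g : ℕ) : ℝ) := (Real.rpow_natCast _ _).symm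
    have e4 : (X.Q : ℝ) = (X.Q : ℝ) ^ (1 : ℝ) := (Real.rpow_one _).symm
    rw [← e1, ← e2, e3]
    nth_rewrite 4 [e4]
    rw [← Real.rpow_add hQ, ← Real.rpow_add hQ, ← Real.rpow_add hQ]
    congr 1
    rw [hφ]
    push_cast
    ring
  have h2L : 2 * X.Λ ≤ X.Q := by
    apply h0.le_of_lg (by positivity) hQ
    rw [h0.lg_mul two_pos hL, h0.lg_Q]
    have := h0.lg2_le
    have := h0.lgL_le
    linarith
  -- conclusion
  have h14 : (E3.card : ℝ) * G * X.Q ≤ G * (X.Λ * X.E.card) := by
    calc (E3.card : ℝ) * G * X.Q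
        ≤ (((E3.image (fun k => (X.cl j k, X.box i' k, κ k))).card : ℝ) *
            ((X.Q : ℝ) ^ φ * (X.Λ * X.E.card))) * X.Q := mul_le_mul_of_nonneg_right h9 hQ.le
      _ ≤ (G' * (X.Q : ℝ) ^ (2 * X.g) * ((X.Q : ℝ) ^ φ * (X.Λ * X.E.card))) * X.Q := by
          gcongr
      _ = ((X.Q : ℝ) ^ φ * (G' * (X.Q : ℝ) ^ (2 * X.g) * X.Q)) * (X.Λ * X.E.card) := by ring
      _ = G * (X.Λ * X.E.card) := by rw [hQG]
  have h15 : (E3.card : ℝ) * X.Q ≤ X.Λ * X.E.card := by
    have : G * ((E3.card : ℝ) * X.Q) ≤ G * (X.Λ * X.E.card) := by linarith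
    exact le_of_mul_le_mul_left this (by linarith)
  have h16 : (E3.card : ℝ) * (2 * X.Λ) ≤ X.Λ * X.E.card :=
    (mul_le_mul_of_nonneg_left h2L (Nat.cast_nonneg _)).trans h15
  have h17 : 2 * (E3.card : ℝ) ≤ X.E.card := by
    have : X.Λ * (2 * (E3.card : ℝ)) ≤ X.Λ * X.E.card := by linarith
    exact le_of_mul_le_mul_left this hL
  have h18 : 2 * E3.card ≤ X.E.card := by exact_mod_cast h17
  omega

end Pool.Agent.Work.MP_e17eac_co.PS
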