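import Pool.Agent.Work.MP_e17eac_co.PS.S7

/-!
# Project PS, section 7, item F2: regularity of the times in which a box is active
-/

namespace Pool.Agent.Work.MP_e17eac_co.PS

open Finset
open Pool.Agent.Work.MP_e17eac_co.DH

namespace XF2

/-- Integers in a closed real interval. -/
theorem card_interval (S : Finset ℤ) (p q : ℝ) (hpq : p ≤ q)
    (h : ∀ s ∈ S, p ≤ (s : ℝ) ∧ (s : ℝ) ≤ q) : (S.card : ℝ) ≤ q - p + 1 := by
  have hsub : S ⊆ Finset.Icc ⌈p⌉ ⌊q⌋ := by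
    intro s hs
    obtain ⟨h1, h2⟩ := h s hs
    rw [Finset.mem_Icc]
    exact ⟨Int.ceil_le.mpr h1, Int.le_floor.mpr h2⟩
  have h1 : (S.card : ℝ) ≤ ((Finset.Icc ⌈p⌉ ⌊q⌋).card : ℝ) := by
    exact_mod_cast Finset.card_le_card hsub
  rw [Int.card_Icc] at h1
  have h2 : (((⌊q⌋ + 1 - ⌈p⌉).toNat : ℕ) : ℝ) ≤ q - p + 1 := by
    rcases le_total 0 (⌊q⌋ + 1 - ⌈p⌉) with hn | hn
    · have h3 : (((⌊q⌋ + 1 - ⌈p⌉).toNat : ℕ) : ℝ) = (⌊q⌋ : ℝ) + 1 - (⌈p⌉ : ℝ) := by
        have h4 : (((⌊q⌋ + 1 - ⌈p⌉).toNat : ℕ) : ℤ) = ⌊q⌋ + 1 - ⌈p⌉ := Int.toNat_of_nonneg hn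
        have h5 : (((((⌊q⌋ + 1 - ⌈p⌉).toNat : ℕ) : ℤ)) : ℝ) = ((⌊q⌋ + 1 - ⌈p⌉ : ℤ) : ℝ) := by
          rw [h4]
        push_cast at h5
        exact h5
      rw [h3]
      have h6 := Int.floor_le q
      have h7 := Int.le_ceil p
      linarith
    · rw [Int.toNat_of_nonpos hn]
      push_cast
      linarith
  linarith

/-- Natural numbers in a closed real interval. -/
theorem card_interval_nat (S : Finset ℕ) (p q : ℝ) (hpq : p ≤ q)
    (h : ∀ s ∈ S, p ≤ (s : ℝ) ∧ (s : ℝ) ≤ q) : (S.card : ℝ) ≤ q - p + 1 := by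
  have h1 : (S.image (fun s : ℕ => (s : ℤ))).card = S.card :=
    Finset.card_image_of_injective S Nat.cast_injective
  have h2 := card_interval (S.image (fun s : ℕ => (s : ℤ))) p q hpq (by
    intro s hs
    obtain ⟨n, hn, rfl⟩ := Finset.mem_image.mp hs
    have h3 := h n hn
    push_cast
    exact h3)
  rw [h1] at h2
  exact h2

/-- Number of values of `c` in terms of the number of values of `c2`. -/
theorem card_two (F : Finset ℕ) (c c2 : ℕ → ℕ) (T : ℝ)
    (h : ∀ n ∈ F, (((F.filter (fun k => c2 k = c2 n)).image c).card : ℝ) ≤ T) :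
    ((F.image c).card : ℝ) ≤ ((F.image c2).card : ℝ) * T := by
  have hsub : F.image c ⊆ (F.image c2).biUnion (fun v => (F.filter (fun k => c2 k = v)).image c) := by
    intro v hv
    obtain ⟨n, hn, rfl⟩ := Finset.mem_image.mp hv
    rw [Finset.mem_biUnion]
    exact ⟨c2 n, Finset.mem_image_of_mem c2 hn,
      Finset.mem_image.mpr ⟨n, Finset.mem_filter.mpr ⟨hn, rfl⟩, rfl⟩⟩
  have h5 : ((F.image c).card : ℝ) ≤
      ∑ v ∈ F.image c2, (((F.filter (fun k => c2 k = v)).image c).card : ℝ) := by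
    have h6 := (Finset.card_le_card hsub).trans Finset.card_biUnion_le
    exact_mod_cast h6
  have h7 : ∑ v ∈ F.image c2, (((F.filter (fun k => c2 k = v)).image c).card : ℝ) ≤
      ∑ _v ∈ F.image c2, T := by
    apply Finset.sum_le_sum
    intro v hv
    obtain ⟨n, hn, rfl⟩ := Finset.mem_image.mp hv
    exact h n hn
  rw [Finset.sum_const, nsmul_eq_mul] at h7
  exact h5.trans h7

end XF2

open XF2 in
/-- (F2) Regularity of the times in which a box is active. -/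
theorem I_F2 (hNest : StNest) (hQ4 : StQ4) (hQ5 : StQ5) : StF2 := by
  classical
  intro ι _ _ X hX l i' hl hi' hdl B y r hr
  have h := hX.toOK0
  have hQ1 : 1 ≤ X.Q := le_trans (by norm_num) h.hQ
  obtain ⟨N1, N2, _, _, _, _, _, N8⟩ := hNest ι X.K X.Q hQ1
  obtain ⟨lam, hlam1, hlam2⟩ := exists_nat_pow_near hr h.one_lt_Q
  obtain ⟨l2, hl2d⟩ : ∃ l2 : ℕ, l2 = l - (lam + 1) := ⟨_, rfl⟩
  have hl2 : l2 ≤ l := by omega
  have hlJ : l ≤ X.J := by omega
  have hl2J : l2 ≤ X.J := by omega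
  have hlam3 : l ≤ l2 + (lam + 1) := by omega
  have hQp := h.Q_pos
  have hQl : (0 : ℝ) < (X.Q : ℝ) ^ l := h.Qpow_pos l
  obtain ⟨F, hF⟩ : ∃ F : Finset ℕ, F = X.E.filter (fun n => X.box i' n = B ∧
      |X.tm l n - y| ≤ r / (X.Q : ℝ) ^ l) := ⟨_, rfl⟩
  have hFE : ∀ n ∈ F, n ∈ X.E ∧ X.box i' n = B ∧ |X.tm l n - y| ≤ r / (X.Q : ℝ) ^ l := by
    intro n hn
    rw [hF, Finset.mem_filter] at hn
    exact hn
  -- step 1
  have s1 : (((X.cA l i' B).filter (fun x => |x - y| ≤ r / (X.Q : ℝ) ^ l)).card : ℝ) ≤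
      ((F.image (fun n => X.cl l n)).card : ℝ) := by
    have hsub : (X.cA l i' B).filter (fun x => |x - y| ≤ r / (X.Q : ℝ) ^ l) ⊆
        (F.image (fun n => X.cl l n)).image (fun c : ℕ => (c : ℝ) / (X.Q : ℝ) ^ l) := by
      intro x hx
      obtain ⟨hx1, hx2⟩ := Finset.mem_filter.mp hx
      unfold RS.cA at hx1
      obtain ⟨n, hn, rfl⟩ := Finset.mem_image.mp hx1
      obtain ⟨hn1, hn2⟩ := Finset.mem_filter.mp hn
      refine Finset.mem_image.mpr ⟨X.cl l n, Finset.mem_image.mpr ⟨n, ?_, rfl⟩, rfl⟩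
      rw [hF, Finset.mem_filter]
      exact ⟨hn1, hn2, hx2⟩
    have h1 := (Finset.card_le_card hsub).trans Finset.card_image_le
    exact_mod_cast h1
  -- step 2
  have q4 := hQ4 ι X hX l i' hl hi' hdl
  have q5 := hQ5 ι X hX l2 i' hl2J hi'
  have hs0 := h.hs0
  have hs1 := h.hs1
  have s2 : ∀ n ∈ F, (((F.filter (fun k => X.cl l2 k = X.cl l2 n)).image
      (fun n => X.cl l n)).card : ℝ) ≤ (X.Q : ℝ) ^ (X.s * ((lam : ℝ) + 1) / 4 + 43) := by
    intro n hn
    obtain ⟨hn1, hn2, hn3⟩ := hFE n hn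
    obtain ⟨c1, _, c3⟩ := h.lg_cnt (fun n => (X.cl l2 n, X.box i' n))
      (fun n => (X.cl l n, X.box i' n)) (hX.regG l2 i' hl2J hi') (hX.regG l i' hlJ hi') (by
        intro a ha b hb hab
        obtain ⟨e1, e2⟩ := Prod.mk.inj hab
        have e3 : X.cl l2 a = X.cl l2 b := N1 l2 l a b hl2 (h.sub a ha).2.1 (h.sub b hb).2.1 e1
        exact Prod.ext e3 e2) n hn1
    have h1 : ((F.filter (fun k => X.cl l2 k = X.cl l2 n)).image (fun n => X.cl l n)).card ≤
        im (X.E.filter (fun k => (X.cl l2 k, X.box i' k) = (X.cl l2 n, X.box i' n)))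
          (fun n => (X.cl l n, X.box i' n)) := by
      have h2 : ((F.filter (fun k => X.cl l2 k = X.cl l2 n)).image (fun n => X.cl l n)) ⊆
          ((X.E.filter (fun k => (X.cl l2 k, X.box i' k) = (X.cl l2 n, X.box i' n))).image
          (fun n => (X.cl l n, X.box i' n))).image Prod.fst := by
        intro v hv
        obtain ⟨k, hk, rfl⟩ := Finset.mem_image.mp hv
        obtain ⟨hk1, hk2⟩ := Finset.mem_filter.mp hk
        obtain ⟨hk3, hk4, _⟩ := hFE k hk1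
        refine Finset.mem_image.mpr ⟨(X.cl l k, X.box i' k), Finset.mem_image.mpr ⟨k, ?_, rfl⟩, rfl⟩
        rw [Finset.mem_filter]
        exact ⟨hk3, Prod.ext hk2 (hk4.trans hn2.symm)⟩
      exact (Finset.card_le_card h2).trans Finset.card_image_le
    have h3 : (((F.filter (fun k => X.cl l2 k = X.cl l2 n)).image
        (fun n => X.cl l n)).card : ℝ) ≤
        (im (X.E.filter (fun k => (X.cl l2 k, X.box i' k) = (X.cl l2 n, X.box i' n)))
          (fun n => (X.cl l n, X.box i' n)) : ℝ) := by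
      exact_mod_cast h1
    refine h3.trans ?_
    have c1' : (0 : ℝ) < (im (X.E.filter (fun k =>
        (X.cl l2 k, X.box i' k) = (X.cl l2 n, X.box i' n)))
          (fun n => (X.cl l n, X.box i' n)) : ℝ) := by linarith
    apply h.le_of_lg c1' (Real.rpow_pos_of_pos hQp _)
    rw [h.lg_Qrpow]
    refine c3.trans ?_
    have e1 : X.lg (im X.E (fun n => (X.cl l n, X.box i' n))) = X.lG l i' := rfl
    have e2 : X.lg (im X.E (fun n => (X.cl l2 n, X.box i' n))) = X.lG l2 i' := rfl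
    rw [e1, e2]
    have e3 : (l : ℝ) ≤ (l2 : ℝ) + ((lam : ℝ) + 1) := by exact_mod_cast hlam3
    have e4 : X.s * (l : ℝ) ≤ X.s * ((l2 : ℝ) + ((lam : ℝ) + 1)) :=
      mul_le_mul_of_nonneg_left e3 hs0.le
    rw [mul_add] at e4
    linarith
  have s3 := card_two F (fun n => X.cl l n) (fun n => X.cl l2 n) _ s2
  -- step 3
  have s4 : ((F.image (fun n => X.cl l2 n)).card : ℝ) ≤ 4 := by
    rcases Nat.eq_zero_or_pos l2 with h0 | hpos
    · have hsub : F.image (fun n => X.cl l2 n) ⊆ {0} := by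
        intro v hv
        obtain ⟨n, hn, rfl⟩ := Finset.mem_image.mp hv
        rw [Finset.mem_singleton, h0]
        have h1 := h.sub n (hFE n hn).1
        exact N8 n h1.2.1 h1.2.2
      have h1 := Finset.card_le_card hsub
      rw [Finset.card_singleton] at h1
      have h2 : ((F.image (fun n => X.cl l2 n)).card : ℝ) ≤ 1 := by exact_mod_cast h1
      linarith
    · have hll : l - l2 = lam + 1 := by omega
      have hPl : (0 : ℝ) < (X.Q : ℝ) ^ (lam + 1) := h.Qpow_pos _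
      have h1 := card_interval_nat (F.image (fun n => X.cl l2 n))
        (y * (X.Q : ℝ) ^ l / (X.Q : ℝ) ^ (lam + 1) - 2)
        (y * (X.Q : ℝ) ^ l / (X.Q : ℝ) ^ (lam + 1) + 1) (by linarith) ?_
      · linarith
      · intro v hv
        obtain ⟨n, hn, rfl⟩ := Finset.mem_image.mp hv
        obtain ⟨hn1, hn2, hn3⟩ := hFE n hn
        have e1 : X.cl l2 n = X.cl l n / X.Q ^ (lam + 1) := by
          have := N2 l2 l n hl2 (h.sub n hn1).2.1
          rw [hll] at this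
          exact this
        have e2 : |(X.cl l n : ℝ) - y * (X.Q : ℝ) ^ l| ≤ r := by
          unfold RS.tm at hn3
          have e3 : (X.cl l n : ℝ) / (X.Q : ℝ) ^ l - y =
              ((X.cl l n : ℝ) - y * (X.Q : ℝ) ^ l) / (X.Q : ℝ) ^ l := by
            field_simp
          rw [e3, abs_div, abs_of_pos hQl, div_le_div_iff_of_pos_right hQl] at hn3
          exact hn3
        obtain ⟨e3, e4⟩ := abs_le.mp e2
        -- bounds for the quotient
        have hQn : 0 < X.Q ^ (lam + 1) := pow_pos hQ1 _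
        have f1 : (X.cl l2 n : ℝ) * (X.Q : ℝ) ^ (lam + 1) ≤ (X.cl l n : ℝ) := by
          rw [e1]
          have := Nat.div_mul_le_self (X.cl l n) (X.Q ^ (lam + 1))
          exact_mod_cast this
        have f2 : (X.cl l n : ℝ) < ((X.cl l2 n : ℝ) + 1) * (X.Q : ℝ) ^ (lam + 1) := by
          rw [e1, mul_comm]
          have := Nat.lt_mul_div_succ (X.cl l n) hQn
          exact_mod_cast this
        have e5 : y * (X.Q : ℝ) ^ l =
            y * (X.Q : ℝ) ^ l / (X.Q : ℝ) ^ (lam + 1) * (X.Q : ℝ) ^ (lam + 1) := by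
          field_simp
        show y * (X.Q : ℝ) ^ l / (X.Q : ℝ) ^ (lam + 1) - 2 ≤ (X.cl l2 n : ℝ) ∧
          (X.cl l2 n : ℝ) ≤ y * (X.Q : ℝ) ^ l / (X.Q : ℝ) ^ (lam + 1) + 1
        constructor
        · have f3 : (y * (X.Q : ℝ) ^ l / (X.Q : ℝ) ^ (lam + 1) - 2) * (X.Q : ℝ) ^ (lam + 1) ≤
              (X.cl l2 n : ℝ) * (X.Q : ℝ) ^ (lam + 1) := by
            rw [sub_mul, ← e5]
            linarith
          exact le_of_mul_le_mul_right f3 hPl
        · have f3 : (X.cl l2 n : ℝ) * (X.Q : ℝ) ^ (lam + 1) ≤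
              (y * (X.Q : ℝ) ^ l / (X.Q : ℝ) ^ (lam + 1) + 1) * (X.Q : ℝ) ^ (lam + 1) := by
            rw [add_mul, ← e5]
            linarith
          exact le_of_mul_le_mul_right f3 hPl
  -- conclusion
  have hT0 : (0 : ℝ) < (X.Q : ℝ) ^ (X.s * ((lam : ℝ) + 1) / 4 + 43) := Real.rpow_pos_of_pos hQp _
  have g1 : (((X.cA l i' B).filter (fun x => |x - y| ≤ r / (X.Q : ℝ) ^ l)).card : ℝ) ≤
      4 * (X.Q : ℝ) ^ (X.s * ((lam : ℝ) + 1) / 4 + 43) :=
    (s1.trans s3).trans (mul_le_mul_of_nonneg_right s4 hT0.le)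
  refine g1.trans ?_
  have g2 : (4 : ℝ) ≤ (X.Q : ℝ) ^ (1 : ℝ) := by
    rw [Real.rpow_one]
    linarith [h.Q_gt]
  have g3 : (X.Q : ℝ) ^ ((lam : ℝ) * (X.s / 4)) ≤ r ^ (X.s / 4) := by
    rw [Real.rpow_mul hQp.le, Real.rpow_natCast]
    exact Real.rpow_le_rpow (by positivity) hlam1 (by positivity)
  calc 4 * (X.Q : ℝ) ^ (X.s * ((lam : ℝ) + 1) / 4 + 43)
      ≤ (X.Q : ℝ) ^ (1 : ℝ) * (X.Q : ℝ) ^ (X.s * ((lam : ℝ) + 1) / 4 + 43) :=
        mul_le_mul_of_nonneg_right g2 hT0.le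
    _ = (X.Q : ℝ) ^ (44 + X.s / 4) * (X.Q : ℝ) ^ ((lam : ℝ) * (X.s / 4)) := by
        rw [← Real.rpow_add hQp, ← Real.rpow_add hQp]
        congr 1
        ring
    _ ≤ (X.Q : ℝ) ^ (45 : ℝ) * r ^ (X.s / 4) := by
        apply mul_le_mul _ g3 (Real.rpow_nonneg hQp.le _) (Real.rpow_nonneg hQp.le _)
        exact Real.rpow_le_rpow_of_exponent_le h.one_lt_Q.le (by linarith)

end Pool.Agent.Work.MP_e17eac_co.PS
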