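import Pool.Agent.Work.MP_e17eac_co.PS.S7

/-!
# Item F3: regularity of the fine boxes
-/

namespace Pool.Agent.Work.MP_e17eac_co.PS

open Finset
open Pool.Agent.Work.MP_e17eac_co.DH

namespace XF3

theorem im_split {α β : Type} [DecidableEq α] [DecidableEq β] (N : Finset ℕ) (g : ℕ → α)
    (h : ℕ → β) (C : ℝ)
    (hC : ∀ n ∈ N, (((N.filter (fun k => h k = h n)).image g).card : ℝ) ≤ C) :
    ((N.image g).card : ℝ) ≤ ((N.image h).card : ℝ) * C := by
  classical
  have hs : N.image g ⊆ (N.image h).biUnion (fun b => (N.filter (fun k => h k = b)).image g) := by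
    intro a ha
    obtain ⟨n, hn, rfl⟩ := Finset.mem_image.1 ha
    rw [Finset.mem_biUnion]
    exact ⟨h n, Finset.mem_image_of_mem h hn,
      Finset.mem_image_of_mem g (Finset.mem_filter.2 ⟨hn, rfl⟩)⟩
  have h1 : ((N.image g).card : ℝ) ≤
      ∑ b ∈ N.image h, (((N.filter (fun k => h k = b)).image g).card : ℝ) := by
    have := (Finset.card_le_card hs).trans Finset.card_biUnion_le
    exact_mod_cast this
  refine h1.trans ?_
  calc _ ≤ ∑ _b ∈ N.image h, C := by
        refine Finset.sum_le_sum fun b hb => ?_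
        obtain ⟨n, hn, rfl⟩ := Finset.mem_image.1 hb
        exact hC n hn
    _ = _ := by rw [Finset.sum_const, nsmul_eq_mul]

theorem card_four (D : Finset ℤ) (h : ∀ d ∈ D, ∀ d' ∈ D, d ≤ d' + 3) : D.card ≤ 4 := by
  rcases D.eq_empty_or_nonempty with rfl | hne
  · simp
  · have hs : D ⊆ Finset.Icc (D.min' hne) (D.min' hne + 3) := by
      intro d hd
      rw [Finset.mem_Icc]
      exact ⟨D.min'_le d hd, h d hd _ (D.min'_mem hne)⟩
    refine (Finset.card_le_card hs).trans ?_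
    rw [Int.card_Icc]
    omega

theorem fl3 {x y P m : ℝ} (hm : 1 ≤ m)
    (h : |((⌊x * (P * m)⌋ : ℤ) : ℝ) - ((⌊y * (P * m)⌋ : ℤ) : ℝ)| ≤ 2 * m) :
    ⌊x * P⌋ ≤ ⌊y * P⌋ + 3 := by
  have h1 := Int.lt_floor_add_one (x * (P * m))
  have h2 := Int.floor_le (y * (P * m))
  have h3 := (abs_le.1 h).2
  have h4 : (x * P) * m < (y * P + 3) * m := by nlinarith
  have h5 : x * P < y * P + 3 := lt_of_mul_lt_mul_right h4 (by linarith)
  have h6 := Int.floor_le (x * P)
  have h7 := Int.lt_floor_add_one (y * P)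
  have h8 : (⌊x * P⌋ : ℝ) < ⌊y * P⌋ + 4 := by linarith
  have h9 : ⌊x * P⌋ < ⌊y * P⌋ + 4 := by exact_mod_cast h8
  omega

variable {ι : Type} [Fintype ι] [DecidableEq ι]

theorem fibre (hNest : StNest) {X : RS ι} (hX : X.OK) {i0 i : ℕ} (h1 : i0 ≤ i) (hi : i ≤ X.I)
    (N : Finset ℕ) (hN : N ⊆ X.E) (n : ℕ) (hn : n ∈ N) :
    (((N.filter (fun k => X.box i0 k = X.box i0 n)).image (fun k => X.box i k)).card : ℝ) ≤
      (X.Q : ℝ) ^ (X.lB i - X.lB i0 + 1 / 50) := by
  classical
  have h0 := hX.toOK0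
  have hQ1 : 1 ≤ X.Q := by
    have := h0.one_lt_Q
    exact_mod_cast this.le
  obtain ⟨-, -, -, hN4, -, -, -, -⟩ := hNest ι X.K X.Q hQ1
  obtain ⟨h2, -, h3⟩ := h0.lg_cnt (fun k => X.box i0 k) (fun k => X.box i k)
    (hX.regB i0 (h1.trans hi)) (hX.regB i hi) (fun a _ b _ hab => hN4 i0 i _ _ h1 hab) n (hN hn)
  have h4 : (((N.filter (fun k => X.box i0 k = X.box i0 n)).image
      (fun k => X.box i k)).card : ℝ) ≤
      (im (X.E.filter (fun k => X.box i0 k = X.box i0 n)) (fun k => X.box i k) : ℝ) := by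
    have : ((N.filter (fun k => X.box i0 k = X.box i0 n)).image (fun k => X.box i k)).card ≤
        im (X.E.filter (fun k => X.box i0 k = X.box i0 n)) (fun k => X.box i k) :=
      Finset.card_le_card (Finset.image_subset_image (Finset.filter_subset_filter _ hN))
    exact_mod_cast this
  refine h4.trans ?_
  rw [← h0.rpow_lg (a := (im (X.E.filter (fun k => X.box i0 k = X.box i0 n))
    (fun k => X.box i k) : ℝ)) (by linarith)]
  exact Real.rpow_le_rpow_of_exponent_le h0.one_lt_Q.le h3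

end XF3

theorem I_F3 (hNest : StNest) : StF3 := by
  classical
  intro ι _ _ X hX f hf j' j l e hj' hj hl he hb hff B q r hr
  have h0 := hX.toOK0
  have hQ := h0.one_lt_Q
  have hi : f j' + l = f j := hl.symm
  have hfI : f j ≤ X.I := hf.le j hj
  have hr0 : (0 : ℝ) < r := by linarith
  have hlr : 0 ≤ X.lg r := h0.lg_nonneg hr
  have hs0 := h0.hs0
  have hs1 := h0.hs1
  have hRHS : (X.Q : ℝ) ^ (3 * e + 5) * r ^ (X.s / 2) =
      (X.Q : ℝ) ^ (3 * e + 5 + X.lg r * (X.s / 2)) := by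
    have e1 : r ^ (X.s / 2) = (X.Q : ℝ) ^ (X.lg r * (X.s / 2)) := by
      conv_lhs => rw [← h0.rpow_lg hr0]
      rw [← Real.rpow_mul h0.Q_pos.le]
    rw [e1, ← Real.rpow_add h0.Q_pos]
  rw [hRHS]
  set S := (X.cT l (f j') B).filter (fun p => |p.1 - q.1| ≤ r ∧ |p.2 - q.2| ≤ r) with hS
  set N := X.E.filter (fun n => X.box (f j') n = B ∧ |(X.pt l (f j') B n).1 - q.1| ≤ r ∧
    |(X.pt l (f j') B n).2 - q.2| ≤ r) with hN
  have hNE : N ⊆ X.E := Finset.filter_subset _ _
  have hSN : S.card ≤ (N.image (fun n => X.box (f j) n)).card := by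
    have : S ⊆ (N.image (fun n => X.box (f j) n)).image (fun F =>
        (-((F.1 : ℝ) - (B.1 : ℝ) * (X.Q : ℝ) ^ l), (F.2 : ℝ) - (B.2 : ℝ) * (X.Q : ℝ) ^ l)) := by
      intro p hp
      rw [hS, Finset.mem_filter] at hp
      obtain ⟨hp1, hp2⟩ := hp
      unfold RS.cT at hp1
      rw [Finset.mem_image] at hp1
      obtain ⟨n, hn, rfl⟩ := hp1
      rw [Finset.mem_filter] at hn
      rw [Finset.mem_image]
      refine ⟨X.box (f j) n, Finset.mem_image.2 ⟨n, Finset.mem_filter.2 ⟨hn.1, hn.2, hp2⟩, rfl⟩, ?_⟩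
      unfold RS.pt
      rw [hi]
    exact (Finset.card_le_card this).trans Finset.card_image_le
  have hSN' : (S.card : ℝ) ≤ ((N.image (fun n => X.box (f j) n)).card : ℝ) := by
    exact_mod_cast hSN
  refine hSN'.trans ?_
  rcases N.eq_empty_or_nonempty with hNe | ⟨n0, hn0⟩
  · rw [hNe]
    simp only [Finset.image_empty, Finset.card_empty, Nat.cast_zero]
    exact (Real.rpow_pos_of_pos h0.Q_pos _).le
  have hbj := abs_le.1 (hb j hj' le_rfl)
  rcases lt_or_ge ((X.Q : ℝ) ^ l) r with hA | hB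
  · -- case A
    have h1 := XF3.fibre hNest hX (i0 := f j') (i := f j) (by omega) hfI N hNE n0 hn0
    have h2 : N.filter (fun k => X.box (f j') k = X.box (f j') n0) = N := by
      apply Finset.filter_true_of_mem
      intro k hk
      rw [hN, Finset.mem_filter] at hk hn0
      rw [hk.2.1, hn0.2.1]
    rw [h2] at h1
    refine h1.trans (Real.rpow_le_rpow_of_exponent_le hQ.le ?_)
    have hbj' := abs_le.1 (hb j' le_rfl hj')
    have hfj := abs_le.1 (hff j' j le_rfl hj' le_rfl)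
    have h3 : (l : ℝ) ≤ X.lg r := by
      have := h0.lg_le (h0.Qpow_pos l) hA.le
      rwa [h0.lg_Qpow] at this
    have h4 : (f j : ℝ) = f j' + l := by rw [hl]; push_cast; ring
    have h5 : 2 * ((j : ℝ) - j') ≤ X.lg r + e := by linarith [hfj.1]
    have h6 : X.s * ((j : ℝ) - j') ≤ X.s / 2 * (X.lg r + e) := by nlinarith
    have h7 : X.s / 2 * e ≤ e / 2 := by nlinarith
    have h8 : X.s / 2 * (X.lg r + e) = X.lg r * (X.s / 2) + X.s / 2 * e := by ring
    nlinarith [hbj.2, hbj'.1]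
  · -- case B
    set M := (Finset.Icc j' j).filter (fun k => r ≤ (X.Q : ℝ) ^ (f j - f k)) with hM
    have hMj' : j' ∈ M := by
      rw [hM, Finset.mem_filter, Finset.mem_Icc]
      refine ⟨⟨le_rfl, hj'⟩, ?_⟩
      have : f j - f j' = l := by omega
      rw [this]
      exact hB
    have hMne : M.Nonempty := ⟨j', hMj'⟩
    set k := M.max' hMne with hk
    have hkM : k ∈ M := M.max'_mem hMne
    rw [hM, Finset.mem_filter, Finset.mem_Icc] at hkM
    obtain ⟨⟨hk1, hk2⟩, hk3⟩ := hkM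
    have hfk : f k ≤ f j := hf.mono k j hk2 hj
    have hbk := abs_le.1 (hb k hk1 hk2)
    -- at most 16 boxes of level f k
    have h16 : (N.image (fun n => X.box (f k) n)).card ≤ 16 := by
      have hP : (X.Q : ℝ) ^ (f k) * (X.Q : ℝ) ^ (f j - f k) = (X.Q : ℝ) ^ (f j) := by
        rw [← pow_add]
        congr 1
        omega
      have hm1 : (1 : ℝ) ≤ (X.Q : ℝ) ^ (f j - f k) := h0.one_le_Qpow _
      have hpt : ∀ n ∈ N, |(-(((X.box (f j) n).1 : ℝ) - (B.1 : ℝ) * (X.Q : ℝ) ^ l)) - q.1| ≤ r ∧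
          |(((X.box (f j) n).2 : ℝ) - (B.2 : ℝ) * (X.Q : ℝ) ^ l) - q.2| ≤ r := by
        intro n hn
        rw [hN, Finset.mem_filter] at hn
        have := hn.2.2
        unfold RS.pt at this
        rw [hi] at this
        exact this
      have hc1 : ((N.image (fun n => (X.box (f k) n).1))).card ≤ 4 := by
        apply XF3.card_four
        intro d hd d' hd'
        obtain ⟨n, hn, rfl⟩ := Finset.mem_image.1 hd
        obtain ⟨n', hn', rfl⟩ := Finset.mem_image.1 hd'
        show ⌊X.K.x (X.K.a n) * (X.Q : ℝ) ^ (f k)⌋ ≤ ⌊X.K.x (X.K.a n') * (X.Q : ℝ) ^ (f k)⌋ + 3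
        apply XF3.fl3 hm1
        rw [hP]
        have e1 := abs_le.1 (hpt n hn).1
        have e2 := abs_le.1 (hpt n' hn').1
        have e3 : (X.box (f j) n).1 = ⌊X.K.x (X.K.a n) * (X.Q : ℝ) ^ (f j)⌋ := rfl
        have e4 : (X.box (f j) n').1 = ⌊X.K.x (X.K.a n') * (X.Q : ℝ) ^ (f j)⌋ := rfl
        rw [← e3, ← e4, abs_le]
        constructor <;> linarith [e1.1, e1.2, e2.1, e2.2]
      have hc2 : ((N.image (fun n => (X.box (f k) n).2))).card ≤ 4 := by
        apply XF3.card_four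
        intro d hd d' hd'
        obtain ⟨n, hn, rfl⟩ := Finset.mem_image.1 hd
        obtain ⟨n', hn', rfl⟩ := Finset.mem_image.1 hd'
        show ⌊X.K.y (X.K.a n) * (X.Q : ℝ) ^ (f k)⌋ ≤ ⌊X.K.y (X.K.a n') * (X.Q : ℝ) ^ (f k)⌋ + 3
        apply XF3.fl3 hm1
        rw [hP]
        have e1 := abs_le.1 (hpt n hn).2
        have e2 := abs_le.1 (hpt n' hn').2
        have e3 : (X.box (f j) n).2 = ⌊X.K.y (X.K.a n) * (X.Q : ℝ) ^ (f j)⌋ := rfl
        have e4 : (X.box (f j) n').2 = ⌊X.K.y (X.K.a n') * (X.Q : ℝ) ^ (f j)⌋ := rfl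
        rw [← e3, ← e4, abs_le]
        constructor <;> linarith [e1.1, e1.2, e2.1, e2.2]
      have hsub : N.image (fun n => X.box (f k) n) ⊆
          (N.image (fun n => (X.box (f k) n).1)) ×ˢ (N.image (fun n => (X.box (f k) n).2)) := by
        intro b hb'
        obtain ⟨n, hn, rfl⟩ := Finset.mem_image.1 hb'
        rw [Finset.mem_product]
        exact ⟨Finset.mem_image_of_mem (fun n => (X.box (f k) n).1) hn,
          Finset.mem_image_of_mem (fun n => (X.box (f k) n).2) hn⟩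
      calc _ ≤ _ := Finset.card_le_card hsub
        _ = _ := Finset.card_product _ _
        _ ≤ 4 * 4 := Nat.mul_le_mul hc1 hc2
        _ = 16 := by norm_num
    have h1 := XF3.im_split N (fun n => X.box (f j) n) (fun n => X.box (f k) n)
      ((X.Q : ℝ) ^ (X.lB (f j) - X.lB (f k) + 1 / 50))
      (fun n hn => XF3.fibre hNest hX hfk hfI N hNE n hn)
    have h2 : ((N.image (fun n => X.box (f k) n)).card : ℝ) ≤ (X.Q : ℝ) ^ (1 / 5 : ℝ) := by
      have e1 : ((N.image (fun n => X.box (f k) n)).card : ℝ) ≤ 16 := by exact_mod_cast h16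
      have e2 := h0.lg_const (c := 16) (by norm_num) 4 (by norm_num)
      have e3 := h0.rpow_lg (a := 16) (by norm_num)
      refine e1.trans ?_
      rw [← e3]
      apply Real.rpow_le_rpow_of_exponent_le hQ.le
      refine e2.trans ?_
      norm_num
    refine h1.trans ((mul_le_mul_of_nonneg_right h2
      (Real.rpow_pos_of_pos h0.Q_pos _).le).trans ?_)
    rw [← Real.rpow_add h0.Q_pos]
    apply Real.rpow_le_rpow_of_exponent_le hQ.le
    have hlr' : 0 ≤ X.lg r * (X.s / 2) := by positivity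
    rcases eq_or_lt_of_le hk2 with hkj | hkj
    · rw [hkj]
      linarith
    · have hk4 : (X.Q : ℝ) ^ (f j - f (k + 1)) < r := by
        by_contra hcon
        push Not at hcon
        have : k + 1 ∈ M := by
          rw [hM, Finset.mem_filter, Finset.mem_Icc]
          exact ⟨⟨by omega, hkj⟩, hcon⟩
        have := M.le_max' _ this
        omega
      have hfk1 : f (k + 1) ≤ f j := hf.mono (k + 1) j hkj hj
      have hfj := abs_le.1 (hff (k + 1) j (by omega) hkj le_rfl)
      have h3 : ((f j - f (k + 1) : ℕ) : ℝ) ≤ X.lg r := by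
        have := h0.lg_le (h0.Qpow_pos _) hk4.le
        rwa [h0.lg_Qpow] at this
      rw [Nat.cast_sub hfk1] at h3
      push_cast at hfj
      have h5 : 2 * ((j : ℝ) - (k + 1)) ≤ X.lg r + e := by linarith [hfj.1]
      have h6 : X.s * ((j : ℝ) - (k + 1)) ≤ X.s / 2 * (X.lg r + e) := by nlinarith
      have h7 : X.s / 2 * e ≤ e / 2 := by nlinarith
      have h8 : X.s / 2 * (X.lg r + e) = X.lg r * (X.s / 2) + X.s / 2 * e := by ring
      nlinarith [hbj.2, hbk.1]

end Pool.Agent.Work.MP_e17eac_co.PS
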