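import Pool.Agent.Work.MP_e17eac_co.PS.S7

set_option autoImplicit false

namespace Pool.Agent.Work.MP_e17eac_co.PS

open Finset
open Pool.Agent.Work.MP_e17eac_co.DH

namespace XF4

theorem card_int (S : Finset ℤ) (c R : ℝ) (hR : 0 ≤ R) (h : ∀ m ∈ S, |(m : ℝ) - c| ≤ R) :
    (S.card : ℝ) ≤ 2 * R + 1 := by
  have hsub : S ⊆ Finset.Icc ⌈c - R⌉ ⌊c + R⌋ := by
    intro m hm
    have h1 := abs_le.1 (h m hm)
    rw [Finset.mem_Icc]
    constructor
    · rw [Int.ceil_le]; linarith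
    · rw [Int.le_floor]; linarith
  have h2 := Finset.card_le_card hsub
  rw [Int.card_Icc] at h2
  have h3 : ((⌊c + R⌋ + 1 - ⌈c - R⌉).toNat : ℝ) ≤ 2 * R + 1 := by
    have h4 : (⌊c + R⌋ : ℝ) ≤ c + R := Int.floor_le _
    have h5 : c - R ≤ (⌈c - R⌉ : ℝ) := Int.le_ceil _
    rcases le_or_gt 0 (⌊c + R⌋ + 1 - ⌈c - R⌉) with h6 | h6
    · have h7 : (((⌊c + R⌋ + 1 - ⌈c - R⌉).toNat : ℤ) : ℝ) =
          ((⌊c + R⌋ + 1 - ⌈c - R⌉ : ℤ) : ℝ) := by rw [Int.toNat_of_nonneg h6]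
      have h8 : ((⌊c + R⌋ + 1 - ⌈c - R⌉).toNat : ℝ) =
          ((⌊c + R⌋ + 1 - ⌈c - R⌉ : ℤ) : ℝ) := by exact_mod_cast h7
      rw [h8]
      push_cast
      linarith
    · rw [Int.toNat_of_nonpos h6.le]
      simp only [Nat.cast_zero]
      linarith
  have h9 : (S.card : ℝ) ≤ ((⌊c + R⌋ + 1 - ⌈c - R⌉).toNat : ℝ) := by exact_mod_cast h2
  linarith

theorem dc (S : Finset ℤ) (T : Finset (ℝ × ℝ)) (f : ℝ × ℝ → ℝ) (R q : ℝ) (hR : 0 ≤ R)
    (h : ∀ m ∈ S, q ≤ ((T.filter (fun p => |(m : ℝ) - f p| ≤ R)).card : ℝ)) :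
    (S.card : ℝ) * q ≤ (T.card : ℝ) * (2 * R + 1) := by
  have h1 : (S.card : ℝ) * q ≤
      ∑ m ∈ S, ((T.filter (fun p => |(m : ℝ) - f p| ≤ R)).card : ℝ) := by
    have := Finset.sum_le_sum h
    rw [Finset.sum_const, nsmul_eq_mul] at this
    exact this
  have h2 : ∑ m ∈ S, ((T.filter (fun p => |(m : ℝ) - f p| ≤ R)).card : ℝ) =
      ∑ p ∈ T, ((S.filter (fun m : ℤ => |(m : ℝ) - f p| ≤ R)).card : ℝ) := by
    have := Finset.sum_card_bipartiteAbove_eq_sum_card_bipartiteBelow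
      (s := S) (t := T) (fun (m : ℤ) (p : ℝ × ℝ) => |(m : ℝ) - f p| ≤ R)
    simp only [Finset.bipartiteAbove, Finset.bipartiteBelow] at this
    exact_mod_cast this
  have h3 : ∑ p ∈ T, ((S.filter (fun m : ℤ => |(m : ℝ) - f p| ≤ R)).card : ℝ) ≤
      (T.card : ℝ) * (2 * R + 1) := by
    have : ∀ p ∈ T, ((S.filter (fun m : ℤ => |(m : ℝ) - f p| ≤ R)).card : ℝ) ≤ 2 * R + 1 := by
      intro p _
      exact card_int _ (f p) R hR (fun m hm => (Finset.mem_filter.1 hm).2)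
    have := Finset.sum_le_sum this
    rw [Finset.sum_const, nsmul_eq_mul] at this
    exact this
  linarith

end XF4

theorem I_F4 (hNest : StNest) : StF4 := by
  intro ι _ _ X h j i' l κ hlj hjg hil hd hκ E2 hE2 φ hφ B x
  have h0 : X.OK0 := h.toOK0
  have hQ := h0.Q_gt
  have hQ0 := h0.Q_pos
  have hQ1 : 1 ≤ X.Q := by
    have : (1 : ℝ) ≤ X.Q := h0.one_lt_Q.le
    exact_mod_cast this
  obtain ⟨_, hN2, hN3, _, _, _, hN7, _⟩ := hNest ι X.K X.Q hQ1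
  set i := i' + l with hi
  have hQi := h0.Qpow_pos i
  have hQl := h0.Qpow_pos l
  have hQi' := h0.Qpow_pos i'
  have hQj := h0.Qpow_pos j
  -- the height of a box
  let pF : ℤ × ℤ → ℝ × ℝ := fun F =>
    (-((F.1 : ℝ) - (B.1 : ℝ) * (X.Q : ℝ) ^ l), (F.2 : ℝ) - (B.2 : ℝ) * (X.Q : ℝ) ^ l)
  let H : ℝ × ℝ → ℝ := fun p => p.2 - x * p.1
  have hpt : ∀ n, X.pt l i' B n = pF (X.box i n) := fun n => rfl
  have hpFinj : Function.Injective pF := by
    intro F F' hFF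
    simp only [pF, Prod.mk.injEq] at hFF
    obtain ⟨e1, e2⟩ := hFF
    have e3 : (F.1 : ℝ) = F'.1 := by linarith
    have e4 : (F.2 : ℝ) = F'.2 := by linarith
    exact Prod.ext (by exact_mod_cast e3) (by exact_mod_cast e4)
  set R : ℝ := 17 * (X.Q : ℝ) ^ (X.g + 2) with hRdef
  have hQg : (1 : ℝ) ≤ (X.Q : ℝ) ^ (X.g + 2) := h0.one_le_Qpow _
  have hR : 0 ≤ R := by positivity
  -- the box of a line
  have hbx : ∀ n, 0 ≤ x → x ≤ 1 →
      (((X.box i n).2 : ℝ) + (X.box i n).1 * x) ≤ (X.Q : ℝ) ^ i * X.K.ht (X.K.a n) x ∧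
      (X.Q : ℝ) ^ i * X.K.ht (X.K.a n) x ≤ (((X.box i n).2 : ℝ) + (X.box i n).1 * x) + 2 := by
    intro n hx0 hx1
    have e1 : ((X.box i n).1 : ℝ) ≤ X.K.x (X.K.a n) * (X.Q : ℝ) ^ i := Int.floor_le _
    have e2 : X.K.x (X.K.a n) * (X.Q : ℝ) ^ i < ((X.box i n).1 : ℝ) + 1 := Int.lt_floor_add_one _
    have e3 : ((X.box i n).2 : ℝ) ≤ X.K.y (X.K.a n) * (X.Q : ℝ) ^ i := Int.floor_le _
    have e4 : X.K.y (X.K.a n) * (X.Q : ℝ) ^ i < ((X.box i n).2 : ℝ) + 1 := Int.lt_floor_add_one _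
    have e5 : (X.Q : ℝ) ^ i * X.K.ht (X.K.a n) x = X.K.y (X.K.a n) * (X.Q : ℝ) ^ i +
        X.K.x (X.K.a n) * (X.Q : ℝ) ^ i * x := by unfold KSys.ht; ring
    rw [e5]
    have e6 := mul_le_mul_of_nonneg_right e1 hx0
    have e7 := mul_le_mul_of_nonneg_right e2.le hx0
    constructor
    · linarith
    · nlinarith
  -- the key estimate
  have key : ∀ n ∈ X.E, X.box i' n = B → X.tm l n = x → ∀ k ∈ X.E, X.cl j k = X.cl j n →
      X.box i' k = B → κ k = κ n →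
      |H (pF (X.box i n)) - H (pF (X.box i k))| ≤ 16 * (X.Q : ℝ) ^ (X.g + 2) + 3 := by
    intro n hn hnB hnx k hk hkc hkB hkκ
    obtain ⟨hn1, hn2, hn3⟩ := h0.sub n hn
    -- x
    have hx0 : 0 ≤ x := by rw [← hnx]; unfold RS.tm; positivity
    have hInCl : InC X.Q l (X.K.cell X.Q l n) (X.K.t n) := hN3 l n hn2
    have hx1 : x ≤ 1 := by
      rw [← hnx]; unfold RS.tm RS.cl
      linarith [hInCl.1]
    -- r
    have hcl : X.cl l n = X.cl j n / X.Q ^ (j - l) := hN2 l j n hlj hn2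
    set r : ℝ := (X.cl j n : ℝ) / (X.Q : ℝ) ^ j with hr
    have hrC : InC X.Q j (X.cl j n) r := by
      refine ⟨le_refl _, ?_⟩
      rw [hr]
      gcongr
      linarith
    have hpowpos : 0 < X.Q ^ (j - l) := Nat.pow_pos hQ1
    have hsplit : (X.Q : ℝ) ^ j = (X.Q : ℝ) ^ (j - l) * (X.Q : ℝ) ^ l := by
      rw [← pow_add]; congr 1; omega
    have hrx : |r - x| ≤ 1 / (X.Q : ℝ) ^ l := by
      have e1 : X.cl l n * X.Q ^ (j - l) ≤ X.cl j n := by
        rw [hcl]; exact Nat.div_mul_le_self _ _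
      have e2 : X.cl j n < (X.cl l n + 1) * X.Q ^ (j - l) := by
        rw [hcl]
        exact Nat.lt_mul_of_div_lt (Nat.lt_succ_self _) hpowpos
      have e1' : (X.cl l n : ℝ) * (X.Q : ℝ) ^ (j - l) ≤ X.cl j n := by exact_mod_cast e1
      have e2' : (X.cl j n : ℝ) ≤ ((X.cl l n : ℝ) + 1) * (X.Q : ℝ) ^ (j - l) := by
        exact_mod_cast e2.le
      have hxe : x = (X.cl l n : ℝ) / (X.Q : ℝ) ^ l := by rw [← hnx]; rfl
      have hq' := h0.Qpow_pos (j - l)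
      have e3 : x ≤ r := by
        rw [hxe, hr, hsplit, div_le_div_iff₀ hQl (by positivity)]
        nlinarith
      have e4 : r ≤ x + 1 / (X.Q : ℝ) ^ l := by
        rw [hxe, hr, hsplit, ← add_div, div_le_div_iff₀ (by positivity) hQl]
        nlinarith
      rw [abs_le]
      constructor
      · have : 0 ≤ 1 / (X.Q : ℝ) ^ l := by positivity
        linarith
      · linarith
    have hflat := hκ.flat n hn k hk hkc.symm hkκ.symm r hrC
    have hslope : |X.K.x (X.K.a n) - X.K.x (X.K.a k)| ≤ 1 / (X.Q : ℝ) ^ i' := by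
      have e1 : bx X.K X.Q i' (X.K.a n) = bx X.K X.Q i' (X.K.a k) := by
        have e2 : X.box i' n = X.box i' k := by rw [hnB, hkB]
        exact e2
      exact (hN7 i' (X.K.a n) (X.K.a k) 0 e1 (le_refl _) zero_le_one).2
    have hht : |X.K.ht (X.K.a n) x - X.K.ht (X.K.a k) x| ≤
        (X.Q : ℝ) ^ (X.g + 1) * X.dl j + 1 / (X.Q : ℝ) ^ i := by
      have e1 : X.K.ht (X.K.a n) x - X.K.ht (X.K.a k) x =
          (X.K.ht (X.K.a n) r - X.K.ht (X.K.a k) r) +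
          -((r - x) * (X.K.x (X.K.a n) - X.K.x (X.K.a k))) := by unfold KSys.ht; ring
      have e2 : |(r - x) * (X.K.x (X.K.a n) - X.K.x (X.K.a k))| ≤ 1 / (X.Q : ℝ) ^ i := by
        rw [abs_mul]
        have e3 : (1 : ℝ) / (X.Q : ℝ) ^ i = (1 / (X.Q : ℝ) ^ l) * (1 / (X.Q : ℝ) ^ i') := by
          rw [hi, pow_add]; field_simp
        rw [e3]
        exact mul_le_mul hrx hslope (abs_nonneg _) (by positivity)
      rw [e1]
      refine (abs_add_le _ _).trans ?_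
      rw [abs_neg]
      linarith
    have hht2 : |(X.Q : ℝ) ^ i * X.K.ht (X.K.a n) x - (X.Q : ℝ) ^ i * X.K.ht (X.K.a k) x| ≤
        16 * (X.Q : ℝ) ^ (X.g + 2) + 1 := by
      rw [← mul_sub, abs_mul, abs_of_pos hQi]
      have e1 := mul_le_mul_of_nonneg_left hht hQi.le
      have e2 : (X.Q : ℝ) ^ i * ((X.Q : ℝ) ^ (X.g + 1) * X.dl j + 1 / (X.Q : ℝ) ^ i) =
          (X.Q : ℝ) ^ (X.g + 1) * (X.dl j * (X.Q : ℝ) ^ i) + 1 := by
        field_simp
      rw [e2] at e1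
      have e3 := mul_le_mul_of_nonneg_left hd (h0.Qpow_pos (X.g + 1)).le
      have e4 : (X.Q : ℝ) ^ (X.g + 1) * (16 * (X.Q : ℝ)) = 16 * (X.Q : ℝ) ^ (X.g + 2) := by
        rw [pow_succ (X.Q : ℝ) (X.g + 1)]; ring
      rw [e4] at e3
      linarith
    obtain ⟨b1, b2⟩ := hbx n hx0 hx1
    obtain ⟨b3, b4⟩ := hbx k hx0 hx1
    have hH : H (pF (X.box i n)) - H (pF (X.box i k)) =
        (((X.box i n).2 : ℝ) + (X.box i n).1 * x) - (((X.box i k).2 : ℝ) + (X.box i k).1 * x) := by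
      simp only [H, pF]; ring
    rw [hH]
    obtain ⟨c1, c2⟩ := abs_le.1 hht2
    rw [abs_le]
    constructor <;> linarith
  -- double counting
  set S : Finset ℤ := ((X.cI E2 l i' B).filter fun z => z.2 = x).image
    fun z => ⌊z.1.2 - x * z.1.1⌋ with hS
  have hdc : ∀ m ∈ S, (X.Q : ℝ) ^ φ ≤
      (((X.cT l i' B).filter (fun p => |(m : ℝ) - H p| ≤ R)).card : ℝ) := by
    intro m hm
    rw [hS, Finset.mem_image] at hm
    obtain ⟨z, hz, rfl⟩ := hm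
    rw [Finset.mem_filter] at hz
    obtain ⟨hz1, hz2⟩ := hz
    unfold RS.cI at hz1
    rw [Finset.mem_image] at hz1
    obtain ⟨n, hn, rfl⟩ := hz1
    rw [Finset.mem_filter] at hn
    obtain ⟨hnE2, hnB⟩ := hn
    have hnE := hE2 hnE2
    simp only at hz2 ⊢
    have hmc : ((X.mates κ j i i' n).card : ℝ) ≤
        (((X.cT l i' B).filter (fun p => |((⌊(X.pt l i' B n).2 - x * (X.pt l i' B n).1⌋ : ℤ) : ℝ) -
          H p| ≤ R)).card : ℝ) := by
      have : (X.mates κ j i i' n).card ≤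
        ((X.cT l i' B).filter (fun p => |((⌊(X.pt l i' B n).2 - x * (X.pt l i' B n).1⌋ : ℤ) : ℝ) -
          H p| ≤ R)).card := by
        refine Finset.card_le_card_of_injOn pF ?_ (hpFinj.injOn)
        intro F hF
        have hF' : F ∈ X.mates κ j i i' n := hF
        unfold RS.mates at hF'
        rw [Finset.mem_image] at hF'
        obtain ⟨k, hk, rfl⟩ := hF'
        rw [Finset.mem_filter] at hk
        obtain ⟨hkE, hkc, hkb, hkκ⟩ := hk
        have hkB : X.box i' k = B := by rw [hkb, hnB]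
        refine Finset.mem_coe.2 (Finset.mem_filter.2 ⟨?_, ?_⟩)
        · unfold RS.cT
          rw [Finset.mem_image]
          exact ⟨k, Finset.mem_filter.2 ⟨hkE, hkB⟩, hpt k⟩
        · have e1 := key n hnE hnB hz2 k hkE hkc hkB hkκ
          have e2 : H (pF (X.box i n)) = (X.pt l i' B n).2 - x * (X.pt l i' B n).1 := rfl
          have e3 := Int.floor_le ((X.pt l i' B n).2 - x * (X.pt l i' B n).1)
          have e4 := Int.lt_floor_add_one ((X.pt l i' B n).2 - x * (X.pt l i' B n).1)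
          rw [e2] at e1
          obtain ⟨e5, e6⟩ := abs_le.1 e1
          have e7 : 4 ≤ (X.Q : ℝ) ^ (X.g + 2) := by
            have f1 : (X.Q : ℝ) ^ 1 ≤ (X.Q : ℝ) ^ (X.g + 2) :=
              pow_le_pow_right₀ h0.one_lt_Q.le (by omega)
            rw [pow_one] at f1
            linarith
          rw [abs_le, hRdef]
          constructor <;> linarith
      exact_mod_cast this
    refine le_trans ?_ hmc
    have hpos : (0 : ℝ) < ((X.mates κ j i i' n).card : ℝ) := by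
      have : 0 < (X.mates κ j i i' n).card := by
        refine Finset.card_pos.2 ⟨X.box i n, ?_⟩
        unfold RS.mates
        rw [Finset.mem_image]
        exact ⟨n, Finset.mem_filter.2 ⟨hnE, rfl, rfl, rfl⟩, rfl⟩
      exact_mod_cast this
    have e1 := hφ n hnE2
    have e2 : (X.Q : ℝ) ^ φ ≤ (X.Q : ℝ) ^ (X.lg ((X.mates κ j i i' n).card : ℝ)) :=
      Real.rpow_le_rpow_of_exponent_le h0.one_lt_Q.le e1
    rw [h0.rpow_lg hpos] at e2
    exact e2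
  have hfin := XF4.dc S (X.cT l i' B) H R ((X.Q : ℝ) ^ φ) hR hdc
  have hφpos : 0 < (X.Q : ℝ) ^ φ := Real.rpow_pos_of_pos hQ0 φ
  have hbig : 2 * R + 1 ≤ (X.Q : ℝ) ^ ((X.g : ℝ) + 4) := by
    have e1 : (X.Q : ℝ) ^ ((X.g : ℝ) + 4) = (X.Q : ℝ) ^ (X.g + 2) * ((X.Q : ℝ) * X.Q) := by
      have : ((X.g : ℝ) + 4) = ((X.g + 2 + 2 : ℕ) : ℝ) := by push_cast; ring
      rw [this, Real.rpow_natCast, pow_add]
      ring
    rw [e1, hRdef]
    have e5 : (1048576 : ℝ) ≤ (X.Q : ℝ) * X.Q := by nlinarith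
    have e6 := mul_le_mul_of_nonneg_left e5 (le_trans zero_le_one hQg)
    linarith
  have hsub : (X.Q : ℝ) ^ ((X.g : ℝ) + 4 - φ) = (X.Q : ℝ) ^ ((X.g : ℝ) + 4) / (X.Q : ℝ) ^ φ :=
    Real.rpow_sub hQ0 _ _
  have hTc : (0 : ℝ) ≤ ((X.cT l i' B).card : ℝ) := Nat.cast_nonneg _
  show (S.card : ℝ) ≤ ((X.cT l i' B).card : ℝ) * (X.Q : ℝ) ^ ((X.g : ℝ) + 4 - φ)
  rw [hsub, ← mul_div_assoc, le_div_iff₀ hφpos]
  exact hfin.trans (mul_le_mul_of_nonneg_left hbig hTc)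

end Pool.Agent.Work.MP_e17eac_co.PS
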