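import Pool.Agent.Work.MP_e17eac_co.PS.S7

/-!
# (F5) A box with many incidences
-/

namespace Pool.Agent.Work.MP_e17eac_co.PS

open Finset
open Pool.Agent.Work.MP_e17eac_co.DH

namespace XF5

variable {ι : Type} [Fintype ι] [DecidableEq ι]

theorem inj (X : RS ι) (h : X.OK0) (l i' : ℕ) (B : ℤ × ℤ) (n k : ℕ)
    (hnk : (X.pt l i' B n, X.tm l n) = (X.pt l i' B k, X.tm l k)) :
    (X.cl l n, X.box (i' + l) n) = (X.cl l k, X.box (i' + l) k) := by
  rw [Prod.mk.injEq] at hnk
  obtain ⟨h1, h2⟩ := hnk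
  unfold RS.pt at h1
  rw [Prod.mk.injEq] at h1
  obtain ⟨h3, h4⟩ := h1
  have hQ : (0 : ℝ) < (X.Q : ℝ) ^ l := h.Qpow_pos l
  have e1 : ((X.box (i' + l) n).1 : ℝ) = ((X.box (i' + l) k).1 : ℝ) := by linarith
  have e2 : ((X.box (i' + l) n).2 : ℝ) = ((X.box (i' + l) k).2 : ℝ) := by linarith
  have e1' : (X.box (i' + l) n).1 = (X.box (i' + l) k).1 := by exact_mod_cast e1
  have e2' : (X.box (i' + l) n).2 = (X.box (i' + l) k).2 := by exact_mod_cast e2
  unfold RS.tm at h2
  have e3 : (X.cl l n : ℝ) = (X.cl l k : ℝ) := by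
    have := congrArg (fun z => z * (X.Q : ℝ) ^ l) h2
    simpa [div_mul_cancel₀ _ hQ.ne'] using this
  have e3' : X.cl l n = X.cl l k := by exact_mod_cast e3
  rw [Prod.mk.injEq]
  exact ⟨e3', Prod.ext e1' e2'⟩

theorem fibre (X : RS ι) {α : Type} [DecidableEq α] (f : ℕ → α) (hf : RegF X.Λ X.E f)
    (P : Finset ℕ) (hP : P ⊆ X.E) :
    (P.card : ℝ) * (im X.E f : ℝ) ≤ (im P f : ℝ) * (X.Λ * X.E.card) := by
  have e : (P.card : ℝ) = ∑ a ∈ P.image f, ((P.filter (fun k => f k = a)).card : ℝ) := by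
    exact_mod_cast Finset.card_eq_sum_card_image f P
  rw [e, Finset.sum_mul]
  have h0 : (0 : ℝ) ≤ (im X.E f : ℝ) := Nat.cast_nonneg _
  have : ∀ a ∈ P.image f, ((P.filter (fun k => f k = a)).card : ℝ) * (im X.E f : ℝ) ≤
      X.Λ * X.E.card := by
    intro a ha
    obtain ⟨n, hn, rfl⟩ := Finset.mem_image.1 ha
    have h5 := (hf n (hP hn)).2
    refine le_trans ?_ h5
    have : (P.filter (fun k => f k = f n)).card ≤ (X.E.filter (fun k => f k = f n)).card :=
      Finset.card_le_card (Finset.filter_subset_filter _ hP)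
    have h6 : ((P.filter (fun k => f k = f n)).card : ℝ) ≤
      ((X.E.filter (fun k => f k = f n)).card : ℝ) := by exact_mod_cast this
    exact mul_le_mul_of_nonneg_right h6 h0
  calc _ ≤ ∑ _a ∈ P.image f, X.Λ * (X.E.card : ℝ) := Finset.sum_le_sum this
    _ = _ := by rw [Finset.sum_const, nsmul_eq_mul]; rfl

end XF5

theorem I_F5 (hNest : StNest) : StF5 := by
  classical
  intro ι _ _ X hX l i' hl hi E2 hE2 hcard
  have h : X.OK0 := hX.toOK0
  have hEpos := h.card_pos
  have hE2pos : (0 : ℝ) < E2.card := by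
    have h1 : (X.E.card : ℝ) ≤ 2 * (E2.card : ℝ) := by exact_mod_cast hcard
    linarith
  have hE2ne : E2.Nonempty := Finset.card_pos.1 (by exact_mod_cast hE2pos)
  obtain ⟨B, hB, hmax⟩ := Finset.exists_max_image (E2.image (X.box i'))
    (fun b => (E2.filter (fun n => X.box i' n = b)).card) (hE2ne.image _)
  obtain ⟨n0, hn0, hn0B⟩ := Finset.mem_image.1 hB
  set P := E2.filter (fun n => X.box i' n = B) with hPdef
  have hPE : P ⊆ X.E := (Finset.filter_subset _ _).trans hE2
  have hPne : P.Nonempty := ⟨n0, Finset.mem_filter.2 ⟨hn0, hn0B⟩⟩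
  have hB1 : (E2.card : ℝ) ≤ (im E2 (X.box i') : ℝ) * P.card := by
    have e : E2.card = ∑ a ∈ E2.image (X.box i'), (E2.filter (fun k => X.box i' k = a)).card :=
      Finset.card_eq_sum_card_image _ E2
    have e2 : E2.card ≤ im E2 (X.box i') * P.card := by
      rw [e]
      refine (Finset.sum_le_sum hmax).trans ?_
      rw [Finset.sum_const, smul_eq_mul]
      exact le_rfl
    exact_mod_cast e2
  have hB2 : (im E2 (X.box i') : ℝ) ≤ im X.E (X.box i') := by
    have : im E2 (X.box i') ≤ im X.E (X.box i') :=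
      Finset.card_le_card (Finset.image_subset_image hE2)
    exact_mod_cast this
  have hreg := hX.regG l (i' + l) hl hi
  have hfib := XF5.fibre X _ hreg P hPE
  have hcI : (im P (fun n => (X.cl l n, X.box (i' + l) n)) : ℝ) ≤ ((X.cI E2 l i' B).card : ℝ) := by
    have h1 := RS.im_le_im P (fun n => (X.cl l n, X.box (i' + l) n))
      (fun n => (X.pt l i' B n, X.tm l n))
      (fun n _ k _ hnk => XF5.inj X h l i' B n k hnk)
    have h2 : im P (fun n => (X.pt l i' B n, X.tm l n)) = (X.cI E2 l i' B).card := by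
      unfold im RS.cI
      rfl
    rw [h2] at h1
    exact_mod_cast h1
  refine ⟨B, ?_, ?_⟩
  · unfold RS.cI
    exact hPne.image _
  · set G : ℝ := (im X.E (fun n => (X.cl l n, X.box (i' + l) n)) : ℝ) with hG
    set b : ℝ := (im X.E (X.box i') : ℝ) with hb
    set c : ℝ := ((X.cI E2 l i' B).card : ℝ) with hc
    have hG1 : 1 ≤ G := h.im_pos _
    have hb1 : 1 ≤ b := h.im_pos _
    have hL := h.L_pos
    have hc0 : 0 ≤ c := Nat.cast_nonneg _
    have hcardR : (X.E.card : ℝ) ≤ 2 * (E2.card : ℝ) := by exact_mod_cast hcard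
    have hP0 : (0 : ℝ) ≤ P.card := Nat.cast_nonneg _
    -- E.card * G ≤ 2 b c Λ E.card
    have h1 : (X.E.card : ℝ) * G ≤ X.E.card * (2 * (b * (c * X.Λ))) := by
      calc (X.E.card : ℝ) * G ≤ (2 * E2.card) * G := by
            exact mul_le_mul_of_nonneg_right hcardR (by linarith)
        _ ≤ (2 * (b * P.card)) * G := by
            refine mul_le_mul_of_nonneg_right ?_ (by linarith)
            have := mul_le_mul_of_nonneg_right hB2 hP0
            linarith
        _ = 2 * b * (P.card * G) := by ring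
        _ ≤ 2 * b * ((im P (fun n => (X.cl l n, X.box (i' + l) n)) : ℝ) *
              (X.Λ * X.E.card)) := by
            refine mul_le_mul_of_nonneg_left hfib (by linarith)
        _ ≤ 2 * b * (c * (X.Λ * X.E.card)) := by
            refine mul_le_mul_of_nonneg_left ?_ (by linarith)
            exact mul_le_mul_of_nonneg_right hcI (by positivity)
        _ = _ := by ring
    have h2 : G ≤ 2 * (b * (c * X.Λ)) := le_of_mul_le_mul_left h1 hEpos
    have hcpos : 0 < c := by
      rcases hc0.lt_or_eq with hlt | heq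
      · exact hlt
      · rw [← heq] at h2
        simp at h2
        linarith
    have h3 := h.lg_le (by linarith) h2
    rw [h.lg_mul (by norm_num) (by positivity), h.lg_mul (by linarith) (by positivity),
      h.lg_mul hcpos hL] at h3
    have h4 := h.lg2_le
    have h5 := h.lgL_le
    have e1 : X.lG l (i' + l) = X.lg G := rfl
    have e2 : X.lB i' = X.lg b := rfl
    rw [e1, e2]
    linarith

end Pool.Agent.Work.MP_e17eac_co.PS
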