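import Pool.Agent.Work.MP_e17eac_co.PS.S7

/-!
# Project PS, section 7: assembly
-/

namespace Pool.Agent.Work.MP_e17eac_co.PS

open Finset
open Pool.Agent.Work.MP_e17eac_co.DH

namespace XFIN

/-- A large parameter `t`. -/
theorem exists_t (A B : ℝ) (hA : 0 < A) (g : ℕ) : ∃ t : ℕ, 1 ≤ t ∧ g ≤ 12 * t ∧
    A * Real.logb 2 ((12 * t + g : ℕ) : ℝ) + B ≤ t := by
  have hl2 : 0 < Real.log 2 := Real.log_pos (by norm_num)
  have hc : (0 : ℝ) < Real.log 2 / (48 * A) := by positivity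
  have h1 := (Real.isLittleO_log_id_atTop.def hc)
  have h2 : Filter.Tendsto (fun t : ℕ => (((12 * t + g : ℕ) : ℝ))) Filter.atTop Filter.atTop := by
    refine tendsto_natCast_atTop_atTop.comp ?_
    refine Filter.tendsto_atTop_mono (fun t => ?_) Filter.tendsto_id
    simp only [id]
    omega
  have h3 := h2.eventually h1
  have h4 : ∀ᶠ t : ℕ in Filter.atTop, 1 ≤ t ∧ g ≤ t ∧ (2 * |B| + 1 : ℝ) ≤ t := by
    refine (Filter.eventually_ge_atTop 1).and ((Filter.eventually_ge_atTop g).and ?_)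
    exact tendsto_natCast_atTop_atTop.eventually_ge_atTop (2 * |B| + 1)
  obtain ⟨t, h5, h6, h7, h8⟩ := (h3.and h4).exists
  refine ⟨t, h6, by omega, ?_⟩
  have ht1 : (1 : ℝ) ≤ t := by exact_mod_cast h6
  have hgt : (g : ℝ) ≤ t := by exact_mod_cast h7
  have hpos : (0 : ℝ) ≤ ((12 * t + g : ℕ) : ℝ) := Nat.cast_nonneg _
  simp only [id, Real.norm_eq_abs, abs_of_nonneg hpos] at h5
  have h9 : Real.log ((12 * t + g : ℕ) : ℝ) ≤ Real.log 2 / (48 * A) * ((12 * t + g : ℕ) : ℝ) :=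
    (le_abs_self _).trans h5
  have h10 : ((12 * t + g : ℕ) : ℝ) ≤ 24 * t := by push_cast; linarith
  have h11 : A * Real.logb 2 ((12 * t + g : ℕ) : ℝ) ≤ t / 2 := by
    rw [Real.logb]
    have : A * (Real.log ((12 * t + g : ℕ) : ℝ) / Real.log 2) ≤
        A * ((Real.log 2 / (48 * A) * (24 * t)) / Real.log 2) := by
      refine mul_le_mul_of_nonneg_left ?_ hA.le
      refine div_le_div_of_nonneg_right ?_ hl2.le
      exact h9.trans (mul_le_mul_of_nonneg_left h10 hc.le)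
    refine this.trans (le_of_eq ?_)
    field_simp
    norm_num
  have h12 : B ≤ |B| := le_abs_self B
  linarith

end XFIN

open XFIN in
theorem I_FIN (hEx : StEx) (hLin : StLin) (hIJ : StIJ) (hCls0 : StCls0)
    (hGapD : StGapD) (h1 : StF1) (h2 : StF2) (h3 : StF3) (h4 : StF4) (h5 : StF5)
    (hR : RING.RingMain) : StFin := by
  intro σ g hσ hσg
  obtain ⟨ε, hε, R₀, hR₀, hR⟩ := hR (σ / 4) (by positivity)
  obtain ⟨C, hC1, hLin⟩ := hLin σ hσ g
  have hC0 : 0 < C := by linarith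
  -- choice of t
  set η : ℝ := min ε 1 with hη
  have hη0 : 0 < η := lt_min hε one_pos
  obtain ⟨t, ht1, hgt, ht⟩ := exists_t (10 * C / η) ((4 * g + 70) / η) (by positivity) g
  have htR : (1 : ℝ) ≤ t := by exact_mod_cast ht1
  obtain ⟨e, he⟩ : ∃ e, e = C * Real.logb 2 ((12 * t + g : ℕ) : ℝ) := ⟨_, rfl⟩
  have hJ1 : (1 : ℝ) ≤ ((12 * t + g : ℕ) : ℝ) := by
    have : 1 ≤ 12 * t + g := by omega
    exact_mod_cast this
  have he0 : 0 ≤ e := by
    rw [he]
    exact mul_nonneg hC0.le (Real.logb_nonneg (by norm_num) hJ1)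
  have key : 10 * e + 4 * g + 70 ≤ η * t := by
    have : 10 * C / η * Real.logb 2 ((12 * t + g : ℕ) : ℝ) + (4 * g + 70) / η =
        (10 * e + 4 * g + 70) / η := by
      rw [he]; ring
    rw [this] at ht
    rw [div_le_iff₀ hη0] at ht
    linarith
  have hη1 : η ≤ 1 := min_le_right _ _
  have hηε : η ≤ ε := min_le_left _ _
  have hg0 : (0 : ℝ) ≤ g := Nat.cast_nonneg _
  have key1 : 10 * e + 4 * g + 70 ≤ t := by nlinarith
  refine ⟨12 * t + g, ⌈R₀⌉₊, by omega, by omega, ?_⟩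
  intro ι _ _ X hX hXJ hXg hXs hXQ
  have h0 := hX.toOK0
  obtain ⟨f, hf⟩ := hIJ ι X hX
  have hex := hEx ι X hX (by rw [hXJ, hXg]; omega) f hf
  rw [hXg, hXJ] at hex
  obtain ⟨L1, L2⟩ := hLin X.s (12 * t + g) X.I f X.lB X.lG hXs h0.hs1
    (by rw [← hXg]; exact h0.hsg) (by omega) (by omega) hex
  rw [← he] at L1 L2
  have h4t : e ≤ ((4 * t : ℕ) : ℝ) := by push_cast; linarith
  obtain ⟨L3, L4⟩ := L2 (4 * t) h4t (by omega)
  -- the levels
  obtain ⟨i', hi'⟩ : ∃ i', i' = f (4 * t) := ⟨_, rfl⟩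
  have hmono : f (4 * t) ≤ f (5 * t) := hf.mono _ _ (by omega) (by rw [hXJ, hXg]; omega)
  obtain ⟨l, hl⟩ : ∃ l, f (5 * t) = i' + l := ⟨f (5 * t) - f (4 * t), by omega⟩
  have hl2 : |(l : ℝ) - 2 * t| ≤ e := by
    have := L3 (4 * t) (5 * t) (by omega) (by omega) (by omega)
    rw [hl, hi'] at this
    push_cast at this
    have e1 : ((f (4 * t) : ℝ) + l - f (4 * t) - 2 * (5 * t - 4 * t)) = (l : ℝ) - 2 * t := by ring
    rwa [e1] at this
  have hlu : (l : ℝ) ≤ 2 * t + e := by have := (abs_le.1 hl2).2; linarith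
  have hll : (t : ℝ) ≤ l := by have := (abs_le.1 hl2).1; linarith
  have hl3 : l ≤ 3 * t := by
    have : (l : ℝ) ≤ ((3 * t : ℕ) : ℝ) := by push_cast; linarith
    exact_mod_cast this
  have hl1 : 1 ≤ l := by
    have : (1 : ℝ) ≤ (l : ℝ) := by linarith
    exact_mod_cast this
  have hjg : 5 * t + X.g ≤ X.J := by rw [hXJ, hXg]; omega
  have hiI : i' + l ≤ X.I := by rw [← hl]; exact hf.le _ hjg
  have hi'I : i' ≤ X.I := by omega
  -- class function
  obtain ⟨κ, hκ⟩ := hCls0 ι X h0 (5 * t) hjg ((hGapD ι X hX).1 _ hjg).1 (hX.typ _ hjg)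
  obtain ⟨E2, hE2, hE2c, hpop⟩ := h1 ι X hX (5 * t) (i' + l) i' κ (by omega) (by omega) hiI hκ.lt
  obtain ⟨B, hBne, hBc⟩ := h5 ι X hX l i' (by omega) hiI E2 hE2 hE2c
  -- numbers
  have hQ1 := h0.one_lt_Q
  have hQ0 := h0.Q_pos
  have hs0 := h0.hs0
  have hs1 := h0.hs1
  obtain ⟨R, hRdef⟩ : ∃ R : ℝ, R = (X.Q : ℝ) ^ l := ⟨_, rfl⟩
  have hRQ : R = (X.Q : ℝ) ^ (l : ℝ) := by rw [hRdef, Real.rpow_natCast]
  have hR1 : 1 ≤ R := by rw [hRdef]; exact h0.one_le_Qpow l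
  have hRpow : ∀ z : ℝ, R ^ z = (X.Q : ℝ) ^ (l * z) := by
    intro z; rw [hRQ, ← Real.rpow_mul hQ0.le]
  have hQmono : ∀ {u v : ℝ}, u ≤ v → (X.Q : ℝ) ^ u ≤ (X.Q : ℝ) ^ v := fun huv =>
    Real.rpow_le_rpow_of_exponent_le hQ1.le huv
  have hεl : 10 * e + 4 * g + 70 ≤ l * ε := by
    have : η * t ≤ ε * l := mul_le_mul hηε hll (by linarith) hε.le
    linarith
  have hXgR : (X.g : ℝ) = g := by rw [hXg]
  -- F3 for all r
  have hT := h3 ι X hX f hf (4 * t) (5 * t) l e (by omega) hjg (by rw [← hi']; exact hl) he0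
    (fun k _ hk => L1 k (by omega)) (fun k k' hk hkk hk' => L3 k k' hk hkk (by omega)) B
  rw [← hi'] at hT
  -- points of T
  have hbox : ∀ p ∈ X.cT l i' B, |p.1| ≤ R ∧ |p.2| ≤ R := by
    intro p hp
    simp only [RS.cT, mem_image, mem_filter] at hp
    obtain ⟨n, ⟨hn, hnB⟩, rfl⟩ := hp
    have aux : ∀ z : ℝ, (0 : ℝ) ≤ (⌊z * (X.Q : ℝ) ^ (i' + l)⌋ : ℝ) -
        (⌊z * (X.Q : ℝ) ^ i'⌋ : ℝ) * (X.Q : ℝ) ^ l ∧
        (⌊z * (X.Q : ℝ) ^ (i' + l)⌋ : ℝ) - (⌊z * (X.Q : ℝ) ^ i'⌋ : ℝ) * (X.Q : ℝ) ^ l ≤ R := by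
      intro z
      have hp : (X.Q : ℝ) ^ (i' + l) = (X.Q : ℝ) ^ i' * (X.Q : ℝ) ^ l := pow_add _ _ _
      have hl0 := h0.Qpow_pos l
      have a1 := Int.floor_le (z * (X.Q : ℝ) ^ i')
      have a2 := Int.lt_floor_add_one (z * (X.Q : ℝ) ^ i')
      have a3 := Int.floor_le (z * (X.Q : ℝ) ^ (i' + l))
      constructor
      · have a4 : ⌊z * (X.Q : ℝ) ^ i'⌋ * ((X.Q ^ l : ℕ) : ℤ) ≤ ⌊z * (X.Q : ℝ) ^ (i' + l)⌋ := by
          rw [Int.le_floor]
          push_cast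
          rw [hp, ← mul_assoc]
          exact mul_le_mul_of_nonneg_right a1 hl0.le
        have a5 : ((⌊z * (X.Q : ℝ) ^ i'⌋ * ((X.Q ^ l : ℕ) : ℤ) : ℤ) : ℝ) ≤
            (⌊z * (X.Q : ℝ) ^ (i' + l)⌋ : ℝ) := by exact_mod_cast a4
        push_cast at a5
        linarith
      · rw [hRdef]
        rw [hp, ← mul_assoc] at a3
        have := mul_lt_mul_of_pos_right a2 hl0
        have e2 : z * (X.Q : ℝ) ^ (i' + l) = z * (X.Q : ℝ) ^ i' * (X.Q : ℝ) ^ l := by
          rw [hp, mul_assoc]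
        rw [e2]
        linarith
    have hB1 : (B.1 : ℝ) = (⌊X.K.x (X.K.a n) * (X.Q : ℝ) ^ i'⌋ : ℝ) := by
      rw [← hnB]; rfl
    have hB2 : (B.2 : ℝ) = (⌊X.K.y (X.K.a n) * (X.Q : ℝ) ^ i'⌋ : ℝ) := by
      rw [← hnB]; rfl
    obtain ⟨u1, u2⟩ := aux (X.K.x (X.K.a n))
    obtain ⟨v1, v2⟩ := aux (X.K.y (X.K.a n))
    constructor
    · simp only [RS.pt, abs_neg]
      rw [hB1]
      exact abs_le.2 ⟨le_trans (by linarith) u1, u2⟩
    · simp only [RS.pt]
      rw [hB2]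
      exact abs_le.2 ⟨le_trans (by linarith) v1, v2⟩
  have hTc : ((X.cT l i' B).card : ℝ) ≤ (X.Q : ℝ) ^ (3 * e + 5) * R ^ (X.s / 2) := by
    have := hT (0, 0) R hR1
    rw [Finset.filter_true_of_mem] at this
    · exact this
    · intro p hp
      simpa using hbox p hp
  have hφ : X.s * t / 2 - e - 2 * g - 1 ≤
      X.lG (5 * t) (i' + l) - X.lG (5 * t) i' - 2 * X.g - 1 := by
    have := L4 (5 * t) (by omega) (by omega)
    rw [hl, ← hi'] at this
    push_cast at this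
    rw [hXgR]
    have e3 : X.s * (5 * (t : ℝ) - 4 * t) / 2 = X.s * t / 2 := by ring
    rw [e3] at this
    linarith
  refine hR (X.s / 4) R (by linarith) (by linarith) ?_ (X.cA l i' B) (X.cT l i' B)
    (X.cI E2 l i' B) ?_
  · -- R₀ ≤ R
    have a1 : R₀ ≤ X.Q := (Nat.le_ceil R₀).trans (by exact_mod_cast hXQ)
    refine a1.trans ?_
    rw [hRdef]
    calc (X.Q : ℝ) = (X.Q : ℝ) ^ 1 := (pow_one _).symm
      _ ≤ (X.Q : ℝ) ^ l := pow_le_pow_right₀ hQ1.le hl1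
  · constructor
    · -- slope
      intro x hx
      simp only [RS.cA, mem_image, mem_filter] at hx
      obtain ⟨n, ⟨hn, _⟩, rfl⟩ := hx
      obtain ⟨_, hn1, hn2⟩ := h0.sub n hn
      have hl0 := h0.Qpow_pos l
      constructor
      · simp only [RS.tm]; positivity
      · simp only [RS.tm, RS.cl, KSys.cell]
        rw [div_le_one hl0]
        refine (Nat.floor_le (by positivity)).trans ?_
        have := mul_le_mul_of_nonneg_right hn2.le hl0.le
        linarith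
    · exact hbox
    · -- sub
      intro z hz
      simp only [RS.cI, mem_image, mem_filter] at hz
      obtain ⟨n, ⟨hn, hnB⟩, rfl⟩ := hz
      rw [mem_product]
      exact ⟨mem_image.2 ⟨n, mem_filter.2 ⟨hE2 hn, hnB⟩, rfl⟩,
        mem_image.2 ⟨n, mem_filter.2 ⟨hE2 hn, hnB⟩, rfl⟩⟩
    · -- regA
      intro y r hr
      have hdl : 8 ≤ X.dl l * (X.Q : ℝ) ^ i' := by
        have hlg : l + X.g ≤ X.J := by omega
        have b1 := hf.lo l hlg
        have b2 : f l ≤ i' := by rw [hi']; exact hf.mono _ _ (by omega) (by omega)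
        have b3 : (X.Q : ℝ) ^ f l ≤ (X.Q : ℝ) ^ i' := pow_le_pow_right₀ hQ1.le b2
        have b4 := ((hGapD ι X hX).1 l hlg).1
        exact b1.trans (mul_le_mul_of_nonneg_left b3 b4.le)
      have := h2 ι X hX l i' (by omega) hi'I hdl B y r hr
      rw [hRdef]
      refine this.trans (mul_le_mul_of_nonneg_right ?_ (by positivity))
      rw [← hRdef, hRpow]
      exact hQmono (by linarith)
    · -- regT
      intro q r hr
      have := hT q r hr
      have e4 : 2 * (X.s / 4) = X.s / 2 := by ring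
      rw [e4]
      refine this.trans (mul_le_mul_of_nonneg_right ?_ (by positivity))
      rw [hRpow]
      exact hQmono (by linarith)
    · -- cls
      intro x _
      have h16 : X.dl (5 * t) * (X.Q : ℝ) ^ (i' + l) ≤ 16 * X.Q := by
        rw [← hl]; exact hf.hi _ hjg
      have := h4 ι X hX (5 * t) i' l κ (by omega) hjg hiI h16 hκ E2 hE2 _
        (fun n hn => hφ.trans (hpop n hn)) B x
      refine this.trans ?_
      have c1 : ((X.cT l i' B).card : ℝ) * (X.Q : ℝ) ^ ((X.g : ℝ) + 4 - (X.s * t / 2 - e - 2 * g - 1))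
          ≤ (X.Q : ℝ) ^ (3 * e + 5) * R ^ (X.s / 2) *
            (X.Q : ℝ) ^ ((X.g : ℝ) + 4 - (X.s * t / 2 - e - 2 * g - 1)) :=
        mul_le_mul_of_nonneg_right hTc (by positivity)
      refine c1.trans ?_
      rw [hRpow, hRpow, hRpow, ← Real.rpow_add hQ0, ← Real.rpow_add hQ0, ← Real.rpow_add hQ0]
      apply hQmono
      rw [hXgR]
      have c2 : X.s * (l : ℝ) ≤ X.s * (2 * t + e) := mul_le_mul_of_nonneg_left hlu hs0.le
      have c3 : X.s * e ≤ e := by nlinarith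
      nlinarith
    · -- inc
      have hne : (1 : ℝ) ≤ ((X.cI E2 l i' B).card : ℝ) := by
        have : 0 < (X.cI E2 l i' B).card := Finset.card_pos.2 hBne
        exact_mod_cast this
      have d1 := hex.q5 l (i' + l) (by omega) hiI
      have d2 := abs_le.1 (L1 (5 * t) (by omega))
      have d3 := abs_le.1 (L1 (4 * t) (by omega))
      rw [hl] at d2
      rw [← hi'] at d3
      push_cast at d2 d3
      have d4 : 3 * (X.s * l / 4) - l * ε ≤ X.lg ((X.cI E2 l i' B).card : ℝ) := by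
        have c2 : X.s * (l : ℝ) ≤ X.s * (2 * t + e) := mul_le_mul_of_nonneg_left hlu hs0.le
        have c3 : X.s * e ≤ e := by nlinarith
        nlinarith [d2.1, d3.2, d1, hBc]
      have d5 : (X.Q : ℝ) ^ (3 * (X.s * l / 4) - l * ε) ≤ ((X.cI E2 l i' B).card : ℝ) := by
        have := hQmono d4
        rwa [h0.rpow_lg (by linarith)] at this
      have d6 : R ^ (3 * (X.s / 4)) = R ^ ε * (X.Q : ℝ) ^ (3 * (X.s * l / 4) - l * ε) := by
        rw [hRpow, hRpow, ← Real.rpow_add hQ0]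
        congr 1
        ring
      rw [d6]
      exact mul_le_mul_of_nonneg_left d5 (by positivity)

end Pool.Agent.Work.MP_e17eac_co.PS
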