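import Pool.Agent.Work.MP_e17eac_co.PS.Spr
import Pool.Agent.Work.MP_e17eac_co.Bd.B08

/-!
# Item Fam: the family of windows
-/

namespace Pool.Agent.Work.MP_e17eac_co.PS

open Finset
open Pool.Agent.Work.MP_e17eac_co.DH

namespace XFam

/-- The numbers of the construction. -/
structure Num (n N0 U M Tn T s τ : ℕ) : Prop where
  U4 : 4 ≤ U
  MU : M * U ≤ N0
  MU' : (N0 : ℝ) / 2 ≤ M * U
  Mr : (M : ℝ) ≤ (n : ℝ) ^ ((1 : ℝ) / 2)
  T1 : 1 ≤ T
  TT : T ≤ Tn
  thin : (Tn + 1) * s * 2 ≤ M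
  big : 8 * ((n : ℝ) + (s : ℝ) ^ 2) < (s : ℝ) * (U : ℝ) ^ ((3 : ℝ) / 4)
  TM : 12 * T ≤ M
  t1 : 1 ≤ τ
  t2 : T ≤ 24 * τ
  t3 : 24 * τ ≤ T + 23
  Tr : (n : ℝ) ^ ((1 : ℝ) / 32) ≤ 2 * T

theorem num (n N0 : ℕ) (c : ℝ) (hc' : c ≤ 1 / 1000)
    (hn : (1000 : ℝ) ≤ (n : ℝ) ^ ((1 : ℝ) / 100))
    (hN : (n : ℝ) ^ ((4 : ℝ) / 3 - c) ≤ (N0 : ℝ)) :
    ∃ U M Tn T s τ : ℕ, Num n N0 U M Tn T s τ := by
  have hx0 : (0 : ℝ) ≤ (n : ℝ) := Nat.cast_nonneg n
  set x : ℝ := (n : ℝ) with hx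
  have hx1 : 1 ≤ x := by
    by_contra hcon
    push Not at hcon
    have := Real.rpow_le_one hx0 hcon.le (by norm_num : (0 : ℝ) ≤ 1 / 100)
    linarith
  have hxp : 0 < x := by linarith
  have mono : ∀ a : ℝ, 1 / 100 ≤ a → (1000 : ℝ) ≤ x ^ a := fun a ha =>
    hn.trans (Real.rpow_le_rpow_of_exponent_le hx1 ha)
  set r : ℝ := x ^ ((1 : ℝ) / 2) with hr
  have hr1 : 1000 ≤ r := mono _ (by norm_num)
  have hrp : 0 < r := by linarith
  set y : ℝ := (N0 : ℝ) / r with hy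
  have hy1 : x ^ ((5 : ℝ) / 6 - c) ≤ y := by
    rw [hy, le_div_iff₀ hrp, hr, ← Real.rpow_add hxp]
    refine le_trans (le_of_eq ?_) hN
    congr 1
    ring
  have hy2 : 1000 ≤ y := (mono _ (by linarith)).trans hy1
  have hyr : (N0 : ℝ) = y * r := by rw [hy, div_mul_cancel₀ _ hrp.ne']
  set U : ℕ := ⌈y⌉₊ with hU
  have U1 : y ≤ U := Nat.le_ceil y
  have U2 : (U : ℝ) < y + 1 := Nat.ceil_lt_add_one (by linarith)
  have U4 : 4 ≤ U := by
    have : (4 : ℝ) ≤ U := by linarith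
    exact_mod_cast this
  set M : ℕ := N0 / U with hM
  have M1 : M * U ≤ N0 := Nat.div_mul_le_self N0 U
  have M2 : N0 < (M + 1) * U := by
    have h0 := Nat.lt_mul_div_succ N0 (b := U) (by omega)
    calc N0 < U * (N0 / U + 1) := h0
      _ = (M + 1) * U := by rw [hM]; ring
  have M1r : (M : ℝ) * U ≤ N0 := by exact_mod_cast M1
  have M2r : (N0 : ℝ) < (M + 1) * U := by exact_mod_cast M2
  have hUp : (0 : ℝ) < U := by linarith
  have Mr : (M : ℝ) ≤ r := by
    have : (M : ℝ) * U ≤ r * U := by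
      calc (M : ℝ) * U ≤ N0 := M1r
        _ = y * r := hyr
        _ ≤ U * r := mul_le_mul_of_nonneg_right U1 hrp.le
        _ = r * U := mul_comm _ _
    exact le_of_mul_le_mul_right this hUp
  have Mr3 : r / 3 ≤ M := by
    have h1 : y * r < (M + 1) * (2 * y) := by
      rw [hyr] at M2r
      have : ((M : ℝ) + 1) * U ≤ (M + 1) * (2 * y) :=
        mul_le_mul_of_nonneg_left (by linarith) (by positivity)
      linarith
    have h2 : y * r < y * (2 * (M + 1)) := by linarith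
    have h3 := lt_of_mul_lt_mul_left h2 (by linarith)
    linarith
  set a : ℝ := x ^ ((1 : ℝ) / 16) with ha
  set b : ℝ := x ^ ((7 : ℝ) / 16) with hb
  set d : ℝ := x ^ ((1 : ℝ) / 32) with hd
  have a1 : 1000 ≤ a := mono _ (by norm_num)
  have b1 : 1000 ≤ b := mono _ (by norm_num)
  have d1 : 1000 ≤ d := mono _ (by norm_num)
  have da : d ≤ a := Real.rpow_le_rpow_of_exponent_le hx1 (by norm_num)
  have ab : a * b = r := by
    rw [ha, hb, hr, ← Real.rpow_add hxp]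
    norm_num
  set Tn : ℕ := ⌈a⌉₊ with hTn
  have Tn1 : a ≤ Tn := Nat.le_ceil a
  have Tn2 : (Tn : ℝ) < a + 1 := Nat.ceil_lt_add_one (by linarith)
  set s : ℕ := ⌊b / 16⌋₊ with hs
  have s1 : (s : ℝ) ≤ b / 16 := Nat.floor_le (by linarith)
  have s2 : b / 16 < s + 1 := Nat.lt_floor_add_one _
  have s3 : b / 32 ≤ s := by linarith
  set T : ℕ := ⌊d⌋₊ with hT
  have T1 : (T : ℝ) ≤ d := Nat.floor_le (by linarith)
  have T2 : d < T + 1 := Nat.lt_floor_add_one _
  have T3 : 1 ≤ T := by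
    have : (0 : ℝ) < T := by linarith
    exact_mod_cast this
  refine ⟨U, M, Tn, T, s, (T + 23) / 24, ?_⟩
  refine ⟨U4, M1, ?_, Mr, T3, ?_, ?_, ?_, ?_, by omega, by omega, by omega, by linarith⟩
  · have h1 : (U : ℝ) * 2 ≤ N0 := by
      have h4 : y * 4 ≤ y * r := mul_le_mul_of_nonneg_left (by linarith) (by linarith)
      linarith
    linarith
  · have : (T : ℝ) ≤ Tn := by linarith
    exact_mod_cast this
  · have h1 : ((Tn : ℝ) + 1) * s * 2 ≤ M := by
      have h2 : ((Tn : ℝ) + 1) * s ≤ (2 * a) * (b / 16) :=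
        mul_le_mul (by linarith) s1 (Nat.cast_nonneg _) (by linarith)
      have h3 : (2 * a) * (b / 16) = r / 8 := by rw [← ab]; ring
      linarith
    exact_mod_cast h1
  · have h1 : (s : ℝ) ^ 2 ≤ x := by
      have h2 : b * b ≤ x := by
        rw [hb, ← Real.rpow_add hxp]
        calc x ^ ((7 : ℝ) / 16 + 7 / 16) ≤ x ^ (1 : ℝ) :=
              Real.rpow_le_rpow_of_exponent_le hx1 (by norm_num)
          _ = x := Real.rpow_one x
      have h0 : (0 : ℝ) ≤ s := Nat.cast_nonneg _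
      calc (s : ℝ) ^ 2 ≤ b ^ 2 := pow_le_pow_left₀ h0 (by linarith) 2
        _ = b * b := sq b
        _ ≤ x := h2
    have h2 : x ^ (((5 : ℝ) / 6 - c) * (3 / 4)) ≤ (U : ℝ) ^ ((3 : ℝ) / 4) := by
      rw [Real.rpow_mul hx0]
      exact Real.rpow_le_rpow (Real.rpow_nonneg hx0 _) (hy1.trans U1) (by norm_num)
    have h3 : 1000 * x ≤ b * x ^ (((5 : ℝ) / 6 - c) * (3 / 4)) := by
      rw [hb, ← Real.rpow_add hxp]
      have h4 : (7 : ℝ) / 16 + (5 / 6 - c) * (3 / 4) = (1 / 16 - 3 / 4 * c) + 1 := by ring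
      rw [h4, Real.rpow_add hxp, Real.rpow_one]
      exact mul_le_mul_of_nonneg_right (mono _ (by linarith)) hx0
    have h5 : b / 32 * x ^ (((5 : ℝ) / 6 - c) * (3 / 4)) ≤ (s : ℝ) * (U : ℝ) ^ ((3 : ℝ) / 4) :=
      mul_le_mul s3 h2 (Real.rpow_nonneg hx0 _) (Nat.cast_nonneg _)
    linarith
  · have h1 : 1000 * d ≤ r := by
      have h2 : r = x ^ ((15 : ℝ) / 32) * d := by
        rw [hr, hd, ← Real.rpow_add hxp]
        norm_num
      rw [h2]
      exact mul_le_mul_of_nonneg_right (mono _ (by norm_num)) (by linarith)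
    have h3 : (12 : ℝ) * T ≤ M := by linarith
    exact_mod_cast h3

/-- Counting typed super-blocks. -/
theorem typed {M Tn T s τ : ℕ} (h1 : 1 ≤ T) (hTM : 12 * T ≤ M) (t3 : 24 * τ ≤ T + 23)
    (ht1 : 1 ≤ τ) (Th : Finset ℕ) (hTh : Th ⊆ range M) (hbig : M < 2 * Th.card)
    (Ty : Finset ℕ) (hTy : ∀ h ∈ range (M / T), h ∉ Ty →
      (Th.filter (fun i => i / T = h)).card ≤ 2 * (τ - 1)) :
    M / T < 3 * (Ty ∩ range (M / T)).card := by
  classical
  have _ := s
  have _ := Tn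
  have hM1 : M / T * T ≤ M := Nat.div_mul_le_self M T
  have hM2 : M < (M / T + 1) * T := by
    have := Nat.lt_mul_div_succ M (b := T) (by omega)
    calc M < T * (M / T + 1) := this
      _ = (M / T + 1) * T := by ring
  -- blocks in super-blocks
  have hsplit : Th.card ≤ (Th.filter (fun i => i / T < M / T)).card + T := by
    have e : Th = Th.filter (fun i => i / T < M / T) ∪ Th.filter (fun i => ¬ i / T < M / T) :=
      (filter_union_filter_not_eq _ Th).symm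
    have e2 : (Th.filter (fun i => ¬ i / T < M / T)).card ≤ T := by
      have : Th.filter (fun i => ¬ i / T < M / T) ⊆ Ico (M / T * T) ((M / T + 1) * T) := by
        intro i hi
        rw [mem_filter] at hi
        have h3 := mem_range.1 (hTh hi.1)
        rw [mem_Ico]
        refine ⟨?_, by omega⟩
        have h4 := not_lt.1 hi.2
        calc M / T * T ≤ i / T * T := Nat.mul_le_mul_right _ h4
          _ ≤ i := Nat.div_mul_le_self i T
      refine (card_le_card this).trans ?_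
      rw [Nat.card_Ico, Nat.add_mul, one_mul]
      omega
    calc Th.card ≤ (Th.filter (fun i => i / T < M / T)).card +
          (Th.filter (fun i => ¬ i / T < M / T)).card := by
            conv_lhs => rw [e]
            exact card_union_le _ _
      _ ≤ _ := by omega
  have hsum : (Th.filter (fun i => i / T < M / T)).card =
      ∑ h ∈ range (M / T), (Th.filter (fun i => i / T = h)).card := by
    rw [card_eq_sum_card_fiberwise (f := fun i => i / T) (t := range (M / T))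
      (fun i hi => by
        have := (mem_filter.1 (mem_coe.1 hi)).2
        exact mem_coe.2 (mem_range.2 this))]
    refine sum_congr rfl fun h hh => ?_
    congr 1
    ext i
    simp only [mem_filter]
    constructor
    · rintro ⟨⟨a, _⟩, b⟩
      exact ⟨a, b⟩
    · rintro ⟨a, b⟩
      exact ⟨⟨a, by rw [b]; exact mem_range.1 hh⟩, b⟩
  have hle : ∀ h ∈ range (M / T), (Th.filter (fun i => i / T = h)).card ≤
      (if h ∈ Ty then T else 0) + 2 * (τ - 1) := by
    intro h hh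
    by_cases hT : h ∈ Ty
    · rw [if_pos hT]
      have : Th.filter (fun i => i / T = h) ⊆ Ico (h * T) ((h + 1) * T) := by
        intro i hi
        have h3 := (mem_filter.1 hi).2
        rw [mem_Ico, ← h3]
        refine ⟨Nat.div_mul_le_self i T, ?_⟩
        have := Nat.lt_mul_div_succ i (b := T) (by omega)
        calc i < T * (i / T + 1) := this
          _ = (i / T + 1) * T := by ring
      have h4 := card_le_card this
      rw [Nat.card_Ico, Nat.add_mul, one_mul] at h4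
      omega
    · rw [if_neg hT, zero_add]
      exact hTy h hh hT
  have hsum2 := sum_le_sum hle
  rw [← hsum, sum_add_distrib, ← sum_filter, sum_const, smul_eq_mul, sum_const, smul_eq_mul,
    card_range] at hsum2
  have e3 : (range (M / T)).filter (fun h => h ∈ Ty) = Ty ∩ range (M / T) := by
    ext h
    simp only [mem_filter, mem_inter]
    tauto
  rw [e3] at hsum2
  set P := (Ty ∩ range (M / T)).card
  set M' := M / T
  -- 24 (τ - 1) ≤ T
  have h5 : M' * (2 * (τ - 1)) * 12 ≤ M' * T := by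
    have : 2 * (τ - 1) * 12 ≤ T := by omega
    calc M' * (2 * (τ - 1)) * 12 = M' * (2 * (τ - 1) * 12) := by ring
      _ ≤ M' * T := Nat.mul_le_mul_left _ this
  have h6 : M < 3 * (P * T) := by omega
  have h7 : M' * T < 3 * P * T := by
    calc M' * T ≤ M := hM1
      _ < 3 * (P * T) := h6
      _ = 3 * P * T := by ring
  exact lt_of_mul_lt_mul_right h7 (Nat.zero_le T)

/-- Lower bounds for the number of edges in a window. -/
theorem window {n N0 U M Tn T s τ M' : ℕ} (hN : Num n N0 U M Tn T s τ) (hM' : M' = M / T)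
    {c κ C : ℝ} {B : ℕ} (hc : 0 < c) (hC : 0 < C) (hκ : κ = 320 * ((B : ℝ) + 2) * C)
    (hn1 : (1 : ℝ) ≤ n) (hK : 10 * (96 * κ) ^ 4 ≤ (n : ℝ) ^ c)
    (hN0 : (n : ℝ) ^ ((4 : ℝ) / 3 - c) ≤ (N0 : ℝ)) {e V p : ℝ} (he : 0 ≤ e)
    (h1 : ((τ * U : ℕ) : ℝ) ≤ 2 + 16 * ((B : ℝ) + 2) * V * e ^ ((1 : ℝ) / 4))
    (h2 : V * (M' : ℝ) ^ ((3 : ℝ) / 4) ≤ 10 * C * n) (hp : (M' : ℝ) / 10 ≤ p) :
    (n : ℝ) ^ ((4 : ℝ) / 3 - 5 * c) ≤ p * e ∧
      2 * (U : ℝ) * (n : ℝ) ^ ((1 : ℝ) / 32 - 5 * c) ≤ e := by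
  have hxp : (0 : ℝ) < n := by linarith
  have hB : (0 : ℝ) ≤ B := Nat.cast_nonneg B
  have hκp : 0 < κ := by rw [hκ]; positivity
  have hU0 : (4 : ℝ) ≤ U := by exact_mod_cast hN.U4
  have hτ0 : (1 : ℝ) ≤ τ := by exact_mod_cast hN.t1
  have hT0 : (1 : ℝ) ≤ T := by exact_mod_cast hN.T1
  have hM0 : (0 : ℝ) ≤ M' := Nat.cast_nonneg _
  have he4 : 0 ≤ e ^ ((1 : ℝ) / 4) := Real.rpow_nonneg he _
  have hM4 : 0 ≤ (M' : ℝ) ^ ((3 : ℝ) / 4) := Real.rpow_nonneg hM0 _
  have hprod : (4 : ℝ) ≤ (τ : ℝ) * U := by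
    calc (4 : ℝ) ≤ U := hU0
      _ = 1 * U := (one_mul _).symm
      _ ≤ τ * U := mul_le_mul_of_nonneg_right hτ0 (by linarith)
  push_cast at h1
  have h3 : (τ : ℝ) * U ≤ 32 * ((B : ℝ) + 2) * V * e ^ ((1 : ℝ) / 4) := by linarith
  have h4 : (τ : ℝ) * U * (M' : ℝ) ^ ((3 : ℝ) / 4) ≤ κ * n * e ^ ((1 : ℝ) / 4) := by
    calc (τ : ℝ) * U * (M' : ℝ) ^ ((3 : ℝ) / 4) ≤
        32 * ((B : ℝ) + 2) * V * e ^ ((1 : ℝ) / 4) * (M' : ℝ) ^ ((3 : ℝ) / 4) :=
          mul_le_mul_of_nonneg_right h3 hM4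
      _ = 32 * ((B : ℝ) + 2) * e ^ ((1 : ℝ) / 4) * (V * (M' : ℝ) ^ ((3 : ℝ) / 4)) := by ring
      _ ≤ 32 * ((B : ℝ) + 2) * e ^ ((1 : ℝ) / 4) * (10 * C * n) :=
          mul_le_mul_of_nonneg_left h2 (by positivity)
      _ = _ := by rw [hκ]; ring
  have h5 : ((τ : ℝ) * U) ^ 4 * (M' : ℝ) ^ 3 ≤ (κ * n) ^ 4 * e := by
    have h6 := pow_le_pow_left₀ (by positivity) h4 4
    have e1 : (e ^ ((1 : ℝ) / 4)) ^ 4 = e := by
      rw [← Real.rpow_natCast, ← Real.rpow_mul he]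
      norm_num
    have e2 : ((M' : ℝ) ^ ((3 : ℝ) / 4)) ^ 4 = (M' : ℝ) ^ 3 := by
      rw [← Real.rpow_natCast, ← Real.rpow_mul hM0, ← Real.rpow_natCast]
      norm_num
    rw [mul_pow, mul_pow (κ * (n : ℝ)), e1, e2] at h6
    exact h6
  -- the product of the three numbers
  have h7 : (N0 : ℝ) / 96 ≤ τ * U * M' := by
    have a1 : (T : ℝ) ≤ 24 * τ := by exact_mod_cast hN.t2
    have a2 : (M : ℝ) / 2 ≤ M' * T := by
      have b1 : M < (M' + 1) * T := by
        rw [hM']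
        have := Nat.lt_mul_div_succ M (b := T) (by have := hN.T1; omega)
        calc M < T * (M / T + 1) := this
          _ = (M / T + 1) * T := by ring
      have b2 : (M : ℝ) < (M' + 1) * T := by exact_mod_cast b1
      have b3 : (12 : ℝ) * T ≤ M := by exact_mod_cast hN.TM
      linarith
    have a3 := hN.MU'
    have a4 : (T : ℝ) * M' * U ≤ 24 * τ * M' * U :=
      mul_le_mul_of_nonneg_right (mul_le_mul_of_nonneg_right a1 hM0) (by linarith)
    have a5 : (M : ℝ) / 2 * U ≤ M' * T * U := mul_le_mul_of_nonneg_right a2 (by linarith)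
    linarith
  have hN0p : (0 : ℝ) ≤ (N0 : ℝ) := Nat.cast_nonneg _
  set Y : ℝ := (n : ℝ) ^ ((4 : ℝ) / 3 - c) with hY
  have hYp : 0 < Y := Real.rpow_pos_of_pos hxp _
  have h8 : Y ≤ 96 * (τ * U * M') := by linarith
  have hc1 : (1 : ℝ) ≤ (n : ℝ) ^ c := Real.one_le_rpow hn1 hc.le
  constructor
  · -- first inequality
    have g1 : Y ^ 4 ≤ 96 ^ 4 * (κ * n) ^ 4 * (e * M') := by
      calc Y ^ 4 ≤ (96 * (τ * U * M')) ^ 4 := pow_le_pow_left₀ hYp.le h8 4
        _ = 96 ^ 4 * (((τ : ℝ) * U) ^ 4 * (M' : ℝ) ^ 3) * M' := by ring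
        _ ≤ 96 ^ 4 * ((κ * n) ^ 4 * e) * M' := by gcongr
        _ = _ := by ring
    have g2 : e * M' ≤ 10 * (p * e) := by
      have : e * M' ≤ e * (10 * p) := mul_le_mul_of_nonneg_left (by linarith) he
      linarith
    have g3 : Y ^ 4 = (n : ℝ) ^ ((4 : ℝ) / 3 - 5 * c) * (n : ℝ) ^ 4 * (n : ℝ) ^ c := by
      rw [hY, ← Real.rpow_natCast, ← Real.rpow_mul hxp.le, ← Real.rpow_natCast (n : ℝ) 4,
        ← Real.rpow_add hxp, ← Real.rpow_add hxp]
      congr 1
      push_cast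
      ring
    set Z := (n : ℝ) ^ ((4 : ℝ) / 3 - 5 * c) with hZ
    have hZp : 0 < Z := Real.rpow_pos_of_pos hxp _
    have g4 : Z * (n : ℝ) ^ 4 * (10 * (96 * κ) ^ 4) ≤ 96 ^ 4 * (κ * n) ^ 4 * (10 * (p * e)) := by
      calc Z * (n : ℝ) ^ 4 * (10 * (96 * κ) ^ 4) ≤ Z * (n : ℝ) ^ 4 * (n : ℝ) ^ c := by gcongr
        _ = Y ^ 4 := g3.symm
        _ ≤ 96 ^ 4 * (κ * n) ^ 4 * (e * M') := g1
        _ ≤ _ := by gcongr
    have g5 : (96 ^ 4 * (κ * n) ^ 4 * 10) * Z ≤ (96 ^ 4 * (κ * n) ^ 4 * 10) * (p * e) := by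
      calc (96 ^ 4 * (κ * n) ^ 4 * 10) * Z = Z * (n : ℝ) ^ 4 * (10 * (96 * κ) ^ 4) := by ring
        _ ≤ _ := g4
        _ = _ := by ring
    exact le_of_mul_le_mul_left g5 (by positivity)
  · -- second inequality
    have g1 : (τ : ℝ) * U * Y ^ 3 ≤ 96 ^ 3 * (κ * n) ^ 4 * e := by
      calc (τ : ℝ) * U * Y ^ 3 ≤ τ * U * (96 * (τ * U * M')) ^ 3 := by gcongr
        _ = 96 ^ 3 * (((τ : ℝ) * U) ^ 4 * (M' : ℝ) ^ 3) := by ring
        _ ≤ 96 ^ 3 * ((κ * n) ^ 4 * e) := by gcongr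
        _ = _ := by ring
    have g2 : (n : ℝ) ^ ((1 : ℝ) / 32) ≤ 48 * τ := by
      have a1 : (T : ℝ) ≤ 24 * τ := by exact_mod_cast hN.t2
      have := hN.Tr
      linarith
    set Z := (n : ℝ) ^ ((1 : ℝ) / 32 - 5 * c) with hZ
    have hZp : 0 < Z := Real.rpow_pos_of_pos hxp _
    have g3 : (n : ℝ) ^ ((1 : ℝ) / 32) * Y ^ 3 =
        Z * (n : ℝ) ^ 4 * ((n : ℝ) ^ c * (n : ℝ) ^ c) := by
      rw [hY, ← Real.rpow_natCast, ← Real.rpow_mul hxp.le, ← Real.rpow_natCast (n : ℝ) 4,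
        ← Real.rpow_add hxp, ← Real.rpow_add hxp, ← Real.rpow_add hxp, ← Real.rpow_add hxp]
      congr 1
      push_cast
      ring
    have g4 : (10 * (96 * κ) ^ 4) * 1 ≤ (n : ℝ) ^ c * (n : ℝ) ^ c := by gcongr
    have g5 : (96 ^ 3 * (κ * n) ^ 4) * (2 * U * Z) ≤ (96 ^ 3 * (κ * n) ^ 4) * e := by
      calc (96 ^ 3 * (κ * n) ^ 4) * (2 * U * Z) =
          U / 48 * (Z * (n : ℝ) ^ 4) * ((96 * κ) ^ 4) := by ring
        _ ≤ U / 48 * (Z * (n : ℝ) ^ 4) * ((n : ℝ) ^ c * (n : ℝ) ^ c) := by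
          have : (96 * κ) ^ 4 ≤ (n : ℝ) ^ c * (n : ℝ) ^ c := by
            have : 0 ≤ (96 * κ) ^ 4 := by positivity
            linarith
          gcongr
        _ = U / 48 * ((n : ℝ) ^ ((1 : ℝ) / 32) * Y ^ 3) := by rw [g3]; ring
        _ ≤ U / 48 * (48 * τ * Y ^ 3) := by gcongr
        _ = τ * U * Y ^ 3 := by ring
        _ ≤ _ := g1
    exact le_of_mul_le_mul_left g5 (by positivity)

section

variable {ι : Type} [Fintype ι] [DecidableEq ι]

theorem t_le (K : KSys ι) {n k : ℕ} (h : n ≤ k) (hk : k < K.N) : K.t n ≤ K.t k := by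
  rcases h.lt_or_eq with h | h
  · exact (K.t_lt n k h hk).le
  · rw [h]

theorem lines_mono (K : KSys ι) {E F : Finset ℕ} (h : E ⊆ F) : K.lines E ⊆ K.lines F :=
  union_subset_union (image_subset_image h) (image_subset_image h)

/-- Sum of the numbers of lines of the super-blocks. -/
theorem sumV (K : KSys ι) (p0 L M' : ℕ) (hL : 1 ≤ L) (hN : p0 + M' * L ≤ K.N) {C : ℝ}
    (hT2 : ∀ (A : Finset ℕ) (u v : ℕ → ℝ),
      (∀ c ∈ A, ∀ c' ∈ A, c ≠ c' → v c ≤ u c' ∨ v c' ≤ u c) →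
      ∑ c ∈ A, ((visI K (u c) (v c)).card : ℝ) ≤
        C * Fintype.card ι * (A.card : ℝ) ^ ((1 : ℝ) / 4)) :
    ∑ h ∈ range M', ((K.lines (Ico (p0 + h * L) (p0 + (h + 1) * L))).card : ℝ) ≤
      C * Fintype.card ι * (M' : ℝ) ^ ((1 : ℝ) / 4) := by
  classical
  have hp : ∀ h h', h < h' → h' ≤ M' → p0 + (h + 1) * L ≤ p0 + h' * L := fun h h' h1 _ => by
    have : (h + 1) * L ≤ h' * L := Nat.mul_le_mul_right _ h1
    omega
  have hp1 : ∀ h, h < M' → p0 + (h + 1) * L ≤ K.N := fun h h1 => by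
    have : (h + 1) * L ≤ M' * L := Nat.mul_le_mul_right _ h1
    omega
  have hp2 : ∀ h, p0 + h * L < p0 + (h + 1) * L := fun h => by
    rw [Nat.add_mul, one_mul]
    omega
  have key := hT2 (range M') (fun h => K.t (p0 + h * L))
    (fun h => if p0 + (h + 1) * L < K.N then K.t (p0 + (h + 1) * L)
      else K.t (p0 + (h + 1) * L - 1) + 1) ?_
  · rw [card_range] at key
    refine le_trans (sum_le_sum fun h hh => ?_) key
    have hM := mem_range.1 hh
    have : (K.lines (Ico (p0 + h * L) (p0 + (h + 1) * L))).card ≤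
        (visI K (K.t (p0 + h * L)) (if p0 + (h + 1) * L < K.N then K.t (p0 + (h + 1) * L)
          else K.t (p0 + (h + 1) * L - 1) + 1)).card := by
      unfold visI
      refine card_le_card (lines_mono K ?_)
      intro n hn
      rw [mem_Ico] at hn
      have h1 := hp1 h hM
      have hnN : n < K.N := by omega
      rw [mem_filter, mem_range]
      refine ⟨hnN, t_le K hn.1 hnN, ?_⟩
      split_ifs with h2
      · exact K.t_lt _ _ hn.2 h2
      · have := t_le K (n := n) (k := p0 + (h + 1) * L - 1) (by omega) (by omega)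
        linarith
    exact_mod_cast this
  · have half : ∀ h h', h < h' → h' < M' →
        (if p0 + (h + 1) * L < K.N then K.t (p0 + (h + 1) * L)
          else K.t (p0 + (h + 1) * L - 1) + 1) ≤ K.t (p0 + h' * L) := by
      intro h h' h1 h2
      have h3 := hp h h' h1 h2.le
      have h4 := hp1 h' h2
      have h5 := hp2 h'
      rw [if_pos (by omega)]
      exact t_le K h3 (by omega)
    intro h hh h' hh' hne
    have a1 := mem_range.1 hh
    have a2 := mem_range.1 hh'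
    rcases lt_or_gt_of_ne hne with h1 | h1
    · exact Or.inl (half h h' h1 a2)
    · exact Or.inr (half h' h h1 a1)

/-- Few super-blocks have many lines. -/
theorem few {V : ℕ → ℝ} {M' : ℕ} {D : ℝ} (hD : 0 < D) (hV : ∀ h, 0 ≤ V h)
    (hs : ∑ h ∈ range M', V h ≤ D * (M' : ℝ) ^ ((1 : ℝ) / 4)) (Bd : Finset ℕ)
    (hB : Bd ⊆ range M') (hBd : ∀ h ∈ Bd, 10 * D < V h * (M' : ℝ) ^ ((3 : ℝ) / 4)) :
    10 * Bd.card ≤ M' := by
  have hM0 : (0 : ℝ) ≤ M' := Nat.cast_nonneg _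
  have hM4 : 0 ≤ (M' : ℝ) ^ ((3 : ℝ) / 4) := Real.rpow_nonneg hM0 _
  have h1 : (Bd.card : ℝ) * (10 * D) ≤ D * M' := by
    calc (Bd.card : ℝ) * (10 * D) = ∑ _h ∈ Bd, 10 * D := by rw [sum_const, nsmul_eq_mul]
      _ ≤ ∑ h ∈ Bd, V h * (M' : ℝ) ^ ((3 : ℝ) / 4) := sum_le_sum fun h hh => (hBd h hh).le
      _ ≤ ∑ h ∈ range M', V h * (M' : ℝ) ^ ((3 : ℝ) / 4) :=
        sum_le_sum_of_subset_of_nonneg hB fun h _ _ => mul_nonneg (hV h) hM4
      _ = (∑ h ∈ range M', V h) * (M' : ℝ) ^ ((3 : ℝ) / 4) := by rw [sum_mul]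
      _ ≤ D * (M' : ℝ) ^ ((1 : ℝ) / 4) * (M' : ℝ) ^ ((3 : ℝ) / 4) :=
        mul_le_mul_of_nonneg_right hs hM4
      _ = D * M' := by
        rw [mul_assoc, ← Real.rpow_add_of_nonneg hM0 (by norm_num) (by norm_num)]
        norm_num
  have h2 : D * (10 * (Bd.card : ℝ)) ≤ D * M' := by linarith
  have h3 := le_of_mul_le_mul_left h2 hD
  exact_mod_cast h3

end

end XFam

open XFam in
theorem I_Fam (hThin : StThin) (hTypes : StTypes) (hPWin : StPWin) (hT2 : StT2) : StFam := by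
  classical
  obtain ⟨C, hC, hT2⟩ := hT2
  intro B _ c hc hc'
  obtain ⟨n0, hn0⟩ : ∃ n0 : ℕ, ∀ n : ℕ, n0 ≤ n → (1000 : ℝ) ≤ (n : ℝ) ^ ((1 : ℝ) / 100) ∧
      10 * (96 * (320 * ((B : ℝ) + 2) * C)) ^ 4 ≤ (n : ℝ) ^ c := by
    have h1 := ((tendsto_rpow_atTop (by norm_num : (0 : ℝ) < 1 / 100)).comp
      tendsto_natCast_atTop_atTop).eventually_ge_atTop 1000
    have h2 := ((tendsto_rpow_atTop hc).comp tendsto_natCast_atTop_atTop).eventually_ge_atTop
      (10 * (96 * (320 * ((B : ℝ) + 2) * C)) ^ 4)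
    obtain ⟨n0, h⟩ := Filter.eventually_atTop.1 (h1.and h2)
    exact ⟨n0, h⟩
  refine ⟨n0, ?_⟩
  intro ι _ _ K m q hn hgp hm hsep hq hqB hN
  obtain ⟨a1, a2⟩ := hn0 _ hn
  -- the edges with time in `[0, 1)`
  obtain ⟨_, i2, i3, i4⟩ := I_IDX ι K
  have hfil : (range K.N).filter (fun n => 0 ≤ K.t n ∧ K.t n < 1) = Ico (K.idx 0) (K.idx 1) := by
    ext n
    have e0 := i2 n 0
    have e1 := i2 n 1
    rw [mem_filter, mem_range, mem_Ico]
    constructor
    · rintro ⟨h1, h2, h3⟩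
      exact ⟨not_lt.1 fun h => absurd (e0.1 h).2 (not_lt.2 h2), e1.2 ⟨h1, h3⟩⟩
    · rintro ⟨h1, h2⟩
      obtain ⟨h2, h3⟩ := e1.1 h2
      exact ⟨h2, not_lt.1 fun h => absurd (e0.2 ⟨h2, h⟩) (not_lt.2 h1), h3⟩
  have hi01 : K.idx 0 ≤ K.idx 1 := i3 0 1 (by norm_num)
  have hi1 := i4 1
  rw [hfil, Nat.card_Ico] at hN
  set p0 := K.idx 0 with hp0
  set N0 := K.idx 1 - p0 with hN0
  obtain ⟨U, M, Tn, T, s, τ, H⟩ := num (Fintype.card ι) N0 c hc' a1 hN
  have hU4 := H.U4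
  have hT1 := H.T1
  have hMU := H.MU
  have hpN : p0 + M * U ≤ K.N := by omega
  have hn1 : (1 : ℝ) ≤ (Fintype.card ι : ℝ) := by
    have : Fintype.card ι ≠ 0 := by
      intro h
      rw [h, Nat.cast_zero, Real.zero_rpow (by norm_num)] at a1
      linarith
    exact_mod_cast Nat.one_le_iff_ne_zero.2 this
  have hinj : Function.Injective K.x := by
    intro i j hij
    by_contra hne
    have := hsep i j hne
    rw [hij, sub_self, abs_zero, mul_zero] at this
    linarith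
  -- thick blocks
  have hthin : ((range M).filter (fun i => (nearB K m p0 U M i).card ≤ Tn)).card <
      (Tn + 1) * s := by
    by_contra hcon
    have := hThin ι K m p0 U M Tn s hm hsep (by omega) hpN (not_lt.1 hcon)
    linarith [H.big]
  set Th := (range M).filter (fun i => ¬ (nearB K m p0 U M i).card ≤ Tn) with hTh
  have hadd := card_filter_add_card_filter_not (s := range M)
    (fun i => (nearB K m p0 U M i).card ≤ Tn)
  rw [card_range, ← hTh] at hadd
  have hThbig : M < 2 * Th.card := by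
    have := H.thin
    omega
  set M' := M / T with hM'
  have hMT : M' * T ≤ M := Nat.div_mul_le_self M T
  have hM'pos : 0 < M' := by
    rw [hM']
    exact Nat.div_pos (by have := H.TM; omega) (by omega)
  have hsup : ∀ h, h < M' → (h + 1) * T ≤ M := fun h hh =>
    (Nat.mul_le_mul_right _ hh).trans hMT
  -- typed super-blocks
  set Ty := (range M').filter (fun h => τ ≤ (rightB K m p0 U T h).card ∨
    τ ≤ (leftB K m p0 U T h).card) with hTydef
  have hTyC : M' < 3 * (Ty ∩ range M').card := by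
    refine typed (Tn := Tn) (s := s) hT1 H.TM H.t3 H.t1 Th (filter_subset _ _) hThbig Ty ?_
    intro h hh hnot
    rw [hTydef, mem_filter, not_and, not_or, not_le, not_le] at hnot
    obtain ⟨b1, b2⟩ := hnot hh
    have hsub : Th.filter (fun i => i / T = h) ⊆ rightB K m p0 U T h ∪ leftB K m p0 U T h := by
      intro i hi
      rw [mem_filter, hTh, mem_filter] at hi
      obtain ⟨⟨_, c2⟩, c3⟩ := hi
      rw [mem_union]
      refine hTypes ι K m p0 U M T h i (by omega) hT1 (hsup h (mem_range.1 hh)) hpN ?_ ?_ ?_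
      · rw [← c3]
        exact Nat.div_mul_le_self i T
      · rw [← c3]
        have := Nat.lt_mul_div_succ i (b := T) (by omega)
        calc i < T * (i / T + 1) := this
          _ = (i / T + 1) * T := by ring
      · have := H.TT
        omega
    have := (card_le_card hsub).trans (card_union_le _ _)
    omega
  have hTysub : Ty ⊆ range M' := filter_subset _ _
  rw [inter_eq_left.2 hTysub] at hTyC
  -- lines of the super-blocks
  set V : ℕ → ℝ := fun h =>
    ((K.lines (Ico (p0 + h * (T * U)) (p0 + (h + 1) * (T * U)))).card : ℝ) with hVdef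
  have hV0 : ∀ h, 0 ≤ V h := fun h => Nat.cast_nonneg _
  have hTU : 1 ≤ T * U := Nat.mul_pos (by omega) (by omega)
  have hM'TU : M' * (T * U) ≤ M * U := by
    calc M' * (T * U) = M' * T * U := by ring
      _ ≤ M * U := Nat.mul_le_mul_right _ hMT
  have hsV := sumV K p0 (T * U) M' hTU (by omega) (hT2 ι K hinj hgp)
  have hD : 0 < C * (Fintype.card ι : ℝ) := by
    have : 0 < (Fintype.card ι : ℝ) := by linarith
    positivity
  set Bd := (range M').filter (fun h => 10 * (C * (Fintype.card ι : ℝ)) <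
    V h * (M' : ℝ) ^ ((3 : ℝ) / 4)) with hBd
  have hfew : 10 * Bd.card ≤ M' := few hD hV0 hsV Bd (filter_subset _ _) fun h hh =>
    (mem_filter.1 hh).2
  set P := Ty \ Bd with hP
  have hPc : Ty.card ≤ P.card + Bd.card := by
    rw [hP]
    exact card_le_card_sdiff_add_card
  have hPr : (M' : ℝ) / 10 ≤ P.card := by
    have : M' ≤ 10 * P.card := by omega
    have : (M' : ℝ) ≤ 10 * P.card := by exact_mod_cast this
    linarith
  have hPM : ∀ h ∈ P, h < M' := fun h hh => mem_range.1 (hTysub (mem_sdiff.1 hh).1)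
  -- the windows
  have hw : ∀ h, ∃ (u R : ℝ) (E : Finset ℕ), h ∈ P →
      (PWin K q (B + 3) U (p0 + h * T * U) (p0 + (h + 1) * T * U) u R E ∧
      ((τ * U : ℕ) : ℝ) ≤ 2 + 16 * ((B : ℝ) + 2) * V h * (E.card : ℝ) ^ ((1 : ℝ) / 4)) := by
    intro h
    by_cases hh : h ∈ P
    · have hty := (mem_filter.1 (mem_sdiff.1 hh).1).2
      obtain ⟨u, R, E, h1, h2⟩ := hPWin ι K m q B p0 U M T h τ hm hsep hq hqB (by omega) hT1
        (hsup h (hPM h hh)) hpN H.t1 hty
      refine ⟨u, R, E, fun _ => ⟨h1, ?_⟩⟩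
      have hVh : V h = ((K.lines (Ico (p0 + h * T * U) (p0 + (h + 1) * T * U))).card : ℝ) := by
        rw [hVdef, mul_assoc h T U, mul_assoc (h + 1) T U]
      rw [hVh]
      exact h2
    · exact ⟨0, 0, ∅, fun h' => absurd h' hh⟩
  choose u R E hE using hw
  have hpp : ∀ h, h < M' → p0 + (h + 1) * T * U ≤ K.N := by
    intro h hh
    have : (h + 1) * T * U ≤ M * U := Nat.mul_le_mul_right _ (hsup h hh)
    omega
  have hmain : ∀ h ∈ P, (Fintype.card ι : ℝ) ^ ((4 : ℝ) / 3 - 5 * c) ≤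
      (P.card : ℝ) * ((E h).card : ℝ) ∧
      2 * (U : ℝ) * (Fintype.card ι : ℝ) ^ ((1 : ℝ) / 32 - 5 * c) ≤ ((E h).card : ℝ) := by
    intro h hh
    refine window H hM' hc hC rfl hn1 a2 hN (Nat.cast_nonneg _) (hE h hh).2 ?_ hPr
    have h1 := (mem_sdiff.1 hh).2
    have h2 := (mem_sdiff.1 hh).1
    rw [hBd, mem_filter, not_and, not_lt] at h1
    have h3 := h1 (hTysub h2)
    linarith
  refine ⟨P, u, R, E, ?_, ?_, ?_, ?_, fun h hh => (hmain h hh).1, ?_⟩
  · rw [← card_pos]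
    omega
  · have h1 : P.card ≤ M' := by
      have := card_le_card ((sdiff_subset (s := Ty) (t := Bd)).trans hTysub)
      rwa [card_range] at this
    have h2 : M' ≤ M := Nat.div_le_self M T
    have h3 : (P.card : ℝ) ≤ (M : ℝ) := by exact_mod_cast h1.trans h2
    exact h3.trans H.Mr
  · intro h hh
    obtain ⟨w1, _⟩ := hE h hh
    refine ⟨w1.pos, fun n hn => ⟨?_, w1.win n hn⟩⟩
    have h1 := mem_Ico.1 (w1.sub hn)
    have h2 := hpp h (hPM h hh)
    omega
  · have half : ∀ h ∈ P, ∀ h' ∈ P, h < h' → u h + R h ≤ u h' := by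
      intro h hh h' hh' hlt
      obtain ⟨w1, _⟩ := hE h hh
      obtain ⟨w2, _⟩ := hE h' hh'
      have h1 : (h + 1) * T * U ≤ h' * T * U :=
        Nat.mul_le_mul_right _ (Nat.mul_le_mul_right _ hlt)
      have h2 := hpp h' (hPM h' hh')
      have h3 : h' * T * U < (h' + 1) * T * U := by
        have : (h' + 1) * T * U = h' * T * U + T * U := by ring
        omega
      exact (w1.hi (p0 + h' * T * U) (by omega) (by omega)).trans w2.lo
    intro h hh h' hh' hne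
    rcases lt_or_gt_of_ne hne with h1 | h1
    · exact Or.inl (half h hh h' hh' h1)
    · exact Or.inr (half h' hh' h hh h1)
  · intro h hh c'
    obtain ⟨w1, _⟩ := hE h hh
    refine le_trans (mul_le_mul_of_nonneg_right ?_ (Real.rpow_nonneg (by linarith) _))
      (hmain h hh).2
    have := w1.mass c'
    exact_mod_cast this

end Pool.Agent.Work.MP_e17eac_co.PS
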