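import Pool.Agent.Work.MP_e17eac_co.PS.Spr

/-!
# Item Far2: far blocks share at most one line
-/

namespace Pool.Agent.Work.MP_e17eac_co.PS

open Finset
open Pool.Agent.Work.MP_e17eac_co.DH

namespace XFar2

variable {ι : Type} [Fintype ι] [DecidableEq ι]

lemma t_mono (K : KSys ι) {n n' : ℕ} (h : n ≤ n') (h' : n' < K.N) : K.t n ≤ K.t n' := by
  rcases h.lt_or_eq with h1 | h1
  · exact (K.t_lt n n' h1 h').le
  · rw [h1]

/-- a line of a block at the first time of the block -/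
lemma near (hLip : StLip) (hLeq : StLeq) (K : KSys ι) {f l : ℕ} (hl : l < K.N)
    {p : ι} (hp : p ∈ K.lines (Ico f (l + 1))) :
    |K.ht p (K.t f) - K.h f| ≤ K.t l - K.t f := by
  obtain ⟨n, h1, h2, h3⟩ : ∃ n, f ≤ n ∧ n ≤ l ∧ K.ht p (K.t n) = K.h n := by
    unfold KSys.lines at hp
    rw [mem_union, mem_image, mem_image] at hp
    rcases hp with ⟨n, hn, rfl⟩ | ⟨n, hn, rfl⟩
    · rw [mem_Ico] at hn
      exact ⟨n, hn.1, by omega, (hLeq ι K n (by omega)).2.1⟩
    · rw [mem_Ico] at hn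
      exact ⟨n, hn.1, by omega, (hLeq ι K n (by omega)).2.2.1⟩
  have h4 := hLip ι K f n h1 (by omega)
  have h5 := t_mono K h1 (by omega)
  have h6 := t_mono K h2 hl
  have h7 := K.x_nonneg p
  have h8 := K.x_le_one p
  unfold KSys.ht at h3 ⊢
  have e : K.y p + K.x p * K.t f - K.h f = (K.h n - K.h f) - K.x p * (K.t n - K.t f) := by
    linear_combination h3
  rw [e, abs_le]
  have h9 : 0 ≤ K.x p * (K.t n - K.t f) := mul_nonneg h7 (by linarith)
  have h10 : K.x p * (K.t n - K.t f) ≤ K.t n - K.t f := by nlinarith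
  constructor <;> linarith

lemma core (hLip : StLip) (hLeq : StLeq) (K : KSys ι) (m : ℝ) (hm : 1 ≤ m) (hsep : K.Sep m)
    {f l f' l' : ℕ} (hl : l < K.N) (hfl : f ≤ l) (hl' : l' < K.N) (hfl' : f' ≤ l')
    (hd : 4 * m * max (K.t l - K.t f) (K.t l' - K.t f') < K.t f' - K.t l) :
    (K.lines (Ico f (l + 1)) ∩ K.lines (Ico f' (l' + 1))).card ≤ 1 := by
  rw [card_le_one]
  intro p hp q hq
  by_contra hne
  rw [mem_inter] at hp hq
  have a1 := abs_le.1 (near hLip hLeq K hl hp.1)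
  have a2 := abs_le.1 (near hLip hLeq K hl' hp.2)
  have b1 := abs_le.1 (near hLip hLeq K hl hq.1)
  have b2 := abs_le.1 (near hLip hLeq K hl' hq.2)
  have c1 := t_mono K hfl hl
  have c2 := t_mono K hfl' hl'
  set M := max (K.t l - K.t f) (K.t l' - K.t f') with hM
  have m1 : K.t l - K.t f ≤ M := le_max_left _ _
  have m2 : K.t l' - K.t f' ≤ M := le_max_right _ _
  have hM0 : 0 ≤ M := by linarith
  have hs := hsep p q hne
  set d := K.t f' - K.t l with hd'
  have hd0 : 0 < d := by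
    have : 0 ≤ 4 * m * M := by positivity
    linarith
  have e1 : (K.x p - K.x q) * (K.t f' - K.t f) =
      (K.ht p (K.t f') - K.ht q (K.t f')) - (K.ht p (K.t f) - K.ht q (K.t f)) := by
    unfold KSys.ht
    ring
  have e2 : |K.x p - K.x q| * (K.t f' - K.t f) ≤ 4 * M := by
    have h0 : 0 ≤ K.t f' - K.t f := by linarith
    rw [← abs_of_nonneg h0, ← abs_mul, e1, abs_le]
    constructor <;> linarith
  have e3 : |K.x p - K.x q| * d ≤ 4 * M := by
    refine le_trans ?_ e2
    exact mul_le_mul_of_nonneg_left (by linarith) (abs_nonneg _)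
  have e4 : d ≤ m * |K.x p - K.x q| * d := by nlinarith
  have e5 : m * (|K.x p - K.x q| * d) ≤ m * (4 * M) :=
    mul_le_mul_of_nonneg_left e3 (by linarith)
  nlinarith

end XFar2

/-- Item Far2. -/
theorem I_Far2 (hLip : StLip) (hLeq : StLeq) : StFar2 := by
  intro ι _ _ K m p0 U M hm hsep hU hN i k hi hk hd
  have key : ∀ j, j < M → (p0 + (j + 1) * U - 1 < K.N ∧ p0 + j * U ≤ p0 + (j + 1) * U - 1 ∧
      p0 + (j + 1) * U = (p0 + (j + 1) * U - 1) + 1) := by
    intro j hj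
    have h1 : (j + 1) * U ≤ M * U := Nat.mul_le_mul_right U hj
    have h2 : (j + 1) * U = j * U + U := by ring
    omega
  obtain ⟨i1, i2, i3⟩ := key i hi
  obtain ⟨k1, k2, k3⟩ := key k hk
  unfold blk
  rw [i3, k3]
  unfold bd bl at hd
  rcases lt_max_iff.1 hd with h | h
  · exact XFar2.core hLip hLeq K m hm hsep i1 i2 k1 k2 h
  · rw [inter_comm]
    refine XFar2.core hLip hLeq K m hm hsep k1 k2 i1 i2 ?_
    rw [max_comm]
    exact h

end Pool.Agent.Work.MP_e17eac_co.PS
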