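import Pool.Agent.Work.MP_e17eac_co.PS.Lg

/-!
# GapD: the numbers `dl j`
-/

namespace Pool.Agent.Work.MP_e17eac_co.PS

open Finset
open Pool.Agent.Work.MP_e17eac_co.DH

namespace XGapD

variable {ι : Type} [Fintype ι] [DecidableEq ι]

theorem disp_le_one (K : KSys ι) (Q j k : ℕ) (τ : ι) : K.disp Q j k τ ≤ 1 := by
  unfold KSys.disp
  rw [abs_le]
  have h1 := K.x_nonneg (K.pos (K.ci Q j k) τ)
  have h2 := K.x_le_one (K.pos (K.ci Q j k) τ)
  have h3 := K.x_nonneg (K.pos (K.ci Q j (k + 1)) τ)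
  have h4 := K.x_le_one (K.pos (K.ci Q j (k + 1)) τ)
  constructor <;> linarith

end XGapD

theorem I_GapD (hGapR : StGapR) : StGapD := by
  intro ι _ _ X h
  have h0 := h.toOK0
  have hQ1 : 1 ≤ X.Q := le_trans (by norm_num) h0.hQ
  obtain ⟨n, hn⟩ := h0.ne
  obtain ⟨hnN, hnt, -⟩ := h0.sub n hn
  constructor
  · intro j hj
    have hjJ : j ≤ X.J := by omega
    have hQj := h0.Qpow_pos j
    have hQj1 := h0.one_le_Qpow j
    have hdpos : 0 < X.dl j := by
      have h1 := h.deep j hj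
      by_contra hcon
      push Not at hcon
      have := mul_nonpos_of_nonpos_of_nonneg hcon (h0.Qpow_pos X.I).le
      linarith
    refine ⟨hdpos, ?_, ?_⟩
    · by_contra hcon
      push Not at hcon
      obtain ⟨hU, -⟩ := h.gap j hj n hn 2 hcon
      have h1 := (hGapR ι X.K X.Q j n 2 hQ1 hnN hnt).1 hU
      have h2 := XGapD.disp_le_one X.K X.Q j (X.K.cell X.Q j n) (X.K.tokT n)
      linarith
    · intro p
      apply le_of_forall_lt
      intro c hc
      have hδ : c / (X.Q : ℝ) ^ j < X.dl j := by rwa [div_lt_iff₀ hQj]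
      obtain ⟨hU, hD⟩ := h.gap j hj n hn _ hδ
      have hR := hGapR ι X.K X.Q j n (c / (X.Q : ℝ) ^ j) hQ1 hnN hnt
      rw [div_mul_cancel₀ c hQj.ne'] at hR
      have h3 := h0.dhi p j hjJ n hn
      cases p with
      | false => exact lt_of_le_of_lt (hR.2.1 hD) h3
      | true => exact lt_of_le_of_lt (hR.1 hU) h3
  · intro j j' hjj hj'
    by_contra hcon
    push Not at hcon
    obtain ⟨hU, hD⟩ := h.gap j' hj' n hn _ hcon
    have hR := (hGapR ι X.K X.Q j n (2 * X.dl j) hQ1 hnN hnt).2.2 j' hjj (X.K.a n)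
    rcases h.typ j (by omega) with ht | ht
    · exact ht n hn (hR.1 hU)
    · exact ht n hn (hR.2 hD)

end Pool.Agent.Work.MP_e17eac_co.PS
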