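import Pool.Agent.Work.MP_e17eac_co.PS.Lg

/-! # Project PS, block REG, item GapR: gaps and displacements -/

namespace Pool.Agent.Work.MP_e17eac_co.PS

open Finset
open Pool.Agent.Work.MP_e17eac_co.DH

namespace XGapR

variable {ι : Type} [Fintype ι] [DecidableEq ι]

/-- An edge lies in its cell. -/
theorem ci_le (hIdx : StIdx) (K : KSys ι) (Q j n : ℕ) (hQ : 1 ≤ Q) (hN : n < K.N)
    (ht : 0 ≤ K.t n) : K.ci Q j (K.cell Q j n) ≤ n ∧ n < K.ci Q j (K.cell Q j n + 1) := by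
  obtain ⟨_, hI2, _, _⟩ := hIdx ι K
  have hQj : (0 : ℝ) < (Q : ℝ) ^ j := by
    have : (0 : ℝ) < (Q : ℝ) := by exact_mod_cast hQ
    positivity
  have h0 : 0 ≤ K.t n * (Q : ℝ) ^ j := mul_nonneg ht hQj.le
  have h12 := (Nat.floor_eq_iff (n := K.cell Q j n) h0).1 rfl
  have h1 : (K.cell Q j n : ℝ) ≤ K.t n * (Q : ℝ) ^ j := h12.1
  have h2 : K.t n * (Q : ℝ) ^ j < (K.cell Q j n : ℝ) + 1 := h12.2
  unfold KSys.ci
  constructor
  · by_contra hcon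
    have h3 := ((hI2 n _).1 (not_le.1 hcon)).2
    rw [lt_div_iff₀ hQj] at h3
    linarith
  · rw [hI2]
    refine ⟨hN, ?_⟩
    rw [lt_div_iff₀ hQj]
    push_cast
    exact h2

theorem sub_cell (Q j n : ℕ) (hQ : 1 ≤ Q) :
    (((n : ℝ) + 1) / (Q : ℝ) ^ j - (n : ℝ) / (Q : ℝ) ^ j) * (Q : ℝ) ^ j = 1 := by
  have hQj : (0 : ℝ) < (Q : ℝ) ^ j := by
    have : (0 : ℝ) < (Q : ℝ) := by exact_mod_cast hQ
    positivity
  field_simp
  ring

/-- The fine closed cell is contained in the coarse one. -/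
theorem nest (Q j j' c c' : ℕ) (hQ : 1 ≤ Q) (hj : j ≤ j') (hc : c = c' / Q ^ (j' - j)) :
    (c : ℝ) / (Q : ℝ) ^ j ≤ (c' : ℝ) / (Q : ℝ) ^ j' ∧
    ((c' : ℝ) + 1) / (Q : ℝ) ^ j' ≤ ((c : ℝ) + 1) / (Q : ℝ) ^ j := by
  obtain ⟨d, rfl⟩ := Nat.exists_eq_add_of_le hj
  rw [Nat.add_sub_cancel_left] at hc
  have hQ0 : (0 : ℝ) < (Q : ℝ) := by exact_mod_cast hQ
  have hQj : (0 : ℝ) < (Q : ℝ) ^ j := by positivity
  have hQd : (0 : ℝ) < (Q : ℝ) ^ d := by positivity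
  have hQdn : 0 < Q ^ d := Nat.pos_of_ne_zero (pow_ne_zero _ (by omega))
  have h1 : c * Q ^ d ≤ c' := by rw [hc]; exact Nat.div_mul_le_self _ _
  have h2 : c' + 1 ≤ (c + 1) * Q ^ d := by
    have := Nat.lt_mul_div_succ c' hQdn
    rw [← hc] at this
    rw [mul_comm]
    exact this
  have h1' : (c : ℝ) * (Q : ℝ) ^ d ≤ c' := by exact_mod_cast h1
  have h2' : (c' : ℝ) + 1 ≤ ((c : ℝ) + 1) * (Q : ℝ) ^ d := by exact_mod_cast h2
  rw [pow_add]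
  constructor
  · rw [div_le_div_iff₀ hQj (by positivity)]
    nlinarith
  · rw [div_le_div_iff₀ (by positivity) hQj]
    nlinarith

end XGapR

open XGapR in
theorem I_GapR (hSand : StSand) (hIdx : StIdx) (hNest : StNest) : StGapR := by
  intro ι _ _ K Q j n δ hQ hN ht
  have hQj : (0 : ℝ) < (Q : ℝ) ^ j := by
    have : (0 : ℝ) < (Q : ℝ) := by exact_mod_cast hQ
    positivity
  obtain ⟨hI1, hI2, hI3, hI4⟩ := hIdx ι K
  obtain ⟨hp, hq⟩ := ci_le hIdx K Q j n hQ hN ht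
  have hv0 : K.Valid (K.ci Q j (K.cell Q j n)) ((K.cell Q j n : ℝ) / (Q : ℝ) ^ j) := hI1 _
  have hv1 : K.Valid (K.ci Q j (K.cell Q j n + 1)) (((K.cell Q j n : ℝ) + 1) / (Q : ℝ) ^ j) := by
    have := hI1 (((K.cell Q j n + 1 : ℕ) : ℝ) / (Q : ℝ) ^ j)
    unfold KSys.ci
    push_cast at this ⊢
    exact this
  have hlen := sub_cell Q j (K.cell Q j n) hQ
  refine ⟨?_, ?_, ?_⟩
  · rintro ⟨n', r, _, _, hv, hin, q, hqm, hh⟩
    have hb := K.below n' hv.1 r hv.2.1 hv.2.2 q hqm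
    have hs := (hSand ι K n _ _ _ _ r false hN hv0 hv1 hp hq hin.1 hin.2).2
    have h1 : δ ≤ (((K.cell Q j n : ℝ) + 1) / (Q : ℝ) ^ j - (K.cell Q j n : ℝ) / (Q : ℝ) ^ j) *
        K.disp Q j (K.cell Q j n) (K.tokT n) := by
      unfold KSys.disp
      simp only [KSys.ln] at hs
      unfold KSys.ht at hs hh
      linarith
    calc δ * (Q : ℝ) ^ j ≤ ((((K.cell Q j n : ℝ) + 1) / (Q : ℝ) ^ j -
          (K.cell Q j n : ℝ) / (Q : ℝ) ^ j) * K.disp Q j (K.cell Q j n) (K.tokT n)) *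
          (Q : ℝ) ^ j := mul_le_mul_of_nonneg_right h1 hQj.le
      _ = ((((K.cell Q j n : ℝ) + 1) / (Q : ℝ) ^ j -
          (K.cell Q j n : ℝ) / (Q : ℝ) ^ j) * (Q : ℝ) ^ j) *
          K.disp Q j (K.cell Q j n) (K.tokT n) := by ring
      _ = K.disp Q j (K.cell Q j n) (K.tokT n) := by rw [hlen, one_mul]
  · rintro ⟨n', r, _, _, hv, hin, q, hqm, hh⟩
    have hb := K.above n' hv.1 r hv.2.1 hv.2.2 q hqm
    have hs := (hSand ι K n _ _ _ _ r false hN hv0 hv1 hp hq hin.1 hin.2).1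
    have h1 : δ ≤ (((K.cell Q j n : ℝ) + 1) / (Q : ℝ) ^ j - (K.cell Q j n : ℝ) / (Q : ℝ) ^ j) *
        K.disp Q j (K.cell Q j n) (K.tokB n) := by
      unfold KSys.disp
      simp only [KSys.ln] at hs
      unfold KSys.ht at hs hh
      linarith
    calc δ * (Q : ℝ) ^ j ≤ ((((K.cell Q j n : ℝ) + 1) / (Q : ℝ) ^ j -
          (K.cell Q j n : ℝ) / (Q : ℝ) ^ j) * K.disp Q j (K.cell Q j n) (K.tokB n)) *
          (Q : ℝ) ^ j := mul_le_mul_of_nonneg_right h1 hQj.le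
      _ = ((((K.cell Q j n : ℝ) + 1) / (Q : ℝ) ^ j -
          (K.cell Q j n : ℝ) / (Q : ℝ) ^ j) * (Q : ℝ) ^ j) *
          K.disp Q j (K.cell Q j n) (K.tokB n) := by ring
      _ = K.disp Q j (K.cell Q j n) (K.tokB n) := by rw [hlen, one_mul]
  · intro j' hj p
    obtain ⟨hA, hB⟩ := nest Q j j' _ _ hQ hj ((hNest ι K Q hQ).2.1 j j' n hj ht)
    have hci1 : K.ci Q j (K.cell Q j n) ≤ K.ci Q j' (K.cell Q j' n) := hI3 _ _ hA
    have hci2 : K.ci Q j' (K.cell Q j' n + 1) ≤ K.ci Q j (K.cell Q j n + 1) := by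
      unfold KSys.ci
      apply hI3
      push_cast
      exact hB
    constructor
    · rintro ⟨n', r, h1, h2, hv, hin, hrest⟩
      exact ⟨n', r, hci1.trans h1, h2.trans hci2, hv, ⟨hA.trans hin.1, hin.2.trans hB⟩, hrest⟩
    · rintro ⟨n', r, h1, h2, hv, hin, hrest⟩
      exact ⟨n', r, hci1.trans h1, h2.trans hci2, hv, ⟨hA.trans hin.1, hin.2.trans hB⟩, hrest⟩

end Pool.Agent.Work.MP_e17eac_co.PS
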