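import Pool.Agent.Work.MP_e17eac_co.PS.Lg

/-!
# Item IJ: the levels of the boxes of size `dl j`
-/

namespace Pool.Agent.Work.MP_e17eac_co.PS

open Finset
open Pool.Agent.Work.MP_e17eac_co.DH

namespace XIJ

/-- running minimum -/
noncomputable def mn (d : ℕ → ℝ) (j : ℕ) : ℝ :=
  (range (j + 1)).inf' ⟨0, by simp⟩ d

lemma mn_le (d : ℕ → ℝ) {i j : ℕ} (h : i ≤ j) : mn d j ≤ d i :=
  inf'_le _ (by simp; omega)

lemma le_mn (d : ℕ → ℝ) (j : ℕ) (c : ℝ) (h : ∀ i, i ≤ j → c ≤ d i) : c ≤ mn d j := by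
  refine le_inf' _ _ fun i hi => h i ?_
  have := mem_range.mp hi
  omega

lemma mn_anti (d : ℕ → ℝ) {i j : ℕ} (h : i ≤ j) : mn d j ≤ mn d i :=
  le_mn d i _ fun k hk => mn_le d (hk.trans h)

open Classical in
/-- least level -/
noncomputable def ff (d : ℕ → ℝ) (Q j : ℕ) : ℕ :=
  if h : ∃ i : ℕ, 8 ≤ mn d j * (Q : ℝ) ^ i then Nat.find h else 0

lemma ff_spec {d : ℕ → ℝ} {Q j i : ℕ} (h : 8 ≤ mn d j * (Q : ℝ) ^ i) :
    8 ≤ mn d j * (Q : ℝ) ^ ff d Q j ∧ ff d Q j ≤ i ∧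
      ∀ k, k < ff d Q j → mn d j * (Q : ℝ) ^ k < 8 := by
  classical
  have hex : ∃ i : ℕ, 8 ≤ mn d j * (Q : ℝ) ^ i := ⟨i, h⟩
  have e : ff d Q j = Nat.find hex := by
    unfold ff
    rw [dif_pos hex]
  rw [e]
  exact ⟨Nat.find_spec hex, Nat.find_min' hex h, fun k hk => not_le.mp (Nat.find_min hex hk)⟩

end XIJ

open XIJ in
/-- Item IJ. -/
theorem I_IJ (hGapD : StGapD) : StIJ := by
  intro ι _ _ X hX
  obtain ⟨h1, h2⟩ := hGapD ι X hX
  have hQ : (1 : ℝ) ≤ X.Q := by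
    have := hX.hQ
    exact_mod_cast (show 1 ≤ X.Q by omega)
  have hQ0 : (0 : ℝ) < X.Q := by linarith
  have key : ∀ j, j + X.g ≤ X.J → 8 ≤ mn X.dl j * (X.Q : ℝ) ^ X.I := by
    intro j hj
    have h3 := hX.deep j hj
    have h4 : X.dl j / 2 ≤ mn X.dl j := le_mn _ _ _ fun i hi => by
      have := h2 i j hi hj
      linarith
    have h5 : 0 < (X.Q : ℝ) ^ X.I := by positivity
    nlinarith
  refine ⟨ff X.dl X.Q, ?_, ?_, ?_, ?_⟩
  · intro j j' hjj hj'
    obtain ⟨h3, _, _⟩ := ff_spec (key j' hj')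
    have h4 := mn_anti X.dl hjj
    have h5 : 8 ≤ mn X.dl j * (X.Q : ℝ) ^ ff X.dl X.Q j' :=
      h3.trans (mul_le_mul_of_nonneg_right h4 (by positivity))
    exact (ff_spec h5).2.1
  · intro j hj
    exact (ff_spec (key j hj)).2.1
  · intro j hj
    exact (ff_spec (key j hj)).1.trans
      (mul_le_mul_of_nonneg_right (mn_le X.dl le_rfl) (by positivity))
  · intro j hj
    obtain ⟨_, _, h3⟩ := ff_spec (key j hj)
    rcases Nat.eq_zero_or_pos (ff X.dl X.Q j) with h4 | h4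
    · rw [h4, pow_zero, mul_one]
      have := (h1 j hj).2.1
      linarith
    · have h5 := h3 (ff X.dl X.Q j - 1) (by omega)
      have h6 : X.dl j / 2 ≤ mn X.dl j := le_mn _ _ _ fun i hi => by
        have := h2 i j hi hj
        linarith
      have h7 : (X.Q : ℝ) ^ ff X.dl X.Q j = (X.Q : ℝ) ^ (ff X.dl X.Q j - 1) * X.Q := by
        rw [← pow_succ]
        congr 1
        omega
      rw [h7]
      set P := (X.Q : ℝ) ^ (ff X.dl X.Q j - 1) with hP
      have hP0 : 0 < P := by positivity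
      have h8 : X.dl j * P ≤ 16 := by nlinarith
      calc X.dl j * (P * X.Q) = X.dl j * P * X.Q := by ring
        _ ≤ 16 * X.Q := mul_le_mul_of_nonneg_right h8 hQ0.le

end Pool.Agent.Work.MP_e17eac_co.PS
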