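import Pool.Agent.Work.MP_e17eac_co.PS.Lg

/-!
# Project PS, item IN: most edges stay in their slot
-/

namespace Pool.Agent.Work.MP_e17eac_co.PS

open Finset
open Pool.Agent.Work.MP_e17eac_co.DH

namespace XIN

variable {ι : Type} [Fintype ι] [DecidableEq ι]

/-- Slots are monotone in the slope. -/
theorem sl_mono (K : KSys ι) (Q i : ℕ) {p q : ι} (h : K.x p ≤ K.x q) : sl K Q i p ≤ sl K Q i q := by
  unfold sl
  exact Int.floor_le_floor (mul_le_mul_of_nonneg_right h (by positivity))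

/-- A token leaves the slot of `a n` at the edge `n` and never comes back. -/
theorem no_return (hTok : StTok) (hMono : StMono) (K : KSys ι) (Q i : ℕ) {n n' : ℕ} (hn : n < K.N)
    (hn' : n' < K.N) (hlt : n < n') (htok : K.tokB n = K.tokB n')
    (hne : sl K Q i (K.a n) ≠ sl K Q i (K.b n)) : sl K Q i (K.a n') < sl K Q i (K.a n) := by
  obtain ⟨h1, _, _, h4, _⟩ := hTok ι K n hn
  obtain ⟨_, _, h3', _⟩ := hTok ι K n' hn'
  have hm := (hMono ι K (n + 1) n' hlt hn'.le).1 (K.tokB n) h1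
  rw [h4, htok, h3'] at hm
  have e1 := sl_mono K Q i hm
  have e2 := sl_mono K Q i (K.x_lt n hn).le
  have e3 : sl K Q i (K.b n) < sl K Q i (K.a n) := lt_of_le_of_ne e2 (Ne.symm hne)
  exact lt_of_le_of_lt e1 e3

/-- Counting of the edges which leave their slot. -/
theorem card_le (hTok : StTok) (hMono : StMono) (K : KSys ι) (Q i : ℕ) (E : Finset ℕ)
    (hE : ∀ n ∈ E, n < K.N) :
    (E.filter (fun n => sl K Q i (K.a n) ≠ sl K Q i (K.b n))).card ≤
      im E (fun n => K.tokB n) * im E (fun n => sl K Q i (K.a n)) := by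
  classical
  unfold im
  rw [← Finset.card_product]
  refine Finset.card_le_card_of_injOn (fun n => (K.tokB n, sl K Q i (K.a n))) ?_ ?_
  · intro n hn
    have hn' := (Finset.mem_filter.1 (Finset.mem_coe.1 hn)).1
    exact Finset.mem_coe.2 (Finset.mem_product.2
      ⟨Finset.mem_image_of_mem _ hn', Finset.mem_image_of_mem _ hn'⟩)
  · intro n hn n' hn' he
    have h1 := Finset.mem_filter.1 (Finset.mem_coe.1 hn)
    have h2 := Finset.mem_filter.1 (Finset.mem_coe.1 hn')
    have he1 : K.tokB n = K.tokB n' := congrArg Prod.fst he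
    have he2 : sl K Q i (K.a n) = sl K Q i (K.a n') := congrArg Prod.snd he
    rcases lt_trichotomy n n' with hlt | heq | hlt
    · have := no_return hTok hMono K Q i (hE n h1.1) (hE n' h2.1) hlt he1 h1.2
      omega
    · exact heq
    · have := no_return hTok hMono K Q i (hE n' h2.1) (hE n h1.1) hlt he1.symm h2.2
      omega

end XIN

theorem I_IN (hTok : StTok) (hMono : StMono) (hNest : StNest) (hQ1 : StQ1) (hQ2 : StQ2) :
    StIN := by
  intro ι _ _ X hX i _ hB
  have h0 : X.OK0 := hX.toOK0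
  obtain ⟨hE, _⟩ := hQ1 ι X h0
  have hT := (hQ2 ι X h0 0 (Nat.zero_le _)).2 false
  have hQ : 1 ≤ X.Q := le_trans (by norm_num) h0.hQ
  obtain ⟨_, _, _, _, _, hbx, _⟩ := hNest ι X.K X.Q hQ
  rcases Nat.eq_zero_or_pos
    (X.E.filter (fun n => sl X.K X.Q i (X.K.a n) ≠ sl X.K X.Q i (X.K.b n))).card with hz | hpos
  · rw [hz]
    simp
  have hc := XIN.card_le hTok hMono X.K X.Q i X.E (fun n hn => (h0.sub n hn).1)
  have h1 : X.lg (im X.E (fun n => X.K.tokB n)) ≤ X.lT false 0 := by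
    refine h0.lg_im_le _ _ ?_
    intro n _ k _ hnk
    exact congrArg Prod.snd hnk
  have h2 : X.lg (im X.E (fun n => sl X.K X.Q i (X.K.a n))) ≤ X.lB i := by
    refine h0.lg_im_le _ _ ?_
    intro n _ k _ hnk
    have e := congrArg Prod.fst hnk
    have e1 := hbx i (X.K.a n)
    have e2 := hbx i (X.K.a k)
    change (bx X.K X.Q i (X.K.a n)).1 = (bx X.K X.Q i (X.K.a k)).1 at e
    change sl X.K X.Q i (X.K.a n) = sl X.K X.Q i (X.K.a k)
    rw [← e1, ← e2]
    exact e
  have p1 := h0.im_pos (fun n => X.K.tokB n)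
  have p2 := h0.im_pos (fun n => sl X.K X.Q i (X.K.a n))
  have hcR : ((X.E.filter (fun n => sl X.K X.Q i (X.K.a n) ≠ sl X.K X.Q i (X.K.b n))).card : ℝ) ≤
      (im X.E (fun n => X.K.tokB n) : ℝ) * (im X.E (fun n => sl X.K X.Q i (X.K.a n)) : ℝ) := by
    exact_mod_cast hc
  have hposR : (0 : ℝ) <
      ((X.E.filter (fun n => sl X.K X.Q i (X.K.a n) ≠ sl X.K X.Q i (X.K.b n))).card : ℝ) := by
    exact_mod_cast hpos
  have h3 := h0.lg_le hposR hcR
  rw [h0.lg_mul (by linarith) (by linarith)] at h3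
  have hw := h0.hw
  have hs1 := h0.hs1
  have hJ : (0 : ℝ) ≤ X.J := Nat.cast_nonneg _
  have hg : (0 : ℝ) ≤ X.g := Nat.cast_nonneg _
  have hsJ : X.s * X.J ≤ X.J := by nlinarith
  have hl2 := h0.lg2_le
  have key : X.lg (2 * ((X.E.filter
      (fun n => sl X.K X.Q i (X.K.a n) ≠ sl X.K X.Q i (X.K.b n))).card : ℝ)) ≤
      X.lg (X.E.card : ℝ) := by
    rw [h0.lg_mul (by norm_num) hposR]
    have hE' : 4 / 3 * X.w - 2 ≤ X.lg (X.E.card : ℝ) := hE
    simp only [Nat.cast_zero, mul_zero, zero_div, add_zero] at hT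
    linarith
  have hfin := h0.le_of_lg (by linarith) h0.card_pos key
  exact_mod_cast hfin

end Pool.Agent.Work.MP_e17eac_co.PS
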