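import Pool.Agent.Work.MP_e17eac_co.PS.Reg

/-!
# Project PS: consequences of the relations between the exponents
-/

namespace Pool.Agent.Work.MP_e17eac_co.PS

namespace LIN

variable {s : ℝ} {g J I : ℕ} {f : ℕ → ℕ} {b : ℕ → ℝ} {G : ℕ → ℕ → ℝ}

theorem pin_up (h : Ex s g J I f b G) {j0 j : ℕ} (hg : g ≤ j0) (hj : j0 ≤ j) (hJ : j + g ≤ J)
    (hs : s * j ≤ 2 * (s * j0) - (40 * g + 600)) :
    G j (f j0) ≤ 3 / 4 * (s * j) - 1 / 2 * (s * j0) + b (f j0) + 9 * g + 80 := by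
  rcases h.F j0 j hj hJ with h1 | h1
  · exfalso
    have hA := h.A j (f j0) (hg.trans hj) hJ (h.mono j0 j hj hJ)
    have p1 := h.P2 j hJ
    have p2 := h.P2 j0 (by omega)
    linarith
  · exact h1

theorem pin_lo (h : Ex s g J I f b G) {j0 j : ℕ} (hg : g ≤ j0) (hj : j0 ≤ j) (hJ : j + g ≤ J) :
    3 / 4 * (s * j) + 1 / 2 * (s * j0) - 4 * g - 110 ≤ G j (f j0) := by
  have hA := h.A j (f j0) (hg.trans hj) hJ (h.mono j0 j hj hJ)
  have p1 := h.P2 j hJ
  have p2 := h.P2 j0 (by omega)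
  linarith

theorem e_step (h : Ex s g J I f b G) {j0 j : ℕ} (hg : g ≤ j0) (hj : j0 ≤ j) (hJ : j + g ≤ J)
    (hs : s * j ≤ 2 * (s * j0) - (40 * g + 600)) :
    b (f j) - s * j ≤ b (f j0) - s * j0 + (26 * g + 220) := by
  have hA := h.A j (f j0) (hg.trans hj) hJ (h.mono j0 j hj hJ)
  have h1 := pin_up h hg hj hJ hs
  linarith

theorem e_start (h : Ex s g J I f b G) (hs0 : 0 ≤ s) (hs1 : s ≤ 1) (hgJ : 2 * g ≤ J) {j : ℕ}
    (hJ : j + g ≤ J) (hs : s * j ≤ 3 * (40 * g + 600)) :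
    b (f j) - s * j ≤ 72 * g + 972 := by
  have key : ∀ j : ℕ, g ≤ j → j + g ≤ J → b (f j) ≤ 3 / 2 * (s * j) + 12 * g + 72 := by
    intro j hg hJ
    have hA := h.A j (f 0) hg hJ (h.mono 0 j (Nat.zero_le _) hJ)
    have ht := h.triv j (f 0) (by omega) (h.le 0 (by omega))
    have h0 := h.A0
    linarith
  have hg0 : (0 : ℝ) ≤ g := Nat.cast_nonneg g
  rcases le_or_gt g j with hg | hg
  · have := key j hg hJ
    linarith
  · have h1 := key g le_rfl (by omega)
    have h2 := h.bmono (f j) (f g) (h.mono j g hg.le (by omega)) (h.le g (by omega))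
    have h3 : s * (g : ℝ) ≤ 1 * g := mul_le_mul_of_nonneg_right hs1 hg0
    have h4 : 0 ≤ s * (j : ℝ) := mul_nonneg hs0 (Nat.cast_nonneg j)
    linarith

theorem logb_43 : (1 : ℝ) / 3 ≤ Real.logb 2 (4 / 3) := by
  rw [Real.le_logb_iff_rpow_le (by norm_num) (by norm_num)]
  have h1 : ((2 : ℝ) ^ ((1 : ℝ) / 3)) ^ (3 : ℕ) ≤ ((4 : ℝ) / 3) ^ (3 : ℕ) := by
    rw [← Real.rpow_natCast, ← Real.rpow_mul (by norm_num)]
    norm_num
  exact le_of_pow_le_pow_left₀ (by norm_num) (by norm_num) h1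

theorem e_bound (h : Ex s g J I f b G) (hs0 : 0 < s) (hs1 : s ≤ 1) (hgJ : 2 * g ≤ J) :
    ∀ j : ℕ, 1 ≤ j → j + g ≤ J →
      b (f j) - s * j ≤ 72 * g + 972 + 3 * (26 * g + 220) * Real.logb 2 j := by
  intro j
  induction j using Nat.strong_induction_on with
  | _ j ih =>
    intro hj1 hJ
    have hg0 : (0 : ℝ) ≤ g := Nat.cast_nonneg g
    have hj1' : (1 : ℝ) ≤ j := by exact_mod_cast hj1
    have hl0 : 0 ≤ Real.logb 2 j := Real.logb_nonneg (by norm_num) hj1'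
    rcases le_or_gt (s * j) (3 * (40 * g + 600)) with hc | hc
    · have h1 := e_start h hs0.le hs1 hgJ hJ hc
      have h2 : 0 ≤ 3 * (26 * (g : ℝ) + 220) * Real.logb 2 j := by positivity
      linarith
    · have hjbig : 3 * (40 * (g : ℝ) + 600) < j := by
        have : s * (j : ℝ) ≤ 1 * j := mul_le_mul_of_nonneg_right hs1 (by linarith)
        linarith
      have hjb : 3 * (40 * g + 600) < j := by exact_mod_cast hjbig
      -- `j0` = two thirds of `j`
      obtain ⟨j0, hj0a, hj0b⟩ : ∃ j0 : ℕ, 2 * j ≤ 3 * j0 ∧ 4 * j0 ≤ 3 * j := by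
        refine ⟨(2 * j + 2) / 3, ?_, ?_⟩ <;> omega
      have hj0lt : j0 < j := by omega
      have hgj0 : g ≤ j0 := by omega
      have hj0pos : 1 ≤ j0 := by omega
      have ra : 2 * (j : ℝ) ≤ 3 * j0 := by exact_mod_cast hj0a
      have rb : 4 * (j0 : ℝ) ≤ 3 * j := by exact_mod_cast hj0b
      have hsr : s * j ≤ 2 * (s * j0) - (40 * g + 600) := by
        have := mul_le_mul_of_nonneg_left ra hs0.le
        have e1 : s * (2 * (j : ℝ)) = 2 * (s * j) := by ring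
        have e2 : s * (3 * (j0 : ℝ)) = 3 * (s * j0) := by ring
        rw [e1, e2] at this
        linarith
      have hst := e_step h hgj0 hj0lt.le hJ hsr
      have hih := ih j0 hj0lt hj0pos (by omega)
      have hj0r : (0 : ℝ) < j0 := by exact_mod_cast hj0pos
      have hlog : Real.logb 2 j0 + 1 / 3 ≤ Real.logb 2 j := by
        have h43 := logb_43
        have e : Real.logb 2 ((4 / 3) * (j0 : ℝ)) = Real.logb 2 (4 / 3) + Real.logb 2 j0 :=
          Real.logb_mul (by norm_num) hj0r.ne'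
        have hle : Real.logb 2 ((4 / 3) * (j0 : ℝ)) ≤ Real.logb 2 j :=
          Real.logb_le_logb_of_le (by norm_num) (by positivity) (by linarith)
        linarith
      have hD : (0 : ℝ) ≤ 3 * (26 * g + 220) := by positivity
      have := mul_le_mul_of_nonneg_left hlog hD
      nlinarith

theorem third (h : Ex s g J I f b G) {es : ℝ} {j0 j : ℕ} (he : b (f j0) - s * j0 ≤ es)
    (hg : g ≤ j0) (hj : j0 ≤ j) (hJ : j + g ≤ J)
    (hs : s * j ≤ 2 * (s * j0) - (40 * g + 600)) :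
    s * ((j : ℝ) - j0) / 2 - (es + 9 * g + 181) ≤ G j (f j) - G j (f j0) := by
  have h1 := pin_up h hg hj hJ hs
  have h2 := h.q5 j (f j) (by omega) (h.le j hJ)
  have h3 := h.P2 j hJ
  have e : s * ((j : ℝ) - j0) / 2 = s * j / 2 - s * j0 / 2 := by ring
  rw [e]
  linarith

/-- One step: upper bound for the increase of `f`. -/
theorem step (h : Ex s g J I f b G) (hs0 : 0 < s) {es : ℝ} {j' j'' j : ℕ}
    (he : b (f j') - s * j' ≤ es) (hg : g ≤ j') (hj' : j' ≤ j'') (hj : j'' ≤ j) (hJ : j + g ≤ J)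
    (hu : 2 * es + 30 * g + 400 ≤ s * ((j'' : ℝ) - j'))
    (hs : s * j ≤ 2 * (s * j') - (60 * g + 600)) :
    (f j : ℝ) - f j'' ≤ 2 * ((j : ℝ) - j') + (52 * g + 508) / s + g + 4 := by
  have hg0 : (0 : ℝ) ≤ g := Nat.cast_nonneg g
  have hs' : s * j ≤ 2 * (s * j') - (40 * g + 600) := by linarith
  have hP := pin_up h hg (hj'.trans hj) hJ hs'
  have hL := pin_lo h (hg.trans hj') hj hJ
  have eu : s * ((j'' : ℝ) - j') = s * j'' - s * j' := by ring
  rw [eu] at hu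
  have hgap : 2 * (g : ℝ) + 2 ≤ G j (f j'') - G j (f j') := by linarith
  have hmono : f j' ≤ f j'' := h.mono j' j'' hj' (by omega)
  have hmono2 : f j'' ≤ f j := h.mono j'' j hj hJ
  -- the main inequality for `l`
  have main : ∀ l : ℕ, l ≤ j → (l = 0 ∨ l + g + 4 + f j'' ≤ f j) →
      s * l ≤ 2 * (s * j) - 2 * (s * j') + 52 * g + 508 := by
    intro l hl hl0
    have hB := h.B j l (f j') (f j'') hJ hmono hmono2 hl hl0 hgap
    have q1 := h.q5 j (f j) (by omega) (h.le j hJ)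
    have q2 := h.q5 l (f j) (by omega) (h.le j hJ)
    linarith
  have hsj : s * (j : ℝ) < s * j + 1 := by linarith
  rcases Nat.lt_or_ge j (f j - f j'' - g - 4) with hc | hc
  · exfalso
    have := main j le_rfl (Or.inr (by omega))
    linarith
  · set l := f j - f j'' - g - 4 with hldef
    have hm := main l hc (by omega)
    have hf : f j ≤ f j'' + l + g + 4 := by omega
    have hfr : (f j : ℝ) ≤ f j'' + l + g + 4 := by exact_mod_cast hf
    have hl : (l : ℝ) ≤ 2 * ((j : ℝ) - j') + (52 * g + 508) / s := by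
      have e : 2 * ((j : ℝ) - j') + (52 * g + 508) / s =
          (2 * (s * j) - 2 * (s * j') + 52 * g + 508) / s := by
        field_simp
        ring
      rw [e, le_div_iff₀ hs0]
      linarith
    linarith

theorem step2 (h : Ex s g J I f b G) (hs0 : 0 < s) (hs1 : s ≤ 1) {es : ℝ} (hes : 0 ≤ es)
    (he : ∀ j, j + g ≤ J → b (f j) - s * j ≤ es) {j'' j : ℕ} (hj : j'' ≤ j) (hJ : j + g ≤ J)
    (h32 : 2 * j ≤ 3 * j'') (hbig : 8 * es + 240 * g + 2804 ≤ s * j'') :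
    s * ((f j : ℝ) - f j'') ≤ 2 * s * ((j : ℝ) - j'') + (4 * es + 113 * g + 1314) := by
  have hg0 : (0 : ℝ) ≤ g := Nat.cast_nonneg g
  obtain ⟨u, hu1, hu2⟩ : ∃ u : ℕ, 2 * es + 30 * g + 400 ≤ s * u ∧
      s * u ≤ 2 * es + 30 * g + 401 := by
    refine ⟨⌈(2 * es + 30 * g + 400) / s⌉₊, ?_, ?_⟩
    · have := Nat.le_ceil ((2 * es + 30 * g + 400) / s)
      rw [div_le_iff₀ hs0] at this
      linarith
    · have h1 : (0 : ℝ) ≤ (2 * es + 30 * g + 400) / s := by positivity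
      have h2 := (Nat.ceil_lt_add_one h1).le
      have h3 := mul_le_mul_of_nonneg_left h2 hs0.le
      have h4 : s * ((2 * es + 30 * g + 400) / s + 1) = 2 * es + 30 * g + 400 + s := by
        field_simp
      rw [h4] at h3
      linarith
  have huj : u ≤ j'' := by
    have h1 : s * (u : ℝ) ≤ s * j'' := by linarith
    have h2 : (u : ℝ) ≤ j'' := le_of_mul_le_mul_left h1 hs0
    exact_mod_cast h2
  obtain ⟨j', rfl⟩ : ∃ j' : ℕ, j'' = j' + u := ⟨j'' - u, by omega⟩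
  have e1 : s * ((j' + u : ℕ) : ℝ) = s * j' + s * u := by push_cast; ring
  rw [e1] at hbig
  have hj'0 : (0 : ℝ) ≤ j' := Nat.cast_nonneg j'
  have hgj' : g ≤ j' := by
    have h1 : s * (j' : ℝ) ≤ 1 * j' := mul_le_mul_of_nonneg_right hs1 hj'0
    have h2 : (g : ℝ) ≤ j' := by linarith
    exact_mod_cast h2
  have hsr : s * j ≤ 2 * (s * j') - (60 * g + 600) := by
    have h1 : 2 * (j : ℝ) ≤ 3 * ((j' + u : ℕ) : ℝ) := by exact_mod_cast h32
    have h2 := mul_le_mul_of_nonneg_left h1 hs0.le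
    have e2 : s * (2 * (j : ℝ)) = 2 * (s * j) := by ring
    have e3 : s * (3 * ((j' + u : ℕ) : ℝ)) = 3 * (s * j' + s * u) := by push_cast; ring
    rw [e2, e3] at h2
    linarith
  have hst := step h hs0 (he j' (by omega)) hgj' (by omega : j' ≤ j' + u) hj hJ (by
    push_cast
    have e4 : s * ((j' : ℝ) + u - j') = s * u := by ring
    rw [e4]
    exact hu1) hsr
  have h5 := mul_le_mul_of_nonneg_left hst hs0.le
  have e5 : s * (2 * ((j : ℝ) - j') + (52 * g + 508) / s + g + 4) =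
      2 * s * ((j : ℝ) - ((j' + u : ℕ) : ℝ)) + 2 * (s * u) + (52 * g + 508) + s * g + 4 * s := by
    push_cast
    field_simp
    ring
  rw [e5] at h5
  have h6 : s * (g : ℝ) ≤ 1 * g := mul_le_mul_of_nonneg_right hs1 hg0
  linarith

theorem step3 (h : Ex s g J I f b G) (hs0 : 0 < s) (hs1 : s ≤ 1) {es : ℝ} (hes : 0 ≤ es)
    (he : ∀ j, j + g ≤ J → b (f j) - s * j ≤ es) {j1 j2 : ℕ} (hj : j1 ≤ j2) (hJ : j2 + g ≤ J)
    (h32 : 10 * j2 ≤ 22 * j1) (hbig : 8 * es + 240 * g + 2804 ≤ s * j1) :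
    s * ((f j2 : ℝ) - f j1) ≤ 2 * s * ((j2 : ℝ) - j1) + 2 * (4 * es + 113 * g + 1314) := by
  have hg0 : (0 : ℝ) ≤ g := Nat.cast_nonneg g
  have hj10 : (0 : ℝ) ≤ j1 := Nat.cast_nonneg j1
  have h15 : 15 ≤ j1 := by
    have h1 : s * (j1 : ℝ) ≤ 1 * j1 := mul_le_mul_of_nonneg_right hs1 hj10
    have h2 : (15 : ℝ) ≤ j1 := by linarith
    exact_mod_cast h2
  obtain ⟨m, hm1, hm2, hm3, hm4⟩ : ∃ m : ℕ, j1 ≤ m ∧ m ≤ j2 ∧ 2 * m ≤ 3 * j1 ∧
      2 * j2 ≤ 3 * m := by
    rcases le_or_gt (2 * j2) (3 * j1) with hc | hc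
    · exact ⟨j2, hj, le_rfl, hc, by omega⟩
    · exact ⟨3 * j1 / 2, by omega, by omega, by omega, by omega⟩
  have s1 := step2 h hs0 hs1 hes he hm1 (by omega) hm3 hbig
  have hbig2 : 8 * es + 240 * g + 2804 ≤ s * m := by
    have : s * (j1 : ℝ) ≤ s * m := mul_le_mul_of_nonneg_left (by exact_mod_cast hm1) hs0.le
    linarith
  have s2 := step2 h hs0 hs1 hes he hm2 hJ hm4 hbig2
  have e1 : s * ((f j2 : ℝ) - f j1) = s * ((f j2 : ℝ) - f m) + s * ((f m : ℝ) - f j1) := by ring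
  rw [e1]
  linarith

theorem lowf (h : Ex s g J I f b G) (hs0 : 0 < s) (hs1 : s ≤ 1) {es : ℝ} (hes : 0 ≤ es)
    (he : ∀ j, j + g ≤ J → b (f j) - s * j ≤ es) {j0 j1 j2 : ℕ} (hj0 : j0 ≤ j1) (hj : j1 ≤ j2)
    (hj2 : j2 ≤ 2 * j0) (hJ : 3 * j0 + g ≤ J) (hbig : 8 * es + 240 * g + 2804 ≤ s * j0)
    (hbig2 : 20 * es + 930 ≤ s * j0) :
    2 * s * ((j2 : ℝ) - j1) - (20 * es + 452 * g + 5442) ≤ s * ((f j2 : ℝ) - f j1) := by
  have hg0 : (0 : ℝ) ≤ g := Nat.cast_nonneg g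
  have hj00 : (0 : ℝ) ≤ j0 := Nat.cast_nonneg j0
  obtain ⟨T, hT1, hT2⟩ : ∃ T : ℕ, 4 * es + 185 ≤ s * T ∧ s * T ≤ 4 * es + 186 := by
    refine ⟨⌈(4 * es + 185) / s⌉₊, ?_, ?_⟩
    · have := Nat.le_ceil ((4 * es + 185) / s)
      rw [div_le_iff₀ hs0] at this
      linarith
    · have h1 : (0 : ℝ) ≤ (4 * es + 185) / s := by positivity
      have h2 := (Nat.ceil_lt_add_one h1).le
      have h3 := mul_le_mul_of_nonneg_left h2 hs0.le
      have h4 : s * ((4 * es + 185) / s + 1) = 4 * es + 185 + s := by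
        field_simp
      rw [h4] at h3
      linarith
  have h5T : 5 * T ≤ j0 := by
    have h1 : s * (5 * (T : ℝ)) ≤ s * j0 := by
      have e : s * (5 * (T : ℝ)) = 5 * (s * T) := by ring
      rw [e]
      linarith
    have h2 : 5 * (T : ℝ) ≤ j0 := le_of_mul_le_mul_left h1 hs0
    exact_mod_cast h2
  have hj1000 : 1 ≤ j0 := by
    have h1 : s * (j0 : ℝ) ≤ 1 * j0 := mul_le_mul_of_nonneg_right hs1 hj00
    have h2 : (1 : ℝ) ≤ j0 := by linarith
    exact_mod_cast h2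
  have hLo := h.Lo j0 (2 * j0 + T) (by omega) (by omega) (by
    have h1 := he j0 (by omega)
    have e1 : s * ((2 * j0 + T : ℕ) : ℝ) / 4 = s * j0 / 2 + s * T / 4 := by push_cast; ring
    rw [e1]
    linarith)
  have hLor : (f j0 : ℝ) + (2 * j0 + T) ≤ f (2 * j0 + T) := by exact_mod_cast hLo
  have a1 := step3 h hs0 hs1 hes he hj0 (by omega) (by omega) hbig
  have hbig3 : 8 * es + 240 * g + 2804 ≤ s * j2 := by
    have : s * (j0 : ℝ) ≤ s * j2 :=
      mul_le_mul_of_nonneg_left (by exact_mod_cast hj0.trans hj) hs0.le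
    linarith
  have a2 := step3 h hs0 hs1 hes he (j1 := j2) (j2 := 2 * j0 + T) (by omega) (by omega)
    (by omega) hbig3
  push_cast at a2
  have e3 := mul_le_mul_of_nonneg_left hLor hs0.le
  have e4 : s * ((f j0 : ℝ) + (2 * j0 + T)) = s * f j0 + 2 * (s * j0) + s * T := by ring
  rw [e4] at e3
  have e5 : s * ((f j1 : ℝ) - f j0) = s * f j1 - s * f j0 := by ring
  have e6 : 2 * s * ((j1 : ℝ) - j0) = 2 * (s * j1) - 2 * (s * j0) := by ring
  have e7 : s * ((f (2 * j0 + T) : ℝ) - f j2) = s * f (2 * j0 + T) - s * f j2 := by ring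
  have e8 : 2 * s * ((2 * (j0 : ℝ) + T) - j2) = 4 * (s * j0) + 2 * (s * T) - 2 * (s * j2) := by
    ring
  have e9 : 2 * s * ((j2 : ℝ) - j1) = 2 * (s * j2) - 2 * (s * j1) := by ring
  have e10 : s * ((f j2 : ℝ) - f j1) = s * f j2 - s * f j1 := by ring
  rw [e5, e6] at a1
  rw [e7, e8] at a2
  rw [e9, e10]
  linarith

end LIN

open LIN in
theorem I_LIN : StLin := by
  intro σ hσ g
  have hg0 : (0 : ℝ) ≤ g := Nat.cast_nonneg g
  refine ⟨10000 * (g + 10) / σ + 1, by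
    have : (0 : ℝ) ≤ 10000 * (g + 10) / σ := by positivity
    linarith, ?_⟩
  intro s J I f b G hσs hs1 hsg hJ2 hgJ h
  have hs0 : 0 < s := lt_of_lt_of_le hσ hσs
  have hσ1 : σ ≤ 1 := hσs.trans hs1
  set C : ℝ := 10000 * (g + 10) / σ + 1 with hCdef
  set ℓ : ℝ := Real.logb 2 J with hℓdef
  have hJr : (2 : ℝ) ≤ J := by exact_mod_cast hJ2
  have hℓ1 : 1 ≤ ℓ := by
    rw [hℓdef, Real.le_logb_iff_rpow_le (by norm_num) (by linarith)]
    rw [Real.rpow_one]
    exact hJr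
  have hCs : 10000 * ((g : ℝ) + 10) ≤ s * C := by
    have h1 : s * (10000 * (g + 10) / σ) = (s / σ) * (10000 * (g + 10)) := by
      field_simp
    have h2 : 1 ≤ s / σ := by rw [le_div_iff₀ hσ]; linarith
    have h3 : 1 * (10000 * ((g : ℝ) + 10)) ≤ (s / σ) * (10000 * (g + 10)) :=
      mul_le_mul_of_nonneg_right h2 (by positivity)
    have h4 : s * C = s * (10000 * (g + 10) / σ) + s := by rw [hCdef]; ring
    rw [h4, h1]
    linarith
  have hCs' : 10000 * ((g : ℝ) + 10) * ℓ ≤ s * (C * ℓ) := by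
    have := mul_le_mul_of_nonneg_right hCs (by linarith : (0 : ℝ) ≤ ℓ)
    rw [← mul_assoc]
    exact this
  have hC0 : 0 ≤ C := by rw [hCdef]; positivity
  have hC1 : 10000 * ((g : ℝ) + 10) * ℓ ≤ C * ℓ := by
    have h1 : s * (C * ℓ) ≤ 1 * (C * ℓ) :=
      mul_le_mul_of_nonneg_right hs1 (mul_nonneg hC0 (by linarith))
    linarith
  set es : ℝ := (150 * g + 1712) * ℓ with hesdef
  have hes0 : 0 ≤ es := by rw [hesdef]; positivity
  have hgℓ : (g : ℝ) ≤ g * ℓ := by nlinarith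
  have hes1 : es = 150 * ((g : ℝ) * ℓ) + 1712 * ℓ := by rw [hesdef]; ring
  have hbnd : 10000 * ((g : ℝ) + 10) * ℓ = 10000 * ((g : ℝ) * ℓ) + 100000 * ℓ := by ring
  have hb : ∀ j, j + g ≤ J → b (f j) - s * j ≤ es := by
    intro j hj
    rcases Nat.eq_zero_or_pos j with rfl | hj0
    · have := e_start h hs0.le hs1 hgJ hj (by
        push_cast
        have : (0 : ℝ) ≤ 3 * (40 * g + 600) := by positivity
        linarith)
      linarith
    · have h1 := e_bound h hs0 hs1 hgJ j hj0 hj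
      have h2 : Real.logb 2 j ≤ ℓ := by
        apply Real.logb_le_logb_of_le (by norm_num) (by exact_mod_cast hj0)
        exact_mod_cast (by omega : j ≤ J)
      have h3 := mul_le_mul_of_nonneg_left h2 (by positivity : (0 : ℝ) ≤ 3 * (26 * g + 220))
      have e : 3 * (26 * (g : ℝ) + 220) * ℓ = 78 * ((g : ℝ) * ℓ) + 660 * ℓ := by ring
      linarith
  refine ⟨?_, ?_⟩
  · intro j hj
    have h1 := hb j hj
    have h2 := h.P2 j hj
    rw [abs_le]
    constructor <;> linarith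
  · intro j0 hj0 hJ0
    have hM : 10000 * ((g : ℝ) * ℓ) + 100000 * ℓ ≤ s * j0 := by
      have := mul_le_mul_of_nonneg_left hj0 hs0.le
      linarith
    have hj00 : (0 : ℝ) ≤ j0 := Nat.cast_nonneg j0
    have hbig : 8 * es + 240 * g + 2804 ≤ s * j0 := by linarith
    have hbig2 : 20 * es + 930 ≤ s * j0 := by linarith
    have hgj0 : g ≤ j0 := by
      have h1 : s * (j0 : ℝ) ≤ 1 * j0 := mul_le_mul_of_nonneg_right hs1 hj00
      have h2 : (g : ℝ) ≤ j0 := by linarith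
      exact_mod_cast h2
    have h100 : 1 ≤ j0 := by
      have h1 : s * (j0 : ℝ) ≤ 1 * j0 := mul_le_mul_of_nonneg_right hs1 hj00
      have h2 : (1 : ℝ) ≤ j0 := by linarith
      exact_mod_cast h2
    refine ⟨?_, ?_⟩
    · intro j1 j2 h01 h12 h20
      have hbig1 : 8 * es + 240 * g + 2804 ≤ s * j1 := by
        have : s * (j0 : ℝ) ≤ s * j1 := mul_le_mul_of_nonneg_left (by exact_mod_cast h01) hs0.le
        linarith
      have hup := step3 h hs0 hs1 hes0 hb h12 (by omega) (by omega) hbig1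
      have hlo := lowf h hs0 hs1 hes0 hb h01 h12 h20 hJ0 hbig hbig2
      have hup' : s * ((f j2 : ℝ) - f j1 - 2 * ((j2 : ℝ) - j1)) ≤ s * (C * ℓ) := by
        have e : s * ((f j2 : ℝ) - f j1 - 2 * ((j2 : ℝ) - j1)) =
            s * ((f j2 : ℝ) - f j1) - 2 * s * ((j2 : ℝ) - j1) := by ring
        rw [e]
        linarith
      have hlo' : s * (-(C * ℓ)) ≤ s * ((f j2 : ℝ) - f j1 - 2 * ((j2 : ℝ) - j1)) := by
        have e : s * ((f j2 : ℝ) - f j1 - 2 * ((j2 : ℝ) - j1)) =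
            s * ((f j2 : ℝ) - f j1) - 2 * s * ((j2 : ℝ) - j1) := by ring
        rw [e, mul_neg]
        linarith
      rw [abs_le]
      exact ⟨le_of_mul_le_mul_left hlo' hs0, le_of_mul_le_mul_left hup' hs0⟩
    · intro j h0j h32
      have hsr : s * j ≤ 2 * (s * j0) - (40 * g + 600) := by
        have h1 : 2 * (j : ℝ) ≤ 3 * j0 := by exact_mod_cast h32
        have h2 := mul_le_mul_of_nonneg_left h1 hs0.le
        have e2 : s * (2 * (j : ℝ)) = 2 * (s * j) := by ring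
        have e3 : s * (3 * (j0 : ℝ)) = 3 * (s * j0) := by ring
        rw [e2, e3] at h2
        linarith
      have := third h (hb j0 (by omega)) hgj0 h0j (by omega) hsr
      linarith

end Pool.Agent.Work.MP_e17eac_co.PS
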