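import Pool.Agent.Work.MP_e17eac_co.PS.Lg

/-!
# Project PS, block REG: nesting of cells, boxes, slots
-/

set_option autoImplicit false

namespace Pool.Agent.Work.MP_e17eac_co.PS

open Finset
open Pool.Agent.Work.MP_e17eac_co.DH

namespace XNest

theorem nat_nest {Q j j' : ℕ} (hQ : 1 ≤ Q) (h : j ≤ j') (t : ℝ) :
    ⌊t * (Q : ℝ) ^ j⌋₊ = ⌊t * (Q : ℝ) ^ j'⌋₊ / Q ^ (j' - j) := by
  have hne : Q ^ (j' - j) ≠ 0 := pow_ne_zero _ (by omega)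
  have e : t * (Q : ℝ) ^ j' = (t * (Q : ℝ) ^ j) * ((Q ^ (j' - j) : ℕ) : ℝ) := by
    rw [Nat.cast_pow, mul_assoc, ← pow_add, Nat.add_sub_cancel' h]
  rw [e, Nat.mul_cast_floor_div_cancel hne]

theorem int_nest {Q j j' : ℕ} (hQ : 1 ≤ Q) (h : j ≤ j') (t : ℝ) :
    ⌊t * (Q : ℝ) ^ j⌋ = ⌊t * (Q : ℝ) ^ j'⌋ / ((Q ^ (j' - j) : ℕ) : ℤ) := by
  have hne : Q ^ (j' - j) ≠ 0 := pow_ne_zero _ (by omega)
  have e : t * (Q : ℝ) ^ j' = (t * (Q : ℝ) ^ j) * ((Q ^ (j' - j) : ℕ) : ℝ) := by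
    rw [Nat.cast_pow, mul_assoc, ← pow_add, Nat.add_sub_cancel' h]
  rw [e, Int.mul_natCast_floor_div_cancel hne]

theorem abs_le_of_floor {Q i : ℕ} (hQ : 1 ≤ Q) {u v : ℝ}
    (h : ⌊u * (Q : ℝ) ^ i⌋ = ⌊v * (Q : ℝ) ^ i⌋) : |u - v| ≤ 1 / (Q : ℝ) ^ i := by
  have hQ' : (0 : ℝ) < (Q : ℝ) ^ i := by
    have : (0 : ℝ) < Q := by exact_mod_cast hQ
    positivity
  have h1 := Int.abs_sub_lt_one_of_floor_eq_floor h
  rw [← sub_mul, abs_mul, abs_of_pos hQ'] at h1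
  rw [le_div_iff₀ hQ']
  exact h1.le

end XNest

theorem I_Nest : StNest := by
  intro ι _ _ K Q hQ
  have hQ' : ∀ i : ℕ, (0 : ℝ) < (Q : ℝ) ^ i := by
    intro i
    have : (0 : ℝ) < Q := by exact_mod_cast hQ
    positivity
  refine ⟨?_, ?_, ?_, ?_, ?_, ?_, ?_, ?_⟩
  · intro j j' n n' h _ _ e
    rw [KSys.cell, KSys.cell, XNest.nat_nest hQ h, XNest.nat_nest hQ h]
    rw [KSys.cell, KSys.cell] at e
    rw [e]
  · intro j j' n h _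
    rw [KSys.cell, KSys.cell, XNest.nat_nest hQ h]
  · intro j n h
    have hp := hQ' j
    refine ⟨?_, ?_⟩
    · rw [div_le_iff₀ hp]
      exact Nat.floor_le (by positivity)
    · rw [le_div_iff₀ hp]
      exact (Nat.lt_floor_add_one _).le
  · intro i i' p q h e
    have e1 : ⌊K.x p * (Q : ℝ) ^ i'⌋ = ⌊K.x q * (Q : ℝ) ^ i'⌋ := congrArg Prod.fst e
    have e2 : ⌊K.y p * (Q : ℝ) ^ i'⌋ = ⌊K.y q * (Q : ℝ) ^ i'⌋ := congrArg Prod.snd e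
    have f1 : ⌊K.x p * (Q : ℝ) ^ i⌋ = ⌊K.x q * (Q : ℝ) ^ i⌋ := by
      rw [XNest.int_nest hQ h (K.x p), XNest.int_nest hQ h (K.x q), e1]
    have f2 : ⌊K.y p * (Q : ℝ) ^ i⌋ = ⌊K.y q * (Q : ℝ) ^ i⌋ := by
      rw [XNest.int_nest hQ h (K.y p), XNest.int_nest hQ h (K.y q), e2]
    exact Prod.ext f1 f2
  · intro i i' p q h e
    have e1 : ⌊K.x p * (Q : ℝ) ^ i'⌋ = ⌊K.x q * (Q : ℝ) ^ i'⌋ := e
    show ⌊K.x p * (Q : ℝ) ^ i⌋ = ⌊K.x q * (Q : ℝ) ^ i⌋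
    rw [XNest.int_nest hQ h (K.x p), XNest.int_nest hQ h (K.x q), e1]
  · intro i p
    rfl
  · intro i p q r e h0 h1
    have e1 : ⌊K.x p * (Q : ℝ) ^ i⌋ = ⌊K.x q * (Q : ℝ) ^ i⌋ := congrArg Prod.fst e
    have e2 : ⌊K.y p * (Q : ℝ) ^ i⌋ = ⌊K.y q * (Q : ℝ) ^ i⌋ := congrArg Prod.snd e
    have g1 := XNest.abs_le_of_floor hQ e1
    have g2 := XNest.abs_le_of_floor hQ e2
    refine ⟨?_, g1⟩
    have e3 : K.ht p r - K.ht q r = (K.y p - K.y q) + (K.x p - K.x q) * r := by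
      simp only [KSys.ht]; ring
    rw [e3]
    calc |(K.y p - K.y q) + (K.x p - K.x q) * r|
        ≤ |K.y p - K.y q| + |(K.x p - K.x q) * r| := abs_add_le _ _
      _ = |K.y p - K.y q| + |K.x p - K.x q| * r := by rw [abs_mul, abs_of_nonneg h0]
      _ ≤ 1 / (Q : ℝ) ^ i + 1 / (Q : ℝ) ^ i * 1 := by
          have := hQ' i
          gcongr
      _ = 2 / (Q : ℝ) ^ i := by ring
  · intro n h0 h1
    rw [KSys.cell, pow_zero, mul_one]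
    exact Nat.floor_eq_zero.2 h1

end Pool.Agent.Work.MP_e17eac_co.PS
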