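import Pool.Agent.Work.MP_e17eac_co.PS.Lg

/-!
# Project PS, block REG, item P2a: upper bound for the crossings with equal boxes
-/

namespace Pool.Agent.Work.MP_e17eac_co.PS

open Finset
open Pool.Agent.Work.MP_e17eac_co.DH

namespace XP2a

/-- Counting pairs. -/
theorem count {β κ : Type} [DecidableEq β] [DecidableEq κ] (E : Finset ℕ) (Z : Finset (ℕ × ℕ))
    (c : ℕ → ℕ) (b : ℕ → β) (τ0 τ1 : ℕ → κ) (D T0 T1 : ℝ) (hT0 : 0 ≤ T0) (hT1 : 0 ≤ T1)
    (hZ : ∀ z ∈ Z, z.1 ∈ E ∧ z.2 ∈ E ∧ b z.1 = b z.2)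
    (hinj : ∀ z ∈ Z, ∀ w ∈ Z, τ0 z.1 = τ0 w.1 → τ1 z.2 = τ1 w.2 → z = w)
    (h0 : ∀ n ∈ E, (im (E.filter (fun k => c k = c n)) τ0 : ℝ) ≤ T0)
    (h1 : ∀ n ∈ E, (im (E.filter (fun k => c k = c n)) τ1 : ℝ) ≤ T1)
    (hD : ∀ n ∈ E, (im (E.filter (fun k => b k = b n)) c : ℝ) ≤ D) :
    (Z.card : ℝ) ≤ (im E b : ℝ) * D ^ 2 * (T0 * T1) := by
  -- the pairs of cells
  have hP : ((Z.image (fun z => (c z.1, c z.2))).card : ℝ) ≤ (im E b : ℝ) * D ^ 2 := by
    have hsub : Z.image (fun z => (c z.1, c z.2)) ⊆ (E.image b).biUnion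
        (fun B => ((E.filter (fun k => b k = B)).image c) ×ˢ
          ((E.filter (fun k => b k = B)).image c)) := by
      intro p hp
      obtain ⟨z, hz, rfl⟩ := Finset.mem_image.mp hp
      obtain ⟨h2, h3, h4⟩ := hZ z hz
      rw [Finset.mem_biUnion]
      refine ⟨b z.1, Finset.mem_image_of_mem b h2, ?_⟩
      rw [Finset.mem_product]
      exact ⟨Finset.mem_image.mpr ⟨z.1, Finset.mem_filter.mpr ⟨h2, rfl⟩, rfl⟩,
        Finset.mem_image.mpr ⟨z.2, Finset.mem_filter.mpr ⟨h3, h4.symm⟩, rfl⟩⟩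
    have h5 : ((Z.image (fun z => (c z.1, c z.2))).card : ℝ) ≤
        ∑ B ∈ E.image b, ((((E.filter (fun k => b k = B)).image c) ×ˢ
          ((E.filter (fun k => b k = B)).image c)).card : ℝ) := by
      have h6 := (Finset.card_le_card hsub).trans Finset.card_biUnion_le
      exact_mod_cast h6
    have h7 : ∑ B ∈ E.image b, ((((E.filter (fun k => b k = B)).image c) ×ˢ
          ((E.filter (fun k => b k = B)).image c)).card : ℝ) ≤ ∑ _B ∈ E.image b, D ^ 2 := by
      apply Finset.sum_le_sum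
      intro B hB
      obtain ⟨n, hn, rfl⟩ := Finset.mem_image.mp hB
      have h8 := hD n hn
      unfold im at h8
      rw [Finset.card_product]
      push_cast
      rw [pow_two]
      exact mul_le_mul h8 h8 (Nat.cast_nonneg _) ((Nat.cast_nonneg _).trans h8)
    rw [Finset.sum_const, nsmul_eq_mul] at h7
    exact h5.trans h7
  -- the fibres
  have hF : (Z.card : ℝ) ≤ ∑ _p ∈ Z.image (fun z => (c z.1, c z.2)), T0 * T1 := by
    have e : (Z.card : ℝ) = ∑ p ∈ Z.image (fun z => (c z.1, c z.2)),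
        ((Z.filter (fun z => (c z.1, c z.2) = p)).card : ℝ) := by
      exact_mod_cast Finset.card_eq_sum_card_image (fun z : ℕ × ℕ => (c z.1, c z.2)) Z
    rw [e]
    apply Finset.sum_le_sum
    intro p hp
    obtain ⟨w, hw, rfl⟩ := Finset.mem_image.mp hp
    obtain ⟨hw1, hw2, _⟩ := hZ w hw
    have h2 := h0 w.1 hw1
    have h3 := h1 w.2 hw2
    unfold im at h2 h3
    have h4 : (Z.filter (fun z => (c z.1, c z.2) = (c w.1, c w.2))).card ≤
        (((E.filter (fun k => c k = c w.1)).image τ0) ×ˢ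
          ((E.filter (fun k => c k = c w.2)).image τ1)).card := by
      apply Finset.card_le_card_of_injOn (fun z => (τ0 z.1, τ1 z.2))
      · intro z hz
        obtain ⟨hz1, hz2⟩ := Finset.mem_filter.mp (Finset.mem_coe.mp hz)
        obtain ⟨hz3, hz4, _⟩ := hZ z hz1
        obtain ⟨e1, e2⟩ := Prod.mk.inj hz2
        rw [Finset.mem_coe, Finset.mem_product]
        exact ⟨Finset.mem_image.mpr ⟨z.1, Finset.mem_filter.mpr ⟨hz3, e1⟩, rfl⟩,
          Finset.mem_image.mpr ⟨z.2, Finset.mem_filter.mpr ⟨hz4, e2⟩, rfl⟩⟩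
      · intro z hz z' hz' hzz
        obtain ⟨e1, e2⟩ := Prod.mk.inj hzz
        exact hinj z (Finset.mem_filter.mp (Finset.mem_coe.mp hz)).1 z'
          (Finset.mem_filter.mp (Finset.mem_coe.mp hz')).1 e1 e2
    rw [Finset.card_product] at h4
    have h5 : ((Z.filter (fun z => (c z.1, c z.2) = (c w.1, c w.2))).card : ℝ) ≤
        (((E.filter (fun k => c k = c w.1)).image τ0).card : ℝ) *
          (((E.filter (fun k => c k = c w.2)).image τ1).card : ℝ) := by
      exact_mod_cast h4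
    exact h5.trans (mul_le_mul h2 h3 (Nat.cast_nonneg _) hT0)
  rw [Finset.sum_const, nsmul_eq_mul] at hF
  exact hF.trans (mul_le_mul_of_nonneg_right hP (mul_nonneg hT0 hT1))

end XP2a

open XP2a in
/-- (P2), upper bound for the crossings. -/
theorem I_P2a (hCinj : StCinj) (hNest : StNest) : StP2a := by
  have _ := hNest
  classical
  intro ι _ _ X hX j i hj hi
  have h := hX.toOK0
  have hM := h.im_pos (fun n => X.cl j n)
  have hβ := h.im_pos (fun n => X.box i n)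
  have hG := h.im_pos (fun n => (X.cl j n, X.box i n))
  have hP0 := h.im_pos (fun n => (X.cl j n, X.K.tok false n))
  have hP1 := h.im_pos (fun n => (X.cl j n, X.K.tok true n))
  have hL := h.L_pos
  have hl := h.lgL_le
  have hl0 := h.lgL_nonneg
  have hlG : X.lG j i = X.lg (im X.E (fun n => (X.cl j n, X.box i n))) := rfl
  have hlB : X.lB i = X.lg (im X.E (fun n => X.box i n)) := rfl
  have hlT0 : X.lT false j = X.lg (im X.E (fun n => (X.cl j n, X.K.tok false n))) := rfl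
  have hlT1 : X.lT true j = X.lg (im X.E (fun n => (X.cl j n, X.K.tok true n))) := rfl
  have hlM : X.lM j = X.lg (im X.E (fun n => X.cl j n)) := rfl
  have g1 : X.lB i ≤ X.lG j i := by
    rw [hlG, hlB]
    apply h.lg_im_le
    intro n _ k _ hnk
    exact (Prod.mk.inj hnk).2
  have g0 : 0 ≤ X.lB i := by
    rw [hlB]
    exact h.lg_im_nonneg _
  have g2 : X.lM j ≤ X.lT false j := by
    rw [hlM, hlT0]
    apply h.lg_im_le
    intro n _ k _ hnk
    exact (Prod.mk.inj hnk).1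
  have g3 : X.lM j ≤ X.lT true j := by
    rw [hlM, hlT1]
    apply h.lg_im_le
    intro n _ k _ hnk
    exact (Prod.mk.inj hnk).1
  rcases Nat.eq_zero_or_pos (X.crossB i).card with hz | hpos
  · rw [hz]
    have e0 : X.lg ((0 : ℕ) : ℝ) = 0 := by
      unfold RS.lg
      rw [Nat.cast_zero, Real.logb_zero]
    rw [e0]
    linarith
  have hZ : ∀ z ∈ X.crossB i, z.1 ∈ X.E ∧ z.2 ∈ X.E ∧ z.1 < z.2 ∧ X.K.Cross z.1 z.2 ∧
      X.box i z.1 = X.box i z.2 := by
    intro z hz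
    unfold RS.crossB at hz
    rw [Finset.mem_filter, Finset.mem_product] at hz
    exact ⟨hz.1.1, hz.1.2, hz.2.1, hz.2.2.1, hz.2.2.2⟩
  -- token counts
  have hT : ∀ p : Bool, ∀ n ∈ X.E,
      (im (X.E.filter (fun k => X.cl j k = X.cl j n)) (fun n => X.K.tok p n) : ℝ) ≤
        X.Λ ^ 2 * (im X.E (fun n => (X.cl j n, X.K.tok p n)) : ℝ) /
          (im X.E (fun n => X.cl j n) : ℝ) := by
    intro p n hn
    rw [le_div_iff₀ (by linarith)]
    have h1 := (h.cnt (fun n => X.cl j n) (fun n => (X.cl j n, X.K.tok p n)) (h.regM j hj)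
      (h.regT p j hj) (fun n _ k _ hnk => (Prod.mk.inj hnk).1) n hn).2
    have h2 : im (X.E.filter (fun k => X.cl j k = X.cl j n)) (fun n => X.K.tok p n) ≤
        im (X.E.filter (fun k => X.cl j k = X.cl j n)) (fun n => (X.cl j n, X.K.tok p n)) :=
      RS.im_le_im _ _ _ (fun n _ k _ hnk => (Prod.mk.inj hnk).2)
    have h3 : (im (X.E.filter (fun k => X.cl j k = X.cl j n)) (fun n => X.K.tok p n) : ℝ) ≤
        (im (X.E.filter (fun k => X.cl j k = X.cl j n))
          (fun n => (X.cl j n, X.K.tok p n)) : ℝ) := by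
      exact_mod_cast h2
    exact (mul_le_mul_of_nonneg_right h3 (by linarith)).trans h1
  have hD : ∀ n ∈ X.E,
      (im (X.E.filter (fun k => X.box i k = X.box i n)) (fun n => X.cl j n) : ℝ) ≤
        X.Λ ^ 2 * (im X.E (fun n => (X.cl j n, X.box i n)) : ℝ) /
          (im X.E (fun n => X.box i n) : ℝ) := by
    intro n hn
    rw [le_div_iff₀ (by linarith)]
    have h1 := (h.cnt (fun n => X.box i n) (fun n => (X.cl j n, X.box i n)) (hX.regB i hi)
      (hX.regG j i hj hi) (fun n _ k _ hnk => (Prod.mk.inj hnk).2) n hn).2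
    have h2 : im (X.E.filter (fun k => X.box i k = X.box i n)) (fun n => X.cl j n) ≤
        im (X.E.filter (fun k => X.box i k = X.box i n)) (fun n => (X.cl j n, X.box i n)) :=
      RS.im_le_im _ _ _ (fun n _ k _ hnk => (Prod.mk.inj hnk).1)
    have h3 : (im (X.E.filter (fun k => X.box i k = X.box i n)) (fun n => X.cl j n) : ℝ) ≤
        (im (X.E.filter (fun k => X.box i k = X.box i n))
          (fun n => (X.cl j n, X.box i n)) : ℝ) := by
      exact_mod_cast h2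
    exact (mul_le_mul_of_nonneg_right h3 (by linarith)).trans h1
  have hinj : ∀ z ∈ X.crossB i, ∀ w ∈ X.crossB i,
      (fun n => X.K.tok false n) z.1 = (fun n => X.K.tok false n) w.1 →
      (fun n => X.K.tok true n) z.2 = (fun n => X.K.tok true n) w.2 → z = w := by
    intro z hz w hw e1 e2
    obtain ⟨z1, z2, z3, z4, _⟩ := hZ z hz
    obtain ⟨w1, w2, w3, w4, _⟩ := hZ w hw
    obtain ⟨e3, e4⟩ := hCinj ι X.K z.1 z.2 w.1 w.2 z3 (h.sub z.2 z2).1 w3 (h.sub w.2 w2).1 z4 w4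
      e1 e2
    exact Prod.ext e3 e4
  have hcount := count X.E (X.crossB i) (fun n => X.cl j n) (fun n => X.box i n)
    (fun n => X.K.tok false n) (fun n => X.K.tok true n)
    (X.Λ ^ 2 * (im X.E (fun n => (X.cl j n, X.box i n)) : ℝ) / (im X.E (fun n => X.box i n) : ℝ))
    (X.Λ ^ 2 * (im X.E (fun n => (X.cl j n, X.K.tok false n)) : ℝ) /
      (im X.E (fun n => X.cl j n) : ℝ))
    (X.Λ ^ 2 * (im X.E (fun n => (X.cl j n, X.K.tok true n)) : ℝ) /
      (im X.E (fun n => X.cl j n) : ℝ))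
    (by positivity) (by positivity)
    (fun z hz => ⟨(hZ z hz).1, (hZ z hz).2.1, (hZ z hz).2.2.2.2⟩) hinj (hT false) (hT true) hD
  have hcard : (0 : ℝ) < ((X.crossB i).card : ℝ) := by exact_mod_cast hpos
  have hlg := h.lg_le hcard hcount
  obtain ⟨M, hMd⟩ : ∃ M : ℝ, M = (im X.E (fun n => X.cl j n) : ℝ) := ⟨_, rfl⟩
  obtain ⟨β, hβd⟩ : ∃ β : ℝ, β = (im X.E (fun n => X.box i n) : ℝ) := ⟨_, rfl⟩
  obtain ⟨G, hGd⟩ : ∃ G : ℝ, G = (im X.E (fun n => (X.cl j n, X.box i n)) : ℝ) := ⟨_, rfl⟩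
  obtain ⟨P0, hP0d⟩ : ∃ P0 : ℝ, P0 = (im X.E (fun n => (X.cl j n, X.K.tok false n)) : ℝ) :=
    ⟨_, rfl⟩
  obtain ⟨P1, hP1d⟩ : ∃ P1 : ℝ, P1 = (im X.E (fun n => (X.cl j n, X.K.tok true n)) : ℝ) :=
    ⟨_, rfl⟩
  rw [← hMd, ← hβd, ← hGd, ← hP0d, ← hP1d] at hlg
  rw [← hMd] at hM hlM
  rw [← hβd] at hβ hlB
  rw [← hGd] at hG hlG
  rw [← hP0d] at hP0 hlT0
  rw [← hP1d] at hP1 hlT1
  have pM : 0 < M := by linarith
  have pβ : 0 < β := by linarith
  have pG : 0 < G := by linarith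
  have pP0 : 0 < P0 := by linarith
  have pP1 : 0 < P1 := by linarith
  have e1 : X.lg (β * (X.Λ ^ 2 * G / β) ^ 2 * (X.Λ ^ 2 * P0 / M * (X.Λ ^ 2 * P1 / M))) =
      X.lg β + 2 * (2 * X.lg X.Λ + X.lg G - X.lg β) +
        ((2 * X.lg X.Λ + X.lg P0 - X.lg M) + (2 * X.lg X.Λ + X.lg P1 - X.lg M)) := by
    rw [h.lg_mul (by positivity) (by positivity), h.lg_mul pβ (by positivity), h.lg_pow,
      h.lg_div (by positivity) pβ, h.lg_mul (by positivity) pG, h.lg_pow,
      h.lg_mul (by positivity) (by positivity), h.lg_div (by positivity) pM,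
      h.lg_div (by positivity) pM, h.lg_mul (by positivity) pP0, h.lg_mul (by positivity) pP1,
      h.lg_pow]
    push_cast
    ring
  rw [e1] at hlg
  rw [hlG, hlB, hlT0, hlT1, hlM]
  linarith

end Pool.Agent.Work.MP_e17eac_co.PS
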