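import Pool.Agent.Work.MP_e17eac_co.PS.Lg

/-!
# (P2), lower bound for the crossings with equal boxes
-/

namespace Pool.Agent.Work.MP_e17eac_co.PS

open Finset
open Pool.Agent.Work.MP_e17eac_co.DH

namespace XP2b

variable {ι : Type} [Fintype ι] [DecidableEq ι]

/-- Floors of close numbers. -/
theorem floor_close {u v : ℝ} (h : |u - v| < 1) : |⌊u⌋ - ⌊v⌋| ≤ 1 := by
  have h1 := Int.floor_le u
  have h2 := Int.lt_floor_add_one u
  have h3 := Int.floor_le v
  have h4 := Int.lt_floor_add_one v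
  rw [abs_lt] at h
  rw [abs_le]
  constructor
  · have h5 : (⌊v⌋ : ℝ) < ⌊u⌋ + 2 := by linarith
    have h6 : ⌊v⌋ < ⌊u⌋ + 2 := by exact_mod_cast h5
    omega
  · have h5 : (⌊u⌋ : ℝ) < ⌊v⌋ + 2 := by linarith
    have h6 : ⌊u⌋ < ⌊v⌋ + 2 := by exact_mod_cast h5
    omega

open Classical in
/-- The visited lines near the box `B`. -/
noncomputable def nb (X : RS ι) (i : ℕ) (B : ℤ × ℤ) : Finset ι :=
  (visC X.K X.Q 0 0).filter (fun q => (bx X.K X.Q i q).1 = B.1 ∧
    |(bx X.K X.Q i q).2 - B.2| ≤ 1)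

theorem v3_eq (X : RS ι) (i n : ℕ) : X.v3 i n = (nb X i (X.box i n)).card := rfl

theorem mem_vis {X : RS ι} (h : X.OK0) {n : ℕ} (hn : n ∈ X.E) :
    X.K.a n ∈ visC X.K X.Q 0 0 ∧ X.K.b n ∈ visC X.K X.Q 0 0 := by
  classical
  obtain ⟨h1, h2, h3⟩ := h.sub n hn
  have hc : X.K.cell X.Q 0 n = 0 := by
    unfold KSys.cell
    rw [pow_zero, mul_one]
    exact Nat.floor_eq_zero.2 h3
  unfold visC KSys.lines
  constructor
  · exact mem_union_left _ (mem_image_of_mem _ (mem_filter.2 ⟨mem_range.2 h1, h2, hc⟩))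
  · exact mem_union_right _ (mem_image_of_mem _ (mem_filter.2 ⟨mem_range.2 h1, h2, hc⟩))

theorem a_mem_nb {X : RS ι} (h : X.OK0) (i : ℕ) {n : ℕ} (hn : n ∈ X.E) :
    X.K.a n ∈ nb X i (X.box i n) := by
  classical
  unfold nb
  refine mem_filter.2 ⟨(mem_vis h hn).1, rfl, ?_⟩
  show |(bx X.K X.Q i (X.K.a n)).2 - (bx X.K X.Q i (X.K.a n)).2| ≤ 1
  simp

theorem b_mem_nb {X : RS ι} (h : X.OK0) (i : ℕ) {n : ℕ} (hn : n ∈ X.E)
    (hs : sl X.K X.Q i (X.K.a n) = sl X.K X.Q i (X.K.b n)) :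
    X.K.b n ∈ nb X i (X.box i n) := by
  classical
  obtain ⟨h1, h2, h3⟩ := h.sub n hn
  have hQ : (0 : ℝ) < (X.Q : ℝ) ^ i := h.Qpow_pos i
  unfold nb
  refine mem_filter.2 ⟨(mem_vis h hn).2, ?_, ?_⟩
  · show sl X.K X.Q i (X.K.b n) = sl X.K X.Q i (X.K.a n)
    exact hs.symm
  · show |⌊X.K.y (X.K.b n) * (X.Q : ℝ) ^ i⌋ - ⌊X.K.y (X.K.a n) * (X.Q : ℝ) ^ i⌋| ≤ 1
    apply floor_close
    have e1 := Int.abs_sub_lt_one_of_floor_eq_floor hs
    have e2 := X.K.meet n h1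
    have e3 : X.K.y (X.K.b n) * (X.Q : ℝ) ^ i - X.K.y (X.K.a n) * (X.Q : ℝ) ^ i =
        (X.K.x (X.K.a n) * (X.Q : ℝ) ^ i - X.K.x (X.K.b n) * (X.Q : ℝ) ^ i) * X.K.t n := by
      have : X.K.y (X.K.b n) - X.K.y (X.K.a n) =
          (X.K.x (X.K.a n) - X.K.x (X.K.b n)) * X.K.t n := by linarith
      calc _ = (X.K.y (X.K.b n) - X.K.y (X.K.a n)) * (X.Q : ℝ) ^ i := by ring
        _ = _ := by rw [this]; ring
    rw [e3, abs_mul, abs_of_nonneg h2]
    have e4 := abs_nonneg (X.K.x (X.K.a n) * (X.Q : ℝ) ^ i - X.K.x (X.K.b n) * (X.Q : ℝ) ^ i)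
    nlinarith

/-- Every line is near at most three boxes. -/
theorem sum_nb (X : RS ι) (i : ℕ) (T : Finset (ℤ × ℤ)) :
    ∑ B ∈ T, (nb X i B).card ≤ 3 * (visC X.K X.Q 0 0).card := by
  classical
  have e : ∀ B ∈ T, (nb X i B).card = ∑ q ∈ visC X.K X.Q 0 0,
      (if (bx X.K X.Q i q).1 = B.1 ∧ |(bx X.K X.Q i q).2 - B.2| ≤ 1 then 1 else 0) := by
    intro B _
    unfold nb
    rw [Finset.card_filter]
  rw [Finset.sum_congr rfl e, Finset.sum_comm]
  have : ∀ q ∈ visC X.K X.Q 0 0, ∑ B ∈ T,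
      (if (bx X.K X.Q i q).1 = B.1 ∧ |(bx X.K X.Q i q).2 - B.2| ≤ 1 then 1 else 0) ≤ 3 := by
    intro q _
    rw [← Finset.card_filter]
    have hsub : T.filter (fun B => (bx X.K X.Q i q).1 = B.1 ∧
        |(bx X.K X.Q i q).2 - B.2| ≤ 1) ⊆
        ({(bx X.K X.Q i q).1} : Finset ℤ) ×ˢ
          Finset.Icc ((bx X.K X.Q i q).2 - 1) ((bx X.K X.Q i q).2 + 1) := by
      intro B hB
      obtain ⟨_, h1, h2⟩ := mem_filter.1 hB
      rw [abs_le] at h2
      rw [mem_product, mem_singleton, mem_Icc]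
      refine ⟨h1.symm, ?_, ?_⟩ <;> omega
    refine (Finset.card_le_card hsub).trans ?_
    rw [Finset.card_product, Finset.card_singleton, Int.card_Icc]
    have : ((bx X.K X.Q i q).2 + 1 + 1 - ((bx X.K X.Q i q).2 - 1)).toNat = 3 := by
      have : (bx X.K X.Q i q).2 + 1 + 1 - ((bx X.K X.Q i q).2 - 1) = 3 := by ring
      rw [this]; rfl
    rw [this]
  calc _ ≤ ∑ _q ∈ visC X.K X.Q 0 0, 3 := Finset.sum_le_sum this
    _ = _ := by rw [Finset.sum_const, smul_eq_mul, mul_comm]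

/-- The number of visited lines. -/
theorem vis_le {X : RS ι} (h : X.OK0) :
    ((visC X.K X.Q 0 0).card : ℝ) ≤ (X.Q : ℝ) ^ 2 * X.W := by
  obtain ⟨n, hn⟩ := h.ne
  have h1 := h.t2 0 (Nat.zero_le _)
  have hc : X.cl 0 n = 0 := by
    unfold RS.cl KSys.cell
    rw [pow_zero, mul_one]
    exact Nat.floor_eq_zero.2 (h.sub n hn).2.2
  have h0 : (0 : ℕ) ∈ X.E.image (fun n => X.cl 0 n) := mem_image.2 ⟨n, hn, hc⟩
  have h2 := Finset.single_le_sum (f := fun c => ((visC X.K X.Q 0 c).card : ℝ))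
    (fun c _ => Nat.cast_nonneg _) h0
  have h3 : X.s * ((0 : ℕ) : ℝ) / 4 = 0 := by simp
  rw [h3, Real.rpow_zero, mul_one] at h1
  exact le_trans h2 h1

/-- Arithmetic in one box: `e` edges of the box, `E` all edges. -/
theorem arith {e E β V S A B Y : ℝ} (hβ : 0 < β) (hV : 0 < V) (hE : 0 < E)
    (he : E ≤ 4 * β * e) (hS0 : 0 ≤ S) (hS1 : S * (128 * β * V) ≤ E)
    (hS2 : E ≤ S * (256 * β * V)) (hA : A ≤ 2 * V) (hB : B ≤ 2 * V)
    (h : e * S * S ≤ 4 * (A * S * S ^ 2 + B * S ^ 2 * S) + Y) :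
    E ^ 3 ≤ 2 ^ 19 * β ^ 3 * V ^ 2 * Y := by
  have hS3 : 0 ≤ S ^ 3 := by positivity
  have h1 : e * S ^ 2 ≤ 16 * V * S ^ 3 + Y := by nlinarith
  have h2 : 16 * V * S ≤ e / 2 := by
    have : 128 * β * (V * S) ≤ 4 * β * e := by nlinarith
    have h3 : β * (128 * (V * S)) ≤ β * (4 * e) := by nlinarith
    have := le_of_mul_le_mul_left h3 hβ
    linarith
  have h3 : e * S ^ 2 ≤ 2 * Y := by
    have : (16 * V * S) * S ^ 2 ≤ (e / 2) * S ^ 2 := mul_le_mul_of_nonneg_right h2 (by positivity)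
    nlinarith
  have h4 : E * S ^ 2 ≤ 8 * β * Y := by
    have : E * S ^ 2 ≤ 4 * β * e * S ^ 2 := mul_le_mul_of_nonneg_right he (by positivity)
    have h5 : 4 * β * (e * S ^ 2) ≤ 4 * β * (2 * Y) :=
      mul_le_mul_of_nonneg_left h3 (by positivity)
    linarith
  have h5 : E ^ 2 ≤ (S * (256 * β * V)) ^ 2 := pow_le_pow_left₀ hE.le hS2 2
  calc E ^ 3 = E * E ^ 2 := by ring
    _ ≤ E * (S * (256 * β * V)) ^ 2 := mul_le_mul_of_nonneg_left h5 hE.le
    _ = (E * S ^ 2) * (256 * β * V) ^ 2 := by ring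
    _ ≤ (8 * β * Y) * (256 * β * V) ^ 2 := mul_le_mul_of_nonneg_right h4 (by positivity)
    _ = _ := by ring

/-- Existence of the sampling parameter. -/
theorem exS {E D : ℝ} (hD : 0 < D) (h : D ≤ E) :
    ∃ S : ℕ, 1 ≤ S ∧ (S : ℝ) * D ≤ E ∧ E ≤ S * (2 * D) := by
  refine ⟨⌊E / D⌋₊, ?_, ?_, ?_⟩
  · exact Nat.le_floor (by rw [Nat.cast_one, le_div_iff₀ hD]; linarith)
  · have h1 := Nat.floor_le (a := E / D) (div_nonneg (hD.le.trans h) hD.le)
    calc _ ≤ E / D * D := mul_le_mul_of_nonneg_right h1 hD.le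
      _ = E := by field_simp
  · have h1 := Nat.lt_floor_add_one (E / D)
    have h2 : (1 : ℝ) ≤ ⌊E / D⌋₊ := by
      have : 1 ≤ ⌊E / D⌋₊ := Nat.le_floor (by rw [Nat.cast_one, le_div_iff₀ hD]; linarith)
      exact_mod_cast this
    have h3 : E / D ≤ 2 * ⌊E / D⌋₊ := by linarith
    rw [div_le_iff₀ hD] at h3
    linarith

/-- There are enough edges. -/
theorem enough {X : RS ι} (h : X.OK0) : 384 * ((X.Q : ℝ) ^ 2 * X.W) ≤ X.E.card := by
  have hw := h.J_le_w.2
  have hW := h.W_pos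
  have hQ := h.Q_gt
  have hQ0 := h.Q_pos
  have h1 : (X.Q : ℝ) ^ (10000 : ℝ) ≤ X.W := by
    have : X.W = (X.Q : ℝ) ^ (X.lg X.W) := (h.rpow_lg hW).symm
    rw [this]
    exact Real.rpow_le_rpow_of_exponent_le h.one_lt_Q.le hw
  have h2 : (X.Q : ℝ) ^ (5 : ℝ) ≤ X.W ^ ((1 : ℝ) / 3) := by
    calc (X.Q : ℝ) ^ (5 : ℝ) ≤ (X.Q : ℝ) ^ ((10000 : ℝ) * (1 / 3)) :=
          Real.rpow_le_rpow_of_exponent_le h.one_lt_Q.le (by norm_num)
      _ = ((X.Q : ℝ) ^ (10000 : ℝ)) ^ ((1 : ℝ) / 3) := by rw [Real.rpow_mul hQ0.le]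
      _ ≤ _ := Real.rpow_le_rpow (by positivity) h1 (by norm_num)
  have h3 : X.W ^ ((4 : ℝ) / 3) = X.W * X.W ^ ((1 : ℝ) / 3) := by
    rw [show (4 : ℝ) / 3 = 1 + 1 / 3 by norm_num, Real.rpow_add hW, Real.rpow_one]
  have h4 : (X.Q : ℝ) ^ (5 : ℝ) = (X.Q : ℝ) ^ 5 := by
    rw [← Real.rpow_natCast]; norm_num
  have h5 := h.big
  rw [h3] at h5
  rw [h4] at h2
  have h6 : X.W * (X.Q : ℝ) ^ 5 ≤ (X.Q : ℝ) ^ 2 * (X.E.card : ℝ) :=
    le_trans (mul_le_mul_of_nonneg_left h2 hW.le) h5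
  have h7 : (X.Q : ℝ) ^ 2 * (384 * ((X.Q : ℝ) ^ 2 * X.W)) ≤ (X.Q : ℝ) ^ 2 * (X.E.card : ℝ) := by
    refine le_trans ?_ h6
    have e1 : (X.Q : ℝ) ^ 2 * (384 * ((X.Q : ℝ) ^ 2 * X.W)) = 384 * (X.W * (X.Q : ℝ) ^ 4) := by
      ring
    have e2 : X.W * (X.Q : ℝ) ^ 5 = X.Q * (X.W * (X.Q : ℝ) ^ 4) := by ring
    rw [e1, e2]
    exact mul_le_mul_of_nonneg_right (by linarith) (by positivity)
  exact le_of_mul_le_mul_left h7 (by positivity)

/-- The edges of `E` in the box `B` whose lines have the same slot. -/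
noncomputable def EB (X : RS ι) (i : ℕ) (B : ℤ × ℤ) : Finset ℕ :=
  X.E.filter (fun n => sl X.K X.Q i (X.K.a n) = sl X.K X.Q i (X.K.b n) ∧ X.box i n = B)

theorem sum_EB (X : RS ι) (i : ℕ)
    (h2 : 2 * (X.E.filter (fun n => sl X.K X.Q i (X.K.a n) ≠ sl X.K X.Q i (X.K.b n))).card ≤
      X.E.card) :
    X.E.card ≤ 2 * ∑ B ∈ X.E.image (fun n => X.box i n), (EB X i B).card := by
  classical
  have h1 : (X.E.filter (fun n => sl X.K X.Q i (X.K.a n) = sl X.K X.Q i (X.K.b n))).card =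
      ∑ B ∈ X.E.image (fun n => X.box i n), (EB X i B).card := by
    rw [Finset.card_eq_sum_card_fiberwise (f := fun n => X.box i n)
      (t := X.E.image (fun n => X.box i n))]
    · refine Finset.sum_congr rfl (fun B _ => ?_)
      unfold EB
      rw [Finset.filter_filter]
    · intro n hn
      exact Finset.mem_coe.2 (mem_image_of_mem _ (mem_filter.1 (Finset.mem_coe.1 hn)).1)
  have h3 := Finset.card_filter_add_card_filter_not (s := X.E)
    (fun n => sl X.K X.Q i (X.K.a n) = sl X.K X.Q i (X.K.b n))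
  rw [← h1]
  have h4 : (X.E.filter (fun n => ¬ sl X.K X.Q i (X.K.a n) = sl X.K X.Q i (X.K.b n))).card =
    (X.E.filter (fun n => sl X.K X.Q i (X.K.a n) ≠ sl X.K X.Q i (X.K.b n))).card := rfl
  omega

/-- The crossings of the different boxes. -/
theorem sum_cross (X : RS ι) (i : ℕ) (T : Finset (ℤ × ℤ)) :
    ∑ B ∈ T, (crossPairs X.K (EB X i B)).card ≤ (X.crossB i).card := by
  classical
  have h1 : ∀ B ∈ T, (crossPairs X.K (EB X i B)).card ≤
      ((X.crossB i).filter (fun z => X.box i z.1 = B)).card := by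
    intro B _
    refine Finset.card_le_card ?_
    intro z hz
    unfold crossPairs at hz
    obtain ⟨hz1, hz2, hz3⟩ := mem_filter.1 hz
    obtain ⟨hz4, hz5⟩ := mem_product.1 hz1
    obtain ⟨a1, _, a3⟩ := mem_filter.1 hz4
    obtain ⟨b1, _, b3⟩ := mem_filter.1 hz5
    refine mem_filter.2 ⟨?_, a3⟩
    unfold RS.crossB
    exact mem_filter.2 ⟨mem_product.2 ⟨a1, b1⟩, hz2, hz3, a3.trans b3.symm⟩
  refine (Finset.sum_le_sum h1).trans ?_
  rw [← Finset.card_biUnion]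
  · refine Finset.card_le_card ?_
    intro z hz
    obtain ⟨B, _, hB⟩ := mem_biUnion.1 hz
    exact (mem_filter.1 hB).1
  · intro B _ B' _ hne
    refine Finset.disjoint_left.2 (fun z hz hz' => hne ?_)
    rw [← (mem_filter.1 hz).2, ← (mem_filter.1 hz').2]

end XP2b

open XP2b in
theorem I_P2b (hCrl : StCrl) (hNest : StNest) (hQ1 : StQ1) : StP2b := by
  classical
  have _ := hNest
  intro ι _ _ X hX i hi hlB hin
  have h : X.OK0 := hX.toOK0
  have hinj : Function.Injective X.K.x := by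
    obtain ⟨m, hm, hsep⟩ := h.sep
    intro p q hpq
    by_contra hne
    have := hsep p q hne
    rw [hpq, sub_self, abs_zero, mul_zero] at this
    linarith
  set T := X.E.image (fun n => X.box i n) with hT
  obtain ⟨n0, hn0⟩ := h.ne
  have hβ : (1 : ℝ) ≤ (T.card : ℝ) := h.im_pos (fun n => X.box i n)
  have hV : 0 < X.V i := by
    have := hX.vhi i hi n0 hn0
    have h0 : (0 : ℝ) ≤ (X.v3 i n0 : ℝ) := Nat.cast_nonneg _
    linarith
  have hE0 := h.card_pos
  have hW := h.W_pos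
  have hQ0 := h.Q_pos
  have hL := h.L_pos
  -- the number of visited lines near a box
  have hVβ : (T.card : ℝ) * X.V i ≤ 3 * ((X.Q : ℝ) ^ 2 * X.W) := by
    have e1 : ∀ B ∈ T, X.V i ≤ ((nb X i B).card : ℝ) := by
      intro B hB
      obtain ⟨n, hn, rfl⟩ := mem_image.1 hB
      have := hX.vlo i hi n hn
      rwa [v3_eq] at this
    have e2 : (T.card : ℝ) * X.V i ≤ ∑ B ∈ T, ((nb X i B).card : ℝ) := by
      have := Finset.sum_le_sum e1
      rwa [Finset.sum_const, nsmul_eq_mul] at this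
    have e3 : ((∑ B ∈ T, (nb X i B).card : ℕ) : ℝ) ≤ ((3 * (visC X.K X.Q 0 0).card : ℕ) : ℝ) := by
      exact_mod_cast sum_nb X i T
    push_cast at e3
    have e4 := vis_le h
    linarith
  -- the sampling parameter
  have hD : 0 < 128 * (T.card : ℝ) * X.V i := by positivity
  obtain ⟨S, hS1, hS2, hS3⟩ := exS (E := (X.E.card : ℝ)) hD (by
    have := enough h
    nlinarith)
  -- crossings in a good box
  have hgood : ∀ B ∈ T, (X.E.card : ℝ) ≤ 4 * (T.card : ℝ) * ((EB X i B).card : ℝ) →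
      (X.E.card : ℝ) ^ 3 ≤ 2 ^ 19 * (T.card : ℝ) ^ 3 * X.V i ^ 2 *
        ((crossPairs X.K (EB X i B)).card : ℝ) := by
    intro B hB hgB
    obtain ⟨n, hn, rfl⟩ := mem_image.1 hB
    have hv : ((nb X i (X.box i n)).card : ℝ) < 2 * X.V i := by
      have := hX.vhi i hi n hn
      rwa [v3_eq] at this
    have hA : (((EB X i (X.box i n)).image X.K.a).card : ℝ) ≤ 2 * X.V i := by
      refine le_trans ?_ hv.le
      have : ((EB X i (X.box i n)).image X.K.a).card ≤ (nb X i (X.box i n)).card := by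
        refine Finset.card_le_card ?_
        intro q hq
        obtain ⟨k, hk, rfl⟩ := mem_image.1 hq
        obtain ⟨k1, _, k3⟩ := mem_filter.1 hk
        rw [← k3]
        exact a_mem_nb h i k1
      exact_mod_cast this
    have hB' : (((EB X i (X.box i n)).image X.K.b).card : ℝ) ≤ 2 * X.V i := by
      refine le_trans ?_ hv.le
      have : ((EB X i (X.box i n)).image X.K.b).card ≤ (nb X i (X.box i n)).card := by
        refine Finset.card_le_card ?_
        intro q hq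
        obtain ⟨k, hk, rfl⟩ := mem_image.1 hq
        obtain ⟨k1, k2, k3⟩ := mem_filter.1 hk
        rw [← k3]
        exact b_mem_nb h i k1 k2
      exact_mod_cast this
    have hc := hCrl ι X.K hinj (EB X i (X.box i n))
      (fun k hk => (h.sub k (mem_filter.1 hk).1).1) S S hS1 hS1
    have hc' : ((EB X i (X.box i n)).card : ℝ) * S * S ≤
        4 * ((((EB X i (X.box i n)).image X.K.a).card : ℝ) * S * (S : ℝ) ^ 2 +
          (((EB X i (X.box i n)).image X.K.b).card : ℝ) * (S : ℝ) ^ 2 * S) +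
        ((crossPairs X.K (EB X i (X.box i n))).card : ℝ) := by exact_mod_cast hc
    refine arith (by linarith) hV hE0 hgB (Nat.cast_nonneg S) hS2 ?_ hA hB' hc'
    linarith
  -- the good boxes
  set G := T.filter (fun B => (X.E.card : ℝ) ≤ 4 * (T.card : ℝ) * ((EB X i B).card : ℝ)) with hG
  have hGc : (T.card : ℝ) ≤ 4 * X.Λ * (G.card : ℝ) := by
    have e1 : (X.E.card : ℝ) ≤ 2 * ∑ B ∈ T, ((EB X i B).card : ℝ) := by
      exact_mod_cast sum_EB X i hin
    have e2 : ∑ B ∈ T, ((EB X i B).card : ℝ) =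
        ∑ B ∈ G, ((EB X i B).card : ℝ) +
        ∑ B ∈ T.filter (fun B => ¬ (X.E.card : ℝ) ≤ 4 * (T.card : ℝ) * ((EB X i B).card : ℝ)),
          ((EB X i B).card : ℝ) := (Finset.sum_filter_add_sum_filter_not _ _ _).symm
    have e3 : ∑ B ∈ T.filter (fun B => ¬ (X.E.card : ℝ) ≤
        4 * (T.card : ℝ) * ((EB X i B).card : ℝ)), ((EB X i B).card : ℝ) ≤
        (X.E.card : ℝ) / 4 := by
      have : ∀ B ∈ T.filter (fun B => ¬ (X.E.card : ℝ) ≤
        4 * (T.card : ℝ) * ((EB X i B).card : ℝ)), ((EB X i B).card : ℝ) ≤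
          (X.E.card : ℝ) / (4 * T.card) := by
        intro B hB
        have := (mem_filter.1 hB).2
        rw [le_div_iff₀ (by linarith)]
        push Not at this
        linarith
      refine (Finset.sum_le_sum this).trans ?_
      rw [Finset.sum_const, nsmul_eq_mul]
      have e4 : ((T.filter (fun B => ¬ (X.E.card : ℝ) ≤
        4 * (T.card : ℝ) * ((EB X i B).card : ℝ))).card : ℝ) ≤ T.card := by
        exact_mod_cast Finset.card_filter_le _ _
      calc _ ≤ (T.card : ℝ) * ((X.E.card : ℝ) / (4 * T.card)) :=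
            mul_le_mul_of_nonneg_right e4 (by positivity)
        _ = _ := by field_simp
    have e5 : ∑ B ∈ G, ((EB X i B).card : ℝ) ≤
        (G.card : ℝ) * (X.Λ * X.E.card / T.card) := by
      have : ∀ B ∈ G, ((EB X i B).card : ℝ) ≤ X.Λ * X.E.card / T.card := by
        intro B hB
        obtain ⟨n, hn, rfl⟩ := mem_image.1 (mem_filter.1 hB).1
        have e6 := (hX.regB i hi n hn).2
        rw [le_div_iff₀ (by linarith)]
        refine le_trans ?_ e6
        have e7 : (EB X i (X.box i n)).card ≤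
            (X.E.filter (fun k => X.box i k = X.box i n)).card := by
          refine Finset.card_le_card ?_
          intro k hk
          obtain ⟨k1, _, k3⟩ := mem_filter.1 hk
          exact mem_filter.2 ⟨k1, k3⟩
        have e8 : ((EB X i (X.box i n)).card : ℝ) ≤
            ((X.E.filter (fun k => X.box i k = X.box i n)).card : ℝ) := by exact_mod_cast e7
        exact mul_le_mul_of_nonneg_right e8 (by linarith)
      refine (Finset.sum_le_sum this).trans ?_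
      rw [Finset.sum_const, nsmul_eq_mul]
    have e9 : (X.E.card : ℝ) / 4 ≤ (G.card : ℝ) * (X.Λ * X.E.card / T.card) := by linarith
    have e10 : (X.E.card : ℝ) * (T.card : ℝ) ≤ (X.E.card : ℝ) * (4 * X.Λ * (G.card : ℝ)) := by
      have : (X.E.card : ℝ) / 4 * (4 * T.card) ≤
          (G.card : ℝ) * (X.Λ * X.E.card / T.card) * (4 * T.card) :=
        mul_le_mul_of_nonneg_right e9 (by positivity)
      have e11 : (G.card : ℝ) * (X.Λ * X.E.card / T.card) * (4 * T.card) =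
          (X.E.card : ℝ) * (4 * X.Λ * (G.card : ℝ)) := by field_simp
      rw [e11] at this
      linarith
    exact le_of_mul_le_mul_left e10 hE0
  -- all crossings
  have hsum : (G.card : ℝ) * (X.E.card : ℝ) ^ 3 ≤ 2 ^ 19 * (T.card : ℝ) ^ 3 * X.V i ^ 2 *
      ((X.crossB i).card : ℝ) := by
    have e1 : ∀ B ∈ G, (X.E.card : ℝ) ^ 3 ≤ 2 ^ 19 * (T.card : ℝ) ^ 3 * X.V i ^ 2 *
        ((crossPairs X.K (EB X i B)).card : ℝ) := fun B hB =>
      hgood B (mem_filter.1 hB).1 (mem_filter.1 hB).2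
    have e2 := Finset.sum_le_sum e1
    rw [Finset.sum_const, nsmul_eq_mul, ← Finset.mul_sum] at e2
    refine e2.trans (mul_le_mul_of_nonneg_left ?_ (by positivity))
    exact_mod_cast sum_cross X i G
  have hfin : (X.E.card : ℝ) ^ 3 ≤ 2 ^ 25 * X.Λ * ((X.Q : ℝ) ^ 4 * X.W ^ 2) *
      ((X.crossB i).card : ℝ) := by
    have hc0 : (0 : ℝ) ≤ ((X.crossB i).card : ℝ) := Nat.cast_nonneg _
    have e1 : (T.card : ℝ) * (X.E.card : ℝ) ^ 3 ≤
        (T.card : ℝ) * (2 ^ 25 * X.Λ * ((X.Q : ℝ) ^ 4 * X.W ^ 2) * ((X.crossB i).card : ℝ)) := by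
      calc (T.card : ℝ) * (X.E.card : ℝ) ^ 3
          ≤ (4 * X.Λ * (G.card : ℝ)) * (X.E.card : ℝ) ^ 3 :=
            mul_le_mul_of_nonneg_right hGc (by positivity)
        _ = 4 * X.Λ * ((G.card : ℝ) * (X.E.card : ℝ) ^ 3) := by ring
        _ ≤ 4 * X.Λ * (2 ^ 19 * (T.card : ℝ) ^ 3 * X.V i ^ 2 * ((X.crossB i).card : ℝ)) :=
            mul_le_mul_of_nonneg_left hsum (by positivity)
        _ = (T.card : ℝ) * (2 ^ 21 * X.Λ * ((T.card : ℝ) * X.V i) ^ 2 *
            ((X.crossB i).card : ℝ)) := by ring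
        _ ≤ (T.card : ℝ) * (2 ^ 21 * X.Λ * (3 * ((X.Q : ℝ) ^ 2 * X.W)) ^ 2 *
            ((X.crossB i).card : ℝ)) := by
            have := pow_le_pow_left₀ (by positivity) hVβ 2
            gcongr
        _ ≤ _ := by
            have : 2 ^ 21 * X.Λ * (3 * ((X.Q : ℝ) ^ 2 * X.W)) ^ 2 ≤
                2 ^ 25 * X.Λ * ((X.Q : ℝ) ^ 4 * X.W ^ 2) := by
              have e0 : (0 : ℝ) ≤ X.Λ * ((X.Q : ℝ) ^ 4 * X.W ^ 2) := by positivity
              nlinarith
            have h2 := mul_le_mul_of_nonneg_right this hc0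
            exact mul_le_mul_of_nonneg_left h2 (by linarith)
    exact le_of_mul_le_mul_left e1 (by linarith)
  -- logarithms
  have hcpos : (0 : ℝ) < ((X.crossB i).card : ℝ) := by
    rcases (Nat.cast_nonneg (X.crossB i).card : (0 : ℝ) ≤ _).lt_or_eq with h0 | h0
    · exact h0
    · exfalso
      rw [← h0, mul_zero] at hfin
      have : 0 < (X.E.card : ℝ) ^ 3 := by positivity
      linarith
  have hlog := h.lg_le (by positivity) hfin
  have hl1 : X.lg ((X.E.card : ℝ) ^ 3) = 3 * X.lE := by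
    rw [h.lg_pow]; push_cast; rfl
  have hl2 : X.lg (2 ^ 25 * X.Λ * ((X.Q : ℝ) ^ 4 * X.W ^ 2) * ((X.crossB i).card : ℝ)) =
      X.lg (2 ^ 25) + X.lg X.Λ + (4 + 2 * X.w) + X.lg ((X.crossB i).card : ℝ) := by
    rw [h.lg_mul (by positivity) hcpos, h.lg_mul (by positivity) (by positivity),
      h.lg_mul (by positivity) hL, h.lg_mul (by positivity) (by positivity), h.lg_Qpow,
      h.lg_pow X.W 2]
    push_cast
    rfl
  rw [hl1, hl2] at hlog
  have hl3 := h.lg_const (c := 2 ^ 25) (by norm_num) 25 le_rfl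
  have hl4 := h.lgL_le
  have hl5 := (hQ1 ι X h).1
  push_cast at hl3
  clear_value G T
  generalize X.lg (2 ^ 25) = u at hl3 hlog
  generalize X.lg ((X.crossB i).card : ℝ) = v at hlog ⊢
  generalize X.lg X.Λ = r at hl4 hlog
  linarith

end Pool.Agent.Work.MP_e17eac_co.PS
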