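import Pool.Agent.Work.MP_e17eac_co.PS.Spr

/-!
# Project PS, block SPR, item PWin: windows in super-blocks
-/

namespace Pool.Agent.Work.MP_e17eac_co.PS

open Finset
open Pool.Agent.Work.MP_e17eac_co.DH

namespace XPWin

variable {ι : Type} [Fintype ι] [DecidableEq ι]

theorem t_le (K : KSys ι) {n k : ℕ} (h : n ≤ k) (hk : k < K.N) : K.t n ≤ K.t k := by
  rcases h.eq_or_lt with rfl | h
  · exact le_rfl
  · exact (K.t_lt n k h hk).le

/-- Powers near a number `> 1`, strict on the left. -/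
theorem near_lt (x y : ℝ) (hx : 1 < x) (hy : 1 < y) : ∃ k : ℕ, y ^ k < x ∧ x ≤ y ^ (k + 1) := by
  obtain ⟨k, h1, h2⟩ := exists_nat_pow_near hx.le hy
  rcases h1.eq_or_lt with h3 | h3
  · rcases Nat.eq_zero_or_pos k with h0 | h0
    · rw [h0, pow_zero] at h3
      linarith
    · obtain ⟨j, rfl⟩ : ∃ j, k = j + 1 := ⟨k - 1, by omega⟩
      refine ⟨j, ?_, h3.ge⟩
      rw [← h3]
      exact pow_lt_pow_right₀ hy (Nat.lt_succ_self j)
  · exact ⟨k, h3, h2.le⟩

/-- The mass estimate. -/
theorem mass_core (K : KSys ι) (m : ℝ) (q B p0 U : ℕ) (hq : 2 ≤ q)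
    (hmq : 4 * m + 1 < (q : ℝ) ^ (B + 1)) (hU : 2 ≤ U) (E : Finset ℕ) (u R : ℝ) (hR : 0 < R)
    (idx : ℕ → ℕ) (hidx : ∀ n ∈ E, n ∈ blk p0 U (idx n)) (hN : ∀ n ∈ E, p0 + (idx n + 1) * U ≤ K.N)
    (hbl : ∀ n ∈ E, R ≤ q * ((4 * m + 1) * bl K p0 U (idx n))) (hu : ∀ n ∈ E, u ≤ K.t n) (c : ℕ) :
    (E.filter (fun n => ⌊(K.t n - u) / R * (q : ℝ) ^ (B + 3)⌋₊ = c)).card ≤ 2 * U := by
  classical
  by_contra hcon
  have hcon' := not_le.mp hcon
  obtain ⟨E', hE'⟩ : ∃ E' : Finset ℕ, E' = E.filter (fun n =>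
    ⌊(K.t n - u) / R * (q : ℝ) ^ (B + 3)⌋₊ = c) := ⟨_, rfl⟩
  rw [← hE'] at hcon'
  have hmem : ∀ n ∈ E', n ∈ E ∧ ⌊(K.t n - u) / R * (q : ℝ) ^ (B + 3)⌋₊ = c := by
    intro n hn
    rw [hE', Finset.mem_filter] at hn
    exact hn
  -- at least three blocks
  have hthree : 2 < (E'.image idx).card := by
    by_contra h3
    have h3' := not_lt.mp h3
    have hsub : E' ⊆ (E'.image idx).biUnion (fun i => blk p0 U i) := by
      intro n hn
      rw [Finset.mem_biUnion]
      exact ⟨idx n, Finset.mem_image_of_mem idx hn, hidx n (hmem n hn).1⟩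
    have h4 := (Finset.card_le_card hsub).trans (Finset.card_biUnion_le_card_mul (E'.image idx)
      (fun i => blk p0 U i) U (by
        intro i _
        unfold blk
        rw [Nat.card_Ico]
        have : (i + 1) * U = i * U + U := by ring
        omega))
    have h5 : (E'.image idx).card * U ≤ 2 * U := Nat.mul_le_mul_right U h3'
    omega
  have hne : (E'.image idx).Nonempty := Finset.card_pos.mp (by omega)
  obtain ⟨i1, hi1⟩ : ∃ i1, i1 = (E'.image idx).min' hne := ⟨_, rfl⟩
  obtain ⟨i3, hi3⟩ : ∃ i3, i3 = (E'.image idx).max' hne := ⟨_, rfl⟩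
  have hm1 : i1 ∈ E'.image idx := by rw [hi1]; exact Finset.min'_mem _ _
  have hm3 : i3 ∈ E'.image idx := by rw [hi3]; exact Finset.max'_mem _ _
  obtain ⟨i2, hi2⟩ : ((((E'.image idx).erase i1).erase i3)).Nonempty := by
    apply Finset.card_pos.mp
    have h6 := Finset.pred_card_le_card_erase (s := E'.image idx) (a := i1)
    have h7 := Finset.pred_card_le_card_erase (s := (E'.image idx).erase i1) (a := i3)
    omega
  have hi2a : i2 ≠ i3 := (Finset.mem_erase.mp hi2).1
  have hi2b : i2 ≠ i1 := (Finset.mem_erase.mp (Finset.mem_erase.mp hi2).2).1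
  have hi2c : i2 ∈ E'.image idx := (Finset.mem_erase.mp (Finset.mem_erase.mp hi2).2).2
  have hlt12 : i1 < i2 := lt_of_le_of_ne (by rw [hi1]; exact Finset.min'_le _ _ hi2c) hi2b.symm
  have hlt23 : i2 < i3 := lt_of_le_of_ne (by rw [hi3]; exact Finset.le_max' _ _ hi2c) hi2a
  obtain ⟨n1, hn1, e1⟩ := Finset.mem_image.mp hm1
  obtain ⟨n2, hn2, e2⟩ := Finset.mem_image.mp hi2c
  obtain ⟨n3, hn3, e3⟩ := Finset.mem_image.mp hm3
  have b1 := hidx n1 (hmem n1 hn1).1
  have b2 := hidx n2 (hmem n2 hn2).1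
  have b3 := hidx n3 (hmem n3 hn3).1
  have N2 := hN n2 (hmem n2 hn2).1
  have N3 := hN n3 (hmem n3 hn3).1
  rw [e1] at b1
  rw [e2] at b2 N2
  rw [e3] at b3 N3
  unfold blk at b1 b2 b3
  rw [Finset.mem_Ico] at b1 b2 b3
  have m12 : (i1 + 1) * U ≤ i2 * U := Nat.mul_le_mul_right U hlt12
  have m23 : (i2 + 1) * U ≤ i3 * U := Nat.mul_le_mul_right U hlt23
  have s2 : (i2 + 1) * U = i2 * U + U := by ring
  have c1 : K.t n1 < K.t (p0 + i2 * U) := K.t_lt _ _ (by omega) (by omega)
  have c3 : K.t (p0 + (i2 + 1) * U - 1) < K.t n3 := K.t_lt _ _ (by omega) (by omega)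
  have c2 : K.t (p0 + i2 * U) < K.t (p0 + (i2 + 1) * U - 1) := K.t_lt _ _ (by omega) (by omega)
  have hblpos : 0 < bl K p0 U i2 := by
    unfold bl
    linarith
  have hbllt : bl K p0 U i2 < K.t n3 - K.t n1 := by
    unfold bl
    linarith
  -- the cell
  have hq1 : (1 : ℝ) < q := by exact_mod_cast (show 1 < q by omega)
  have hQ : (0 : ℝ) < (q : ℝ) ^ (B + 3) := by positivity
  have hu1 := hu n1 (hmem n1 hn1).1
  have f1 : ((c : ℕ) : ℝ) ≤ (K.t n1 - u) / R * (q : ℝ) ^ (B + 3) := by
    rw [← (hmem n1 hn1).2]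
    apply Nat.floor_le
    apply mul_nonneg _ hQ.le
    apply div_nonneg _ hR.le
    linarith
  have f3 : (K.t n3 - u) / R * (q : ℝ) ^ (B + 3) < (c : ℝ) + 1 := by
    have := Nat.lt_floor_add_one ((K.t n3 - u) / R * (q : ℝ) ^ (B + 3))
    rw [(hmem n3 hn3).2] at this
    exact this
  have f4 : (K.t n3 - K.t n1) * (q : ℝ) ^ (B + 3) < R := by
    have e4 : (K.t n3 - K.t n1) * (q : ℝ) ^ (B + 3) =
        ((K.t n3 - u) / R * (q : ℝ) ^ (B + 3) - (K.t n1 - u) / R * (q : ℝ) ^ (B + 3)) * R := by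
      field_simp
      ring
    rw [e4]
    have e5 : (K.t n3 - u) / R * (q : ℝ) ^ (B + 3) - (K.t n1 - u) / R * (q : ℝ) ^ (B + 3) < 1 := by
      linarith
    calc _ < 1 * R := mul_lt_mul_of_pos_right e5 hR
      _ = R := one_mul R
  have f5 : bl K p0 U i2 * (q : ℝ) ^ (B + 3) < R :=
    (mul_lt_mul_of_pos_right hbllt hQ).trans f4
  have f6 := hbl n2 (hmem n2 hn2).1
  rw [e2] at f6
  have f7 : (4 * m + 1) * bl K p0 U i2 < (q : ℝ) ^ (B + 1) * bl K p0 U i2 :=
    mul_lt_mul_of_pos_right hmq hblpos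
  have f8 : (q : ℝ) * ((q : ℝ) ^ (B + 1) * bl K p0 U i2) ≤ bl K p0 U i2 * (q : ℝ) ^ (B + 3) := by
    have e6 : bl K p0 U i2 * (q : ℝ) ^ (B + 3) =
        (q : ℝ) * ((q : ℝ) ^ (B + 1) * bl K p0 U i2) * q := by ring
    rw [e6]
    have e7 : 0 < (q : ℝ) * ((q : ℝ) ^ (B + 1) * bl K p0 U i2) := by positivity
    have e8 := mul_le_mul_of_nonneg_left hq1.le e7.le
    rw [mul_one] at e8
    exact e8
  have f9 : (q : ℝ) * ((4 * m + 1) * bl K p0 U i2) < (q : ℝ) * ((q : ℝ) ^ (B + 1) * bl K p0 U i2) :=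
    mul_lt_mul_of_pos_left f7 (by linarith)
  linarith

/-- Union of blocks. -/
theorem card_blocks (p0 U : ℕ) (S : Finset ℕ) :
    (S.biUnion (fun i => blk p0 U i)).card = S.card * U := by
  classical
  rw [Finset.card_biUnion]
  · rw [Finset.sum_congr rfl (g := fun _ => U) (by
      intro i _
      unfold blk
      rw [Nat.card_Ico]
      have : (i + 1) * U = i * U + U := by ring
      omega)]
    rw [Finset.sum_const, smul_eq_mul]
  · intro i _ j _ hij
    have h : Disjoint (blk p0 U i) (blk p0 U j) := by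
      unfold blk
      rw [Finset.disjoint_left]
      intro n hn hn'
      rw [Finset.mem_Ico] at hn hn'
      rcases lt_or_gt_of_ne hij with h | h
      · have := Nat.mul_le_mul_right U (show i + 1 ≤ j from h)
        omega
      · have := Nat.mul_le_mul_right U (show j + 1 ≤ i from h)
        omega
    exact h

end XPWin

open XPWin in
/-- Windows in super-blocks. -/
theorem I_PWin (hChain1 : StChain1) : StPWin := by
  classical
  intro ι _ _ K m q B p0 U M T h τ hm hsep hq hmq hU hT hTM hMN hτ hside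
  obtain ⟨p, hp⟩ : ∃ p, p = p0 + h * T * U := ⟨_, rfl⟩
  obtain ⟨p', hp'⟩ : ∃ p', p' = p0 + (h + 1) * T * U := ⟨_, rfl⟩
  rw [← hp, ← hp']
  have hTU : 2 ≤ T * U := by
    calc 2 = 1 * 2 := by norm_num
      _ ≤ T * U := Nat.mul_le_mul hT hU
  have hpp : p' = p + T * U := by rw [hp, hp']; ring
  have hp'N : p' ≤ K.N := by
    rw [hp']
    have := Nat.mul_le_mul_right U hTM
    omega
  have hq1 : (1 : ℝ) < q := by exact_mod_cast (show 1 < q by omega)
  have hLpos : 0 < K.t (p' - 1) - K.t p := by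
    have := K.t_lt p (p' - 1) (by omega) (by omega)
    linarith
  have main : ∀ S : Finset ℕ, S ⊆ Ico (h * T) ((h + 1) * T) → τ ≤ S.card → ∀ e : ℝ,
      ((∀ n, p ≤ n → n < p' → K.t n ≤ e) ∧ e = K.t (p' - 1) ∨
        (∀ n, p ≤ n → n < p' → e ≤ K.t n) ∧ e = K.t p) →
      (∀ i ∈ S, ∀ n ∈ blk p0 U i, |K.t n - e| ≤ (4 * m + 1) * bl K p0 U i) →
      ∃ (u R : ℝ) (E : Finset ℕ), PWin K q (B + 3) U p p' u R E ∧
        ((τ * U : ℕ) : ℝ) ≤ 2 + 16 * ((B : ℝ) + 2) * ((K.lines (Ico p p')).card : ℝ) *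
          (E.card : ℝ) ^ ((1 : ℝ) / 4) := by
    intro S hS hτS e he hnear
    obtain ⟨G, hG⟩ : ∃ G : Finset ℕ, G = S.biUnion (fun i => blk p0 U i) := ⟨_, rfl⟩
    have hGcard : G.card = S.card * U := by rw [hG]; exact card_blocks p0 U S
    have hGmem : ∀ n ∈ G, ∃ i ∈ S, n ∈ blk p0 U i := by
      intro n hn
      rw [hG, Finset.mem_biUnion] at hn
      exact hn
    have hiS : ∀ i ∈ S, p ≤ p0 + i * U ∧ p0 + (i + 1) * U ≤ p' := by
      intro i hi
      have h1 := Finset.mem_Ico.mp (hS hi)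
      have h2 := Nat.mul_le_mul_right U h1.1
      have h3 := Nat.mul_le_mul_right U (show i + 1 ≤ (h + 1) * T from h1.2)
      rw [hp, hp']
      constructor <;> omega
    have hGsub : ∀ n ∈ G, p ≤ n ∧ n < p' := by
      intro n hn
      obtain ⟨i, hi, hn'⟩ := hGmem n hn
      unfold blk at hn'
      rw [Finset.mem_Ico] at hn'
      have := hiS i hi
      constructor <;> omega
    obtain ⟨F, hF⟩ : ∃ F : Finset ℕ, F = (G.erase p).erase (p' - 1) := ⟨_, rfl⟩
    have hFcard : τ * U ≤ F.card + 2 := by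
      have h6 := Finset.pred_card_le_card_erase (s := G) (a := p)
      have h7 := Finset.pred_card_le_card_erase (s := G.erase p) (a := p' - 1)
      rw [← hF] at h7
      have h8 := Nat.mul_le_mul_right U hτS
      omega
    have hFmem : ∀ n ∈ F, n ∈ G ∧ p < n ∧ n < p' - 1 := by
      intro n hn
      rw [hF] at hn
      have h1 := Finset.mem_erase.mp hn
      have h2 := Finset.mem_erase.mp h1.2
      have h3 := hGsub n h2.2
      refine ⟨h2.2, ?_, ?_⟩
      · have := h2.1
        omega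
      · have := h1.1
        omega
    rcases F.eq_empty_or_nonempty with hFe | hFne
    · -- no edge is left
      refine ⟨K.t p, K.t (p' - 1) - K.t p, ∅, ⟨hLpos, Finset.empty_subset _, ?_, le_rfl, ?_, ?_⟩, ?_⟩
      · intro n hn
        exact absurd hn (Finset.notMem_empty n)
      · intro n hn hnN
        have := t_le K (show p' - 1 ≤ n by omega) hnN
        linarith
      · intro c
        rw [Finset.filter_empty, Finset.card_empty]
        exact Nat.zero_le _
      · have h1 : τ * U ≤ 2 := by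
          rw [hFe, Finset.card_empty] at hFcard
          omega
        have h2 : ((τ * U : ℕ) : ℝ) ≤ 2 := by exact_mod_cast h1
        have h3 : (0 : ℝ) ≤ 16 * ((B : ℝ) + 2) * ((K.lines (Ico p p')).card : ℝ) *
          (((∅ : Finset ℕ).card : ℕ) : ℝ) ^ ((1 : ℝ) / 4) := by positivity
        linarith
    · -- scales
      have hdist : ∀ n ∈ F, 0 < |K.t n - e| ∧ |K.t n - e| < K.t (p' - 1) - K.t p := by
        intro n hn
        obtain ⟨_, h1, h2⟩ := hFmem n hn
        have h3 := K.t_lt p n h1 (by omega)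
        have h4 := K.t_lt n (p' - 1) h2 (by omega)
        rcases he with ⟨_, he⟩ | ⟨_, he⟩
        · rw [he, abs_sub_comm, abs_of_pos (by linarith)]
          constructor <;> linarith
        · rw [he, abs_of_pos (by linarith)]
          constructor <;> linarith
      have hk : ∀ n, ∃ k : ℕ, n ∈ F → ((K.t (p' - 1) - K.t p) / (q : ℝ) ^ (k + 1) ≤ |K.t n - e| ∧
          |K.t n - e| < (K.t (p' - 1) - K.t p) / (q : ℝ) ^ k) := by
        intro n
        by_cases hn : n ∈ F
        · obtain ⟨h1, h2⟩ := hdist n hn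
          obtain ⟨k, h3, h4⟩ := near_lt ((K.t (p' - 1) - K.t p) / |K.t n - e|) q
            (by rw [lt_div_iff₀ h1]; linarith) hq1
          refine ⟨k, fun _ => ⟨?_, ?_⟩⟩
          · rw [div_le_iff₀ (by positivity)]
            rw [div_le_iff₀ h1] at h4
            linarith
          · rw [lt_div_iff₀ (by positivity)]
            rw [lt_div_iff₀ h1] at h3
            linarith
        · exact ⟨0, fun h => absurd h hn⟩
      choose k hk using hk
      obtain ⟨k0, hk0⟩ := hChain1 ι K m q B p p' e (K.t (p' - 1) - K.t p) F k hm hsep hq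
        (by linarith) hp'N (by
          rcases he with ⟨he, _⟩ | ⟨he, _⟩
          · exact Or.inl he
          · exact Or.inr he) hLpos (by
          intro n hn
          have := hFmem n hn
          rw [Finset.mem_Ico]
          constructor <;> omega) hFne (fun n hn => ⟨(hk n hn).1, (hk n hn).2.le⟩)
      obtain ⟨R, hR⟩ : ∃ R : ℝ, R = (K.t (p' - 1) - K.t p) / (q : ℝ) ^ k0 := ⟨_, rfl⟩
      have hRpos : 0 < R := by rw [hR]; positivity
      have hRle : R ≤ K.t (p' - 1) - K.t p := by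
        rw [hR]
        exact div_le_self hLpos.le (one_le_pow₀ hq1.le)
      obtain ⟨E, hE⟩ : ∃ E : Finset ℕ, E = F.filter (fun n => k n = k0) := ⟨_, rfl⟩
      rw [← hE] at hk0
      have hEmem : ∀ n ∈ E, n ∈ F ∧ R / q ≤ |K.t n - e| ∧ |K.t n - e| < R := by
        intro n hn
        rw [hE, Finset.mem_filter] at hn
        obtain ⟨h1, h2⟩ := hn
        have h3 := hk n h1
        rw [h2] at h3
        refine ⟨h1, ?_, ?_⟩
        · rw [hR, div_div, ← pow_succ]
          exact h3.1
        · rw [hR]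
          exact h3.2
      -- the window
      obtain ⟨u, hu1, hu2, hu3, hu4⟩ : ∃ u : ℝ, (∀ n ∈ E, u ≤ K.t n) ∧
          (∀ n ∈ E, K.t n < u + R) ∧ K.t p ≤ u ∧ u + R ≤ K.t (p' - 1) := by
        rcases he with ⟨he, he'⟩ | ⟨he, he'⟩
        · refine ⟨e - R, ?_, ?_, by rw [he']; linarith, by rw [he']; linarith⟩
          · intro n hn
            have h1 := (hEmem n hn).2.2
            have h2 := (abs_lt.mp h1).1
            linarith
          · intro n hn
            obtain ⟨_, h1, h2⟩ := hFmem n (hEmem n hn).1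
            have h4 := K.t_lt n (p' - 1) h2 (by omega)
            rw [he']
            linarith
        · refine ⟨e, ?_, ?_, by rw [he'], by rw [he']; linarith⟩
          · intro n hn
            obtain ⟨_, h1, h2⟩ := hFmem n (hEmem n hn).1
            exact he n h1.le (by omega)
          · intro n hn
            have h1 := (hEmem n hn).2.2
            have h2 := (abs_lt.mp h1).2
            linarith
      have hidx : ∀ n, ∃ i, n ∈ E → i ∈ S ∧ n ∈ blk p0 U i := by
        intro n
        by_cases hn : n ∈ E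
        · obtain ⟨i, hi, hi'⟩ := hGmem n (hFmem n (hEmem n hn).1).1
          exact ⟨i, fun _ => ⟨hi, hi'⟩⟩
        · exact ⟨0, fun h => absurd h hn⟩
      choose idx hidx using hidx
      refine ⟨u, R, E, ⟨hRpos, ?_, fun n hn => ⟨hu1 n hn, hu2 n hn⟩, hu3, ?_, ?_⟩, ?_⟩
      · intro n hn
        have := hFmem n (hEmem n hn).1
        rw [Finset.mem_Ico]
        constructor <;> omega
      · intro n hn hnN
        exact hu4.trans (t_le K (by omega) hnN)
      · intro c
        refine mass_core K m q B p0 U hq hmq hU E u R hRpos idx (fun n hn => (hidx n hn).2) ?_ ?_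
          hu1 c
        · intro n hn
          have := hiS _ (hidx n hn).1
          omega
        · intro n hn
          obtain ⟨h1, h2⟩ := hidx n hn
          have h3 := hnear _ h1 n h2
          have h4 := (hEmem n hn).2.1
          rw [div_le_iff₀ (by linarith)] at h4
          have h5 : |K.t n - e| * (q : ℝ) ≤ (4 * m + 1) * bl K p0 U (idx n) * q :=
            mul_le_mul_of_nonneg_right h3 (by linarith)
          linarith
      · have h1 : ((τ * U : ℕ) : ℝ) ≤ (F.card : ℝ) + 2 := by exact_mod_cast hFcard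
        linarith
  -- the two cases
  have hmono : ∀ n, p ≤ n → n < p' → K.t n ≤ K.t (p' - 1) := fun n _ h2 =>
    t_le K (by omega) (by omega)
  have hmono' : ∀ n, p ≤ n → n < p' → K.t p ≤ K.t n := fun n h1 h2 =>
    t_le K h1 (by omega)
  have hblock : ∀ i, i ∈ Ico (h * T) ((h + 1) * T) → ∀ n ∈ blk p0 U i,
      p ≤ p0 + i * U ∧ p0 + i * U ≤ n ∧ n ≤ p0 + (i + 1) * U - 1 ∧ p0 + (i + 1) * U ≤ p' := by
    intro i hi n hn
    have h1 := Finset.mem_Ico.mp hi
    have h2 := Nat.mul_le_mul_right U h1.1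
    have h3 := Nat.mul_le_mul_right U (show i + 1 ≤ (h + 1) * T from h1.2)
    unfold blk at hn
    rw [Finset.mem_Ico] at hn
    rw [hp, hp']
    refine ⟨by omega, by omega, by omega, by omega⟩
  rcases hside with hside | hside
  · refine main (rightB K m p0 U T h) (by unfold rightB; exact Finset.filter_subset _ _) hside
      (K.t (p' - 1)) (Or.inl ⟨hmono, rfl⟩) ?_
    intro i hi n hn
    unfold rightB at hi
    obtain ⟨hi1, hi2⟩ := Finset.mem_filter.mp hi
    obtain ⟨h1, h2, h3, h4⟩ := hblock i hi1 n hn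
    rw [← hp'] at hi2
    have g1 := t_le K h2 (by omega)
    have g2 := t_le K (show n ≤ p' - 1 by omega) (by omega)
    rw [abs_sub_comm, abs_of_nonneg (by linarith)]
    have g3 : K.t (p0 + (i + 1) * U - 1) = K.t (p0 + i * U) + bl K p0 U i := by
      unfold bl
      ring
    rw [add_mul, one_mul]
    linarith
  · refine main (leftB K m p0 U T h) (by unfold leftB; exact Finset.filter_subset _ _) hside
      (K.t p) (Or.inr ⟨hmono', rfl⟩) ?_
    intro i hi n hn
    unfold leftB at hi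
    obtain ⟨hi1, hi2⟩ := Finset.mem_filter.mp hi
    obtain ⟨h1, h2, h3, h4⟩ := hblock i hi1 n hn
    rw [← hp] at hi2
    have g1 := t_le K h3 (by omega)
    have g2 := hmono' n (by omega) (by omega)
    rw [abs_of_nonneg (by linarith)]
    have g3 : K.t (p0 + (i + 1) * U - 1) = K.t (p0 + i * U) + bl K p0 U i := by
      unfold bl
      ring
    rw [add_mul, one_mul]
    linarith

end Pool.Agent.Work.MP_e17eac_co.PS
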