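import Pool.Agent.Work.MP_e17eac_co.PS.Spr
import Pool.Agent.Work.MP_e17eac_co.Bd.B07

/-!
# Item PreEx: existence of a PreBase
-/

namespace Pool.Agent.Work.MP_e17eac_co.PS

open Finset
open Pool.Agent.Work.MP_e17eac_co.DH

namespace XPreEx

theorem log_bd (n : ℕ) (hn : 1 ≤ n) {δ : ℝ} (hδ : 0 < δ) :
    ((Nat.log 2 (n ^ 2) : ℝ) + 1) ≤ (1 + 3 / δ) * (n : ℝ) ^ δ := by
  have hn0 : (0 : ℝ) < n := by exact_mod_cast hn
  have hn1 : (1 : ℝ) ≤ n := by exact_mod_cast hn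
  have h1 : (2 : ℝ) ^ (Nat.log 2 (n ^ 2)) ≤ (n : ℝ) ^ 2 := by
    have h : 2 ^ Nat.log 2 (n ^ 2) ≤ n ^ 2 := Nat.pow_log_le_self 2 (by positivity)
    exact_mod_cast h
  have h2 : (Nat.log 2 (n ^ 2) : ℝ) * Real.log 2 ≤ 2 * Real.log n := by
    have h := Real.log_le_log (by positivity) h1
    rw [Real.log_pow, Real.log_pow] at h
    exact_mod_cast h
  have h3 : (2 / 3 : ℝ) < Real.log 2 := by linarith [Real.log_two_gt_d9]
  have h4 : Real.log n ≤ (n : ℝ) ^ δ / δ := Real.log_le_rpow_div hn0.le hδ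
  have h5 : 1 ≤ (n : ℝ) ^ δ := Real.one_le_rpow hn1 hδ.le
  have h8 : (0 : ℝ) ≤ (Nat.log 2 (n ^ 2) : ℝ) := Nat.cast_nonneg _
  have h6 : (Nat.log 2 (n ^ 2) : ℝ) ≤ 3 * Real.log n := by nlinarith
  calc ((Nat.log 2 (n ^ 2) : ℝ) + 1) ≤ 3 * ((n : ℝ) ^ δ / δ) + (n : ℝ) ^ δ := by linarith
    _ = (1 + 3 / δ) * (n : ℝ) ^ δ := by ring

theorem asym (J : ℕ) (c C : ℝ) (hc : 0 < c) : ∃ n0 : ℕ, ∀ n : ℕ, n0 ≤ n → 1 ≤ n →
    8 * ((J : ℝ) + 2) * ((Nat.log 2 (n ^ 2) : ℝ) + 1) ^ (2 * (J + 1)) ≤ (n : ℝ) ^ c ∧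
    C ≤ (n : ℝ) ^ c := by
  obtain ⟨δ, hδ⟩ : ∃ δ : ℝ, δ = c / (4 * ((J : ℝ) + 1)) := ⟨_, rfl⟩
  have hδ0 : 0 < δ := by rw [hδ]; positivity
  obtain ⟨D, hD⟩ : ∃ D : ℝ, D = 8 * ((J : ℝ) + 2) * (1 + 3 / δ) ^ (2 * (J + 1)) := ⟨_, rfl⟩
  have hlim : Filter.Tendsto (fun n : ℕ => (n : ℝ) ^ (c / 2)) Filter.atTop Filter.atTop :=
    (tendsto_rpow_atTop (by positivity)).comp tendsto_natCast_atTop_atTop
  obtain ⟨n0, hn0⟩ := Filter.eventually_atTop.1 (hlim.eventually_ge_atTop (max D C))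
  refine ⟨n0, fun n hn hn1 => ?_⟩
  have h := hn0 n hn
  have hn0' : (0 : ℝ) < n := by exact_mod_cast hn1
  have hn1' : (1 : ℝ) ≤ n := by exact_mod_cast hn1
  have hle : (n : ℝ) ^ (c / 2) ≤ (n : ℝ) ^ c :=
    Real.rpow_le_rpow_of_exponent_le hn1' (by linarith)
  constructor
  · have h1 := log_bd n hn1 hδ0
    have h2 : ((n : ℝ) ^ δ) ^ (2 * (J + 1)) = (n : ℝ) ^ (c / 2) := by
      rw [← Real.rpow_natCast, ← Real.rpow_mul hn0'.le, hδ]
      congr 1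
      push_cast
      field_simp
      ring
    calc 8 * ((J : ℝ) + 2) * ((Nat.log 2 (n ^ 2) : ℝ) + 1) ^ (2 * (J + 1))
        ≤ 8 * ((J : ℝ) + 2) * ((1 + 3 / δ) * (n : ℝ) ^ δ) ^ (2 * (J + 1)) := by
          have : (0 : ℝ) ≤ (Nat.log 2 (n ^ 2) : ℝ) := Nat.cast_nonneg _
          gcongr
      _ = D * (n : ℝ) ^ (c / 2) := by rw [mul_pow, h2, hD]; ring
      _ ≤ (n : ℝ) ^ (c / 2) * (n : ℝ) ^ (c / 2) := by
          have : D ≤ (n : ℝ) ^ (c / 2) := (le_max_left _ _).trans h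
          gcongr
      _ = (n : ℝ) ^ c := by rw [← Real.rpow_add hn0']; congr 1; ring
  · exact ((le_max_right _ _).trans h).trans hle

theorem pigeon {β : Type} [Fintype β] [DecidableEq β] (P : Finset ℕ) (hP : P.Nonempty)
    (a : ℕ → β) : ∃ b : β, P.card ≤ Fintype.card β * (P.filter (fun h => a h = b)).card ∧
    (P.filter (fun h => a h = b)).Nonempty := by
  obtain ⟨h0, hh0⟩ := hP
  obtain ⟨b, -, hb⟩ := exists_max_image (univ : Finset β)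
    (fun b => (P.filter (fun h => a h = b)).card) ⟨a h0, mem_univ _⟩
  have h1 : P.card = ∑ b : β, (P.filter (fun h => a h = b)).card :=
    card_eq_sum_card_fiberwise (fun h _ => mem_coe.2 (mem_univ _))
  have h2 : ∑ b : β, (P.filter (fun h => a h = b)).card ≤
      ∑ _b : β, (P.filter (fun h => a h = b)).card := sum_le_sum hb
  rw [sum_const, card_univ, smul_eq_mul] at h2
  refine ⟨b, h1.trans_le h2, ?_⟩
  rw [← card_pos]
  by_contra hc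
  have h3 : (P.filter (fun h => a h = b)).card = 0 := by omega
  rw [h3, mul_zero] at h2
  have h4 : 0 < P.card := card_pos.2 ⟨h0, hh0⟩
  omega

theorem avg (P1 : Finset ℕ) (hP1 : P1.Nonempty) (J : ℕ) (S : ℕ → ℕ → ℝ) (X : ℕ → ℝ)
    (hX : ∀ j ≤ J, 0 < X j) (hS0 : ∀ j h, 0 ≤ S j h) (hS : ∀ j ≤ J, ∑ h ∈ P1, S j h ≤ X j) :
    ∃ h ∈ P1, ∀ j ≤ J, S j h * (P1.card : ℝ) ≤ ((J : ℝ) + 1) * X j := by
  by_contra hcon
  push Not at hcon
  have hp : (0 : ℝ) < P1.card := by exact_mod_cast hP1.card_pos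
  have h1 : ∀ h ∈ P1, ((J : ℝ) + 1) / P1.card < ∑ j ∈ range (J + 1), S j h / X j := by
    intro h hh
    obtain ⟨j, hj, hlt⟩ := hcon h hh
    have hXj := hX j hj
    have h2 : ((J : ℝ) + 1) / P1.card < S j h / X j := by
      rw [div_lt_div_iff₀ hp hXj]
      exact hlt
    refine h2.trans_le (single_le_sum (f := fun j => S j h / X j) ?_ (mem_range.2 (by omega)))
    intro i hi
    exact div_nonneg (hS0 i h) (hX i (by rw [mem_range] at hi; omega)).le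
  have h2 : ∑ _h ∈ P1, ((J : ℝ) + 1) / P1.card < ∑ h ∈ P1, ∑ j ∈ range (J + 1), S j h / X j :=
    sum_lt_sum_of_nonempty hP1 h1
  rw [sum_const, nsmul_eq_mul, mul_div_cancel₀ _ hp.ne', sum_comm] at h2
  have h3 : ∑ j ∈ range (J + 1), ∑ h ∈ P1, S j h / X j ≤ ∑ _j ∈ range (J + 1), (1 : ℝ) := by
    refine sum_le_sum fun j hj => ?_
    have hj' : j ≤ J := by rw [mem_range] at hj; omega
    rw [← sum_div, div_le_one (hX j hj')]
    exact hS j hj'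
  rw [sum_const, card_range, nsmul_eq_mul, mul_one] at h3
  push_cast at h3
  linarith

theorem qex (B : ℕ) (C0 : ℝ) (hC0 : 1 ≤ C0) (n : ℕ) (hn : 2 ^ (B + 4) ≤ n) :
    ∃ q : ℕ, 2 ≤ q ∧ 8 * (n : ℝ) ^ C0 ≤ (q : ℝ) ^ (B + 1) ∧
      (q : ℝ) ^ (B + 1) ≤ (n : ℝ) ^ (2 * C0) ∧ (n : ℝ) ^ (C0 / ((B : ℝ) + 1)) ≤ q := by
  have hn' : (2 : ℝ) ^ (B + 4) ≤ n := by exact_mod_cast hn
  have hn1 : (1 : ℝ) ≤ n := le_trans (one_le_pow₀ (by norm_num)) hn'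
  have hn0 : (0 : ℝ) < n := by linarith
  have hnC : (n : ℝ) ≤ (n : ℝ) ^ C0 := by
    calc (n : ℝ) = (n : ℝ) ^ (1 : ℝ) := (Real.rpow_one _).symm
      _ ≤ (n : ℝ) ^ C0 := Real.rpow_le_rpow_of_exponent_le hn1 hC0
  have hnC1 : 1 ≤ (n : ℝ) ^ C0 := hn1.trans hnC
  have hB1 : (0 : ℝ) < (B : ℝ) + 1 := by positivity
  obtain ⟨z, hz⟩ : ∃ z : ℝ, z = (8 * (n : ℝ) ^ C0) ^ (1 / ((B : ℝ) + 1)) := ⟨_, rfl⟩
  have hz1 : 1 ≤ z := by
    rw [hz]; exact Real.one_le_rpow (by linarith) (by positivity)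
  have hzp : z ^ (B + 1) = 8 * (n : ℝ) ^ C0 := by
    rw [hz, ← Real.rpow_natCast, ← Real.rpow_mul (by positivity)]
    push_cast
    rw [one_div_mul_cancel hB1.ne', Real.rpow_one]
  have h1 : z ≤ ⌈z⌉₊ := Nat.le_ceil z
  have h2 : (⌈z⌉₊ : ℝ) ≤ 2 * z := by
    have := Nat.ceil_lt_add_one (by linarith : 0 ≤ z)
    linarith
  have h3 : 8 * (n : ℝ) ^ C0 ≤ (⌈z⌉₊ : ℝ) ^ (B + 1) := by
    rw [← hzp]; gcongr
  refine ⟨⌈z⌉₊, ?_, h3, ?_, ?_⟩
  · by_contra hcon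
    have h4 : ⌈z⌉₊ ≤ 1 := by omega
    have h5 : (⌈z⌉₊ : ℝ) ≤ 1 := by exact_mod_cast h4
    have h6 : (⌈z⌉₊ : ℝ) ^ (B + 1) ≤ 1 := pow_le_one₀ (by positivity) h5
    linarith
  · calc (⌈z⌉₊ : ℝ) ^ (B + 1) ≤ (2 * z) ^ (B + 1) := by gcongr
      _ = 2 ^ (B + 4) * (n : ℝ) ^ C0 := by rw [mul_pow, hzp]; ring
      _ ≤ (n : ℝ) ^ C0 * (n : ℝ) ^ C0 := by
          have := hn'.trans hnC
          gcongr
      _ = (n : ℝ) ^ (2 * C0) := by rw [← Real.rpow_add hn0]; congr 1; ring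
  · calc (n : ℝ) ^ (C0 / ((B : ℝ) + 1)) = ((n : ℝ) ^ C0) ^ (1 / ((B : ℝ) + 1)) := by
          rw [← Real.rpow_mul hn0.le]; congr 1; ring
      _ ≤ (8 * (n : ℝ) ^ C0) ^ (1 / ((B : ℝ) + 1)) := by
          apply Real.rpow_le_rpow (by positivity) (by linarith) (by positivity)
      _ = z := hz.symm
      _ ≤ _ := h1

section

variable {ι : Type} [Fintype ι] [DecidableEq ι]

theorem vis_le (K : KSys ι) (u R : ℝ) (hR : 0 < R) (q j c : ℕ) (hq : 1 ≤ q) :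
    (visC (K.resc u R hR) q j c).card ≤
      (visI K (u + c * (R / (q : ℝ) ^ j)) (u + ((c : ℝ) + 1) * (R / (q : ℝ) ^ j))).card := by
  have hq0 : (0 : ℝ) < (q : ℝ) ^ j := by
    have : (0 : ℝ) < q := by exact_mod_cast hq
    positivity
  have hRq : 0 < R / (q : ℝ) ^ j := by positivity
  apply card_le_card
  have key : ∀ n, n < K.N → 0 ≤ (K.t n - u) / R → ⌊(K.t n - u) / R * (q : ℝ) ^ j⌋₊ = c →
      u + c * (R / (q : ℝ) ^ j) ≤ K.t n ∧ K.t n < u + ((c : ℝ) + 1) * (R / (q : ℝ) ^ j) := by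
    intro n _ h2 h3
    have h4 : 0 ≤ (K.t n - u) / R * (q : ℝ) ^ j := by positivity
    rw [Nat.floor_eq_iff h4] at h3
    have e : K.t n - u = ((K.t n - u) / R * (q : ℝ) ^ j) * (R / (q : ℝ) ^ j) := by
      field_simp
    constructor
    · have := mul_le_mul_of_nonneg_right h3.1 hRq.le
      linarith
    · have := mul_lt_mul_of_pos_right h3.2 hRq
      linarith
  unfold visC visI KSys.lines
  apply union_subset_union
  · apply image_subset_image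
    intro n hn
    rw [mem_filter, mem_range] at hn ⊢
    exact ⟨hn.1, key n hn.1 hn.2.1 hn.2.2⟩
  · apply image_subset_image
    intro n hn
    rw [mem_filter, mem_range] at hn ⊢
    exact ⟨hn.1, key n hn.1 hn.2.1 hn.2.2⟩

theorem t2sum {C : ℝ} (K : KSys ι)
    (hT : ∀ (A : Finset ℕ) (u v : ℕ → ℝ), (∀ c ∈ A, ∀ c' ∈ A, c ≠ c' → v c ≤ u c' ∨ v c' ≤ u c) →
      ∑ c ∈ A, ((visI K (u c) (v c)).card : ℝ) ≤
        C * Fintype.card ι * (A.card : ℝ) ^ ((1 : ℝ) / 4))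
    (P1 : Finset ℕ) (u R : ℕ → ℝ) (hR : ∀ h, 0 < R h)
    (hdis : ∀ h ∈ P1, ∀ h' ∈ P1, h ≠ h' → u h + R h ≤ u h' ∨ u h' + R h' ≤ u h)
    (q j : ℕ) (hq : 1 ≤ q) (F : ℕ → Finset ℕ) (hF : ∀ h ∈ P1, ∀ c ∈ F h, c + 1 ≤ q ^ j) :
    ∑ h ∈ P1, ∑ c ∈ F h, ((visC (K.resc (u h) (R h) (hR h)) q j c).card : ℝ) ≤
      C * Fintype.card ι * (∑ h ∈ P1, ((F h).card : ℝ)) ^ ((1 : ℝ) / 4) := by
  have hq0 : (0 : ℝ) < (q : ℝ) ^ j := by
    have : (0 : ℝ) < q := by exact_mod_cast hq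
    positivity
  have hinj : Set.InjOn (fun z : (_ : ℕ) × ℕ => Nat.pair z.1 z.2) (P1.sigma F : Set ((_ : ℕ) × ℕ)) := by
    rintro ⟨a, b⟩ _ ⟨a', b'⟩ _ h
    have h' := Nat.pair_eq_pair.1 h
    obtain ⟨h1, h2⟩ := h'
    simp only at h1 h2
    subst h1 h2
    rfl
  have h := hT ((P1.sigma F).image (fun z => Nat.pair z.1 z.2))
    (fun k => u k.unpair.1 + (k.unpair.2 : ℝ) * (R k.unpair.1 / (q : ℝ) ^ j))
    (fun k => u k.unpair.1 + ((k.unpair.2 : ℝ) + 1) * (R k.unpair.1 / (q : ℝ) ^ j)) (by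
      intro k hk k' hk' hne
      rw [mem_image] at hk hk'
      obtain ⟨⟨a, b⟩, hz, rfl⟩ := hk
      obtain ⟨⟨a', b'⟩, hz', rfl⟩ := hk'
      rw [mem_sigma] at hz hz'
      obtain ⟨ha, hb⟩ := hz
      obtain ⟨ha', hb'⟩ := hz'
      simp only at ha hb ha' hb' hne ⊢
      rw [Nat.unpair_pair, Nat.unpair_pair]
      simp only
      have hRa : 0 < R a / (q : ℝ) ^ j := div_pos (hR a) hq0
      have hRa' : 0 < R a' / (q : ℝ) ^ j := div_pos (hR a') hq0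
      by_cases haa : a = a'
      · subst haa
        have hbb : b ≠ b' := fun h => hne (by rw [h])
        rcases lt_or_gt_of_ne hbb with hlt | hlt
        · left
          have : (b : ℝ) + 1 ≤ b' := by exact_mod_cast hlt
          gcongr
        · right
          have : (b' : ℝ) + 1 ≤ b := by exact_mod_cast hlt
          gcongr
      · have e1 : ((b : ℝ) + 1) * (R a / (q : ℝ) ^ j) ≤ R a := by
          have h1 : (b : ℝ) + 1 ≤ (q : ℝ) ^ j := by exact_mod_cast hF a ha b hb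
          calc ((b : ℝ) + 1) * (R a / (q : ℝ) ^ j) ≤ (q : ℝ) ^ j * (R a / (q : ℝ) ^ j) := by gcongr
            _ = R a := by field_simp
        have e2 : ((b' : ℝ) + 1) * (R a' / (q : ℝ) ^ j) ≤ R a' := by
          have h1 : (b' : ℝ) + 1 ≤ (q : ℝ) ^ j := by exact_mod_cast hF a' ha' b' hb'
          calc ((b' : ℝ) + 1) * (R a' / (q : ℝ) ^ j) ≤ (q : ℝ) ^ j * (R a' / (q : ℝ) ^ j) := by
                gcongr
            _ = R a' := by field_simp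
        have e3 : 0 ≤ (b : ℝ) * (R a / (q : ℝ) ^ j) := by positivity
        have e4 : 0 ≤ (b' : ℝ) * (R a' / (q : ℝ) ^ j) := by positivity
        rcases hdis a ha a' ha' haa with h1 | h1
        · left; linarith
        · right; linarith)
  rw [sum_image hinj, sum_sigma, card_image_of_injOn hinj, card_sigma] at h
  push_cast at h
  refine le_trans (sum_le_sum fun a ha => sum_le_sum fun b hb => ?_) h
  simp only [Nat.unpair_pair]
  exact_mod_cast vis_le K (u a) (R a) (hR a) q j b hq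

theorem reg1 (hReg : StReg) (K : KSys ι) (q J n : ℕ) (E : Finset ℕ) (hne : E.Nonempty)
    (hcard : E.card ≤ n ^ 2) : ∃ E' ⊆ E, E'.Nonempty ∧
    (E.card : ℝ) ≤ (8 * ((J : ℝ) + 2) * ((Nat.log 2 (n ^ 2) : ℝ) + 1) ^ (J + 1)) * E'.card ∧
    ∀ j ≤ J, RegF (8 * ((J : ℝ) + 2) * ((Nat.log 2 (n ^ 2) : ℝ) + 1) ^ (J + 1)) E'
      (K.cell q j) := by
  obtain ⟨E', hsub, hne', h1, h2⟩ := hReg ℕ (Fin (J + 1)) (fun j => K.cell q j) E hne
  rw [Fintype.card_fin] at h1 h2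
  have hlog : (Nat.log 2 E.card : ℝ) ≤ (Nat.log 2 (n ^ 2) : ℝ) := by
    exact_mod_cast Nat.log_mono_right hcard
  have hlog0 : (0 : ℝ) ≤ (Nat.log 2 E.card : ℝ) := Nat.cast_nonneg _
  have hpow : ((Nat.log 2 E.card : ℝ) + 1) ^ (J + 1) ≤
      ((Nat.log 2 (n ^ 2) : ℝ) + 1) ^ (J + 1) := by gcongr
  have hpow0 : 0 ≤ ((Nat.log 2 E.card : ℝ) + 1) ^ (J + 1) := by positivity
  have hJ : (0 : ℝ) ≤ J := Nat.cast_nonneg _
  refine ⟨E', hsub, hne', ?_, ?_⟩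
  · refine h1.trans ?_
    have : 2 * ((Nat.log 2 E.card : ℝ) + 1) ^ (J + 1) ≤
        8 * ((J : ℝ) + 2) * ((Nat.log 2 (n ^ 2) : ℝ) + 1) ^ (J + 1) := by
      calc 2 * ((Nat.log 2 E.card : ℝ) + 1) ^ (J + 1)
          ≤ (8 * ((J : ℝ) + 2)) * ((Nat.log 2 E.card : ℝ) + 1) ^ (J + 1) := by
            gcongr
            linarith
        _ ≤ _ := by gcongr
    gcongr
  · intro j hj
    refine XREGEX.regF_mono ?_ E' _ (h2 ⟨j, by omega⟩)
    push_cast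
    have e : (J : ℝ) + 1 + 1 = J + 2 := by ring
    rw [e]
    gcongr

theorem cell_lt (K : KSys ι) (q j n : ℕ) (hq : 1 ≤ q) (h0 : 0 ≤ K.t n) (h1 : K.t n < 1) :
    K.cell q j n + 1 ≤ q ^ j := by
  have hq0 : (0 : ℝ) < (q : ℝ) ^ j := by
    have : (0 : ℝ) < q := by exact_mod_cast hq
    positivity
  unfold KSys.cell
  apply Nat.succ_le_of_lt
  rw [Nat.floor_lt (by positivity)]
  push_cast
  calc K.t n * (q : ℝ) ^ j < 1 * (q : ℝ) ^ j := by gcongr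
    _ = _ := one_mul _

/-- The growth of the number of cells. -/
theorem growth (E E' : Finset ℕ) (hsub : E' ⊆ E) (hne : E'.Nonempty) (f : ℕ → ℕ) {L G : ℝ}
    (hL : (E.card : ℝ) ≤ L * E'.card) (hG : 0 < G)
    (hm : ∀ c' : ℕ, ((E.filter (fun n => f n = c')).card : ℝ) * G ≤ (E.card : ℝ)) :
    G ≤ (im E' f : ℝ) * L := by
  have hpos : (0 : ℝ) < E'.card := by exact_mod_cast hne.card_pos
  have h1 : (E'.card : ℝ) = ∑ c ∈ E'.image f, ((E'.filter (fun n => f n = c)).card : ℝ) := by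
    have := card_eq_sum_card_image f E'
    exact_mod_cast this
  have h2 : (E'.card : ℝ) * G ≤ ∑ _c ∈ E'.image f, (E.card : ℝ) := by
    rw [h1, sum_mul]
    refine sum_le_sum fun c _ => le_trans ?_ (hm c)
    have : ((E'.filter (fun n => f n = c)).card : ℝ) ≤
        ((E.filter (fun n => f n = c)).card : ℝ) := by
      exact_mod_cast card_le_card (filter_subset_filter _ hsub)
    gcongr
  rw [sum_const, nsmul_eq_mul] at h2
  have h3 : (E'.card : ℝ) * G ≤ (E'.card : ℝ) * ((im E' f : ℝ) * L) := by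
    calc (E'.card : ℝ) * G ≤ (im E' f : ℝ) * (E.card : ℝ) := h2
      _ ≤ (im E' f : ℝ) * (L * E'.card) := by gcongr
      _ = _ := by ring
  exact le_of_mul_le_mul_left h3 hpos

theorem w_facts {n p : ℝ} (hn : 1 ≤ n) (hp : 1 ≤ p) (hpn : p ≤ n ^ ((1 : ℝ) / 2)) :
    n ^ ((1 : ℝ) / 2) ≤ n / p ^ ((3 : ℝ) / 4) ∧
    (n / p ^ ((3 : ℝ) / 4)) ^ ((4 : ℝ) / 3) = n ^ ((4 : ℝ) / 3) / p ∧
    n * p ^ ((1 : ℝ) / 4) = (n / p ^ ((3 : ℝ) / 4)) * p := by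
  have hn0 : 0 < n := by linarith
  have hp0 : 0 < p := by linarith
  have hpp : 0 < p ^ ((3 : ℝ) / 4) := Real.rpow_pos_of_pos hp0 _
  refine ⟨?_, ?_, ?_⟩
  · rw [le_div_iff₀ hpp]
    calc n ^ ((1 : ℝ) / 2) * p ^ ((3 : ℝ) / 4)
        ≤ n ^ ((1 : ℝ) / 2) * (n ^ ((1 : ℝ) / 2)) ^ ((3 : ℝ) / 4) := by
          have := Real.rpow_le_rpow hp0.le hpn (by norm_num : (0 : ℝ) ≤ 3 / 4)
          gcongr
      _ = n ^ ((7 : ℝ) / 8) := by
          rw [← Real.rpow_mul hn0.le, ← Real.rpow_add hn0]; norm_num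
      _ ≤ n ^ (1 : ℝ) := Real.rpow_le_rpow_of_exponent_le hn (by norm_num)
      _ = n := Real.rpow_one _
  · rw [Real.div_rpow hn0.le hpp.le, ← Real.rpow_mul hp0.le]
    norm_num
  · rw [div_mul_eq_mul_div, eq_div_iff hpp.ne', mul_assoc, ← Real.rpow_add hp0]
    norm_num

theorem t2fin {n p C S J m : ℝ} {a : ℕ} (hn : 1 ≤ n) (hp : 1 ≤ p) (hpn : p ≤ n ^ ((1 : ℝ) / 2))
    (hC : 0 < C) (hJ : 0 ≤ J) (hm : (2 : ℝ) ^ a ≤ m)
    (hS : S * p ≤ (J + 1) * (C * n * (p * 2 ^ (a + 1)) ^ ((1 : ℝ) / 4))) :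
    S ≤ 2 * (J + 1) * C * (n / p ^ ((3 : ℝ) / 4)) * m ^ ((1 : ℝ) / 4) := by
  have hp0 : 0 < p := by linarith
  have hm0 : 0 < m := lt_of_lt_of_le (by positivity) hm
  obtain ⟨-, -, h3⟩ := w_facts hn hp hpn
  have h4 : (p * 2 ^ (a + 1)) ^ ((1 : ℝ) / 4) ≤ p ^ ((1 : ℝ) / 4) * (2 * m ^ ((1 : ℝ) / 4)) := by
    rw [Real.mul_rpow hp0.le (by positivity)]
    have h5 : ((2 : ℝ) ^ (a + 1)) ^ ((1 : ℝ) / 4) ≤ (2 * m) ^ ((1 : ℝ) / 4) := by
      apply Real.rpow_le_rpow (by positivity) _ (by norm_num)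
      rw [pow_succ]; linarith
    have h6 : (2 * m) ^ ((1 : ℝ) / 4) ≤ 2 * m ^ ((1 : ℝ) / 4) := by
      rw [Real.mul_rpow (by norm_num) hm0.le]
      have : (2 : ℝ) ^ ((1 : ℝ) / 4) ≤ (2 : ℝ) ^ (1 : ℝ) :=
        Real.rpow_le_rpow_of_exponent_le (by norm_num) (by norm_num)
      rw [Real.rpow_one] at this
      gcongr
    have h7 := h5.trans h6
    gcongr
  have h8 : S * p ≤ (2 * (J + 1) * C * (n / p ^ ((3 : ℝ) / 4)) * m ^ ((1 : ℝ) / 4)) * p := by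
    calc S * p ≤ (J + 1) * (C * n * (p * 2 ^ (a + 1)) ^ ((1 : ℝ) / 4)) := hS
      _ ≤ (J + 1) * (C * n * (p ^ ((1 : ℝ) / 4) * (2 * m ^ ((1 : ℝ) / 4)))) := by gcongr
      _ = 2 * (J + 1) * C * m ^ ((1 : ℝ) / 4) * (n * p ^ ((1 : ℝ) / 4)) := by ring
      _ = _ := by rw [h3]; ring
  exact le_of_mul_le_mul_right h8 hp0

theorem bigfin {n c P0 L p L1 E0 E1 : ℝ} (hn0 : 0 < n) (hp0 : 0 < p) (hE1 : 0 ≤ E1)
    (hP0 : 0 ≤ P0)
    (h1 : n ^ ((4 : ℝ) / 3 - 5 * c) ≤ P0 * E0) (hPL : P0 ≤ L * p) (hE3 : E0 ≤ L1 * E1)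
    (hLL : L1 * L ≤ n ^ c) (hL1 : 0 ≤ L1) : n ^ ((4 : ℝ) / 3) / p ≤ n ^ (6 * c) * E1 := by
  rw [div_le_iff₀ hp0]
  have e1 : n ^ ((4 : ℝ) / 3) = n ^ (5 * c) * n ^ ((4 : ℝ) / 3 - 5 * c) := by
    rw [← Real.rpow_add hn0]; congr 1; ring
  have e2 : n ^ (6 * c) = n ^ (5 * c) * n ^ c := by
    rw [← Real.rpow_add hn0]; congr 1; ring
  have h5 : 0 ≤ n ^ (5 * c) := by positivity
  have hLE : 0 ≤ L1 * E1 := mul_nonneg hL1 hE1
  have h2 : n ^ ((4 : ℝ) / 3 - 5 * c) ≤ n ^ c * E1 * p := by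
    calc n ^ ((4 : ℝ) / 3 - 5 * c) ≤ P0 * E0 := h1
      _ ≤ P0 * (L1 * E1) := mul_le_mul_of_nonneg_left hE3 hP0
      _ ≤ (L * p) * (L1 * E1) := mul_le_mul_of_nonneg_right hPL hLE
      _ = (L1 * L) * (E1 * p) := by ring
      _ ≤ n ^ c * (E1 * p) := mul_le_mul_of_nonneg_right hLL (mul_nonneg hE1 hp0.le)
      _ = n ^ c * E1 * p := by ring
  calc n ^ ((4 : ℝ) / 3) = n ^ (5 * c) * n ^ ((4 : ℝ) / 3 - 5 * c) := e1
    _ ≤ n ^ (5 * c) * (n ^ c * E1 * p) := mul_le_mul_of_nonneg_left h2 h5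
    _ = n ^ (6 * c) * E1 * p := by rw [e2]; ring

theorem qfin {n c C0 ε B q : ℝ} (hn1 : 1 ≤ n) (hB : 0 ≤ B) (hε : 0 < ε) (hc0 : 0 < c)
    (hc2 : c ≤ ε * C0 / (20 * (B + 1))) (hq : n ^ (C0 / (B + 1)) ≤ q) :
    n ^ (6 * c) ≤ q ^ ε := by
  have hn0 : 0 < n := by linarith
  have h1 : n ^ (6 * c) ≤ n ^ (C0 / (B + 1) * ε) := by
    apply Real.rpow_le_rpow_of_exponent_le hn1
    have h2 : 20 * c ≤ ε * C0 / (B + 1) := by
      calc 20 * c ≤ 20 * (ε * C0 / (20 * (B + 1))) := by linarith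
        _ = ε * C0 / (B + 1) := by field_simp
    have h3 : C0 / (B + 1) * ε = ε * C0 / (B + 1) := by ring
    rw [h3]
    linarith
  refine h1.trans ?_
  rw [Real.rpow_mul hn0.le]
  exact Real.rpow_le_rpow (by positivity) hq hε.le

theorem growfin {n c M L : ℝ} (hn1 : 1 ≤ n) (hM : 0 ≤ M) (hc : c ≤ 1 / 2000)
    (h1 : n ^ ((1 : ℝ) / 32 - 5 * c) ≤ M * L) (hL : L ≤ n ^ c) : n ^ ((1 : ℝ) / 40) ≤ M := by
  have hn0 : 0 < n := by linarith
  have h2 : n ^ ((1 : ℝ) / 32 - 5 * c) ≤ M * n ^ c :=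
    h1.trans (mul_le_mul_of_nonneg_left hL hM)
  have e : n ^ ((1 : ℝ) / 32 - 5 * c) = n ^ ((1 : ℝ) / 32 - 6 * c) * n ^ c := by
    rw [← Real.rpow_add hn0]; congr 1; ring
  rw [e] at h2
  have h3 := le_of_mul_le_mul_right h2 (Real.rpow_pos_of_pos hn0 c)
  refine le_trans ?_ h3
  apply Real.rpow_le_rpow_of_exponent_le hn1
  linarith

end

end XPreEx

open XPreEx in
theorem I_PreEx (hFam : StFam) (hT2 : StT2) (hReg : StReg) : StPreEx := by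
  intro C0 hC0 B hB ε hε
  obtain ⟨C, hC, hT⟩ := hT2
  have hB1 : (0 : ℝ) < (B : ℝ) + 1 := by positivity
  obtain ⟨c, hcdef⟩ : ∃ c : ℝ, c = min (1 / 2000) (ε * C0 / (20 * ((B : ℝ) + 1))) := ⟨_, rfl⟩
  have hc0 : 0 < c := by
    rw [hcdef]
    apply lt_min (by norm_num)
    have : 0 < C0 := by linarith
    positivity
  have hc1 : c ≤ 1 / 2000 := by rw [hcdef]; exact min_le_left _ _
  have hc2 : c ≤ ε * C0 / (20 * ((B : ℝ) + 1)) := by rw [hcdef]; exact min_le_right _ _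
  obtain ⟨n1, hF⟩ := hFam B hB c hc0 (by linarith)
  obtain ⟨n2, hA⟩ := asym (B + 3) c (2 * (((B + 3 : ℕ) : ℝ) + 1) * C) hc0
  refine ⟨c, hc0, max n1 (max n2 (2 ^ (B + 4))), ?_⟩
  intro ι _ _ K m hn hgp hm hmn hsep hN
  have hnn1 : n1 ≤ Fintype.card ι := (le_max_left _ _).trans hn
  have hnn2 : n2 ≤ Fintype.card ι := ((le_max_left _ _).trans (le_max_right _ _)).trans hn
  have hnn3 : 2 ^ (B + 4) ≤ Fintype.card ι := ((le_max_right _ _).trans (le_max_right _ _)).trans hn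
  have hn1 : 1 ≤ Fintype.card ι := le_trans Nat.one_le_two_pow hnn3
  obtain ⟨n, hndef⟩ : ∃ n : ℝ, n = (Fintype.card ι : ℝ) := ⟨_, rfl⟩
  have hn1' : 1 ≤ n := by rw [hndef]; exact_mod_cast hn1
  have hn0 : 0 < n := by linarith
  obtain ⟨hA1, hA2⟩ := hA (Fintype.card ι) hnn2 hn1
  obtain ⟨q, hq2, hq8, hqC, hqe⟩ := qex B C0 hC0 (Fintype.card ι) hnn3
  have hq1 : 1 ≤ q := by omega
  have hnC1 : 1 ≤ (Fintype.card ι : ℝ) ^ C0 :=
    Real.one_le_rpow (by exact_mod_cast hn1) (by linarith)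
  obtain ⟨P, u, R0, E, hPne, hPcard, hE, hdis0, hbig, hmass0⟩ := hF ι K m q hnn1 hgp hm hsep hq2
    (by linarith) hN
  -- make the lengths positive
  obtain ⟨R, hRdef⟩ : ∃ R : ℕ → ℝ, R = fun h => if 0 < R0 h then R0 h else 1 := ⟨_, rfl⟩
  have hR : ∀ h, 0 < R h := by
    intro h
    rw [hRdef]
    simp only
    split_ifs with h1
    · exact h1
    · norm_num
  have hRR : ∀ h ∈ P, R0 h = R h := by
    intro h hh
    rw [hRdef]
    simp only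
    rw [if_pos (hE h hh).1]
  have hEE : ∀ h ∈ P, ∀ k ∈ E h, k < K.N ∧ u h ≤ K.t k ∧ K.t k < u h + R h := by
    intro h hh k hk
    rw [← hRR h hh]
    exact (hE h hh).2 k hk
  have hdis : ∀ h ∈ P, ∀ h' ∈ P, h ≠ h' → u h + R h ≤ u h' ∨ u h' + R h' ≤ u h := by
    intro h hh h' hh' hne
    rw [← hRR h hh, ← hRR h' hh']
    exact hdis0 h hh h' hh' hne
  have hmass : ∀ h ∈ P, ∀ c' : ℕ, (((E h).filter (fun k =>
      (K.resc (u h) (R h) (hR h)).cell q (B + 3) k = c')).card : ℝ) *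
        n ^ ((1 : ℝ) / 32 - 5 * c) ≤ ((E h).card : ℝ) := by
    intro h hh c'
    have := hmass0 h hh c'
    rw [hRR h hh, ← hndef] at this
    exact this
  have hxinj : Function.Injective K.x := by
    intro i j hij
    by_contra hne
    have := hsep i j hne
    rw [hij, sub_self, abs_zero, mul_zero] at this
    linarith
  -- regularisation
  have hEcard : ∀ h ∈ P, (E h).card ≤ (Fintype.card ι) ^ 2 := by
    intro h hh
    rw [sq]
    exact XREGEX.card_le K (E h) (fun k hk => (hEE h hh k hk).1)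
  have hEne : ∀ h ∈ P, (E h).Nonempty := by
    intro h hh
    rw [nonempty_iff_ne_empty]
    intro h0
    have h1 := hbig h hh
    rw [h0, card_empty, Nat.cast_zero, mul_zero, ← hndef] at h1
    have h2 : 0 < n ^ ((4 : ℝ) / 3 - 5 * c) := Real.rpow_pos_of_pos hn0 _
    linarith
  obtain ⟨ℓ, hℓ⟩ : ∃ ℓ : ℝ, ℓ = (Nat.log 2 ((Fintype.card ι) ^ 2) : ℝ) + 1 := ⟨_, rfl⟩
  have hℓ1 : 1 ≤ ℓ := by
    rw [hℓ]
    have : (0 : ℝ) ≤ (Nat.log 2 ((Fintype.card ι) ^ 2) : ℝ) := Nat.cast_nonneg _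
    linarith
  obtain ⟨L1, hL1⟩ : ∃ L1 : ℝ, L1 = 8 * (((B + 3 : ℕ) : ℝ) + 2) * ℓ ^ (B + 3 + 1) := ⟨_, rfl⟩
  have hex : ∀ h, ∃ E' : Finset ℕ, h ∈ P → (E' ⊆ E h ∧ E'.Nonempty ∧
      ((E h).card : ℝ) ≤ L1 * E'.card ∧ ∀ j ≤ B + 3,
        RegF L1 E' ((K.resc (u h) (R h) (hR h)).cell q j)) := by
    intro h
    by_cases hh : h ∈ P
    · obtain ⟨E', h1, h2, h3, h4⟩ := reg1 hReg (K.resc (u h) (R h) (hR h)) q (B + 3)
        (Fintype.card ι) (E h) (hEne h hh) (hEcard h hh)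
      rw [← hℓ, ← hL1] at h3 h4
      exact ⟨E', fun _ => ⟨h1, h2, h3, h4⟩⟩
    · exact ⟨∅, fun h' => absurd h' hh⟩
  choose E' hE' using hex
  -- classes
  obtain ⟨a, ha⟩ : ∃ a : ℕ → (Fin (B + 3 + 1) → Fin (Nat.log 2 ((Fintype.card ι) ^ 2) + 1)),
      a = fun h j => ⟨min (Nat.log 2 (im (E' h) ((K.resc (u h) (R h) (hR h)).cell q j)))
        (Nat.log 2 ((Fintype.card ι) ^ 2)), by omega⟩ := ⟨_, rfl⟩
  obtain ⟨b, hb1, hb2⟩ := pigeon P hPne a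
  obtain ⟨P1, hP1⟩ : ∃ P1, P1 = P.filter (fun h => a h = b) := ⟨_, rfl⟩
  rw [← hP1] at hb1 hb2
  have hP1P : ∀ h ∈ P1, h ∈ P := by
    intro h hh
    rw [hP1, mem_filter] at hh
    exact hh.1
  have hlogim : ∀ h ∈ P1, ∀ j, (hj : j ≤ B + 3) →
      Nat.log 2 (im (E' h) ((K.resc (u h) (R h) (hR h)).cell q j)) =
        (b ⟨j, by omega⟩ : ℕ) := by
    intro h hh j hj
    have hhP := hP1P h hh
    rw [hP1, mem_filter] at hh
    rw [← hh.2, ha]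
    simp only
    symm
    apply min_eq_left
    apply Nat.log_mono_right
    calc im (E' h) ((K.resc (u h) (R h) (hR h)).cell q j) ≤ (E' h).card := card_image_le
      _ ≤ (E h).card := card_le_card (hE' h hhP).1
      _ ≤ _ := hEcard h hhP
  have himpos : ∀ h ∈ P, ∀ j, 0 < im (E' h) ((K.resc (u h) (R h) (hR h)).cell q j) := by
    intro h hh j
    exact card_pos.2 ((hE' h hh).2.1.image _)
  -- numbers
  obtain ⟨p, hp⟩ : ∃ p : ℝ, p = (P1.card : ℝ) := ⟨_, rfl⟩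
  have hp1 : 1 ≤ p := by rw [hp]; exact_mod_cast hb2.card_pos
  have hpn : p ≤ n ^ ((1 : ℝ) / 2) := by
    rw [hp, hndef]
    refine le_trans ?_ hPcard
    exact_mod_cast card_le_card (fun h hh => hP1P h hh)
  have hPL : (P.card : ℝ) ≤ ℓ ^ (B + 3 + 1) * p := by
    rw [Fintype.card_fun, Fintype.card_fin, Fintype.card_fin] at hb1
    rw [hℓ, hp]
    exact_mod_cast hb1
  obtain ⟨α, hα⟩ : ∃ α : ℕ → ℕ, ∀ j, (hj : j ≤ B + 3) → α j = (b ⟨j, by omega⟩ : ℕ) :=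
    ⟨fun j => if hj : j ≤ B + 3 then (b ⟨j, by omega⟩ : ℕ) else 0, fun j hj => by
      simp only; rw [dif_pos hj]⟩
  have hlogim' : ∀ h ∈ P1, ∀ j ≤ B + 3,
      2 ^ α j ≤ im (E' h) ((K.resc (u h) (R h) (hR h)).cell q j) ∧
      im (E' h) ((K.resc (u h) (R h) (hR h)).cell q j) ≤ 2 ^ (α j + 1) := by
    intro h hh j hj
    rw [hα j hj, ← hlogim h hh j hj]
    exact ⟨Nat.pow_log_le_self 2 (himpos h (hP1P h hh) j).ne',
      (Nat.lt_pow_succ_log_self (by norm_num) _).le⟩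
  obtain ⟨S, hS⟩ : ∃ S : ℕ → ℕ → ℝ, S = fun j h =>
      ∑ c ∈ (E' h).image ((K.resc (u h) (R h) (hR h)).cell q j),
        ((visC (K.resc (u h) (R h) (hR h)) q j c).card : ℝ) := ⟨_, rfl⟩
  obtain ⟨h, hh, hav⟩ := avg P1 hb2 (B + 3) S
    (fun j => C * n * (p * 2 ^ (α j + 1)) ^ ((1 : ℝ) / 4)) (by
      intro j _
      have : 0 < p := by linarith
      positivity) (by
      intro j h
      rw [hS]
      exact sum_nonneg fun _ _ => Nat.cast_nonneg _) (by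
      intro j hj
      rw [hS]
      simp only
      refine (t2sum K (hT ι K hxinj hgp) P1 u R hR
        (fun h hh h' hh' hne => hdis h (hP1P h hh) h' (hP1P h' hh') hne) q j hq1
        (fun h => (E' h).image ((K.resc (u h) (R h) (hR h)).cell q j)) ?_).trans ?_
      · intro h hh c hc
        rw [mem_image] at hc
        obtain ⟨k, hk, rfl⟩ := hc
        obtain ⟨h1, h2, h3⟩ := hEE h (hP1P h hh) k ((hE' h (hP1P h hh)).1 hk)
        apply cell_lt _ _ _ _ hq1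
        · show 0 ≤ (K.t k - u h) / R h
          exact div_nonneg (by linarith) (hR h).le
        · show (K.t k - u h) / R h < 1
          rw [div_lt_one (hR h)]
          linarith
      · rw [← hndef]
        have hsum : ∑ h ∈ P1, (((E' h).image ((K.resc (u h) (R h) (hR h)).cell q j)).card : ℝ) ≤
            p * 2 ^ (α j + 1) := by
          rw [hp, ← nsmul_eq_mul, ← sum_const]
          refine sum_le_sum fun h hh => ?_
          exact_mod_cast (hlogim' h hh j hj).2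
        have hnn : 0 ≤ ∑ h ∈ P1,
            (((E' h).image ((K.resc (u h) (R h) (hR h)).cell q j)).card : ℝ) :=
          sum_nonneg fun _ _ => Nat.cast_nonneg _
        have := Real.rpow_le_rpow hnn hsum (by norm_num : (0 : ℝ) ≤ 1 / 4)
        exact mul_le_mul_of_nonneg_left this (mul_nonneg hC.le hn0.le))
  have hhP := hP1P h hh
  obtain ⟨hE1, hE2, hE3, hE4⟩ := hE' h hhP
  rw [← hndef] at hA1 hA2
  -- the constant
  have hLL : L1 * ℓ ^ (B + 3 + 1) ≤ n ^ c := by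
    refine le_trans (le_of_eq ?_) hA1
    rw [hL1, hℓ]
    ring
  have hL10 : 0 ≤ L1 := by rw [hL1]; positivity
  have hL1c : L1 ≤ n ^ c := by
    refine le_trans ?_ hLL
    calc L1 = L1 * 1 := (mul_one _).symm
      _ ≤ L1 * ℓ ^ (B + 3 + 1) := by
        have := one_le_pow₀ hℓ1 (n := B + 3 + 1)
        gcongr
  have hc6 : n ^ c ≤ n ^ (6 * c) := Real.rpow_le_rpow_of_exponent_le hn1' (by linarith)
  obtain ⟨hw1, hw2, -⟩ := w_facts hn1' hp1 hpn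
  have hp0 : 0 < p := by linarith
  refine ⟨u h, R h, hR h, q, n / p ^ ((3 : ℝ) / 4), n ^ (6 * c), E' h, ?_, ?_, ?_, hqC,
    ?_, ?_⟩
  · refine ⟨?_, hE2, hq2, ?_, ?_, ?_, ?_, ?_⟩
    · intro k hk
      obtain ⟨h1, h2, h3⟩ := hEE h hhP k (hE1 hk)
      refine ⟨h1, ?_, ?_⟩
      · show 0 ≤ (K.t k - u h) / R h
        exact div_nonneg (by linarith) (hR h).le
      · show (K.t k - u h) / R h < 1
        rw [div_lt_one (hR h)]
        linarith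
    · exact (Real.one_le_rpow hn1' (by norm_num)).trans hw1
    · exact Real.one_le_rpow hn1' (by linarith)
    · rw [hw2]
      have h1 := hbig h hhP
      rw [← hndef] at h1
      exact bigfin hn0 hp0 (Nat.cast_nonneg _) (Nat.cast_nonneg _) h1 hPL hE3 hLL hL10
    · intro j hj
      exact XREGEX.regF_mono (hL1c.trans hc6) _ _ (hE4 j hj)
    · intro j hj
      have h1 := hav j hj
      rw [hS, ← hp] at h1
      have h2 : (2 : ℝ) ^ α j ≤ (im (E' h) ((K.resc (u h) (R h) (hR h)).cell q j) : ℝ) := by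
        exact_mod_cast (hlogim' h hh j hj).1
      have h3 := t2fin hn1' hp1 hpn hC (Nat.cast_nonneg (B + 3)) h2 h1
      refine h3.trans ?_
      have h4 : 2 * (((B + 3 : ℕ) : ℝ) + 1) * C ≤ n ^ (6 * c) := hA2.trans hc6
      exact mul_le_mul_of_nonneg_right (mul_le_mul_of_nonneg_right h4
        (div_nonneg hn0.le (Real.rpow_nonneg hp0.le _))) (Real.rpow_nonneg (Nat.cast_nonneg _) _)
  · exact qfin hn1' (Nat.cast_nonneg B) hε hc0 hc2 (by rw [hndef]; exact hqe)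
  · linarith
  · rw [← hndef]
    exact hw1
  · rw [← hndef]
    exact growfin hn1' (Nat.cast_nonneg _) hc1 (growth (E h) (E' h) hE1 hE2
      ((K.resc (u h) (R h) (hR h)).cell q (B + 3)) hE3
      (Real.rpow_pos_of_pos hn0 _) (hmass h hhP)) hL1c

end Pool.Agent.Work.MP_e17eac_co.PS
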