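import Pool.Agent.Work.MP_e17eac_co.PS.Lg

/-!
# Project PS, block REG: sizes (item Q1)
-/

set_option autoImplicit false

namespace Pool.Agent.Work.MP_e17eac_co.PS

open Finset
open Pool.Agent.Work.MP_e17eac_co.DH

namespace XQ1

theorem im_pair_le {α β : Type} [DecidableEq α] [DecidableEq β] (E : Finset ℕ)
    (f : ℕ → α) (g : ℕ → β) : im E (fun n => (f n, g n)) ≤ im E f * im E g := by
  classical
  unfold im
  rw [← Finset.card_product]
  refine Finset.card_le_card ?_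
  intro z hz
  obtain ⟨n, hn, rfl⟩ := Finset.mem_image.1 hz
  exact Finset.mem_product.2 ⟨Finset.mem_image_of_mem f hn, Finset.mem_image_of_mem g hn⟩

variable {ι : Type} [Fintype ι] [DecidableEq ι] {X : RS ι}

theorem one_le_Q (h : X.OK0) : 1 ≤ X.Q := by
  have h1 := h.one_lt_Q
  have h2 : (1 : ℝ) ≤ (X.Q : ℝ) := h1.le
  exact_mod_cast h2

theorem big (h : X.OK0) : 4 / 3 * X.w - 2 ≤ X.lE := by
  have hW := h.W_pos
  have h1 := h.lg_le (Real.rpow_pos_of_pos hW _) h.big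
  rw [h.lg_mul (h.Qpow_pos 2) h.card_pos, h.lg_Qpow] at h1
  have h2 : X.lg (X.W ^ ((4 : ℝ) / 3)) = 4 / 3 * X.w :=
    Real.logb_rpow_eq_mul_logb_of_pos hW
  rw [h2] at h1
  have h3 : X.lE = X.lg (X.E.card : ℝ) := rfl
  rw [h3]
  push_cast at h1
  linarith

theorem act_lo (h : X.OK0) (j : ℕ) (hj : j ≤ X.J) : X.s * j - 3 ≤ X.lM j := by
  have hE := h.card_pos
  have hp : 0 < (X.Q : ℝ) ^ (X.s * (j : ℝ)) := Real.rpow_pos_of_pos h.Q_pos _
  have hM := h.im_pos (fun n => X.cl j n)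
  have e : (X.E.card : ℝ) = ∑ a ∈ X.E.image (fun n => X.cl j n),
      ((X.E.filter (fun k => X.cl j k = a)).card : ℝ) := by
    exact_mod_cast Finset.card_eq_sum_card_image (fun n => X.cl j n) X.E
  have key : (X.E.card : ℝ) * (X.Q : ℝ) ^ (X.s * (j : ℝ)) ≤
      (im X.E (fun n => X.cl j n) : ℝ) * ((X.Q : ℝ) ^ 3 * (X.E.card : ℝ)) := by
    calc (X.E.card : ℝ) * (X.Q : ℝ) ^ (X.s * (j : ℝ))
        = ∑ a ∈ X.E.image (fun n => X.cl j n),
          ((X.E.filter (fun k => X.cl j k = a)).card : ℝ) * (X.Q : ℝ) ^ (X.s * (j : ℝ)) := by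
          rw [← Finset.sum_mul, ← e]
      _ ≤ ∑ _a ∈ X.E.image (fun n => X.cl j n), (X.Q : ℝ) ^ 3 * (X.E.card : ℝ) :=
          Finset.sum_le_sum (fun a _ => h.fib j hj a)
      _ = _ := by rw [Finset.sum_const, nsmul_eq_mul]; rfl
  have k2 : (X.Q : ℝ) ^ (X.s * (j : ℝ)) ≤
      (im X.E (fun n => X.cl j n) : ℝ) * (X.Q : ℝ) ^ 3 := by
    refine le_of_mul_le_mul_left ?_ hE
    calc (X.E.card : ℝ) * (X.Q : ℝ) ^ (X.s * (j : ℝ)) ≤ _ := key
      _ = _ := by ring
  have h1 := h.lg_le hp k2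
  rw [h.lg_Qrpow, h.lg_mul (by linarith) (h.Qpow_pos 3), h.lg_Qpow] at h1
  have h3 : X.lM j = X.lg (im X.E (fun n => X.cl j n) : ℝ) := rfl
  rw [h3]
  push_cast at h1
  linarith

theorem act_hi (h : X.OK0) (j : ℕ) (hj : j ≤ X.J) : X.lM j ≤ X.s * j + 2 := by
  have hp : 0 < (X.Q : ℝ) ^ (X.s * (j : ℝ)) := Real.rpow_pos_of_pos h.Q_pos _
  have hM := h.im_pos (fun n => X.cl j n)
  have h1 := h.lg_le (by linarith) (h.act j hj)
  rw [h.lg_mul (h.Qpow_pos 2) hp, h.lg_Qrpow, h.lg_Qpow] at h1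
  have h3 : X.lM j = X.lg (im X.E (fun n => X.cl j n) : ℝ) := rfl
  rw [h3]
  push_cast at h1
  linarith

end XQ1

theorem I_Q1 (hNest : StNest) : StQ1 := by
  intro ι _ _ X h
  obtain ⟨n1, -, -, n4, -, n6, -, n8⟩ := hNest ι X.K X.Q (XQ1.one_le_Q h)
  have c0 : ∀ n ∈ X.E, X.cl 0 n = 0 := fun n hn =>
    n8 n (h.sub n hn).2.1 (h.sub n hn).2.2
  have cm : ∀ j j' n k, j ≤ j' → n ∈ X.E → k ∈ X.E → X.cl j' n = X.cl j' k →
      X.cl j n = X.cl j k := fun j j' n k hj hn hk e =>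
    n1 j j' n k hj (h.sub n hn).2.1 (h.sub k hk).2.1 e
  have bm : ∀ i i' n k, i ≤ i' → X.box i' n = X.box i' k → X.box i n = X.box i k :=
    fun i i' n k hi e => n4 i i' _ _ hi e
  have sb : ∀ i n, X.slot i n = (X.box i n).1 := fun i n => (n6 i _).symm
  refine ⟨XQ1.big h, fun j hj => ⟨XQ1.act_lo h j hj, XQ1.act_hi h j hj⟩, ?_, ?_, ?_, ?_, ?_, ?_, ?_⟩
  · intro j i
    constructor
    · refine h.lg_im_le (fun n => (X.cl j n, X.slot i n)) (fun n => (X.cl j n, X.box i n)) ?_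
      intro n _ k _ e
      have e' := Prod.mk.inj e
      exact Prod.ext e'.1 (by
        show X.slot i n = X.slot i k
        rw [sb, sb, e'.2])
    · have h1 := XQ1.im_pair_le X.E (fun n => X.cl j n) (fun n => X.box i n)
      have h2 := h.im_pos (fun n => (X.cl j n, X.box i n))
      have h3 := h.im_pos (fun n => X.cl j n)
      have h4 := h.im_pos (fun n => X.box i n)
      have h5 : (im X.E (fun n => (X.cl j n, X.box i n)) : ℝ) ≤
          (im X.E (fun n => X.cl j n) : ℝ) * (im X.E (fun n => X.box i n) : ℝ) := by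
        exact_mod_cast h1
      have h6 := h.lg_le (by linarith) h5
      rw [h.lg_mul (by linarith) (by linarith)] at h6
      exact h6
  · intro i i' hi
    refine h.lg_im_le (fun n => X.box i n) (fun n => X.box i' n) ?_
    intro n _ k _ e
    exact bm i i' n k hi e
  · intro j j' i hj
    refine h.lg_im_le (fun n => (X.cl j n, X.box i n)) (fun n => (X.cl j' n, X.box i n)) ?_
    intro n hn k hk e
    have e' := Prod.mk.inj e
    exact Prod.ext (cm j j' n k hj hn hk e'.1) e'.2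
  · intro j i i' hi
    refine h.lg_im_le (fun n => (X.cl j n, X.box i n)) (fun n => (X.cl j n, X.box i' n)) ?_
    intro n _ k _ e
    have e' := Prod.mk.inj e
    exact Prod.ext e'.1 (bm i i' n k hi e'.2)
  · exact h.lg_im_nonneg _
  · intro i
    refine le_antisymm ?_ ?_
    · refine h.lg_im_le (fun n => (X.cl 0 n, X.box i n)) (fun n => X.box i n) ?_
      intro n hn k hk e
      exact Prod.ext ((c0 n hn).trans (c0 k hk).symm) e
    · refine h.lg_im_le (fun n => X.box i n) (fun n => (X.cl 0 n, X.box i n)) ?_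
      intro n _ k _ e
      exact (Prod.mk.inj e).2
  · refine le_antisymm ?_ (h.lg_im_nonneg _)
    have h1 : X.lM 0 ≤ X.lg (im X.E (fun _ => (0 : ℕ)) : ℝ) := by
      refine h.lg_im_le (fun n => X.cl 0 n) (fun _ => (0 : ℕ)) ?_
      intro n hn k hk _
      exact (c0 n hn).trans (c0 k hk).symm
    have h2 : im X.E (fun _ => (0 : ℕ)) = 1 := by
      unfold im
      rw [Finset.image_const h.ne, Finset.card_singleton]
    rw [h2, Nat.cast_one, h.lg_one] at h1
    exact h1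

end Pool.Agent.Work.MP_e17eac_co.PS
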