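import Pool.Agent.Work.MP_e17eac_co.PS.Lg

/-!
# Project PS, item Q2: lines and tokens of a cell are visited lines
-/

namespace Pool.Agent.Work.MP_e17eac_co.PS

open Finset
open Pool.Agent.Work.MP_e17eac_co.DH

namespace XQ2

variable {ι : Type} [Fintype ι] [DecidableEq ι]

/-- A line of an edge of the cell `c` is visited in the cell `c`. -/
theorem ln_mem_visC (K : KSys ι) (Q j c : ℕ) (s : Bool) (n : ℕ) (hn : n < K.N) (h0 : 0 ≤ K.t n)
    (hc : K.cell Q j n = c) : K.ln s n ∈ visC K Q j c := by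
  classical
  unfold visC KSys.lines
  have hm : n ∈ (range K.N).filter (fun n => 0 ≤ K.t n ∧ K.cell Q j n = c) := by
    rw [mem_filter]
    exact ⟨mem_range.2 hn, h0, hc⟩
  rw [mem_union]
  cases s with
  | false => exact Or.inl (mem_image_of_mem K.a hm)
  | true => exact Or.inr (mem_image_of_mem K.b hm)

/-- The cell of an edge between the start of the cell `c` and an edge of the cell `c`. -/
theorem cell_between (hIdx : StIdx) (K : KSys ι) (Q j c n m : ℕ) (hQ : 1 ≤ Q) (hn : n < K.N)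
    (h0 : 0 ≤ K.t n) (hc : K.cell Q j n = c) (h1 : K.ci Q j c ≤ m) (h2 : m ≤ n) :
    0 ≤ K.t m ∧ K.cell Q j m = c := by
  have hQ' : (0 : ℝ) < (Q : ℝ) ^ j := by
    have : (0 : ℝ) < Q := by exact_mod_cast hQ
    positivity
  have hm : m < K.N := lt_of_le_of_lt h2 hn
  have h3 : (c : ℝ) / (Q : ℝ) ^ j ≤ K.t m := by
    by_contra hcon
    push Not at hcon
    have := ((hIdx ι K).2.1 m ((c : ℝ) / (Q : ℝ) ^ j)).2 ⟨hm, hcon⟩
    unfold KSys.ci at h1
    omega
  have h4 : K.t m ≤ K.t n := by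
    rcases Nat.lt_or_ge m n with h | h
    · exact (K.t_lt m n h hn).le
    · have : m = n := le_antisymm h2 h
      rw [this]
  have h5 : (0 : ℝ) ≤ (c : ℝ) / (Q : ℝ) ^ j := by positivity
  have h6 : 0 ≤ K.t m := h5.trans h3
  refine ⟨h6, ?_⟩
  unfold KSys.cell at hc ⊢
  have h7 : K.t n * (Q : ℝ) ^ j < (c : ℝ) + 1 := by
    rw [← hc]; exact Nat.lt_floor_add_one _
  have h8 : (c : ℝ) ≤ K.t m * (Q : ℝ) ^ j := by
    rwa [div_le_iff₀ hQ'] at h3
  have h9 : K.t m * (Q : ℝ) ^ j ≤ K.t n * (Q : ℝ) ^ j :=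
    mul_le_mul_of_nonneg_right h4 hQ'.le
  rw [Nat.floor_eq_iff (by positivity)]
  exact ⟨h8, by linarith⟩

/-- The start of the cell of `n` is at most `n`. -/
theorem ci_le (hIdx : StIdx) (K : KSys ι) (Q j c n : ℕ) (hQ : 1 ≤ Q) (h0 : 0 ≤ K.t n)
    (hc : K.cell Q j n = c) : K.ci Q j c ≤ n := by
  have hQ' : (0 : ℝ) < (Q : ℝ) ^ j := by
    have : (0 : ℝ) < Q := by exact_mod_cast hQ
    positivity
  by_contra hcon
  push Not at hcon
  unfold KSys.ci at hcon
  have h1 := (((hIdx ι K).2.1 n ((c : ℝ) / (Q : ℝ) ^ j)).1 hcon).2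
  rw [lt_div_iff₀ hQ'] at h1
  unfold KSys.cell at hc
  have h2 : ((⌊K.t n * (Q : ℝ) ^ j⌋₊ : ℕ) : ℝ) ≤ K.t n * (Q : ℝ) ^ j :=
    Nat.floor_le (by positivity)
  rw [hc] at h2
  linarith

theorem tok_kind (hTok : StTok) (K : KSys ι) (p : Bool) (n : ℕ) (hn : n < K.N) :
    (K.tok p n ∈ K.S 0 ↔ p = false) := by
  obtain ⟨h1, h2, -⟩ := hTok ι K n hn
  cases p with
  | false => exact ⟨fun _ => rfl, fun _ => h1⟩
  | true => exact ⟨fun h => absurd h h2, fun h => absurd h (by decide)⟩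

/-- A token which is not moved. -/
theorem pos_const (hTok : StTok) (K : KSys ι) (p : Bool) (n s m : ℕ) (hn : n < K.N)
    (hsm : s ≤ m) (hmn : m ≤ n) (hne : ∀ k, s ≤ k → k < m → K.tok p k ≠ K.tok p n) :
    K.pos m (K.tok p n) = K.pos s (K.tok p n) := by
  induction m with
  | zero =>
    have : s = 0 := by omega
    rw [this]
  | succ m ih =>
    rcases Nat.lt_or_ge m s with h | h
    · have : s = m + 1 := by omega
      rw [this]
    · have hm : m < K.N := by omega
      have h1 := ih h (by omega) (fun k hk hk' => hne k hk (by omega))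
      rw [← h1]
      obtain ⟨-, -, -, -, -, -, h8⟩ := hTok ι K m hm
      have hself := hne m h (by omega)
      have k1 := tok_kind hTok K p n hn
      have k2 := tok_kind hTok K (!p) m hm
      have hother : K.tok (!p) m ≠ K.tok p n := by
        intro he
        rw [he] at k2
        cases p with
        | false => exact absurd (k2.1 (k1.2 rfl)) (by decide)
        | true => exact absurd (k1.1 (k2.2 rfl)) (by decide)
      cases p with
      | false => exact h8 _ (fun h => hself h.symm) (fun h => hother h.symm)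
      | true => exact h8 _ (fun h => hother h.symm) (fun h => hself h.symm)

/-- The start line of a token moved in the cell `c` is visited in the cell `c`. -/
theorem tok_mem_visC (hTok : StTok) (hIdx : StIdx) (K : KSys ι) (Q j c : ℕ) (hQ : 1 ≤ Q)
    (p : Bool) (n : ℕ) (hn : n < K.N) (h0 : 0 ≤ K.t n) (hc : K.cell Q j n = c) :
    K.pos (K.ci Q j c) (K.tok p n) ∈ visC K Q j c := by
  classical
  have hex : ∃ m, K.ci Q j c ≤ m ∧ K.tok p m = K.tok p n :=
    ⟨n, ci_le hIdx K Q j c n hQ h0 hc, rfl⟩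
  obtain ⟨h1, h2⟩ := Nat.find_spec hex
  have h3 : Nat.find hex ≤ n := Nat.find_min' hex ⟨ci_le hIdx K Q j c n hQ h0 hc, rfl⟩
  have h4 : ∀ k, K.ci Q j c ≤ k → k < Nat.find hex → K.tok p k ≠ K.tok p n :=
    fun k hk hk' he => Nat.find_min hex hk' ⟨hk, he⟩
  set m := Nat.find hex with hm
  rw [← pos_const hTok K p n (K.ci Q j c) m hn h1 h3 h4]
  have hmN : m < K.N := by omega
  obtain ⟨h5, h6⟩ := cell_between hIdx K Q j c n m hQ hn h0 hc h1 h3
  have h7 : K.pos m (K.tok p n) = K.ln p m := by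
    rw [← h2]
    obtain ⟨-, -, h8, -, h9, -, -⟩ := hTok ι K m hmN
    cases p with
    | false => exact h8
    | true => exact h9
  rw [h7]
  exact ln_mem_visC K Q j c p m hmN h5 h6

/-- Counting: values `(cl j n, f n)` whose second component is coded injectively by a line
visited in the cell. -/
theorem im_le_sum (X : RS ι) (j : ℕ) (f : ℕ → ι) (φ : ℕ → ι → ι)
    (hφ : ∀ c, Function.Injective (φ c))
    (hf : ∀ n ∈ X.E, φ (X.cl j n) (f n) ∈ visC X.K X.Q j (X.cl j n)) :
    im X.E (fun n => (X.cl j n, f n)) ≤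
      ∑ c ∈ X.E.image (fun n => X.cl j n), (visC X.K X.Q j c).card := by
  classical
  rw [← Finset.card_sigma]
  unfold im
  refine Finset.card_le_card_of_injOn (fun z => (⟨z.1, φ z.1 z.2⟩ : Σ _ : ℕ, ι)) ?_ ?_
  · intro z hz
    rw [Finset.mem_coe, Finset.mem_image] at hz
    obtain ⟨n, hn, rfl⟩ := hz
    rw [Finset.mem_coe, Finset.mem_sigma]
    exact ⟨Finset.mem_image_of_mem _ hn, hf n hn⟩
  · rintro ⟨c, τ⟩ - ⟨c', τ'⟩ - he
    simp only [Sigma.mk.injEq] at he
    obtain ⟨h1, h2⟩ := he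
    subst h1
    have := hφ c (eq_of_heq h2)
    rw [this]

theorem lg_bound (X : RS ι) (h : X.OK0) (j : ℕ) (hj : j ≤ X.J) (f : ℕ → ι) (φ : ℕ → ι → ι)
    (hφ : ∀ c, Function.Injective (φ c))
    (hf : ∀ n ∈ X.E, φ (X.cl j n) (f n) ∈ visC X.K X.Q j (X.cl j n)) :
    X.lg (im X.E (fun n => (X.cl j n, f n))) ≤ X.w + X.s * j / 4 + 2 := by
  have h1 := im_le_sum X j f φ hφ hf
  have h2 : (im X.E (fun n => (X.cl j n, f n)) : ℝ) ≤
      ∑ c ∈ X.E.image (fun n => X.cl j n), ((visC X.K X.Q j c).card : ℝ) := by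
    exact_mod_cast h1
  have h3 := h2.trans (h.t2 j hj)
  have h4 := h.lg_le (by linarith [h.im_pos (fun n => (X.cl j n, f n))]) h3
  have hQ := h.Q_pos
  have hW := h.W_pos
  rw [h.lg_mul (by positivity) (by positivity), h.lg_mul (by positivity) hW, h.lg_Qpow,
    h.lg_Qrpow] at h4
  unfold RS.w
  push_cast at h4
  linarith

end XQ2

/-- Lines and tokens of a cell are bounded by the visited lines. -/
theorem I_Q2 (hTok : StTok) (hMono : StMono) (hIdx : StIdx) : StQ2 := by
  intro ι _ _ X h j hj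
  have hQ : 1 ≤ X.Q := by have := h.hQ; omega
  refine ⟨fun s => ?_, fun p => ?_⟩
  · exact XQ2.lg_bound X h j hj (fun n => X.K.ln s n) (fun _ => id)
      (fun _ => Function.injective_id) (fun n hn => by
        obtain ⟨h1, h2, -⟩ := h.sub n hn
        exact XQ2.ln_mem_visC X.K X.Q j (X.cl j n) s n h1 h2 rfl)
  · exact XQ2.lg_bound X h j hj (fun n => X.K.tok p n) (fun c => X.K.pos (X.K.ci X.Q j c))
      (fun c => (X.K.pos (X.K.ci X.Q j c)).injective) (fun n hn => by
        obtain ⟨h1, h2, -⟩ := h.sub n hn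
        exact XQ2.tok_mem_visC hTok hIdx X.K X.Q j (X.cl j n) hQ p n h1 h2 rfl)

end Pool.Agent.Work.MP_e17eac_co.PS
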