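import Pool.Agent.Work.MP_e17eac_co.PS.Lg

/-!
# Project PS: (Q4)
-/

set_option autoImplicit false

namespace Pool.Agent.Work.MP_e17eac_co.PS

open Finset
open Pool.Agent.Work.MP_e17eac_co.DH

namespace XQ4

variable {ι : Type} [Fintype ι] [DecidableEq ι]

/-- The closed cell of an edge lies in the unit interval. -/
theorem cellLe (X : RS ι) (h : X.OK) (j n : ℕ) (hn : n ∈ X.E) (r : ℝ)
    (hr : InC X.Q j (X.cl j n) r) : 0 ≤ r ∧ r ≤ 1 := by
  have hQ := h.toOK0.Q_pos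
  have hQj : (0 : ℝ) < (X.Q : ℝ) ^ j := pow_pos hQ j
  obtain ⟨h1, h2, h3⟩ := h.toOK0.sub n hn
  obtain ⟨hr1, hr2⟩ := hr
  constructor
  · refine le_trans ?_ hr1
    positivity
  · refine hr2.trans ?_
    rw [div_le_one hQj]
    have h4 : X.K.t n * (X.Q : ℝ) ^ j < ((X.Q ^ j : ℕ) : ℝ) := by
      push_cast
      nlinarith
    have h5 : X.cl j n < X.Q ^ j := by
      unfold RS.cl KSys.cell
      rw [Nat.floor_lt (by positivity)]
      exact h4
    have h6 : ((X.cl j n + 1 : ℕ) : ℝ) ≤ ((X.Q ^ j : ℕ) : ℝ) := by exact_mod_cast h5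
    push_cast at h6
    exact h6

theorem mem_vis (hNest : StNest) (hVis : StVis) (X : RS ι) (h : X.OK) (j i : ℕ)
    (hj : j + X.g ≤ X.J) (hd : 8 ≤ X.dl j * (X.Q : ℝ) ^ i) (n : ℕ) (hn : n ∈ X.E)
    (n' : ℕ) (hb : X.box i n' = X.box i n) : X.K.a n' ∈ visC X.K X.Q j (X.cl j n) := by
  have hQ := h.toOK0.Q_pos
  have hQi : (0 : ℝ) < (X.Q : ℝ) ^ i := pow_pos hQ i
  have hQ1 : 1 ≤ X.Q := by
    have h1 := h.toOK0.hQ
    exact le_trans (by norm_num) h1
  have hdl : 0 < X.dl j := by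
    by_contra hcon
    push Not at hcon
    have : X.dl j * (X.Q : ℝ) ^ i ≤ 0 := mul_nonpos_of_nonpos_of_nonneg hcon hQi.le
    linarith
  obtain ⟨hu, hdn⟩ := h.gap j hj n hn (X.dl j / 2) (by linarith)
  refine hVis ι X.K X.Q j (X.cl j n) (X.K.a n) (X.K.a n') (X.dl j / 2) hQ1 hu hdn ?_
  intro r hr
  obtain ⟨hr0, hr1⟩ := cellLe X h j n hn r hr
  obtain ⟨_, _, _, _, _, _, h7, _⟩ := hNest ι X.K X.Q hQ1
  have h8 := (h7 i (X.K.a n') (X.K.a n) r hb hr0 hr1).1
  refine lt_of_le_of_lt h8 ?_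
  rw [div_lt_iff₀ hQi]
  nlinarith

theorem main (hNest : StNest) (hVis : StVis) (X : RS ι) (h : X.OK) (j i : ℕ)
    (hj : j + X.g ≤ X.J) (hi : i ≤ X.I) (hd : 8 ≤ X.dl j * (X.Q : ℝ) ^ i) :
    (im X.E (fun n => (X.cl j n, X.box i n)) : ℝ) *
      (im X.E (fun n => (X.cl 0 n, X.K.ln false n)) : ℝ) ≤
    X.Λ ^ 2 * (im X.E (fun n => X.box i n) : ℝ) *
      ((X.Q : ℝ) ^ 2 * X.W * (X.Q : ℝ) ^ (X.s * (j : ℝ) / 4)) := by
  classical
  have hQ1 : 1 ≤ X.Q := by
    have h1 := h.toOK0.hQ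
    exact le_trans (by norm_num) h1
  have hcl0 : ∀ n ∈ X.E, X.cl 0 n = 0 := by
    intro n hn
    obtain ⟨_, h2, h3⟩ := h.toOK0.sub n hn
    obtain ⟨_, _, _, _, _, _, _, h8⟩ := hNest ι X.K X.Q hQ1
    exact h8 n h2 h3
  -- lines of a box
  set A : ℤ × ℤ → Finset ι := fun B => (X.E.filter (fun k => X.box i k = B)).image X.K.a with hA
  have hstep : ∀ P ∈ X.E.image (fun n => (X.cl j n, X.box i n)),
      (im X.E (fun n => (X.cl 0 n, X.K.ln false n)) : ℝ) ≤
        X.Λ ^ 2 * (im X.E (fun n => X.box i n) : ℝ) * ((A P.2).card : ℝ) := by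
    intro P hP
    obtain ⟨n, hn, rfl⟩ := Finset.mem_image.1 hP
    have h1 := (h.toOK0.cnt (fun n => X.box i n) (fun n => (X.cl 0 n, X.K.ln false n))
      (h.regB i hi) (h.regL false 0 (Nat.zero_le _)) (by
        intro n1 _ k1 _ hk
        have h2 : X.K.a n1 = X.K.a k1 := (Prod.mk.inj hk).2
        show bx X.K X.Q i (X.K.a n1) = bx X.K X.Q i (X.K.a k1)
        rw [h2]) n hn).1
    have h3 : im (X.E.filter (fun k => X.box i k = X.box i n))
        (fun n => (X.cl 0 n, X.K.ln false n)) ≤ (A (X.box i n)).card := by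
      refine RS.im_le_im (X.E.filter (fun k => X.box i k = X.box i n))
        (fun n => (X.cl 0 n, X.K.ln false n)) X.K.a ?_
      intro n1 hn1 k1 hk1 hk
      show (X.cl 0 n1, X.K.a n1) = (X.cl 0 k1, X.K.a k1)
      rw [hcl0 n1 (Finset.mem_filter.1 hn1).1, hcl0 k1 (Finset.mem_filter.1 hk1).1, hk]
    have h4 : (im (X.E.filter (fun k => X.box i k = X.box i n))
        (fun n => (X.cl 0 n, X.K.ln false n)) : ℝ) ≤ ((A (X.box i n)).card : ℝ) := by
      exact_mod_cast h3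
    have h5 : (0 : ℝ) ≤ X.Λ ^ 2 := by positivity
    have h6 : (0 : ℝ) ≤ (im X.E (fun n => X.box i n) : ℝ) := Nat.cast_nonneg _
    calc _ ≤ X.Λ ^ 2 * (im (X.E.filter (fun k => X.box i k = X.box i n))
        (fun n => (X.cl 0 n, X.K.ln false n)) : ℝ) * (im X.E (fun n => X.box i n) : ℝ) := h1
      _ ≤ X.Λ ^ 2 * ((A (X.box i n)).card : ℝ) * (im X.E (fun n => X.box i n) : ℝ) := by
          gcongr
      _ = _ := by ring
  -- summation over the boxes of one cell
  have hcell : ∀ c ∈ X.E.image (fun n => X.cl j n),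
      ∑ P ∈ (X.E.image (fun n => (X.cl j n, X.box i n))).filter (fun P => P.1 = c),
        (A P.2).card ≤ (visC X.K X.Q j c).card := by
    intro c _
    rw [← Finset.card_biUnion]
    · apply Finset.card_le_card
      intro q hq
      rw [Finset.mem_biUnion] at hq
      obtain ⟨P, hP, hqP⟩ := hq
      obtain ⟨hP1, hP2⟩ := Finset.mem_filter.1 hP
      obtain ⟨n, hn, rfl⟩ := Finset.mem_image.1 hP1
      obtain ⟨n', hn', rfl⟩ := Finset.mem_image.1 hqP
      have := mem_vis hNest hVis X h j i hj hd n hn n' (Finset.mem_filter.1 hn').2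
      have h9 : X.cl j n = c := hP2
      rwa [h9] at this
    · intro P hP P' hP' hne
      obtain ⟨hP1, hP2⟩ := Finset.mem_filter.1 (Finset.mem_coe.1 hP)
      obtain ⟨hP1', hP2'⟩ := Finset.mem_filter.1 (Finset.mem_coe.1 hP')
      show Disjoint (A P.2) (A P'.2)
      rw [Finset.disjoint_left]
      intro q hq hq'
      obtain ⟨n, hn, hq1⟩ := Finset.mem_image.1 hq
      obtain ⟨n', hn', hq2⟩ := Finset.mem_image.1 hq'
      apply hne
      have h1 : P.2 = P'.2 := by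
        rw [← (Finset.mem_filter.1 hn).2, ← (Finset.mem_filter.1 hn').2]
        show bx X.K X.Q i (X.K.a n) = bx X.K X.Q i (X.K.a n')
        rw [hq1, hq2]
      exact Prod.ext (hP2.trans hP2'.symm) h1
  have htot : ∑ P ∈ X.E.image (fun n => (X.cl j n, X.box i n)), (A P.2).card ≤
      ∑ c ∈ X.E.image (fun n => X.cl j n), (visC X.K X.Q j c).card := by
    rw [← Finset.sum_fiberwise_of_maps_to (s := X.E.image (fun n => (X.cl j n, X.box i n)))
      (t := X.E.image (fun n => X.cl j n)) (g := fun P => P.1)]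
    · exact Finset.sum_le_sum hcell
    · intro P hP
      obtain ⟨n, hn, rfl⟩ := Finset.mem_image.1 hP
      exact Finset.mem_image_of_mem _ hn
  have ht2 := h.toOK0.t2 j (by omega)
  have hΛB : (0 : ℝ) ≤ X.Λ ^ 2 * (im X.E (fun n => X.box i n) : ℝ) := by positivity
  calc (im X.E (fun n => (X.cl j n, X.box i n)) : ℝ) *
      (im X.E (fun n => (X.cl 0 n, X.K.ln false n)) : ℝ)
      = ∑ _P ∈ X.E.image (fun n => (X.cl j n, X.box i n)),
        (im X.E (fun n => (X.cl 0 n, X.K.ln false n)) : ℝ) := by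
        rw [Finset.sum_const, nsmul_eq_mul]
        rfl
    _ ≤ ∑ P ∈ X.E.image (fun n => (X.cl j n, X.box i n)),
        X.Λ ^ 2 * (im X.E (fun n => X.box i n) : ℝ) * ((A P.2).card : ℝ) :=
        Finset.sum_le_sum hstep
    _ = X.Λ ^ 2 * (im X.E (fun n => X.box i n) : ℝ) *
        ∑ P ∈ X.E.image (fun n => (X.cl j n, X.box i n)), ((A P.2).card : ℝ) := by
        rw [Finset.mul_sum]
    _ ≤ X.Λ ^ 2 * (im X.E (fun n => X.box i n) : ℝ) *
        ∑ c ∈ X.E.image (fun n => X.cl j n), ((visC X.K X.Q j c).card : ℝ) := by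
        apply mul_le_mul_of_nonneg_left _ hΛB
        exact_mod_cast htot
    _ ≤ _ := mul_le_mul_of_nonneg_left ht2 hΛB

end XQ4

theorem I_Q4 (hNest : StNest) (hVis : StVis) (hQ3 : StQ3) (_hQ2 : StQ2) : StQ4 := by
  intro ι _ _ X h j i hj hi hd
  have h0 := h.toOK0
  have hm := XQ4.main hNest hVis X h j i hj hi hd
  have hQ := h0.Q_pos
  have hL := h0.L_pos
  have hW := h0.W_pos
  have hG := h0.im_pos (fun n => (X.cl j n, X.box i n))
  have hB := h0.im_pos (fun n => X.box i n)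
  have hLL := h0.im_pos (fun n => (X.cl 0 n, X.K.ln false n))
  have hrp : (0 : ℝ) < (X.Q : ℝ) ^ (X.s * (j : ℝ) / 4) := Real.rpow_pos_of_pos hQ _
  have hlg := h0.lg_le (mul_pos (by linarith) (by linarith)) hm
  rw [h0.lg_mul (by linarith) (by linarith),
    h0.lg_mul (by positivity) (by positivity),
    h0.lg_mul (by positivity) (by linarith), h0.lg_pow,
    h0.lg_mul (by positivity) hrp, h0.lg_mul (by positivity) hW, h0.lg_Qpow,
    h0.lg_Qrpow] at hlg
  have h3 := (hQ3 ι X h0 0 (Nat.zero_le _)).1 false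
  have hlL := h0.lgL_le
  have e1 : X.lL false 0 = X.lg (im X.E (fun n => (X.cl 0 n, X.K.ln false n)) : ℝ) := rfl
  have e2 : X.lG j i = X.lg (im X.E (fun n => (X.cl j n, X.box i n)) : ℝ) := rfl
  have e3 : X.lB i = X.lg (im X.E (fun n => X.box i n) : ℝ) := rfl
  have e4 : X.w = X.lg X.W := rfl
  rw [e1] at h3
  rw [e2, e3]
  rw [e4] at h3
  push_cast at h3 hlg
  linarith

end Pool.Agent.Work.MP_e17eac_co.PS
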