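import Pool.Agent.Work.MP_e17eac_co.PS.Lg

/-!
# Project PS: item Q5
-/

namespace Pool.Agent.Work.MP_e17eac_co.PS

open Finset
open Pool.Agent.Work.MP_e17eac_co.DH

namespace XQ5

variable {ι : Type} [Fintype ι] [DecidableEq ι]

/-- The lines of the pairs (cell, line) are distributed over the pairs (cell, box). -/
theorem prod_le (X : RS ι) (hX : X.OK) (j i : ℕ) (hi : i ≤ X.I) :
    (im X.E (fun n => (X.cl j n, X.K.ln false n)) : ℝ) * (im X.E (fun n => X.box i n) : ℝ) ≤
      X.Λ ^ 2 * (im X.E (fun n => (X.cl 0 n, X.K.ln false n)) : ℝ) *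
        (im X.E (fun n => (X.cl j n, X.box i n)) : ℝ) := by
  classical
  have h0 : X.OK0 := hX.toOK0
  have hB : 0 < (im X.E (fun n => X.box i n) : ℝ) := by linarith [h0.im_pos (fun n => X.box i n)]
  have hg0 : 0 ≤ (im X.E (fun n => (X.cl 0 n, X.K.ln false n)) : ℝ) := Nat.cast_nonneg _
  have hL := h0.L_pos
  obtain ⟨M, hM⟩ : ∃ M : ℝ, M = X.Λ ^ 2 * (im X.E (fun n => (X.cl 0 n, X.K.ln false n)) : ℝ) /
      (im X.E (fun n => X.box i n) : ℝ) := ⟨_, rfl⟩
  have hM0 : 0 ≤ M := by rw [hM]; positivity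
  have hfib : ∀ n ∈ X.E, (im (X.E.filter (fun k => X.box i k = X.box i n))
      (fun n => (X.cl 0 n, X.K.ln false n)) : ℝ) ≤ M := by
    intro n hn
    have h1 := (h0.cnt (fun n => X.box i n) (fun n => (X.cl 0 n, X.K.ln false n)) (hX.regB i hi)
      (h0.regL false 0 (Nat.zero_le _)) (fun n _ k _ hnk => by
        have h2 : X.K.a n = X.K.a k := (Prod.ext_iff.1 hnk).2
        change bx X.K X.Q i (X.K.a n) = bx X.K X.Q i (X.K.a k)
        rw [h2]) n hn).2
    rw [hM, le_div_iff₀ hB]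
    exact h1
  have hcard : (X.E.image (fun n => (X.cl j n, X.K.ln false n))).card ≤ ⌊M⌋₊ *
      ((X.E.image (fun n => (X.cl j n, X.K.ln false n))).image
        (fun z : ℕ × ι => (z.1, bx X.K X.Q i z.2))).card := by
    apply Finset.card_le_mul_card_image
    intro z hz
    rw [Finset.mem_image] at hz
    obtain ⟨z1, hz1, rfl⟩ := hz
    rw [Finset.mem_image] at hz1
    obtain ⟨n, hn, rfl⟩ := hz1
    apply Nat.le_floor
    refine le_trans ?_ (hfib n hn)
    have hsub : (X.E.image (fun n => (X.cl j n, X.K.ln false n))).filter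
        (fun x : ℕ × ι => (x.1, bx X.K X.Q i x.2) =
          (X.cl j n, bx X.K X.Q i (X.K.ln false n))) ⊆
        ((X.E.filter (fun k => X.box i k = X.box i n)).image
          (fun n => (X.cl 0 n, X.K.ln false n))).image (fun y : ℕ × ι => (X.cl j n, y.2)) := by
      intro x hx
      rw [Finset.mem_filter, Finset.mem_image] at hx
      obtain ⟨⟨k, hk, rfl⟩, hx2⟩ := hx
      have h3 := Prod.ext_iff.1 hx2
      rw [Finset.mem_image]
      refine ⟨(X.cl 0 k, X.K.ln false k), Finset.mem_image_of_mem _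
        (Finset.mem_filter.2 ⟨hk, h3.2⟩), ?_⟩
      have h4 : X.cl j k = X.cl j n := h3.1
      rw [h4]
    have := (Finset.card_le_card hsub).trans Finset.card_image_le
    unfold im
    exact_mod_cast this
  have himg : (X.E.image (fun n => (X.cl j n, X.K.ln false n))).image
      (fun z : ℕ × ι => (z.1, bx X.K X.Q i z.2)) =
      X.E.image (fun n => (X.cl j n, X.box i n)) := by
    rw [Finset.image_image]
    rfl
  rw [himg] at hcard
  have h5 : (im X.E (fun n => (X.cl j n, X.K.ln false n)) : ℝ) ≤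
      M * (im X.E (fun n => (X.cl j n, X.box i n)) : ℝ) := by
    have h6 : (im X.E (fun n => (X.cl j n, X.K.ln false n)) : ℝ) ≤
        (⌊M⌋₊ : ℝ) * (im X.E (fun n => (X.cl j n, X.box i n)) : ℝ) := by
      unfold im
      exact_mod_cast hcard
    exact h6.trans (mul_le_mul_of_nonneg_right (Nat.floor_le hM0) (Nat.cast_nonneg _))
  have h7 := mul_le_mul_of_nonneg_right h5 hB.le
  have h8 : M * (im X.E (fun n => X.box i n) : ℝ) =
      X.Λ ^ 2 * (im X.E (fun n => (X.cl 0 n, X.K.ln false n)) : ℝ) := by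
    rw [hM, div_mul_cancel₀ _ hB.ne']
  calc _ ≤ M * (im X.E (fun n => (X.cl j n, X.box i n)) : ℝ) *
        (im X.E (fun n => X.box i n) : ℝ) := h7
    _ = M * (im X.E (fun n => X.box i n) : ℝ) *
        (im X.E (fun n => (X.cl j n, X.box i n)) : ℝ) := by ring
    _ = _ := by rw [h8]

end XQ5

theorem I_Q5 (hNest : StNest) (hQ2 : StQ2) (hQ3 : StQ3) : StQ5 := by
  intro ι _ _ X hX j i hj hi
  have h0 : X.OK0 := hX.toOK0
  have h1 := XQ5.prod_le X hX j i hi
  have hL := h0.L_pos
  have p1 := h0.im_pos (fun n => (X.cl j n, X.K.ln false n))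
  have p2 := h0.im_pos (fun n => X.box i n)
  have p3 := h0.im_pos (fun n => (X.cl 0 n, X.K.ln false n))
  have p4 := h0.im_pos (fun n => (X.cl j n, X.box i n))
  have h2 := h0.lg_le (mul_pos (by linarith) (by linarith)) h1
  rw [h0.lg_mul (by linarith) (by linarith),
    h0.lg_mul (mul_pos (pow_pos hL 2) (by linarith)) (by linarith),
    h0.lg_mul (pow_pos hL 2) (by linarith), h0.lg_pow] at h2
  have h3 := h0.lgL_le
  have h4 := (hQ3 ι X h0 j hj).1 false
  have h5 := (hQ2 ι X h0 0 (Nat.zero_le _)).1 false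
  unfold RS.lL at h4 h5
  unfold RS.lB RS.lG
  push_cast at h2 h5
  linarith

end Pool.Agent.Work.MP_e17eac_co.PS
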