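import Pool.Agent.Work.MP_e17eac_co.PS.Lg

/-!
# Project PS, block REG, item Q8x: edges in the middle of an interval of slopes
-/

set_option autoImplicit false

namespace Pool.Agent.Work.MP_e17eac_co.PS

open Finset
open Pool.Agent.Work.MP_e17eac_co.DH

namespace XQ8x

/-- few floors -/
lemma few {F : Finset ℕ} {u : ℕ → ℝ} {B : ℕ} (h : ∀ n ∈ F, ∀ n' ∈ F, |u n - u n'| ≤ B) :
    (F.image (fun n => ⌊u n⌋)).card ≤ 2 * B + 3 := by
  rcases F.eq_empty_or_nonempty with hF | ⟨n0, hn0⟩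
  · subst hF; simp
  have hsub : F.image (fun n => ⌊u n⌋) ⊆ Finset.Icc (⌊u n0⌋ - (B + 1)) (⌊u n0⌋ + (B + 1)) := by
    intro z hz
    obtain ⟨n, hn, rfl⟩ := Finset.mem_image.1 hz
    have h1 := abs_le.1 (h n hn n0 hn0)
    have a1 := Int.floor_le (u n)
    have a2 := Int.lt_floor_add_one (u n)
    have a3 := Int.floor_le (u n0)
    have a4 := Int.lt_floor_add_one (u n0)
    rw [Finset.mem_Icc]
    constructor
    · have : ((⌊u n0⌋ - (B + 1) : ℤ) : ℝ) ≤ ((⌊u n⌋ : ℤ) : ℝ) := by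
        push_cast; linarith [h1.1]
      exact_mod_cast this
    · have : ((⌊u n⌋ : ℤ) : ℝ) ≤ ((⌊u n0⌋ + (B + 1) : ℤ) : ℝ) := by
        push_cast; linarith [h1.2]
      exact_mod_cast this
  refine (Finset.card_le_card hsub).trans ?_
  rw [Int.card_Icc]
  omega

/-- pigeonhole for slots -/
lemma pigeon {F : Finset ℕ} (hF : F.Nonempty) (s k : ℕ → ℤ) :
    ∃ z : ℤ, (F.image s).card ≤ (F.image k).card * ((F.filter (fun n => k n = z)).image s).card := by
  obtain ⟨z, -, hz⟩ := Finset.exists_max_image (F.image k)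
    (fun z => ((F.filter (fun n => k n = z)).image s).card) (hF.image k)
  refine ⟨z, ?_⟩
  have hsub : F.image s ⊆ (F.image k).biUnion (fun z => (F.filter (fun n => k n = z)).image s) := by
    intro y hy
    obtain ⟨n, hn, rfl⟩ := Finset.mem_image.1 hy
    rw [Finset.mem_biUnion]
    exact ⟨k n, Finset.mem_image_of_mem k hn,
      Finset.mem_image_of_mem s (Finset.mem_filter.2 ⟨hn, rfl⟩)⟩
  exact (Finset.card_le_card hsub).trans (Finset.card_biUnion_le_card_mul _ _ _ hz)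

/-- the middle third -/
def mid (T : Finset ℤ) : Finset ℤ :=
  T.filter (fun σ => T.card ≤ 3 * (T.filter (fun τ => τ < σ)).card ∧
    T.card ≤ 3 * (T.filter (fun τ => σ < τ)).card)

lemma mid_card {T : Finset ℤ} (hT : 24 ≤ T.card) : T.card ≤ 4 * (mid T).card := by
  have hA : (T.filter (fun σ => 3 * (T.filter (fun τ => τ < σ)).card < T.card)).card ≤
      (T.card + 2) / 3 := by
    rw [← Finset.card_range ((T.card + 2) / 3)]
    refine Finset.card_le_card_of_injOn (fun σ => (T.filter (fun τ => τ < σ)).card) ?_ ?_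
    · intro σ hσ
      rw [Finset.mem_coe, Finset.mem_filter] at hσ
      rw [Finset.mem_coe, Finset.mem_range]
      have := hσ.2
      change (T.filter (fun τ => τ < σ)).card < (T.card + 2) / 3
      omega
    · have key : ∀ σ ∈ T, ∀ σ' ∈ T, σ < σ' →
          (T.filter (fun τ => τ < σ)).card < (T.filter (fun τ => τ < σ')).card := by
        intro σ hσ σ' _ h
        apply Finset.card_lt_card
        rw [Finset.ssubset_iff_of_subset (fun τ hτ => by
          rw [Finset.mem_filter] at hτ ⊢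
          exact ⟨hτ.1, hτ.2.trans h⟩)]
        exact ⟨σ, Finset.mem_filter.2 ⟨hσ, h⟩, by simp⟩
      intro σ hσ σ' hσ' h
      rw [Finset.mem_coe, Finset.mem_filter] at hσ hσ'
      have h : (T.filter (fun τ => τ < σ)).card = (T.filter (fun τ => τ < σ')).card := h
      rcases lt_trichotomy σ σ' with h1 | h1 | h1
      · have := key σ hσ.1 σ' hσ'.1 h1; omega
      · exact h1
      · have := key σ' hσ'.1 σ hσ.1 h1; omega
  have hB : (T.filter (fun σ => 3 * (T.filter (fun τ => σ < τ)).card < T.card)).card ≤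
      (T.card + 2) / 3 := by
    rw [← Finset.card_range ((T.card + 2) / 3)]
    refine Finset.card_le_card_of_injOn (fun σ => (T.filter (fun τ => σ < τ)).card) ?_ ?_
    · intro σ hσ
      rw [Finset.mem_coe, Finset.mem_filter] at hσ
      rw [Finset.mem_coe, Finset.mem_range]
      have := hσ.2
      change (T.filter (fun τ => σ < τ)).card < (T.card + 2) / 3
      omega
    · have key : ∀ σ ∈ T, ∀ σ' ∈ T, σ < σ' →
          (T.filter (fun τ => σ' < τ)).card < (T.filter (fun τ => σ < τ)).card := by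
        intro σ _ σ' hσ' h
        apply Finset.card_lt_card
        rw [Finset.ssubset_iff_of_subset (fun τ hτ => by
          rw [Finset.mem_filter] at hτ ⊢
          exact ⟨hτ.1, h.trans hτ.2⟩)]
        exact ⟨σ', Finset.mem_filter.2 ⟨hσ', h⟩, by simp⟩
      intro σ hσ σ' hσ' h
      rw [Finset.mem_coe, Finset.mem_filter] at hσ hσ'
      have h : (T.filter (fun τ => σ < τ)).card = (T.filter (fun τ => σ' < τ)).card := h
      rcases lt_trichotomy σ σ' with h1 | h1 | h1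
      · have := key σ hσ.1 σ' hσ'.1 h1; omega
      · exact h1
      · have := key σ' hσ'.1 σ hσ.1 h1; omega
  have hsub : T ⊆ mid T ∪ ((T.filter (fun σ => 3 * (T.filter (fun τ => τ < σ)).card < T.card)) ∪
      (T.filter (fun σ => 3 * (T.filter (fun τ => σ < τ)).card < T.card))) := by
    intro σ hσ
    unfold mid
    simp only [Finset.mem_union, Finset.mem_filter]
    by_cases h1 : T.card ≤ 3 * (T.filter (fun τ => τ < σ)).card
    · by_cases h2 : T.card ≤ 3 * (T.filter (fun τ => σ < τ)).card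
      · exact Or.inl ⟨hσ, h1, h2⟩
      · exact Or.inr (Or.inr ⟨hσ, by omega⟩)
    · exact Or.inr (Or.inl ⟨hσ, by omega⟩)
  have h1 := (Finset.card_le_card hsub).trans (Finset.card_union_le _ _)
  have h2 := Finset.card_union_le
    (T.filter (fun σ => 3 * (T.filter (fun τ => τ < σ)).card < T.card))
    (T.filter (fun σ => 3 * (T.filter (fun τ => σ < τ)).card < T.card))
  omega

lemma floor_dist {x y D : ℝ} (hD : 0 < D) (h : ⌊8 * x / D⌋ = ⌊8 * y / D⌋) : x < y + D / 8 := by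
  have a2 := Int.lt_floor_add_one (8 * x / D)
  have a3 := Int.floor_le (8 * y / D)
  rw [h] at a2
  have h1 : 8 * x / D < 8 * y / D + 1 := by linarith
  have h2 : 8 * y / D + 1 = (8 * y + D) / D := by field_simp
  rw [h2, div_lt_div_iff_of_pos_right hD] at h1
  linarith

lemma up_set {F : Finset ℕ} {x : ℕ → ℝ} {P D : ℝ} (hP : 0 < P) (hD : 0 < D) {k : ℤ}
    (hk : ∀ n ∈ F, ⌊8 * x n / D⌋ = k) {n : ℕ}
    (hmid : ⌊x n * P⌋ ∈ mid (F.image (fun n => ⌊x n * P⌋)))
    (h24 : 24 ≤ (F.image (fun n => ⌊x n * P⌋)).card) :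
    ∃ U : Finset ℤ, (F.image (fun n => ⌊x n * P⌋)).card ≤ 4 * U.card ∧ ∀ τ ∈ U,
      τ ∈ F.image (fun n => ⌊x n * P⌋) ∧ x n * P ≤ τ ∧ (τ : ℝ) + 1 ≤ (x n + D / 4) * P := by
  obtain ⟨T, hT⟩ : ∃ T, T = F.image (fun n => ⌊x n * P⌋) := ⟨_, rfl⟩
  rw [← hT] at hmid h24 ⊢
  have hm : ∀ τ, τ ∈ T ↔ ∃ q ∈ F, ⌊x q * P⌋ = τ := by
    intro τ; rw [hT, Finset.mem_image]
  unfold mid at hmid
  rw [Finset.mem_filter] at hmid
  obtain ⟨hσ, h1, h2⟩ := hmid
  have hTne : T.Nonempty := ⟨_, hσ⟩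
  obtain ⟨τm, hτm, hmax⟩ := Finset.exists_max_image T id hTne
  simp only [id] at hmax
  obtain ⟨τ0, hτ0⟩ : (T.filter (fun τ => τ < ⌊x n * P⌋)).Nonempty := by
    rw [← Finset.card_pos]; omega
  rw [Finset.mem_filter] at hτ0
  obtain ⟨q, hq, hqm⟩ := (hm τm).1 hτm
  obtain ⟨q0, hq0, hqm0⟩ := (hm τ0).1 hτ0.1
  have hx0 : x q0 ≤ x n := by
    have a1 := Int.lt_floor_add_one (x q0 * P)
    have a2 := Int.floor_le (x n * P)
    rw [hqm0] at a1
    have a3 : (τ0 : ℝ) + 1 ≤ (⌊x n * P⌋ : ℤ) := by exact_mod_cast hτ0.2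
    have : x q0 * P < x n * P := by linarith
    exact (lt_of_mul_lt_mul_right this hP.le).le
  have hxq : x q < x q0 + D / 8 := floor_dist hD (by rw [hk q hq, hk q0 hq0])
  refine ⟨(T.filter (fun τ => ⌊x n * P⌋ < τ)).erase τm, ?_, ?_⟩
  · have := Finset.pred_card_le_card_erase (s := T.filter (fun τ => ⌊x n * P⌋ < τ)) (a := τm)
    omega
  · intro τ hτ
    rw [Finset.mem_erase, Finset.mem_filter] at hτ
    obtain ⟨hne, hτT, hlt⟩ := hτ
    refine ⟨hτT, ?_, ?_⟩
    · have a1 := Int.lt_floor_add_one (x n * P)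
      have a3 : ((⌊x n * P⌋ : ℤ) : ℝ) + 1 ≤ (τ : ℝ) := by exact_mod_cast hlt
      linarith
    · have h3 : τ < τm := lt_of_le_of_ne (hmax τ hτT) hne
      have a3 : (τ : ℝ) + 1 ≤ (τm : ℝ) := by exact_mod_cast h3
      have a4 := Int.floor_le (x q * P)
      rw [hqm] at a4
      have : x q * P ≤ (x n + D / 4) * P := mul_le_mul_of_nonneg_right (by linarith) hP.le
      linarith

lemma dn_set {F : Finset ℕ} {x : ℕ → ℝ} {P D : ℝ} (hP : 0 < P) (hD : 0 < D) {k : ℤ}
    (hk : ∀ n ∈ F, ⌊8 * x n / D⌋ = k) {n : ℕ}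
    (hmid : ⌊x n * P⌋ ∈ mid (F.image (fun n => ⌊x n * P⌋)))
    (h24 : 24 ≤ (F.image (fun n => ⌊x n * P⌋)).card) :
    ∃ U : Finset ℤ, (F.image (fun n => ⌊x n * P⌋)).card ≤ 4 * U.card ∧ ∀ τ ∈ U,
      τ ∈ F.image (fun n => ⌊x n * P⌋) ∧ (x n - D / 4) * P ≤ τ ∧ (τ : ℝ) + 1 ≤ x n * P := by
  obtain ⟨T, hT⟩ : ∃ T, T = F.image (fun n => ⌊x n * P⌋) := ⟨_, rfl⟩
  rw [← hT] at hmid h24 ⊢
  have hm : ∀ τ, τ ∈ T ↔ ∃ q ∈ F, ⌊x q * P⌋ = τ := by
    intro τ; rw [hT, Finset.mem_image]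
  unfold mid at hmid
  rw [Finset.mem_filter] at hmid
  obtain ⟨hσ, h1, h2⟩ := hmid
  have hTne : T.Nonempty := ⟨_, hσ⟩
  obtain ⟨τm, hτm, hmin⟩ := Finset.exists_min_image T id hTne
  simp only [id] at hmin
  obtain ⟨τ0, hτ0⟩ : (T.filter (fun τ => ⌊x n * P⌋ < τ)).Nonempty := by
    rw [← Finset.card_pos]; omega
  rw [Finset.mem_filter] at hτ0
  obtain ⟨q, hq, hqm⟩ := (hm τm).1 hτm
  obtain ⟨q0, hq0, hqm0⟩ := (hm τ0).1 hτ0.1
  have hx0 : x n ≤ x q0 := by
    have a1 := Int.lt_floor_add_one (x n * P)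
    have a2 := Int.floor_le (x q0 * P)
    rw [hqm0] at a2
    have a3 : ((⌊x n * P⌋ : ℤ) : ℝ) + 1 ≤ (τ0 : ℝ) := by exact_mod_cast hτ0.2
    have : x n * P < x q0 * P := by linarith
    exact (lt_of_mul_lt_mul_right this hP.le).le
  have hxq : x q0 < x q + D / 8 := floor_dist hD (by rw [hk q hq, hk q0 hq0])
  refine ⟨(T.filter (fun τ => τ < ⌊x n * P⌋)).erase τm, ?_, ?_⟩
  · have := Finset.pred_card_le_card_erase (s := T.filter (fun τ => τ < ⌊x n * P⌋)) (a := τm)
    omega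
  · intro τ hτ
    rw [Finset.mem_erase, Finset.mem_filter] at hτ
    obtain ⟨hne, hτT, hlt⟩ := hτ
    refine ⟨hτT, ?_, ?_⟩
    · have h3 : τm < τ := lt_of_le_of_ne (hmin τ hτT) (Ne.symm hne)
      have a3 : (τm : ℝ) + 1 ≤ (τ : ℝ) := by exact_mod_cast h3
      have a4 := Int.lt_floor_add_one (x q * P)
      rw [hqm] at a4
      have : (x n - D / 4) * P ≤ x q * P := mul_le_mul_of_nonneg_right (by linarith) hP.le
      linarith
    · have a1 := Int.floor_le (x n * P)
      have a3 : (τ : ℝ) + 1 ≤ ((⌊x n * P⌋ : ℤ) : ℝ) := by exact_mod_cast hlt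
      linarith

/-- fibres of a regular function inside a union of fibres -/
lemma card_ge {E E2 : Finset ℕ} {Λ : ℝ} {f : ℕ → ℕ × ℤ} (hf : RegF Λ E f) (hE2 : E2 ⊆ E)
    (hcl : ∀ n ∈ E, ∀ k ∈ E2, f n = f k → n ∈ E2) :
    (im E2 f : ℝ) * E.card ≤ Λ * (im E f : ℝ) * (E2.card : ℝ) := by
  have e : (E2.card : ℝ) = ∑ a ∈ E2.image f, ((E2.filter (fun k => f k = a)).card : ℝ) := by
    exact_mod_cast Finset.card_eq_sum_card_image f E2
  rw [e, Finset.mul_sum]
  have e2 : (im E2 f : ℝ) * E.card = ∑ _a ∈ E2.image f, (E.card : ℝ) := by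
    rw [Finset.sum_const, nsmul_eq_mul]; rfl
  rw [e2]
  apply Finset.sum_le_sum
  intro a ha
  obtain ⟨n, hn, rfl⟩ := Finset.mem_image.1 ha
  have h1 := (hf n (hE2 hn)).1
  have h2 : E.filter (fun k => f k = f n) = E2.filter (fun k => f k = f n) := by
    ext k
    rw [Finset.mem_filter, Finset.mem_filter]
    constructor
    · rintro ⟨h3, h4⟩
      exact ⟨hcl k h3 n hn h4, h4⟩
    · rintro ⟨h3, h4⟩
      exact ⟨hE2 h3, h4⟩
  rw [h2] at h1
  linarith

end XQ8x

open XQ8x in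
theorem I_Q8x (_hNest : StNest) (hGapD : StGapD) (hCls0 : StCls0) : StQ8x := by
  intro ι _ _ X hX j i hj hi hlS
  classical
  have h0 : X.OK0 := hX.toOK0
  obtain ⟨hdl0, -, hdlD⟩ := (hGapD ι X hX).1 j hj
  have hDj := hdlD false
  have hQ := h0.Q_pos
  have hQj := h0.Qpow_pos j
  have hQi := h0.Qpow_pos i
  have hjJ : j ≤ X.J := by omega
  obtain ⟨D, hD⟩ : ∃ D, D = X.D false j := ⟨_, rfl⟩
  rw [← hD] at hDj
  have hD0 : 0 < D := by
    have : 0 < X.dl j * (X.Q : ℝ) ^ j := mul_pos hdl0 hQj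
    linarith
  obtain ⟨κ, hκ⟩ := hCls0 ι X h0 j hj hdl0 (hX.typ j hj)
  obtain ⟨x, hx⟩ : ∃ x : ℕ → ℝ, x = fun n => X.K.x (X.K.a n) := ⟨_, rfl⟩
  have hxn : ∀ n, x n = X.K.x (X.K.a n) := fun n => by rw [hx]
  have hslot : ∀ n, X.slot i n = ⌊x n * (X.Q : ℝ) ^ i⌋ := by
    intro n; rw [hxn]; rfl
  -- the classes are narrow
  have hnar : ∀ n ∈ X.E, ∀ n' ∈ X.E, X.cl j n = X.cl j n' → κ n = κ n' →
      |8 * x n / D - 8 * x n' / D| ≤ ((32 * X.Q ^ (X.g + 1) : ℕ) : ℝ) := by
    intro n hn n' hn' hc hk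
    have f1 := hκ.flat n hn n' hn' hc hk ((X.cl j n : ℝ) / (X.Q : ℝ) ^ j)
      ⟨le_rfl, by apply div_le_div_of_nonneg_right _ hQj.le; linarith⟩
    have f2 := hκ.flat n hn n' hn' hc hk (((X.cl j n : ℝ) + 1) / (X.Q : ℝ) ^ j)
      ⟨by apply div_le_div_of_nonneg_right _ hQj.le; linarith, le_rfl⟩
    rw [abs_le] at f1 f2
    unfold KSys.ht at f1 f2
    rw [← hxn, ← hxn] at f1 f2
    obtain ⟨r, hr⟩ : ∃ r : ℝ, r = (X.cl j n : ℝ) / (X.Q : ℝ) ^ j := ⟨_, rfl⟩
    obtain ⟨u, hu⟩ : ∃ u : ℝ, u = 1 / (X.Q : ℝ) ^ j := ⟨_, rfl⟩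
    have hru : ((X.cl j n : ℝ) + 1) / (X.Q : ℝ) ^ j = r + u := by rw [hr, hu]; ring
    rw [← hr] at f1
    rw [hru] at f2
    have hu0 : 0 < u := by rw [hu]; positivity
    have huQ : u * (X.Q : ℝ) ^ j = 1 := by rw [hu]; field_simp
    have g1 : |(x n - x n') * u| ≤ 2 * ((X.Q : ℝ) ^ (X.g + 1) * X.dl j) := by
      rw [abs_le]
      constructor <;> nlinarith [f1.1, f1.2, f2.1, f2.2]
    rw [abs_mul, abs_of_pos hu0] at g1
    have g2 : |x n - x n'| ≤ 4 * (X.Q : ℝ) ^ (X.g + 1) * D := by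
      have e1 : |x n - x n'| = |x n - x n'| * u * (X.Q : ℝ) ^ j := by
        rw [mul_assoc, huQ, mul_one]
      rw [e1]
      have e2 := mul_le_mul_of_nonneg_right g1 hQj.le
      have e3 : 2 * ((X.Q : ℝ) ^ (X.g + 1)) * (X.dl j * (X.Q : ℝ) ^ j) ≤
          2 * ((X.Q : ℝ) ^ (X.g + 1)) * (2 * D) :=
        mul_le_mul_of_nonneg_left hDj (by positivity)
      linarith
    have e : 8 * x n / D - 8 * x n' / D = 8 / D * (x n - x n') := by ring
    rw [e, abs_mul, abs_of_pos (by positivity)]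
    push_cast
    have : 8 / D * |x n - x n'| ≤ 8 / D * (4 * (X.Q : ℝ) ^ (X.g + 1) * D) :=
      mul_le_mul_of_nonneg_left g2 (by positivity)
    have e2 : 8 / D * (4 * (X.Q : ℝ) ^ (X.g + 1) * D) = 32 * (X.Q : ℝ) ^ (X.g + 1) := by
      field_simp; norm_num
    linarith
  -- number of values of the large floors in a cell
  have hQN : 1 ≤ X.Q := by have := h0.hQ; omega
  have hfew : ∀ c, ((X.E.filter (fun n => X.cl j n = c)).image (fun n => ⌊8 * x n / D⌋)).card ≤
      X.Q ^ (2 * X.g) * (2 * (32 * X.Q ^ (X.g + 1)) + 3) := by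
    intro c
    have hsub : (X.E.filter (fun n => X.cl j n = c)).image (fun n => ⌊8 * x n / D⌋) ⊆
        (Finset.range (X.Q ^ (2 * X.g))).biUnion (fun k0 =>
          ((X.E.filter (fun n => X.cl j n = c)).filter (fun n => κ n = k0)).image
            (fun n => ⌊8 * x n / D⌋)) := by
      intro z hz
      obtain ⟨n, hn, rfl⟩ := Finset.mem_image.1 hz
      rw [Finset.mem_biUnion]
      refine ⟨κ n, Finset.mem_range.2 (hκ.lt n (Finset.mem_filter.1 hn).1), ?_⟩
      exact Finset.mem_image.2 ⟨n, Finset.mem_filter.2 ⟨hn, rfl⟩, rfl⟩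
    refine (Finset.card_le_card hsub).trans ?_
    have := Finset.card_biUnion_le_card_mul (Finset.range (X.Q ^ (2 * X.g))) (fun k0 =>
          ((X.E.filter (fun n => X.cl j n = c)).filter (fun n => κ n = k0)).image
            (fun n => ⌊8 * x n / D⌋)) (2 * (32 * X.Q ^ (X.g + 1)) + 3) (by
      intro k0 _
      apply few
      intro n hn n' hn'
      simp only [Finset.mem_filter] at hn hn'
      exact hnar n hn.1.1 n' hn'.1.1 (by rw [hn.1.2, hn'.1.2]) (by rw [hn.2, hn'.2]))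
    rwa [Finset.card_range] at this
  -- choice of the value
  have hch : ∀ c : ℕ, ∃ z : ℤ, ((X.E.filter (fun n => X.cl j n = c)).image (X.slot i)).card ≤
      X.Q ^ (2 * X.g) * (2 * (32 * X.Q ^ (X.g + 1)) + 3) *
        (((X.E.filter (fun n => X.cl j n = c)).filter (fun n => ⌊8 * x n / D⌋ = z)).image
          (X.slot i)).card := by
    intro c
    rcases (X.E.filter (fun n => X.cl j n = c)).eq_empty_or_nonempty with he | hne
    · rw [he]; exact ⟨0, by simp⟩
    · obtain ⟨z, hz⟩ := pigeon hne (X.slot i) (fun n => ⌊8 * x n / D⌋)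
      exact ⟨z, hz.trans (Nat.mul_le_mul_right _ (hfew c))⟩
  choose z hz using hch
  obtain ⟨T, hT⟩ : ∃ T : ℕ → Finset ℤ, T = fun c =>
    ((X.E.filter (fun n => X.cl j n = c)).filter (fun n => ⌊8 * x n / D⌋ = z c)).image
      (X.slot i) := ⟨_, rfl⟩
  have hTc : ∀ c, T c = ((X.E.filter (fun n => X.cl j n = c)).filter
      (fun n => ⌊8 * x n / D⌋ = z c)).image (X.slot i) := fun c => by rw [hT]
  have hTm : ∀ c σ, σ ∈ T c → ∃ n' ∈ X.E, X.cl j n' = c ∧ X.slot i n' = σ := by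
    intro c σ hσ
    rw [hTc] at hσ
    obtain ⟨n', hn', rfl⟩ := Finset.mem_image.1 hσ
    simp only [Finset.mem_filter] at hn'
    exact ⟨n', hn'.1.1, hn'.1.2, rfl⟩
  obtain ⟨f, hf⟩ : ∃ f : ℕ → ℕ × ℤ, f = fun n => (X.cl j n, X.slot i n) := ⟨_, rfl⟩
  have hfn : ∀ n, f n = (X.cl j n, X.slot i n) := fun n => by rw [hf]
  obtain ⟨R, hR⟩ : ∃ R : ℝ, R = 65 * (X.Q : ℝ) ^ (3 * X.g + 1) := ⟨_, rfl⟩
  have hR0 : 0 < R := by rw [hR]; have := h0.Qpow_pos (3 * X.g + 1); positivity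
  have hQg := h0.one_le_Qpow (X.g + 1)
  have hNR : ((X.Q ^ (2 * X.g) * (2 * (32 * X.Q ^ (X.g + 1)) + 3) : ℕ) : ℝ) ≤ R := by
    rw [hR]
    have e1 : (X.Q : ℝ) ^ (3 * X.g + 1) = (X.Q : ℝ) ^ (2 * X.g) * (X.Q : ℝ) ^ (X.g + 1) := by
      rw [← pow_add]; congr 1; ring
    rw [e1]
    push_cast
    have hQbig : 3 ≤ (X.Q : ℝ) ^ (X.g + 1) := by
      have h1 : (X.Q : ℝ) ^ 1 ≤ (X.Q : ℝ) ^ (X.g + 1) :=
        pow_le_pow_right₀ h0.one_lt_Q.le (by omega)
      have := h0.Q_gt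
      linarith
    have e2 : (X.Q : ℝ) ^ (2 * X.g) * (2 * (32 * (X.Q : ℝ) ^ (X.g + 1)) + 3) ≤
        (X.Q : ℝ) ^ (2 * X.g) * (65 * (X.Q : ℝ) ^ (X.g + 1)) :=
      mul_le_mul_of_nonneg_left (by linarith) (by positivity)
    linarith
  -- slots of a cell
  have hST : ∀ c, (((X.E.filter (fun n => X.cl j n = c)).image (X.slot i)).card : ℝ) ≤
      R * ((T c).card : ℝ) := by
    intro c
    have h1 := hz c
    rw [← hTc] at h1
    have h2 : (((X.E.filter (fun n => X.cl j n = c)).image (X.slot i)).card : ℝ) ≤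
      ((X.Q ^ (2 * X.g) * (2 * (32 * X.Q ^ (X.g + 1)) + 3) : ℕ) : ℝ) * ((T c).card : ℝ) := by
      exact_mod_cast h1
    exact h2.trans (mul_le_mul_of_nonneg_right hNR (Nat.cast_nonneg _))
  -- sizes
  have hregS : RegF X.Λ X.E f := by
    have := hX.regS j i hjJ hi
    rw [hf]; exact this
  have hregM := h0.regM j hjJ
  obtain ⟨PS, hPS⟩ : ∃ PS : ℝ, PS = (im X.E f : ℝ) := ⟨_, rfl⟩
  obtain ⟨M, hM⟩ : ∃ M : ℝ, M = (im X.E (fun n => X.cl j n) : ℝ) := ⟨_, rfl⟩
  have hPS1 : 1 ≤ PS := by rw [hPS]; exact h0.im_pos f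
  have hM1 : 1 ≤ M := by rw [hM]; exact h0.im_pos _
  have hlSe : X.lS j i = X.lg PS := by rw [hPS, hf]; rfl
  have hlMe : X.lM j = X.lg M := by rw [hM]; rfl
  have hL := h0.L_pos
  have hcnt : ∀ n ∈ X.E, PS ≤ X.Λ ^ 2 * (R * ((T (X.cl j n)).card : ℝ)) * M := by
    intro n hn
    have h1 := (h0.cnt (fun n => X.cl j n) f hregM hregS (by
      intro a _ b _ hab
      rw [hfn, hfn] at hab
      exact (Prod.ext_iff.1 hab).1) n hn).1
    rw [← hPS, ← hM] at h1
    refine h1.trans ?_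
    apply mul_le_mul_of_nonneg_right _ (by linarith)
    apply mul_le_mul_of_nonneg_left _ (by positivity)
    refine le_trans ?_ (hST (X.cl j n))
    have h2 : (X.E.filter (fun k => X.cl j k = X.cl j n)).image f ⊆
        ((X.E.filter (fun k => X.cl j k = X.cl j n)).image (X.slot i)).image
          (fun σ => (X.cl j n, σ)) := by
      intro y hy
      obtain ⟨k, hk, rfl⟩ := Finset.mem_image.1 hy
      rw [Finset.mem_image]
      refine ⟨X.slot i k, Finset.mem_image_of_mem _ hk, ?_⟩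
      rw [hfn, (Finset.mem_filter.1 hk).2]
    have h3 := (Finset.card_le_card h2).trans Finset.card_image_le
    unfold im
    exact_mod_cast h3
  obtain ⟨l, hl⟩ : ∃ l : ℝ, l = PS / (4 * R * X.Λ ^ 2 * M) := ⟨_, rfl⟩
  have hM0 : 0 < M := by linarith
  have hPS0 : 0 < PS := by linarith
  have hden : 0 < 4 * R * X.Λ ^ 2 * M := by positivity
  have hl0 : 0 < l := by rw [hl]; positivity
  have hlT : ∀ n ∈ X.E, 4 * l ≤ ((T (X.cl j n)).card : ℝ) := by
    intro n hn
    have h1 := hcnt n hn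
    have e1 : 4 * l = PS / (R * X.Λ ^ 2 * M) := by
      rw [hl]; field_simp
    rw [e1, div_le_iff₀ (by positivity)]
    linarith
  have hlgl : X.lS j i - X.lM j ≤ X.lg l + 3 * X.g + 2 ∧ X.lg 6 ≤ X.lg l := by
    have e1 : X.lg l = X.lg PS - (X.lg 260 + (3 * X.g + 1) + 2 * X.lg X.Λ + X.lg M) := by
      rw [hl, h0.lg_div hPS0 hden, h0.lg_mul (by positivity) hM0,
        h0.lg_mul (by positivity) (by positivity), h0.lg_pow, hR]
      have e2 : (4 : ℝ) * (65 * (X.Q : ℝ) ^ (3 * X.g + 1)) = 260 * (X.Q : ℝ) ^ (3 * X.g + 1) := by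
        ring
      rw [e2, h0.lg_mul (by norm_num) (h0.Qpow_pos _), h0.lg_Qpow]
      push_cast
      ring
    have c1 := h0.lg_const (c := 260) (by norm_num) 9 (by norm_num)
    have c2 := h0.lg_const (c := 6) (by norm_num) 3 (by norm_num)
    have c3 := h0.lgL_le
    rw [hlSe, hlMe] at hlS ⊢
    push_cast at c1 c2
    constructor <;> linarith
  have hl6 : 6 ≤ l := h0.le_of_lg (by norm_num) hl0 hlgl.2
  have h24 : ∀ n ∈ X.E, 24 ≤ (T (X.cl j n)).card := by
    intro n hn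
    have h1 := hlT n hn
    have h2 : ((24 : ℕ) : ℝ) ≤ ((T (X.cl j n)).card : ℝ) := by push_cast; linarith
    exact_mod_cast h2
  -- the edges
  obtain ⟨E2, hE2⟩ : ∃ E2 : Finset ℕ, E2 = X.E.filter
    (fun n => X.slot i n ∈ mid (T (X.cl j n))) := ⟨_, rfl⟩
  have hE2m : ∀ n, n ∈ E2 ↔ n ∈ X.E ∧ X.slot i n ∈ mid (T (X.cl j n)) := by
    intro n; rw [hE2, Finset.mem_filter]
  have hslotf : X.slot i = fun n => ⌊x n * (X.Q : ℝ) ^ i⌋ := funext hslot
  refine ⟨E2, l, ?_, ?_, by linarith, hlgl.1, ?_, ?_⟩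
  · rw [hE2]; exact Finset.filter_subset _ _
  · have h1 := card_ge (E2 := E2) hregS (by rw [hE2]; exact Finset.filter_subset _ _) (by
      intro n hn k hk hnk
      rw [hE2m] at hk ⊢
      rw [hfn, hfn] at hnk
      have h3 := Prod.ext_iff.1 hnk
      simp only at h3
      refine ⟨hn, ?_⟩
      rw [h3.1, h3.2]
      exact hk.2)
    rw [← hPS] at h1
    -- number of middle slots
    have h2 : PS ≤ 4 * R * (im E2 f : ℝ) := by
      have s1 : X.E.image f ⊆ (X.E.image (fun n => X.cl j n)).biUnion (fun c =>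
          ((X.E.filter (fun n => X.cl j n = c)).image (X.slot i)).image (fun σ => (c, σ))) := by
        intro y hy
        obtain ⟨k, hk, rfl⟩ := Finset.mem_image.1 hy
        rw [Finset.mem_biUnion]
        refine ⟨X.cl j k, Finset.mem_image_of_mem _ hk, ?_⟩
        rw [Finset.mem_image]
        refine ⟨X.slot i k, Finset.mem_image_of_mem _ (Finset.mem_filter.2 ⟨hk, rfl⟩), ?_⟩
        rw [hfn]
      have s2 : PS ≤ ∑ c ∈ X.E.image (fun n => X.cl j n),
          (((X.E.filter (fun n => X.cl j n = c)).image (X.slot i)).card : ℝ) := by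
        rw [hPS]
        have t1 := (Finset.card_le_card s1).trans Finset.card_biUnion_le
        have t2 : (X.E.image f).card ≤ ∑ c ∈ X.E.image (fun n => X.cl j n),
          ((X.E.filter (fun n => X.cl j n = c)).image (X.slot i)).card :=
          t1.trans (Finset.sum_le_sum fun c _ => Finset.card_image_le)
        unfold im
        exact_mod_cast t2
      have s3 : ∀ c ∈ X.E.image (fun n => X.cl j n),
          (((X.E.filter (fun n => X.cl j n = c)).image (X.slot i)).card : ℝ) ≤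
          4 * R * ((((mid (T c)).image (fun σ => (c, σ))).card : ℕ) : ℝ) := by
        intro c hc
        obtain ⟨n, hn, hnc⟩ := Finset.mem_image.1 hc
        have hnc : X.cl j n = c := hnc
        subst hnc
        have t1 := mid_card (h24 n hn)
        have t2 : ((mid (T (X.cl j n))).image (fun σ => (X.cl j n, σ))).card =
            (mid (T (X.cl j n))).card :=
          Finset.card_image_of_injective _ (fun a b h => (Prod.ext_iff.1 h).2)
        rw [t2]
        have t3 : ((T (X.cl j n)).card : ℝ) ≤ 4 * ((mid (T (X.cl j n))).card : ℝ) := by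
          exact_mod_cast t1
        have t4 := hST (X.cl j n)
        have t5 := mul_le_mul_of_nonneg_left t3 hR0.le
        linarith
      have s4 : (X.E.image (fun n => X.cl j n)).biUnion (fun c =>
          (mid (T c)).image (fun σ => (c, σ))) ⊆ E2.image f := by
        intro y hy
        rw [Finset.mem_biUnion] at hy
        obtain ⟨c, -, hy⟩ := hy
        obtain ⟨σ, hσ, rfl⟩ := Finset.mem_image.1 hy
        have hσT : σ ∈ T c := (Finset.mem_filter.1 hσ).1
        obtain ⟨n', hn', h3, h4⟩ := hTm c σ hσT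
        rw [Finset.mem_image]
        refine ⟨n', ?_, ?_⟩
        · rw [hE2m, h3, h4]
          exact ⟨hn', hσ⟩
        · rw [hfn, h3, h4]
      have s5 : (((X.E.image (fun n => X.cl j n)).biUnion (fun c =>
          (mid (T c)).image (fun σ => (c, σ)))).card : ℝ) =
          ∑ c ∈ X.E.image (fun n => X.cl j n),
            ((((mid (T c)).image (fun σ => (c, σ))).card : ℕ) : ℝ) := by
        rw [Finset.card_biUnion]
        · push_cast; rfl
        · intro c _ c' _ hcc'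
          change Disjoint _ _
          rw [Finset.disjoint_left]
          intro y hy hy'
          obtain ⟨σ, -, rfl⟩ := Finset.mem_image.1 hy
          obtain ⟨σ', -, h⟩ := Finset.mem_image.1 hy'
          exact hcc' (Prod.ext_iff.1 h).1.symm
      have s6 : (((X.E.image (fun n => X.cl j n)).biUnion (fun c =>
          (mid (T c)).image (fun σ => (c, σ)))).card : ℝ) ≤ (im E2 f : ℝ) := by
        unfold im
        exact_mod_cast Finset.card_le_card s4
      calc PS ≤ _ := s2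
        _ ≤ ∑ c ∈ X.E.image (fun n => X.cl j n),
            4 * R * ((((mid (T c)).image (fun σ => (c, σ))).card : ℕ) : ℝ) :=
          Finset.sum_le_sum s3
        _ = 4 * R * (((X.E.image (fun n => X.cl j n)).biUnion (fun c =>
          (mid (T c)).image (fun σ => (c, σ)))).card : ℝ) := by
          rw [s5, Finset.mul_sum]
        _ ≤ _ := mul_le_mul_of_nonneg_left s6 (by positivity)
    have hEc := h0.card_pos
    have h3 : PS * X.E.card ≤ PS * (4 * R * X.Λ * (E2.card : ℝ)) := by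
      have t1 := mul_le_mul_of_nonneg_right h2 hEc.le
      have t2 := mul_le_mul_of_nonneg_left h1 (by positivity : 0 ≤ 4 * R)
      linarith
    have h4 := le_of_mul_le_mul_left h3 hPS0
    refine h4.trans (mul_le_mul_of_nonneg_right ?_ (Nat.cast_nonneg _))
    rw [hR]
    have e1 : (X.Q : ℝ) ^ (3 * X.g + 2) = (X.Q : ℝ) ^ (3 * X.g + 1) * X.Q := by
      rw [← pow_succ]
    have e2 : 260 * X.Λ ≤ X.Q := by
      apply h0.le_of_lg (by positivity) h0.Q_pos
      rw [h0.lg_mul (by norm_num) hL, h0.lg_Q]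
      have c1 := h0.lg_const (c := 260) (by norm_num) 9 (by norm_num)
      have c3 := h0.lgL_le
      push_cast at c1
      linarith
    rw [e1]
    have := mul_le_mul_of_nonneg_left e2 (h0.Qpow_pos (3 * X.g + 1)).le
    linarith
  · intro n hn
    rw [hE2m] at hn
    have hm := hn.2
    have h24n := h24 n hn.1
    have hcard := hlT n hn.1
    rw [hTc, hslotf] at hm h24n hcard
    obtain ⟨U, hU, hU2⟩ := up_set hQi hD0 (fun k hk => (Finset.mem_filter.1 hk).2) hm h24n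
    refine ⟨U, ?_, ?_⟩
    · have : ((((X.E.filter (fun k => X.cl j k = X.cl j n)).filter
        (fun k => ⌊8 * x k / D⌋ = z (X.cl j n))).image
        (fun k => ⌊x k * (X.Q : ℝ) ^ i⌋)).card : ℝ) ≤ 4 * (U.card : ℝ) := by exact_mod_cast hU
      linarith
    · intro σ hσ
      obtain ⟨u1, u2, u3⟩ := hU2 σ hσ
      refine ⟨?_, by rw [← hxn]; exact u2, by rw [← hxn, ← hD]; exact u3⟩
      apply hTm
      rw [hTc, hslotf]
      exact u1
  · intro n hn
    rw [hE2m] at hn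
    have hm := hn.2
    have h24n := h24 n hn.1
    have hcard := hlT n hn.1
    rw [hTc, hslotf] at hm h24n hcard
    obtain ⟨U, hU, hU2⟩ := dn_set hQi hD0 (fun k hk => (Finset.mem_filter.1 hk).2) hm h24n
    refine ⟨U, ?_, ?_⟩
    · have : ((((X.E.filter (fun k => X.cl j k = X.cl j n)).filter
        (fun k => ⌊8 * x k / D⌋ = z (X.cl j n))).image
        (fun k => ⌊x k * (X.Q : ℝ) ^ i⌋)).card : ℝ) ≤ 4 * (U.card : ℝ) := by exact_mod_cast hU
      linarith
    · intro σ hσ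
      obtain ⟨u1, u2, u3⟩ := hU2 σ hσ
      refine ⟨?_, by rw [← hxn, ← hD]; exact u2, by rw [← hxn]; exact u3⟩
      apply hTm
      rw [hTc, hslotf]
      exact u1

end Pool.Agent.Work.MP_e17eac_co.PS
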