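import Pool.Agent.Work.MP_e17eac_co.PS.Lg

/-!
# Project PS, item Q8y: the flux inequality, second half
-/

namespace Pool.Agent.Work.MP_e17eac_co.PS

open Finset
open Pool.Agent.Work.MP_e17eac_co.DH

namespace XQ8y

variable {ι : Type} [Fintype ι] [DecidableEq ι]

/-- An edge lies between the starting indices of its cell and of the next cell. -/
theorem idxs (hIdx : StIdx) (K : KSys ι) (Q j n : ℕ) (hQ : 0 < Q) (hn : n < K.N)
    (ht : 0 ≤ K.t n) :
    K.ci Q j (K.cell Q j n) ≤ n ∧ n < K.ci Q j (K.cell Q j n + 1) := by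
  obtain ⟨-, h2, -, -⟩ := hIdx ι K
  have hQp : (0 : ℝ) < (Q : ℝ) ^ j := pow_pos (by exact_mod_cast hQ) j
  constructor
  · by_contra hc
    push Not at hc
    have h3 := ((h2 n _).1 hc).2
    rw [lt_div_iff₀ hQp] at h3
    have h4 : ((K.cell Q j n : ℕ) : ℝ) ≤ K.t n * (Q : ℝ) ^ j :=
      Nat.floor_le (mul_nonneg ht hQp.le)
    linarith
  · refine (h2 n _).2 ⟨hn, ?_⟩
    rw [lt_div_iff₀ hQp]
    have h4 : K.t n * (Q : ℝ) ^ j < ((K.cell Q j n : ℕ) : ℝ) + 1 := Nat.lt_floor_add_one _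
    push_cast
    linarith

/-- Slopes at the starting indices decrease. -/
theorem mono_ci (hMono : StMono) (hIdx : StIdx) (K : KSys ι) (Q j c c' : ℕ)
    (hcc : c ≤ c') (τ : ι) (hτ : τ ∈ K.S 0) :
    K.x (K.pos (K.ci Q j c') τ) ≤ K.x (K.pos (K.ci Q j c) τ) := by
  obtain ⟨-, -, h3, h4⟩ := hIdx ι K
  refine (hMono ι K _ _ (h3 _ _ ?_) (h4 _)).1 τ hτ
  have : (c : ℝ) ≤ (c' : ℝ) := by exact_mod_cast hcc
  exact div_le_div_of_nonneg_right this (by positivity)

open Classical in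
/-- Slots of the cell `c` swept completely by the token `τ`. -/
noncomputable def R (X : RS ι) (j i : ℕ) (p : ℕ × ι) : Finset ℤ :=
  ((X.E.filter (fun n => X.cl j n = p.1)).image (fun n => X.slot i n)).filter
    (fun σ => X.K.x (X.K.pos (X.K.ci X.Q j (p.1 + 1)) p.2) * (X.Q : ℝ) ^ i ≤ (σ : ℝ) ∧
      (σ : ℝ) + 1 ≤ X.K.x (X.K.pos (X.K.ci X.Q j p.1) p.2) * (X.Q : ℝ) ^ i)

theorem mem_R (X : RS ι) (j i : ℕ) (p : ℕ × ι) (σ : ℤ) : σ ∈ R X j i p ↔
    (∃ n ∈ X.E, X.cl j n = p.1 ∧ X.slot i n = σ) ∧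
    X.K.x (X.K.pos (X.K.ci X.Q j (p.1 + 1)) p.2) * (X.Q : ℝ) ^ i ≤ (σ : ℝ) ∧
      (σ : ℝ) + 1 ≤ X.K.x (X.K.pos (X.K.ci X.Q j p.1) p.2) * (X.Q : ℝ) ^ i := by
  classical
  unfold R
  rw [Finset.mem_filter, Finset.mem_image]
  simp only [Finset.mem_filter, and_assoc]

theorem R_large (hTok : StTok) (hMono : StMono) (hIdx : StIdx) (X : RS ι) (h : X.OK)
    (j i : ℕ) (hj : j ≤ X.J) (E2 : Finset ℕ) (l : ℝ) (hM : X.Mid j i E2 l) (n : ℕ)
    (hn : n ∈ E2) : l ≤ ((R X j i (X.cl j n, X.K.tokB n)).card : ℝ) := by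
  classical
  have h0 := h.toOK0
  have hQ : 0 < X.Q := lt_of_lt_of_le (by norm_num) h0.hQ
  have hnE := hM.sub hn
  obtain ⟨hnN, hnt, -⟩ := h0.sub n hnE
  obtain ⟨hτ, -, hpos, -⟩ := hTok ι X.K n hnN
  obtain ⟨hi1, hi2⟩ := idxs hIdx X.K X.Q j n hQ hnN hnt
  obtain ⟨-, -, -, h4⟩ := hIdx ι X.K
  have hx1 : X.K.x (X.K.a n) ≤ X.K.x (X.K.pos (X.K.ci X.Q j (X.cl j n)) (X.K.tokB n)) := by
    have := (hMono ι X.K _ _ hi1 hnN.le).1 _ hτ
    rwa [hpos] at this
  have hx2 : X.K.x (X.K.pos (X.K.ci X.Q j (X.cl j n + 1)) (X.K.tokB n)) ≤ X.K.x (X.K.a n) := by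
    have := (hMono ι X.K _ _ hi2.le (h4 _)).1 _ hτ
    rwa [hpos] at this
  have hd : X.D false j ≤ X.K.x (X.K.pos (X.K.ci X.Q j (X.cl j n)) (X.K.tokB n)) -
      X.K.x (X.K.pos (X.K.ci X.Q j (X.cl j n + 1)) (X.K.tokB n)) := by
    have := h0.dlo false j hj n hnE
    unfold KSys.disp at this
    rw [abs_of_nonneg] at this
    · exact this
    · have : X.K.tok false n = X.K.tokB n := rfl
      rw [this]
      linarith
  have hQi : (0 : ℝ) < (X.Q : ℝ) ^ i := h0.Qpow_pos i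
  set xs := X.K.x (X.K.pos (X.K.ci X.Q j (X.cl j n)) (X.K.tokB n)) with hxs
  set xe := X.K.x (X.K.pos (X.K.ci X.Q j (X.cl j n + 1)) (X.K.tokB n)) with hxe
  by_cases hup : X.K.x (X.K.a n) + X.D false j / 4 ≤ xs
  · obtain ⟨U, hU, hU2⟩ := hM.up n hn
    refine hU.trans ?_
    have hsub : U ⊆ R X j i (X.cl j n, X.K.tokB n) := by
      intro σ hσ
      obtain ⟨⟨n', hn', hc, hs⟩, h5, h6⟩ := hU2 σ hσ
      rw [mem_R]
      refine ⟨⟨n', hn', hc, hs⟩, ?_, ?_⟩
      · exact (mul_le_mul_of_nonneg_right hx2 hQi.le).trans h5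
      · exact h6.trans (mul_le_mul_of_nonneg_right hup hQi.le)
    exact_mod_cast Finset.card_le_card hsub
  · have hdn : xe ≤ X.K.x (X.K.a n) - X.D false j / 4 := by
      push Not at hup
      by_contra hcon
      push Not at hcon
      linarith
    obtain ⟨U, hU, hU2⟩ := hM.dn n hn
    refine hU.trans ?_
    have hsub : U ⊆ R X j i (X.cl j n, X.K.tokB n) := by
      intro σ hσ
      obtain ⟨⟨n', hn', hc, hs⟩, h5, h6⟩ := hU2 σ hσ
      rw [mem_R]
      refine ⟨⟨n', hn', hc, hs⟩, ?_, ?_⟩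
      · exact (mul_le_mul_of_nonneg_right hdn hQi.le).trans h5
      · exact h6.trans (mul_le_mul_of_nonneg_right hx1 hQi.le)
    exact_mod_cast Finset.card_le_card hsub

/-- For one bottom token the sets `R` of different cells are disjoint. -/
theorem R_disj (hMono : StMono) (hIdx : StIdx) (X : RS ι) (h : X.OK0)
    (j i c c' : ℕ) (hc : c < c') (τ : ι) (hτ : τ ∈ X.K.S 0) :
    Disjoint (R X j i (c, τ)) (R X j i (c', τ)) := by
  rw [Finset.disjoint_left]
  intro σ h1 h2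
  rw [mem_R] at h1 h2
  have h3 := h1.2.1
  have h4 := h2.2.2
  have h5 := mono_ci hMono hIdx X.K X.Q j (c + 1) c' hc τ hτ
  have h6 := mul_le_mul_of_nonneg_right h5 (h.Qpow_pos i).le
  simp only at h3 h4
  linarith

/-- The number of slots of a cell of level `j0`. -/
theorem slots (X : RS ι) (h : X.OK) (j0 i : ℕ) (hj : j0 ≤ X.J) (hi : i ≤ X.I) (n : ℕ)
    (hn : n ∈ X.E) :
    (((X.E.filter (fun k => X.cl j0 k = X.cl j0 n)).image (fun k => X.slot i k)).card : ℝ) *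
      (im X.E (fun k => X.cl j0 k) : ℝ) ≤
      X.Λ ^ 2 * (im X.E (fun k => (X.cl j0 k, X.slot i k)) : ℝ) := by
  classical
  have h1 := (h.toOK0.cnt (fun k => X.cl j0 k) (fun k => (X.cl j0 k, X.slot i k))
    (h.regM j0 hj) (h.regS j0 i hj hi) (fun a _ b _ hab => (Prod.mk.inj hab).1) n hn).2
  refine le_trans (mul_le_mul_of_nonneg_right ?_ (Nat.cast_nonneg _)) h1
  have : im (X.E.filter (fun k => X.cl j0 k = X.cl j0 n)) (fun k => X.slot i k) ≤
      im (X.E.filter (fun k => X.cl j0 k = X.cl j0 n)) (fun k => (X.cl j0 k, X.slot i k)) :=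
    RS.im_le_im _ _ _ (fun a _ b _ hab => (Prod.mk.inj hab).2)
  unfold im at this
  unfold im
  exact_mod_cast this

/-- The counting inequality. -/
theorem count (hTok : StTok) (hMono : StMono) (hIdx : StIdx) (hNest : StNest) (X : RS ι)
    (h : X.OK) (j0 j i : ℕ) (hj0 : j0 ≤ j) (hj : j ≤ X.J) (hi : i ≤ X.I) (E2 : Finset ℕ)
    (l : ℝ) (hM : X.Mid j i E2 l) :
    l * (im E2 (fun n => (X.cl j n, X.K.tokB n)) : ℝ) * (im X.E (fun k => X.cl j0 k) : ℝ) ≤
      (im X.E (fun n => (X.cl j0 n, X.K.tokB n)) : ℝ) *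
        (X.Λ ^ 2 * (im X.E (fun k => (X.cl j0 k, X.slot i k)) : ℝ)) := by
  classical
  have h0 := h.toOK0
  have hQ1 : 1 ≤ X.Q := le_trans (by norm_num) h0.hQ
  obtain ⟨-, hN2, -⟩ := hNest ι X.K X.Q hQ1
  have hcell : ∀ n ∈ X.E, X.cl j0 n = X.cl j n / X.Q ^ (j - j0) := fun n hn =>
    hN2 j0 j n hj0 (h0.sub n hn).2.1
  set P := E2.image (fun n => (X.cl j n, X.K.tokB n)) with hP
  set φ : ℕ × ι → ℕ × ι := fun p => (p.1 / X.Q ^ (j - j0), p.2) with hφ
  set PM0 : ℝ := (im X.E (fun k => X.cl j0 k) : ℝ) with hPM0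
  set B : ℝ := X.Λ ^ 2 * (im X.E (fun k => (X.cl j0 k, X.slot i k)) : ℝ) with hB
  have hPM0pos : 0 ≤ PM0 := Nat.cast_nonneg _
  have hBpos : 0 ≤ B := mul_nonneg (by positivity) (Nat.cast_nonneg _)
  -- lower bound
  have hlow : l * (P.card : ℝ) ≤ ∑ p ∈ P, ((R X j i p).card : ℝ) := by
    calc l * (P.card : ℝ) = ∑ _p ∈ P, l := by
          rw [Finset.sum_const, nsmul_eq_mul]; ring
      _ ≤ _ := by
          refine Finset.sum_le_sum fun p hp => ?_
          obtain ⟨n, hn, rfl⟩ := Finset.mem_image.1 hp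
          exact R_large hTok hMono hIdx X h j i hj E2 l hM n hn
  -- fibrewise
  have hfib : ∑ p ∈ P, ((R X j i p).card : ℝ) =
      ∑ q ∈ P.image φ, ∑ p ∈ P.filter (fun p => φ p = q), ((R X j i p).card : ℝ) :=
    (Finset.sum_fiberwise_of_maps_to (fun p hp => Finset.mem_image_of_mem φ hp) _).symm
  have hin : ∀ q ∈ P.image φ,
      (∑ p ∈ P.filter (fun p => φ p = q), ((R X j i p).card : ℝ)) * PM0 ≤ B := by
    intro q hq
    obtain ⟨p0, hp0, rfl⟩ := Finset.mem_image.1 hq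
    obtain ⟨n0, hn0, rfl⟩ := Finset.mem_image.1 hp0
    have hn0E := hM.sub hn0
    have hsl := slots X h j0 i (hj0.trans hj) hi n0 hn0E
    refine le_trans (mul_le_mul_of_nonneg_right ?_ hPM0pos) hsl
    have hτ : X.K.tokB n0 ∈ X.K.S 0 := (hTok ι X.K n0 (h0.sub n0 hn0E).1).1
    have hcard : ∑ p ∈ P.filter (fun p => φ p = φ (X.cl j n0, X.K.tokB n0)),
        ((R X j i p).card : ℝ) =
        (((P.filter (fun p => φ p = φ (X.cl j n0, X.K.tokB n0))).biUnion
          (fun p => R X j i p)).card : ℝ) := by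
      rw [Finset.card_biUnion]
      · push_cast
        rfl
      · intro p hp p' hp' hne
        have e1 := (Finset.mem_filter.1 hp).2
        have e2 := (Finset.mem_filter.1 hp').2
        obtain ⟨c, τ⟩ := p
        obtain ⟨c', τ'⟩ := p'
        simp only [hφ, Prod.mk.injEq] at e1 e2
        obtain ⟨-, rfl⟩ := e1
        obtain ⟨-, rfl⟩ := e2
        have hcne : c ≠ c' := fun hcc => hne (by rw [hcc])
        rcases lt_or_gt_of_ne hcne with hlt | hlt
        · exact R_disj hMono hIdx X h0 j i c c' hlt _ hτ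
        · exact (R_disj hMono hIdx X h0 j i c' c hlt _ hτ).symm
    rw [hcard]
    have hsub : (P.filter (fun p => φ p = φ (X.cl j n0, X.K.tokB n0))).biUnion
        (fun p => R X j i p) ⊆
        (X.E.filter (fun k => X.cl j0 k = X.cl j0 n0)).image (fun k => X.slot i k) := by
      intro σ hσ
      obtain ⟨p, hp, hσp⟩ := Finset.mem_biUnion.1 hσ
      have e1 := (Finset.mem_filter.1 hp).2
      obtain ⟨c, τ⟩ := p
      simp only [hφ, Prod.mk.injEq] at e1
      rw [mem_R] at hσp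
      obtain ⟨⟨n', hn', hc', hs'⟩, -⟩ := hσp
      refine Finset.mem_image.2 ⟨n', Finset.mem_filter.2 ⟨hn', ?_⟩, hs'⟩
      rw [hcell n' hn', hcell n0 hn0E, hc', e1.1]
    exact_mod_cast Finset.card_le_card hsub
  have hup : (∑ p ∈ P, ((R X j i p).card : ℝ)) * PM0 ≤ ((P.image φ).card : ℝ) * B := by
    rw [hfib, Finset.sum_mul]
    calc _ ≤ ∑ _q ∈ P.image φ, B := Finset.sum_le_sum hin
      _ = _ := by rw [Finset.sum_const, nsmul_eq_mul]
  have hPcard : ((P.image φ).card : ℝ) ≤ (im X.E (fun n => (X.cl j0 n, X.K.tokB n)) : ℝ) := by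
    have : P.image φ ⊆ X.E.image (fun n => (X.cl j0 n, X.K.tokB n)) := by
      intro q hq
      obtain ⟨p0, hp0, rfl⟩ := Finset.mem_image.1 hq
      obtain ⟨n0, hn0, rfl⟩ := Finset.mem_image.1 hp0
      refine Finset.mem_image.2 ⟨n0, hM.sub hn0, ?_⟩
      simp only [hφ]
      rw [hcell n0 (hM.sub hn0)]
    unfold im
    exact_mod_cast Finset.card_le_card this
  calc l * (im E2 (fun n => (X.cl j n, X.K.tokB n)) : ℝ) * PM0
      = (l * (P.card : ℝ)) * PM0 := rfl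
    _ ≤ (∑ p ∈ P, ((R X j i p).card : ℝ)) * PM0 := mul_le_mul_of_nonneg_right hlow hPM0pos
    _ ≤ ((P.image φ).card : ℝ) * B := hup
    _ ≤ _ := mul_le_mul_of_nonneg_right hPcard hBpos

end XQ8y

theorem I_Q8y (hTok : StTok) (hMono : StMono) (hIdx : StIdx) (hNest : StNest) : StQ8y := by
  intro ι _ _ X h j0 j i hj0 hj hi E2 l hM
  classical
  have h0 := h.toOK0
  have hjJ : j ≤ X.J := by omega
  have hcount := XQ8y.count hTok hMono hIdx hNest X h j0 j i hj0 hjJ hi E2 l hM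
  have hpart := h0.part (fun n => (X.cl j n, X.K.tok false n)) (h0.regT false j hjJ) E2 hM.sub
    ((X.Q : ℝ) ^ (3 * X.g + 2)) hM.card
  have htok : (fun n => (X.cl j n, X.K.tok false n)) = (fun n => (X.cl j n, X.K.tokB n)) := rfl
  have hl : 0 < l := by linarith [hM.one_le]
  have hE2 : E2.Nonempty := by
    rw [Finset.nonempty_iff_ne_empty]
    rintro rfl
    have h1 := hM.card
    have h2 := h0.card_pos
    simp only [Finset.card_empty, Nat.cast_zero, mul_zero] at h1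
    linarith
  have hP : (1 : ℝ) ≤ (im E2 (fun n => (X.cl j n, X.K.tokB n)) : ℝ) := by
    have : 0 < im E2 (fun n => (X.cl j n, X.K.tokB n)) := Finset.card_pos.2 (hE2.image _)
    exact_mod_cast this
  have hPM0 := h0.im_pos (fun k => X.cl j0 k)
  have hPT0 := h0.im_pos (fun n => (X.cl j0 n, X.K.tokB n))
  have hPS0 := h0.im_pos (fun k => (X.cl j0 k, X.slot i k))
  have hPT := h0.im_pos (fun n => (X.cl j n, X.K.tok false n))
  have hL := h0.L_pos
  have hLl := h0.lgL_le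
  have g1 := h0.lg_le (mul_pos (mul_pos hl (by linarith)) (by linarith)) hcount
  rw [h0.lg_mul (mul_pos hl (by linarith)) (by linarith), h0.lg_mul hl (by linarith),
    h0.lg_mul (by linarith) (mul_pos (pow_pos hL 2) (by linarith)),
    h0.lg_mul (pow_pos hL 2) (by linarith), h0.lg_pow] at g1
  have g2 := h0.lg_le (by linarith) hpart
  rw [h0.lg_mul (mul_pos (h0.Qpow_pos _) hL) (by rw [htok]; linarith),
    h0.lg_mul (h0.Qpow_pos _) hL, h0.lg_Qpow] at g2
  have e1 : X.lT false j = X.lg (im X.E (fun n => (X.cl j n, X.K.tok false n))) := rfl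
  have e2 : X.lT false j0 = X.lg (im X.E (fun n => (X.cl j0 n, X.K.tokB n))) := rfl
  have e3 : X.lS j0 i = X.lg (im X.E (fun n => (X.cl j0 n, X.slot i n))) := rfl
  have e4 : X.lM j0 = X.lg (im X.E (fun n => X.cl j0 n)) := rfl
  have g3 := hM.hl
  rw [← e1, htok] at g2
  rw [← e2, ← e3, ← e4] at g1
  push_cast at g1 g2
  linarith

end Pool.Agent.Work.MP_e17eac_co.PS
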