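import Pool.Agent.Work.MP_e17eac_co.PS.Lg
import Pool.Agent.Work.MP_e17eac_co.Bd.B07

/-!
# Item RX: existence of the regular set
-/

namespace Pool.Agent.Work.MP_e17eac_co.PS

open Finset
open Pool.Agent.Work.MP_e17eac_co.DH

namespace XRX

variable {ι : Type} [Fintype ι] [DecidableEq ι]

theorem up_mono {K : KSys ι} {Q j c : ℕ} {p : ι} {δ δ' : ℝ} (h : UpGap K Q j c p δ)
    (hd : δ' ≤ δ) : UpGap K Q j c p δ' := by
  obtain ⟨n, r, h1, h2, h3, h4, q, hq, h5⟩ := h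
  exact ⟨n, r, h1, h2, h3, h4, q, hq, by linarith⟩

theorem dn_mono {K : KSys ι} {Q j c : ℕ} {p : ι} {δ δ' : ℝ} (h : DnGap K Q j c p δ)
    (hd : δ' ≤ δ) : DnGap K Q j c p δ' := by
  obtain ⟨n, r, h1, h2, h3, h4, q, hq, h5⟩ := h
  exact ⟨n, r, h1, h2, h3, h4, q, hq, by linarith⟩

/-- The set of gaps. -/
def gs (K : KSys ι) (Q j n : ℕ) : Set ℝ :=
  {δ | UpGap K Q j (K.cell Q j n) (K.a n) δ ∧ DnGap K Q j (K.cell Q j n) (K.a n) δ}

/-- The largest gap. -/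
noncomputable def gv (K : KSys ι) (Q j n : ℕ) : ℝ := sSup (gs K Q j n)

theorem gv_spec (hGapR : StGapR) (hJump : StJump) (hIdx : StIdx) (K : KSys ι) (M : ℝ)
    (hM : 2 ≤ M) (hs : K.Sep M) (Q j n : ℕ) (hQ : 2 ≤ Q) (hn : n < K.N) (h0 : 0 ≤ K.t n)
    {d : ℝ} (hd : d ∈ gs K Q j n) :
    d ≤ gv K Q j n ∧ gv K Q j n ≤ 1 ∧ (∀ δ, δ < gv K Q j n → δ ∈ gs K Q j n) ∧
      ∀ δ, gv K Q j n < δ → δ ∉ gs K Q j n := by
  have hub : ∀ δ ∈ gs K Q j n, δ ≤ 1 := by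
    intro δ hδ
    have h1 := (hGapR ι K Q j n δ (by omega) hn h0).1 hδ.1
    have h2 := (XREGEX.disp_bd hJump hIdx K M hM hs Q j n hQ hn h0 true).2
    have h3 : δ * (Q : ℝ) ^ j ≤ 1 := h1.trans h2
    by_contra hcon
    push Not at hcon
    have hQ1 : (1 : ℝ) ≤ (Q : ℝ) ^ j := by
      apply one_le_pow₀
      have : 1 ≤ Q := by omega
      exact_mod_cast this
    nlinarith
  have hbdd : BddAbove (gs K Q j n) := ⟨1, hub⟩
  refine ⟨le_csSup hbdd hd, csSup_le ⟨d, hd⟩ hub, ?_, ?_⟩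
  · intro δ hδ
    obtain ⟨δ', h1, h2⟩ := exists_lt_of_lt_csSup ⟨d, hd⟩ hδ
    exact ⟨up_mono h1.1 h2.le, dn_mono h1.2 h2.le⟩
  · intro δ hδ hmem
    exact absurd (le_csSup hbdd hmem) (not_le.mpr hδ)

open Classical in
/-- The numbers `v3`. -/
noncomputable def w3 (K : KSys ι) (Q i n : ℕ) : ℕ :=
  ((visC K Q 0 0).filter (fun q => (bx K Q i q).1 = (bx K Q i (K.a n)).1 ∧
    |(bx K Q i q).2 - (bx K Q i (K.a n)).2| ≤ 1)).card

theorem w3_pos (K : KSys ι) (Q i n : ℕ) (hn : n < K.N) (h0 : 0 ≤ K.t n) (h1 : K.t n < 1) :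
    1 ≤ w3 K Q i n := by
  classical
  unfold w3
  rw [Nat.one_le_iff_ne_zero, ← Nat.pos_iff_ne_zero, Finset.card_pos]
  refine ⟨K.a n, ?_⟩
  rw [Finset.mem_filter]
  refine ⟨?_, rfl, by simp⟩
  unfold visC KSys.lines
  rw [Finset.mem_union]
  left
  apply Finset.mem_image_of_mem
  rw [Finset.mem_filter]
  refine ⟨Finset.mem_range.mpr hn, h0, ?_⟩
  unfold KSys.cell
  rw [pow_zero, mul_one]
  exact Nat.floor_eq_zero.mpr h1

theorem w3_le (K : KSys ι) (Q i n : ℕ) : w3 K Q i n ≤ Fintype.card ι := by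
  unfold w3
  exact Finset.card_le_univ _

/-- Dyadic classes and types. -/
theorem stage1 (hDcl : StDcl) (hGapR : StGapR) (hJump : StJump) (hIdx : StIdx)
    (K : KSys ι) (Q J g I : ℕ) (M δ0 : ℝ) (gg : ℕ) (E1 : Finset ℕ) (hne : E1.Nonempty)
    (hQ : 2 ≤ Q) (hM2 : 2 ≤ M) (hMs : K.Sep M) (hcard : (Fintype.card ι : ℝ) ≤ M)
    (hgg : M ≤ 2 ^ gg) (hE : ∀ n ∈ E1, n < K.N ∧ 0 ≤ K.t n ∧ K.t n < 1)
    (hδ : 1 / M ≤ 2 * δ0)
    (hgap : ∀ n ∈ E1, ∀ j, j + g ≤ J → 2 * δ0 ∈ gs K Q j n) :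
    ∃ E3 ⊆ E1, E3.Nonempty ∧
      E1.card ≤ ((gg + 1) ^ (3 * (J + 1) + (I + 1)) * 3 ^ (J + 1)) * E3.card ∧
      ∃ (D : Bool → ℕ → ℝ) (dl : ℕ → ℝ) (V : ℕ → ℝ),
      (∀ p j, j ≤ J → ∀ n ∈ E3, D p j ≤ K.disp Q j (K.cell Q j n) (K.tok p n) ∧
        K.disp Q j (K.cell Q j n) (K.tok p n) < 2 * D p j) ∧
      (∀ j, j + g ≤ J → δ0 < dl j ∧ (∀ n ∈ E3, ∀ δ, δ < dl j → δ ∈ gs K Q j n) ∧
        ((∀ n ∈ E3, ¬ UpGap K Q j (K.cell Q j n) (K.a n) (2 * dl j)) ∨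
          (∀ n ∈ E3, ¬ DnGap K Q j (K.cell Q j n) (K.a n) (2 * dl j)))) ∧
      (∀ i, i ≤ I → ∀ n ∈ E3, V i ≤ (w3 K Q i n : ℝ) ∧ (w3 K Q i n : ℝ) < 2 * V i) := by
  classical
  have hM0 : 0 < M := by linarith
  have h2gg : (0 : ℝ) < 2 ^ gg := by positivity
  have hlow : (1 : ℝ) / 2 ^ gg ≤ 1 / M := one_div_le_one_div_of_le hM0 hgg
  have h1M : (1 : ℝ) / M ≤ 1 := by
    rw [div_le_one hM0]
    linarith
  let v : (Fin (J + 1) ⊕ ((Bool × Fin (J + 1)) ⊕ Fin (I + 1))) → ℕ → ℝ := fun k n =>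
    match k with
    | Sum.inl j => if j.val + g ≤ J then gv K Q j n else 1
    | Sum.inr (Sum.inl pj) => K.disp Q pj.2 (K.cell Q pj.2 n) (K.tok pj.1 n)
    | Sum.inr (Sum.inr i) => (w3 K Q i n : ℝ) / 2 ^ gg
  have hv : ∀ k, ∀ n ∈ E1, (1 : ℝ) / 2 ^ gg ≤ v k n ∧ v k n ≤ 1 := by
    intro k n hn
    obtain ⟨e1, e2, e3⟩ := hE n hn
    match k with
    | Sum.inl j =>
      show (1 : ℝ) / 2 ^ gg ≤ (if j.val + g ≤ J then gv K Q j n else 1) ∧
        (if j.val + g ≤ J then gv K Q j n else 1) ≤ 1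
      by_cases hj : j.val + g ≤ J
      · rw [if_pos hj]
        obtain ⟨g1, g2, _, _⟩ := gv_spec hGapR hJump hIdx K M hM2 hMs Q j n hQ e1 e2
          (hgap n hn j hj)
        exact ⟨by linarith, g2⟩
      · rw [if_neg hj]
        exact ⟨by linarith, le_rfl⟩
    | Sum.inr (Sum.inl pj) =>
      show (1 : ℝ) / 2 ^ gg ≤ K.disp Q pj.2 (K.cell Q pj.2 n) (K.tok pj.1 n) ∧
        K.disp Q pj.2 (K.cell Q pj.2 n) (K.tok pj.1 n) ≤ 1
      obtain ⟨d1, d2⟩ := XREGEX.disp_bd hJump hIdx K M hM2 hMs Q pj.2 n hQ e1 e2 pj.1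
      refine ⟨hlow.trans ?_, d2⟩
      rw [div_le_iff₀ hM0]
      linarith
    | Sum.inr (Sum.inr i) =>
      show (1 : ℝ) / 2 ^ gg ≤ (w3 K Q i n : ℝ) / 2 ^ gg ∧ (w3 K Q i n : ℝ) / 2 ^ gg ≤ 1
      have h1 : (1 : ℝ) ≤ w3 K Q i n := by exact_mod_cast w3_pos K Q i n e1 e2 e3
      have h2 : (w3 K Q i n : ℝ) ≤ Fintype.card ι := by exact_mod_cast w3_le K Q i n
      constructor
      · exact div_le_div_of_nonneg_right h1 h2gg.le
      · rw [div_le_one h2gg]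
        linarith
  obtain ⟨E2, hE2s, hE2n, hE2c, D1, hD1⟩ := hDcl _ v E1 gg hne hv
  have hc1 : Fintype.card (Fin (J + 1) ⊕ ((Bool × Fin (J + 1)) ⊕ Fin (I + 1))) =
      3 * (J + 1) + (I + 1) := by
    simp only [Fintype.card_sum, Fintype.card_prod, Fintype.card_fin, Fintype.card_bool]
    ring
  rw [hc1] at hE2c
  let dl : ℕ → ℝ := fun j => if h : j < J + 1 then D1 (Sum.inl ⟨j, h⟩) else 0
  let u : Fin (J + 1) → ℕ → ℝ := fun j n =>
    if UpGap K Q j (K.cell Q j n) (K.a n) (2 * dl j) then 1 else 1 / 4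
  have hu : ∀ k, ∀ n ∈ E2, (1 : ℝ) / 2 ^ 2 ≤ u k n ∧ u k n ≤ 1 := by
    intro k n _
    show (1 : ℝ) / 2 ^ 2 ≤ (if UpGap K Q k (K.cell Q k n) (K.a n) (2 * dl k) then 1 else 1 / 4) ∧
      (if UpGap K Q k (K.cell Q k n) (K.a n) (2 * dl k) then (1 : ℝ) else 1 / 4) ≤ 1
    split_ifs
    · norm_num
    · norm_num
  obtain ⟨E3, hE3s, hE3n, hE3c, D2, hD2⟩ := hDcl _ u E2 2 hE2n hu
  rw [Fintype.card_fin] at hE3c
  refine ⟨E3, hE3s.trans hE2s, hE3n, ?_,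
    fun p j => if h : j < J + 1 then D1 (Sum.inr (Sum.inl (p, ⟨j, h⟩))) else 0, dl,
    fun i => if h : i < I + 1 then D1 (Sum.inr (Sum.inr ⟨i, h⟩)) * 2 ^ gg else 0, ?_, ?_, ?_⟩
  · calc E1.card ≤ (gg + 1) ^ (3 * (J + 1) + (I + 1)) * E2.card := hE2c
      _ ≤ (gg + 1) ^ (3 * (J + 1) + (I + 1)) * ((2 + 1) ^ (J + 1) * E3.card) :=
          Nat.mul_le_mul_left _ hE3c
      _ = ((gg + 1) ^ (3 * (J + 1) + (I + 1)) * 3 ^ (J + 1)) * E3.card := by ring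
  · intro p j hj n hn
    have hj' : j < J + 1 := by omega
    simp only [hj', dite_true]
    exact hD1 (Sum.inr (Sum.inl (p, ⟨j, hj'⟩))) n (hE3s hn)
  · intro j hj
    have hj' : j < J + 1 := by omega
    have hdl : dl j = D1 (Sum.inl ⟨j, hj'⟩) := by
      simp only [dl, hj', dite_true]
    have hgv : ∀ n ∈ E3, dl j ≤ gv K Q j n ∧ gv K Q j n < 2 * dl j := by
      intro n hn
      have h1 := hD1 (Sum.inl ⟨j, hj'⟩) n (hE3s hn)
      have h2 : v (Sum.inl ⟨j, hj'⟩) n = gv K Q j n := by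
        show (if j + g ≤ J then gv K Q j n else 1) = gv K Q j n
        rw [if_pos hj]
      rw [h2, ← hdl] at h1
      exact h1
    have hsp : ∀ n ∈ E3, 2 * δ0 ≤ gv K Q j n ∧ gv K Q j n ≤ 1 ∧
        (∀ δ, δ < gv K Q j n → δ ∈ gs K Q j n) ∧ ∀ δ, gv K Q j n < δ → δ ∉ gs K Q j n := by
      intro n hn
      have hn1 := hE2s (hE3s hn)
      obtain ⟨e1, e2, e3⟩ := hE n hn1
      exact gv_spec hGapR hJump hIdx K M hM2 hMs Q j n hQ e1 e2 (hgap n hn1 j hj)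
    obtain ⟨n0, hn0⟩ := hE3n
    refine ⟨?_, ?_, ?_⟩
    · have h3 := hsp n0 hn0
      have h4 := hgv n0 hn0
      linarith [h3.1, h4.2]
    · intro n hn δ hδ
      exact (hsp n hn).2.2.1 δ (lt_of_lt_of_le hδ (hgv n hn).1)
    · have hu2 : ∀ n ∈ E3, D2 ⟨j, hj'⟩ ≤
          (if UpGap K Q j (K.cell Q j n) (K.a n) (2 * dl j) then (1 : ℝ) else 1 / 4) ∧
          (if UpGap K Q j (K.cell Q j n) (K.a n) (2 * dl j) then (1 : ℝ) else 1 / 4) <
            2 * D2 ⟨j, hj'⟩ := fun n hn => hD2 ⟨j, hj'⟩ n hn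
      by_cases h5 : UpGap K Q j (K.cell Q j n0) (K.a n0) (2 * dl j)
      · right
        intro n hn hdn
        have h6 : UpGap K Q j (K.cell Q j n) (K.a n) (2 * dl j) := by
          by_contra hcon
          have h7 := (hu2 n0 hn0).2
          have h8 := (hu2 n hn).1
          rw [if_pos h5] at h7
          rw [if_neg hcon] at h8
          linarith
        exact (hsp n hn).2.2.2 _ (hgv n hn).2 ⟨h6, hdn⟩
      · left
        intro n hn hcon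
        have h7 := (hu2 n0 hn0).1
        have h8 := (hu2 n hn).2
        rw [if_neg h5] at h7
        rw [if_pos hcon] at h8
        linarith
  · intro i hi n hn
    have hi' : i < I + 1 := by omega
    simp only [hi', dite_true]
    have h1 := hD1 (Sum.inr (Sum.inr ⟨i, hi'⟩)) n (hE3s hn)
    have h2 : v (Sum.inr (Sum.inr ⟨i, hi'⟩)) n = (w3 K Q i n : ℝ) / 2 ^ gg := rfl
    rw [h2, le_div_iff₀ h2gg, div_lt_iff₀ h2gg] at h1
    exact ⟨h1.1, by linarith [h1.2]⟩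

/-- Simultaneous regularity. -/
theorem stage2 (hReg : StReg) (K : KSys ι) (Q J I n2 : ℕ) (M Λ : ℝ) (E3 : Finset ℕ)
    (hne : E3.Nonempty) (hM2 : 2 ≤ M) (hcard : (Fintype.card ι : ℝ) ≤ M)
    (hE : ∀ n ∈ E3, n < K.N) (hn2 : n2 = 5 * (J + 1) + (2 * (J + 1) + 1) * (I + 1))
    (hΛ : Λ = 8 * ((n2 : ℝ) + 1) * (8 * (1 + Real.log M)) ^ n2) :
    ∃ E4 ⊆ E3, E4.Nonempty ∧
      (E3.card : ℝ) ≤ 2 * (8 * (1 + Real.log M)) ^ n2 * E4.card ∧
      (∀ j, j ≤ J → RegF Λ E4 (fun n => K.cell Q j n)) ∧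
      (∀ s j, j ≤ J → RegF Λ E4 (fun n => (K.cell Q j n, K.ln s n))) ∧
      (∀ s j, j ≤ J → RegF Λ E4 (fun n => (K.cell Q j n, K.tok s n))) ∧
      (∀ i, i ≤ I → RegF Λ E4 (fun n => bx K Q i (K.a n))) ∧
      (∀ j i, j ≤ J → i ≤ I → RegF Λ E4 (fun n => (K.cell Q j n, bx K Q i (K.a n)))) ∧
      (∀ j i, j ≤ J → i ≤ I → RegF Λ E4 (fun n => (K.cell Q j n, sl K Q i (K.a n)))) := by
  let f : ((Option (Bool × Bool) × Fin (J + 1)) ⊕ (Option (Bool × Fin (J + 1)) × Fin (I + 1))) →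
      ℕ → ℕ × Option ι × ℤ × ℤ := fun k n =>
    match k with
    | Sum.inl (none, j) => (K.cell Q j n, none, 0, 0)
    | Sum.inl (some (true, s), j) => (K.cell Q j n, some (K.ln s n), 0, 0)
    | Sum.inl (some (false, s), j) => (K.cell Q j n, some (K.tok s n), 0, 0)
    | Sum.inr (none, i) => (0, none, (bx K Q i (K.a n)).1, (bx K Q i (K.a n)).2)
    | Sum.inr (some (false, j), i) =>
      (K.cell Q j n, none, (bx K Q i (K.a n)).1, (bx K Q i (K.a n)).2)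
    | Sum.inr (some (true, j), i) => (K.cell Q j n, none, sl K Q i (K.a n), 0)
  obtain ⟨E4, hE4s, hE4n, hE4c, hE4r⟩ := hReg _ _ f E3 hne
  have hc : Fintype.card ((Option (Bool × Bool) × Fin (J + 1)) ⊕
      (Option (Bool × Fin (J + 1)) × Fin (I + 1))) = n2 := by
    rw [hn2]
    simp only [Fintype.card_sum, Fintype.card_prod, Fintype.card_fin, Fintype.card_bool,
      Fintype.card_option]
  rw [hc] at hE4c hE4r
  have hlog : ((Nat.log 2 E3.card : ℝ) + 1) ≤ 8 * (1 + Real.log M) := by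
    apply XREGEX.log_bd M hM2 E3.card (Finset.card_pos.mpr hne)
    have h1 : E3.card ≤ Fintype.card ι * Fintype.card ι := XREGEX.card_le K E3 hE
    have h2 : (E3.card : ℝ) ≤ (Fintype.card ι : ℝ) * Fintype.card ι := by exact_mod_cast h1
    have h4 : (0 : ℝ) ≤ (Fintype.card ι : ℝ) := Nat.cast_nonneg _
    nlinarith
  have hl0 : (0 : ℝ) ≤ (Nat.log 2 E3.card : ℝ) + 1 := by positivity
  have hpow : ((Nat.log 2 E3.card : ℝ) + 1) ^ n2 ≤ (8 * (1 + Real.log M)) ^ n2 :=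
    pow_le_pow_left₀ hl0 hlog _
  have hreg : ∀ k, RegF Λ E4 (f k) := by
    intro k
    apply XREGEX.regF_mono _ E4 (f k) (hE4r k)
    rw [hΛ]
    exact mul_le_mul_of_nonneg_left hpow (by positivity)
  refine ⟨E4, hE4s, hE4n, ?_, ?_, ?_, ?_, ?_, ?_, ?_⟩
  · have h0 : (0 : ℝ) ≤ (E4.card : ℝ) := Nat.cast_nonneg _
    refine hE4c.trans ?_
    apply mul_le_mul_of_nonneg_right _ h0
    linarith
  · intro j hj
    have h := hreg (Sum.inl (none, ⟨j, by omega⟩))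
    refine XREGEX.regF_of_comp _ E4 (fun n => K.cell Q j n)
      (fun c => (c, (none : Option ι), (0 : ℤ), (0 : ℤ))) ?_ h
    intro c c' hcc
    exact (Prod.mk.inj hcc).1
  · intro s j hj
    have h := hreg (Sum.inl (some (true, s), ⟨j, by omega⟩))
    refine XREGEX.regF_of_comp _ E4 (fun n => (K.cell Q j n, K.ln s n))
      (fun c : ℕ × ι => (c.1, some c.2, (0 : ℤ), (0 : ℤ))) ?_ h
    intro c c' hcc
    have h1 := (Prod.mk.inj hcc).1
    have h2 := Option.some.inj (Prod.mk.inj (Prod.mk.inj hcc).2).1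
    exact Prod.ext h1 h2
  · intro s j hj
    have h := hreg (Sum.inl (some (false, s), ⟨j, by omega⟩))
    refine XREGEX.regF_of_comp _ E4 (fun n => (K.cell Q j n, K.tok s n))
      (fun c : ℕ × ι => (c.1, some c.2, (0 : ℤ), (0 : ℤ))) ?_ h
    intro c c' hcc
    have h1 := (Prod.mk.inj hcc).1
    have h2 := Option.some.inj (Prod.mk.inj (Prod.mk.inj hcc).2).1
    exact Prod.ext h1 h2
  · intro i hi
    have h := hreg (Sum.inr (none, ⟨i, by omega⟩))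
    refine XREGEX.regF_of_comp _ E4 (fun n => bx K Q i (K.a n))
      (fun c : ℤ × ℤ => ((0 : ℕ), (none : Option ι), c.1, c.2)) ?_ h
    intro c c' hcc
    have h1 := (Prod.mk.inj (Prod.mk.inj hcc).2).2
    exact Prod.ext (Prod.mk.inj h1).1 (Prod.mk.inj h1).2
  · intro j i hj hi
    have h := hreg (Sum.inr (some (false, ⟨j, by omega⟩), ⟨i, by omega⟩))
    refine XREGEX.regF_of_comp _ E4 (fun n => (K.cell Q j n, bx K Q i (K.a n)))
      (fun c : ℕ × ℤ × ℤ => (c.1, (none : Option ι), c.2.1, c.2.2)) ?_ h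
    intro c c' hcc
    have h0 := (Prod.mk.inj hcc).1
    have h1 := (Prod.mk.inj (Prod.mk.inj hcc).2).2
    exact Prod.ext h0 (Prod.ext (Prod.mk.inj h1).1 (Prod.mk.inj h1).2)
  · intro j i hj hi
    have h := hreg (Sum.inr (some (true, ⟨j, by omega⟩), ⟨i, by omega⟩))
    refine XREGEX.regF_of_comp _ E4 (fun n => (K.cell Q j n, sl K Q i (K.a n)))
      (fun c : ℕ × ℤ => (c.1, (none : Option ι), c.2, (0 : ℤ))) ?_ h
    intro c c' hcc
    have h0 := (Prod.mk.inj hcc).1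
    have h1 := (Prod.mk.inj (Prod.mk.inj hcc).2).2
    exact Prod.ext h0 (Prod.mk.inj h1).1

/-- Powers of `log Q` are smaller than `Q`. -/
theorem polylog (c : ℝ) (hc : 0 < c) (k I : ℕ) : ∃ Q0 : ℕ, ∀ Q : ℕ, Q0 ≤ Q →
    c * (8 * (1 + (I : ℝ) * Real.log Q)) ^ k ≤ Q := by
  have h1 : Filter.Tendsto (fun n : ℕ => (n : ℝ)) Filter.atTop Filter.atTop :=
    tendsto_natCast_atTop_atTop
  have hc' : 0 < 1 / (c * (8 * ((I : ℝ) + 1)) ^ k) := by positivity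
  have h2 : ∀ᶠ x : ℝ in Filter.atTop, ‖Real.log x ^ k‖ ≤
      1 / (c * (8 * ((I : ℝ) + 1)) ^ k) * ‖id x‖ :=
    (Real.isLittleO_pow_log_id_atTop (n := k)).def hc'
  obtain ⟨Q0, hQ0⟩ := Filter.eventually_atTop.mp (h1.eventually h2)
  refine ⟨max Q0 3, fun Q hQ => ?_⟩
  have h3 := hQ0 Q ((le_max_left _ _).trans hQ)
  have h4 : 3 ≤ Q := (le_max_right _ _).trans hQ
  have h5 : (3 : ℝ) ≤ Q := by exact_mod_cast h4
  have hlog : 1 ≤ Real.log Q := by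
    rw [Real.le_log_iff_exp_le (by linarith)]
    have := Real.exp_one_lt_d9
    linarith
  rw [id, Real.norm_of_nonneg (by positivity), Real.norm_of_nonneg (by positivity)] at h3
  have hI : (0 : ℝ) ≤ I := Nat.cast_nonneg _
  have h6 : 8 * (1 + (I : ℝ) * Real.log Q) ≤ 8 * ((I : ℝ) + 1) * Real.log Q := by nlinarith
  have h7 : (8 * (1 + (I : ℝ) * Real.log Q)) ^ k ≤ (8 * ((I : ℝ) + 1) * Real.log Q) ^ k :=
    pow_le_pow_left₀ (by positivity) h6 k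
  calc c * (8 * (1 + (I : ℝ) * Real.log Q)) ^ k
      ≤ c * (8 * ((I : ℝ) + 1) * Real.log Q) ^ k := mul_le_mul_of_nonneg_left h7 hc.le
    _ = c * (8 * ((I : ℝ) + 1)) ^ k * Real.log Q ^ k := by rw [mul_pow]; ring
    _ ≤ c * (8 * ((I : ℝ) + 1)) ^ k * (1 / (c * (8 * ((I : ℝ) + 1)) ^ k) * Q) :=
        mul_le_mul_of_nonneg_left h3 (by positivity)
    _ = Q := by
        field_simp

end XRX

theorem I_RX (hReg : StReg) (hDcl : StDcl) (hGapR : StGapR) (hJump : StJump) (hSep : StSep)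
    (hIdx : StIdx) (hRX1 : StRX1) : StRX := by
  intro J g B hg
  obtain ⟨QA, hQA⟩ := hRX1 J g B hg
  obtain ⟨I, hI⟩ : ∃ I : ℕ, I = B + J + 3 := ⟨_, rfl⟩
  obtain ⟨n1, hn1⟩ : ∃ n1 : ℕ, n1 = 3 * (J + 1) + (I + 1) := ⟨_, rfl⟩
  obtain ⟨n2, hn2⟩ : ∃ n2 : ℕ, n2 = 5 * (J + 1) + (2 * (J + 1) + 1) * (I + 1) := ⟨_, rfl⟩
  obtain ⟨QB, hQB⟩ := XRX.polylog (4 * 3 ^ (J + 1)) (by positivity) (n1 + n2) I
  obtain ⟨QC, hQC⟩ := XRX.polylog ((8 * ((n2 : ℝ) + 1)) ^ 100) (by positivity) (n2 * 100) I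
  refine ⟨max (max QA QB) (max QC (2 ^ 20)), ?_⟩
  intro ι _ _ K Q s W m E hB hQ hmB hsg hw
  have q1 : QA ≤ Q := (le_max_left _ _).trans ((le_max_left _ _).trans hQ)
  have q2 : QB ≤ Q := (le_max_right _ _).trans ((le_max_left _ _).trans hQ)
  have q3 : QC ≤ Q := (le_max_left _ _).trans ((le_max_right _ _).trans hQ)
  have q4 : 2 ^ 20 ≤ Q := (le_max_right _ _).trans ((le_max_right _ _).trans hQ)
  have hQr : (1048576 : ℝ) ≤ Q := by
    have h1 : 1048576 ≤ Q := by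
      have := q4
      norm_num at this
      exact this
    exact_mod_cast h1
  have hQ0 : (0 : ℝ) < Q := by linarith
  have hQ1 : (1 : ℝ) ≤ Q := by linarith
  have hm1 : 1 ≤ m := hB.hm
  have hm0 : 0 < m := by linarith
  obtain ⟨E1, hE1s, hE1c, hE1g⟩ := hQA ι K Q s W m E hB q1 hmB hsg hw
  obtain ⟨M, hM⟩ : ∃ M : ℝ, M = (Q : ℝ) ^ I := ⟨_, rfl⟩
  have hQMB : (Q : ℝ) * (m * (Q : ℝ) ^ (J + 2)) ≤ M := by
    calc (Q : ℝ) * (m * (Q : ℝ) ^ (J + 2)) ≤ Q * ((Q : ℝ) ^ B * (Q : ℝ) ^ (J + 2)) := by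
          apply mul_le_mul_of_nonneg_left _ hQ0.le
          exact mul_le_mul_of_nonneg_right hmB (by positivity)
      _ = M := by
          rw [hM, hI]
          ring
  have hmQ : m * (Q : ℝ) ^ (J + 2) ≤ M := by
    have h1 : 0 ≤ m * (Q : ℝ) ^ (J + 2) := by positivity
    nlinarith
  have hmQ0 : 0 < m * (Q : ℝ) ^ (J + 2) := by positivity
  have hQpow : (Q : ℝ) ≤ (Q : ℝ) ^ (J + 2) := by
    have := pow_le_pow_right₀ hQ1 (show 1 ≤ J + 2 by omega)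
    simpa using this
  have hmM' : m + 1 ≤ M := by
    have h1 : m * 2 ≤ m * (Q : ℝ) ^ (J + 2) :=
      mul_le_mul_of_nonneg_left (by linarith) hm0.le
    linarith
  have hmM : m ≤ M := by linarith
  have hM2 : 2 ≤ M := by linarith
  have hM0 : 0 < M := by linarith
  have hMs : K.Sep M := by
    intro i j hij
    exact (hB.sep i j hij).trans (mul_le_mul_of_nonneg_right hmM (abs_nonneg _))
  have hcard : (Fintype.card ι : ℝ) ≤ M := ((hSep ι K m hm0 hB.sep).2).trans hmM'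
  obtain ⟨gg, hgg1, hgg2⟩ := XREGEX.exists_g M hM2
  have hlogM : Real.log M = (I : ℝ) * Real.log Q := by
    rw [hM, Real.log_pow]
  obtain ⟨δ0, hδ0⟩ : ∃ δ0 : ℝ, δ0 = 1 / (m * (Q : ℝ) ^ (J + 2)) := ⟨_, rfl⟩
  have hδM : 1 / M ≤ 2 * δ0 := by
    have h1 : 1 / M ≤ δ0 := by
      rw [hδ0]
      exact one_div_le_one_div_of_le hmQ0 hmQ
    have h2 : 0 ≤ δ0 := by
      rw [hδ0]
      positivity
    linarith
  have hδ2 : 2 / (m * (Q : ℝ) ^ (J + 2)) = 2 * δ0 := by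
    rw [hδ0]
    ring
  have hE1n : E1.Nonempty := by
    rw [← Finset.card_pos]
    have := Finset.card_pos.mpr hB.ne
    omega
  have hE1 : ∀ n ∈ E1, n < K.N ∧ 0 ≤ K.t n ∧ K.t n < 1 := fun n hn => hB.sub n (hE1s hn)
  obtain ⟨E3, hE3s, hE3n, hE3c, D, dl, V, pD, pdl, pV⟩ := XRX.stage1 hDcl hGapR hJump hIdx K Q J
    g I M δ0 gg E1 hE1n (by omega) hM2 hMs hcard hgg1 hE1 hδM (by
      intro n hn j hj
      have := hE1g n hn j hj
      rw [hδ2] at this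
      exact this)
  obtain ⟨Λ, hΛ⟩ : ∃ Λ : ℝ, Λ = 8 * ((n2 : ℝ) + 1) * (8 * (1 + Real.log M)) ^ n2 := ⟨_, rfl⟩
  obtain ⟨E4, hE4s, hE4n, hE4c, r1, r2, r3, r4, r5, r6⟩ := XRX.stage2 hReg K Q J I n2 M Λ E3
    hE3n hM2 hcard (fun n hn => (hE1 n (hE3s hn)).1) hn2 hΛ
  have hlM0 : 0 ≤ Real.log M := Real.log_nonneg (by linarith)
  have hBb : (1 : ℝ) ≤ 8 * (1 + Real.log M) := by linarith
  have hE4E : E4 ⊆ E := (hE4s.trans hE3s).trans hE1s
  -- the loss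
  have hloss : (E.card : ℝ) ≤ Q * E4.card := by
    have c1 : (E.card : ℝ) ≤ 2 * E1.card := by exact_mod_cast hE1c
    have c2 : (E1.card : ℝ) ≤ (((gg : ℝ) + 1) ^ (3 * (J + 1) + (I + 1)) * 3 ^ (J + 1)) *
        E3.card := by exact_mod_cast hE3c
    rw [← hn1] at c2
    have c3 : ((gg : ℝ) + 1) ^ n1 ≤ (8 * (1 + Real.log M)) ^ n1 :=
      pow_le_pow_left₀ (by positivity) hgg2 _
    have c4 : (0 : ℝ) ≤ E3.card := Nat.cast_nonneg _
    have c5 : (0 : ℝ) ≤ E4.card := Nat.cast_nonneg _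
    have c6 := hQB Q q2
    rw [← hlogM] at c6
    calc (E.card : ℝ) ≤ 2 * E1.card := c1
      _ ≤ 2 * ((((gg : ℝ) + 1) ^ n1 * 3 ^ (J + 1)) * E3.card) := by linarith
      _ ≤ 2 * (((8 * (1 + Real.log M)) ^ n1 * 3 ^ (J + 1)) * E3.card) := by
          apply mul_le_mul_of_nonneg_left _ (by norm_num)
          apply mul_le_mul_of_nonneg_right _ c4
          exact mul_le_mul_of_nonneg_right c3 (by positivity)
      _ ≤ 2 * (((8 * (1 + Real.log M)) ^ n1 * 3 ^ (J + 1)) *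
          (2 * (8 * (1 + Real.log M)) ^ n2 * E4.card)) := by
          apply mul_le_mul_of_nonneg_left _ (by norm_num)
          exact mul_le_mul_of_nonneg_left hE4c (by positivity)
      _ = 4 * 3 ^ (J + 1) * (8 * (1 + Real.log M)) ^ (n1 + n2) * E4.card := by
          rw [pow_add]
          ring
      _ ≤ Q * E4.card := mul_le_mul_of_nonneg_right c6 c5
  have hΛ1 : 1 ≤ Λ := by
    rw [hΛ]
    have h1 : (1 : ℝ) ≤ (8 * (1 + Real.log M)) ^ n2 := one_le_pow₀ hBb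
    have h2 : (0 : ℝ) ≤ n2 := Nat.cast_nonneg _
    have h3 : (1 : ℝ) ≤ 8 * ((n2 : ℝ) + 1) := by linarith
    calc (1 : ℝ) = 1 * 1 := by norm_num
      _ ≤ 8 * ((n2 : ℝ) + 1) * (8 * (1 + Real.log M)) ^ n2 :=
        mul_le_mul h3 h1 (by norm_num) (by linarith)
  have hΛQ : Λ ^ 100 ≤ Q := by
    have c7 := hQC Q q3
    rw [← hlogM] at c7
    rw [hΛ, mul_pow, ← pow_mul]
    exact c7
  have c5 : (0 : ℝ) ≤ E4.card := Nat.cast_nonneg _
  refine ⟨⟨K, Q, J, g, I, s, W, Λ, E4, D, dl, V⟩, ⟨⟨q4, hg, hB.hs0, hB.hs1, hsg, hΛ1, hΛQ,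
    hB.hW, hw, ⟨m, hm1, hB.sep⟩, fun n hn => hB.sub n (hE4E hn), hE4n, ?_, ?_, ?_, ?_, r1, r2,
    r3, fun p j hj n hn => (pD p j hj n (hE4s hn)).1,
    fun p j hj n hn => (pD p j hj n (hE4s hn)).2⟩, r4, r5, r6, ?_, ?_, ?_, ?_, ?_⟩, rfl, rfl,
    rfl, rfl, rfl⟩
  · show W ^ ((4 : ℝ) / 3) ≤ (Q : ℝ) ^ 2 * (E4.card : ℝ)
    calc W ^ ((4 : ℝ) / 3) ≤ Q * (E.card : ℝ) := hB.big
      _ ≤ Q * (Q * E4.card) := mul_le_mul_of_nonneg_left hloss hQ0.le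
      _ = (Q : ℝ) ^ 2 * (E4.card : ℝ) := by ring
  · intro j hj c
    show ((E4.filter (fun n => K.cell Q j n = c)).card : ℝ) * (Q : ℝ) ^ (s * (j : ℝ)) ≤
      (Q : ℝ) ^ 3 * (E4.card : ℝ)
    have h1 : (E4.filter (fun n => K.cell Q j n = c)).card ≤
        (E.filter (fun n => K.cell Q j n = c)).card :=
      Finset.card_le_card (Finset.filter_subset_filter _ hE4E)
    have h2 : ((E4.filter (fun n => K.cell Q j n = c)).card : ℝ) ≤
        ((E.filter (fun n => K.cell Q j n = c)).card : ℝ) := by exact_mod_cast h1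
    have h3 : (0 : ℝ) ≤ (Q : ℝ) ^ (s * (j : ℝ)) := by positivity
    calc ((E4.filter (fun n => K.cell Q j n = c)).card : ℝ) * (Q : ℝ) ^ (s * (j : ℝ))
        ≤ ((E.filter (fun n => K.cell Q j n = c)).card : ℝ) * (Q : ℝ) ^ (s * (j : ℝ)) :=
          mul_le_mul_of_nonneg_right h2 h3
      _ ≤ (Q : ℝ) ^ 2 * (E.card : ℝ) := hB.fib j hj c
      _ ≤ (Q : ℝ) ^ 2 * (Q * E4.card) := mul_le_mul_of_nonneg_left hloss (by positivity)
      _ = (Q : ℝ) ^ 3 * (E4.card : ℝ) := by ring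
  · intro j hj
    show ((E4.image (fun n => K.cell Q j n)).card : ℝ) ≤
      (Q : ℝ) ^ 2 * (Q : ℝ) ^ (s * (j : ℝ))
    have h1 : (E4.image (fun n => K.cell Q j n)).card ≤ (E.image (K.cell Q j)).card :=
      Finset.card_le_card (Finset.image_subset_image hE4E)
    have h2 : ((E4.image (fun n => K.cell Q j n)).card : ℝ) ≤
      ((E.image (K.cell Q j)).card : ℝ) := by exact_mod_cast h1
    exact h2.trans (hB.act j hj)
  · intro j hj
    show ∑ c ∈ E4.image (fun n => K.cell Q j n), ((visC K Q j c).card : ℝ) ≤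
      (Q : ℝ) ^ 2 * W * (Q : ℝ) ^ (s * (j : ℝ) / 4)
    refine le_trans ?_ (hB.t2 j hj)
    exact Finset.sum_le_sum_of_subset_of_nonneg (Finset.image_subset_image hE4E)
      (fun _ _ _ => Nat.cast_nonneg _)
  · intro j hj n hn δ hδ
    exact (pdl j hj).2.1 n (hE4s hn) δ hδ
  · intro j hj
    rcases (pdl j hj).2.2 with h1 | h1
    · exact Or.inl (fun n hn => h1 n (hE4s hn))
    · exact Or.inr (fun n hn => h1 n (hE4s hn))
  · intro j hj
    show 16 ≤ dl j * (Q : ℝ) ^ I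
    have h1 := (pdl j hj).1
    have h2 : (Q : ℝ) ≤ δ0 * M := by
      rw [hδ0, one_div_mul_eq_div, le_div_iff₀ hmQ0]
      exact hQMB
    have h3 : δ0 * M ≤ dl j * M := mul_le_mul_of_nonneg_right h1.le hM0.le
    rw [← hM]
    linarith
  · intro i hi n hn
    exact (pV i hi n (hE4s hn)).1
  · intro i hi n hn
    exact (pV i hi n (hE4s hn)).2

end Pool.Agent.Work.MP_e17eac_co.PS
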