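import Pool.Agent.Work.MP_e17eac_co.PS.Lg

/-!
# Project PS, item RX1: most edges have gaps that are not tiny
-/

namespace Pool.Agent.Work.MP_e17eac_co.PS

open Finset
open Pool.Agent.Work.MP_e17eac_co.DH

namespace XRX1

/-- The constant of the regularisation. -/
noncomputable def lam (J : ℕ) (l : ℝ) : ℝ := 40 * (J + 1) * (8 * (1 + l)) ^ (7 * (J + 1))

theorem lam_mono (J : ℕ) {l l' : ℝ} (h0 : 0 ≤ l) (h : l ≤ l') : lam J l ≤ lam J l' := by
  unfold lam
  have : (8 * (1 + l)) ^ (7 * (J + 1)) ≤ (8 * (1 + l')) ^ (7 * (J + 1)) :=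
    pow_le_pow_left₀ (by linarith) (by linarith) _
  exact mul_le_mul_of_nonneg_left this (by positivity)

theorem lam_nonneg (J : ℕ) {l : ℝ} (h0 : 0 ≤ l) : 0 ≤ lam J l := by
  unfold lam
  positivity

/-- A power of `1 + b log Q` is eventually at most `Q`. -/
theorem ev_pow (c b : ℝ) (hb : 0 < b) (n : ℕ) :
    ∀ᶠ Q : ℕ in Filter.atTop, c * (1 + b * Real.log Q) ^ n ≤ Q := by
  have h1 : Filter.Tendsto (fun x : ℝ => 1 + b * Real.log x) Filter.atTop Filter.atTop :=
    Filter.tendsto_atTop_add_const_left _ _ (Real.tendsto_log_atTop.const_mul_atTop hb)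
  have h2 : (fun x : ℝ => c * (1 + b * Real.log x) ^ n) =o[Filter.atTop] (fun x : ℝ => x) := by
    have h3 : (fun x : ℝ => (1 + b * Real.log x) ^ n) =O[Filter.atTop]
        (fun x : ℝ => (Real.log x) ^ n) := by
      apply Asymptotics.IsBigO.pow
      refine Asymptotics.IsBigO.of_bound (1 + b) ?_
      filter_upwards [Filter.eventually_ge_atTop (Real.exp 1)] with x hx
      have hlog : 1 ≤ Real.log x := by
        rw [Real.le_log_iff_exp_le (lt_of_lt_of_le (Real.exp_pos 1) hx)]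
        exact hx
      rw [Real.norm_of_nonneg (by positivity), Real.norm_of_nonneg (by linarith)]
      nlinarith
    have h4 : (fun x : ℝ => (Real.log x) ^ n) =o[Filter.atTop] (fun x : ℝ => x) := by
      exact Real.isLittleO_pow_log_id_atTop (n := n)
    exact (h3.trans_isLittleO h4).const_mul_left c
  have h5 := h2.bound (show (0 : ℝ) < 1 by norm_num)
  have h6 : ∀ᶠ x : ℝ in Filter.atTop, c * (1 + b * Real.log x) ^ n ≤ x := by
    filter_upwards [h5, Filter.eventually_ge_atTop (0 : ℝ)] with x hx hx0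
    rw [Real.norm_eq_abs, Real.norm_eq_abs, abs_of_nonneg hx0, one_mul] at hx
    exact (le_abs_self _).trans hx
  exact tendsto_natCast_atTop_atTop.eventually h6

theorem lam_eq (J : ℕ) (l : ℝ) :
    lam J l = (40 * ((J : ℝ) + 1) * 8 ^ (7 * (J + 1))) * (1 + l) ^ (7 * (J + 1)) := by
  unfold lam
  rw [mul_pow 8]
  ring

theorem ev_lam (J B : ℕ) : ∃ Q0 : ℕ, ∀ Q : ℕ, Q0 ≤ Q →
    (lam J (((B : ℝ) + 1) * Real.log Q)) ^ 100 ≤ Q ∧
    4 * ((J : ℝ) + 1) * lam J (((B : ℝ) + 1) * Real.log Q) ≤ Q ∧ 2 ^ 20 ≤ Q := by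
  have hb : (0 : ℝ) < (B : ℝ) + 1 := by positivity
  obtain ⟨c, hc⟩ : ∃ c : ℝ, c = 40 * ((J : ℝ) + 1) * 8 ^ (7 * (J + 1)) := ⟨_, rfl⟩
  have e1 := ev_pow (c ^ 100) ((B : ℝ) + 1) hb (7 * (J + 1) * 100)
  have e2 := ev_pow (4 * ((J : ℝ) + 1) * c) ((B : ℝ) + 1) hb (7 * (J + 1))
  have e3 : ∀ᶠ Q : ℕ in Filter.atTop, 2 ^ 20 ≤ Q := Filter.eventually_ge_atTop _
  obtain ⟨Q0, hQ0⟩ := Filter.eventually_atTop.1 (e1.and (e2.and e3))
  refine ⟨Q0, fun Q hQ => ?_⟩
  obtain ⟨h1, h2, h3⟩ := hQ0 Q hQ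
  refine ⟨?_, ?_, h3⟩
  · rw [lam_eq, ← hc, mul_pow, ← pow_mul]
    exact h1
  · rw [lam_eq, ← hc, ← mul_assoc]
    exact h2

/-- Pigeonhole: if every `n ∈ T` has a `k ∈ R` with `P k n` then some class is large. -/
theorem pigeon {κ : Type} [DecidableEq κ] (R : Finset κ) (T : Finset ℕ) (P : κ → ℕ → Prop)
    [∀ k, DecidablePred (P k)] (hT : T.Nonempty) (h : ∀ n ∈ T, ∃ k ∈ R, P k n) :
    ∃ k ∈ R, T.card ≤ R.card * (T.filter (P k)).card := by
  by_contra hcon
  push Not at hcon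
  have h1 : T ⊆ R.biUnion (fun k => T.filter (P k)) := by
    intro n hn
    obtain ⟨k, hk, hkn⟩ := h n hn
    exact mem_biUnion.2 ⟨k, hk, mem_filter.2 ⟨hn, hkn⟩⟩
  have h2 : T.card ≤ ∑ k ∈ R, (T.filter (P k)).card :=
    (card_le_card h1).trans card_biUnion_le
  have hR : R.Nonempty := by
    obtain ⟨n, hn⟩ := hT
    obtain ⟨k, hk, _⟩ := h n hn
    exact ⟨k, hk⟩
  have h3 : R.card * (∑ k ∈ R, (T.filter (P k)).card) < R.card * T.card := by
    rw [Finset.mul_sum]
    calc ∑ k ∈ R, R.card * (T.filter (P k)).card < ∑ _k ∈ R, T.card :=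
          Finset.sum_lt_sum_of_nonempty hR hcon
      _ = R.card * T.card := by rw [Finset.sum_const, smul_eq_mul]
  have h4 : 0 < R.card := hR.card_pos
  have := Nat.mul_le_mul_left R.card h2
  omega

/-- The gap of type `s` (`true` = up). -/
def G {ι : Type} [Fintype ι] [DecidableEq ι] (K : KSys ι) (Q j : ℕ) (s : Bool) (n : ℕ)
    (δ : ℝ) : Prop :=
  match s with
  | true => UpGap K Q j (K.cell Q j n) (K.a n) δ
  | false => DnGap K Q j (K.cell Q j n) (K.a n) δ

end XRX1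

open XRX1

theorem I_RX1 (hRegEx : StRegEx) (hBad : StBad) : StRX1 := by
  classical
  intro J g B hg
  obtain ⟨Q0, hQ0⟩ := ev_lam J B
  refine ⟨Q0, ?_⟩
  intro ι _ _ K Q s W m E hBase hQ hmQ hsg hw
  obtain ⟨hL1, hL2, hQ20⟩ := hQ0 Q hQ
  have hQ20' : (1048576 : ℝ) ≤ Q := by
    have h1 : 1048576 ≤ Q := by norm_num at hQ20; exact hQ20
    exact_mod_cast h1
  have hQ1 : (1 : ℝ) ≤ Q := by linarith
  have hQp : (0 : ℝ) < Q := by linarith
  have hmp : 0 < m := by linarith [hBase.hm]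
  set d : ℝ := 1 / (m * (Q : ℝ) ^ (J + 2)) with hd
  have hd0 : 0 < d := by positivity
  have h2d : 2 / (m * (Q : ℝ) ^ (J + 2)) = 2 * d := by rw [hd]; ring
  rw [h2d]
  set good : ℕ → Prop := fun n => ∀ j, j + g ≤ J →
    UpGap K Q j (K.cell Q j n) (K.a n) (2 * d) ∧
    DnGap K Q j (K.cell Q j n) (K.a n) (2 * d) with hgood
  refine ⟨E.filter good, filter_subset _ _, ?_, fun n hn => (mem_filter.1 hn).2⟩
  by_contra hcon
  push Not at hcon
  set T : Finset ℕ := E.filter (fun n => ¬ good n) with hT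
  have hsum : (E.filter good).card + T.card = E.card :=
    Finset.card_filter_add_card_filter_not (s := E) good
  have hTcard : E.card ≤ 2 * T.card := by omega
  have hTne : T.Nonempty := by
    rw [← card_pos]
    omega
  have hTsub : T ⊆ E := filter_subset _ _
  obtain ⟨⟨j, τ⟩, hk, hcard⟩ := pigeon ((range (J + 1)) ×ˢ (univ : Finset Bool)) T
    (fun k n => k.1 + g ≤ J ∧ ¬ G K Q k.1 k.2 n (2 * d)) hTne (by
      intro n hn
      have h1 : ¬ good n := (mem_filter.1 hn).2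
      simp only [hgood] at h1
      push Not at h1
      obtain ⟨j, hj, hj2⟩ := h1
      by_cases hU : UpGap K Q j (K.cell Q j n) (K.a n) (2 * d)
      · exact ⟨(j, false), mem_product.2 ⟨mem_range.2 (by omega), mem_univ _⟩, hj, hj2 hU⟩
      · exact ⟨(j, true), mem_product.2 ⟨mem_range.2 (by omega), mem_univ _⟩, hj, hU⟩)
  simp only at hcard
  set F : Finset ℕ := T.filter (fun n => j + g ≤ J ∧ ¬ G K Q j τ n (2 * d)) with hF
  rw [card_product, card_range, card_univ, Fintype.card_bool] at hcard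
  have hFne : F.Nonempty := by
    rw [← card_pos]
    by_contra h0
    have h1 : F.card = 0 := by omega
    rw [h1, mul_zero] at hcard
    have := hTne.card_pos
    omega
  have hFE : F ⊆ E := (filter_subset _ _).trans hTsub
  have hFcard : (E.card : ℝ) ≤ 4 * ((J : ℝ) + 1) * F.card := by
    have h1 : E.card ≤ 4 * (J + 1) * F.card := by
      calc E.card ≤ 2 * T.card := hTcard
        _ ≤ 2 * ((J + 1) * 2 * F.card) := Nat.mul_le_mul_left 2 hcard
        _ = 4 * (J + 1) * F.card := by ring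
    exact_mod_cast h1
  have hj : j + g ≤ J := by
    obtain ⟨n, hn⟩ := hFne
    exact (mem_filter.1 hn).2.1
  have hsep' : K.Sep (max m 2) := by
    intro i i' hii
    refine (hBase.sep i i' hii).trans ?_
    exact mul_le_mul_of_nonneg_right (le_max_left _ _) (abs_nonneg _)
  obtain ⟨E', hE'F, D, hReg, hE'card⟩ := hRegEx ι K (max m 2) (le_max_right _ _) hsep' Q J
    (by omega) F hFne (fun n hn => hBase.sub n (hFE hn))
  have hlogm : 0 ≤ Real.log (max m 2) :=
    Real.log_nonneg (le_trans (by norm_num) (le_max_right m 2))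
  have hlogm2 : Real.log (max m 2) ≤ ((B : ℝ) + 1) * Real.log Q := by
    have h1 : max m 2 ≤ (Q : ℝ) ^ (B + 1) := by
      refine max_le (hmQ.trans (pow_le_pow_right₀ hQ1 (by omega))) ?_
      calc (2 : ℝ) ≤ (Q : ℝ) ^ 1 := by rw [pow_one]; linarith
        _ ≤ (Q : ℝ) ^ (B + 1) := pow_le_pow_right₀ hQ1 (by omega)
    have h2 := Real.log_le_log (by positivity) h1
    rw [Real.log_pow] at h2
    push_cast at h2
    exact h2
  set L : ℝ := 40 * ((J : ℝ) + 1) * (8 * (1 + Real.log (max m 2))) ^ (7 * (J + 1)) with hL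
  have hLle : L ≤ lam J (((B : ℝ) + 1) * Real.log Q) := lam_mono J hlogm hlogm2
  have hL0 : 1 ≤ L := hReg.one_le
  have hLQ : L ^ 100 ≤ (Q : ℝ) := (pow_le_pow_left₀ (by linarith) hLle 100).trans hL1
  have hLQ2 : 4 * ((J : ℝ) + 1) * L ≤ Q :=
    (mul_le_mul_of_nonneg_left hLle (by positivity)).trans hL2
  have hEE' : (E.card : ℝ) ≤ (Q : ℝ) * E'.card := by
    calc (E.card : ℝ) ≤ 4 * ((J : ℝ) + 1) * F.card := hFcard
      _ ≤ 4 * ((J : ℝ) + 1) * (L * E'.card) := mul_le_mul_of_nonneg_left hE'card (by positivity)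
      _ = (4 * ((J : ℝ) + 1) * L) * E'.card := by ring
      _ ≤ (Q : ℝ) * E'.card := mul_le_mul_of_nonneg_right hLQ2 (by positivity)
  have hE'E : E' ⊆ E := hE'F.trans hFE
  let X : RS ι := {
    K := K
    Q := Q
    J := J
    g := g
    I := 0
    s := s
    W := W
    Λ := L
    E := E'
    D := D
    dl := fun _ => d
    V := fun _ => 0 }
  have hX : X.OK0 := {
    hQ := hQ20
    hg := hg
    hs0 := hBase.hs0
    hs1 := hBase.hs1
    hsg := hsg
    hL := hL0
    hLQ := hLQ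
    hW := hBase.hW
    hw := hw
    sep := ⟨m, hBase.hm, hBase.sep⟩
    sub := fun n hn => hBase.sub n (hE'E hn)
    ne := hReg.ne
    big := by
      refine hBase.big.trans ?_
      calc (Q : ℝ) * (E.card : ℝ) ≤ (Q : ℝ) * ((Q : ℝ) * E'.card) :=
            mul_le_mul_of_nonneg_left hEE' hQp.le
        _ = (Q : ℝ) ^ 2 * (E'.card : ℝ) := by ring
    fib := by
      intro i hi c
      have h1 : ((E'.filter (fun n => X.cl i n = c)).card : ℝ) ≤
          ((E.filter (fun n => K.cell Q i n = c)).card : ℝ) := by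
        exact_mod_cast card_le_card (filter_subset_filter _ hE'E)
      have h2 := hBase.fib i hi c
      have h3 : (0 : ℝ) ≤ (Q : ℝ) ^ (s * (i : ℝ)) := (Real.rpow_pos_of_pos hQp _).le
      calc ((E'.filter (fun n => X.cl i n = c)).card : ℝ) * (Q : ℝ) ^ (s * (i : ℝ)) ≤
            ((E.filter (fun n => K.cell Q i n = c)).card : ℝ) * (Q : ℝ) ^ (s * (i : ℝ)) :=
            mul_le_mul_of_nonneg_right h1 h3
        _ ≤ (Q : ℝ) ^ 2 * (E.card : ℝ) := h2
        _ ≤ (Q : ℝ) ^ 2 * ((Q : ℝ) * E'.card) := mul_le_mul_of_nonneg_left hEE' (by positivity)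
        _ = (Q : ℝ) ^ 3 * (E'.card : ℝ) := by ring
    act := by
      intro i hi
      refine le_trans ?_ (hBase.act i hi)
      have : (E'.image (fun n => X.cl i n)).card ≤ (E.image (K.cell Q i)).card :=
        card_le_card (image_subset_image hE'E)
      exact_mod_cast this
    t2 := by
      intro i hi
      refine le_trans ?_ (hBase.t2 i hi)
      exact sum_le_sum_of_subset_of_nonneg (image_subset_image hE'E)
        (fun _ _ _ => Nat.cast_nonneg _)
    regM := hReg.regM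
    regL := hReg.regL
    regT := hReg.regT
    dlo := hReg.dlo
    dhi := hReg.dhi }
  have hdm : d * (m * (Q : ℝ) ^ (J + 2)) ≤ 1 := by
    rw [hd, one_div, inv_mul_cancel₀ (by positivity)]
  obtain ⟨⟨n1, hn1, hn1'⟩, ⟨n2, hn2, hn2'⟩⟩ := hBad ι X hX m hBase.hm hBase.sep j hj hd0 hdm
  cases τ with
  | true => exact (mem_filter.1 (hE'F hn1)).2.2 hn1'
  | false => exact (mem_filter.1 (hE'F hn2)).2.2 hn2'

end Pool.Agent.Work.MP_e17eac_co.PS
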