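import Pool.Agent.Work.MP_e17eac_co.PS.Spr

set_option autoImplicit false

namespace Pool.Agent.Work.MP_e17eac_co.PS

open Finset
open Pool.Agent.Work.MP_e17eac_co.DH

namespace XThin

theorem bonf {ι : Type} [DecidableEq ι] (V : ℕ → Finset ι) (A : Finset ℕ)
    (h : ∀ i ∈ A, ∀ k ∈ A, i ≠ k → (V i ∩ V k).card ≤ 1) :
    ∑ i ∈ A, (V i).card ≤ (A.biUnion V).card + A.card ^ 2 := by
  classical
  induction A using Finset.induction_on with
  | empty => simp
  | insert j A hj ih =>
    have ih' := ih (fun i hi k hk => h i (Finset.mem_insert_of_mem hi) k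
      (Finset.mem_insert_of_mem hk))
    rw [Finset.sum_insert hj, Finset.biUnion_insert, Finset.card_insert_of_notMem hj]
    have h1 := Finset.card_union_add_card_inter (V j) (A.biUnion V)
    have h2 : (V j ∩ A.biUnion V).card ≤ A.card := by
      rw [Finset.inter_biUnion]
      refine Finset.card_biUnion_le.trans ?_
      calc ∑ i ∈ A, (V j ∩ V i).card ≤ ∑ _i ∈ A, 1 := by
            refine Finset.sum_le_sum ?_
            intro i hi
            refine h j (Finset.mem_insert_self _ _) i (Finset.mem_insert_of_mem hi) ?_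
            rintro rfl
            exact hj hi
        _ = A.card := by simp
    nlinarith

end XThin

theorem I_Thin (hFar2 : StFar2) (hGreedy : StGreedy) (hDeyI : StDeyI) : StThin := by
  classical
  intro ι _ _ K m p0 U M T s hm hS hU hN hcard
  have hinj : Function.Injective K.x := by
    intro i k hik
    by_contra hne
    have := hS i k hne
    rw [hik, sub_self, abs_zero, mul_zero] at this
    linarith
  have hsym : ∀ i k, bd K p0 U i k = bd K p0 U k i := by
    intro i k
    unfold bd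
    exact max_comm _ _
  have hT : ∀ i ∈ (range M).filter (fun i => (nearB K m p0 U M i).card ≤ T),
      (((range M).filter (fun i => (nearB K m p0 U M i).card ≤ T)).filter
        (fun k => bd K p0 U i k ≤ 4 * m * bl K p0 U i)).card ≤ T := by
    intro i hi
    refine le_trans (Finset.card_le_card ?_) (Finset.mem_filter.1 hi).2
    intro k hk
    rw [Finset.mem_filter] at hk
    unfold nearB
    rw [Finset.mem_filter]
    exact ⟨(Finset.mem_filter.1 hk.1).1, hk.2⟩
  obtain ⟨S', hS'sub, hS'card, hS'far⟩ := hGreedy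
    ((range M).filter (fun i => (nearB K m p0 U M i).card ≤ T))
    (fun i => 4 * m * bl K p0 U i) (bd K p0 U) T hsym (by convert hT)
  have hs : s ≤ S'.card := by
    have h1 : (T + 1) * s ≤ (T + 1) * S'.card := by
      refine le_trans hcard (le_trans (le_of_eq ?_) hS'card)
      congr
    exact Nat.le_of_mul_le_mul_left h1 (Nat.succ_pos T)
  obtain ⟨A, hA, hAc⟩ := Finset.exists_subset_card_eq hs
  have hAM : ∀ i ∈ A, i < M := by
    intro i hi
    have := hS'sub (hA hi)
    exact Finset.mem_range.1 (Finset.mem_filter.1 this).1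
  have hpair : ∀ i ∈ A, ∀ k ∈ A, i ≠ k →
      (K.lines (blk p0 U i) ∩ K.lines (blk p0 U k)).card ≤ 1 := by
    intro i hi k hk hik
    refine hFar2 ι K m p0 U M hm hS hU hN i k (hAM i hi) (hAM k hk) ?_
    have h1 := hS'far i (hA hi) k (hA hk) hik
    rw [mul_max_of_nonneg _ _ (by linarith : (0 : ℝ) ≤ 4 * m)]
    exact h1
  have hbon := XThin.bonf (fun i => K.lines (blk p0 U i)) A hpair
  have hun : (A.biUnion (fun i => K.lines (blk p0 U i))).card ≤ Fintype.card ι :=
    Finset.card_le_univ _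
  have hdey : ∀ i ∈ A, (U : ℝ) ^ ((3 : ℝ) / 4) ≤ 8 * ((K.lines (blk p0 U i)).card : ℝ) := by
    intro i hi
    have hiM := hAM i hi
    have hq : p0 + (i + 1) * U ≤ K.N := by
      refine le_trans ?_ hN
      have : (i + 1) * U ≤ M * U := Nat.mul_le_mul_right U hiM
      omega
    have h1 := hDeyI ι K hinj (p0 + i * U) (p0 + (i + 1) * U) hq
    rw [Nat.card_Ico] at h1
    have h2 : p0 + (i + 1) * U - (p0 + i * U) = U := by
      have : (i + 1) * U = i * U + U := by ring
      omega
    rw [h2] at h1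
    have h3 : ((U : ℝ)) ^ 3 ≤ 4096 * ((K.lines (blk p0 U i)).card : ℝ) ^ 4 := by
      have : U ^ 3 ≤ 4096 * (K.lines (blk p0 U i)).card ^ 4 := h1
      exact_mod_cast this
    have h4 : ((U : ℝ) ^ ((3 : ℝ) / 4)) ^ 4 = (U : ℝ) ^ 3 := by
      rw [← Real.rpow_natCast ((U : ℝ) ^ ((3 : ℝ) / 4)) 4, ← Real.rpow_mul (Nat.cast_nonneg U)]
      norm_num
    have h5 : ((U : ℝ) ^ ((3 : ℝ) / 4)) ^ 4 ≤ (8 * ((K.lines (blk p0 U i)).card : ℝ)) ^ 4 := by
      rw [h4, mul_pow]
      norm_num
      exact h3
    exact le_of_pow_le_pow_left₀ (by norm_num) (by positivity) h5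
  have hsum : (s : ℝ) * (U : ℝ) ^ ((3 : ℝ) / 4) ≤
      ∑ i ∈ A, 8 * ((K.lines (blk p0 U i)).card : ℝ) := by
    have h1 := Finset.sum_le_sum hdey
    rw [Finset.sum_const, nsmul_eq_mul, hAc] at h1
    exact h1
  have hbon' : ∑ i ∈ A, ((K.lines (blk p0 U i)).card : ℝ) ≤
      (Fintype.card ι : ℝ) + (s : ℝ) ^ 2 := by
    have h1 : ∑ i ∈ A, (K.lines (blk p0 U i)).card ≤ Fintype.card ι + s ^ 2 := by
      refine hbon.trans ?_
      rw [hAc]
      omega
    exact_mod_cast h1
  rw [← Finset.mul_sum] at hsum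
  linarith

end Pool.Agent.Work.MP_e17eac_co.PS
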