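import Pool.Agent.Work.MP_e17eac_co.PS.Spr

/-!
# Project PS, item Types: thick blocks are of right or left type
-/

namespace Pool.Agent.Work.MP_e17eac_co.PS

open Finset
open Pool.Agent.Work.MP_e17eac_co.DH

theorem I_Types : StTypes := by
  classical
  intro ι _ _ K m p0 U M T h i hU hT hM hN hi1 hi2 hcard
  by_contra hcon
  push Not at hcon
  obtain ⟨hr, hl⟩ := hcon
  have hiI : i ∈ Ico (h * T) ((h + 1) * T) := mem_Ico.2 ⟨hi1, hi2⟩
  have hr' : 4 * m * bl K p0 U i <
      K.t (p0 + (h + 1) * T * U - 1) - K.t (p0 + (i + 1) * U - 1) := by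
    by_contra hc
    exact hr (mem_filter.2 ⟨hiI, not_lt.1 hc⟩)
  have hl' : 4 * m * bl K p0 U i < K.t (p0 + i * U) - K.t (p0 + h * T * U) := by
    by_contra hc
    exact hl (mem_filter.2 ⟨hiI, not_lt.1 hc⟩)
  have hsub : nearB K m p0 U M i ⊆ Ico (h * T) ((h + 1) * T) := by
    intro k hk
    obtain ⟨hkM, hkb⟩ := mem_filter.1 hk
    have hkM' : k < M := mem_range.1 hkM
    have hkU : (k + 1) * U ≤ M * U := Nat.mul_le_mul_right U hkM'
    have hkU' : (k + 1) * U = k * U + U := by ring
    rw [mem_Ico]
    constructor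
    · by_contra hc
      push Not at hc
      have h1 : (k + 1) * U ≤ h * T * U := Nat.mul_le_mul_right U hc
      have h2 : h * T * U ≤ i * U := Nat.mul_le_mul_right U hi1
      have h3 : (i + 1) * U ≤ M * U := Nat.mul_le_mul_right U (lt_of_lt_of_le hi2 hM)
      have h3' : (i + 1) * U = i * U + U := by ring
      have h4 : K.t (p0 + (k + 1) * U - 1) < K.t (p0 + h * T * U) :=
        K.t_lt _ _ (by omega) (by omega)
      have h5 : K.t (p0 + i * U) - K.t (p0 + (k + 1) * U - 1) ≤ bd K p0 U i k := le_max_right _ _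
      linarith
    · by_contra hc
      push Not at hc
      have h1 : (h + 1) * T * U ≤ k * U := Nat.mul_le_mul_right U hc
      have h0 : 1 ≤ (h + 1) * T * U := by
        have : 0 < (h + 1) * T * U := by positivity
        omega
      have h4 : K.t (p0 + (h + 1) * T * U - 1) < K.t (p0 + k * U) :=
        K.t_lt _ _ (by omega) (by omega)
      have h5 : K.t (p0 + k * U) - K.t (p0 + (i + 1) * U - 1) ≤ bd K p0 U i k := le_max_left _ _
      linarith
  have hc := card_le_card hsub
  rw [Nat.card_Ico] at hc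
  have : (h + 1) * T - h * T = T := by
    have : (h + 1) * T = h * T + T := by ring
    omega
  omega

end Pool.Agent.Work.MP_e17eac_co.PS
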