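import Pool.Agent.Work.MP_e17eac_co.PS.Lg

/-! # Project PS, block REG, item Vis: a line close to `p` changes its status -/

namespace Pool.Agent.Work.MP_e17eac_co.PS

open Finset
open Pool.Agent.Work.MP_e17eac_co.DH

namespace XVis

variable {ι : Type} [Fintype ι] [DecidableEq ι]

theorem change (K : KSys ι) (q : ι) (m d : ℕ) (h : m + d ≤ K.N)
    (hne : ¬ (q ∈ K.S m ↔ q ∈ K.S (m + d))) :
    ∃ n, m ≤ n ∧ n < m + d ∧ (q = K.a n ∨ q = K.b n) := by
  induction d with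
  | zero => exact absurd Iff.rfl hne
  | succ d ih =>
    by_cases hc : q ∈ K.S m ↔ q ∈ K.S (m + d)
    · refine ⟨m + d, by omega, by omega, ?_⟩
      by_contra hcon
      rw [not_or] at hcon
      apply hne
      rw [hc, ← add_assoc, K.S_succ (m + d) (by omega), mem_insert, mem_erase]
      constructor
      · intro h1
        exact Or.inr ⟨hcon.1, h1⟩
      · rintro (h1 | ⟨_, h1⟩)
        · exact absurd h1 hcon.2
        · exact h1
    · obtain ⟨n, h1, h2, h3⟩ := ih (by omega) hc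
      exact ⟨n, h1, by omega, h3⟩

theorem change2 (K : KSys ι) (q : ι) (m m' : ℕ) (hm : m ≤ m') (h : m' ≤ K.N)
    (hne : ¬ (q ∈ K.S m ↔ q ∈ K.S m')) :
    ∃ n, m ≤ n ∧ n < m' ∧ (q = K.a n ∨ q = K.b n) := by
  obtain ⟨d, rfl⟩ := Nat.exists_eq_add_of_le hm
  exact change K q m d h hne

end XVis

theorem I_Vis (hIdx : StIdx) : StVis := by
  intro ι _ _ K Q j c p q δ hQ hU hD hclose
  obtain ⟨n1, r1, h1a, h1b, hv1, hin1, q1, hq1, hh1⟩ := hU
  obtain ⟨n2, r2, h2a, h2b, hv2, hin2, q2, hq2, hh2⟩ := hD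
  obtain ⟨_, hI2, _, _⟩ := hIdx ι K
  have hQj : (0 : ℝ) < (Q : ℝ) ^ j := by
    have : (0 : ℝ) < (Q : ℝ) := by exact_mod_cast hQ
    positivity
  have m1 : q ∈ K.S n1 := by
    by_contra hcon
    have ha := K.above n1 hv1.1 r1 hv1.2.1 hv1.2.2 q hcon
    have hb := K.below n1 hv1.1 r1 hv1.2.1 hv1.2.2 q1 hq1
    have hc := (abs_lt.1 (hclose r1 hin1)).2
    unfold KSys.ht at hh1 hc
    linarith
  have m2 : q ∉ K.S n2 := by
    intro hcon
    have ha := K.below n2 hv2.1 r2 hv2.2.1 hv2.2.2 q hcon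
    have hb := K.above n2 hv2.1 r2 hv2.2.1 hv2.2.2 q2 hq2
    have hc := (abs_lt.1 (hclose r2 hin2)).1
    unfold KSys.ht at hh2 hc
    linarith
  have key : ∃ n, K.ci Q j c ≤ n ∧ n < K.ci Q j (c + 1) ∧ (q = K.a n ∨ q = K.b n) := by
    rcases le_total n1 n2 with h | h
    · obtain ⟨n, e1, e2, e3⟩ := XVis.change2 K q n1 n2 h hv2.1 (fun hiff => m2 (hiff.1 m1))
      exact ⟨n, by omega, by omega, e3⟩
    · obtain ⟨n, e1, e2, e3⟩ := XVis.change2 K q n2 n1 h hv1.1 (fun hiff => m2 (hiff.2 m1))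
      exact ⟨n, by omega, by omega, e3⟩
  obtain ⟨n, e1, e2, e3⟩ := key
  unfold KSys.ci at e1 e2
  obtain ⟨hN, ht2⟩ := (hI2 n _).1 e2
  have ht1 : (c : ℝ) / (Q : ℝ) ^ j ≤ K.t n := by
    by_contra hcon
    have := (hI2 n ((c : ℝ) / (Q : ℝ) ^ j)).2 ⟨hN, not_le.1 hcon⟩
    omega
  have ht0 : 0 ≤ K.t n := le_trans (by positivity) ht1
  have hcell : K.cell Q j n = c := by
    unfold KSys.cell
    rw [Nat.floor_eq_iff (mul_nonneg ht0 hQj.le)]
    rw [div_le_iff₀ hQj] at ht1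
    rw [lt_div_iff₀ hQj] at ht2
    push_cast at ht2
    exact ⟨ht1, ht2⟩
  unfold visC KSys.lines
  rw [mem_union, mem_image, mem_image]
  rcases e3 with h | h
  · left
    exact ⟨n, by rw [mem_filter, mem_range]; exact ⟨hN, ht0, hcell⟩, h.symm⟩
  · right
    exact ⟨n, by rw [mem_filter, mem_range]; exact ⟨hN, ht0, hcell⟩, h.symm⟩

end Pool.Agent.Work.MP_e17eac_co.PS
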