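import Pool.Agent.Work.MP_e17eac_co.PS.Spr

/-!
# Existence of a base cell, version without a hypothesis on the times
-/

namespace Pool.Agent.Work.MP_e17eac_co.PS

open Finset
open Pool.Agent.Work.MP_e17eac_co.DH

theorem I_BaseEx2 (hEx : StPreEx) (hPre : StPre) : StBaseEx2 := by
  classical
  intro C0 hC0
  obtain ⟨σ, hσ⟩ : ∃ σ : ℝ, σ = 1 / (400 * C0) := ⟨_, rfl⟩
  have hσ0 : 0 < σ := by rw [hσ]; positivity
  have hσC : σ * C0 = 1 / 400 := by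
    rw [hσ]
    field_simp
  refine ⟨σ, hσ0, ?_⟩
  intro J B' hJ
  obtain ⟨κ0, hκ1, hκ⟩ := hPre J σ hJ hσ0
  obtain ⟨B, hB⟩ : ∃ B : ℕ, B = ⌈(κ0 : ℝ) / (2 * σ) + 8 * C0 * κ0 * B'⌉₊ + 1 := ⟨_, rfl⟩
  have hB0 : (κ0 : ℝ) / (2 * σ) + 8 * C0 * κ0 * B' ≤ B := by
    have h1 := Nat.le_ceil ((κ0 : ℝ) / (2 * σ) + 8 * C0 * κ0 * B')
    rw [hB]
    push_cast
    linarith
  have hBa : (κ0 : ℝ) ≤ 2 * σ * B := by
    have h1 : (0 : ℝ) ≤ 8 * C0 * κ0 * B' := by positivity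
    have h2 : (κ0 : ℝ) / (2 * σ) ≤ B := by linarith
    rw [div_le_iff₀ (by positivity)] at h2
    linarith
  have hBb : 8 * C0 * κ0 * B' ≤ B := by
    have h1 : (0 : ℝ) ≤ (κ0 : ℝ) / (2 * σ) := by positivity
    linarith
  have hB1 : 1 ≤ B := by omega
  obtain ⟨c, hc, n0, hn0⟩ := hEx C0 hC0 B hB1 (1 / 4) (by norm_num)
  refine ⟨c, B + 1, hc, ?_⟩
  intro q0
  refine ⟨n0 + (q0 + (J + 1) ^ 2 + 1) ^ (B + 1), ?_⟩
  intro ι _ _ K m hcard hg hm hmn hsep hbig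
  obtain ⟨n, hn⟩ : ∃ n : ℝ, n = (Fintype.card ι : ℝ) := ⟨_, rfl⟩
  obtain ⟨u, R, hR, q, W, Λ, E, hP, hΛ, hq1, hq2, hW, him⟩ :=
    hn0 ι K m (by omega) hg hm hmn hsep hbig
  rw [← hn] at hq1 hq2 hW him hmn
  have hnbig : (((q0 + (J + 1) ^ 2 + 1 : ℕ) : ℝ)) ^ (B + 1) ≤ n := by
    rw [hn]
    have h1 : (q0 + (J + 1) ^ 2 + 1) ^ (B + 1) ≤ Fintype.card ι := by omega
    exact_mod_cast h1
  have hx1 : (1 : ℝ) ≤ ((q0 + (J + 1) ^ 2 + 1 : ℕ) : ℝ) := by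
    have : 1 ≤ q0 + (J + 1) ^ 2 + 1 := by omega
    exact_mod_cast this
  have hn1 : 1 ≤ n := le_trans (one_le_pow₀ hx1) hnbig
  have hnpos : 0 < n := by linarith
  have hq : (((q0 + (J + 1) ^ 2 + 1 : ℕ) : ℝ)) ≤ q := by
    have h1 : (((q0 + (J + 1) ^ 2 + 1 : ℕ) : ℝ)) ^ (B + 1) ≤ (q : ℝ) ^ (B + 1) := by
      refine hnbig.trans (le_trans ?_ hq1)
      calc n = n ^ (1 : ℝ) := (Real.rpow_one n).symm
        _ ≤ n ^ C0 := Real.rpow_le_rpow_of_exponent_le hn1 hC0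
    by_contra hcon
    push Not at hcon
    have := pow_lt_pow_left₀ hcon (by positivity) (by omega : B + 1 ≠ 0)
    linarith
  push_cast at hq
  have hq2' : (2 : ℝ) ≤ q := by exact_mod_cast hP.hq
  have hq11 : (1 : ℝ) ≤ q := by linarith
  have hqpos : (0 : ℝ) < q := by linarith
  have hB1r : (1 : ℝ) ≤ B := by exact_mod_cast hB1
  -- powers of q in terms of n
  have hpow : ∀ e : ℝ, 0 ≤ e → (q : ℝ) ^ e ≤ n ^ (2 * C0 * e / (B + 1)) := by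
    intro e he
    have h1 : ((q : ℝ) ^ (B + 1)) ^ (e / (B + 1)) ≤ (n ^ (2 * C0)) ^ (e / (B + 1)) :=
      Real.rpow_le_rpow (by positivity) hq2 (by positivity)
    have h2 : ((q : ℝ) ^ (B + 1)) ^ (e / (B + 1)) = (q : ℝ) ^ e := by
      rw [← Real.rpow_natCast, ← Real.rpow_mul hqpos.le]
      congr 1
      push_cast
      field_simp
    have h3 : (n ^ (2 * C0)) ^ (e / (B + 1)) = n ^ (2 * C0 * e / (B + 1)) := by
      rw [← Real.rpow_mul hnpos.le]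
      congr 1
      ring
    rw [h2, h3] at h1
    exact h1
  have hJ0 : (q : ℝ) ^ (2 * σ * ((B + 3 : ℕ) : ℝ)) ≤ n ^ ((1 : ℝ) / 40) := by
    refine (hpow _ (by positivity)).trans ?_
    apply Real.rpow_le_rpow_of_exponent_le hn1
    rw [div_le_iff₀ (by positivity)]
    push_cast
    calc 2 * C0 * (2 * σ * ((B : ℝ) + 3)) = 4 * (σ * C0) * (B + 3) := by ring
      _ = 4 * (1 / 400) * (B + 3) := by rw [hσC]
      _ ≤ 1 / 40 * (B + 1) := by linarith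
  have hκB : (q : ℝ) ^ ((κ0 : ℝ) * B') ≤ n ^ ((1 : ℝ) / 4) := by
    refine (hpow _ (by positivity)).trans ?_
    apply Real.rpow_le_rpow_of_exponent_le hn1
    rw [div_le_iff₀ (by positivity)]
    calc 2 * C0 * ((κ0 : ℝ) * B') = (8 * C0 * κ0 * B') / 4 := by ring
      _ ≤ 1 / 4 * (B + 1) := by linarith
  have hΛ1 : 1 ≤ Λ := hP.hΛ
  obtain ⟨Q, s, W', c', R', hR', E', hBase, hσs, hqQ, hQκ, hQW⟩ := hκ ι (K.resc u R hR) m q
    (B + 3) W Λ E B' hm hsep hP (by push_cast; nlinarith) (hJ0.trans him) (by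
      have h1 : Λ ^ 2 ≤ (q : ℝ) ^ ((1 : ℝ) / 2) := by
        calc Λ ^ 2 ≤ ((q : ℝ) ^ ((1 : ℝ) / 4)) ^ 2 := pow_le_pow_left₀ (by linarith) hΛ 2
          _ = (q : ℝ) ^ ((1 : ℝ) / 2) := by
              rw [← Real.rpow_natCast, ← Real.rpow_mul hqpos.le]
              norm_num
      have h2 : (J : ℝ) + 1 ≤ (q : ℝ) ^ ((1 : ℝ) / 2) := by
        have h3 : ((J : ℝ) + 1) ^ 2 ≤ q := by
          have : (0 : ℝ) ≤ q0 := by positivity
          linarith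
        calc (J : ℝ) + 1 = (((J : ℝ) + 1) ^ 2) ^ ((1 : ℝ) / 2) := by
              rw [← Real.rpow_natCast, ← Real.rpow_mul (by positivity)]
              norm_num
          _ ≤ (q : ℝ) ^ ((1 : ℝ) / 2) := Real.rpow_le_rpow (by positivity) h3 (by norm_num)
      calc ((J : ℝ) + 1) * Λ ^ 2 ≤ (q : ℝ) ^ ((1 : ℝ) / 2) * (q : ℝ) ^ ((1 : ℝ) / 2) :=
            mul_le_mul h2 h1 (by positivity) (by positivity)
        _ = q := by
            rw [← Real.rpow_add hqpos]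
            norm_num) (by
      rw [Real.rpow_add hqpos]
      calc (q : ℝ) ^ (2 * σ * ((B + 3 : ℕ) : ℝ)) * (q : ℝ) ^ ((κ0 : ℝ) * B')
          ≤ n ^ ((1 : ℝ) / 40) * n ^ ((1 : ℝ) / 4) :=
            mul_le_mul hJ0 hκB (by positivity) (by positivity)
        _ = n ^ ((1 : ℝ) / 40 + 1 / 4) := by rw [Real.rpow_add hnpos]
        _ ≤ n ^ ((1 : ℝ) / 2) := Real.rpow_le_rpow_of_exponent_le hn1 (by norm_num)
        _ ≤ W := hW)
  have hqQr : (q : ℝ) ≤ Q := by exact_mod_cast hqQ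
  refine ⟨(K.resc u R hR).resc c' R' hR', Q, s, W', E', hBase, hσs, ?_, ?_, hQW⟩
  · have : (q0 : ℝ) ≤ Q := by
      have h1 : (0 : ℝ) ≤ ((J : ℝ) + 1) ^ 2 := by positivity
      linarith
    exact_mod_cast this
  · calc m ≤ n ^ C0 := hmn
      _ ≤ (q : ℝ) ^ (B + 1) := hq1
      _ ≤ (Q : ℝ) ^ (B + 1) := pow_le_pow_left₀ hqpos.le hqQr _

end Pool.Agent.Work.MP_e17eac_co.PS
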