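import Pool.Agent.Work.MP_e17eac_co.PS.Pre
import Pool.Agent.Work.MP_e17eac_co.PS.T_BaseEx

/-!
# From a pre-base to a base cell
-/

namespace Pool.Agent.Work.MP_e17eac_co.PS

open Finset
open Pool.Agent.Work.MP_e17eac_co.DH

namespace XPre

open XBase1

variable {ι : Type} [Fintype ι] [DecidableEq ι]

/-- **Averaging**: a cell of level `a` which is good for all the levels `a + κ i`. -/
lemma average (g : ℕ → ℕ → ℝ) (hg : ∀ l c, 0 ≤ g l c) (K : KSys ι) (Q : ℕ) (hQ : 1 ≤ Q)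
    (E : Finset ℕ) (hE : E.Nonempty) (a κ J : ℕ)
    (w : ℕ → ℝ) (hw : ∀ i, 0 < w i)
    (hT : ∀ i, i ≤ J → ∑ c ∈ E.image (K.cell Q (a + κ * i)), g (a + κ * i) c ≤ w i) :
    ∃ I ∈ E.image (K.cell Q a), ∀ i, i ≤ J →
      (∑ c ∈ (E.filter (fun n => K.cell Q a n = I)).image (K.cell Q (a + κ * i)),
        g (a + κ * i) c) * (im E (K.cell Q a) : ℝ) ≤ (J + 1) * w i := by
  classical
  obtain ⟨S, hS⟩ : ∃ S : ℕ → ℕ → ℝ, ∀ I i, S I i =
      ∑ c ∈ (E.filter (fun n => K.cell Q a n = I)).image (K.cell Q (a + κ * i)),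
        g (a + κ * i) c := ⟨_, fun _ _ => rfl⟩
  have hS0 : ∀ I i, 0 ≤ S I i := by
    intro I i
    rw [hS]
    exact sum_nonneg fun c _ => hg _ c
  have hsum : ∀ i, i ≤ J → ∑ I ∈ E.image (K.cell Q a), S I i ≤ w i := by
    intro i hi
    refine le_trans ?_ (hT i hi)
    simp only [hS]
    rw [← sum_biUnion]
    · apply sum_le_sum_of_subset_of_nonneg
      · intro c hc
        rw [mem_biUnion] at hc
        obtain ⟨I, _, hc⟩ := hc
        obtain ⟨n, hn, rfl⟩ := mem_image.1 hc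
        exact mem_image_of_mem _ (mem_filter.1 hn).1
      · intro c _ _
        exact hg _ c
    · intro I _ I' _ hne
      rw [Function.onFun, disjoint_left]
      intro c hc hc'
      obtain ⟨n, hn, h1⟩ := mem_image.1 hc
      obtain ⟨n', hn', h2⟩ := mem_image.1 hc'
      apply hne
      rw [← (mem_filter.1 hn).2, ← (mem_filter.1 hn').2]
      exact cell_eq K Q a (κ * i) n n' hQ (h1.trans h2.symm)
  have hpos : (0 : ℝ) < im E (K.cell Q a) := by
    unfold im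
    exact_mod_cast (hE.image _).card_pos
  have htot : ∑ I ∈ E.image (K.cell Q a), ∑ i ∈ range (J + 1), S I i / w i ≤
      ∑ I ∈ E.image (K.cell Q a), ((J : ℝ) + 1) / (im E (K.cell Q a) : ℝ) := by
    rw [sum_comm, sum_const, nsmul_eq_mul]
    have h1 : ((E.image (K.cell Q a)).card : ℝ) * (((J : ℝ) + 1) / (im E (K.cell Q a) : ℝ)) =
        (J : ℝ) + 1 := by
      unfold im at hpos ⊢
      field_simp
    rw [h1]
    calc ∑ i ∈ range (J + 1), ∑ I ∈ E.image (K.cell Q a), S I i / w i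
        ≤ ∑ i ∈ range (J + 1), (1 : ℝ) := by
          refine sum_le_sum fun i hi => ?_
          rw [← sum_div, div_le_one (hw i)]
          exact hsum i (Nat.lt_succ_iff.1 (mem_range.1 hi))
      _ = (J : ℝ) + 1 := by
          rw [sum_const, card_range, nsmul_eq_mul]
          push_cast
          ring
  obtain ⟨I, hI, hle⟩ := exists_le_of_sum_le (hE.image _) htot
  refine ⟨I, hI, fun i hi => ?_⟩
  have h1 : S I i / w i ≤ ((J : ℝ) + 1) / (im E (K.cell Q a) : ℝ) := by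
    refine le_trans ?_ hle
    exact single_le_sum (f := fun i => S I i / w i)
      (fun i _ => div_nonneg (hS0 I i) (hw i).le) (mem_range.2 (by omega))
  rw [div_le_div_iff₀ (hw i) hpos, hS] at h1
  exact h1

end XPre

open XBase1 XPre in
/-- **The base cell** from a regular set of edges. -/
theorem base_of' {ι : Type} [Fintype ι] [DecidableEq ι] (K : KSys ι) (m : ℝ) (hm : 1 ≤ m)
    (hsep : K.Sep m) (Q0 κ a J Q : ℕ) (hQ0 : 2 ≤ Q0) (hκ : 1 ≤ κ) (hQ : Q = Q0 ^ κ)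
    (s Λ C n W : ℝ) (hs0 : 0 < s) (hs1 : s ≤ 1) (hC : 0 < C) (hn : 0 < n)
    (E' : Finset ℕ) (hE' : E'.Nonempty) (hsub : ∀ k ∈ E', k < K.N ∧ 0 ≤ K.t k ∧ K.t k < 1)
    (hΛ : 1 ≤ Λ) (hreg : ∀ i, i ≤ J → RegF Λ E' (K.cell Q0 (a + κ * i)))
    (hup : ∀ i, i ≤ J → (im E' (K.cell Q0 (a + κ * i)) : ℝ) ≤
      Q * (Q : ℝ) ^ (s * i) * im E' (K.cell Q0 a))
    (hlo : ∀ i, i ≤ J → (im E' (K.cell Q0 a) : ℝ) * (Q : ℝ) ^ (s * i) ≤
      Q * im E' (K.cell Q0 (a + κ * i)))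
    (hΛQ : Λ ^ 2 ≤ Q) (hCQ : (J + 1) * C ≤ Q)
    (hT : ∀ i, i ≤ J → ∑ c ∈ E'.image (K.cell Q0 (a + κ * i)),
      ((visC K Q0 (a + κ * i) c).card : ℝ) ≤
      C * n * (im E' (K.cell Q0 (a + κ * i)) : ℝ) ^ ((1 : ℝ) / 4))
    (hbig : n ^ ((4 : ℝ) / 3) * Λ ≤ Q * (E'.card : ℝ))
    (hW : W = n / (im E' (K.cell Q0 a) : ℝ) ^ ((3 : ℝ) / 4)) (hW1 : 1 ≤ W) :
    ∃ (E : Finset ℕ) (c R : ℝ) (hR : 0 < R), Base (K.resc c R hR) Q J s W m E := by
  classical
  have hQ01 : 1 ≤ Q0 := by omega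
  have hQ2 : 2 ≤ Q := by
    rw [hQ]
    calc 2 ≤ Q0 := hQ0
      _ = Q0 ^ 1 := (pow_one _).symm
      _ ≤ Q0 ^ κ := Nat.pow_le_pow_right hQ01 hκ
  have hQr : (2 : ℝ) ≤ Q := by exact_mod_cast hQ2
  have hQpos : (0 : ℝ) < Q := by linarith
  obtain ⟨M, hM⟩ : ∃ M : ℕ → ℝ, ∀ i, M i = (im E' (K.cell Q0 (a + κ * i)) : ℝ) :=
    ⟨_, fun _ => rfl⟩
  have hMpos : ∀ i, 1 ≤ M i := by
    intro i
    rw [hM]
    unfold im
    exact_mod_cast (hE'.image _).card_pos
  obtain ⟨Ma, hMa⟩ : ∃ Ma : ℝ, Ma = (im E' (K.cell Q0 a) : ℝ) := ⟨_, rfl⟩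
  have hMa1 : 1 ≤ Ma := by
    rw [hMa]
    unfold im
    exact_mod_cast (hE'.image _).card_pos
  have hMa0 : 0 < Ma := by linarith
  simp only [← hM, ← hMa] at hup hlo hT hW
  have hp : (0 : ℝ) < (Q0 : ℝ) ^ a := by
    have : (0 : ℝ) < Q0 := by exact_mod_cast hQ01
    positivity
  obtain ⟨I, hI, hav⟩ := XPre.average (fun l c => ((visC K Q0 l c).card : ℝ))
    (fun l c => by positivity) K Q0 hQ01 E' hE' a κ J (fun i => C * n * M i ^ ((1 : ℝ) / 4))
    (fun i => by have := hMpos i; positivity) hT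
  rw [← hMa] at hav
  obtain ⟨n0, hn0, hn0I⟩ := mem_image.1 hI
  obtain ⟨E, hE⟩ : ∃ E : Finset ℕ, E = E'.filter (fun k => K.cell Q0 a k = I) := ⟨_, rfl⟩
  rw [← hE] at hav
  have hn0E : n0 ∈ E := by rw [hE, mem_filter]; exact ⟨hn0, hn0I⟩
  have hR : 0 < 1 / (Q0 : ℝ) ^ a := by positivity
  have hreg0 : RegF Λ E' (K.cell Q0 a) := by
    have := hreg 0 (Nat.zero_le _)
    simpa using this
  obtain ⟨hr1, hr2⟩ := hreg0 n0 hn0
  rw [hn0I, ← hE, ← hMa] at hr1 hr2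
  have hcell : ∀ j k, (K.resc ((I : ℝ) / (Q0 : ℝ) ^ a) (1 / (Q0 : ℝ) ^ a) hR).cell Q j k =
      K.cell Q0 (a + κ * j) k - I * Q0 ^ (κ * j) := by
    intro j k
    rw [hQ]
    exact cell_resc K Q0 κ a I j k hQ01 hR
  have hge : ∀ j, ∀ k ∈ E, I * Q0 ^ (κ * j) ≤ K.cell Q0 (a + κ * j) k := by
    intro j k hk
    rw [hE, mem_filter] at hk
    rw [← hk.2, cell_div K Q0 a (κ * j) k hQ01]
    exact Nat.div_mul_le_self _ _
  have hEsub : ∀ k ∈ E, k < K.N ∧ 0 ≤ K.t k ∧ K.t k < 1 := fun k hk => by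
    rw [hE, mem_filter] at hk
    exact hsub k hk.1
  have hEpos : (0 : ℝ) < E.card := by
    have : 0 < E.card := card_pos.2 ⟨n0, hn0E⟩
    exact_mod_cast this
  have hE'pos : (0 : ℝ) < E'.card := by exact_mod_cast hE'.card_pos
  have hq1 : ∀ j : ℕ, 1 ≤ (Q : ℝ) ^ (s * j) := fun j =>
    Real.one_le_rpow (by linarith) (by positivity)
  refine ⟨E, (I : ℝ) / (Q0 : ℝ) ^ a, 1 / (Q0 : ℝ) ^ a, hR, ?_⟩
  constructor
  · -- sub
    intro k hk
    obtain ⟨h1, h2, h3⟩ := hEsub k hk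
    have hk' := hk
    rw [hE, mem_filter] at hk'
    obtain ⟨h4, h5⟩ := cell_window K Q0 a k hQ01 h2
    rw [hk'.2] at h4 h5
    refine ⟨h1, ?_, ?_⟩
    · exact div_nonneg (by linarith) hR.le
    · change (K.t k - (I : ℝ) / (Q0 : ℝ) ^ a) / (1 / (Q0 : ℝ) ^ a) < 1
      rw [div_lt_one hR]
      have e : ((I : ℝ) + 1) / (Q0 : ℝ) ^ a = (I : ℝ) / (Q0 : ℝ) ^ a + 1 / (Q0 : ℝ) ^ a := by
        rw [add_div]
      linarith
  · exact ⟨n0, hn0E⟩
  · exact hQ2
  · exact hs0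
  · exact hs1
  · exact hm
  · exact hsep
  · exact hW1
  · -- big
    have h1 : W ^ ((4 : ℝ) / 3) = n ^ ((4 : ℝ) / 3) / Ma := by
      rw [hW, Real.div_rpow hn.le (by positivity), ← Real.rpow_mul hMa0.le]
      norm_num
    rw [h1, div_le_iff₀ hMa0]
    have h2 : n ^ ((4 : ℝ) / 3) * Λ ≤ (Q * (E.card : ℝ) * Ma) * Λ := by
      calc n ^ ((4 : ℝ) / 3) * Λ ≤ Q * (E'.card : ℝ) := hbig
        _ ≤ Q * (Λ * (E.card : ℝ) * Ma) := mul_le_mul_of_nonneg_left hr1 hQpos.le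
        _ = (Q * (E.card : ℝ) * Ma) * Λ := by ring
    exact le_of_mul_le_mul_right h2 (by linarith)
  · -- fib
    intro j hj c
    by_cases hne : (E.filter (fun k =>
        (K.resc ((I : ℝ) / (Q0 : ℝ) ^ a) (1 / (Q0 : ℝ) ^ a) hR).cell Q j k = c)).Nonempty
    · obtain ⟨k0, hk0⟩ := hne
      rw [mem_filter] at hk0
      have hk0' := hk0.1
      rw [hE, mem_filter] at hk0'
      obtain ⟨h1, h2⟩ := hreg j hj k0 hk0'.1
      rw [← hM] at h1 h2
      have h3 : ((E.filter (fun k =>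
          (K.resc ((I : ℝ) / (Q0 : ℝ) ^ a) (1 / (Q0 : ℝ) ^ a) hR).cell Q j k = c)).card : ℝ) ≤
          ((E'.filter (fun k => K.cell Q0 (a + κ * j) k = K.cell Q0 (a + κ * j) k0)).card : ℝ) := by
        have : (E.filter (fun k =>
          (K.resc ((I : ℝ) / (Q0 : ℝ) ^ a) (1 / (Q0 : ℝ) ^ a) hR).cell Q j k = c)) ⊆
          (E'.filter (fun k => K.cell Q0 (a + κ * j) k = K.cell Q0 (a + κ * j) k0)) := by
          intro k hk
          rw [mem_filter] at hk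
          have hk' := hk.1
          rw [hE, mem_filter] at hk'
          rw [mem_filter]
          refine ⟨hk'.1, ?_⟩
          have e1 := hk.2
          have e2 := hk0.2
          rw [hcell] at e1 e2
          have g1 := hge j k hk.1
          have g2 := hge j k0 hk0.1
          omega
        exact_mod_cast card_le_card this
      obtain ⟨F, hF⟩ : ∃ F : ℝ, F =
        ((E'.filter (fun k => K.cell Q0 (a + κ * j) k = K.cell Q0 (a + κ * j) k0)).card : ℝ) :=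
        ⟨_, rfl⟩
      rw [← hF] at h2 h3
      have hF0 : 0 ≤ F := by rw [hF]; positivity
      have h4 := hlo j hj
      -- F * M j ≤ Λ |E'| ≤ Λ² |E| Ma, Ma q^{sj} ≤ Q M j
      have h5 : (F * (Q : ℝ) ^ (s * (j : ℝ))) * (M j) ≤ ((Q : ℝ) ^ 2 * (E.card : ℝ)) * M j := by
        have h6 : F * M j ≤ Λ ^ 2 * E.card * Ma := by
          calc F * M j ≤ Λ * E'.card := h2
            _ ≤ Λ * (Λ * E.card * Ma) := mul_le_mul_of_nonneg_left hr1 (by linarith)
            _ = Λ ^ 2 * E.card * Ma := by ring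
        calc (F * (Q : ℝ) ^ (s * (j : ℝ))) * (M j) = (F * M j) * (Q : ℝ) ^ (s * (j : ℝ)) := by ring
          _ ≤ (Λ ^ 2 * E.card * Ma) * (Q : ℝ) ^ (s * (j : ℝ)) :=
              mul_le_mul_of_nonneg_right h6 (by have := hq1 j; linarith)
          _ = (Λ ^ 2 * E.card) * (Ma * (Q : ℝ) ^ (s * (j : ℝ))) := by ring
          _ ≤ (Λ ^ 2 * E.card) * (Q * M j) := mul_le_mul_of_nonneg_left h4 (by positivity)
          _ ≤ (Q * E.card) * (Q * M j) := by
              apply mul_le_mul_of_nonneg_right _ (by have := hMpos j; positivity)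
              exact mul_le_mul_of_nonneg_right hΛQ hEpos.le
          _ = ((Q : ℝ) ^ 2 * (E.card : ℝ)) * M j := by ring
      have h6 := le_of_mul_le_mul_right h5 (by have := hMpos j; linarith)
      refine le_trans ?_ h6
      exact mul_le_mul_of_nonneg_right h3 (by have := hq1 j; linarith)
    · rw [not_nonempty_iff_eq_empty] at hne
      rw [hne]
      simp only [card_empty, Nat.cast_zero, zero_mul]
      positivity
  · -- act
    intro j hj
    have h1 := I_CNT ℕ ℕ Λ E' (K.cell Q0 a) (K.cell Q0 (a + κ * j)) hΛ hreg0 (hreg j hj)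
      (fun k _ k' _ h => cell_eq K Q0 a (κ * j) k k' hQ01 h) n0 hn0
    rw [hn0I, ← hE, ← hM, ← hMa] at h1
    have h2 : (E.image ((K.resc ((I : ℝ) / (Q0 : ℝ) ^ a) (1 / (Q0 : ℝ) ^ a) hR).cell Q j)).card ≤
        im E (K.cell Q0 (a + κ * j)) := by
      unfold im
      have : E.image ((K.resc ((I : ℝ) / (Q0 : ℝ) ^ a) (1 / (Q0 : ℝ) ^ a) hR).cell Q j) =
          (E.image (K.cell Q0 (a + κ * j))).image (fun c => c - I * Q0 ^ (κ * j)) := by
        rw [image_image]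
        exact image_congr fun k _ => hcell j k
      rw [this]
      exact card_image_le
    have h2' : ((E.image ((K.resc ((I : ℝ) / (Q0 : ℝ) ^ a)
        (1 / (Q0 : ℝ) ^ a) hR).cell Q j)).card : ℝ) ≤ (im E (K.cell Q0 (a + κ * j)) : ℝ) := by
      exact_mod_cast h2
    refine h2'.trans ?_
    have h3 : (im E (K.cell Q0 (a + κ * j)) : ℝ) * Ma ≤
        ((Q : ℝ) ^ 2 * (Q : ℝ) ^ (s * (j : ℝ))) * Ma := by
      calc (im E (K.cell Q0 (a + κ * j)) : ℝ) * Ma ≤ Λ ^ 2 * M j := h1.2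
        _ ≤ Q * (Q * (Q : ℝ) ^ (s * j) * Ma) :=
            mul_le_mul hΛQ (hup j hj) (by have := hMpos j; linarith) hQpos.le
        _ = ((Q : ℝ) ^ 2 * (Q : ℝ) ^ (s * (j : ℝ))) * Ma := by ring
    exact le_of_mul_le_mul_right h3 hMa0
  · -- t2
    intro j hj
    have himg : E.image ((K.resc ((I : ℝ) / (Q0 : ℝ) ^ a) (1 / (Q0 : ℝ) ^ a) hR).cell Q j) =
        (E.image (K.cell Q0 (a + κ * j))).image (fun c => c - I * Q0 ^ (κ * j)) := by
      rw [image_image]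
      exact image_congr fun k _ => hcell j k
    rw [himg, sum_image]
    swap
    · intro c hc c' hc' h
      rw [mem_coe] at hc hc'
      obtain ⟨k, hk, rfl⟩ := mem_image.1 hc
      obtain ⟨k', hk', rfl⟩ := mem_image.1 hc'
      have g1 := hge j k hk
      have g2 := hge j k' hk'
      simp only at h
      omega
    have h1 : ∀ c ∈ E.image (K.cell Q0 (a + κ * j)),
        ((visC (K.resc ((I : ℝ) / (Q0 : ℝ) ^ a) (1 / (Q0 : ℝ) ^ a) hR) Q j
          (c - I * Q0 ^ (κ * j))).card : ℝ) ≤ ((visC K Q0 (a + κ * j) c).card : ℝ) := by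
      intro c hc
      obtain ⟨k, hk, rfl⟩ := mem_image.1 hc
      have g1 := hge j k hk
      have hsub' : visC (K.resc ((I : ℝ) / (Q0 : ℝ) ^ a) (1 / (Q0 : ℝ) ^ a) hR) Q j
          (K.cell Q0 (a + κ * j) k - I * Q0 ^ (κ * j)) ⊆
          visC K Q0 (a + κ * j) (K.cell Q0 (a + κ * j) k) := by
        have hf : ∀ l, (l < K.N ∧ 0 ≤ (K.t l - (I : ℝ) / (Q0 : ℝ) ^ a) / (1 / (Q0 : ℝ) ^ a) ∧
            (K.resc ((I : ℝ) / (Q0 : ℝ) ^ a) (1 / (Q0 : ℝ) ^ a) hR).cell Q j l =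
              K.cell Q0 (a + κ * j) k - I * Q0 ^ (κ * j)) →
            (0 ≤ K.t l ∧ K.cell Q0 (a + κ * j) l = K.cell Q0 (a + κ * j) k) := by
          rintro l ⟨_, h2, h3⟩
          rw [hcell] at h3
          have h4 : (I : ℝ) / (Q0 : ℝ) ^ a ≤ K.t l := by
            by_contra hcon
            push Not at hcon
            have : (K.t l - (I : ℝ) / (Q0 : ℝ) ^ a) / (1 / (Q0 : ℝ) ^ a) < 0 :=
              div_neg_of_neg_of_pos (by linarith) hR
            linarith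
          have h5 : 0 ≤ K.t l := le_trans (by positivity) h4
          have h6 : I ≤ K.cell Q0 a l := by
            unfold KSys.cell
            apply Nat.le_floor
            rwa [div_le_iff₀ hp] at h4
          have h7 : I * Q0 ^ (κ * j) ≤ K.cell Q0 (a + κ * j) l := by
            rw [cell_div K Q0 a (κ * j) l hQ01] at h6
            calc I * Q0 ^ (κ * j) ≤ (K.cell Q0 (a + κ * j) l / Q0 ^ (κ * j)) * Q0 ^ (κ * j) :=
                  Nat.mul_le_mul_right _ h6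
              _ ≤ _ := Nat.div_mul_le_self _ _
          exact ⟨h5, by omega⟩
        unfold visC KSys.lines
        apply union_subset_union
        · intro i hi
          obtain ⟨l, hl, rfl⟩ := mem_image.1 hi
          rw [mem_filter, mem_range] at hl
          exact mem_image_of_mem K.a (mem_filter.2 ⟨mem_range.2 hl.1, hf l ⟨hl.1, hl.2.1, hl.2.2⟩⟩)
        · intro i hi
          obtain ⟨l, hl, rfl⟩ := mem_image.1 hi
          rw [mem_filter, mem_range] at hl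
          exact mem_image_of_mem K.b (mem_filter.2 ⟨mem_range.2 hl.1, hf l ⟨hl.1, hl.2.1, hl.2.2⟩⟩)
      exact_mod_cast card_le_card hsub'
    refine (sum_le_sum h1).trans ?_
    have h2 := hav j hj
    have h3 : M j ^ ((1 : ℝ) / 4) ≤ ((Q : ℝ) * (Q : ℝ) ^ (s * (j : ℝ) / 4)) * Ma ^ ((1 : ℝ) / 4) := by
      calc M j ^ ((1 : ℝ) / 4) ≤ (Q * (Q : ℝ) ^ (s * j) * Ma) ^ ((1 : ℝ) / 4) :=
            Real.rpow_le_rpow (by have := hMpos j; linarith) (hup j hj) (by norm_num)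
        _ = ((Q : ℝ) ^ ((1 : ℝ) / 4) * ((Q : ℝ) ^ (s * j)) ^ ((1 : ℝ) / 4)) *
              Ma ^ ((1 : ℝ) / 4) := by
            rw [Real.mul_rpow (by positivity) hMa0.le, Real.mul_rpow hQpos.le (by positivity)]
        _ ≤ ((Q : ℝ) * (Q : ℝ) ^ (s * (j : ℝ) / 4)) * Ma ^ ((1 : ℝ) / 4) := by
            apply mul_le_mul_of_nonneg_right _ (by positivity)
            rw [← Real.rpow_mul hQpos.le]
            have e : s * (j : ℝ) * (1 / 4) = s * (j : ℝ) / 4 := by ring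
            rw [e]
            apply mul_le_mul_of_nonneg_right _ (by positivity)
            calc (Q : ℝ) ^ ((1 : ℝ) / 4) ≤ (Q : ℝ) ^ (1 : ℝ) :=
                  Real.rpow_le_rpow_of_exponent_le (by linarith) (by norm_num)
              _ = Q := Real.rpow_one _
    have h4 : n * Ma ^ ((1 : ℝ) / 4) = W * Ma := by
      rw [hW, div_mul_eq_mul_div, eq_div_iff (by positivity), mul_assoc, ← Real.rpow_add hMa0]
      norm_num
    have h5 : (∑ c ∈ E.image (K.cell Q0 (a + κ * j)), ((visC K Q0 (a + κ * j) c).card : ℝ)) * Ma ≤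
        ((Q : ℝ) ^ 2 * W * (Q : ℝ) ^ (s * (j : ℝ) / 4)) * Ma := by
      calc _ ≤ ((J : ℝ) + 1) * (C * n * M j ^ ((1 : ℝ) / 4)) := h2
        _ = (((J : ℝ) + 1) * C) * (n * M j ^ ((1 : ℝ) / 4)) := by ring
        _ ≤ Q * (n * (((Q : ℝ) * (Q : ℝ) ^ (s * (j : ℝ) / 4)) * Ma ^ ((1 : ℝ) / 4))) := by
            apply mul_le_mul hCQ _ (by have := hMpos j; positivity) hQpos.le
            exact mul_le_mul_of_nonneg_left h3 hn.le
        _ = (Q : ℝ) ^ 2 * (Q : ℝ) ^ (s * (j : ℝ) / 4) * (n * Ma ^ ((1 : ℝ) / 4)) := by ring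
        _ = ((Q : ℝ) ^ 2 * W * (Q : ℝ) ^ (s * (j : ℝ) / 4)) * Ma := by rw [h4]; ring
    exact le_of_mul_le_mul_right h5 hMa0

open XBaseEx in
theorem I_Pre (hNL : StNL) : StPre := by
  classical
  intro J σ hJ hσ0
  obtain ⟨κ00, hκ00⟩ := hNL J σ hJ hσ0
  refine ⟨κ00 + 1, by omega, ?_⟩
  intro ι _ _ K m q J0 W Λ E B' hm hsep hP hκ hbig hΛq hWbig
  obtain ⟨hsub, hne, hq2, hW1, hΛ1, hWE, hreg, ht2⟩ := hP
  have hq2' : (2 : ℝ) ≤ q := by exact_mod_cast hq2
  have hq1 : (1 : ℝ) < q := by linarith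
  have hqpos : (0 : ℝ) < q := by linarith
  have hEpos : (0 : ℝ) < E.card := by exact_mod_cast hne.card_pos
  obtain ⟨h, hh⟩ : ∃ h : ℝ, h = 2 * σ * J0 := ⟨_, rfl⟩
  rw [← hh] at hκ hbig hWbig
  have hh0 : 0 ≤ h := by rw [hh]; positivity
  obtain ⟨M, hM⟩ : ∃ M : ℕ → ℝ, ∀ j, M j = (im E (K.cell q j) : ℝ) := ⟨_, fun _ => rfl⟩
  have hM1 : ∀ j, 1 ≤ M j := by
    intro j
    rw [hM]
    unfold im
    exact_mod_cast (hne.image _).card_pos
  rw [← hM] at hbig
  -- the first level with many cells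
  have hex : ∃ j, (q : ℝ) ^ h ≤ M j := ⟨J0, hbig⟩
  obtain ⟨j1, hj1⟩ : ∃ j1, j1 = Nat.find hex := ⟨_, rfl⟩
  have hj1a : (q : ℝ) ^ h ≤ M j1 := by rw [hj1]; exact Nat.find_spec hex
  have hj1b : ∀ j, j < j1 → M j < (q : ℝ) ^ h := by
    intro j hj
    rw [hj1] at hj
    exact not_le.1 (Nat.find_min hex hj)
  have hj1m : j1 ≤ J0 := by rw [hj1]; exact Nat.find_min' hex hbig
  obtain ⟨μ, hμ⟩ : ∃ μ : ℕ → ℝ, ∀ j, μ j = Real.logb q (M j) := ⟨_, fun _ => rfl⟩
  have hM0' : ∀ j, 0 < M j := fun j => by have := hM1 j; linarith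
  have hμmono : Monotone μ := by
    apply monotone_nat_of_le_succ
    intro j
    rw [hμ, hμ]
    apply Real.logb_le_logb_of_le hq1 (hM0' j)
    rw [hM, hM]
    exact_mod_cast XBase1.im_mono K q (by omega) E j 1
  have hμinc : ∀ j, μ (j + 1) ≤ μ j + 1 := by
    intro j
    rw [hμ, hμ]
    have h1 : M (j + 1) ≤ q * M j := by
      rw [hM, hM]
      exact_mod_cast XBase1.im_step K q (by omega) E j
    have h2 := Real.logb_le_logb_of_le hq1 (hM0' (j + 1)) h1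
    rw [Real.logb_mul hqpos.ne' (hM0' j).ne', Real.logb_self_eq_one hq1] at h2
    linarith
  have hμ0 : μ 0 = 0 := by
    rw [hμ, hM, XBase1.im_zero K q E hne fun k hk => (hsub k hk).2]
    simp
  have hμj1 : h ≤ μ j1 := by
    rw [hμ, Real.le_logb_iff_rpow_le hq1 (hM0' _)]
    exact hj1a
  have hj1μ : μ j1 ≤ j1 := by
    have : ∀ j, μ j ≤ j := by
      intro j
      induction j with
      | zero => rw [hμ0]; simp
      | succ j ih =>
        have := hμinc j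
        push_cast
        linarith
    exact this j1
  have hκj : κ00 ≤ j1 := by
    have h1 : (κ00 : ℝ) ≤ j1 := by
      push_cast at hκ
      linarith
    exact_mod_cast h1
  obtain ⟨κ, a, s, hκ1, hκκ, haJ, hσs, hs1, hlin⟩ := hκ00 μ j1 hμmono hμinc hκj (by
    rw [hμ0, sub_zero]
    refine le_trans ?_ hμj1
    rw [hh]
    have h1 : (j1 : ℝ) ≤ J0 := by exact_mod_cast hj1m
    exact mul_le_mul_of_nonneg_left h1 (by positivity))
  have hs0 : 0 < s := lt_of_lt_of_le hσ0 hσs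
  obtain ⟨Q, hQ⟩ : ∃ Q : ℕ, Q = q ^ κ := ⟨_, rfl⟩
  have hQr : (Q : ℝ) = (q : ℝ) ^ κ := by rw [hQ]; push_cast; rfl
  have hqQ : (q : ℝ) ≤ Q := by
    rw [hQr]
    exact le_self_pow₀ hq1.le (by omega)
  have hQpos : (0 : ℝ) < Q := by linarith
  have hpw : ∀ i : ℕ, (q : ℝ) ^ (s * κ * i + κ) = Q * (Q : ℝ) ^ (s * i) := by
    intro i
    rw [hQr, ← Real.rpow_natCast, ← Real.rpow_mul hqpos.le, ← Real.rpow_add hqpos]
    congr 1
    ring
  have hlt : ∀ i, i ≤ J → M (a + κ * i) ≤ Q * (Q : ℝ) ^ (s * i) * M a := by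
    intro i hi
    have h1 := (abs_le.1 (hlin i hi)).2
    rw [hμ, hμ] at h1
    have h2 := ratio q (M a) (M (a + κ * i)) (s * κ * i + κ) hq1 (hM0' _) (hM0' _) (by linarith)
    rw [hpw] at h2
    linarith
  have hgt : ∀ i, i ≤ J → M a * (Q : ℝ) ^ (s * i) ≤ Q * M (a + κ * i) := by
    intro i hi
    have h1 := (abs_le.1 (hlin i hi)).1
    rw [hμ, hμ] at h1
    have h2 := ratio q (M (a + κ * i)) (M a) (κ - s * κ * i) hq1 (hM0' _) (hM0' _) (by linarith)
    have h3 : (q : ℝ) ^ ((κ : ℝ) - s * κ * i) * (Q : ℝ) ^ (s * i) = Q := by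
      rw [hQr, ← Real.rpow_natCast, ← Real.rpow_mul hqpos.le, ← Real.rpow_add hqpos]
      congr 1
      ring
    calc M a * (Q : ℝ) ^ (s * i)
        ≤ (M (a + κ * i) * (q : ℝ) ^ ((κ : ℝ) - s * κ * i)) * (Q : ℝ) ^ (s * i) :=
          mul_le_mul_of_nonneg_right h2 (by positivity)
      _ = M (a + κ * i) * ((q : ℝ) ^ ((κ : ℝ) - s * κ * i) * (Q : ℝ) ^ (s * i)) := by ring
      _ = Q * M (a + κ * i) := by rw [h3, mul_comm]
  have haj1 : a < j1 := by
    have : 1 ≤ κ * J := Nat.mul_pos hκ1 hJ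
    omega
  have hMa : M a < (q : ℝ) ^ h := hj1b a haj1
  obtain ⟨W', hW'⟩ : ∃ W' : ℝ, W' = W / (M a) ^ ((3 : ℝ) / 4) := ⟨_, rfl⟩
  have hW'q : (q : ℝ) ^ (((κ00 + 1 : ℕ) : ℝ) * B') ≤ W' := by
    rw [hW', le_div_iff₀ (by have := hM0' a; positivity)]
    calc (q : ℝ) ^ (((κ00 + 1 : ℕ) : ℝ) * B') * M a ^ ((3 : ℝ) / 4)
        ≤ (q : ℝ) ^ (((κ00 + 1 : ℕ) : ℝ) * B') * ((q : ℝ) ^ h) ^ ((3 : ℝ) / 4) := by
          apply mul_le_mul_of_nonneg_left _ (by positivity)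
          exact Real.rpow_le_rpow (hM0' a).le hMa.le (by norm_num)
      _ = (q : ℝ) ^ (((κ00 + 1 : ℕ) : ℝ) * B' + h * (3 / 4)) := by
          rw [← Real.rpow_mul hqpos.le, ← Real.rpow_add hqpos]
      _ ≤ (q : ℝ) ^ (h + ((κ00 + 1 : ℕ) : ℝ) * B') :=
          Real.rpow_le_rpow_of_exponent_le hq1.le (by linarith)
      _ ≤ W := hWbig
  have hW'1 : 1 ≤ W' := le_trans (Real.one_le_rpow hq1.le (by positivity)) hW'q
  have hJ0 : (0 : ℝ) ≤ J := by positivity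
  have hΛsq : Λ ≤ Λ ^ 2 := by nlinarith
  have hΛ2 : Λ ^ 2 ≤ q := by
    have : 0 ≤ (J : ℝ) * Λ ^ 2 := by positivity
    linarith
  obtain ⟨E1, c, R, hR, hBase⟩ := base_of' K m hm hsep q κ a J Q hq2 hκ1 hQ s Λ Λ W W' hs0 hs1
    (by linarith) (by linarith) E hne hsub hΛ1 (by
      intro i hi
      apply hreg
      have : κ * i ≤ κ * J := Nat.mul_le_mul_left _ hi
      omega)
    (by
      intro i hi
      have := hlt i hi
      rw [hM, hM] at this
      exact this)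
    (by
      intro i hi
      have := hgt i hi
      rw [hM, hM] at this
      exact this)
    (by linarith)
    (by nlinarith)
    (by
      intro i hi
      apply ht2
      have : κ * i ≤ κ * J := Nat.mul_le_mul_left _ hi
      omega)
    (by
      calc W ^ ((4 : ℝ) / 3) * Λ ≤ (Λ * E.card) * Λ := mul_le_mul_of_nonneg_right hWE (by linarith)
        _ = Λ ^ 2 * E.card := by ring
        _ ≤ Q * E.card := mul_le_mul_of_nonneg_right (by linarith) hEpos.le)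
    (by rw [← hM]; exact hW') hW'1
  refine ⟨Q, s, W', c, R, hR, E1, hBase, hσs, ?_, ?_, ?_⟩
  · exact_mod_cast hqQ
  · rw [hQr]
    exact pow_le_pow_right₀ hq1.le (by omega)
  · refine le_trans ?_ hW'q
    rw [hQr, ← pow_mul, ← Real.rpow_natCast]
    apply Real.rpow_le_rpow_of_exponent_le hq1.le
    have h1 : κ * B' ≤ (κ00 + 1) * B' := Nat.mul_le_mul_right _ (by omega)
    exact_mod_cast h1

end Pool.Agent.Work.MP_e17eac_co.PS
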