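import Pool.Agent.Work.MP_e17eac_co.DH.Final
import Pool.Agent.Work.MP_e17eac_co.Bd.B20
import Pool.Agent.Work.MP_e17eac_co.PS.T_Pre
import Pool.Agent.Work.MP_e17eac_co.PS.T_BaseEx2
import Pool.Agent.Work.MP_e17eac_co.PS.P_PreEx
import Pool.Agent.Work.MP_e17eac_co.PS.P_Fam
import Pool.Agent.Work.MP_e17eac_co.PS.P_PWin
import Pool.Agent.Work.MP_e17eac_co.PS.P_Thin
import Pool.Agent.Work.MP_e17eac_co.PS.P_Types
import Pool.Agent.Work.MP_e17eac_co.PS.P_Fan1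
import Pool.Agent.Work.MP_e17eac_co.PS.P_Chain1
import Pool.Agent.Work.MP_e17eac_co.PS.P_Far2
import Pool.Agent.Work.MP_e17eac_co.PS.P_Nest
import Pool.Agent.Work.MP_e17eac_co.PS.P_Vis
import Pool.Agent.Work.MP_e17eac_co.PS.P_GapR
import Pool.Agent.Work.MP_e17eac_co.PS.P_GapD
import Pool.Agent.Work.MP_e17eac_co.PS.P_IJ
import Pool.Agent.Work.MP_e17eac_co.PS.P_Q1
import Pool.Agent.Work.MP_e17eac_co.PS.P_Q2
import Pool.Agent.Work.MP_e17eac_co.PS.P_Q3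
import Pool.Agent.Work.MP_e17eac_co.PS.P_Q4
import Pool.Agent.Work.MP_e17eac_co.PS.P_Q5
import Pool.Agent.Work.MP_e17eac_co.PS.P_Q8x
import Pool.Agent.Work.MP_e17eac_co.PS.P_Q8y
import Pool.Agent.Work.MP_e17eac_co.PS.P_A
import Pool.Agent.Work.MP_e17eac_co.PS.P_IN
import Pool.Agent.Work.MP_e17eac_co.PS.P_P2a
import Pool.Agent.Work.MP_e17eac_co.PS.P_P2b
import Pool.Agent.Work.MP_e17eac_co.PS.P_B1
import Pool.Agent.Work.MP_e17eac_co.PS.P_B2
import Pool.Agent.Work.MP_e17eac_co.PS.P_Lo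
import Pool.Agent.Work.MP_e17eac_co.PS.P_Child
import Pool.Agent.Work.MP_e17eac_co.PS.P_Cont
import Pool.Agent.Work.MP_e17eac_co.PS.P_Cls0
import Pool.Agent.Work.MP_e17eac_co.PS.P_Bad
import Pool.Agent.Work.MP_e17eac_co.PS.P_RX1
import Pool.Agent.Work.MP_e17eac_co.PS.P_RX
import Pool.Agent.Work.MP_e17eac_co.PS.P_Ex
import Pool.Agent.Work.MP_e17eac_co.PS.P_Q7
import Pool.Agent.Work.MP_e17eac_co.PS.P_A1
import Pool.Agent.Work.MP_e17eac_co.PS.P_A0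
import Pool.Agent.Work.MP_e17eac_co.PS.P_Greedy
import Pool.Agent.Work.MP_e17eac_co.RING.RingFinal
import Pool.Agent.Work.MP_e17eac_co.PS.P_LIN
import Pool.Agent.Work.MP_e17eac_co.PS.P_F1
import Pool.Agent.Work.MP_e17eac_co.PS.P_F2
import Pool.Agent.Work.MP_e17eac_co.PS.P_F3
import Pool.Agent.Work.MP_e17eac_co.PS.P_F4
import Pool.Agent.Work.MP_e17eac_co.PS.P_F5
import Pool.Agent.Work.MP_e17eac_co.PS.P_FIN
import Pool.Agent.Work.MP_e17eac_co.PS.WinSp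
import Pool.Agent.Work.MP_e17eac_co.PS.P_Pts

/-!
# Project PS: assembly of the theorem for polynomial spread
-/

namespace Pool.Agent.Work.MP_e17eac_co.PS

open Finset
open Pool.Agent.Work.MP_e17eac_co.DH

theorem YNest : StNest := I_Nest
theorem YVis : StVis := I_Vis TIdx
theorem YGapR : StGapR := I_GapR TSand TIdx YNest
theorem YGapD : StGapD := I_GapD YGapR
theorem YIJ : StIJ := I_IJ YGapD
theorem YQ1 : StQ1 := I_Q1 YNest
theorem YQ2 : StQ2 := I_Q2 TTok TMono TIdx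
theorem YQ3 : StQ3 := I_Q3 TDey2 YQ1 YQ2
theorem YQ4 : StQ4 := I_Q4 YNest YVis YQ3 YQ2
theorem YQ5 : StQ5 := I_Q5 YNest YQ2 YQ3
theorem YChild : StChild := I_Child YNest YQ2 YQ3
theorem YCont : StCont := I_Cont TLeq TIdx YNest
theorem YCls0 : StCls0 := I_Cls0 YNest YChild YCont
theorem YQ8x : StQ8x := I_Q8x YNest YGapD YCls0
theorem YQ8y : StQ8y := I_Q8y TTok TMono TIdx YNest
theorem YIN : StIN := I_IN TTok TMono YNest YQ1 YQ2
theorem YP2a : StP2a := I_P2a TCinj YNest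
theorem YP2b : StP2b := I_P2b TCrl YNest YQ1
theorem YB1 : StB1 := I_B1 YNest
theorem YB2 : StB2 := I_B2 YNest
theorem YLo : StLo := I_Lo TTok TMono TIdx YNest
theorem YBad : StBad := I_Bad YNest YQ1 YQ3 YCls0
theorem YRX1 : StRX1 := I_RX1 TRegEx YBad
theorem YRX : StRX := I_RX TReg TDcl YGapR TJump TSep TIdx YRX1
theorem YFar2 : StFar2 := I_Far2 TLip TLeq
theorem YFan1 : StFan1 := I_Fan1 TDeyI TLeq TLip
theorem YChain1 : StChain1 := I_Chain1 YFan1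
theorem YPWin : StPWin := I_PWin YChain1
theorem YPre : StPre := I_Pre I_NL
theorem YF1 : StF1 := I_F1 YNest
theorem YF2 : StF2 := I_F2 YNest YQ4 YQ5
theorem YF3 : StF3 := I_F3 YNest
theorem YF4 : StF4 := I_F4 YNest
theorem YF5 : StF5 := I_F5 YNest

theorem baseEx2_of (hGreedy : StGreedy) : StBaseEx2 :=
  have hThin : StThin := I_Thin YFar2 hGreedy TDeyI
  have hFam : StFam := I_Fam hThin I_Types YPWin TT2
  I_BaseEx2 (I_PreEx hFam TT2 TReg) YPre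

theorem ex_of (hQ7 : StQ7) (hA1 : StA1) (hA0 : StA0) : StEx :=
  I_Ex YGapD YQ1 YQ2 YQ3 YQ4 YQ5 hQ7 YQ8x YQ8y (I_A YNest hA1 YQ5) hA0 YIN YP2a YP2b YB1 YB2
    YCls0 YLo

theorem fin_of (hEx : StEx) (hR : RING.RingMain) : StFin :=
  I_FIN hEx I_LIN YIJ YCls0 YGapD YF1 YF2 YF3 YF4 YF5 hR

theorem winSp_of (hGreedy : StGreedy) (hQ7 : StQ7) (hA1 : StA1) (hA0 : StA0)
    (hR : RING.RingMain) : StWinSp :=
  I_WinSp (baseEx2_of hGreedy) YRX (fin_of (ex_of hQ7 hA1 hA0) hR)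

theorem stU_of (hGreedy : StGreedy) (hQ7 : StQ7) (hA1 : StA1) (hA0 : StA0)
    (hR : RING.RingMain) : StU :=
  I_Pts (winSp_of hGreedy hQ7 hA1 hA0 hR)

/-- The window theorem for polynomially separated slopes. -/
theorem stWinSp : StWinSp :=
  winSp_of I_Greedy (I_Q7 YNest YCls0) (I_A1 YNest YCls0) (I_A0 YNest YCls0) RING.ringMain

/-- The theorem for point sets of polynomial spread. -/
theorem stU : StU := I_Pts stWinSp

end Pool.Agent.Work.MP_e17eac_co.PS
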