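import Pool.Agent.Work.MP_e17eac_co.PS.Reg
import Pool.Agent.Work.MP_e17eac_co.Bd.B12

/-!
# Project PS: rules for `lg` and for counting in regular sets
-/

namespace Pool.Agent.Work.MP_e17eac_co.PS

open Finset
open Pool.Agent.Work.MP_e17eac_co.DH

namespace RS

variable {ι : Type} [Fintype ι] [DecidableEq ι] {X : RS ι}

theorem OK0.Q_gt (h : X.OK0) : (1048576 : ℝ) ≤ X.Q := by
  have h1 : 1048576 ≤ X.Q := by have := h.hQ; norm_num at this; exact this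
  exact_mod_cast h1

theorem OK0.Q_pos (h : X.OK0) : (0 : ℝ) < X.Q := by linarith [h.Q_gt]

theorem OK0.one_lt_Q (h : X.OK0) : (1 : ℝ) < X.Q := by linarith [h.Q_gt]

theorem OK0.one_le_Qpow (h : X.OK0) (n : ℕ) : (1 : ℝ) ≤ (X.Q : ℝ) ^ n :=
  one_le_pow₀ h.one_lt_Q.le

theorem OK0.Qpow_pos (h : X.OK0) (n : ℕ) : (0 : ℝ) < (X.Q : ℝ) ^ n := pow_pos h.Q_pos n

theorem OK0.lg_mul (_h : X.OK0) {a b : ℝ} (ha : 0 < a) (hb : 0 < b) :
    X.lg (a * b) = X.lg a + X.lg b := Real.logb_mul ha.ne' hb.ne'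

theorem OK0.lg_div (_h : X.OK0) {a b : ℝ} (ha : 0 < a) (hb : 0 < b) :
    X.lg (a / b) = X.lg a - X.lg b := Real.logb_div ha.ne' hb.ne'

theorem OK0.lg_pow (_h : X.OK0) (a : ℝ) (n : ℕ) : X.lg (a ^ n) = n * X.lg a :=
  Real.logb_pow _ _ _

theorem OK0.lg_Q (h : X.OK0) : X.lg X.Q = 1 := Real.logb_self_eq_one h.one_lt_Q

theorem OK0.lg_Qpow (h : X.OK0) (n : ℕ) : X.lg ((X.Q : ℝ) ^ n) = n := by
  rw [h.lg_pow, h.lg_Q, mul_one]

theorem OK0.lg_Qrpow (h : X.OK0) (r : ℝ) : X.lg ((X.Q : ℝ) ^ r) = r :=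
  Real.logb_rpow h.Q_pos h.one_lt_Q.ne'

theorem OK0.rpow_lg (h : X.OK0) {a : ℝ} (ha : 0 < a) : (X.Q : ℝ) ^ (X.lg a) = a :=
  Real.rpow_logb h.Q_pos h.one_lt_Q.ne' ha

theorem OK0.lg_one (_h : X.OK0) : X.lg 1 = 0 := Real.logb_one

theorem OK0.lg_le (h : X.OK0) {a b : ℝ} (ha : 0 < a) (hab : a ≤ b) : X.lg a ≤ X.lg b :=
  Real.logb_le_logb_of_le h.one_lt_Q ha hab

theorem OK0.le_of_lg (h : X.OK0) {a b : ℝ} (ha : 0 < a) (hb : 0 < b) (hab : X.lg a ≤ X.lg b) :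
    a ≤ b := (Real.logb_le_logb h.one_lt_Q ha hb).1 hab

theorem OK0.lt_of_lg (h : X.OK0) {a b : ℝ} (ha : 0 < a) (hb : 0 < b) (hab : X.lg a < X.lg b) :
    a < b := (Real.logb_lt_logb_iff h.one_lt_Q ha hb).1 hab

theorem OK0.lg_nonneg (h : X.OK0) {a : ℝ} (ha : 1 ≤ a) : 0 ≤ X.lg a :=
  Real.logb_nonneg h.one_lt_Q ha

theorem OK0.lg_le_of_le (h : X.OK0) {a : ℝ} (ha : 0 < a) {r : ℝ} (hr : a ≤ (X.Q : ℝ) ^ r) :
    X.lg a ≤ r := by
  have := h.lg_le ha hr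
  rwa [h.lg_Qrpow] at this

theorem OK0.le_lg_of_le (h : X.OK0) {a r : ℝ} (hr : (X.Q : ℝ) ^ r ≤ a) : r ≤ X.lg a := by
  have := h.lg_le (Real.rpow_pos_of_pos h.Q_pos r) hr
  rwa [h.lg_Qrpow] at this

theorem OK0.L_pos (h : X.OK0) : 0 < X.Λ := by linarith [h.hL]

theorem OK0.lgL_nonneg (h : X.OK0) : 0 ≤ X.lg X.Λ := h.lg_nonneg h.hL

theorem OK0.lgL_le (h : X.OK0) : X.lg X.Λ ≤ 1 / 100 := by
  have := h.lg_le (pow_pos h.L_pos 100) h.hLQ
  rw [h.lg_pow, h.lg_Q] at this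
  push_cast at this
  linarith

theorem OK0.lg2_le (h : X.OK0) : X.lg 2 ≤ 1 / 20 := by
  have h1 : ((2 : ℝ)) ^ 20 ≤ X.Q := by
    have h0 := h.Q_gt
    have e : ((2 : ℝ)) ^ 20 = 1048576 := by norm_num
    rw [e]; exact h0
  have := h.lg_le (by norm_num) h1
  rw [h.lg_pow, h.lg_Q] at this
  push_cast at this
  linarith

theorem OK0.lg2_nonneg (h : X.OK0) : 0 ≤ X.lg 2 := h.lg_nonneg (by norm_num)

/-- A constant `c ≤ 2 ^ k` costs at most `k / 20`. -/
theorem OK0.lg_const (h : X.OK0) {c : ℝ} (hc : 0 < c) (k : ℕ) (hk : c ≤ 2 ^ k) :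
    X.lg c ≤ k / 20 := by
  have h1 := h.lg_le hc hk
  rw [h.lg_pow] at h1
  have h2 := h.lg2_le
  have h3 : (0 : ℝ) ≤ k := Nat.cast_nonneg k
  nlinarith

theorem OK0.J_le_w (h : X.OK0) : (X.J : ℝ) ≤ X.w ∧ 10000 ≤ X.w := by
  have h1 := h.hw
  have h2 : (0 : ℝ) ≤ X.J := Nat.cast_nonneg _
  have h3 : (0 : ℝ) ≤ X.g := Nat.cast_nonneg _
  constructor <;> linarith

theorem OK0.W_pos (h : X.OK0) : 0 < X.W := by linarith [h.hW]

theorem OK0.card_pos (h : X.OK0) : (0 : ℝ) < X.E.card := by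
  exact_mod_cast Finset.card_pos.2 h.ne

theorem OK0.im_pos (h : X.OK0) {α : Type} [DecidableEq α] (f : ℕ → α) :
    (1 : ℝ) ≤ (im X.E f : ℝ) := by
  have : 0 < im X.E f := Finset.card_pos.2 (h.ne.image f)
  exact_mod_cast this

theorem OK0.lg_im_nonneg (h : X.OK0) {α : Type} [DecidableEq α] (f : ℕ → α) :
    0 ≤ X.lg (im X.E f) := h.lg_nonneg (h.im_pos f)

theorem im_le_im {α β : Type} [DecidableEq α] [DecidableEq β] (E : Finset ℕ)
    (f : ℕ → α) (g : ℕ → β) (hfg : ∀ n ∈ E, ∀ k ∈ E, g n = g k → f n = f k) :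
    im E f ≤ im E g := by
  classical
  unfold im
  refine Finset.card_le_card_of_surjOn
    (fun b => if hb : ∃ n ∈ E, g n = b then f hb.choose else f 0) ?_
  intro a ha
  rw [Finset.mem_coe, Finset.mem_image] at ha
  obtain ⟨n, hn, rfl⟩ := ha
  refine ⟨g n, Finset.mem_coe.2 (Finset.mem_image_of_mem g hn), ?_⟩
  have hb : ∃ k ∈ E, g k = g n := ⟨n, hn, rfl⟩
  simp only [hb, dif_pos]
  exact hfg _ hb.choose_spec.1 _ hn hb.choose_spec.2

/-- `lg` of the number of values of a coarser function is smaller. -/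
theorem OK0.lg_im_le (h : X.OK0) {α β : Type} [DecidableEq α] [DecidableEq β]
    (f : ℕ → α) (g : ℕ → β) (hfg : ∀ n ∈ X.E, ∀ k ∈ X.E, g n = g k → f n = f k) :
    X.lg (im X.E f) ≤ X.lg (im X.E g) := by
  refine h.lg_le (by linarith [h.im_pos f]) ?_
  exact_mod_cast im_le_im X.E f g hfg

/-- Number of values of a finer function in a fibre of a coarser one. -/
theorem OK0.cnt (h : X.OK0) {α β : Type} [DecidableEq α] [DecidableEq β]
    (f : ℕ → α) (g : ℕ → β) (hf : RegF X.Λ X.E f) (hg : RegF X.Λ X.E g)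
    (hfg : ∀ n ∈ X.E, ∀ k ∈ X.E, g n = g k → f n = f k) (n : ℕ) (hn : n ∈ X.E) :
    (im X.E g : ℝ) ≤ X.Λ ^ 2 * (im (X.E.filter (fun k => f k = f n)) g : ℝ) * (im X.E f : ℝ) ∧
    (im (X.E.filter (fun k => f k = f n)) g : ℝ) * (im X.E f : ℝ) ≤ X.Λ ^ 2 * (im X.E g : ℝ) :=
  I_CNT α β X.Λ X.E f g h.hL hf hg hfg n hn

/-- The same in logarithmic form. -/
theorem OK0.lg_cnt (h : X.OK0) {α β : Type} [DecidableEq α] [DecidableEq β]
    (f : ℕ → α) (g : ℕ → β) (hf : RegF X.Λ X.E f) (hg : RegF X.Λ X.E g)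
    (hfg : ∀ n ∈ X.E, ∀ k ∈ X.E, g n = g k → f n = f k) (n : ℕ) (hn : n ∈ X.E) :
    1 ≤ (im (X.E.filter (fun k => f k = f n)) g : ℝ) ∧
    X.lg (im X.E g) - X.lg (im X.E f) - 1 / 50 ≤
      X.lg (im (X.E.filter (fun k => f k = f n)) g) ∧
    X.lg (im (X.E.filter (fun k => f k = f n)) g) ≤
      X.lg (im X.E g) - X.lg (im X.E f) + 1 / 50 := by
  obtain ⟨h1, h2⟩ := h.cnt f g hf hg hfg n hn
  have h3 : (1 : ℝ) ≤ (im (X.E.filter (fun k => f k = f n)) g : ℝ) := by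
    have : 0 < im (X.E.filter (fun k => f k = f n)) g :=
      Finset.card_pos.2 ⟨g n, Finset.mem_image_of_mem g (Finset.mem_filter.2 ⟨hn, rfl⟩)⟩
    exact_mod_cast this
  have h4 := h.im_pos f
  have h5 := h.im_pos g
  have hL := h.L_pos
  have hl := h.lgL_le
  refine ⟨h3, ?_, ?_⟩
  · have := h.lg_le (by linarith) h1
    rw [h.lg_mul (by positivity) (by linarith), h.lg_mul (by positivity) (by linarith),
      h.lg_pow] at this
    push_cast at this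
    linarith
  · have := h.lg_le (mul_pos (by linarith) (by linarith)) h2
    rw [h.lg_mul (by linarith) (by linarith), h.lg_mul (by positivity) (by linarith),
      h.lg_pow] at this
    push_cast at this
    linarith

/-- A set of edges which contains at least the part `1/θ` of `E` meets at least the part
`1/(θ Λ)` of the fibres of a regular function. -/
theorem OK0.part (h : X.OK0) {α : Type} [DecidableEq α] (f : ℕ → α) (hf : RegF X.Λ X.E f)
    (E2 : Finset ℕ) (hE2 : E2 ⊆ X.E) (θ : ℝ) (hθ : (X.E.card : ℝ) ≤ θ * E2.card) :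
    (im X.E f : ℝ) ≤ θ * X.Λ * (im E2 f : ℝ) := by
  classical
  have h1 := h.card_pos
  have h4 := h.im_pos f
  have hc : 0 < (E2.card : ℝ) := by
    rcases Nat.eq_zero_or_pos E2.card with h0 | h0
    · rw [h0] at hθ; simp at hθ; rw [hθ] at h1; simp at h1
    · exact_mod_cast h0
  have hθ0 : 0 < θ := by
    by_contra hcon
    push Not at hcon
    nlinarith
  have key : (E2.card : ℝ) * (im X.E f : ℝ) ≤ (im E2 f : ℝ) * (X.Λ * X.E.card) := by
    have e : (E2.card : ℝ) = ∑ a ∈ E2.image f, ((E2.filter (fun k => f k = a)).card : ℝ) := by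
      exact_mod_cast Finset.card_eq_sum_card_image f E2
    rw [e, Finset.sum_mul]
    have : ∀ a ∈ E2.image f, ((E2.filter (fun k => f k = a)).card : ℝ) * (im X.E f : ℝ) ≤
        X.Λ * X.E.card := by
      intro a ha
      obtain ⟨n, hn, rfl⟩ := Finset.mem_image.1 ha
      have h5 := (hf n (hE2 hn)).2
      refine le_trans ?_ h5
      have : (E2.filter (fun k => f k = f n)).card ≤ (X.E.filter (fun k => f k = f n)).card :=
        Finset.card_le_card (Finset.filter_subset_filter _ hE2)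
      have h6 : ((E2.filter (fun k => f k = f n)).card : ℝ) ≤
        ((X.E.filter (fun k => f k = f n)).card : ℝ) := by exact_mod_cast this
      exact mul_le_mul_of_nonneg_right h6 (by linarith)
    calc _ ≤ ∑ _a ∈ E2.image f, X.Λ * (X.E.card : ℝ) := Finset.sum_le_sum this
      _ = _ := by rw [Finset.sum_const, nsmul_eq_mul]; rfl
  have hL := h.L_pos
  have h7 : (E2.card : ℝ) * (im X.E f : ℝ) ≤ E2.card * (θ * X.Λ * (im E2 f : ℝ)) := by
    refine key.trans ?_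
    have : X.Λ * (X.E.card : ℝ) ≤ X.Λ * (θ * E2.card) := mul_le_mul_of_nonneg_left hθ hL.le
    have h8 : (0 : ℝ) ≤ (im E2 f : ℝ) := Nat.cast_nonneg _
    have := mul_le_mul_of_nonneg_left this h8
    linarith
  exact le_of_mul_le_mul_left h7 hc

end RS

end Pool.Agent.Work.MP_e17eac_co.PS
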