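import Pool.Agent.Work.MP_e17eac_co.PS.Spr

/-!
# Project PS, version 2: assembly of the base cell
-/

namespace Pool.Agent.Work.MP_e17eac_co.PS

open Finset
open Pool.Agent.Work.MP_e17eac_co.DH

theorem I_BaseEx2 (hPreEx : StPreEx) (hPre : StPre) : StBaseEx2 := by
  intro C0 hC0
  have hC0' : 0 < C0 := by linarith
  set σ : ℝ := 1 / (320 * C0) with hσ
  have hσ0 : 0 < σ := by positivity
  refine ⟨σ, hσ0, fun J B' hJ => ?_⟩
  obtain ⟨κ0, hκ0, H⟩ := hPre J σ hJ hσ0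
  obtain ⟨B, hB1, hB2, hB3⟩ : ∃ B : ℕ, 1 ≤ B ∧ (κ0 : ℝ) ≤ 2 * σ * ((B : ℝ) + 3) ∧
      5 * C0 * κ0 * B' ≤ (B : ℝ) + 1 := by
    refine ⟨⌈(κ0 : ℝ) / (2 * σ)⌉₊ + ⌈5 * C0 * κ0 * B'⌉₊ + 1, by omega, ?_, ?_⟩
    · have h1 := Nat.le_ceil ((κ0 : ℝ) / (2 * σ))
      have h2 : (0 : ℝ) ≤ (⌈5 * C0 * κ0 * B'⌉₊ : ℝ) := Nat.cast_nonneg _
      rw [div_le_iff₀ (by positivity)] at h1
      push_cast
      nlinarith
    · have h1 := Nat.le_ceil (5 * C0 * κ0 * B')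
      have h2 : (0 : ℝ) ≤ (⌈(κ0 : ℝ) / (2 * σ)⌉₊ : ℝ) := Nat.cast_nonneg _
      push_cast
      linarith
  obtain ⟨c, hc, n1, H1⟩ := hPreEx C0 hC0 B hB1 (1 / 4) (by norm_num)
  refine ⟨c, B + 1, hc, fun q0 => ?_⟩
  set q1 : ℕ := max q0 ((J + 1) ^ 2) with hq1
  refine ⟨max (max n1 (q1 ^ (B + 1))) 1, fun ι _ _ K m hn hgp hm hmn hsep hN => ?_⟩
  have hn1 : n1 ≤ Fintype.card ι := le_trans (le_trans (le_max_left _ _) (le_max_left _ _)) hn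
  have hn2 : q1 ^ (B + 1) ≤ Fintype.card ι :=
    le_trans (le_trans (le_max_right _ _) (le_max_left _ _)) hn
  have hn3 : 1 ≤ Fintype.card ι := le_trans (le_max_right _ _) hn
  obtain ⟨u, R, hR, q, W, Λ, E, hp, hL, h3, h4, h5, h6⟩ := H1 ι K m hn1 hgp hm hmn hsep hN
  set n : ℕ := Fintype.card ι with hnn
  have hnr : (1 : ℝ) ≤ n := by exact_mod_cast hn3
  have hn0 : (0 : ℝ) < n := by linarith
  have hqq : 2 ≤ q := hp.hq
  have hqr : (1 : ℝ) < q := by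
    have : (2 : ℝ) ≤ q := by exact_mod_cast hqq
    linarith
  have hq0' : (0 : ℝ) < q := by linarith
  -- q ≥ q1
  have hq1q : q1 ≤ q := by
    have e1 : ((q1 : ℝ)) ^ (B + 1) ≤ (q : ℝ) ^ (B + 1) := by
      calc ((q1 : ℝ)) ^ (B + 1) ≤ (n : ℝ) := by exact_mod_cast hn2
        _ = (n : ℝ) ^ (1 : ℝ) := (Real.rpow_one _).symm
        _ ≤ (n : ℝ) ^ C0 := Real.rpow_le_rpow_of_exponent_le hnr hC0
        _ ≤ _ := h3
    have e2 : (q1 : ℝ) ≤ q := le_of_pow_le_pow_left₀ (by omega) hq0'.le e1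
    exact_mod_cast e2
  have hBp : (0 : ℝ) < (B : ℝ) + 1 := by positivity
  -- powers of q in terms of n
  have key : ∀ a : ℝ, 0 ≤ a → (q : ℝ) ^ a ≤ (n : ℝ) ^ (2 * C0 * a / ((B : ℝ) + 1)) := by
    intro a ha
    have e1 : (q : ℝ) ^ a = ((q : ℝ) ^ (B + 1)) ^ (a / ((B : ℝ) + 1)) := by
      rw [← Real.rpow_natCast, ← Real.rpow_mul hq0'.le]
      congr 1
      push_cast
      field_simp
    rw [e1]
    calc ((q : ℝ) ^ (B + 1)) ^ (a / ((B : ℝ) + 1)) ≤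
        ((n : ℝ) ^ (2 * C0)) ^ (a / ((B : ℝ) + 1)) :=
          Real.rpow_le_rpow (by positivity) h4 (by positivity)
      _ = (n : ℝ) ^ (2 * C0 * a / ((B : ℝ) + 1)) := by
          rw [← Real.rpow_mul hn0.le]
          congr 1
          ring
  have hk1 : (q : ℝ) ^ (2 * σ * ((B + 3 : ℕ) : ℝ)) ≤ (n : ℝ) ^ ((1 : ℝ) / 40) := by
    refine (key _ (by positivity)).trans ?_
    apply Real.rpow_le_rpow_of_exponent_le hnr
    rw [div_le_iff₀ hBp, hσ]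
    push_cast
    have hB1' : (1 : ℝ) ≤ B := by exact_mod_cast hB1
    have e : 2 * C0 * (2 * (1 / (320 * C0)) * ((B : ℝ) + 3)) = ((B : ℝ) + 3) / 80 := by
      field_simp
      ring
    rw [e]
    linarith
  have hk2 : (q : ℝ) ^ ((κ0 : ℝ) * B') ≤ (n : ℝ) ^ ((2 : ℝ) / 5) := by
    refine (key _ (by positivity)).trans ?_
    apply Real.rpow_le_rpow_of_exponent_le hnr
    rw [div_le_iff₀ hBp]
    nlinarith
  have hA : ((J : ℝ) + 1) * Λ ^ 2 ≤ q := by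
    have e1 : Λ ^ 2 ≤ (q : ℝ) ^ ((1 : ℝ) / 2) := by
      have h0 : 0 ≤ Λ := by linarith [hp.hΛ]
      calc Λ ^ 2 ≤ ((q : ℝ) ^ ((1 : ℝ) / 4)) ^ 2 := pow_le_pow_left₀ h0 hL 2
        _ = (q : ℝ) ^ ((1 : ℝ) / 2) := by
          rw [← Real.rpow_natCast, ← Real.rpow_mul hq0'.le]
          norm_num
    have e2 : ((J : ℝ) + 1) ≤ (q : ℝ) ^ ((1 : ℝ) / 2) := by
      have e3 : ((J : ℝ) + 1) ^ 2 ≤ q := by
        have : (J + 1) ^ 2 ≤ q := le_trans (le_max_right _ _) hq1q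
        exact_mod_cast this
      rw [← Real.sqrt_eq_rpow]
      exact Real.le_sqrt_of_sq_le e3
    calc ((J : ℝ) + 1) * Λ ^ 2 ≤ (q : ℝ) ^ ((1 : ℝ) / 2) * (q : ℝ) ^ ((1 : ℝ) / 2) := by
          apply mul_le_mul e2 e1 (by positivity) (by positivity)
      _ = q := by
          rw [← Real.rpow_add hq0']
          norm_num
  have hB : (q : ℝ) ^ (2 * σ * ((B + 3 : ℕ) : ℝ) + (κ0 : ℝ) * B') ≤ W := by
    rw [Real.rpow_add hq0']
    calc (q : ℝ) ^ (2 * σ * ((B + 3 : ℕ) : ℝ)) * (q : ℝ) ^ ((κ0 : ℝ) * B') ≤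
        (n : ℝ) ^ ((1 : ℝ) / 40) * (n : ℝ) ^ ((2 : ℝ) / 5) :=
          mul_le_mul hk1 hk2 (by positivity) (by positivity)
      _ = (n : ℝ) ^ ((1 : ℝ) / 40 + 2 / 5) := by rw [Real.rpow_add hn0]
      _ ≤ (n : ℝ) ^ ((1 : ℝ) / 2) := by
          apply Real.rpow_le_rpow_of_exponent_le hnr
          norm_num
      _ ≤ W := h5
  obtain ⟨Q, s, W', c', R', hR', E', hBase, hs, hqQ, hQq, hQW⟩ := H ι (K.resc u R hR) m q (B + 3)
    W Λ E B' hm hsep hp (by push_cast; exact hB2) (hk1.trans h6) hA hB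
  refine ⟨(K.resc u R hR).resc c' R' hR', Q, s, W', E', hBase, hs, ?_, ?_, hQW⟩
  · exact le_trans (le_trans (le_max_left _ _) hq1q) hqQ
  · calc m ≤ (n : ℝ) ^ C0 := hmn
      _ ≤ (q : ℝ) ^ (B + 1) := h3
      _ ≤ (Q : ℝ) ^ (B + 1) := by
        gcongr

end Pool.Agent.Work.MP_e17eac_co.PS
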