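import Pool.Agent.Work.MP_e17eac_co.PS.SP

/-! # Project PS, block SP, item Dich: the dichotomy for sets containing 0 and 1 -/

namespace Pool.Agent.Work.MP_e17eac_co.PS

namespace XDich

theorem step (D : Set ℝ) (γ : ℝ) (hγ : 0 < γ) (h0 : (0 : ℝ) ∈ D)
    (H : ∀ r ∈ D, 0 ≤ r → r ≤ 1 → ∀ ε : ℝ, (ε = 0 ∨ ε = 1) →
      ∃ r' ∈ D, 0 ≤ r' ∧ r' ≤ 1 ∧ |(r + ε) / 2 - r'| ≤ γ / 2) (n : ℕ) :
    ∀ x : ℝ, 0 ≤ x → x ≤ 1 → ∃ r ∈ D, 0 ≤ r ∧ r ≤ 1 ∧ |x - r| ≤ (1 / 2) ^ n + γ := by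
  induction n with
  | zero =>
    intro x hx0 hx1
    refine ⟨0, h0, le_rfl, zero_le_one, ?_⟩
    rw [sub_zero, abs_of_nonneg hx0, pow_zero]
    linarith
  | succ n ih =>
    intro x hx0 hx1
    have hpow : ((1 : ℝ) / 2) ^ (n + 1) = (1 / 2) ^ n / 2 := by
      rw [pow_succ]
      ring
    obtain ⟨ε, hε, hy0, hy1⟩ : ∃ ε : ℝ, (ε = 0 ∨ ε = 1) ∧ 0 ≤ 2 * x - ε ∧ 2 * x - ε ≤ 1 := by
      rcases le_total x (1 / 2) with h | h
      · exact ⟨0, Or.inl rfl, by linarith, by linarith⟩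
      · exact ⟨1, Or.inr rfl, by linarith, by linarith⟩
    obtain ⟨r, hr, hr0, hr1, hxr⟩ := ih (2 * x - ε) hy0 hy1
    obtain ⟨r', hr', hr0', hr1', hrr⟩ := H r hr hr0 hr1 ε hε
    refine ⟨r', hr', hr0', hr1', ?_⟩
    rw [abs_le] at *
    rw [hpow]
    constructor <;> linarith [hxr.1, hxr.2, hrr.1, hrr.2]

end XDich

theorem I_Dich : StDich := by
  intro D γ hγ h0 h1
  by_cases h : ∃ r ∈ D, 0 ≤ r ∧ r ≤ 1 ∧ ∃ ε : ℝ, (ε = 0 ∨ ε = 1) ∧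
      ∀ r' ∈ D, γ / 2 ≤ |(r + ε) / 2 - r'|
  · exact Or.inr h
  · left
    have H : ∀ r ∈ D, 0 ≤ r → r ≤ 1 → ∀ ε : ℝ, (ε = 0 ∨ ε = 1) →
        ∃ r' ∈ D, 0 ≤ r' ∧ r' ≤ 1 ∧ |(r + ε) / 2 - r'| ≤ γ / 2 := by
      intro r hr hr0 hr1 ε hε
      by_contra hcon
      apply h
      refine ⟨r, hr, hr0, hr1, ε, hε, ?_⟩
      intro r' hr'
      by_contra hlt
      have hlt' := abs_lt.mp (not_le.mp hlt)
      have hε0 : 0 ≤ ε := by rcases hε with rfl | rfl <;> norm_num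
      have hε1 : ε ≤ 1 := by rcases hε with rfl | rfl <;> norm_num
      apply hcon
      rcases lt_or_ge r' 0 with h2 | h2
      · refine ⟨0, h0, le_rfl, zero_le_one, ?_⟩
        rw [abs_le]
        constructor <;> linarith [hlt'.1, hlt'.2]
      · rcases lt_or_ge 1 r' with h3 | h3
        · refine ⟨1, h1, zero_le_one, le_rfl, ?_⟩
          rw [abs_le]
          constructor <;> linarith [hlt'.1, hlt'.2]
        · refine ⟨r', hr', h2, h3, ?_⟩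
          rw [abs_le]
          constructor <;> linarith [hlt'.1, hlt'.2]
    intro x hx0 hx1
    obtain ⟨n, hn⟩ := exists_pow_lt_of_lt_one hγ (by norm_num : (1 : ℝ) / 2 < 1)
    obtain ⟨r, hr, hr0, hr1, hxr⟩ := XDich.step D γ hγ h0 H n x hx0 hx1
    exact ⟨r, hr, hr0, hr1, hxr.trans (by linarith)⟩

end Pool.Agent.Work.MP_e17eac_co.PS
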