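import Pool.Agent.Work.MP_e17eac_co.PS.SP

/-!
# Item Eb: number of separated good multipliers at scale `q`
-/

namespace Pool.Agent.Work.MP_e17eac_co.PS

open Finset
open scoped Pointwise

namespace XEb

theorem sep_card (S : Finset ℝ) (L ρ : ℝ) (hL : 0 ≤ L) (hρ : 0 < ρ) (hS : ∀ r ∈ S, |r| ≤ L)
    (hsep : ∀ r ∈ S, ∀ r' ∈ S, r ≠ r' → ρ ≤ |r - r'|) : (S.card : ℝ) ≤ 2 * L / ρ + 2 := by
  have hinj : Set.InjOn (fun r : ℝ => ⌊r / ρ⌋) (S : Set ℝ) := by
    intro r hr r' hr' h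
    by_contra hne
    have h1 := hsep r hr r' hr' hne
    have h2 : |r / ρ - r' / ρ| < 1 := Int.abs_sub_lt_one_of_floor_eq_floor h
    rw [← sub_div, abs_div, abs_of_pos hρ, div_lt_one hρ] at h2
    linarith
  have hcard : S.card = (S.image (fun r : ℝ => ⌊r / ρ⌋)).card := (card_image_of_injOn hinj).symm
  have hsub : S.image (fun r : ℝ => ⌊r / ρ⌋) ⊆ Finset.Icc ⌊-L / ρ⌋ ⌊L / ρ⌋ := by
    intro k hk
    rw [mem_image] at hk
    obtain ⟨r, hr, rfl⟩ := hk
    rw [mem_Icc]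
    obtain ⟨h1, h2⟩ := abs_le.1 (hS r hr)
    exact ⟨Int.floor_le_floor (by gcongr), Int.floor_le_floor (by gcongr)⟩
  have h1 := card_le_card hsub
  rw [Int.card_Icc, ← hcard] at h1
  have hle : ⌊-L / ρ⌋ ≤ ⌊L / ρ⌋ := by
    apply Int.floor_le_floor
    have : 0 ≤ L / ρ := by positivity
    rw [neg_div]
    linarith
  have h2 : (S.card : ℤ) ≤ ⌊L / ρ⌋ + 1 - ⌊-L / ρ⌋ := by omega
  have h3 : (S.card : ℝ) ≤ (⌊L / ρ⌋ : ℝ) + 1 - (⌊-L / ρ⌋ : ℝ) := by exact_mod_cast h2
  have h4 : (⌊L / ρ⌋ : ℝ) ≤ L / ρ := Int.floor_le _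
  have h5 : -L / ρ - 1 < (⌊-L / ρ⌋ : ℝ) := Int.sub_one_lt_floor _
  have h6 : -L / ρ = -(L / ρ) := neg_div _ _
  have h7 : 2 * L / ρ = L / ρ + L / ρ := by ring
  rw [h7]
  rw [h6] at h3 h5
  linarith

/-- Pluennecke for `X - X + X`. -/
theorem plu (X : Finset ℤ) (L : ℝ) (hX : X.Nonempty)
    (h : ((X - X).card : ℝ) ≤ L * X.card) : (((X - X) + X).card : ℝ) ≤ L ^ 3 * X.card := by
  have h1 := Finset.pluennecke_ruzsa_inequality_nsmul_sub_nsmul_sub hX X 2 1
  have hsub : (X - X) + X ⊆ 2 • X - 1 • X := by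
    intro z hz
    rw [mem_add] at hz
    obtain ⟨w, hw, x, hx, rfl⟩ := hz
    rw [mem_sub] at hw
    obtain ⟨y, hy, y', hy', rfl⟩ := hw
    rw [mem_sub]
    refine ⟨y + x, ?_, y', ?_, by ring⟩
    · rw [two_nsmul]
      exact add_mem_add hy hx
    · rw [one_nsmul]
      exact hy'
  have h2 : (((2 • X - 1 • X).card : ℚ≥0) : ℝ) ≤
      (((((X - X).card : ℚ≥0) / X.card) ^ (2 + 1) * X.card : ℚ≥0) : ℝ) := by
    exact_mod_cast h1
  push_cast at h2
  have hpos : (0 : ℝ) < X.card := by exact_mod_cast hX.card_pos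
  have h3 : ((X - X).card : ℝ) / X.card ≤ L := by
    rw [div_le_iff₀ hpos]; exact h
  calc (((X - X) + X).card : ℝ) ≤ ((2 • X - 1 • X).card : ℝ) := by
        exact_mod_cast card_le_card hsub
    _ ≤ (((X - X).card : ℝ) / X.card) ^ (2 + 1) * X.card := h2
    _ ≤ L ^ 3 * X.card := by gcongr

end XEb

open XEb in
theorem I_Eb (hLoc : StLoc) (hFl : StFl) (hEn : StEn) : StEb := by
  intro Z K σ R L q S hZ hKL hq hqR hXX hS hsep
  have hL2 : 2 ≤ L := hZ.hK.trans hKL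
  have hL0 : 0 < L := by linarith
  have hK0 : 0 ≤ K := by linarith [hZ.hK]
  have hσ := hZ.hσ
  have hR0 : 0 < R := by linarith [hZ.hR]
  have hq0 : 0 < q := by linarith
  have hRq : 1 ≤ R / q := by rw [one_le_div hq0]; exact hqR
  have hRq0 : 0 < R / q := by linarith
  have hRqσ : 1 ≤ (R / q) ^ σ := Real.one_le_rpow hRq hσ.le
  have hLσ : 1 ≤ L ^ (11 / σ) := Real.one_le_rpow (by linarith) (by positivity)
  have hLσ0 : 0 < L ^ (11 / σ) := by linarith
  have hqR' : q / R = 1 / (R / q) := by field_simp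
  rcases lt_or_ge (R / q) (L ^ (11 / σ)) with hc | hc
  · have h1 := sep_card S L (q / R) hL0.le (by positivity) (fun r hr => (hS r hr).1) hsep
    have h2 : 2 * L / (q / R) = 2 * L * (R / q) := by field_simp
    rw [h2] at h1
    have h3 : 2 ≤ 2 * L * (R / q) := by nlinarith
    calc (S.card : ℝ) ≤ 2 * L * (R / q) + 2 := h1
      _ ≤ 4 * L * (R / q) := by linarith
      _ ≤ 4 * L * L ^ (11 / σ) := by gcongr
      _ = L ^ (11 / σ) * (4 * L) * 1 := by ring
      _ ≤ L ^ (11 / σ) * L ^ 12 * (R / q) ^ σ := by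
          gcongr
          calc 4 * L = 2 ^ 2 * L := by norm_num
            _ ≤ L ^ 2 * L := by gcongr
            _ = L ^ 3 := by ring
            _ ≤ L ^ 12 := by
              apply pow_le_pow_right₀ (by linarith) (by norm_num)
  · obtain ⟨D, hD⟩ : ∃ D : ℝ, D = (R / q) / L ^ (11 / σ) := ⟨_, rfl⟩
    have hD1 : 1 ≤ D := by rw [hD, one_le_div hLσ0]; exact hc
    have hD0 : 0 < D := by linarith
    have hXne : (sc q Z).Nonempty := by
      unfold sc fl
      exact hZ.ne.image _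
    have hm0 : (0 : ℝ) < (sc q Z).card := by exact_mod_cast hXne.card_pos
    have hm : ((sc q Z).card : ℝ) ≤ K * (R / q) ^ σ := hZ.hi q hq hqR
    obtain ⟨Y, hY⟩ : ∃ Y : Finset ℤ, Y = (sc q Z - sc q Z).filter (fun d : ℤ => |(d : ℝ)| ≤ D) :=
      ⟨_, rfl⟩
    have hplu := plu (sc q Z) L hXne hXX
    have hloc := hLoc Y (sc q Z) D hD1 (by
      intro y hy
      rw [hY, mem_filter] at hy
      exact hy.2)
    have hYX : (Y + sc q Z).card ≤ ((sc q Z - sc q Z) + sc q Z).card := by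
      apply card_le_card
      apply add_subset_add_right
      rw [hY]
      exact filter_subset _ _
    have h1 : (Y.card : ℝ) * (sc D (sc q Z)).card ≤ 3 * (L ^ 3 * (sc q Z).card) := by
      calc (Y.card : ℝ) * (sc D (sc q Z)).card ≤ 3 * ((Y + sc q Z).card : ℝ) := by
            exact_mod_cast hloc
        _ ≤ 3 * (((sc q Z - sc q Z) + sc q Z).card : ℝ) := by
            have : ((Y + sc q Z).card : ℝ) ≤ (((sc q Z - sc q Z) + sc q Z).card : ℝ) := by
              exact_mod_cast hYX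
            linarith
        _ ≤ 3 * (L ^ 3 * (sc q Z).card) := by linarith
    have hfl := (hFl.2.2.2.1 q D Z hq hD1).1
    have hDq : D * q = R / L ^ (11 / σ) := by
      rw [hD]; field_simp
    have hDq1 : 1 ≤ D * q := by nlinarith
    have hDqR : D * q ≤ R := by
      rw [hDq]
      exact div_le_self hR0.le hLσ
    have hlo := hZ.lo (D * q) hDq1 hDqR
    have hRDq : R / (D * q) = L ^ (11 / σ) := by
      rw [hDq]; field_simp
    have hL11 : (L ^ (11 / σ)) ^ σ = L ^ 11 := by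
      rw [← Real.rpow_mul hL0.le, div_mul_cancel₀ _ hσ.ne']
      exact_mod_cast Real.rpow_natCast L 11
    rw [hRDq, hL11] at hlo
    have h2 : L ^ 11 ≤ 3 * L * ((sc D (sc q Z)).card : ℝ) := by
      calc L ^ 11 ≤ K * ((sc (D * q) Z).card : ℝ) := hlo
        _ ≤ L * (3 * ((sc D (sc q Z)).card : ℝ)) := by
            have : ((sc (D * q) Z).card : ℝ) ≤ 3 * ((sc D (sc q Z)).card : ℝ) := by
              exact_mod_cast hfl
            gcongr
        _ = 3 * L * ((sc D (sc q Z)).card : ℝ) := by ring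
    have h3 : 6 * L * (Y.card : ℝ) ≤ (sc q Z).card := by
      have hYc : (0 : ℝ) ≤ Y.card := by positivity
      have h4 : (Y.card : ℝ) * L ^ 11 ≤ 9 * L ^ 4 * (sc q Z).card := by
        calc (Y.card : ℝ) * L ^ 11 ≤ Y.card * (3 * L * ((sc D (sc q Z)).card : ℝ)) := by gcongr
          _ = 3 * L * (Y.card * ((sc D (sc q Z)).card : ℝ)) := by ring
          _ ≤ 3 * L * (3 * (L ^ 3 * (sc q Z).card)) := by gcongr
          _ = 9 * L ^ 4 * (sc q Z).card := by ring
      have h5 : (54 : ℝ) ≤ L ^ 6 := by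
        calc (54 : ℝ) ≤ 2 ^ 6 := by norm_num
          _ ≤ L ^ 6 := by gcongr
      have h6 : (6 * L * (Y.card : ℝ)) * L ^ 10 ≤ (sc q Z).card * L ^ 10 := by
        calc (6 * L * (Y.card : ℝ)) * L ^ 10 = 6 * (Y.card * L ^ 11) := by ring
          _ ≤ 6 * (9 * L ^ 4 * (sc q Z).card) := by gcongr
          _ = 54 * (L ^ 4 * (sc q Z).card) := by ring
          _ ≤ L ^ 6 * (L ^ 4 * (sc q Z).card) := by gcongr
          _ = (sc q Z).card * L ^ 10 := by ring
      exact le_of_mul_le_mul_right h6 (by positivity)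
    rw [hY] at h3
    have hen := hEn (sc q Z) S L D (q / R) (by linarith) hXne hD1 (by positivity) hXX
      (fun r hr => (hS r hr).2) h3 hsep
    have hDρ : D * (q / R) = 1 / L ^ (11 / σ) := by
      rw [hD]; field_simp
    have h7 : 1 + 2 / (D * (q / R)) ≤ 3 * L ^ (11 / σ) := by
      rw [hDρ]
      have : 2 / (1 / L ^ (11 / σ)) = 2 * L ^ (11 / σ) := by field_simp
      rw [this]
      linarith
    calc (S.card : ℝ) ≤ 2 * L ^ 3 * (sc q Z).card * (1 + 2 / (D * (q / R))) := hen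
      _ ≤ 2 * L ^ 3 * (K * (R / q) ^ σ) * (3 * L ^ (11 / σ)) := by gcongr
      _ ≤ 2 * L ^ 3 * (L * (R / q) ^ σ) * (3 * L ^ (11 / σ)) := by gcongr
      _ = L ^ (11 / σ) * (6 * L ^ 4) * (R / q) ^ σ := by ring
      _ ≤ L ^ (11 / σ) * L ^ 12 * (R / q) ^ σ := by
          gcongr
          calc 6 * L ^ 4 ≤ 2 ^ 8 * L ^ 4 := by gcongr; norm_num
            _ ≤ L ^ 8 * L ^ 4 := by gcongr
            _ = L ^ 12 := by ring

end Pool.Agent.Work.MP_e17eac_co.PS
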