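import Pool.Agent.Work.MP_e17eac_co.PS.SP

/-! Project PS, block SP: the energy bound. -/

set_option autoImplicit false

namespace Pool.Agent.Work.MP_e17eac_co.PS

open Finset
open scoped Pointwise

namespace XEn

/-- Cauchy-Schwarz over the fibres. -/
theorem pairs {α β : Type} [DecidableEq α] [DecidableEq β] (S : Finset α) (f : α → β) :
    ((S.card : ℝ)) ^ 2 ≤ ((S.image f).card : ℝ) *
      (((S ×ˢ S).filter fun z => f z.1 = f z.2).card : ℝ) := by
  have h1 : (S.card : ℝ) = ∑ b ∈ S.image f, ((S.filter fun a => f a = b).card : ℝ) := by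
    rw [Finset.card_eq_sum_card_image f S]
    push_cast
    rfl
  have h2 : (((S ×ˢ S).filter fun z => f z.1 = f z.2).card : ℝ) =
      ∑ b ∈ S.image f, ((S.filter fun a => f a = b).card : ℝ) ^ 2 := by
    have h3 : ((S ×ˢ S).filter fun z => f z.1 = f z.2) =
        (S.image f).biUnion fun b => (S.filter fun a => f a = b) ×ˢ (S.filter fun a => f a = b) := by
      ext z
      simp only [mem_filter, mem_product, mem_biUnion, mem_image]
      constructor
      · rintro ⟨⟨ha, hb⟩, hab⟩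
        exact ⟨f z.1, ⟨z.1, ha, rfl⟩, ⟨ha, rfl⟩, ⟨hb, hab.symm⟩⟩
      · rintro ⟨b, _, ⟨ha, hab⟩, ⟨hc, hcb⟩⟩
        exact ⟨⟨ha, hc⟩, hab.trans hcb.symm⟩
    rw [h3, Finset.card_biUnion]
    · push_cast
      refine Finset.sum_congr rfl fun b _ => ?_
      rw [Finset.card_product]
      push_cast
      ring
    · intro b _ c _ hbc
      simp only [Function.onFun]
      rw [Finset.disjoint_left]
      intro z hz hz'
      rw [mem_product, mem_filter, mem_filter] at hz hz'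
      exact hbc (hz.1.2.symm.trans hz'.1.2)
  rw [h1, h2]
  exact sq_sum_le_card_mul_sum_sq

/-- A separated set in an interval. -/
theorem sep (S : Finset ℝ) (a L ρ : ℝ) (hρ : 0 < ρ) (hL : 0 ≤ L)
    (hS : ∀ r ∈ S, a ≤ r ∧ r ≤ a + L) (hsep : ∀ r ∈ S, ∀ r' ∈ S, r ≠ r' → ρ ≤ |r - r'|) :
    (S.card : ℝ) ≤ 1 + L / ρ := by
  have h1 : S.card ≤ (Finset.Icc (0 : ℤ) ⌊L / ρ⌋).card := by
    refine Finset.card_le_card_of_injOn (fun r => ⌊(r - a) / ρ⌋) ?_ ?_
    · intro r hr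
      obtain ⟨h1, h2⟩ := hS r (Finset.mem_coe.1 hr)
      rw [Finset.mem_coe, Finset.mem_Icc]
      refine ⟨Int.floor_nonneg.2 (div_nonneg (by linarith) hρ.le), Int.floor_le_floor ?_⟩
      exact div_le_div_of_nonneg_right (by linarith) hρ.le
    · intro r hr s hs hrs
      by_contra hne
      have h1 := Int.abs_sub_lt_one_of_floor_eq_floor hrs
      have h2 := hsep r (Finset.mem_coe.1 hr) s (Finset.mem_coe.1 hs) hne
      have h3 : (r - a) / ρ - (s - a) / ρ = (r - s) / ρ := by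
        rw [← sub_div]
        congr 1
        ring
      rw [h3, abs_div, abs_of_pos hρ, div_lt_one hρ] at h1
      linarith
  have h2 : 0 ≤ ⌊L / ρ⌋ := Int.floor_nonneg.2 (div_nonneg hL hρ.le)
  rw [Int.card_Icc] at h1
  have h3 : (S.card : ℤ) ≤ ⌊L / ρ⌋ + 1 := by omega
  have h4 : (S.card : ℝ) ≤ (⌊L / ρ⌋ : ℝ) + 1 := by exact_mod_cast h3
  have h5 := Int.floor_le (L / ρ)
  linarith

/-- At most three integers in an interval of length two. -/
theorem three (W : Finset ℤ) (x : ℝ) (hW : ∀ w ∈ W, |(w : ℝ) - x| ≤ 1) : W.card ≤ 3 := by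
  have h1 : W ⊆ Finset.Icc ⌈x - 1⌉ ⌊x + 1⌋ := by
    intro w hw
    have h := abs_le.1 (hW w hw)
    rw [Finset.mem_Icc]
    exact ⟨Int.ceil_le.2 (by linarith [h.1]), Int.le_floor.2 (by linarith [h.2])⟩
  have h2 := Finset.card_le_card h1
  rw [Int.card_Icc] at h2
  have h3 : ⌊x + 1⌋ + 1 - ⌈x - 1⌉ ≤ 3 := by
    have h4 := Int.floor_le (x + 1)
    have h5 := Int.le_ceil (x - 1)
    have h6 : ((⌊x + 1⌋ : ℤ) : ℝ) - ((⌈x - 1⌉ : ℤ) : ℝ) ≤ 2 := by linarith
    have h7 : ⌊x + 1⌋ - ⌈x - 1⌉ ≤ 2 := by exact_mod_cast h6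
    omega
  omega

/-- The pairs of differences almost on a line. -/
noncomputable def pr (X : Finset ℤ) (r : ℝ) : Finset (ℤ × ℤ) :=
  ((X - X) ×ˢ (X - X)).filter fun z => |(z.1 : ℝ) - r * (z.2 : ℝ)| ≤ 1

theorem pr_lower (X : Finset ℤ) (r K : ℝ) (hK : 1 ≤ K) (hX : X.Nonempty)
    (h : ((X - fl r X).card : ℝ) ≤ K * X.card) : (X.card : ℝ) ≤ K * ((pr X r).card : ℝ) := by
  classical
  set m : ℝ := (X.card : ℝ) with hm
  have hm0 : 0 < m := by
    rw [hm]
    exact_mod_cast hX.card_pos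
  have h1 := pairs (X ×ˢ X) (fun z : ℤ × ℤ => z.1 - ⌊r * (z.2 : ℝ)⌋)
  set Q := (((X ×ˢ X) ×ˢ (X ×ˢ X)).filter fun z =>
    z.1.1 - ⌊r * (z.1.2 : ℝ)⌋ = z.2.1 - ⌊r * (z.2.2 : ℝ)⌋)
  have h2 : (((X ×ˢ X).image fun z : ℤ × ℤ => z.1 - ⌊r * (z.2 : ℝ)⌋).card : ℝ) ≤ K * m := by
    refine le_trans ?_ h
    have hsub : ((X ×ˢ X).image fun z : ℤ × ℤ => z.1 - ⌊r * (z.2 : ℝ)⌋) ⊆ X - fl r X := by
      intro w hw
      rw [Finset.mem_image] at hw
      obtain ⟨z, hz, rfl⟩ := hw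
      rw [Finset.mem_product] at hz
      exact Finset.sub_mem_sub hz.1 (Finset.mem_image.2 ⟨z.2, hz.2, rfl⟩)
    exact_mod_cast Finset.card_le_card hsub
  have h3 : Q.card ≤ (pr X r).card * (X.card * X.card) := by
    have h4 : Q.card ≤ ((pr X r) ×ˢ (X ×ˢ X)).card := by
      refine Finset.card_le_card_of_injOn
        (fun z => ((z.1.1 - z.2.1, z.1.2 - z.2.2), (z.2.1, z.2.2))) ?_ ?_
      · intro z hz
        obtain ⟨hz1, hz2⟩ := Finset.mem_filter.1 (Finset.mem_coe.1 hz)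
        rw [Finset.mem_product, Finset.mem_product, Finset.mem_product] at hz1
        obtain ⟨⟨a1, a2⟩, a3, a4⟩ := hz1
        rw [Finset.mem_coe, Finset.mem_product, Finset.mem_product]
        refine ⟨?_, a3, a4⟩
        refine Finset.mem_filter.2 ⟨?_, ?_⟩
        · rw [Finset.mem_product]
          exact ⟨Finset.sub_mem_sub a1 a3, Finset.sub_mem_sub a2 a4⟩
        · have e1 : ((z.1.1 : ℤ) : ℝ) - (⌊r * (z.1.2 : ℝ)⌋ : ℝ) =
              (z.2.1 : ℝ) - (⌊r * (z.2.2 : ℝ)⌋ : ℝ) := by exact_mod_cast hz2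
          have e2 := Int.floor_le (r * (z.1.2 : ℝ))
          have e3 := Int.lt_floor_add_one (r * (z.1.2 : ℝ))
          have e4 := Int.floor_le (r * (z.2.2 : ℝ))
          have e5 := Int.lt_floor_add_one (r * (z.2.2 : ℝ))
          simp only []
          push_cast
          rw [abs_le]
          constructor <;> nlinarith
      · intro z hz w hw hzw
        have e : ((z.1.1 - z.2.1, z.1.2 - z.2.2), (z.2.1, z.2.2)) =
          ((w.1.1 - w.2.1, w.1.2 - w.2.2), (w.2.1, w.2.2)) := hzw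
        simp only [Prod.mk.injEq] at e
        obtain ⟨⟨e1, e2⟩, e3, e4⟩ := e
        refine Prod.ext (Prod.ext ?_ ?_) (Prod.ext e3 e4)
        · omega
        · omega
    rw [Finset.card_product, Finset.card_product] at h4
    exact h4
  have h4 : (Q.card : ℝ) ≤ ((pr X r).card : ℝ) * (m * m) := by
    rw [hm]
    exact_mod_cast h3
  have h5 : ((X ×ˢ X).card : ℝ) = m * m := by
    rw [Finset.card_product]
    push_cast
    rfl
  rw [h5] at h1
  have h6 : (m * m) ^ 2 ≤ (K * m) * (((pr X r).card : ℝ) * (m * m)) := by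
    refine h1.trans ?_
    exact mul_le_mul h2 h4 (Nat.cast_nonneg _) (by positivity)
  have h7 : (m * m * m) * m ≤ (m * m * m) * (K * ((pr X r).card : ℝ)) := by
    calc (m * m * m) * m = (m * m) ^ 2 := by ring
      _ ≤ _ := h6
      _ = _ := by ring
  exact le_of_mul_le_mul_left h7 (by positivity)

theorem pr_small (X : Finset ℤ) (r D : ℝ) :
    (((pr X r).filter fun z => |(z.2 : ℝ)| ≤ D).card) ≤
      3 * ((X - X).filter (fun d : ℤ => |(d : ℝ)| ≤ D)).card := by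
  classical
  have h := Finset.card_le_mul_card_image_of_maps_to (f := fun z : ℤ × ℤ => z.2)
    (s := (pr X r).filter fun z => |(z.2 : ℝ)| ≤ D)
    (t := (X - X).filter (fun d : ℤ => |(d : ℝ)| ≤ D)) ?_ 3 ?_
  · exact h
  · intro z hz
    obtain ⟨h1, h2⟩ := Finset.mem_filter.1 hz
    have h3 := (Finset.mem_filter.1 h1).1
    rw [Finset.mem_product] at h3
    exact Finset.mem_filter.2 ⟨h3.2, h2⟩
  · intro d _
    have h5 : (((pr X r).filter fun z => |(z.2 : ℝ)| ≤ D).filter fun z => z.2 = d).card =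
        ((((pr X r).filter fun z => |(z.2 : ℝ)| ≤ D).filter fun z => z.2 = d).image
          fun z => z.1).card := by
      refine (Finset.card_image_of_injOn ?_).symm
      intro z hz w hw hzw
      have e1 := (Finset.mem_filter.1 (Finset.mem_coe.1 hz)).2
      have e2 := (Finset.mem_filter.1 (Finset.mem_coe.1 hw)).2
      exact Prod.ext hzw (e1.trans e2.symm)
    rw [h5]
    refine three _ (r * (d : ℝ)) ?_
    intro w hw
    rw [Finset.mem_image] at hw
    obtain ⟨z, hz, rfl⟩ := hw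
    obtain ⟨h1, h2⟩ := Finset.mem_filter.1 hz
    have h3 := (Finset.mem_filter.1 (Finset.mem_filter.1 h1).1).2
    rw [h2] at h3
    exact h3

end XEn

open XEn in
/-- **En** -/
theorem I_En : StEn := by
  classical
  intro X S K D ρ hK hX hD hρ hXX hS hsm hsep
  set m : ℝ := (X.card : ℝ) with hm
  have hm0 : 0 < m := by
    rw [hm]
    exact_mod_cast hX.card_pos
  have hK0 : 0 < K := by linarith
  have hD0 : 0 < D := by linarith
  let B : ℝ → Finset (ℤ × ℤ) := fun r => (pr X r).filter fun z => ¬ |(z.2 : ℝ)| ≤ D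
  have hB : ∀ r ∈ S, m ≤ 2 * K * ((B r).card : ℝ) := by
    intro r hr
    have h1 := pr_lower X r K hK hX (hS r hr)
    have h2 : (((pr X r).filter fun z => |(z.2 : ℝ)| ≤ D).card : ℝ) ≤
        3 * (((X - X).filter (fun d : ℤ => |(d : ℝ)| ≤ D)).card : ℝ) := by
      exact_mod_cast pr_small X r D
    have h3 : ((pr X r).card : ℝ) =
        (((pr X r).filter fun z => |(z.2 : ℝ)| ≤ D).card : ℝ) + ((B r).card : ℝ) := by
      have h5 : (((pr X r).filter fun z => |(z.2 : ℝ)| ≤ D).card) + (B r).card =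
          (pr X r).card :=
        Finset.card_filter_add_card_filter_not (s := pr X r)
          (p := fun z : ℤ × ℤ => |(z.2 : ℝ)| ≤ D)
      rw [← h5]
      push_cast
      rfl
    rw [h3] at h1
    have h4 : 2 * K * (((pr X r).filter fun z => |(z.2 : ℝ)| ≤ D).card : ℝ) ≤ m := by
      refine le_trans ?_ hsm
      have := mul_le_mul_of_nonneg_left h2 (by positivity : (0 : ℝ) ≤ 2 * K)
      linarith
    linarith
  let BB : Finset (ℤ × ℤ) := ((X - X) ×ˢ (X - X)).filter fun z => ¬ |(z.2 : ℝ)| ≤ D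
  have hBB : (BB.card : ℝ) ≤ K ^ 2 * m ^ 2 := by
    have h1 : BB.card ≤ ((X - X) ×ˢ (X - X)).card := Finset.card_filter_le _ _
    rw [Finset.card_product] at h1
    have h2 : (BB.card : ℝ) ≤ ((X - X).card : ℝ) * ((X - X).card : ℝ) := by exact_mod_cast h1
    have h3 : ((X - X).card : ℝ) * ((X - X).card : ℝ) ≤ (K * m) * (K * m) :=
      mul_le_mul hXX hXX (Nat.cast_nonneg _) (by positivity)
    calc (BB.card : ℝ) ≤ _ := h2
      _ ≤ _ := h3
      _ = _ := by ring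
  -- exchange
  have hex : ∑ r ∈ S, ((B r).card : ℝ) =
      ∑ z ∈ BB, ((S.filter fun r => |(z.1 : ℝ) - r * (z.2 : ℝ)| ≤ 1).card : ℝ) := by
    have h1 : ∀ r ∈ S, ((B r).card : ℝ) =
        ∑ z ∈ BB, if |(z.1 : ℝ) - r * (z.2 : ℝ)| ≤ 1 then (1 : ℝ) else 0 := by
      intro r _
      rw [Finset.sum_boole]
      congr 2
      ext z
      simp only [B, BB, pr, Finset.mem_filter]
      tauto
    rw [Finset.sum_congr rfl h1, Finset.sum_comm]
    refine Finset.sum_congr rfl fun z _ => ?_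
    rw [Finset.sum_boole]
  have hone : ∀ z ∈ BB, ((S.filter fun r => |(z.1 : ℝ) - r * (z.2 : ℝ)| ≤ 1).card : ℝ) ≤
      1 + 2 / (D * ρ) := by
    intro z hz
    have h1 := (Finset.mem_filter.1 hz).2
    rw [not_le] at h1
    have hd0 : 0 < |(z.2 : ℝ)| := hD0.trans h1
    have hdne : (z.2 : ℝ) ≠ 0 := abs_pos.1 hd0
    have h2 := sep (S.filter fun r => |(z.1 : ℝ) - r * (z.2 : ℝ)| ≤ 1)
      ((z.1 : ℝ) / (z.2 : ℝ) - 1 / |(z.2 : ℝ)|) (2 / |(z.2 : ℝ)|) ρ hρ (by positivity) ?_ ?_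
    · refine h2.trans ?_
      have h3 : 2 / |(z.2 : ℝ)| / ρ ≤ 2 / (D * ρ) := by
        rw [div_div]
        apply div_le_div_of_nonneg_left (by norm_num) (by positivity)
        exact mul_le_mul_of_nonneg_right h1.le hρ.le
      linarith
    · intro r hr
      have h3 := (Finset.mem_filter.1 hr).2
      have h4 : |(z.1 : ℝ) / (z.2 : ℝ) - r| ≤ 1 / |(z.2 : ℝ)| := by
        rw [le_div_iff₀ hd0, ← abs_mul]
        have h5 : ((z.1 : ℝ) / (z.2 : ℝ) - r) * (z.2 : ℝ) = (z.1 : ℝ) - r * (z.2 : ℝ) := by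
          rw [sub_mul, div_mul_cancel₀ _ hdne]
        rw [h5]
        exact h3
      rw [abs_le] at h4
      have h5 : 2 / |(z.2 : ℝ)| = 1 / |(z.2 : ℝ)| + 1 / |(z.2 : ℝ)| := by ring
      rw [h5]
      constructor
      · linarith [h4.2]
      · linarith [h4.1]
    · intro r hr s hs hrs
      exact hsep r (Finset.mem_filter.1 hr).1 s (Finset.mem_filter.1 hs).1 hrs
  have hsum1 : (S.card : ℝ) * m ≤ 2 * K * ∑ r ∈ S, ((B r).card : ℝ) := by
    rw [Finset.mul_sum, ← nsmul_eq_mul]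
    exact Finset.card_nsmul_le_sum _ _ _ hB
  have hsum2 : ∑ r ∈ S, ((B r).card : ℝ) ≤ K ^ 2 * m ^ 2 * (1 + 2 / (D * ρ)) := by
    rw [hex]
    have h1 := Finset.sum_le_card_nsmul BB _ _ hone
    rw [nsmul_eq_mul] at h1
    refine h1.trans (mul_le_mul_of_nonneg_right hBB ?_)
    positivity
  have hfin : m * (S.card : ℝ) ≤ m * (2 * K ^ 3 * m * (1 + 2 / (D * ρ))) := by
    calc m * (S.card : ℝ) = (S.card : ℝ) * m := by ring
      _ ≤ 2 * K * ∑ r ∈ S, ((B r).card : ℝ) := hsum1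
      _ ≤ 2 * K * (K ^ 2 * m ^ 2 * (1 + 2 / (D * ρ))) :=
          mul_le_mul_of_nonneg_left hsum2 (by positivity)
      _ = m * (2 * K ^ 3 * m * (1 + 2 / (D * ρ))) := by ring
  exact le_of_mul_le_mul_left hfin hm0

end Pool.Agent.Work.MP_e17eac_co.PS
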