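import Pool.Agent.Work.MP_e17eac_co.PS.SP

/-!
# Project PS, block SP, item End: the ring step
-/

set_option autoImplicit false
set_option linter.unusedVariables false

namespace Pool.Agent.Work.MP_e17eac_co.PS

open Finset
open scoped Pointwise

namespace XEnd

theorem sum_mem_nsmul (B : Finset ℤ) (n : ℕ) :
    ∀ x : Fin n → ℤ, (∀ i, x i ∈ B) → ∑ i, x i ∈ n • B := by
  induction n with
  | zero => intro x _; simp
  | succ n ih =>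
    intro x hx
    rw [Fin.sum_univ_castSucc, succ_nsmul]
    exact Finset.add_mem_add (ih _ fun i => hx _) (hx _)

theorem fl_one (Z : Finset ℤ) : fl 1 Z = Z := by
  unfold fl
  simp

/-- the union of the dilates of `Z` by the elements of `cs` -/
noncomputable def bu (Z : Finset ℤ) (cs : Finset ℝ) : Finset ℤ := cs.biUnion fun c => fl c Z

theorem mem_bu {Z : Finset ℤ} {cs : Finset ℝ} {c : ℝ} {z : ℤ} (hc : c ∈ cs) (hz : z ∈ Z) :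
    ⌊c * (z : ℝ)⌋ ∈ bu Z cs := by
  unfold bu fl
  exact Finset.mem_biUnion.2 ⟨c, hc, Finset.mem_image_of_mem _ hz⟩

theorem mem_bu_one {Z : Finset ℤ} {cs : Finset ℝ} {z : ℤ} (hc : (1 : ℝ) ∈ cs) (hz : z ∈ Z) :
    z ∈ bu Z cs := by
  have := mem_bu hc hz
  rwa [one_mul, Int.floor_intCast] at this

theorem card_bu {Z : Finset ℤ} {K : ℝ} (hK : 2 ≤ K) {cs : Finset ℝ} (hc : cs.card ≤ 9)
    (hcs : ∀ c ∈ cs, ((Z - fl c Z).card : ℝ) ≤ K ^ 7 * Z.card) :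
    ((Z - bu Z cs).card : ℝ) ≤ K ^ 11 * Z.card := by
  classical
  have h1 : Z - bu Z cs ⊆ cs.biUnion fun c => Z - fl c Z := by
    intro x hx
    obtain ⟨z, hz, b, hb, rfl⟩ := Finset.mem_sub.1 hx
    obtain ⟨c, hc, hb⟩ := Finset.mem_biUnion.1 hb
    exact Finset.mem_biUnion.2 ⟨c, hc, Finset.sub_mem_sub hz hb⟩
  have h2 : ((Z - bu Z cs).card : ℝ) ≤ ∑ c ∈ cs, ((Z - fl c Z).card : ℝ) := by
    exact_mod_cast (Finset.card_le_card h1).trans Finset.card_biUnion_le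
  have h3 : ∑ c ∈ cs, ((Z - fl c Z).card : ℝ) ≤ cs.card * (K ^ 7 * Z.card) := by
    rw [← nsmul_eq_mul]
    exact Finset.sum_le_card_nsmul _ _ _ hcs
  have h4 : (cs.card : ℝ) ≤ K ^ 4 := by
    have h5 : (cs.card : ℝ) ≤ 9 := by exact_mod_cast hc
    have h6 : (2 : ℝ) ^ 4 ≤ K ^ 4 := pow_le_pow_left₀ (by norm_num) hK 4
    norm_num at h6
    linarith
  have h5 : (0 : ℝ) ≤ K ^ 7 * Z.card := by positivity
  calc ((Z - bu Z cs).card : ℝ) ≤ cs.card * (K ^ 7 * Z.card) := h2.trans h3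
    _ ≤ K ^ 4 * (K ^ 7 * Z.card) := mul_le_mul_of_nonneg_right h4 h5
    _ = K ^ 11 * Z.card := by ring

/-- the item Gs with twelve terms -/
theorem gs12 (hGs : StGs) {Z : Finset ℤ} {K σ R : ℝ} (hZ : ZC K σ R Z) {cs : Finset ℝ}
    (h1 : (1 : ℝ) ∈ cs) (hc : cs.card ≤ 9)
    (hcs : ∀ c ∈ cs, ((Z - fl c Z).card : ℝ) ≤ K ^ 7 * Z.card) {d v q : ℝ} (hd : 0 < d)
    (hdK : d ≤ 2 * K) (hv : |v| ≤ 2 * K) (hq1 : 1 ≤ q) (hqR : q ≤ R) (hqd : 1 ≤ q * d)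
    (hrep : ∀ z ∈ Z, ∀ z' ∈ Z, ∃ x y : Fin 6 → ℤ, (∀ i, x i ∈ bu Z cs) ∧ (∀ i, y i ∈ bu Z cs) ∧
      |d * (z : ℝ) - d * v * (z' : ℝ) - (∑ i, (x i : ℝ) - ∑ i, (y i : ℝ))| ≤ 12) :
    ((sc q Z - fl v (sc q Z)).card : ℝ) ≤ K ^ 205 * (sc q Z).card := by
  have hK := hZ.hK
  have hK0 : 0 < K := by linarith
  have hK1 : 2 * K ≤ K ^ 11 := by
    have e1 : (1 : ℝ) ≤ K ^ 9 := one_le_pow₀ (by linarith)
    have e2 : K ^ 11 = K ^ 9 * (K * K) := by ring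
    rw [e2]
    have e3 : 2 * K ≤ K * K := by nlinarith
    have e4 : 1 * (K * K) ≤ K ^ 9 * (K * K) := mul_le_mul_of_nonneg_right e1 (by positivity)
    linarith
  have hsub : Z ⊆ bu Z cs := fun z hz => mem_bu_one h1 hz
  have h2 := hGs Z (bu Z cs) K σ R (K ^ 11) d v q 6 6 12 hZ hsub (by linarith)
    (card_bu hK hc hcs) hd (by linarith) (by linarith) hq1 hqR hqd (by
      intro z hz z' hz'
      obtain ⟨x, y, hx, hy, he⟩ := hrep z hz z' hz'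
      refine ⟨∑ i, x i - ∑ i, y i, Finset.sub_mem_sub (sum_mem_nsmul _ 6 x hx)
        (sum_mem_nsmul _ 6 y hy), ?_⟩
      push_cast
      exact he)
  refine h2.trans ?_
  apply mul_le_mul_of_nonneg_right _ (Nat.cast_nonneg _)
  have e1 : (2 : ℝ) ^ 14 ≤ K ^ 14 := pow_le_pow_left₀ (by norm_num) hK 14
  have e2 : (0 : ℝ) ≤ (K ^ 11) ^ (6 + 6 + 5) * K ^ 4 := by positivity
  have e3 : K ^ 205 = K ^ 14 * ((K ^ 11) ^ (6 + 6 + 5) * K ^ 4) := by ring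
  rw [e3]
  have e4 : (400 : ℝ) * (2 * ((12 : ℕ) : ℝ) + 3) ≤ K ^ 14 := by
    norm_num at e1 ⊢
    linarith
  calc 400 * (2 * ((12 : ℕ) : ℝ) + 3) * (K ^ 11) ^ (6 + 6 + 5) * K ^ 4
      = (400 * (2 * ((12 : ℕ) : ℝ) + 3)) * ((K ^ 11) ^ (6 + 6 + 5) * K ^ 4) := by ring
    _ ≤ K ^ 14 * ((K ^ 11) ^ (6 + 6 + 5) * K ^ 4) := mul_le_mul_of_nonneg_right e4 e2

theorem fr (x : ℝ) : |x - (⌊x⌋ : ℝ)| ≤ 1 := by
  rw [abs_le]
  have f1 := Int.floor_le x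
  have f2 := Int.lt_floor_add_one x
  constructor <;> linarith

section

variable {Z : Finset ℤ} {K σ R : ℝ} {T : Finset ℝ}

/-- the data of the item -/
structure Dat (Z : Finset ℤ) (K σ R : ℝ) (T : Finset ℝ) : Prop where
  zc : ZC K σ R Z
  one : ((Z - fl 1 Z).card : ℝ) ≤ K ^ 7 * Z.card
  bd : ∀ m ∈ T, 0 < m ∧ m ≤ K
  sgl : ∀ m ∈ T, ((Z - fl m Z).card : ℝ) ≤ K ^ 7 * Z.card
  dbl : ∀ m ∈ T, ∀ m' ∈ T, ((Z - fl (m * m') Z).card : ℝ) ≤ K ^ 7 * Z.card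

theorem good1 (hGs : StGs) (hD : Dat Z K σ R T) {q : ℝ} (hq1 : 1 ≤ q) (hqR : q ≤ R) :
    ((sc q Z - sc q Z).card : ℝ) ≤ K ^ 205 * (sc q Z).card := by
  have hK := hD.zc.hK
  have h1 := gs12 hGs hD.zc (cs := {1}) (by simp) (by simp) (by
    intro c hc
    rw [Finset.mem_singleton] at hc
    rw [hc]; exact hD.one) (d := 1) (v := 1) (q := q) one_pos (by linarith)
    (by rw [abs_one]; linarith) hq1 hqR (by linarith) (by
      intro z hz z' hz'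
      have a1 : z ∈ bu Z ({1} : Finset ℝ) := mem_bu_one (by simp) hz
      have a2 : z' ∈ bu Z ({1} : Finset ℝ) := mem_bu_one (by simp) hz'
      refine ⟨![z, z, z, z, z, z], ![z', z, z, z, z, z], ?_, ?_, ?_⟩
      · intro i
        fin_cases i <;> exact a1
      · intro i
        fin_cases i
        · exact a2
        all_goals exact a1
      · simp only [Fin.sum_univ_succ, Fin.sum_univ_zero]
        simp)
  rwa [fl_one] at h1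

theorem good2 (hGs : StGs) (hD : Dat Z K σ R T) {q m₁ m₂ m₃ m₄ : ℝ} (h₁ : m₁ ∈ T) (h₂ : m₂ ∈ T)
    (h₃ : m₃ ∈ T) (h₄ : m₄ ∈ T) (h34 : m₄ < m₃) (hv : |(m₁ - m₂) / (m₃ - m₄)| ≤ 2 * K)
    (hq1 : 1 ≤ q) (hqR : q ≤ R) (hqd : 1 ≤ q * (m₃ - m₄)) :
    ((sc q Z - fl ((m₁ - m₂) / (m₃ - m₄)) (sc q Z)).card : ℝ) ≤ K ^ 205 * (sc q Z).card := by
  have hK := hD.zc.hK
  have hd : 0 < m₃ - m₄ := by linarith
  obtain ⟨cs, hcs⟩ : ∃ cs : Finset ℝ, cs = {1, m₁, m₂, m₃, m₄} := ⟨_, rfl⟩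
  have hcard : cs.card ≤ 9 := by
    rw [hcs]
    exact (Finset.card_le_five).trans (by norm_num)
  have k0 : (1 : ℝ) ∈ cs := by rw [hcs]; simp
  have k1 : m₁ ∈ cs := by rw [hcs]; simp
  have k2 : m₂ ∈ cs := by rw [hcs]; simp
  have k3 : m₃ ∈ cs := by rw [hcs]; simp
  have k4 : m₄ ∈ cs := by rw [hcs]; simp
  have hall : ∀ c ∈ cs, ((Z - fl c Z).card : ℝ) ≤ K ^ 7 * Z.card := by
    intro c hc
    rw [hcs] at hc
    simp only [Finset.mem_insert, Finset.mem_singleton] at hc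
    rcases hc with rfl | rfl | rfl | rfl | rfl
    · exact hD.one
    all_goals exact hD.sgl _ (by assumption)
  refine gs12 hGs hD.zc k0 hcard hall hd ?_ hv hq1 hqR hqd ?_
  · linarith [(hD.bd m₃ h₃).2, (hD.bd m₄ h₄).1]
  intro z hz z' hz'
  have a0 : z ∈ bu Z cs := mem_bu_one k0 hz
  have e1 := fr (m₁ * (z' : ℝ))
  have e2 := fr (m₂ * (z' : ℝ))
  have e3 := fr (m₃ * (z : ℝ))
  have e4 := fr (m₄ * (z : ℝ))
  refine ⟨![⌊m₃ * (z : ℝ)⌋, ⌊m₂ * (z' : ℝ)⌋, z, z, z, z],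
    ![⌊m₄ * (z : ℝ)⌋, ⌊m₁ * (z' : ℝ)⌋, z, z, z, z], ?_, ?_, ?_⟩
  · intro i
    fin_cases i
    · exact mem_bu k3 hz
    · exact mem_bu k2 hz'
    all_goals exact a0
  · intro i
    fin_cases i
    · exact mem_bu k4 hz
    · exact mem_bu k1 hz'
    all_goals exact a0
  · have e5 : (m₃ - m₄) * ((m₁ - m₂) / (m₃ - m₄)) = m₁ - m₂ := mul_div_cancel₀ _ hd.ne'
    rw [e5]
    rw [abs_le] at e1 e2 e3 e4
    simp only [Fin.sum_univ_succ, Fin.sum_univ_zero]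
    simp
    rw [abs_le]
    constructor <;> linarith [e1.1, e1.2, e2.1, e2.2, e3.1, e3.2, e4.1, e4.2]

theorem good3 (hGs : StGs) (hD : Dat Z K σ R T) {q m₁ m₂ m₃ m₄ m u ε : ℝ} (h₁ : m₁ ∈ T)
    (h₂ : m₂ ∈ T) (h₃ : m₃ ∈ T) (h₄ : m₄ ∈ T) (hm : m ∈ T) (hu : u ∈ T) (h34 : m₄ < m₃)
    (hε : ε = 0 ∨ ε = 1)
    (hv : |m - ((m₁ - m₂) / (m₃ - m₄) + ε) / 2 * u| ≤ 2 * K)
    (hq1 : 1 ≤ q) (hqR : q ≤ R) (hqd : 1 ≤ q * (2 * (m₃ - m₄))) :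
    ((sc q Z - fl (m - ((m₁ - m₂) / (m₃ - m₄) + ε) / 2 * u) (sc q Z)).card : ℝ) ≤
      K ^ 205 * (sc q Z).card := by
  have hK := hD.zc.hK
  have hd : 0 < m₃ - m₄ := by linarith
  obtain ⟨cs, hcs⟩ : ∃ cs : Finset ℝ, cs = {1, m₃, m₄, m₄ * m, m₃ * m, m₁ * u} ∪
      {m₂ * u, m₃ * u, m₄ * u} := ⟨_, rfl⟩
  have hcard : cs.card ≤ 9 := by
    rw [hcs]
    refine (Finset.card_union_le _ _).trans ?_
    have i1 := Finset.card_le_six (a := (1 : ℝ)) (b := m₃) (c := m₄) (d := m₄ * m) (e := m₃ * m)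
      (f := m₁ * u)
    have i2 := Finset.card_le_three (a := m₂ * u) (b := m₃ * u) (c := m₄ * u)
    omega
  have k0 : (1 : ℝ) ∈ cs := by rw [hcs]; simp
  have k1 : m₃ ∈ cs := by rw [hcs]; simp
  have k2 : m₄ ∈ cs := by rw [hcs]; simp
  have k3 : m₄ * m ∈ cs := by rw [hcs]; simp
  have k4 : m₃ * m ∈ cs := by rw [hcs]; simp
  have k5 : m₁ * u ∈ cs := by rw [hcs]; simp
  have k6 : m₂ * u ∈ cs := by rw [hcs]; simp
  have k7 : m₃ * u ∈ cs := by rw [hcs]; simp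
  have k8 : m₄ * u ∈ cs := by rw [hcs]; simp
  have hall : ∀ c ∈ cs, ((Z - fl c Z).card : ℝ) ≤ K ^ 7 * Z.card := by
    intro c hc
    rw [hcs, Finset.mem_union] at hc
    simp only [Finset.mem_insert, Finset.mem_singleton] at hc
    rcases hc with (rfl | rfl | rfl | rfl | rfl | rfl) | (rfl | rfl | rfl)
    · exact hD.one
    · exact hD.sgl _ h₃
    · exact hD.sgl _ h₄
    · exact hD.dbl _ h₄ _ hm
    · exact hD.dbl _ h₃ _ hm
    · exact hD.dbl _ h₁ _ hu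
    · exact hD.dbl _ h₂ _ hu
    · exact hD.dbl _ h₃ _ hu
    · exact hD.dbl _ h₄ _ hu
  refine gs12 hGs hD.zc k0 hcard hall (d := 2 * (m₃ - m₄)) (by linarith) ?_ hv hq1 hqR hqd ?_
  · linarith [(hD.bd m₃ h₃).2, (hD.bd m₄ h₄).1]
  intro z hz z' hz'
  have a0 : z ∈ bu Z cs := mem_bu_one k0 hz
  have e1 := fr (m₃ * (z : ℝ))
  have e2 := fr (m₄ * (z : ℝ))
  have e3 := fr (m₄ * m * (z' : ℝ))
  have e4 := fr (m₃ * m * (z' : ℝ))
  have e5 := fr (m₁ * u * (z' : ℝ))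
  have e6 := fr (m₂ * u * (z' : ℝ))
  have e7 := fr (m₃ * u * (z' : ℝ))
  have e8 := fr (m₄ * u * (z' : ℝ))
  have e9 : (m₃ - m₄) * ((m₁ - m₂) / (m₃ - m₄)) = m₁ - m₂ := mul_div_cancel₀ _ hd.ne'
  have e10 : 2 * (m₃ - m₄) * (m - ((m₁ - m₂) / (m₃ - m₄) + ε) / 2 * u) =
      2 * (m₃ - m₄) * m - (m₁ - m₂) * u - ε * (m₃ - m₄) * u := by
    linear_combination (-u) * e9
  rw [e10]
  rw [abs_le] at e1 e2 e3 e4 e5 e6 e7 e8
  rcases hε with rfl | rfl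
  · refine ⟨![⌊m₃ * (z : ℝ)⌋, ⌊m₃ * (z : ℝ)⌋, ⌊m₄ * m * (z' : ℝ)⌋, ⌊m₄ * m * (z' : ℝ)⌋,
      ⌊m₁ * u * (z' : ℝ)⌋, z], ![⌊m₄ * (z : ℝ)⌋, ⌊m₄ * (z : ℝ)⌋, ⌊m₃ * m * (z' : ℝ)⌋,
      ⌊m₃ * m * (z' : ℝ)⌋, ⌊m₂ * u * (z' : ℝ)⌋, z], ?_, ?_, ?_⟩
    · intro i
      fin_cases i
      · exact mem_bu k1 hz
      · exact mem_bu k1 hz
      · exact mem_bu k3 hz'
      · exact mem_bu k3 hz'
      · exact mem_bu k5 hz'
      · exact a0
    · intro i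
      fin_cases i
      · exact mem_bu k2 hz
      · exact mem_bu k2 hz
      · exact mem_bu k4 hz'
      · exact mem_bu k4 hz'
      · exact mem_bu k6 hz'
      · exact a0
    · simp only [Fin.sum_univ_succ, Fin.sum_univ_zero]
      simp
      rw [abs_le]
      constructor <;> linarith [e1.1, e1.2, e2.1, e2.2, e3.1, e3.2, e4.1, e4.2, e5.1, e5.2, e6.1,
        e6.2]
  · refine ⟨![⌊m₃ * (z : ℝ)⌋, ⌊m₃ * (z : ℝ)⌋, ⌊m₄ * m * (z' : ℝ)⌋, ⌊m₄ * m * (z' : ℝ)⌋,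
      ⌊m₁ * u * (z' : ℝ)⌋, ⌊m₃ * u * (z' : ℝ)⌋], ![⌊m₄ * (z : ℝ)⌋, ⌊m₄ * (z : ℝ)⌋,
      ⌊m₃ * m * (z' : ℝ)⌋, ⌊m₃ * m * (z' : ℝ)⌋, ⌊m₂ * u * (z' : ℝ)⌋, ⌊m₄ * u * (z' : ℝ)⌋],
      ?_, ?_, ?_⟩
    · intro i
      fin_cases i
      · exact mem_bu k1 hz
      · exact mem_bu k1 hz
      · exact mem_bu k3 hz'
      · exact mem_bu k3 hz'
      · exact mem_bu k5 hz'
      · exact mem_bu k7 hz'
    · intro i
      fin_cases i
      · exact mem_bu k2 hz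
      · exact mem_bu k2 hz
      · exact mem_bu k4 hz'
      · exact mem_bu k4 hz'
      · exact mem_bu k6 hz'
      · exact mem_bu k8 hz'
    · simp only [Fin.sum_univ_succ, Fin.sum_univ_zero]
      simp
      rw [abs_le]
      constructor <;> linarith [e1.1, e1.2, e2.1, e2.2, e3.1, e3.2, e4.1, e4.2, e5.1, e5.2, e6.1,
        e6.2, e7.1, e7.2, e8.1, e8.2]

/-- the set of quotients -/
def Qu (T : Finset ℝ) : Set ℝ :=
  {r | ∃ m₁ ∈ T, ∃ m₂ ∈ T, ∃ m₃ ∈ T, ∃ m₄ ∈ T, m₄ < m₃ ∧ r = (m₁ - m₂) / (m₃ - m₄)}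

theorem mem_Qu {m₁ m₂ m₃ m₄ : ℝ} (h₁ : m₁ ∈ T) (h₂ : m₂ ∈ T) (h₃ : m₃ ∈ T) (h₄ : m₄ ∈ T)
    (h : m₃ ≠ m₄) : (m₁ - m₂) / (m₃ - m₄) ∈ Qu T := by
  rcases lt_or_gt_of_ne h with h | h
  · refine ⟨m₂, h₂, m₁, h₁, m₄, h₄, m₃, h₃, h, ?_⟩
    rw [← neg_sub m₁ m₂, ← neg_sub m₃ m₄, neg_div_neg_eq]
  · exact ⟨m₁, h₁, m₂, h₂, m₃, h₃, m₄, h₄, h, rfl⟩

theorem zero_Qu (hT : 2 ≤ T.card) : (0 : ℝ) ∈ Qu T ∧ (1 : ℝ) ∈ Qu T := by
  obtain ⟨a, ha, b, hb, hab⟩ := Finset.one_lt_card.1 (by omega : 1 < T.card)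
  constructor
  · have := mem_Qu ha ha ha hb hab
    rwa [sub_self, zero_div] at this
  · have := mem_Qu ha hb ha hb hab
    rwa [div_self (sub_ne_zero.2 hab)] at this

end

/-- the exponent of the energy bound -/
noncomputable def c2 (σ : ℝ) : ℝ := 205 * (11 / σ) + 2460

/-- the exponent of the scale -/
noncomputable def c1 (σ : ℝ) : ℝ := 2 * c2 σ + 12

theorem c2_le {σ : ℝ} (h0 : 0 < σ) (h1 : σ ≤ 1 / 2) : c2 σ ≤ 3485 / σ := by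
  unfold c2
  have h2 : 2460 ≤ 1230 / σ := by
    rw [le_div_iff₀ h0]
    linarith
  have h3 : 3485 / σ = 205 * (11 / σ) + 1230 / σ := by
    field_simp
    norm_num
  linarith

theorem c2_pos {σ : ℝ} (h0 : 0 < σ) : 0 < c2 σ := by
  unfold c2
  positivity

theorem gap {σ : ℝ} (h0 : 0 < σ) (h1 : σ ≤ 1 / 2) : c1 σ + 2 ≤ 40000 / σ := by
  have h2 := c2_le h0 h1
  unfold c1
  have h3 : 14 ≤ 7 / σ := by
    rw [le_div_iff₀ h0]
    linarith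
  have h4 : 40000 / σ = 2 * (3485 / σ) + 7 / σ + 33023 / σ := by
    field_simp
    norm_num
  have h5 : 0 < 33023 / σ := by positivity
  linarith

theorem pow_exp {K σ : ℝ} (hK : 2 ≤ K) :
    (K ^ 205) ^ (11 / σ) * (K ^ 205) ^ 12 = K ^ (c2 σ) := by
  have hK0 : 0 < K := by linarith
  have e1 : (K ^ 205 : ℝ) ^ (11 / σ) = K ^ (205 * (11 / σ)) := by
    rw [← Real.rpow_natCast K 205, ← Real.rpow_mul hK0.le]
    norm_num
  have e2 : ((K ^ 205) ^ 12 : ℝ) = K ^ (2460 : ℝ) := by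
    rw [← pow_mul, ← Real.rpow_natCast K (205 * 12)]
    norm_num
  rw [e1, e2, ← Real.rpow_add hK0]
  rfl

theorem eb (hGs : StGs) (hEb : StEb) {Z : Finset ℤ} {K σ R : ℝ} {T : Finset ℝ}
    (hD : Dat Z K σ R T) {q : ℝ} (hq1 : 1 ≤ q) (hqR : q ≤ R) (S : Finset ℝ)
    (hS : ∀ r ∈ S, |r| ≤ 2 * K ∧
      ((sc q Z - fl r (sc q Z)).card : ℝ) ≤ K ^ 205 * (sc q Z).card)
    (hsep : ∀ r ∈ S, ∀ r' ∈ S, r ≠ r' → q / R ≤ |r - r'|) :
    (S.card : ℝ) ≤ K ^ (c2 σ) * (R / q) ^ σ := by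
  have hK := hD.zc.hK
  have h1 : K ≤ K ^ 205 := le_self_pow₀ (by linarith) (by norm_num)
  have h2 : 2 * K ≤ K ^ 205 := by
    have e1 : K ^ 1 ≤ K ^ 203 := pow_le_pow_right₀ (by linarith) (by norm_num)
    have e2 : K ^ 205 = K ^ 203 * K * K := by ring
    have e3 : 2 ≤ K ^ 203 * K := by
      rw [pow_one] at e1
      nlinarith
    rw [e2]
    exact mul_le_mul_of_nonneg_right e3 (by linarith)
  have h3 := hEb Z K σ R (K ^ 205) q S hD.zc h1 hq1 hqR (good1 hGs hD hq1 hqR)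
    (fun r hr => ⟨(hS r hr).1.trans h2, (hS r hr).2⟩) hsep
  rwa [pow_exp hK] at h3

theorem caseA (hGs : StGs) (hEb : StEb) {Z : Finset ℤ} {K σ R ρ γ : ℝ} {T : Finset ℝ}
    (hD : Dat Z K σ R T) (hρ : 0 < ρ) (hρ1 : ρ ≤ 1)
    (hsep : ∀ m ∈ T, ∀ m' ∈ T, m ≠ m' → ρ ≤ |m - m'|) (hγ : γ = K ^ (-c1 σ)) (hγ0 : 0 < γ)
    (hγ1 : γ ≤ 1) (hbig : 4 ≤ ρ ^ 2 * R * γ)
    (hd : ∀ x : ℝ, 0 ≤ x → x ≤ 1 → ∃ r ∈ Qu T, 0 ≤ r ∧ r ≤ 1 ∧ |x - r| ≤ 2 * γ) : False := by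
  classical
  have hK := hD.zc.hK
  have hK0 : 0 < K := by linarith
  have hR := hD.zc.hR
  have hRγ : 0 < R * γ := by positivity
  obtain ⟨n, hn⟩ : ∃ n : ℕ, n = ⌊1 / (8 * γ)⌋₊ := ⟨_, rfl⟩
  have hn1 : (n : ℝ) ≤ 1 / (8 * γ) := by rw [hn]; exact Nat.floor_le (by positivity)
  have hn2 : 1 / (8 * γ) < n + 1 := by rw [hn]; exact Nat.lt_floor_add_one _
  have hx : ∀ k : ℕ, k ≤ n → ∃ r ∈ Qu T, 0 ≤ r ∧ r ≤ 1 ∧ |8 * γ * k - r| ≤ 2 * γ := by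
    intro k hk
    refine hd _ (by positivity) ?_
    have h1 : (k : ℝ) ≤ 1 / (8 * γ) := le_trans (by exact_mod_cast hk) hn1
    rw [le_div_iff₀ (by positivity)] at h1
    linarith
  choose! r hr using hx
  have hfar : ∀ j k : ℕ, j ≤ n → k ≤ n → j < k → 4 * γ ≤ |r j - r k| := by
    intro j k hj hk hjk
    have h1 := (hr j hj).2.2.2
    have h2 := (hr k hk).2.2.2
    rw [abs_le] at h1 h2
    have h3 : (j : ℝ) + 1 ≤ k := by exact_mod_cast hjk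
    have h4 : 8 * γ * ((j : ℝ) + 1) ≤ 8 * γ * k := mul_le_mul_of_nonneg_left h3 (by positivity)
    rw [abs_sub_comm]
    refine le_trans ?_ (le_abs_self _)
    linarith [h1.1, h1.2, h2.1, h2.2]
  have hfar' : ∀ j k : ℕ, j ≤ n → k ≤ n → j ≠ k → 4 * γ ≤ |r j - r k| := by
    intro j k hj hk hjk
    rcases lt_or_gt_of_ne hjk with h | h
    · exact hfar j k hj hk h
    · rw [abs_sub_comm]
      exact hfar k j hk hj h
  have hcard : ((range (n + 1)).image r).card = n + 1 := by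
    rw [Finset.card_image_of_injOn, Finset.card_range]
    intro j hj k hk h
    rw [Finset.coe_range, Set.mem_Iio] at hj hk
    by_contra hne
    have h1 := hfar' j k (by omega) (by omega) hne
    have h2 : r j = r k := h
    rw [h2, sub_self, abs_zero] at h1
    linarith
  have hq1 : 1 ≤ γ * R := by
    have h1 : ρ ^ 2 * (R * γ) ≤ 1 * (R * γ) :=
      mul_le_mul_of_nonneg_right (pow_le_one₀ hρ.le hρ1) hRγ.le
    linarith
  have hqρ : 1 ≤ γ * R * ρ := by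
    have h1 : ρ ^ 2 ≤ ρ := by nlinarith
    have h2 : ρ ^ 2 * (R * γ) ≤ ρ * (R * γ) := mul_le_mul_of_nonneg_right h1 hRγ.le
    linarith
  have hqR : γ * R ≤ R := by nlinarith
  have h1 := eb hGs hEb hD hq1 hqR ((range (n + 1)).image r) (by
    intro s hs
    obtain ⟨k, hk, rfl⟩ := Finset.mem_image.1 hs
    rw [Finset.mem_range] at hk
    have h1 := hr k (by omega)
    have habs : |r k| ≤ 2 * K := by
      rw [abs_of_nonneg h1.2.1]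
      linarith [h1.2.2.1]
    refine ⟨habs, ?_⟩
    obtain ⟨m₁, k₁, m₂, k₂, m₃, k₃, m₄, k₄, h34, e⟩ := h1.1
    rw [e] at habs ⊢
    refine good2 hGs hD k₁ k₂ k₃ k₄ h34 habs hq1 hqR ?_
    have h2 := hsep m₃ k₃ m₄ k₄ h34.ne'
    rw [abs_of_pos (by linarith)] at h2
    have h3 : γ * R * ρ ≤ γ * R * (m₃ - m₄) := mul_le_mul_of_nonneg_left h2 (by linarith)
    linarith) (by
    intro s hs s' hs' hne
    obtain ⟨k, hk, rfl⟩ := Finset.mem_image.1 hs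
    obtain ⟨k', hk', rfl⟩ := Finset.mem_image.1 hs'
    rw [Finset.mem_range] at hk hk'
    have h1 := hfar' k k' (by omega) (by omega) (fun h => hne (by rw [h]))
    have h2 : γ * R / R = γ := mul_div_cancel_right₀ _ (by linarith)
    rw [h2]
    linarith)
  rw [hcard] at h1
  have e1 : R / (γ * R) = K ^ (c1 σ) := by
    rw [hγ, Real.rpow_neg hK0.le]
    have : (0 : ℝ) < K ^ (c1 σ) := Real.rpow_pos_of_pos hK0 _
    field_simp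
  rw [e1, ← Real.rpow_mul hK0.le] at h1
  push_cast at h1
  have c2p := c2_pos hD.zc.hσ
  have c1p : 0 < c1 σ := by unfold c1; linarith
  have e2 : 1 / (8 * γ) = K ^ (c1 σ) / 8 := by
    rw [hγ, Real.rpow_neg hK0.le]
    have : (0 : ℝ) < K ^ (c1 σ) := Real.rpow_pos_of_pos hK0 _
    field_simp
  have e3 : K ^ (c1 σ * σ) ≤ K ^ (c1 σ / 2) := by
    apply Real.rpow_le_rpow_of_exponent_le (by linarith)
    have := hD.zc.hσ'
    nlinarith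
  have e4 : (8 : ℝ) ≤ K ^ (3 : ℝ) := by
    have : (2 : ℝ) ^ 3 ≤ K ^ 3 := pow_le_pow_left₀ (by norm_num) hK 3
    have e : K ^ (3 : ℝ) = K ^ 3 := by
      rw [← Real.rpow_natCast]
      norm_num
    rw [e]
    norm_num at this
    exact this
  have e5 : K ^ (c1 σ) < 8 * (K ^ (c2 σ) * K ^ (c1 σ / 2)) := by
    have h2 : K ^ (c2 σ) * K ^ (c1 σ * σ) ≤ K ^ (c2 σ) * K ^ (c1 σ / 2) :=
      mul_le_mul_of_nonneg_left e3 (Real.rpow_nonneg hK0.le _)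
    rw [e2] at hn2
    linarith
  have e6 : 8 * (K ^ (c2 σ) * K ^ (c1 σ / 2)) ≤ K ^ (3 : ℝ) * (K ^ (c2 σ) * K ^ (c1 σ / 2)) :=
    mul_le_mul_of_nonneg_right e4
      (mul_nonneg (Real.rpow_nonneg hK0.le _) (Real.rpow_nonneg hK0.le _))
  rw [← Real.rpow_add hK0, ← Real.rpow_add hK0] at e6
  have e7 : K ^ (3 + (c2 σ + c1 σ / 2)) ≤ K ^ (c1 σ) := by
    apply Real.rpow_le_rpow_of_exponent_le (by linarith)
    unfold c1
    linarith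
  rw [← Real.rpow_add hK0] at e5
  linarith

theorem caseB (hGs : StGs) (hEb : StEb) {Z : Finset ℤ} {K σ R ρ γ : ℝ} {T : Finset ℝ}
    (hD : Dat Z K σ R T) (hρ : 0 < ρ) (hρ1 : ρ ≤ 1)
    (hsep : ∀ m ∈ T, ∀ m' ∈ T, m ≠ m' → ρ ≤ |m - m'|) (hγ : γ = K ^ (-c1 σ)) (hγ0 : 0 < γ)
    (hγ1 : γ ≤ 1) (hbig : 4 ≤ ρ ^ 2 * R * γ) {r ε : ℝ} (hr : r ∈ Qu T) (hr0 : 0 ≤ r)
    (hr1 : r ≤ 1) (hε : ε = 0 ∨ ε = 1) (hfar : ∀ r' ∈ Qu T, γ / 2 ≤ |(r + ε) / 2 - r'|) :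
    (T.card : ℝ) ^ 2 ≤ K ^ (40000 / σ) * ρ ^ (-σ) := by
  classical
  have hK := hD.zc.hK
  have hK0 : 0 < K := by linarith
  have hR := hD.zc.hR
  have hσ := hD.zc.hσ
  have hRγ : 0 < R * γ := by positivity
  have hε0 : 0 ≤ ε ∧ ε ≤ 1 := by rcases hε with rfl | rfl <;> norm_num
  have hpair : ∀ p ∈ T ×ˢ T, ∀ p' ∈ T ×ˢ T, p ≠ p' →
      ρ * γ / 2 ≤ |(p.1 - (r + ε) / 2 * p.2) - (p'.1 - (r + ε) / 2 * p'.2)| := by
    intro p hp p' hp' hne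
    rw [Finset.mem_product] at hp hp'
    by_cases hu : p.2 = p'.2
    · have h1 : p.1 ≠ p'.1 := fun h => hne (Prod.ext h hu)
      have h2 := hsep _ hp.1 _ hp'.1 h1
      have h3 : (p.1 - (r + ε) / 2 * p.2) - (p'.1 - (r + ε) / 2 * p'.2) = p.1 - p'.1 := by
        rw [hu]; ring
      rw [h3]
      have h4 : ρ * γ ≤ ρ * 1 := mul_le_mul_of_nonneg_left hγ1 hρ.le
      nlinarith
    · have h1 := hfar _ (mem_Qu hp.1 hp'.1 hp.2 hp'.2 hu)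
      have h2 := hsep _ hp.2 _ hp'.2 hu
      have h3 : p.2 - p'.2 ≠ 0 := sub_ne_zero.2 hu
      have h4 : (p.1 - (r + ε) / 2 * p.2) - (p'.1 - (r + ε) / 2 * p'.2) =
          -((p.2 - p'.2) * ((r + ε) / 2 - (p.1 - p'.1) / (p.2 - p'.2))) := by
        rw [mul_sub, mul_div_cancel₀ _ h3]
        ring
      rw [h4, abs_neg, abs_mul]
      calc ρ * γ / 2 = ρ * (γ / 2) := by ring
        _ ≤ |p.2 - p'.2| * |(r + ε) / 2 - (p.1 - p'.1) / (p.2 - p'.2)| :=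
          mul_le_mul h2 h1 (by positivity) (abs_nonneg _)
  have hργ : 0 < ρ * γ / 2 := by positivity
  have hcard : ((T ×ˢ T).image fun p => p.1 - (r + ε) / 2 * p.2).card = T.card * T.card := by
    rw [Finset.card_image_of_injOn, Finset.card_product]
    intro p hp p' hp' h
    by_contra hne
    have h1 := hpair p (Finset.mem_coe.1 hp) p' (Finset.mem_coe.1 hp') hne
    have h2 : p.1 - (r + ε) / 2 * p.2 = p'.1 - (r + ε) / 2 * p'.2 := h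
    rw [h2, sub_self, abs_zero] at h1
    linarith
  have hq1 : 1 ≤ ρ * γ * R / 2 := by
    have h1 : ρ ^ 2 ≤ ρ := by nlinarith
    have h2 : ρ ^ 2 * (R * γ) ≤ ρ * (R * γ) := mul_le_mul_of_nonneg_right h1 hRγ.le
    linarith
  have hqR : ρ * γ * R / 2 ≤ R := by
    have h1 : ρ * γ ≤ 1 := by nlinarith
    have h2 : ρ * γ * R ≤ 1 * R := mul_le_mul_of_nonneg_right h1 (by linarith)
    linarith
  have h1 := eb hGs hEb hD hq1 hqR ((T ×ˢ T).image fun p => p.1 - (r + ε) / 2 * p.2) (by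
    intro s hs
    obtain ⟨p, hp, rfl⟩ := Finset.mem_image.1 hs
    rw [Finset.mem_product] at hp
    obtain ⟨m₁, k₁, m₂, k₂, m₃, k₃, m₄, k₄, h34, e⟩ := hr
    have b1 := hD.bd _ hp.1
    have b2 := hD.bd _ hp.2
    have habs : |p.1 - (r + ε) / 2 * p.2| ≤ 2 * K := by
      have h1 : 0 ≤ (r + ε) / 2 * p.2 := mul_nonneg (by linarith) b2.1.le
      have h2 : (r + ε) / 2 * p.2 ≤ 1 * p.2 := mul_le_mul_of_nonneg_right (by linarith) b2.1.le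
      rw [abs_le]
      constructor <;> linarith [b1.1, b1.2, b2.1, b2.2]
    refine ⟨habs, ?_⟩
    rw [e] at habs ⊢
    refine good3 hGs hD k₁ k₂ k₃ k₄ hp.1 hp.2 h34 hε habs hq1 hqR ?_
    have h2 := hsep m₃ k₃ m₄ k₄ h34.ne'
    rw [abs_of_pos (by linarith)] at h2
    have h3 : ρ * γ * R * ρ ≤ ρ * γ * R * (m₃ - m₄) :=
      mul_le_mul_of_nonneg_left h2 (by positivity)
    nlinarith) (by
    intro s hs s' hs' hne
    obtain ⟨p, hp, rfl⟩ := Finset.mem_image.1 hs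
    obtain ⟨p', hp', rfl⟩ := Finset.mem_image.1 hs'
    have h1 := hpair p hp p' hp' (fun h => hne (by rw [h]))
    have h2 : ρ * γ * R / 2 / R = ρ * γ / 2 := by
      have : R ≠ 0 := by linarith
      field_simp
    rw [h2]
    exact h1)
  rw [hcard] at h1
  push_cast at h1
  have c2p := c2_pos hσ
  have c1p : 0 < c1 σ := by unfold c1; linarith
  have hKc : (0 : ℝ) < K ^ (c1 σ) := Real.rpow_pos_of_pos hK0 _
  have e1 : R / (ρ * γ * R / 2) = (2 * K ^ (c1 σ)) * ρ⁻¹ := by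
    have hR' : R ≠ 0 := by linarith
    rw [hγ, Real.rpow_neg hK0.le]
    field_simp
  have e2 : (2 * K ^ (c1 σ) : ℝ) ^ σ ≤ K ^ ((1 + c1 σ) / 2) := by
    have i1 : (2 * K ^ (c1 σ) : ℝ) ≤ K ^ (1 + c1 σ) := by
      rw [Real.rpow_add hK0, Real.rpow_one]
      exact mul_le_mul_of_nonneg_right hK hKc.le
    calc (2 * K ^ (c1 σ) : ℝ) ^ σ ≤ (K ^ (1 + c1 σ)) ^ σ :=
          Real.rpow_le_rpow (by positivity) i1 hσ.le
      _ = K ^ ((1 + c1 σ) * σ) := by rw [← Real.rpow_mul hK0.le]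
      _ ≤ K ^ ((1 + c1 σ) / 2) := by
          apply Real.rpow_le_rpow_of_exponent_le (by linarith)
          have := hD.zc.hσ'
          nlinarith
  rw [e1, Real.mul_rpow (by positivity) (by positivity), Real.inv_rpow hρ.le,
    ← Real.rpow_neg hρ.le] at h1
  have hρσ : 0 ≤ ρ ^ (-σ) := Real.rpow_nonneg hρ.le _
  have e3 : K ^ (c2 σ) * ((2 * K ^ (c1 σ) : ℝ) ^ σ * ρ ^ (-σ)) ≤
      K ^ (c2 σ) * (K ^ ((1 + c1 σ) / 2) * ρ ^ (-σ)) :=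
    mul_le_mul_of_nonneg_left (mul_le_mul_of_nonneg_right e2 hρσ) (Real.rpow_nonneg hK0.le _)
  have e4 : K ^ (c2 σ) * (K ^ ((1 + c1 σ) / 2) * ρ ^ (-σ)) =
      K ^ (c2 σ + (1 + c1 σ) / 2) * ρ ^ (-σ) := by
    rw [Real.rpow_add hK0]; ring
  have e5 : K ^ (c2 σ + (1 + c1 σ) / 2) ≤ K ^ (40000 / σ) := by
    apply Real.rpow_le_rpow_of_exponent_le (by linarith)
    have g := gap hσ hD.zc.hσ'
    unfold c1 at g ⊢
    linarith
  have e6 := mul_le_mul_of_nonneg_right e5 hρσ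
  have e7 : (T.card : ℝ) ^ 2 = T.card * T.card := by ring
  rw [e7]
  linarith

end XEnd

/-- **Item End.** -/
theorem I_End (hFl : StFl) (hPrd : StPrd) (hGs : StGs) (hEb : StEb) (hDich : StDich) :
    StEnd := by
  intro Z K σ R ρ T hZ hZZ hT1 hT2 hρ hρ1 hsep hcard hbig
  have hK := hZ.hK
  have hK0 : 0 < K := by linarith
  have hZ0 : (0 : ℝ) ≤ Z.card := Nat.cast_nonneg _
  have h7 : K * Z.card ≤ K ^ 7 * Z.card :=
    mul_le_mul_of_nonneg_right (le_self_pow₀ (by linarith) (by norm_num)) hZ0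
  have hD : XEnd.Dat Z K σ R T := by
    refine ⟨hZ, ?_, ?_, ?_, ?_⟩
    · rw [XEnd.fl_one]
      exact hZZ.trans h7
    · intro m hm
      exact ⟨lt_of_lt_of_le (inv_pos.2 hK0) (hT1 m hm).1, (hT1 m hm).2⟩
    · intro m hm
      exact (hT2 m hm).trans h7
    · intro m hm m' hm'
      exact hPrd Z K m m' hK hZ.ne (hT1 m hm).1 (hT1 m hm).2 (hT1 m' hm').1 (hT1 m' hm').2
        (hT2 m hm) (hT2 m' hm')
  obtain ⟨γ, hγ⟩ : ∃ γ : ℝ, γ = K ^ (-XEnd.c1 σ) := ⟨_, rfl⟩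
  have c2p := XEnd.c2_pos hZ.hσ
  have c1p : 0 < XEnd.c1 σ := by unfold XEnd.c1; linarith
  have hγ0 : 0 < γ := by rw [hγ]; exact Real.rpow_pos_of_pos hK0 _
  have hγ1 : γ ≤ 1 := by
    rw [hγ]
    exact Real.rpow_le_one_of_one_le_of_nonpos (by linarith) (by linarith)
  have hbig' : 4 ≤ ρ ^ 2 * R * γ := by
    have g := XEnd.gap hZ.hσ hZ.hσ'
    have e1 : K ^ (2 : ℝ) ≤ K ^ (40000 / σ) * γ := by
      rw [hγ, ← Real.rpow_add hK0]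
      apply Real.rpow_le_rpow_of_exponent_le (by linarith)
      linarith
    have e2 : K ^ (2 : ℝ) = K * K := by
      rw [Real.rpow_two]; ring
    have e3 : K ^ (40000 / σ) * γ ≤ ρ ^ 2 * R * γ := mul_le_mul_of_nonneg_right hbig hγ0.le
    have e4 : 4 ≤ K * K := by nlinarith
    rw [e2] at e1
    exact e4.trans (e1.trans e3)
  obtain ⟨q0, q1⟩ := XEnd.zero_Qu hcard
  rcases hDich (XEnd.Qu T) γ hγ0 q0 q1 with h | ⟨r, hr, hr0, hr1, ε, hε, hfar⟩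
  · exact (XEnd.caseA hGs hEb hD hρ hρ1 hsep hγ hγ0 hγ1 hbig' h).elim
  · exact XEnd.caseB hGs hEb hD hρ hρ1 hsep hγ hγ0 hγ1 hbig' hr hr0 hr1 hε hfar

end Pool.Agent.Work.MP_e17eac_co.PS
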