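import Pool.Agent.Work.MP_e17eac_co.PS.SP

/-!
# Project PS: item Err
-/

namespace Pool.Agent.Work.MP_e17eac_co.PS

open Finset

/-- Bounded errors. -/
theorem I_Err : StErr := by
  intro X Y e h
  have h1 : X ⊆ Y.biUnion fun y => Finset.Icc (y - (e : ℤ)) (y + (e : ℤ)) := by
    intro x hx
    obtain ⟨y, hy, hxy⟩ := h x hx
    rw [Finset.mem_biUnion]
    refine ⟨y, hy, ?_⟩
    rw [Finset.mem_Icc]
    rw [abs_le] at hxy
    obtain ⟨h2, h3⟩ := hxy
    constructor <;> linarith
  have h2 := Finset.card_le_card h1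
  have h3 := Finset.card_biUnion_le_card_mul Y
    (fun y => Finset.Icc (y - (e : ℤ)) (y + (e : ℤ))) (2 * e + 1) (by
      intro y _
      rw [Int.card_Icc]
      omega)
  rw [mul_comm]
  exact h2.trans h3

end Pool.Agent.Work.MP_e17eac_co.PS
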