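import Pool.Agent.Work.MP_e17eac_co.PS.Spr
import Pool.Agent.Work.MP_e17eac_co.Bd.B07

/-!
# Project PS, version 2, item Fan1: the one-sided fan lemma
-/

set_option autoImplicit false

namespace Pool.Agent.Work.MP_e17eac_co.PS

open Finset
open Pool.Agent.Work.MP_e17eac_co.DH

namespace XFan1

variable {ι : Type} [Fintype ι] [DecidableEq ι]

theorem ex (hLeq : StLeq) (K : KSys ι) (B : Finset ℕ) (hB : ∀ n ∈ B, n < K.N) {e ρ : ℝ}
    (hρ : ∀ n ∈ B, |K.t n - e| ≤ ρ) {l : ι} (hl : l ∈ K.lines B) :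
    ∃ n, n < K.N ∧ |K.t n - e| ≤ ρ ∧ K.ht l (K.t n) = K.h n := by
  rcases mem_union.1 hl with h | h
  · obtain ⟨n, hn, rfl⟩ := mem_image.1 h
    exact ⟨n, hB n hn, hρ n hn, (hLeq ι K n (hB n hn)).2.1⟩
  · obtain ⟨n, hn, rfl⟩ := mem_image.1 h
    exact ⟨n, hB n hn, hρ n hn, (hLeq ι K n (hB n hn)).2.2.1⟩

theorem close (hLip : StLip) (hLeq : StLeq) (K : KSys ι) (B : Finset ℕ) (hB : ∀ n ∈ B, n < K.N)
    {e ρ : ℝ} (hρ : ∀ n ∈ B, |K.t n - e| ≤ ρ) {l l' : ι} (hl : l ∈ K.lines B)
    (hl' : l' ∈ K.lines B) : |K.ht l e - K.ht l' e| ≤ 3 * ρ := by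
  obtain ⟨n, hn, h1, e1⟩ := ex hLeq K B hB hρ hl
  obtain ⟨n', hn', h2, e2⟩ := ex hLeq K B hB hρ hl'
  rcases le_total n n' with h | h
  · exact XFAN.close_aux hLip K h hn' h1 h2 e1 e2
  · rw [abs_sub_comm]
    exact XFAN.close_aux hLip K h hn h2 h1 e2 e1

end XFan1

open XFan1 in
/-- **Fan1** -/
theorem I_Fan1 (hDeyI : StDeyI) (hLeq : StLeq) (hLip : StLip) : StFan1 := by
  intro ι _ _ K m p p' e ρ R hm hsep hp' hρ hside
  have hm0 : 0 < m := by linarith
  have hinj : Function.Injective K.x := by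
    intro i j hij
    by_contra hne
    have := hsep i j hne
    rw [hij, sub_self, abs_zero, mul_zero] at this
    linarith
  set E := (Ico p p').filter (fun n => 4 * m * ρ < |K.t n - e| ∧ |K.t n - e| ≤ R) with hE
  set BR := (Ico p p').filter (fun n => |K.t n - e| ≤ R) with hBR
  set Bρ := (Ico p p').filter (fun n => |K.t n - e| ≤ ρ) with hBρ
  have hmρ : ρ ≤ 4 * m * ρ := by nlinarith
  rcases lt_or_ge R ρ with hR | hR
  · have he : E = ∅ := by
      rw [hE, filter_eq_empty_iff]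
      rintro n _ ⟨h1, h2⟩
      linarith
    rw [he]
    simp
  have hF : K.lines Bρ ⊆ K.lines BR := by
    refine XFAN.lines_mono K ?_
    intro n hn
    obtain ⟨h1, h2⟩ := mem_filter.1 hn
    exact mem_filter.2 ⟨h1, h2.trans hR⟩
  have hW : K.lines E ⊆ K.lines BR := by
    refine XFAN.lines_mono K ?_
    intro n hn
    obtain ⟨h1, h2⟩ := mem_filter.1 hn
    exact mem_filter.2 ⟨h1, h2.2⟩
  have hBN : ∀ n ∈ Bρ, n < K.N := fun n hn => by
    have := mem_Ico.1 (mem_filter.1 hn).1
    omega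
  have hEN : ∀ n ∈ E, n < K.N := fun n hn => by
    have := mem_Ico.1 (mem_filter.1 hn).1
    omega
  have hBt : ∀ n ∈ Bρ, |K.t n - e| ≤ ρ := fun n hn => (mem_filter.1 hn).2
  rcases hside with hside | hside
  · refine XFAN.side_bound hDeyI hLeq K hinj (K.lines BR) (K.lines Bρ) (fun i => - K.x i) E hEN
      ?_ hW hF ?_ ?_
    · intro n hn n' hn' k h1 h2
      obtain ⟨hn1, hn2, hn3⟩ := mem_filter.1 hn
      obtain ⟨hn1', hn2', hn3'⟩ := mem_filter.1 hn'
      rw [mem_Ico] at hn1 hn1'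
      have g1 := XFAN.t_mono K h1 (by omega)
      have g2 := XFAN.t_mono K h2 (by omega)
      have s1 := hside n hn1.1 hn1.2
      have s2 := hside n' hn1'.1 hn1'.2
      rw [abs_of_nonpos (by linarith)] at hn2 hn3 hn2' hn3'
      refine mem_filter.2 ⟨mem_Ico.2 ⟨by omega, by omega⟩, ?_⟩
      rw [abs_of_nonpos (by linarith)]
      constructor <;> linarith
    · intro i i' h
      exact hinj (by linarith [h])
    · intro n hn i hi i' hi' hv
      obtain ⟨hn1, hn2, hn3⟩ := mem_filter.1 hn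
      rw [mem_Ico] at hn1
      have s1 := hside n hn1.1 hn1.2
      rw [abs_of_nonpos (by linarith)] at hn2
      have hx : K.x i < K.x i' := by linarith
      have h1 := XFAN.gap K hsep hx
      have h2 := close hLip hLeq K Bρ hBN hBt hi hi'
      rw [abs_le] at h2
      have e1 : K.ht i (K.t n) - K.ht i' (K.t n) = (K.ht i e - K.ht i' e) +
          (K.x i' - K.x i) * (e - K.t n) := by
        unfold KSys.ht
        ring
      have h3 : 3 * ρ < (K.x i' - K.x i) * (e - K.t n) := by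
        have h4 : 4 * m * ρ < e - K.t n := by linarith
        have h5 : (K.x i' - K.x i) * (4 * m * ρ) < (K.x i' - K.x i) * (e - K.t n) :=
          mul_lt_mul_of_pos_left h4 (by linarith)
        nlinarith
      linarith [h2.1]
  · refine XFAN.side_bound hDeyI hLeq K hinj (K.lines BR) (K.lines Bρ) (fun i => K.x i) E hEN
      ?_ hW hF ?_ ?_
    · intro n hn n' hn' k h1 h2
      obtain ⟨hn1, hn2, hn3⟩ := mem_filter.1 hn
      obtain ⟨hn1', hn2', hn3'⟩ := mem_filter.1 hn'
      rw [mem_Ico] at hn1 hn1'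
      have g1 := XFAN.t_mono K h1 (by omega)
      have g2 := XFAN.t_mono K h2 (by omega)
      have s1 := hside n hn1.1 hn1.2
      have s2 := hside n' hn1'.1 hn1'.2
      rw [abs_of_nonneg (by linarith)] at hn2 hn3 hn2' hn3'
      refine mem_filter.2 ⟨mem_Ico.2 ⟨by omega, by omega⟩, ?_⟩
      rw [abs_of_nonneg (by linarith)]
      constructor <;> linarith
    · intro i i' h
      exact hinj h
    · intro n hn i hi i' hi' hv
      obtain ⟨hn1, hn2, hn3⟩ := mem_filter.1 hn
      rw [mem_Ico] at hn1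
      have s1 := hside n hn1.1 hn1.2
      rw [abs_of_nonneg (by linarith)] at hn2
      have hx : K.x i' < K.x i := hv
      have h1 := XFAN.gap K hsep hx
      have h2 := close hLip hLeq K Bρ hBN hBt hi hi'
      rw [abs_le] at h2
      have e1 : K.ht i (K.t n) - K.ht i' (K.t n) = (K.ht i e - K.ht i' e) +
          (K.x i - K.x i') * (K.t n - e) := by
        unfold KSys.ht
        ring
      have h3 : 3 * ρ < (K.x i - K.x i') * (K.t n - e) := by
        have h4 : 4 * m * ρ < K.t n - e := by linarith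
        have h5 : (K.x i - K.x i') * (4 * m * ρ) < (K.x i - K.x i') * (K.t n - e) :=
          mul_lt_mul_of_pos_left h4 (by linarith)
        nlinarith
      linarith [h2.1]

end Pool.Agent.Work.MP_e17eac_co.PS
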