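import Pool.Agent.Work.MP_e17eac_co.PS.SP

/-!
# Block SP, item Gs: multipliers from bounded sums are good at large scales
-/

set_option autoImplicit false

namespace Pool.Agent.Work.MP_e17eac_co.PS

open Finset
open scoped Pointwise

namespace XGs

theorem card_sub_single (A : Finset ℤ) (z : ℤ) : (A - {z}).card = A.card := by
  rw [Finset.sub_singleton]
  exact Finset.card_image_of_injective _ sub_left_injective

/-- Plünnecke-Ruzsa in real form -/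
theorem plu (Z B : Finset ℤ) (K₁ : ℝ) (hZ : Z.Nonempty)
    (h : ((Z - B).card : ℝ) ≤ K₁ * Z.card) (n m : ℕ) :
    ((n • B - m • B).card : ℝ) ≤ K₁ ^ (n + m) * Z.card := by
  have h1 := Finset.pluennecke_ruzsa_inequality_nsmul_sub_nsmul_sub hZ B n m
  have h2 : ((n • B - m • B).card : ℝ) ≤ (((Z - B).card : ℝ) / (Z.card : ℝ)) ^ (n + m) * Z.card := by
    have h3 : (((n • B - m • B).card : ℚ≥0) : ℝ) ≤
        ((((Z - B).card : ℚ≥0) / (Z.card : ℚ≥0)) ^ (n + m) * (Z.card : ℚ≥0) : ℚ≥0) :=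
      NNRat.cast_le.2 h1
    push_cast at h3
    exact h3
  have hZ0 : (0 : ℝ) < Z.card := by exact_mod_cast hZ.card_pos
  have h4 : ((Z - B).card : ℝ) / (Z.card : ℝ) ≤ K₁ := by
    rw [div_le_iff₀ hZ0]
    exact h
  calc _ ≤ _ := h2
    _ ≤ K₁ ^ (n + m) * Z.card := by
        refine mul_le_mul_of_nonneg_right ?_ hZ0.le
        exact pow_le_pow_left₀ (by positivity) h4 _

/-- the heaviest cell -/
theorem cell (hFl : StFl) (Z : Finset ℤ) (q : ℝ) (hq : 1 ≤ q) (hZ : Z.Nonempty) :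
    ∃ ZI ⊆ Z, ZI.Nonempty ∧ (∀ z ∈ ZI, ∀ z' ∈ ZI, |(z : ℝ) - (z' : ℝ)| ≤ q) ∧
      (Z.card : ℝ) ≤ (ZI.card : ℝ) * ((sc q Z).card : ℝ) := by
  classical
  have hq0 : 0 < q := by linarith
  set g : ℤ → ℤ := fun z => ⌊(z : ℝ) / q⌋ with hg
  have hne : (Z.image g).Nonempty := hZ.image g
  obtain ⟨k, hk, hmax⟩ := Finset.exists_max_image (Z.image g)
    (fun k => (Z.filter fun z => g z = k).card) hne
  refine ⟨Z.filter fun z => g z = k, filter_subset _ _, ?_, ?_, ?_⟩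
  · obtain ⟨z, hz, hzk⟩ := mem_image.1 hk
    exact ⟨z, mem_filter.2 ⟨hz, hzk⟩⟩
  · intro z hz z' hz'
    have h1 : ⌊(z : ℝ) / q⌋ = ⌊(z' : ℝ) / q⌋ :=
      (mem_filter.1 hz).2.trans (mem_filter.1 hz').2.symm
    have h2 := Int.abs_sub_lt_one_of_floor_eq_floor h1
    rw [← sub_div, abs_div, abs_of_pos hq0, div_lt_one hq0] at h2
    exact h2.le
  · refine hFl.2.2.2.2 q _ Z hq (Nat.cast_nonneg _) fun k' => ?_
    by_cases hk' : k' ∈ Z.image g
    · exact_mod_cast hmax k' hk'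
    · have : (Z.filter fun z : ℤ => ⌊(z : ℝ) / q⌋ = k') = ∅ := by
        rw [filter_eq_empty_iff]
        intro z hz h
        exact hk' (mem_image.2 ⟨z, hz, h⟩)
      rw [this]
      simp

/-- the rounded values of `d z - d v z'` -/
noncomputable def YY (d v : ℝ) (Z : Finset ℤ) : Finset ℤ :=
  (Z ×ˢ Z).image fun p : ℤ × ℤ => ⌊d * (p.1 : ℝ) - d * v * (p.2 : ℝ)⌋

/-- the sumset `Y + Z + Z` is small -/
theorem sumY (hErr : StErr) (Z B : Finset ℤ) (K₁ d v : ℝ) (n m e : ℕ) (hZ : Z.Nonempty)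
    (hZB : Z ⊆ B) (h : ((Z - B).card : ℝ) ≤ K₁ * Z.card)
    (hw : ∀ z ∈ Z, ∀ z' ∈ Z, ∃ w ∈ n • B - m • B,
      |d * (z : ℝ) - d * v * (z' : ℝ) - (w : ℝ)| ≤ e) :
    ((YY d v Z + Z + Z).card : ℝ) ≤ (2 * e + 1) * (K₁ ^ (n + m + 2) * Z.card) := by
  have h1 : (YY d v Z + Z + Z).card ≤ (2 * e + 1) * ((n + 2) • B - m • B).card := by
    refine hErr _ _ e fun x hx => ?_
    obtain ⟨s, hs, z₂, hz₂, rfl⟩ := mem_add.1 hx
    obtain ⟨y, hy, z₁, hz₁, rfl⟩ := mem_add.1 hs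
    obtain ⟨⟨z, z'⟩, hp, rfl⟩ := mem_image.1 hy
    obtain ⟨hz, hz'⟩ := mem_product.1 hp
    obtain ⟨w, hwm, hwe⟩ := hw z hz z' hz'
    obtain ⟨u, hu, u', hu', rfl⟩ := mem_sub.1 hwm
    refine ⟨(u + z₁ + z₂) - u', ?_, ?_⟩
    · refine sub_mem_sub ?_ hu'
      rw [show n + 2 = n + 1 + 1 by rfl, succ_nsmul, succ_nsmul]
      exact add_mem_add (add_mem_add hu (hZB hz₁)) (hZB hz₂)
    · simp only
      have e1 : ⌊d * (z : ℝ) - d * v * (z' : ℝ)⌋ + z₁ + z₂ - (u + z₁ + z₂ - u') =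
        ⌊d * (z : ℝ) - d * v * (z' : ℝ)⌋ - (u - u') := by ring
      rw [e1]
      have e2 := Int.floor_le (d * (z : ℝ) - d * v * (z' : ℝ))
      have e3 := Int.lt_floor_add_one (d * (z : ℝ) - d * v * (z' : ℝ))
      rw [abs_le] at hwe
      rw [abs_le]
      constructor
      · have : (-(e : ℤ) - 1 : ℤ) < ⌊d * (z : ℝ) - d * v * (z' : ℝ)⌋ - (u - u') := by
          have h5 : ((-(e : ℤ) - 1 : ℤ) : ℝ) <
              ((⌊d * (z : ℝ) - d * v * (z' : ℝ)⌋ - (u - u') : ℤ) : ℝ) := by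
            push_cast
            push_cast at hwe
            linarith [hwe.1]
          exact_mod_cast h5
        omega
      · have h5 : ((⌊d * (z : ℝ) - d * v * (z' : ℝ)⌋ - (u - u') : ℤ) : ℝ) ≤ ((e : ℤ) : ℝ) := by
          push_cast
          push_cast at hwe
          linarith [hwe.2]
        exact_mod_cast h5
  have h2 := plu Z B K₁ hZ h (n + 2) m
  have h3 : ((YY d v Z + Z + Z).card : ℝ) ≤ (2 * e + 1) * (((n + 2) • B - m • B).card : ℝ) := by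
    exact_mod_cast h1
  calc _ ≤ _ := h3
    _ ≤ (2 * e + 1) * (K₁ ^ (n + 2 + m) * Z.card) :=
        mul_le_mul_of_nonneg_left h2 (by positivity)
    _ = _ := by rw [show n + 2 + m = n + m + 2 by ring]

/-- the large scale covering number -/
theorem sc_card_le (K R K₁ σ q : ℝ) (Z : Finset ℤ) (hZC : ZC K σ R Z) (hK₁ : 2 ≤ K₁) (hq : 1 ≤ q)
    (hqR : q ≤ R * K₁) : ((sc q Z).card : ℝ) ≤ 3 * K * K₁ * (R / q) ^ σ := by
  classical
  obtain ⟨hK, hσ, hσ', hR, hne, hrng, hlo, hhi⟩ := hZC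
  have hR0 : 0 < R := by linarith
  have hq0 : 0 < q := by linarith
  have hp : 0 < (R / q) ^ σ := Real.rpow_pos_of_pos (by positivity) _
  by_cases h : q ≤ R
  · calc ((sc q Z).card : ℝ) ≤ K * (R / q) ^ σ := hhi q hq h
      _ ≤ 3 * K * K₁ * (R / q) ^ σ := by
          refine mul_le_mul_of_nonneg_right ?_ hp.le
          nlinarith
  · push Not at h
    have h1 : (sc q Z) ⊆ Finset.Icc (-(⌊K⌋ + 1)) (⌊K⌋) := by
      intro k hk
      obtain ⟨z, hz, rfl⟩ := mem_image.1 hk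
      have h2 := hrng z hz
      rw [abs_le] at h2
      have h3 : |1 / q * (z : ℝ)| ≤ K := by
        rw [abs_mul, abs_of_pos (by positivity), one_div, inv_mul_le_iff₀ hq0]
        calc |(z : ℝ)| ≤ K * R := hrng z hz
          _ ≤ K * q := mul_le_mul_of_nonneg_left h.le (by linarith)
          _ = q * K := mul_comm _ _
      rw [abs_le] at h3
      rw [Finset.mem_Icc]
      constructor
      · rw [Int.le_floor]
        push_cast
        have := Int.lt_floor_add_one K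
        linarith [h3.1]
      · exact Int.floor_le_floor h3.2
    have h4 := card_le_card h1
    rw [Int.card_Icc] at h4
    have hK0 : (0 : ℤ) ≤ ⌊K⌋ := Int.floor_nonneg.2 (by linarith)
    have h5 : ((sc q Z).card : ℝ) ≤ 2 * K + 2 := by
      have h6 : (((⌊K⌋ + 1 - -(⌊K⌋ + 1)).toNat : ℕ) : ℤ) = 2 * ⌊K⌋ + 2 := by omega
      have h7 : (((⌊K⌋ + 1 - -(⌊K⌋ + 1)).toNat : ℕ) : ℝ) = 2 * (⌊K⌋ : ℝ) + 2 := by
        exact_mod_cast congrArg (Int.cast : ℤ → ℝ) h6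
      have h8 : ((sc q Z).card : ℝ) ≤ (((⌊K⌋ + 1 - -(⌊K⌋ + 1)).toNat : ℕ) : ℝ) := by
        exact_mod_cast h4
      have h9 := Int.floor_le K
      linarith
    have h10 : 1 ≤ K₁ * (R / q) ^ σ := by
      have h11 : 1 / K₁ ≤ R / q := by
        rw [div_le_div_iff₀ (by linarith) hq0]
        linarith
      have h12 : 1 / K₁ ≤ (1 / K₁) ^ σ := by
        calc 1 / K₁ = (1 / K₁) ^ (1 : ℝ) := (Real.rpow_one _).symm
          _ ≤ (1 / K₁) ^ σ := Real.rpow_le_rpow_of_exponent_ge (by positivity)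
              (by rw [div_le_one (by linarith)]; linarith) (by linarith)
      have h13 : (1 / K₁) ^ σ ≤ (R / q) ^ σ :=
        Real.rpow_le_rpow (by positivity) h11 hσ.le
      calc (1 : ℝ) = K₁ * (1 / K₁) := by field_simp
        _ ≤ K₁ * (R / q) ^ σ := mul_le_mul_of_nonneg_left (h12.trans h13) (by linarith)
    calc ((sc q Z).card : ℝ) ≤ 2 * K + 2 := h5
      _ ≤ 3 * K * 1 := by linarith
      _ ≤ 3 * K * (K₁ * (R / q) ^ σ) := mul_le_mul_of_nonneg_left h10 (by linarith)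
      _ = _ := by ring

/-- lower bound for the covering number at the scale `θ R` -/
theorem sc_card_ge (K R σ θ : ℝ) (Z : Finset ℤ) (hZC : ZC K σ R Z) (hθ : 0 < θ)
    (hq : 1 ≤ θ * R) : (1 / θ) ^ σ ≤ K * ((sc (θ * R) Z).card : ℝ) := by
  obtain ⟨hK, hσ, hσ', hR, hne, hrng, hlo, hhi⟩ := hZC
  have hR0 : 0 < R := by linarith
  by_cases h : θ * R ≤ R
  · have h1 := hlo (θ * R) hq h
    have h2 : R / (θ * R) = 1 / θ := by field_simp
    rwa [h2] at h1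
  · push Not at h
    have h1 : 1 < θ := by
      by_contra hcon
      push Not at hcon
      have : θ * R ≤ 1 * R := mul_le_mul_of_nonneg_right hcon hR0.le
      linarith
    have h2 : (1 / θ) ^ σ ≤ 1 :=
      Real.rpow_le_one (by positivity) (by rw [div_le_one hθ]; exact h1.le) hσ.le
    have h3 : 1 ≤ (sc (θ * R) Z).card := (hne.image _).card_pos
    have h4 : (1 : ℝ) ≤ ((sc (θ * R) Z).card : ℝ) := by exact_mod_cast h3
    nlinarith

end XGs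

open XGs in
theorem I_Gs (hErr : StErr) (hLoc : StLoc) (hFl : StFl) : StGs := by
  classical
  intro Z B K σ R K₁ d v q n m e hZC hZB hK₁ hZBc hd hdK hv hq hqR hqd hw
  have hZC' := hZC
  obtain ⟨hK, hσ, hσ', hR, hne, hrng, hlo, hhi⟩ := hZC'
  have hK0 : 0 < K := by linarith
  have hK₁0 : 0 < K₁ := by linarith
  have hR0 : 0 < R := by linarith
  have hq0 : 0 < q := by linarith
  set Y := YY d v Z with hY
  set q₁ := q * d with hq₁
  have hq₁0 : 0 < q₁ := by linarith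
  have hdR : 1 ≤ d * R := by
    have : q * d ≤ R * d := mul_le_mul_of_nonneg_right hqR hd.le
    linarith
  -- step 1
  have hS := sumY hErr Z B K₁ d v n m e hne hZB hZBc hw
  rw [← hY] at hS
  -- step 2
  obtain ⟨ZI, hZI, ⟨z₀, hz₀⟩, hclose, hcell⟩ := cell hFl Z q₁ hqd hne
  set Y₁ := ZI - {z₀} with hY₁
  have hY₁card : Y₁.card = ZI.card := by
    rw [hY₁, card_sub_single]
  have hY₁b : ∀ y ∈ Y₁, |(y : ℝ)| ≤ q₁ := by
    intro y hy
    obtain ⟨z, hz, w, hw', rfl⟩ := mem_sub.1 hy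
    rw [mem_singleton] at hw'
    subst hw'
    push_cast
    exact hclose z hz _ hz₀
  have hL1 := hLoc Y₁ Y q₁ hqd hY₁b
  rw [hY₁card] at hL1
  -- step 3
  set θ : ℝ := 2 * K * K₁ * d with hθ
  have hθ0 : 0 < θ := by positivity
  have hKK : K * (1 + K₁) + 2 ≤ 2 * K * K₁ := by nlinarith
  have hθR : 1 ≤ θ * R := by
    have : θ * R = 2 * K * K₁ * (d * R) := by rw [hθ]; ring
    rw [this]
    have h1 : 1 ≤ 2 * K * K₁ := by nlinarith
    nlinarith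
  have hYb : ∀ y ∈ Y, |(y : ℝ)| ≤ d * (K * R) + d * K₁ * (K * R) + 1 := by
    intro y hy
    obtain ⟨⟨z, z'⟩, hp, rfl⟩ := mem_image.1 hy
    obtain ⟨hz, hz'⟩ := mem_product.1 hp
    have a1 := hrng z hz
    have a2 := hrng z' hz'
    have b1 : |d * (z : ℝ)| ≤ d * (K * R) := by
      rw [abs_mul, abs_of_pos hd]
      exact mul_le_mul_of_nonneg_left a1 hd.le
    have b2 : |d * v * (z' : ℝ)| ≤ d * K₁ * (K * R) := by
      rw [abs_mul, abs_mul, abs_of_pos hd]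
      exact mul_le_mul (mul_le_mul_of_nonneg_left hv hd.le) a2 (abs_nonneg _) (by positivity)
    have b3 := abs_sub (d * (z : ℝ)) (d * v * (z' : ℝ))
    have e2 := Int.floor_le (d * (z : ℝ) - d * v * (z' : ℝ))
    have e3 := Int.lt_floor_add_one (d * (z : ℝ) - d * v * (z' : ℝ))
    have b4 : |d * (z : ℝ) - d * v * (z' : ℝ)| ≤ d * (K * R) + d * K₁ * (K * R) := by linarith
    rw [abs_le] at b4
    simp only
    rw [abs_le]
    constructor
    · linarith [b4.1]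
    · linarith [b4.2]
  have hWb : ∀ y ∈ Y₁ + Y, |(y : ℝ)| ≤ θ * R := by
    intro y hy
    obtain ⟨y₁, hy₁, y₂, hy₂, rfl⟩ := mem_add.1 hy
    have a1 := hY₁b y₁ hy₁
    have a2 := hYb y₂ hy₂
    push_cast
    have a3 := abs_add_le (y₁ : ℝ) (y₂ : ℝ)
    have a4 : q₁ ≤ d * R := by
      rw [hq₁, mul_comm q d]
      exact mul_le_mul_of_nonneg_left hqR hd.le
    have a5 : (K * (1 + K₁) + 2) * (d * R) ≤ (2 * K * K₁) * (d * R) :=
      mul_le_mul_of_nonneg_right hKK (by positivity)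
    have a6 : θ * R = (2 * K * K₁) * (d * R) := by rw [hθ]; ring
    rw [a6]
    nlinarith
  have hL2 := hLoc (Y₁ + Y) Z (θ * R) hθR hWb
  -- the triple sum
  have hT : (Y₁ + Y + Z).card ≤ (Y + Z + Z).card := by
    have h1 : Y₁ + Y + Z ⊆ (Y + Z + Z) - {z₀} := by
      intro x hx
      obtain ⟨s, hs, z₂, hz₂, rfl⟩ := mem_add.1 hx
      obtain ⟨y₁, hy₁, y₂, hy₂, rfl⟩ := mem_add.1 hs
      obtain ⟨z, hz, w, hw', rfl⟩ := mem_sub.1 hy₁
      have h2 : z - w + y₂ + z₂ = (y₂ + z + z₂) - w := by ring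
      rw [h2]
      exact sub_mem_sub (add_mem_add (add_mem_add hy₂ (hZI hz)) hz₂) hw'
    calc _ ≤ _ := card_le_card h1
      _ = _ := card_sub_single _ _
  -- steps 4, 5
  have h4 := sc_card_ge K R σ θ Z hZC hθ0 hθR
  have hq₁R : q₁ ≤ R * K₁ := by
    rw [hq₁]
    exact mul_le_mul hqR hdK hd.le hR0.le
  have h5 := sc_card_le K R K₁ σ q₁ Z hZC hK₁ hqd hq₁R
  -- step 6
  have hZ0 : (0 : ℝ) < Z.card := by exact_mod_cast hne.card_pos
  have hL1' : (ZI.card : ℝ) * ((sc q₁ Y).card : ℝ) ≤ 3 * ((Y₁ + Y).card : ℝ) := by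
    exact_mod_cast hL1
  have hL2' : ((Y₁ + Y).card : ℝ) * ((sc (θ * R) Z).card : ℝ) ≤ 3 * ((Y + Z + Z).card : ℝ) := by
    have : (Y₁ + Y).card * (sc (θ * R) Z).card ≤ 3 * (Y + Z + Z).card := by omega
    exact_mod_cast this
  have hθp : 0 < (1 / θ) ^ σ := Real.rpow_pos_of_pos (by positivity) _
  have hθσ : (1 / θ) ^ σ * θ ^ σ = 1 := by
    rw [← Real.mul_rpow (by positivity) hθ0.le, one_div, inv_mul_cancel₀ hθ0.ne', Real.one_rpow]
  have hW : ((Y₁ + Y).card : ℝ) ≤ 3 * K * θ ^ σ * ((2 * e + 1) * (K₁ ^ (n + m + 2) * Z.card)) := by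
    have hθσ0 : 0 < θ ^ σ := Real.rpow_pos_of_pos hθ0 _
    calc ((Y₁ + Y).card : ℝ) = ((Y₁ + Y).card : ℝ) * ((1 / θ) ^ σ * θ ^ σ) := by
          rw [hθσ, mul_one]
      _ = ((Y₁ + Y).card : ℝ) * (1 / θ) ^ σ * θ ^ σ := by ring
      _ ≤ ((Y₁ + Y).card : ℝ) * (K * ((sc (θ * R) Z).card : ℝ)) * θ ^ σ := by gcongr
      _ = K * θ ^ σ * (((Y₁ + Y).card : ℝ) * ((sc (θ * R) Z).card : ℝ)) := by ring
      _ ≤ K * θ ^ σ * (3 * ((Y + Z + Z).card : ℝ)) := by gcongr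
      _ ≤ K * θ ^ σ * (3 * ((2 * e + 1) * (K₁ ^ (n + m + 2) * Z.card))) := by gcongr
      _ = _ := by ring
  have hscY : ((sc q₁ Y).card : ℝ) ≤
      9 * K * θ ^ σ * ((2 * e + 1) * K₁ ^ (n + m + 2)) * (3 * K * K₁ * (R / q₁) ^ σ) := by
    have h1 : (Z.card : ℝ) * ((sc q₁ Y).card : ℝ) ≤ (Z.card : ℝ) *
        (9 * K * θ ^ σ * ((2 * e + 1) * K₁ ^ (n + m + 2)) * (3 * K * K₁ * (R / q₁) ^ σ)) := by
      calc (Z.card : ℝ) * ((sc q₁ Y).card : ℝ)
          ≤ ((ZI.card : ℝ) * ((sc q₁ Z).card : ℝ)) * ((sc q₁ Y).card : ℝ) := by gcongr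
        _ = ((sc q₁ Z).card : ℝ) * ((ZI.card : ℝ) * ((sc q₁ Y).card : ℝ)) := by ring
        _ ≤ ((sc q₁ Z).card : ℝ) * (3 * ((Y₁ + Y).card : ℝ)) := by gcongr
        _ ≤ (3 * K * K₁ * (R / q₁) ^ σ) *
            (3 * (3 * K * θ ^ σ * ((2 * e + 1) * (K₁ ^ (n + m + 2) * Z.card)))) := by
            gcongr
        _ = _ := by ring
    exact le_of_mul_le_mul_left h1 hZ0
  have hpow : θ ^ σ * (R / q₁) ^ σ ≤ K * K₁ * (K * ((sc q Z).card : ℝ)) := by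
    have h1 : θ * (R / q₁) = (2 * K * K₁) * (R / q) := by
      rw [hθ, hq₁]
      field_simp
    rw [← Real.mul_rpow hθ0.le (by positivity), h1, Real.mul_rpow (by positivity) (by positivity)]
    have h2 : (2 * K * K₁) ^ σ ≤ K * K₁ := by
      have h3 : (1 : ℝ) ≤ 2 * K * K₁ := by nlinarith
      calc (2 * K * K₁) ^ σ ≤ (2 * K * K₁) ^ (1 / 2 : ℝ) :=
            Real.rpow_le_rpow_of_exponent_le h3 hσ'
        _ ≤ ((K * K₁) ^ (2 : ℝ)) ^ (1 / 2 : ℝ) := by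
            refine Real.rpow_le_rpow (by positivity) ?_ (by norm_num)
            rw [Real.rpow_two]
            have : 2 ≤ K * K₁ := by nlinarith
            nlinarith [mul_pos hK0 hK₁0]
        _ = K * K₁ := by
            rw [← Real.rpow_mul (by positivity)]
            norm_num
    have h4 := hlo q hq hqR
    exact mul_le_mul h2 h4 (by positivity) (by positivity)
  have hscY' : ((sc q₁ Y).card : ℝ) ≤
      27 * (2 * e + 1) * K₁ ^ (n + m + 4) * K ^ 4 * ((sc q Z).card : ℝ) := by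
    calc ((sc q₁ Y).card : ℝ) ≤ _ := hscY
      _ = 27 * K ^ 2 * (2 * e + 1) * K₁ ^ (n + m + 3) * (θ ^ σ * (R / q₁) ^ σ) := by ring
      _ ≤ 27 * K ^ 2 * (2 * e + 1) * K₁ ^ (n + m + 3) * (K * K₁ * (K * ((sc q Z).card : ℝ))) := by
          gcongr
      _ = _ := by ring
  -- step 7
  have h7 : (sc q Z - fl v (sc q Z)).card ≤ (2 * ⌊K₁ + 4⌋₊ + 1) * (sc q₁ Y).card := by
    refine hErr _ _ _ fun x hx => ?_
    obtain ⟨a, ha, b, hb, rfl⟩ := mem_sub.1 hx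
    obtain ⟨z, hz, rfl⟩ := mem_image.1 ha
    obtain ⟨b', hb', rfl⟩ := mem_image.1 hb
    obtain ⟨z', hz', rfl⟩ := mem_image.1 hb'
    refine ⟨⌊1 / q₁ * ((⌊d * (z : ℝ) - d * v * (z' : ℝ)⌋ : ℤ) : ℝ)⌋,
      mem_image.2 ⟨_, mem_image.2 ⟨(z, z'), mem_product.2 ⟨hz, hz'⟩, rfl⟩, rfl⟩, ?_⟩
    set y : ℤ := ⌊d * (z : ℝ) - d * v * (z' : ℝ)⌋ with hy
    have c1 := Int.floor_le (1 / q * (z : ℝ))
    have c2 := Int.lt_floor_add_one (1 / q * (z : ℝ))
    have c3 := Int.floor_le (1 / q * (z' : ℝ))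
    have c4 := Int.lt_floor_add_one (1 / q * (z' : ℝ))
    have c5 := Int.floor_le (v * ((⌊1 / q * (z' : ℝ)⌋ : ℤ) : ℝ))
    have c6 := Int.lt_floor_add_one (v * ((⌊1 / q * (z' : ℝ)⌋ : ℤ) : ℝ))
    have c7 := Int.floor_le (1 / q₁ * (y : ℝ))
    have c8 := Int.lt_floor_add_one (1 / q₁ * (y : ℝ))
    have c9 := Int.floor_le (d * (z : ℝ) - d * v * (z' : ℝ))
    have c10 := Int.lt_floor_add_one (d * (z : ℝ) - d * v * (z' : ℝ))
    rw [← hy] at c9 c10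
    -- the rounding of the multiple
    have d1 : |v * ((⌊1 / q * (z' : ℝ)⌋ : ℤ) : ℝ) - v * (1 / q * (z' : ℝ))| ≤ K₁ := by
      rw [← mul_sub, abs_mul]
      have : |((⌊1 / q * (z' : ℝ)⌋ : ℤ) : ℝ) - 1 / q * (z' : ℝ)| ≤ 1 := by
        rw [abs_le]
        constructor <;> linarith
      calc |v| * |((⌊1 / q * (z' : ℝ)⌋ : ℤ) : ℝ) - 1 / q * (z' : ℝ)| ≤ K₁ * 1 :=
            mul_le_mul hv this (abs_nonneg _) hK₁0.le
        _ = K₁ := mul_one _
    have d2 : |1 / q₁ * (y : ℝ) - (1 / q * (z : ℝ) - v * (1 / q * (z' : ℝ)))| ≤ 1 := by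
      have e1 : 1 / q * (z : ℝ) - v * (1 / q * (z' : ℝ)) =
          1 / q₁ * (d * (z : ℝ) - d * v * (z' : ℝ)) := by
        rw [hq₁]
        field_simp
      rw [e1, ← mul_sub, abs_mul, abs_of_pos (by positivity)]
      have e2 : |(y : ℝ) - (d * (z : ℝ) - d * v * (z' : ℝ))| ≤ 1 := by
        rw [abs_le]
        constructor <;> linarith
      have e3 : 1 / q₁ ≤ 1 := by
        rw [div_le_one hq₁0]
        exact hqd
      calc 1 / q₁ * |(y : ℝ) - (d * (z : ℝ) - d * v * (z' : ℝ))| ≤ 1 * 1 :=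
            mul_le_mul e3 e2 (abs_nonneg _) (by norm_num)
        _ = 1 := mul_one _
    rw [abs_le] at d1 d2
    have d3 : |((⌊1 / q * (z : ℝ)⌋ - ⌊v * ((⌊1 / q * (z' : ℝ)⌋ : ℤ) : ℝ)⌋ -
        ⌊1 / q₁ * (y : ℝ)⌋ : ℤ) : ℝ)| ≤ K₁ + 4 := by
      push_cast
      rw [abs_le]
      constructor
      · linarith [d1.1, d1.2, d2.1, d2.2]
      · linarith [d1.1, d1.2, d2.1, d2.2]
    have d4 : |⌊1 / q * (z : ℝ)⌋ - ⌊v * ((⌊1 / q * (z' : ℝ)⌋ : ℤ) : ℝ)⌋ -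
        ⌊1 / q₁ * (y : ℝ)⌋| ≤ ⌊K₁ + 4⌋ := by
      rw [Int.le_floor]
      push_cast
      push_cast at d3
      exact d3
    have d5 : ((⌊K₁ + 4⌋₊ : ℕ) : ℤ) = ⌊K₁ + 4⌋ := Int.natCast_floor_eq_floor (by linarith)
    rw [d5]
    exact d4
  have h8 : ((sc q Z - fl v (sc q Z)).card : ℝ) ≤ (7 * K₁) * ((sc q₁ Y).card : ℝ) := by
    have h9 : ((sc q Z - fl v (sc q Z)).card : ℝ) ≤
        (2 * (⌊K₁ + 4⌋₊ : ℝ) + 1) * ((sc q₁ Y).card : ℝ) := by exact_mod_cast h7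
    have h10 : (⌊K₁ + 4⌋₊ : ℝ) ≤ K₁ + 4 := Nat.floor_le (by linarith)
    calc _ ≤ _ := h9
      _ ≤ (7 * K₁) * ((sc q₁ Y).card : ℝ) := by
          refine mul_le_mul_of_nonneg_right ?_ (Nat.cast_nonneg _)
          linarith
  calc ((sc q Z - fl v (sc q Z)).card : ℝ) ≤ (7 * K₁) * ((sc q₁ Y).card : ℝ) := h8
    _ ≤ (7 * K₁) * (27 * (2 * e + 1) * K₁ ^ (n + m + 4) * K ^ 4 * ((sc q Z).card : ℝ)) := by
        gcongr
    _ = 189 * (2 * e + 1) * K₁ ^ (n + m + 5) * K ^ 4 * ((sc q Z).card : ℝ) := by ring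
    _ ≤ 400 * (2 * e + 3) * K₁ ^ (n + m + 5) * K ^ 4 * ((sc q Z).card : ℝ) := by
        gcongr
        · norm_num
        · norm_num

end Pool.Agent.Work.MP_e17eac_co.PS
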