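import Pool.Agent.Work.MP_e17eac_co.PS.Lg

/-!
# Item Lo: tokens with large displacement leave their slots
-/

namespace Pool.Agent.Work.MP_e17eac_co.PS

open Finset
open Pool.Agent.Work.MP_e17eac_co.DH

namespace XLo

variable {ι : Type} [Fintype ι] [DecidableEq ι]

/-- Three cells of one token with the same slot contradict a large displacement. -/
theorem key (hTok : StTok) (hMono : StMono) (hIdx : StIdx) (X : RS ι) (h : X.OK) {j i0 : ℕ}
    (hj : j ≤ X.J) (hD : 1 < X.D false j * (X.Q : ℝ) ^ i0) {n1 n2 n3 : ℕ} (h1 : n1 ∈ X.E)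
    (h2 : n2 ∈ X.E) (h3 : n3 ∈ X.E) (t2 : X.K.tokB n2 = X.K.tokB n1)
    (t3 : X.K.tokB n3 = X.K.tokB n1) (hs : X.slot i0 n3 = X.slot i0 n1)
    (c12 : X.cl j n1 < X.cl j n2) (c23 : X.cl j n2 < X.cl j n3) : False := by
  have h0 := h.toOK0
  have hQ := h0.Q_pos
  have hQj : (0 : ℝ) < (X.Q : ℝ) ^ j := h0.Qpow_pos j
  have hQi : (0 : ℝ) < (X.Q : ℝ) ^ i0 := h0.Qpow_pos i0
  obtain ⟨s1a, s1b, s1c⟩ := h0.sub n1 h1
  obtain ⟨s2a, s2b, s2c⟩ := h0.sub n2 h2
  obtain ⟨s3a, s3b, s3c⟩ := h0.sub n3 h3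
  obtain ⟨_, i2, i3, i4⟩ := hIdx ι X.K
  obtain ⟨k1, _, k2, _⟩ := hTok ι X.K n1 s1a
  obtain ⟨_, _, k3, _⟩ := hTok ι X.K n3 s3a
  rw [t3] at k3
  set τ := X.K.tokB n1 with hτ
  set c := X.cl j n2 with hc
  set p := X.K.ci X.Q j c with hp
  set q := X.K.ci X.Q j (c + 1) with hq
  have e1 : n1 < p := by
    rw [hp]
    unfold KSys.ci
    rw [i2]
    refine ⟨s1a, ?_⟩
    rw [lt_div_iff₀ hQj]
    have : ⌊X.K.t n1 * (X.Q : ℝ) ^ j⌋₊ < c := c12
    exact (Nat.floor_lt (by positivity)).1 this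
  have e3 : q ≤ n3 := by
    rw [hq]
    unfold KSys.ci
    by_contra hcon
    rw [not_le, i2] at hcon
    have h4 := hcon.2
    rw [lt_div_iff₀ hQj] at h4
    have h5 : c + 1 ≤ ⌊X.K.t n3 * (X.Q : ℝ) ^ j⌋₊ := c23
    have h6 := (Nat.le_floor_iff (by positivity)).1 h5
    linarith
  have e2 : p ≤ q := by
    rw [hp, hq]
    unfold KSys.ci
    apply i3
    apply div_le_div_of_nonneg_right _ hQj.le
    push_cast
    linarith
  have m1 := (hMono ι X.K n1 p e1.le (i4 _)).1 τ k1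
  have m2 := (hMono ι X.K p q e2 (i4 _)).1 τ k1
  have m3 := (hMono ι X.K q n3 e3 s3a.le).1 τ k1
  rw [k2] at m1
  rw [k3] at m3
  have d1 := h0.dlo false j hj n2 h2
  have d2 : X.K.disp X.Q j (X.cl j n2) (X.K.tok false n2) =
      |X.K.x (X.K.pos p τ) - X.K.x (X.K.pos q τ)| := by
    unfold KSys.disp
    show |X.K.x (X.K.pos p (X.K.tokB n2)) - X.K.x (X.K.pos q (X.K.tokB n2))| = _
    rw [t2]
  rw [d2, abs_of_nonneg (by linarith)] at d1
  have d3 : X.D false j ≤ X.K.x (X.K.a n1) - X.K.x (X.K.a n3) := by linarith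
  have d4 : X.D false j * (X.Q : ℝ) ^ i0 ≤
      (X.K.x (X.K.a n1) - X.K.x (X.K.a n3)) * (X.Q : ℝ) ^ i0 :=
    mul_le_mul_of_nonneg_right d3 hQi.le
  have hs' : ⌊X.K.x (X.K.a n3) * (X.Q : ℝ) ^ i0⌋ = ⌊X.K.x (X.K.a n1) * (X.Q : ℝ) ^ i0⌋ := hs
  have f1 := Int.floor_le (X.K.x (X.K.a n3) * (X.Q : ℝ) ^ i0)
  have f2 := Int.lt_floor_add_one (X.K.x (X.K.a n1) * (X.Q : ℝ) ^ i0)
  rw [hs'] at f1
  linarith

/-- The same for any three different cells. -/
theorem key' (hTok : StTok) (hMono : StMono) (hIdx : StIdx) (X : RS ι) (h : X.OK) {j i0 : ℕ}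
    (hj : j ≤ X.J) (hD : 1 < X.D false j * (X.Q : ℝ) ^ i0) {n1 n2 n3 : ℕ} (h1 : n1 ∈ X.E)
    (h2 : n2 ∈ X.E) (h3 : n3 ∈ X.E) (t2 : X.K.tokB n1 = X.K.tokB n2)
    (t3 : X.K.tokB n1 = X.K.tokB n3) (s2 : X.slot i0 n1 = X.slot i0 n2)
    (s3 : X.slot i0 n1 = X.slot i0 n3)
    (c12 : X.cl j n1 ≠ X.cl j n2) (c13 : X.cl j n1 ≠ X.cl j n3)
    (c23 : X.cl j n2 ≠ X.cl j n3) : False := by
  have K := @key ι _ _ hTok hMono hIdx X h j i0 hj hD
  have t23 := t2.symm.trans t3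
  have s23 := s2.symm.trans s3
  rcases lt_or_gt_of_ne c12 with a | a <;> rcases lt_or_gt_of_ne c13 with b | b <;>
    rcases lt_or_gt_of_ne c23 with c | c
  · exact K h1 h2 h3 t2.symm t3.symm s3.symm a c
  · exact K h1 h3 h2 t3.symm t2.symm s2.symm b c
  · omega
  · exact K h3 h1 h2 t3 t23 s23 b a
  · exact K h2 h1 h3 t2 t23.symm s23.symm a b
  · omega
  · exact K h2 h3 h1 t23.symm t2 s2 c b
  · exact K h3 h2 h1 t23 t3 s3 c a

/-- number of values of `(cl j, tokB)` -/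
theorem step1 (hTok : StTok) (hMono : StMono) (hIdx : StIdx) (X : RS ι) (h : X.OK) {j j0 i0 : ℕ}
    (hj : j ≤ X.J) (hD : 1 < X.D false j * (X.Q : ℝ) ^ i0) :
    im X.E (fun n => (X.cl j n, X.K.tok false n)) ≤
      2 * im X.E (fun n => (X.cl j0 n, X.K.tok false n, X.slot i0 n)) := by
  classical
  unfold im
  have hrep : ∀ v : ℕ × ι, ∃ n, v ∈ X.E.image (fun n => (X.cl j n, X.K.tok false n)) →
      n ∈ X.E ∧ (X.cl j n, X.K.tok false n) = v := by
    intro v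
    by_cases hv : v ∈ X.E.image (fun n => (X.cl j n, X.K.tok false n))
    · obtain ⟨n, hn, hn'⟩ := mem_image.1 hv
      exact ⟨n, fun _ => ⟨hn, hn'⟩⟩
    · exact ⟨0, fun h' => absurd h' hv⟩
  choose r hr using hrep
  refine card_le_mul_card_image_of_maps_to
    (f := fun v => (X.cl j0 (r v), X.K.tok false (r v), X.slot i0 (r v))) ?_ 2 ?_
  · intro v hv
    exact mem_image.2 ⟨r v, (hr v hv).1, rfl⟩
  · intro b _
    by_contra hcon
    rw [not_le, two_lt_card] at hcon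
    obtain ⟨v1, m1, v2, m2, v3, m3, n12, n13, n23⟩ := hcon
    rw [mem_filter] at m1 m2 m3
    obtain ⟨a1, b1⟩ := hr v1 m1.1
    obtain ⟨a2, b2⟩ := hr v2 m2.1
    obtain ⟨a3, b3⟩ := hr v3 m3.1
    have e12 := m1.2.trans m2.2.symm
    have e13 := m1.2.trans m3.2.symm
    simp only [Prod.mk.injEq] at e12 e13
    have key2 : ∀ {v w : ℕ × ι}, (X.cl j (r v), X.K.tok false (r v)) = v →
        (X.cl j (r w), X.K.tok false (r w)) = w → X.K.tok false (r v) = X.K.tok false (r w) →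
        v ≠ w → X.cl j (r v) ≠ X.cl j (r w) := by
      intro v w hv hw ht hne hc
      apply hne
      rw [← hv, ← hw, hc, ht]
    exact key' hTok hMono hIdx X h hj hD a1 a2 a3 e12.2.1 e13.2.1 e12.2.2 e13.2.2
      (key2 b1 b2 e12.2.1 n12) (key2 b1 b3 e13.2.1 n13)
      (key2 b2 b3 (e12.2.1.symm.trans e13.2.1) n23)

/-- number of values of `(cl j0, tokB, slot i0)` -/
theorem step2 (X : RS ι) (h : X.OK) {j0 i0 : ℕ} (hj : j0 ≤ X.J) (hi : i0 ≤ X.I) :
    (im X.E (fun n => (X.cl j0 n, X.K.tok false n, X.slot i0 n)) : ℝ) *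
      (im X.E (fun n => X.cl j0 n) : ℝ) ≤
    (im X.E (fun n => (X.cl j0 n, X.K.tok false n)) : ℝ) *
      (X.Λ ^ 2 * (im X.E (fun n => (X.cl j0 n, X.slot i0 n)) : ℝ)) := by
  classical
  have h0 := h.toOK0
  have hM : (0 : ℝ) ≤ (im X.E (fun n => X.cl j0 n) : ℝ) := Nat.cast_nonneg _
  set G := X.E.image (fun n => (X.cl j0 n, X.K.tok false n, X.slot i0 n)) with hG
  set T := X.E.image (fun n => (X.cl j0 n, X.K.tok false n)) with hT
  have hmap : ∀ v ∈ G, (v.1, v.2.1) ∈ T := by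
    intro v hv
    obtain ⟨n, hn, rfl⟩ := mem_image.1 hv
    exact mem_image.2 ⟨n, hn, rfl⟩
  have hsum := card_eq_sum_card_fiberwise (f := fun v : ℕ × ι × ℤ => (v.1, v.2.1)) (s := G)
    (t := T) hmap
  have e1 : (im X.E (fun n => (X.cl j0 n, X.K.tok false n, X.slot i0 n)) : ℝ) =
      ∑ b ∈ T, ((G.filter (fun v => (v.1, v.2.1) = b)).card : ℝ) := by
    unfold im
    rw [← hG, hsum]
    push_cast
    rfl
  rw [e1, sum_mul]
  have e2 : ∀ b ∈ T, ((G.filter (fun v => (v.1, v.2.1) = b)).card : ℝ) *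
      (im X.E (fun n => X.cl j0 n) : ℝ) ≤
      X.Λ ^ 2 * (im X.E (fun n => (X.cl j0 n, X.slot i0 n)) : ℝ) := by
    intro b hb
    obtain ⟨n, hn, rfl⟩ := mem_image.1 hb
    have h1 := (h0.cnt (fun n => X.cl j0 n) (fun n => (X.cl j0 n, X.slot i0 n)) (h0.regM j0 hj)
      (h.regS j0 i0 hj hi) (fun a _ b _ hab => (Prod.mk.inj hab).1) n hn).2
    refine le_trans (mul_le_mul_of_nonneg_right ?_ hM) h1
    have h2 : (G.filter (fun v => (v.1, v.2.1) = (X.cl j0 n, X.K.tok false n))).card ≤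
        im (X.E.filter (fun k => X.cl j0 k = X.cl j0 n)) (fun n => (X.cl j0 n, X.slot i0 n)) := by
      unfold im
      refine card_le_card_of_injOn (fun v => (v.1, v.2.2)) ?_ ?_
      · intro v hv
        rw [mem_coe, mem_filter] at hv
        obtain ⟨k, hk, rfl⟩ := mem_image.1 hv.1
        have hc := (Prod.mk.inj hv.2).1
        exact mem_coe.2 (mem_image.2 ⟨k, mem_filter.2 ⟨hk, hc⟩, rfl⟩)
      · intro v hv w hw hvw
        rw [mem_coe, mem_filter] at hv hw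
        obtain ⟨v1, v2, v3⟩ := v
        obtain ⟨w1, w2, w3⟩ := w
        simp only [Prod.mk.injEq] at hv hw hvw ⊢
        exact ⟨hvw.1, hv.2.2.trans hw.2.2.symm, hvw.2⟩
    exact_mod_cast h2
  refine le_trans (sum_le_sum e2) (le_of_eq ?_)
  rw [sum_const, nsmul_eq_mul]
  rfl

end XLo

theorem I_Lo (hTok : StTok) (hMono : StMono) (hIdx : StIdx) (hNest : StNest) : StLo := by
  intro ι _ _ X h j0 j i0 hj0 hj hi hD
  have _ := hNest
  have h0 := h.toOK0
  have s1 := XLo.step1 hTok hMono hIdx X h (j0 := j0) hj hD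
  have s2 := XLo.step2 X h (hj0.trans hj) hi
  have p1 := h0.im_pos (fun n => (X.cl j n, X.K.tok false n))
  have p2 := h0.im_pos (fun n => (X.cl j0 n, X.K.tok false n))
  have p3 := h0.im_pos (fun n => (X.cl j0 n, X.slot i0 n))
  have p4 := h0.im_pos (fun n => X.cl j0 n)
  have p5 := h0.im_pos (fun n => (X.cl j0 n, X.K.tok false n, X.slot i0 n))
  have hL := h0.L_pos
  have s1' : (im X.E (fun n => (X.cl j n, X.K.tok false n)) : ℝ) ≤
      2 * (im X.E (fun n => (X.cl j0 n, X.K.tok false n, X.slot i0 n)) : ℝ) := by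
    exact_mod_cast s1
  have s3 : (im X.E (fun n => (X.cl j n, X.K.tok false n)) : ℝ) *
      (im X.E (fun n => X.cl j0 n) : ℝ) ≤
      2 * ((im X.E (fun n => (X.cl j0 n, X.K.tok false n)) : ℝ) *
      (X.Λ ^ 2 * (im X.E (fun n => (X.cl j0 n, X.slot i0 n)) : ℝ))) := by
    have := mul_le_mul_of_nonneg_right s1' (by linarith : (0 : ℝ) ≤
      (im X.E (fun n => X.cl j0 n) : ℝ))
    linarith
  have s4 := h0.lg_le (mul_pos (by linarith) (by linarith)) s3
  rw [h0.lg_mul (by linarith) (by linarith), h0.lg_mul (by norm_num) (by positivity),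
    h0.lg_mul (by linarith) (by positivity), h0.lg_mul (by positivity) (by linarith),
    h0.lg_pow] at s4
  have a1 := h0.lg2_le
  have a2 := h0.lgL_le
  unfold RS.lT RS.lS RS.lM
  push_cast at s4
  linarith

end Pool.Agent.Work.MP_e17eac_co.PS
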