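import Pool.Agent.Work.MP_e17eac_co.PS.SP

/-!
# Project PS, block SP: localisation
-/

namespace Pool.Agent.Work.MP_e17eac_co.PS

open Finset
open scoped Pointwise

namespace XLoc

theorem cls (Y Z : Finset ℤ) (q : ℝ) (hq : 1 ≤ q) (hY : ∀ y ∈ Y, |(y : ℝ)| ≤ q) (c : ℤ) :
    ((sc q Z).filter (fun k : ℤ => k % 3 = c)).card * Y.card ≤ (Y + Z).card := by
  have hq0 : 0 < q := by linarith
  have hex : ∀ k : ℤ, ∃ z : ℤ, k ∈ sc q Z → z ∈ Z ∧ (k : ℝ) * q ≤ z ∧ (z : ℝ) < (k + 1) * q := by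
    intro k
    by_cases hk : k ∈ sc q Z
    · unfold sc fl at hk
      rw [Finset.mem_image] at hk
      obtain ⟨z, hz, hzk⟩ := hk
      rw [Int.floor_eq_iff] at hzk
      refine ⟨z, fun _ => ⟨hz, ?_, ?_⟩⟩
      · have h := mul_le_mul_of_nonneg_right hzk.1 hq0.le
        have e : 1 / q * (z : ℝ) * q = z := by field_simp
        rw [e] at h
        exact h
      · have h := mul_lt_mul_of_pos_right hzk.2 hq0
        have e : 1 / q * (z : ℝ) * q = z := by field_simp
        rw [e] at h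
        exact h
    · exact ⟨0, fun h => absurd h hk⟩
  choose g hg using hex
  rw [← Finset.card_product]
  apply Finset.card_le_card_of_injOn (fun p : ℤ × ℤ => p.2 + g p.1)
  · intro p hp
    rw [Finset.mem_coe, Finset.mem_product, Finset.mem_filter] at hp
    exact Finset.mem_coe.mpr (Finset.add_mem_add hp.2 (hg p.1 hp.1.1).1)
  · have key : ∀ k ∈ sc q Z, ∀ k' ∈ sc q Z, ∀ y ∈ Y, ∀ y' ∈ Y, k % 3 = c → k' % 3 = c →
        y + g k = y' + g k' → ¬ k < k' := by
      intro k hk k' hk' y hy y' hy' h1 h2 he hlt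
      have h3 : k + 3 ≤ k' := by omega
      obtain ⟨_, _, a2⟩ := hg k hk
      obtain ⟨_, b1, _⟩ := hg k' hk'
      have y1 := (abs_le.mp (hY y hy)).2
      have y2 := (abs_le.mp (hY y' hy')).1
      have h4 : (y : ℝ) + g k = y' + g k' := by exact_mod_cast he
      have h5 : (k : ℝ) + 3 ≤ k' := by exact_mod_cast h3
      have h6 : ((k : ℝ) + 3) * q ≤ k' * q := mul_le_mul_of_nonneg_right h5 hq0.le
      nlinarith
    intro p hp p' hp' he
    rw [Finset.mem_coe, Finset.mem_product, Finset.mem_filter] at hp hp'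
    simp only at he
    have h1 := key _ hp.1.1 _ hp'.1.1 _ hp.2 _ hp'.2 hp.1.2 hp'.1.2 he
    have h2 := key _ hp'.1.1 _ hp.1.1 _ hp'.2 _ hp.2 hp'.1.2 hp.1.2 he.symm
    have h3 : p.1 = p'.1 := le_antisymm (not_lt.mp h2) (not_lt.mp h1)
    rw [h3] at he
    have h4 : p.2 = p'.2 := by omega
    exact Prod.ext h3 h4

theorem split (C : Finset ℤ) : C.card = (C.filter (fun k : ℤ => k % 3 = 0)).card +
    (C.filter (fun k : ℤ => k % 3 = 1)).card + (C.filter (fun k : ℤ => k % 3 = 2)).card := by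
  rw [Finset.card_filter, Finset.card_filter, Finset.card_filter, ← Finset.sum_add_distrib,
    ← Finset.sum_add_distrib, Finset.card_eq_sum_ones]
  apply Finset.sum_congr rfl
  intro a _
  have h : a % 3 = 0 ∨ a % 3 = 1 ∨ a % 3 = 2 := by omega
  rcases h with h | h | h <;> rw [h] <;> rfl

end XLoc

/-- localisation -/
theorem I_Loc : StLoc := by
  intro Y Z q hq hY
  have h0 := XLoc.cls Y Z q hq hY 0
  have h1 := XLoc.cls Y Z q hq hY 1
  have h2 := XLoc.cls Y Z q hq hY 2
  have h3 := XLoc.split (sc q Z)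
  rw [h3]
  nlinarith

end Pool.Agent.Work.MP_e17eac_co.PS
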