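import Pool.Agent.Work.MP_e17eac_co.PS.SP

/-!
# Project PS, item Path3: paths of length three in dense bipartite graphs
-/

set_option autoImplicit false

namespace Pool.Agent.Work.MP_e17eac_co.PS

open Finset

namespace XPath3

/-- double counting -/
lemma dc (A B : Finset ℤ) (r : ℤ → ℤ → Prop) [∀ a b, Decidable (r a b)] :
    ∑ a ∈ A, ((B.filter (fun b => r a b)).card : ℝ) =
      ∑ b ∈ B, ((A.filter (fun a => r a b)).card : ℝ) := by
  have h : ∀ (S : Finset ℤ) (p : ℤ → Prop) [DecidablePred p],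
      ((S.filter p).card : ℝ) = ∑ x ∈ S, if p x then (1 : ℝ) else 0 := by
    intro S p _
    rw [Finset.card_filter]
    push_cast
    rfl
  simp only [h]
  exact Finset.sum_comm

lemma card_E (A B : Finset ℤ) (E : Finset (ℤ × ℤ)) (hE : E ⊆ A ×ˢ B) :
    (E.card : ℝ) = ∑ a ∈ A, ((B.filter (fun b => (a, b) ∈ E)).card : ℝ) := by
  have h1 : E = (A ×ˢ B).filter (fun p => p ∈ E) := by
    ext p
    simp only [Finset.mem_filter]
    exact ⟨fun h => ⟨hE h, h⟩, fun h => h.2⟩
  have h2 : E.card = ∑ a ∈ A, (B.filter (fun b => (a, b) ∈ E)).card := by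
    conv_lhs => rw [h1]
    rw [Finset.card_filter, Finset.sum_product]
    refine Finset.sum_congr rfl fun a _ => ?_
    rw [Finset.card_filter]
  rw [h2]
  push_cast
  rfl

/-- Step 1: the vertices of large degree carry half of the edges. -/
lemma step1 (A B : Finset ℤ) (E : Finset (ℤ × ℤ)) (K : ℝ) (hK : 1 ≤ K) (hE : E ⊆ A ×ˢ B)
    (h : (A.card : ℝ) * B.card ≤ K * E.card) :
    ∃ A1 ⊆ A, (∀ a ∈ A1, (B.card : ℝ) ≤ 2 * K * (B.filter (fun b => (a, b) ∈ E)).card) ∧
      (A.card : ℝ) * B.card ≤ 2 * K * ∑ b ∈ B, ((A1.filter (fun a => (a, b) ∈ E)).card : ℝ) := by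
  classical
  let P : ℤ → Prop := fun a => (B.card : ℝ) ≤ 2 * K * (B.filter (fun b => (a, b) ∈ E)).card
  refine ⟨A.filter P, Finset.filter_subset _ _, fun a ha => (Finset.mem_filter.1 ha).2, ?_⟩
  have h1 := card_E A B E hE
  rw [← Finset.sum_filter_add_sum_filter_not A P] at h1
  have h2 : 2 * K * ∑ a ∈ A.filter (fun a => ¬ P a),
      ((B.filter (fun b => (a, b) ∈ E)).card : ℝ) ≤ A.card * B.card := by
    rw [Finset.mul_sum]
    calc ∑ a ∈ A.filter (fun a => ¬ P a), 2 * K * ((B.filter (fun b => (a, b) ∈ E)).card : ℝ)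
        ≤ ∑ a ∈ A.filter (fun a => ¬ P a), (B.card : ℝ) := by
          refine Finset.sum_le_sum fun a ha => ?_
          have := (Finset.mem_filter.1 ha).2
          exact (not_le.1 this).le
      _ = ((A.filter (fun a => ¬ P a)).card : ℝ) * B.card := by
          rw [Finset.sum_const, nsmul_eq_mul]
      _ ≤ A.card * B.card := by
          refine mul_le_mul_of_nonneg_right ?_ (Nat.cast_nonneg _)
          exact_mod_cast Finset.card_le_card (Finset.filter_subset _ _)
  rw [← dc (A.filter P) B (fun a b => (a, b) ∈ E)]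
  nlinarith

/-- Step 2: dependent choice. -/
lemma step2 (A B A1 : Finset ℤ) (E : Finset (ℤ × ℤ)) (K : ℝ) (hK : 1 ≤ K) (hB : B.Nonempty)
    (hA1 : A1 ⊆ A)
    (h : (A.card : ℝ) * B.card ≤ 2 * K * ∑ b ∈ B, ((A1.filter (fun a => (a, b) ∈ E)).card : ℝ)) :
    ∃ b ∈ B, (A.card : ℝ) ^ 2 ≤ 8 * K ^ 2 * ((A1.filter (fun a => (a, b) ∈ E)).card : ℝ) ^ 2 ∧
      16 * K * (((A1.filter (fun a => (a, b) ∈ E)) ×ˢ (A1.filter (fun a => (a, b) ∈ E))).filter
        (fun p => 128 * K ^ 3 * ((B.filter (fun c => (p.1, c) ∈ E ∧ (p.2, c) ∈ E)).card : ℝ) <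
          B.card)).card ≤ ((A1.filter (fun a => (a, b) ∈ E)).card : ℝ) ^ 2 := by
  classical
  set N : ℤ → Finset ℤ := fun b => A1.filter (fun a => (a, b) ∈ E) with hN
  set Q : ℤ × ℤ → Prop := fun p =>
    128 * K ^ 3 * ((B.filter (fun c => (p.1, c) ∈ E ∧ (p.2, c) ∈ E)).card : ℝ) < B.card with hQ
  have hBpos : (0 : ℝ) < B.card := by exact_mod_cast hB.card_pos
  have hKpos : 0 < K := by linarith
  -- Cauchy-Schwarz
  have hcs : (∑ b ∈ B, ((N b).card : ℝ)) ^ 2 ≤ B.card * ∑ b ∈ B, ((N b).card : ℝ) ^ 2 :=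
    sq_sum_le_card_mul_sum_sq
  have h1 : (A.card : ℝ) ^ 2 * B.card ≤ 4 * K ^ 2 * ∑ b ∈ B, ((N b).card : ℝ) ^ 2 := by
    have h2 : ((A.card : ℝ) * B.card) ^ 2 ≤ (2 * K * ∑ b ∈ B, ((N b).card : ℝ)) ^ 2 := by
      apply pow_le_pow_left₀ (by positivity) h
    have h3 : ((A.card : ℝ) * B.card) ^ 2 ≤
        4 * K ^ 2 * (B.card * ∑ b ∈ B, ((N b).card : ℝ) ^ 2) := by
      calc ((A.card : ℝ) * B.card) ^ 2 ≤ (2 * K * ∑ b ∈ B, ((N b).card : ℝ)) ^ 2 := h2
        _ = 4 * K ^ 2 * (∑ b ∈ B, ((N b).card : ℝ)) ^ 2 := by ring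
        _ ≤ _ := by
          apply mul_le_mul_of_nonneg_left hcs (by positivity)
    have h4 : (B.card : ℝ) * ((A.card : ℝ) ^ 2 * B.card) ≤
        B.card * (4 * K ^ 2 * ∑ b ∈ B, ((N b).card : ℝ) ^ 2) := by
      nlinarith [h3]
    exact le_of_mul_le_mul_left h4 hBpos
  -- bad pairs
  have hbad : ∑ b ∈ B, ((((N b) ×ˢ (N b)).filter Q).card : ℝ) =
      ∑ p ∈ (A1 ×ˢ A1).filter Q, ((B.filter (fun c => (p.1, c) ∈ E ∧ (p.2, c) ∈ E)).card : ℝ) := by
    have e1 : ∀ b, ((N b) ×ˢ (N b)).filter Q =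
        ((A1 ×ˢ A1).filter Q).filter (fun p => (p.1, b) ∈ E ∧ (p.2, b) ∈ E) := by
      intro b
      ext p
      simp only [hN, Finset.mem_filter, Finset.mem_product]
      tauto
    simp only [e1, Finset.card_filter]
    push_cast
    exact Finset.sum_comm
  have h5 : 128 * K ^ 3 * ∑ b ∈ B, ((((N b) ×ˢ (N b)).filter Q).card : ℝ) ≤
      (A.card : ℝ) ^ 2 * B.card := by
    rw [hbad, Finset.mul_sum]
    calc ∑ p ∈ (A1 ×ˢ A1).filter Q,
          128 * K ^ 3 * ((B.filter (fun c => (p.1, c) ∈ E ∧ (p.2, c) ∈ E)).card : ℝ)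
        ≤ ∑ p ∈ (A1 ×ˢ A1).filter Q, (B.card : ℝ) := by
          refine Finset.sum_le_sum fun p hp => ?_
          exact (Finset.mem_filter.1 hp).2.le
      _ = (((A1 ×ˢ A1).filter Q).card : ℝ) * B.card := by
          rw [Finset.sum_const, nsmul_eq_mul]
      _ ≤ (A.card : ℝ) ^ 2 * B.card := by
          refine mul_le_mul_of_nonneg_right ?_ (Nat.cast_nonneg _)
          have : ((A1 ×ˢ A1).filter Q).card ≤ A.card ^ 2 := by
            calc ((A1 ×ˢ A1).filter Q).card ≤ (A1 ×ˢ A1).card :=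
                  Finset.card_le_card (Finset.filter_subset _ _)
              _ = A1.card * A1.card := Finset.card_product _ _
              _ ≤ A.card * A.card :=
                  Nat.mul_le_mul (Finset.card_le_card hA1) (Finset.card_le_card hA1)
              _ = A.card ^ 2 := by ring
          exact_mod_cast this
  -- averaging
  by_contra hcon
  push Not at hcon
  have h6 : ∀ b ∈ B, 8 * K ^ 2 * (((N b).card : ℝ) ^ 2 -
      16 * K * ((((N b) ×ˢ (N b)).filter Q).card : ℝ)) < (A.card : ℝ) ^ 2 := by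
    intro b hb
    by_cases hc : (A.card : ℝ) ^ 2 ≤ 8 * K ^ 2 * ((N b).card : ℝ) ^ 2
    · have := hcon b hb hc
      have h7 : ((N b).card : ℝ) ^ 2 - 16 * K * ((((N b) ×ˢ (N b)).filter Q).card : ℝ) < 0 := by
        linarith
      have hA : (0 : ℝ) ≤ (A.card : ℝ) ^ 2 := by positivity
      have hk8 : 0 < 8 * K ^ 2 := by positivity
      nlinarith [mul_neg_of_pos_of_neg hk8 h7]
    · push Not at hc
      have h8 : 0 ≤ 16 * K * ((((N b) ×ˢ (N b)).filter Q).card : ℝ) := by positivity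
      have hk8 : 0 < 8 * K ^ 2 := by positivity
      nlinarith [mul_nonneg hk8.le h8]
  have h9 : ∑ b ∈ B, 8 * K ^ 2 * (((N b).card : ℝ) ^ 2 -
      16 * K * ((((N b) ×ˢ (N b)).filter Q).card : ℝ)) < ∑ b ∈ B, (A.card : ℝ) ^ 2 :=
    Finset.sum_lt_sum_of_nonempty hB h6
  rw [← Finset.mul_sum, Finset.sum_sub_distrib, ← Finset.mul_sum, Finset.sum_const,
    nsmul_eq_mul] at h9
  have h10 : 8 * K ^ 2 * (16 * K * ∑ b ∈ B, ((((N b) ×ˢ (N b)).filter Q).card : ℝ)) ≤
      (A.card : ℝ) ^ 2 * B.card := by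
    calc 8 * K ^ 2 * (16 * K * ∑ b ∈ B, ((((N b) ×ˢ (N b)).filter Q).card : ℝ))
        = 128 * K ^ 3 * ∑ b ∈ B, ((((N b) ×ˢ (N b)).filter Q).card : ℝ) := by ring
      _ ≤ _ := h5
  nlinarith [h9, h10, h1]

/-- Step 3 (left side). -/
lemma step3a (A2 : Finset ℤ) (Q : ℤ × ℤ → Prop) [DecidablePred Q] (K : ℝ) (hK : 1 ≤ K)
    (h : 16 * K * (((A2 ×ˢ A2).filter Q).card : ℝ) ≤ (A2.card : ℝ) ^ 2) :
    ∃ A' ⊆ A2, (A2.card : ℝ) ≤ 2 * A'.card ∧
      ∀ a ∈ A', 8 * K * ((A2.filter (fun a' => Q (a, a'))).card : ℝ) ≤ A2.card := by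
  classical
  let P : ℤ → Prop := fun a => 8 * K * ((A2.filter (fun a' => Q (a, a'))).card : ℝ) ≤ A2.card
  refine ⟨A2.filter P, Finset.filter_subset _ _, ?_, fun a ha => (Finset.mem_filter.1 ha).2⟩
  have h1 : (((A2 ×ˢ A2).filter Q).card : ℝ) =
      ∑ a ∈ A2, ((A2.filter (fun a' => Q (a, a'))).card : ℝ) := by
    rw [Finset.card_filter, Finset.sum_product]
    simp only [Finset.card_filter]
    push_cast
    rfl
  have h2 : (((A2.filter (fun a => ¬ P a)).card : ℝ)) * A2.card ≤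
      8 * K * (((A2 ×ˢ A2).filter Q).card : ℝ) := by
    rw [h1]
    calc (((A2.filter (fun a => ¬ P a)).card : ℝ)) * A2.card
        = ∑ a ∈ A2.filter (fun a => ¬ P a), (A2.card : ℝ) := by
          rw [Finset.sum_const, nsmul_eq_mul]
      _ ≤ ∑ a ∈ A2.filter (fun a => ¬ P a),
          8 * K * ((A2.filter (fun a' => Q (a, a'))).card : ℝ) := by
          refine Finset.sum_le_sum fun a ha => ?_
          exact (not_le.1 (Finset.mem_filter.1 ha).2).le
      _ ≤ ∑ a ∈ A2, 8 * K * ((A2.filter (fun a' => Q (a, a'))).card : ℝ) := by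
          refine Finset.sum_le_sum_of_subset_of_nonneg (Finset.filter_subset _ _) ?_
          intro a _ _
          positivity
      _ = 8 * K * ∑ a ∈ A2, ((A2.filter (fun a' => Q (a, a'))).card : ℝ) := by
          rw [Finset.mul_sum]
  have h3 : ((A2.filter P).card : ℝ) + ((A2.filter (fun a => ¬ P a)).card : ℝ) = A2.card := by
    exact_mod_cast Finset.card_filter_add_card_filter_not (s := A2) P
  rcases Nat.eq_zero_or_pos A2.card with h0 | h0
  · have e0 : (A2.card : ℝ) = 0 := by exact_mod_cast h0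
    have e1 : (0 : ℝ) ≤ (A2.filter P).card := Nat.cast_nonneg _
    linarith
  · have hpos : (0 : ℝ) < A2.card := by exact_mod_cast h0
    have h4 : (((A2.filter (fun a => ¬ P a)).card : ℝ)) * A2.card ≤ (A2.card / 2) * A2.card := by
      nlinarith
    have h5 := le_of_mul_le_mul_right h4 hpos
    linarith

/-- Step 3 (right side). -/
lemma step3b (A2 B : Finset ℤ) (E : Finset (ℤ × ℤ)) (K : ℝ) (hK : 1 ≤ K) (hA2 : A2.Nonempty)
    (hdeg : ∀ a ∈ A2, (B.card : ℝ) ≤ 2 * K * (B.filter (fun b => (a, b) ∈ E)).card) :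
    ∃ B' ⊆ B, (B.card : ℝ) ≤ 4 * K * B'.card ∧
      ∀ b ∈ B', (A2.card : ℝ) ≤ 4 * K * ((A2.filter (fun a => (a, b) ∈ E)).card : ℝ) := by
  classical
  let P : ℤ → Prop := fun b => (A2.card : ℝ) ≤ 4 * K * ((A2.filter (fun a => (a, b) ∈ E)).card : ℝ)
  refine ⟨B.filter P, Finset.filter_subset _ _, ?_, fun b hb => (Finset.mem_filter.1 hb).2⟩
  have hpos : (0 : ℝ) < A2.card := by exact_mod_cast hA2.card_pos
  have h1 : (A2.card : ℝ) * B.card ≤
      2 * K * ∑ b ∈ B, ((A2.filter (fun a => (a, b) ∈ E)).card : ℝ) := by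
    rw [← dc A2 B (fun a b => (a, b) ∈ E), Finset.mul_sum]
    calc (A2.card : ℝ) * B.card = ∑ a ∈ A2, (B.card : ℝ) := by
          rw [Finset.sum_const, nsmul_eq_mul]
      _ ≤ _ := Finset.sum_le_sum hdeg
  rw [← Finset.sum_filter_add_sum_filter_not B P] at h1
  have h2 : 4 * K * ∑ b ∈ B.filter (fun b => ¬ P b),
      ((A2.filter (fun a => (a, b) ∈ E)).card : ℝ) ≤ A2.card * B.card := by
    rw [Finset.mul_sum]
    calc ∑ b ∈ B.filter (fun b => ¬ P b), 4 * K * ((A2.filter (fun a => (a, b) ∈ E)).card : ℝ)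
        ≤ ∑ b ∈ B.filter (fun b => ¬ P b), (A2.card : ℝ) := by
          refine Finset.sum_le_sum fun b hb => ?_
          exact (not_le.1 (Finset.mem_filter.1 hb).2).le
      _ = ((B.filter (fun b => ¬ P b)).card : ℝ) * A2.card := by
          rw [Finset.sum_const, nsmul_eq_mul]
      _ ≤ B.card * A2.card := by
          refine mul_le_mul_of_nonneg_right ?_ (Nat.cast_nonneg _)
          exact_mod_cast Finset.card_le_card (Finset.filter_subset _ _)
      _ = A2.card * B.card := mul_comm _ _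
  have h3 : ∑ b ∈ B.filter P, ((A2.filter (fun a => (a, b) ∈ E)).card : ℝ) ≤
      (B.filter P).card * A2.card := by
    calc ∑ b ∈ B.filter P, ((A2.filter (fun a => (a, b) ∈ E)).card : ℝ)
        ≤ ∑ b ∈ B.filter P, (A2.card : ℝ) := by
          refine Finset.sum_le_sum fun b _ => ?_
          exact_mod_cast Finset.card_le_card (Finset.filter_subset _ _)
      _ = (B.filter P).card * A2.card := by
          rw [Finset.sum_const, nsmul_eq_mul]
  have hKpos : 0 < K := by linarith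
  have h4 : 4 * K * ∑ b ∈ B.filter P, ((A2.filter (fun a => (a, b) ∈ E)).card : ℝ) ≤
      4 * K * ((B.filter P).card * A2.card) :=
    mul_le_mul_of_nonneg_left h3 (by positivity)
  have h5 : (B.card : ℝ) * A2.card ≤ (4 * K * (B.filter P).card) * A2.card := by
    nlinarith
  exact le_of_mul_le_mul_right h5 hpos

end XPath3

/-- Paths of length three in dense bipartite graphs. -/
theorem I_Path3 : StPath3 := by
  classical
  intro A B E K hK hA hB hE h
  obtain ⟨A1, hA1, hdeg, h1⟩ := XPath3.step1 A B E K hK hE h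
  obtain ⟨b₀, _, h2, h3⟩ := XPath3.step2 A B A1 E K hK hB hA1 h1
  set A2 : Finset ℤ := A1.filter (fun a => (a, b₀) ∈ E) with hA2
  set Q : ℤ × ℤ → Prop := fun p =>
    128 * K ^ 3 * ((B.filter (fun c => (p.1, c) ∈ E ∧ (p.2, c) ∈ E)).card : ℝ) < B.card with hQ
  have hKpos : 0 < K := by linarith
  have hApos : (0 : ℝ) < A.card := by exact_mod_cast hA.card_pos
  have h3K : (A.card : ℝ) ≤ 3 * K * A2.card := by
    have : (A.card : ℝ) ^ 2 ≤ (3 * K * A2.card) ^ 2 := by
      calc (A.card : ℝ) ^ 2 ≤ 8 * K ^ 2 * (A2.card : ℝ) ^ 2 := h2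
        _ ≤ 9 * K ^ 2 * (A2.card : ℝ) ^ 2 := by
          have : 0 ≤ K ^ 2 * (A2.card : ℝ) ^ 2 := by positivity
          nlinarith
        _ = (3 * K * A2.card) ^ 2 := by ring
    exact le_of_sq_le_sq this (by positivity)
  have hA2pos : (0 : ℝ) < A2.card := by
    by_contra hc
    have : (A2.card : ℝ) = 0 := le_antisymm (not_lt.1 hc) (Nat.cast_nonneg _)
    rw [this] at h3K
    linarith
  have hA2ne : A2.Nonempty := by
    rw [← Finset.card_pos]
    exact_mod_cast hA2pos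
  have hA2A1 : A2 ⊆ A1 := Finset.filter_subset _ _
  obtain ⟨A', hA'sub, hA'card, hA'⟩ := XPath3.step3a A2 Q K hK h3
  obtain ⟨B', hB'sub, hB'card, hB'⟩ :=
    XPath3.step3b A2 B E K hK hA2ne (fun a ha => hdeg a (hA2A1 ha))
  refine ⟨A', hA'sub.trans (hA2A1.trans hA1), B', hB'sub, ?_, hB'card, ?_⟩
  · have h5 : 3 * K * (A2.card : ℝ) ≤ 3 * K * (2 * A'.card) :=
      mul_le_mul_of_nonneg_left hA'card (by positivity)
    have h6 : 0 ≤ K * (A'.card : ℝ) := by positivity
    nlinarith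
  intro a ha b hb
  -- good middle vertices
  set S : Finset ℤ := A2.filter (fun a' => (a', b) ∈ E ∧ ¬ Q (a, a')) with hS
  have hScard : (A2.card : ℝ) ≤ 8 * K * S.card := by
    have e1 : (A2.filter (fun a' => (a', b) ∈ E)).card ≤
        S.card + (A2.filter (fun a' => Q (a, a'))).card := by
      refine le_trans (Finset.card_le_card ?_) (Finset.card_union_le _ _)
      intro x hx
      rw [Finset.mem_union]
      by_cases hq : Q (a, x)
      · right
        exact Finset.mem_filter.2 ⟨(Finset.mem_filter.1 hx).1, hq⟩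
      · left
        exact Finset.mem_filter.2 ⟨(Finset.mem_filter.1 hx).1, (Finset.mem_filter.1 hx).2, hq⟩
    have e2 : ((A2.filter (fun a' => (a', b) ∈ E)).card : ℝ) ≤
        S.card + (A2.filter (fun a' => Q (a, a'))).card := by exact_mod_cast e1
    have e3 := hB' b hb
    have e4 := hA' a ha
    have e5 : 8 * K * ((A2.filter (fun a' => (a', b) ∈ E)).card : ℝ) ≤
        8 * K * (S.card + (A2.filter (fun a' => Q (a, a'))).card) :=
      mul_le_mul_of_nonneg_left e2 (by positivity)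
    nlinarith
  -- count of pairs
  have hcount : ∑ a' ∈ S, ((B.filter (fun c => (a, c) ∈ E ∧ (a', c) ∈ E)).card : ℝ) ≤
      (((B ×ˢ A).filter (fun p => (a, p.1) ∈ E ∧ (p.2, p.1) ∈ E ∧ (p.2, b) ∈ E)).card : ℝ) := by
    have e1 : (((B ×ˢ A).filter
        (fun p => (a, p.1) ∈ E ∧ (p.2, p.1) ∈ E ∧ (p.2, b) ∈ E)).card : ℝ) =
        ∑ a' ∈ A, ((B.filter (fun c => (a, c) ∈ E ∧ (a', c) ∈ E ∧ (a', b) ∈ E)).card : ℝ) := by
      rw [Finset.card_filter, Finset.sum_product_right]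
      simp only [Finset.card_filter]
      push_cast
      rfl
    rw [e1]
    calc ∑ a' ∈ S, ((B.filter (fun c => (a, c) ∈ E ∧ (a', c) ∈ E)).card : ℝ)
        ≤ ∑ a' ∈ S, ((B.filter (fun c => (a, c) ∈ E ∧ (a', c) ∈ E ∧ (a', b) ∈ E)).card : ℝ) := by
          refine Finset.sum_le_sum fun a' ha' => ?_
          have hb' := (Finset.mem_filter.1 ha').2.1
          have : B.filter (fun c => (a, c) ∈ E ∧ (a', c) ∈ E) ⊆
              B.filter (fun c => (a, c) ∈ E ∧ (a', c) ∈ E ∧ (a', b) ∈ E) := by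
            intro c hc
            rw [Finset.mem_filter] at hc ⊢
            exact ⟨hc.1, hc.2.1, hc.2.2, hb'⟩
          exact_mod_cast Finset.card_le_card this
      _ ≤ _ := by
          refine Finset.sum_le_sum_of_subset_of_nonneg ?_ ?_
          · exact (Finset.filter_subset _ _).trans (hA2A1.trans hA1)
          · intro x _ _
            exact Nat.cast_nonneg _
  have hlow : (S.card : ℝ) * B.card ≤
      128 * K ^ 3 * ∑ a' ∈ S, ((B.filter (fun c => (a, c) ∈ E ∧ (a', c) ∈ E)).card : ℝ) := by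
    rw [Finset.mul_sum]
    calc (S.card : ℝ) * B.card = ∑ a' ∈ S, (B.card : ℝ) := by
          rw [Finset.sum_const, nsmul_eq_mul]
      _ ≤ _ := by
          refine Finset.sum_le_sum fun a' ha' => ?_
          exact not_lt.1 (Finset.mem_filter.1 ha').2.2
  set W : ℝ := (((B ×ˢ A).filter
    (fun p => (a, p.1) ∈ E ∧ (p.2, p.1) ∈ E ∧ (p.2, b) ∈ E)).card : ℝ) with hW
  have hW0 : 0 ≤ W := Nat.cast_nonneg _
  have hBnn : (0 : ℝ) ≤ B.card := Nat.cast_nonneg _
  calc (A.card : ℝ) * B.card ≤ (3 * K * A2.card) * B.card :=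
        mul_le_mul_of_nonneg_right h3K hBnn
    _ ≤ (3 * K * (8 * K * S.card)) * B.card := by
        refine mul_le_mul_of_nonneg_right ?_ hBnn
        exact mul_le_mul_of_nonneg_left hScard (by positivity)
    _ = 24 * K ^ 2 * (S.card * B.card) := by ring
    _ ≤ 24 * K ^ 2 * (128 * K ^ 3 * W) := by
        refine mul_le_mul_of_nonneg_left ?_ (by positivity)
        refine hlow.trans ?_
        exact mul_le_mul_of_nonneg_left hcount (by positivity)
    _ = 3072 * (K ^ 5 * W) := by ring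
    _ ≤ 4096 * (K ^ 5 * W) := by
        have : 0 ≤ K ^ 5 * W := by positivity
        linarith
    _ = 2 ^ 12 * K ^ 5 * W := by ring

end Pool.Agent.Work.MP_e17eac_co.PS
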