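import Pool.Agent.Work.MP_e17eac_co.PS.SP

/-!
# Project PS, block SP, item Pr2: the pairs of heights
-/

namespace Pool.Agent.Work.MP_e17eac_co.PS

open Finset
open scoped Pointwise

namespace XPr2

/-- Integers in a closed real interval. -/
theorem card_interval (S : Finset ℤ) (p q : ℝ) (hpq : p ≤ q)
    (h : ∀ s ∈ S, p ≤ (s : ℝ) ∧ (s : ℝ) ≤ q) : (S.card : ℝ) ≤ q - p + 1 := by
  have hsub : S ⊆ Finset.Icc ⌈p⌉ ⌊q⌋ := by
    intro s hs
    obtain ⟨h1, h2⟩ := h s hs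
    rw [Finset.mem_Icc]
    exact ⟨Int.ceil_le.mpr h1, Int.le_floor.mpr h2⟩
  have h1 : (S.card : ℝ) ≤ ((Finset.Icc ⌈p⌉ ⌊q⌋).card : ℝ) := by
    exact_mod_cast Finset.card_le_card hsub
  rw [Int.card_Icc] at h1
  have h2 : (((⌊q⌋ + 1 - ⌈p⌉).toNat : ℕ) : ℝ) ≤ q - p + 1 := by
    rcases le_total 0 (⌊q⌋ + 1 - ⌈p⌉) with hn | hn
    · have h3 : (((⌊q⌋ + 1 - ⌈p⌉).toNat : ℕ) : ℝ) = (⌊q⌋ : ℝ) + 1 - (⌈p⌉ : ℝ) := by
        have h4 : (((⌊q⌋ + 1 - ⌈p⌉).toNat : ℕ) : ℤ) = ⌊q⌋ + 1 - ⌈p⌉ := Int.toNat_of_nonneg hn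
        have h5 : (((((⌊q⌋ + 1 - ⌈p⌉).toNat : ℕ) : ℤ)) : ℝ) = ((⌊q⌋ + 1 - ⌈p⌉ : ℤ) : ℝ) := by
          rw [h4]
        push_cast at h5
        exact h5
      rw [h3]
      have h6 := Int.floor_le q
      have h7 := Int.le_ceil p
      linarith
    · rw [Int.toNat_of_nonpos hn]
      push_cast
      linarith
  linarith

/-- Fibre bound. -/
theorem card_fib {α β : Type} [DecidableEq β] (s : Finset α) (f : α → β) (B : ℝ)
    (h : ∀ b ∈ s.image f, ((s.filter (fun a => f a = b)).card : ℝ) ≤ B) :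
    (s.card : ℝ) ≤ B * ((s.image f).card : ℝ) := by
  have h1 : (s.card : ℝ) = ∑ b ∈ s.image f, ((s.filter (fun a => f a = b)).card : ℝ) := by
    have h2 := Finset.card_eq_sum_card_image f s
    exact_mod_cast h2
  rw [h1]
  have h3 := Finset.sum_le_sum h
  rw [Finset.sum_const, nsmul_eq_mul] at h3
  linarith

/-- Covering by short intervals indexed by `M`. -/
theorem card_cover (S M : Finset ℤ) (φ : ℤ → ℝ) (w : ℝ) (hw : 0 ≤ w)
    (h : ∀ s ∈ S, ∃ m ∈ M, φ m ≤ (s : ℝ) ∧ (s : ℝ) ≤ φ m + w) :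
    (S.card : ℝ) ≤ (w + 1) * (M.card : ℝ) := by
  classical
  have hsub : S ⊆ M.biUnion
      (fun m => S.filter fun s : ℤ => φ m ≤ (s : ℝ) ∧ (s : ℝ) ≤ φ m + w) := by
    intro s hs
    obtain ⟨m, hm, h1⟩ := h s hs
    rw [Finset.mem_biUnion]
    exact ⟨m, hm, Finset.mem_filter.mpr ⟨hs, h1⟩⟩
  have h1 : (S.card : ℝ) ≤
      ∑ m ∈ M, ((S.filter fun s : ℤ => φ m ≤ (s : ℝ) ∧ (s : ℝ) ≤ φ m + w).card : ℝ) := by
    have h2 := (Finset.card_le_card hsub).trans Finset.card_biUnion_le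
    exact_mod_cast h2
  have h3 : ∑ m ∈ M, ((S.filter fun s : ℤ => φ m ≤ (s : ℝ) ∧ (s : ℝ) ≤ φ m + w).card : ℝ) ≤
      ∑ _m ∈ M, (w + 1) := by
    apply Finset.sum_le_sum
    intro m _
    have h4 := card_interval (S.filter fun s : ℤ => φ m ≤ (s : ℝ) ∧ (s : ℝ) ≤ φ m + w) (φ m)
      (φ m + w) (by linarith) (fun s hs => (Finset.mem_filter.mp hs).2)
    linarith
  rw [Finset.sum_const, nsmul_eq_mul] at h3
  linarith

/-- Fibres of the pairs of heights. -/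
theorem fib (F : Finset (ℤ × ℤ)) (t1 t2 η : ℝ) (g : ℤ × ℤ) (hη : 0 < η) (hη1 : η ≤ 1)
    (ht : η ≤ |t1 - t2|)
    (hF : ∀ p ∈ F, (⌊(p.2 : ℝ) + (p.1 : ℝ) * t1⌋, ⌊(p.2 : ℝ) + (p.1 : ℝ) * t2⌋) = g) :
    (F.card : ℝ) ≤ 15 / η := by
  rcases F.eq_empty_or_nonempty with rfl | ⟨p0, hp0⟩
  · rw [Finset.card_empty]
    push_cast
    positivity
  have h0 := hF p0 hp0
  have hclose : ∀ p ∈ F, |((p.2 : ℝ) - p0.2) + ((p.1 : ℝ) - p0.1) * t1| ≤ 1 ∧
      |((p.2 : ℝ) - p0.2) + ((p.1 : ℝ) - p0.1) * t2| ≤ 1 := by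
    intro p hp
    have h1 := hF p hp
    rw [← h0] at h1
    obtain ⟨e1, e2⟩ := Prod.mk.inj h1
    have a1 := Int.abs_sub_lt_one_of_floor_eq_floor e1
    have a2 := Int.abs_sub_lt_one_of_floor_eq_floor e2
    constructor
    · have e3 : ((p.2 : ℝ) - p0.2) + ((p.1 : ℝ) - p0.1) * t1 =
          ((p.2 : ℝ) + (p.1 : ℝ) * t1) - ((p0.2 : ℝ) + (p0.1 : ℝ) * t1) := by ring
      rw [e3]
      exact a1.le
    · have e3 : ((p.2 : ℝ) - p0.2) + ((p.1 : ℝ) - p0.1) * t2 =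
          ((p.2 : ℝ) + (p.1 : ℝ) * t2) - ((p0.2 : ℝ) + (p0.1 : ℝ) * t2) := by ring
      rw [e3]
      exact a2.le
  have hdx : ∀ p ∈ F, |(p.1 : ℝ) - p0.1| ≤ 2 / η := by
    intro p hp
    obtain ⟨a1, a2⟩ := hclose p hp
    rw [le_div_iff₀ hη]
    have h1 : |((p.1 : ℝ) - p0.1) * (t1 - t2)| ≤ 2 := by
      have e3 : ((p.1 : ℝ) - p0.1) * (t1 - t2) =
          (((p.2 : ℝ) - p0.2) + ((p.1 : ℝ) - p0.1) * t1) -
            (((p.2 : ℝ) - p0.2) + ((p.1 : ℝ) - p0.1) * t2) := by ring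
      rw [e3]
      obtain ⟨b1, b2⟩ := abs_le.mp a1
      obtain ⟨b3, b4⟩ := abs_le.mp a2
      rw [abs_le]
      constructor <;> linarith
    rw [abs_mul] at h1
    exact (mul_le_mul_of_nonneg_left ht (abs_nonneg _)).trans h1
  have h2η : 0 < 2 / η := by positivity
  have hX : ((F.image Prod.fst).card : ℝ) ≤ 4 / η + 1 := by
    have h1 := card_interval (F.image Prod.fst) ((p0.1 : ℝ) - 2 / η) ((p0.1 : ℝ) + 2 / η)
      (by linarith) ?_
    · have e4 : 4 / η = 2 / η + 2 / η := by ring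
      linarith
    · intro x hx
      obtain ⟨a, ha, rfl⟩ := Finset.mem_image.mp hx
      obtain ⟨b1, b2⟩ := abs_le.mp (hdx a ha)
      constructor <;> linarith
  have hY : (F.card : ℝ) ≤ 3 * ((F.image Prod.fst).card : ℝ) := by
    apply card_fib
    intro x _
    have hinj : (F.filter (fun a => a.1 = x)).card =
        ((F.filter (fun a => a.1 = x)).image Prod.snd).card := by
      rw [Finset.card_image_of_injOn]
      intro a ha b hb hab
      have ha2 := (Finset.mem_filter.mp (Finset.mem_coe.mp ha)).2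
      have hb2 := (Finset.mem_filter.mp (Finset.mem_coe.mp hb)).2
      exact Prod.ext (ha2.trans hb2.symm) hab
    rw [hinj]
    have h1 := card_interval ((F.filter (fun a => a.1 = x)).image Prod.snd)
      ((p0.2 : ℝ) - ((x : ℝ) - p0.1) * t1 - 1) ((p0.2 : ℝ) - ((x : ℝ) - p0.1) * t1 + 1)
      (by linarith) ?_
    · linarith
    · intro y hy
      obtain ⟨a, ha, rfl⟩ := Finset.mem_image.mp hy
      obtain ⟨ha1, ha2⟩ := Finset.mem_filter.mp ha
      subst ha2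
      obtain ⟨b1, b2⟩ := abs_le.mp (hclose a ha1).1
      constructor <;> linarith
  have h1η : 1 ≤ 1 / η := by
    rw [le_div_iff₀ hη]
    linarith
  have e5 : 15 / η = 3 * (4 * (1 / η) + 1 / η) := by ring
  have e6 : 4 / η = 4 * (1 / η) := by ring
  rw [e5]
  rw [e6] at hX
  linarith

end XPr2

open XPr2 in
/-- The sets `U`, `V`, `G t` of the application of `StTri`. -/
theorem I_Pr2 (hErr : StErr) : StPr2 := by
  have _ := hErr
  intro K σ R ξ A T At hS t1 h1 t2 h2 t ht h12 ht1 ht2 hbig G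
  have hK : 2 ≤ K := hS.hK
  have hK0 : 0 < K := by linarith
  have hK1 : 1 ≤ K := by linarith
  have hσ : 0 < σ := hS.hσ
  have hR : 1 ≤ R := hS.hR
  have hR0 : 0 < R := by linarith
  set E : ℝ := K ^ (9 / σ) with hE
  have hE0 : 0 < E := Real.rpow_pos_of_pos hK0 _
  have hE1 : 1 ≤ E := Real.one_le_rpow hK1 (by positivity)
  have hη : K ^ (-(9 / σ)) = 1 / E := by
    rw [Real.rpow_neg hK0.le, one_div]
  rw [hη] at h12 ht1 ht2
  have hη0 : 0 < 1 / E := by positivity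
  have hη1 : 1 / E ≤ 1 := by
    rw [div_le_iff₀ hE0]
    linarith
  have hKE : K ^ (12 + 9 / σ) = K ^ 12 * E := by
    rw [Real.rpow_add hK0, ← hE]
    congr 1
    exact_mod_cast Real.rpow_natCast K 12
  rw [hKE]
  have hRR : R ^ (2 * σ) = R ^ σ * R ^ σ := by
    rw [← Real.rpow_add hR0]
    congr 1
    ring
  have hRσ : 0 < R ^ σ := Real.rpow_pos_of_pos hR0 _
  obtain ⟨a1, b1⟩ := hS.T01 t1 h1
  obtain ⟨a2, b2⟩ := hS.T01 t2 h2
  obtain ⟨a3, b3⟩ := hS.T01 t ht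
  have hd : |t2 - t| ≤ 1 := by
    rw [abs_le]
    constructor <;> linarith
  have hd' : |t - t1| ≤ 1 := by
    rw [abs_le]
    constructor <;> linarith
  have hd'' : |t2 - t1| ≤ 1 := by
    rw [abs_le]
    constructor <;> linarith
  have ht2' : 1 / E ≤ |t2 - t| := by
    rw [abs_sub_comm]
    exact ht2
  have hpos : 0 < |t2 - t| := lt_of_lt_of_le hη0 ht2'
  have hne : t2 - t ≠ 0 := abs_pos.mp hpos
  have hlam : |(t - t1) / (t2 - t)| ≤ E := by
    rw [abs_div, div_le_iff₀ hpos]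
    have e1 : 1 ≤ E * |t2 - t| := by
      have e2 := mul_le_mul_of_nonneg_left ht2' hE0.le
      rw [mul_one_div_cancel hE0.ne'] at e2
      exact e2
    linarith
  have hc : |(t2 - t1) / (t2 - t)| ≤ E := by
    rw [abs_div, div_le_iff₀ hpos]
    have e1 : 1 ≤ E * |t2 - t| := by
      have e2 := mul_le_mul_of_nonneg_left ht2' hE0.le
      rw [mul_one_div_cancel hE0.ne'] at e2
      exact e2
    linarith
  have hK12 : (1 : ℝ) ≤ K ^ 12 := one_le_pow₀ hK1
  have hEK : E ≤ K ^ 12 * E := by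
    have e1 := mul_le_mul_of_nonneg_right hK12 hE0.le
    linarith
  refine ⟨?_, ?_, ?_, ?_⟩
  · -- the size of `G`
    have hfib : ((At t1 ∩ At t2 ∩ At t).card : ℝ) ≤ 15 / (1 / E) * (G.card : ℝ) := by
      apply card_fib
      intro b _
      apply fib _ t1 t2 (1 / E) b hη0 hη1 h12
      intro p hp
      exact (Finset.mem_filter.mp hp).2
    have e0 : 15 / (1 / E) = 15 * E := by
      field_simp
    rw [e0] at hfib
    have e1 := hS.cardlo
    rw [hRR] at e1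
    have hG0 : (0 : ℝ) ≤ G.card := Nat.cast_nonneg _
    calc (K * R ^ σ) ^ 2 = K ^ 2 * (R ^ σ * R ^ σ) := by ring
      _ ≤ K ^ 2 * (K * (A.card : ℝ)) := by gcongr
      _ ≤ K ^ 2 * (K * (K ^ 5 * ((At t1 ∩ At t2 ∩ At t).card : ℝ))) := by gcongr
      _ ≤ K ^ 2 * (K * (K ^ 5 * (15 * E * (G.card : ℝ)))) := by gcongr
      _ = 15 * (K ^ 8 * (E * (G.card : ℝ))) := by ring
      _ ≤ K ^ 4 * (K ^ 8 * (E * (G.card : ℝ))) := by
          apply mul_le_mul_of_nonneg_right _ (by positivity)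
          calc (15 : ℝ) ≤ 2 ^ 4 := by norm_num
            _ ≤ K ^ 4 := by gcongr
      _ = K ^ 12 * E * (G.card : ℝ) := by ring
  · -- few sums
    have hM := hS.crs t ht 1 le_rfl hR
    rw [div_one] at hM
    have hcov := card_cover (G.image (fun p => p.1 + ⌊(t - t1) / (t2 - t) * (p.2 : ℝ)⌋))
      ((At t).image (fun p => ⌊((p.2 : ℝ) + (p.1 : ℝ) * t) / 1⌋))
      (fun m => (t2 - t1) / (t2 - t) * (m : ℝ) -
        (|(t2 - t1) / (t2 - t)| + |(t - t1) / (t2 - t)| + 2))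
      (2 * |(t2 - t1) / (t2 - t)| + 2 * |(t - t1) / (t2 - t)| + 2) (by positivity) ?_
    · calc ((G.image (fun p => p.1 + ⌊(t - t1) / (t2 - t) * (p.2 : ℝ)⌋)).card : ℝ) ≤
          (2 * |(t2 - t1) / (t2 - t)| + 2 * |(t - t1) / (t2 - t)| + 2 + 1) *
            (((At t).image (fun p => ⌊((p.2 : ℝ) + (p.1 : ℝ) * t) / 1⌋)).card : ℝ) := hcov
        _ ≤ (2 * E + 2 * E + 2 + 1) * (K * R ^ σ) := by gcongr
        _ ≤ (K ^ 12 * E) * (K * R ^ σ) := by
            apply mul_le_mul_of_nonneg_right _ (by positivity)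
            have e8 : (8 : ℝ) ≤ K ^ 12 := by
              calc (8 : ℝ) ≤ 2 ^ 12 := by norm_num
                _ ≤ K ^ 12 := by gcongr
            have e9 := mul_le_mul_of_nonneg_right e8 hE0.le
            linarith
    · intro s hs
      obtain ⟨g, hg, rfl⟩ := Finset.mem_image.mp hs
      obtain ⟨p, hp, rfl⟩ := Finset.mem_image.mp hg
      have hpt : p ∈ At t := (Finset.mem_inter.mp hp).2
      refine ⟨_, Finset.mem_image.mpr ⟨p, hpt, rfl⟩, ?_⟩
      rw [div_one]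
      have key : ((p.2 : ℝ) + (p.1 : ℝ) * t1) +
          (t - t1) / (t2 - t) * ((p.2 : ℝ) + (p.1 : ℝ) * t2) =
          (t2 - t1) / (t2 - t) * ((p.2 : ℝ) + (p.1 : ℝ) * t) := by
        field_simp
        ring
      set c := (t2 - t1) / (t2 - t) with hcdef
      set l := (t - t1) / (t2 - t) with hldef
      set u := (p.2 : ℝ) + (p.1 : ℝ) * t1 with hu
      set v := (p.2 : ℝ) + (p.1 : ℝ) * t2 with hv
      set w := (p.2 : ℝ) + (p.1 : ℝ) * t with hw
      have f1 := Int.floor_le u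
      have f2 := Int.lt_floor_add_one u
      have f3 := Int.floor_le (l * ((⌊v⌋ : ℤ) : ℝ))
      have f4 := Int.lt_floor_add_one (l * ((⌊v⌋ : ℤ) : ℝ))
      have g1 : |l * (v - ⌊v⌋)| ≤ |l| := by
        rw [abs_mul]
        have i1 : |v - ⌊v⌋| ≤ 1 := by
          rw [abs_le]
          have f5 := Int.floor_le v
          have f6 := Int.lt_floor_add_one v
          constructor <;> linarith
        calc |l| * |v - ⌊v⌋| ≤ |l| * 1 := by gcongr
          _ = |l| := mul_one _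
      have g2 : |c * (w - ⌊w⌋)| ≤ |c| := by
        rw [abs_mul]
        have i1 : |w - ⌊w⌋| ≤ 1 := by
          rw [abs_le]
          have f5 := Int.floor_le w
          have f6 := Int.lt_floor_add_one w
          constructor <;> linarith
        calc |c| * |w - ⌊w⌋| ≤ |c| * 1 := by gcongr
          _ = |c| := mul_one _
      obtain ⟨j1, j2⟩ := abs_le.mp g1
      obtain ⟨j3, j4⟩ := abs_le.mp g2
      rw [mul_sub] at j1 j2 j3 j4
      push_cast
      constructor <;> linarith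
  · -- lower bound for the multiplier
    rw [abs_div, le_div_iff₀ hpos]
    have e1 : (K ^ 12 * E)⁻¹ ≤ 1 / E := by
      rw [one_div]
      exact inv_anti₀ hE0 hEK
    calc (K ^ 12 * E)⁻¹ * |t2 - t| ≤ (1 / E) * 1 := by
          apply mul_le_mul e1 hd (abs_nonneg _) hη0.le
      _ = 1 / E := mul_one _
      _ ≤ |t - t1| := ht1
  · exact hlam.trans hEK

end Pool.Agent.Work.MP_e17eac_co.PS
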