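import Pool.Agent.Work.MP_e17eac_co.PS.SP

/-!
# Project PS, block SP, item Prd: products of good multipliers are good
-/

set_option autoImplicit false

namespace Pool.Agent.Work.MP_e17eac_co.PS

open Finset
open scoped Pointwise

namespace XPrd

theorem floor_close (K r r' : ℝ) (hK : 2 ≤ K) (hr0 : 0 < r) (hr : r ≤ K) (z z' : ℤ) :
    |⌊r * (z : ℝ)⌋ - ⌊r * r' * (z' : ℝ)⌋ - ⌊r * ((z - ⌊r' * (z' : ℝ)⌋ : ℤ) : ℝ)⌋| ≤
      ((⌊K + 1⌋₊ : ℕ) : ℤ) := by
  have h1 := Int.floor_le (r * (z : ℝ))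
  have h2 := Int.lt_floor_add_one (r * (z : ℝ))
  have h3 := Int.floor_le (r * r' * (z' : ℝ))
  have h4 := Int.lt_floor_add_one (r * r' * (z' : ℝ))
  have h5 := Int.floor_le (r * ((z - ⌊r' * (z' : ℝ)⌋ : ℤ) : ℝ))
  have h6 := Int.lt_floor_add_one (r * ((z - ⌊r' * (z' : ℝ)⌋ : ℤ) : ℝ))
  have h7 := Int.floor_le (r' * (z' : ℝ))
  have h8 := Int.lt_floor_add_one (r' * (z' : ℝ))
  set a := ⌊r * (z : ℝ)⌋
  set b := ⌊r * r' * (z' : ℝ)⌋
  set d := ⌊r' * (z' : ℝ)⌋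
  set c := ⌊r * ((z - d : ℤ) : ℝ)⌋
  push_cast at h5 h6
  have h9 : r * (d : ℝ) ≤ r * (r' * z') := mul_le_mul_of_nonneg_left h7 hr0.le
  have h10 : r * (r' * z') ≤ r * (d + 1) := mul_le_mul_of_nonneg_left h8.le hr0.le
  have hup : ((a - b - c : ℤ) : ℝ) ≤ K + 1 := by
    push_cast
    nlinarith
  have hlo : ((-(a - b - c) : ℤ) : ℝ) ≤ K + 1 := by
    push_cast
    nlinarith
  have hK0 : 0 ≤ K + 1 := by linarith
  have hfl : ((⌊K + 1⌋₊ : ℕ) : ℤ) = ⌊K + 1⌋ := Int.natCast_floor_eq_floor hK0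
  rw [hfl, abs_le]
  constructor
  · have := Int.le_floor.2 hlo
    linarith
  · exact Int.le_floor.2 hup

end XPrd

open XPrd in
theorem I_Prd (hErr : StErr) (hFl : StFl) : StPrd := by
  intro Z K r r' hK hZ hr1 hr2 hr1' hr2' h1 h2
  have hK0 : 0 < K := by linarith
  have hr0 : 0 < r := lt_of_lt_of_le (inv_pos.2 hK0) hr1
  have hr0' : 0 < r' := lt_of_lt_of_le (inv_pos.2 hK0) hr1'
  obtain ⟨f1, -, f3, -, -⟩ := hFl
  have hz : (0 : ℝ) < (Z.card : ℝ) := by exact_mod_cast hZ.card_pos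
  -- the middle set
  have e1 : (fl r Z - fl (r * r') Z).card ≤
      (2 * ⌊K + 1⌋₊ + 1) * (fl r (Z - fl r' Z)).card := by
    apply hErr
    intro x hx
    obtain ⟨u, hu, v, hv, rfl⟩ := Finset.mem_sub.1 hx
    obtain ⟨z, hz1, rfl⟩ := Finset.mem_image.1 hu
    obtain ⟨z', hz2, rfl⟩ := Finset.mem_image.1 hv
    refine ⟨⌊r * ((z - ⌊r' * (z' : ℝ)⌋ : ℤ) : ℝ)⌋, ?_, floor_close K r r' hK hr0 hr2 z z'⟩
    exact Finset.mem_image.2 ⟨z - ⌊r' * (z' : ℝ)⌋,
      Finset.sub_mem_sub hz1 (Finset.mem_image_of_mem _ hz2), rfl⟩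
  have e2 : (fl r (Z - fl r' Z)).card ≤ (Z - fl r' Z).card := f1 r _
  have e3 : ((⌊K + 1⌋₊ : ℕ) : ℝ) ≤ K + 1 := Nat.floor_le (by linarith)
  have e4 : ((fl r Z - fl (r * r') Z).card : ℝ) ≤ (2 * (K + 1) + 1) * (K * Z.card) := by
    calc ((fl r Z - fl (r * r') Z).card : ℝ)
        ≤ (((2 * ⌊K + 1⌋₊ + 1) * (fl r (Z - fl r' Z)).card : ℕ) : ℝ) := by exact_mod_cast e1
      _ = (2 * ((⌊K + 1⌋₊ : ℕ) : ℝ) + 1) * ((fl r (Z - fl r' Z)).card : ℝ) := by push_cast; ring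
      _ ≤ (2 * (K + 1) + 1) * (K * Z.card) := by
          apply mul_le_mul
          · linarith
          · exact le_trans (by exact_mod_cast e2) h2
          · positivity
          · positivity
  have e5 := Finset.ruzsa_triangle_inequality_sub_sub_sub Z (fl r Z) (fl (r * r') Z)
  rw [← Finset.card_neg (fl (r * r') Z - fl r Z), neg_sub] at e5
  have e5' : ((Z - fl (r * r') Z).card : ℝ) * ((fl r Z).card : ℝ) ≤
      ((Z - fl r Z).card : ℝ) * ((fl r Z - fl (r * r') Z).card : ℝ) := by exact_mod_cast e5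
  have e6 : (Z.card : ℝ) ≤ (K + 1) * (fl r Z).card :=
    f3 K r Z (by linarith) (by rw [abs_of_pos hr0]; exact hr1)
  have hb : (0 : ℝ) < ((fl r Z).card : ℝ) := by
    by_contra hcon
    push Not at hcon
    nlinarith
  have e7 : ((Z - fl (r * r') Z).card : ℝ) * ((fl r Z).card : ℝ) ≤
      (K ^ 7 * Z.card) * ((fl r Z).card : ℝ) := by
    calc ((Z - fl (r * r') Z).card : ℝ) * ((fl r Z).card : ℝ)
        ≤ (K * Z.card) * ((2 * (K + 1) + 1) * (K * Z.card)) :=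
          le_trans e5' (mul_le_mul h1 e4 (by positivity) (by positivity))
      _ = (K ^ 2 * (2 * K + 3) * Z.card) * Z.card := by ring
      _ ≤ (K ^ 2 * (2 * K + 3) * Z.card) * ((K + 1) * (fl r Z).card) :=
          mul_le_mul_of_nonneg_left e6 (by positivity)
      _ = (K ^ 2 * ((2 * K + 3) * (K + 1))) * (Z.card * ((fl r Z).card : ℝ)) := by ring
      _ ≤ (K ^ 2 * K ^ 5) * (Z.card * ((fl r Z).card : ℝ)) := by
          apply mul_le_mul_of_nonneg_right _ (by positivity)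
          apply mul_le_mul_of_nonneg_left _ (by positivity)
          have h3 : (8 : ℝ) ≤ K ^ 3 := by
            calc (8 : ℝ) = 2 ^ 3 := by norm_num
              _ ≤ K ^ 3 := pow_le_pow_left₀ (by norm_num) hK 3
          have h4 : (2 * K + 3) * (K + 1) ≤ 8 * K ^ 2 := by nlinarith
          calc (2 * K + 3) * (K + 1) ≤ 8 * K ^ 2 := h4
            _ ≤ K ^ 3 * K ^ 2 := mul_le_mul_of_nonneg_right h3 (by positivity)
            _ = K ^ 5 := by ring
      _ = (K ^ 7 * Z.card) * ((fl r Z).card : ℝ) := by ring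
  exact le_of_mul_le_mul_right e7 hb

end Pool.Agent.Work.MP_e17eac_co.PS
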