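import Pool.Agent.Work.MP_e17eac_co.Bd.B23

/-!
# Item PtGap: times of edges are separated
-/

namespace Pool.Agent.Work.MP_e17eac_co.PS

open Finset
open Pool.Agent.Work.MP_e17eac_co.DH

namespace XPtGap

theorem core {ι : Type} [Fintype ι] [DecidableEq ι] (K : KSys ι) {m : ℝ} (hm : 0 < m)
    (hd : ∀ i j l, i ≠ j → i ≠ l → j ≠ l → 1 ≤ m * |det3 K.x K.y i j l|)
    {n n' : ℕ} (hn : n < n') (hn' : n' < K.N)
    (h0 : 0 ≤ K.h n' - K.h n) (h1 : K.h n' - K.h n ≤ K.t n' - K.t n)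
    {c : ι} (hca : c ≠ K.a n) (hcb : c ≠ K.b n) (hc : K.y c + K.x c * K.t n' = K.h n') :
    1 ≤ 2 * m * (K.t n' - K.t n) := by
  have hnN : n < K.N := hn.trans hn'
  have hab : K.b n ≠ K.a n := by
    intro h
    have := K.x_lt n hnN
    rw [h] at this
    exact lt_irrefl _ this
  have h2 := hd (K.b n) (K.a n) c hab hcb.symm hca.symm
  have hmeet := K.meet n hnN
  have hh : K.h n = K.y (K.a n) + K.x (K.a n) * K.t n := rfl
  have ht := K.t_lt n n' hn hn'
  have hdet : det3 K.x K.y (K.b n) (K.a n) c =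
      (K.x (K.a n) - K.x (K.b n)) * ((K.h n' - K.h n) - K.x c * (K.t n' - K.t n)) := by
    unfold det3
    rw [← hc, hh]
    linear_combination (K.x (K.a n) - K.x (K.b n) - (K.x c - K.x (K.b n))) * hmeet
  have hx0 := K.x_nonneg (K.b n)
  have hx1 := K.x_le_one (K.a n)
  have hxl := K.x_lt n hnN
  have hc0 := K.x_nonneg c
  have hc1 := K.x_le_one c
  have h3 : |det3 K.x K.y (K.b n) (K.a n) c| ≤ K.t n' - K.t n := by
    rw [hdet, abs_mul]
    have h4 : |K.x (K.a n) - K.x (K.b n)| ≤ 1 := by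
      rw [abs_le]
      constructor
      · linarith
      · linarith
    have h5 : |(K.h n' - K.h n) - K.x c * (K.t n' - K.t n)| ≤ K.t n' - K.t n := by
      have h6 : 0 ≤ K.x c * (K.t n' - K.t n) := mul_nonneg hc0 (by linarith)
      have h7 : K.x c * (K.t n' - K.t n) ≤ 1 * (K.t n' - K.t n) :=
        mul_le_mul_of_nonneg_right hc1 (by linarith)
      rw [abs_le]
      constructor
      · linarith
      · linarith
    calc |K.x (K.a n) - K.x (K.b n)| * |(K.h n' - K.h n) - K.x c * (K.t n' - K.t n)|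
        ≤ 1 * (K.t n' - K.t n) := mul_le_mul h4 h5 (abs_nonneg _) (by norm_num)
      _ = K.t n' - K.t n := one_mul _
  have h8 : m * |det3 K.x K.y (K.b n) (K.a n) c| ≤ m * (K.t n' - K.t n) :=
    mul_le_mul_of_nonneg_left h3 hm.le
  have h9 : 0 ≤ m * (K.t n' - K.t n) := mul_nonneg hm.le (by linarith)
  linarith

end XPtGap

theorem I_PtGap (hLip : StLip) (hLeq : StLeq) : StGap := by
  intro ι _ _ K m hm hd n n' hn hn'
  have hnN : n < K.N := hn.trans hn'
  obtain ⟨h0, h1⟩ := hLip ι K n n' hn.le hn'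
  obtain ⟨_, ea, eb, _⟩ := hLeq ι K n' hn'
  have ea' : K.y (K.a n') + K.x (K.a n') * K.t n' = K.h n' := ea
  have eb' : K.y (K.b n') + K.x (K.b n') * K.t n' = K.h n' := eb
  by_cases hA : K.a n' ≠ K.a n ∧ K.a n' ≠ K.b n
  · exact XPtGap.core K hm hd hn hn' h0 h1 hA.1 hA.2 ea'
  by_cases hB : K.b n' ≠ K.a n ∧ K.b n' ≠ K.b n
  · exact XPtGap.core K hm hd hn hn' h0 h1 hB.1 hB.2 eb'
  exfalso
  have hA' : K.a n' = K.a n ∨ K.a n' = K.b n := by
    by_contra h
    rw [not_or] at h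
    exact hA h
  have hB' : K.b n' = K.a n ∨ K.b n' = K.b n := by
    by_contra h
    rw [not_or] at h
    exact hB h
  have hm1 := K.meet n hnN
  have hm2 := K.meet n' hn'
  have x1 := K.x_lt n hnN
  have x2 := K.x_lt n' hn'
  have ht := K.t_lt n n' hn hn'
  rcases hA' with h2 | h2 <;> rcases hB' with h3 | h3
  · rw [h2, h3] at x2
    exact lt_irrefl _ x2
  · rw [h2, h3] at hm2
    have h4 : (K.x (K.a n) - K.x (K.b n)) * (K.t n' - K.t n) = 0 := by
      linear_combination hm2 - hm1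
    rcases mul_eq_zero.mp h4 with h5 | h5
    · linarith
    · linarith
  · rw [h2, h3] at x2
    exact lt_asymm x1 x2
  · rw [h2, h3] at x2
    exact lt_irrefl _ x2

end Pool.Agent.Work.MP_e17eac_co.PS
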