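import Pool.Agent.Work.MP_e17eac_co.Bd.B23

/-!
# Project PS, item PtOct: edges in one octant of a point set in the square
-/

namespace Pool.Agent.Work.MP_e17eac_co.PS

open Finset
open Pool.Agent.Work.MP_e17eac_co.DH

namespace XPtOct

/-- The shear followed by a contraction. -/
noncomputable def phi (ε : ℝ) (p : ℝ × ℝ) : ℝ × ℝ := ((p.1 + ε * p.2 + 3 / 2) / 3, p.2 / 12)

theorem phi_inj (ε : ℝ) : Function.Injective (phi ε) := by
  intro p q h
  unfold phi at h
  rw [Prod.mk.injEq] at h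
  obtain ⟨h1, h2⟩ := h
  have h3 : p.2 = q.2 := by linarith
  rw [h3] at h1
  have h4 : p.1 = q.1 := by linarith
  exact Prod.ext h4 h3

theorem side_phi (ε : ℝ) (p q r : ℝ × ℝ) :
    side (phi ε p) (phi ε q) (phi ε r) = side p q r / 36 := by
  unfold side phi
  simp only
  ring

/-- Two points of the set are not too close. -/
theorem far (P : Finset (ℝ × ℝ)) (m : ℝ) (h3 : 3 ≤ P.card) (hm : 1 ≤ m)
    (hsq : ∀ p ∈ P, |p.1| ≤ 1 ∧ |p.2| ≤ 1)
    (harea : ∀ p ∈ P, ∀ q ∈ P, ∀ r ∈ P, p ≠ q → p ≠ r → q ≠ r → 1 ≤ m * |side p q r|) :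
    ∀ p ∈ P, ∀ q ∈ P, p ≠ q → 1 / (4 * m) ≤ |p.1 - q.1| ∨ 1 / (4 * m) ≤ |p.2 - q.2| := by
  classical
  intro p hp q hq hpq
  by_contra hcon
  push Not at hcon
  obtain ⟨h1, h2⟩ := hcon
  have hm0 : 0 < m := by linarith
  obtain ⟨r, hr, hrp, hrq⟩ : ∃ r ∈ P, r ≠ p ∧ r ≠ q := by
    have hlt : ({p, q} : Finset (ℝ × ℝ)).card < P.card := by
      have := Finset.card_le_two (a := p) (b := q)
      omega
    obtain ⟨r, hr, hr'⟩ := Finset.exists_mem_notMem_of_card_lt_card hlt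
    refine ⟨r, hr, ?_, ?_⟩
    · intro h
      exact hr' (by rw [h]; simp)
    · intro h
      exact hr' (by rw [h]; simp)
  have h4 := harea p hp q hq r hr hpq (Ne.symm hrp) (Ne.symm hrq)
  obtain ⟨hp1, hp2⟩ := hsq p hp
  obtain ⟨hr1, hr2⟩ := hsq r hr
  have e1 : |r.1 - p.1| ≤ 2 := by
    calc |r.1 - p.1| ≤ |r.1| + |p.1| := abs_sub _ _
      _ ≤ 2 := by linarith
  have e2 : |r.2 - p.2| ≤ 2 := by
    calc |r.2 - p.2| ≤ |r.2| + |p.2| := abs_sub _ _
      _ ≤ 2 := by linarith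
  have e3 : |side p q r| ≤ |q.1 - p.1| * |r.2 - p.2| + |q.2 - p.2| * |r.1 - p.1| := by
    unfold side
    rw [← abs_mul, ← abs_mul]
    exact abs_sub _ _
  rw [abs_sub_comm] at h1 h2
  have e4 : |q.1 - p.1| * |r.2 - p.2| ≤ |q.1 - p.1| * 2 :=
    mul_le_mul_of_nonneg_left e2 (abs_nonneg _)
  have e5 : |q.2 - p.2| * |r.1 - p.1| ≤ |q.2 - p.2| * 2 :=
    mul_le_mul_of_nonneg_left e1 (abs_nonneg _)
  have e6 : |side p q r| < 1 / m := by
    have : 1 / m = 4 * (1 / (4 * m)) := by field_simp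
    rw [this]
    linarith
  have e7 : m * |side p q r| < m * (1 / m) := mul_lt_mul_of_pos_left e6 hm0
  rw [mul_one_div_cancel hm0.ne'] at e7
  linarith

end XPtOct

open XPtOct in
theorem I_PtOct (hW : StWP) (hS : StShear) : StOct := by
  classical
  intro B hB
  obtain ⟨c, hc, C, hC, hwp⟩ := hW (B + 10) (by linarith)
  refine ⟨c, hc, C, hC, ?_⟩
  intro P m h3 hm hmB hsq harea k T hT
  have hm0 : 0 < m := by linarith
  have hn3 : (3 : ℝ) ≤ (P.card : ℝ) := by exact_mod_cast h3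
  have hn0 : (0 : ℝ) < (P.card : ℝ) := by linarith
  have hne : P.Nonempty := Finset.card_pos.1 (by omega)
  obtain ⟨ε, he0, he1, hshear⟩ := hS P (1 / (4 * m)) (by positivity) hne (far P m h3 hm hsq harea)
  have hcard : (P.image (phi ε)).card = P.card := Finset.card_image_of_injective _ (phi_inj ε)
  have hn2 : (1 : ℝ) ≤ (P.card : ℝ) ^ 2 := by nlinarith
  set n : ℝ := (P.card : ℝ) with hn
  have hm' : (1 : ℝ) ≤ 3456 * m * n ^ 2 := by
    have : (1 : ℝ) ≤ m * n ^ 2 := by nlinarith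
    nlinarith
  have hm'B : 3456 * m * n ^ 2 ≤ ((P.image (phi ε)).card : ℝ) ^ (B + 10) := by
    rw [hcard, ← hn]
    have e1 : n ^ (B + 10) = n ^ B * (n ^ 2 * n ^ 8) := by
      rw [Real.rpow_add hn0]
      congr 1
      rw [← pow_add]
      have : (10 : ℝ) = ((10 : ℕ) : ℝ) := by norm_num
      rw [this, Real.rpow_natCast]
    rw [e1]
    have e2 : (3456 : ℝ) ≤ n ^ 8 := by
      calc (3456 : ℝ) ≤ 3 ^ 8 := by norm_num
        _ ≤ n ^ 8 := pow_le_pow_left₀ (by norm_num) hn3 8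
    have e3 : 3456 * m ≤ n ^ 8 * n ^ B := mul_le_mul e2 hmB hm0.le (by positivity)
    have e4 := mul_le_mul_of_nonneg_right e3 (by positivity : (0 : ℝ) ≤ n ^ 2)
    calc 3456 * m * n ^ 2 ≤ n ^ 8 * n ^ B * n ^ 2 := e4
      _ = n ^ B * (n ^ 2 * n ^ 8) := by ring
  have h01 : ∀ p ∈ P.image (phi ε), 0 ≤ p.1 ∧ p.1 ≤ 1 := by
    intro p hp
    rw [Finset.mem_image] at hp
    obtain ⟨a, ha, rfl⟩ := hp
    obtain ⟨h1, h2⟩ := hsq a ha
    rw [abs_le] at h1 h2
    have e1 : |ε * a.2| ≤ 1 / 2 := by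
      rw [abs_mul, abs_of_nonneg he0]
      have : |a.2| ≤ 1 := (hsq a ha).2
      nlinarith [abs_nonneg a.2]
    rw [abs_le] at e1
    unfold phi
    simp only
    constructor <;> linarith [e1.1, e1.2, h1.1, h1.2]
  have hsep : ∀ p ∈ P.image (phi ε), ∀ q ∈ P.image (phi ε), p ≠ q →
      1 ≤ 3456 * m * n ^ 2 * |p.1 - q.1| := by
    intro p hp q hq hpq
    rw [Finset.mem_image] at hp hq
    obtain ⟨a, ha, rfl⟩ := hp
    obtain ⟨b, hb, rfl⟩ := hq
    have hab : a ≠ b := fun h => hpq (by rw [h])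
    have h1 := hshear a ha b hb hab
    have e1 : (phi ε a).1 - (phi ε b).1 = ((a.1 + ε * a.2) - (b.1 + ε * b.2)) / 3 := by
      unfold phi
      simp only
      ring
    rw [e1, abs_div, abs_of_pos (by norm_num : (0 : ℝ) < 3)]
    set X := |(a.1 + ε * a.2) - (b.1 + ε * b.2)| with hX
    have h2 : 1 ≤ 32 * m * n ^ 2 * X := by
      have := mul_le_mul_of_nonneg_left h1 (by positivity : (0 : ℝ) ≤ 4 * m)
      have e2 : 4 * m * (1 / (4 * m)) = 1 := by field_simp
      rw [e2] at this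
      calc (1 : ℝ) ≤ 4 * m * (8 * n ^ 2 * X) := this
        _ = 32 * m * n ^ 2 * X := by ring
    have hX0 : 0 ≤ X := abs_nonneg _
    have : 3456 * m * n ^ 2 * (X / 3) = 36 * (32 * m * n ^ 2 * X) := by ring
    rw [this]
    linarith
  have hareas : ∀ p ∈ P.image (phi ε), ∀ q ∈ P.image (phi ε), ∀ r ∈ P.image (phi ε),
      p ≠ q → p ≠ r → q ≠ r → 1 ≤ 3456 * m * n ^ 2 * |side p q r| := by
    intro p hp q hq r hr hpq hpr hqr
    rw [Finset.mem_image] at hp hq hr
    obtain ⟨a, ha, rfl⟩ := hp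
    obtain ⟨b, hb, rfl⟩ := hq
    obtain ⟨d, hd, rfl⟩ := hr
    have h1 := harea a ha b hb d hd (fun h => hpq (by rw [h])) (fun h => hpr (by rw [h]))
      (fun h => hqr (by rw [h]))
    rw [side_phi, abs_div, abs_of_pos (by norm_num : (0 : ℝ) < 36)]
    have e1 : 3456 * m * n ^ 2 * (|side a b d| / 36) = 96 * n ^ 2 * (m * |side a b d|) := by ring
    rw [e1]
    nlinarith
  set T' : Finset ((ℝ × ℝ) × (ℝ × ℝ)) := T.image (fun e => (phi ε e.1, phi ε e.2)) with hT'
  have hTcard : T'.card = T.card := by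
    rw [hT']
    refine Finset.card_image_of_injective _ ?_
    intro e f h
    simp only [Prod.mk.injEq] at h
    exact Prod.ext (phi_inj ε h.1) (phi_inj ε h.2)
  have hfin := hwp (P.image (phi ε)) (3456 * m * n ^ 2) hm' hm'B h01 hsep hareas k T' ?_
  · rw [hTcard, hcard] at hfin
    exact hfin
  · intro e' he'
    rw [hT', Finset.mem_image] at he'
    obtain ⟨e, he, rfl⟩ := he'
    obtain ⟨g1, g2, g3, g4, g5, g6⟩ := hT e he
    have hE : ε * (e.1.2 - e.2.2) ≤ 1 / 2 * (e.2.1 - e.1.1) :=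
      mul_le_mul he1 g6 (by linarith) (by norm_num)
    refine ⟨Finset.mem_image_of_mem _ g1, Finset.mem_image_of_mem _ g2, ?_, ?_, ?_, ?_⟩
    · unfold phi
      simp only
      nlinarith
    · have : (P.image (phi ε)).filter (fun r => side (phi ε e.1) (phi ε e.2) r < 0) =
          (P.filter fun r => side e.1 e.2 r < 0).image (phi ε) := by
        ext r
        simp only [Finset.mem_filter, Finset.mem_image]
        constructor
        · rintro ⟨⟨a, ha, rfl⟩, h⟩
          refine ⟨a, ⟨ha, ?_⟩, rfl⟩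
          rw [side_phi] at h
          linarith
        · rintro ⟨a, ⟨ha, h⟩, rfl⟩
          refine ⟨⟨a, ha, rfl⟩, ?_⟩
          rw [side_phi]
          linarith
      simp only
      rw [this, Finset.card_image_of_injective _ (phi_inj ε)]
      exact g4
    · unfold phi
      simp only
      linarith
    · unfold phi
      simp only
      nlinarith

end Pool.Agent.Work.MP_e17eac_co.PS
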