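import Pool.Agent.Work.MP_e17eac_co.Bd.B23

/-!
# Project PS, item PtSq: all k-edges of a point set in the square
-/

namespace Pool.Agent.Work.MP_e17eac_co.PS

open Finset
open Pool.Agent.Work.MP_e17eac_co.DH

namespace XPtSq

/-- Four symmetries of the square. -/
def rho (i : Fin 4) (p : ℝ × ℝ) : ℝ × ℝ :=
  if i = 0 then p else if i = 1 then (p.1, -p.2) else if i = 2 then (p.2, p.1) else (p.2, -p.1)

theorem rho0 (p : ℝ × ℝ) : rho 0 p = p := by simp [rho]
theorem rho1 (p : ℝ × ℝ) : rho 1 p = (p.1, -p.2) := by simp [rho]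
theorem rho2 (p : ℝ × ℝ) : rho 2 p = (p.2, p.1) := by simp [rho]
theorem rho3 (p : ℝ × ℝ) : rho 3 p = (p.2, -p.1) := by simp [rho]

theorem rho_inj (i : Fin 4) : Function.Injective (rho i) := by
  intro p q h
  fin_cases i
  · simpa [rho] using h
  · have h1 : ((p.1, -p.2) : ℝ × ℝ) = (q.1, -q.2) := by simpa [rho] using h
    rw [Prod.mk.injEq] at h1
    exact Prod.ext h1.1 (by linarith [h1.2])
  · have h1 : ((p.2, p.1) : ℝ × ℝ) = (q.2, q.1) := by simpa [rho] using h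
    rw [Prod.mk.injEq] at h1
    exact Prod.ext h1.2 h1.1
  · have h1 : ((p.2, -p.1) : ℝ × ℝ) = (q.2, -q.1) := by simpa [rho] using h
    rw [Prod.mk.injEq] at h1
    exact Prod.ext (by linarith [h1.2]) h1.1

theorem side_rho (i : Fin 4) : (∀ p q r, side (rho i p) (rho i q) (rho i r) = side p q r) ∨
    (∀ p q r, side (rho i p) (rho i q) (rho i r) = - side p q r) := by
  fin_cases i
  · left; intro p q r; change side (rho 0 p) (rho 0 q) (rho 0 r) = _; simp only [rho0]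
  · right; intro p q r; change side (rho 1 p) (rho 1 q) (rho 1 r) = _
    simp only [rho1, side]; ring
  · right; intro p q r; change side (rho 2 p) (rho 2 q) (rho 2 r) = _
    simp only [rho2, side]; ring
  · left; intro p q r; change side (rho 3 p) (rho 3 q) (rho 3 r) = _
    simp only [rho3, side]; ring

theorem abs_side_rho (i : Fin 4) (p q r : ℝ × ℝ) :
    |side (rho i p) (rho i q) (rho i r)| = |side p q r| := by
  rcases side_rho i with h | h
  · rw [h]
  · rw [h, abs_neg]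

theorem sq_rho (i : Fin 4) (p : ℝ × ℝ) (h : |p.1| ≤ 1 ∧ |p.2| ≤ 1) :
    |(rho i p).1| ≤ 1 ∧ |(rho i p).2| ≤ 1 := by
  fin_cases i
  · change |(rho 0 p).1| ≤ 1 ∧ |(rho 0 p).2| ≤ 1; rw [rho0]; exact h
  · change |(rho 1 p).1| ≤ 1 ∧ |(rho 1 p).2| ≤ 1; rw [rho1]; exact ⟨h.1, by simpa using h.2⟩
  · change |(rho 2 p).1| ≤ 1 ∧ |(rho 2 p).2| ≤ 1; rw [rho2]; exact ⟨h.2, h.1⟩
  · change |(rho 3 p).1| ≤ 1 ∧ |(rho 3 p).2| ≤ 1; rw [rho3]; exact ⟨h.2, by simpa using h.1⟩

/-- The octant condition. -/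
def Oc (u v : ℝ × ℝ) : Prop := u.1 < v.1 ∧ v.2 ≤ u.2 ∧ u.2 - v.2 ≤ v.1 - u.1

theorem oct (p q : ℝ × ℝ) (h : p ≠ q) : ∃ i : Fin 4, Oc (rho i p) (rho i q) ∨
    Oc (rho i q) (rho i p) := by
  have hne : p.1 ≠ q.1 ∨ p.2 ≠ q.2 := by
    by_contra hcon
    push Not at hcon
    exact h (Prod.ext hcon.1 hcon.2)
  by_cases hab : |q.2 - p.2| ≤ |q.1 - p.1|
  · have hx : p.1 ≠ q.1 := by
      rcases hne with h1 | h1
      · exact h1
      · intro h2
        rw [h2, sub_self, abs_zero] at hab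
        have := abs_nonpos_iff.1 hab
        exact h1 (by linarith)
    rcases lt_or_gt_of_ne hx with h1 | h1
    · rw [abs_of_pos (sub_pos.2 h1), abs_le] at hab
      rcases le_total q.2 p.2 with h2 | h2
      · exact ⟨0, Or.inl (by rw [rho0, rho0]; exact ⟨h1, h2, by linarith [hab.1]⟩)⟩
      · exact ⟨1, Or.inl (by
          rw [rho1, rho1]; exact ⟨h1, by simpa using h2, by simp only; linarith [hab.2]⟩)⟩
    · rw [abs_of_neg (sub_neg.2 h1), abs_le] at hab
      rcases le_total q.2 p.2 with h2 | h2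
      · exact ⟨1, Or.inr (by
          rw [rho1, rho1]; exact ⟨h1, by simpa using h2, by simp only; linarith [hab.1]⟩)⟩
      · exact ⟨0, Or.inr (by rw [rho0, rho0]; exact ⟨h1, h2, by linarith [hab.2]⟩)⟩
  · push Not at hab
    have hy : p.2 ≠ q.2 := by
      intro h2
      rw [h2, sub_self, abs_zero] at hab
      exact absurd hab (not_lt.2 (abs_nonneg _))
    rcases lt_or_gt_of_ne hy with h1 | h1
    · rw [abs_of_pos (sub_pos.2 h1), abs_lt] at hab
      rcases le_total q.1 p.1 with h2 | h2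
      · exact ⟨2, Or.inl (by rw [rho2, rho2]; exact ⟨h1, h2, by simp only; linarith [hab.1]⟩)⟩
      · exact ⟨3, Or.inl (by
          rw [rho3, rho3]; exact ⟨h1, by simpa using h2, by simp only; linarith [hab.2]⟩)⟩
    · rw [abs_of_neg (sub_neg.2 h1), abs_lt] at hab
      rcases le_total q.1 p.1 with h2 | h2
      · exact ⟨3, Or.inr (by
          rw [rho3, rho3]; exact ⟨h1, by simpa using h2, by simp only; linarith [hab.1]⟩)⟩
      · exact ⟨2, Or.inr (by rw [rho2, rho2]; exact ⟨h1, h2, by simp only; linarith [hab.2]⟩)⟩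

theorem side_swap (p q r : ℝ × ℝ) : side q p r = - side p q r := by
  unfold side
  ring

/-- The count of points on the negative side is one of two numbers. -/
theorem cnt (P : Finset (ℝ × ℝ)) (k : ℕ) (p q : ℝ × ℝ) (h : IsKEdge P k p q) (i : Fin 4) :
    ((P.filter fun r => side (rho i p) (rho i q) (rho i r) < 0).card = k ∨
      (P.filter fun r => side (rho i p) (rho i q) (rho i r) < 0).card = P.card - 2 - k) ∧
    ((P.filter fun r => side (rho i q) (rho i p) (rho i r) < 0).card = k ∨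
      (P.filter fun r => side (rho i q) (rho i p) (rho i r) < 0).card = P.card - 2 - k) := by
  obtain ⟨_, _, _, h1, h2⟩ := h
  have hA : (P.filter fun r => side p q r < 0).card = P.card - 2 - k := by omega
  have hB : (P.filter fun r => side q p r < 0).card = k := by
    rw [← h1]
    congr 1
    apply Finset.filter_congr
    intro r _
    rw [side_swap p q r, neg_lt_zero]
  have hC : (P.filter fun r => - side p q r < 0).card = k := by
    rw [← h1]
    congr 1
    apply Finset.filter_congr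
    intro r _
    rw [neg_lt_zero]
  have hD : (P.filter fun r => - side q p r < 0).card = P.card - 2 - k := by
    rw [← hA]
    congr 1
    apply Finset.filter_congr
    intro r _
    rw [side_swap p q r, neg_neg]
  rcases side_rho i with hs | hs
  · simp only [hs]
    exact ⟨Or.inr hA, Or.inl hB⟩
  · simp only [hs]
    exact ⟨Or.inl hC, Or.inr hD⟩

open Classical in
/-- Pairs in the octant `i` with `k'` points on the negative side. -/
noncomputable def TT (P : Finset (ℝ × ℝ)) (i : Fin 4) (k' : ℕ) : Finset ((ℝ × ℝ) × (ℝ × ℝ)) :=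
  (P ×ˢ P).filter fun e => Oc (rho i e.1) (rho i e.2) ∧
    (P.filter fun r => side (rho i e.1) (rho i e.2) (rho i r) < 0).card = k'

theorem TT_card (P : Finset (ℝ × ℝ)) (m : ℝ) (c C : ℝ) (h3 : 3 ≤ P.card)
    (hsq : ∀ p ∈ P, |p.1| ≤ 1 ∧ |p.2| ≤ 1)
    (ha : ∀ p ∈ P, ∀ q ∈ P, ∀ r ∈ P, p ≠ q → p ≠ r → q ≠ r → 1 ≤ m * |side p q r|)
    (H : ∀ (P' : Finset (ℝ × ℝ)), P'.card = P.card →
      (∀ p ∈ P', |p.1| ≤ 1 ∧ |p.2| ≤ 1) →
      (∀ p ∈ P', ∀ q ∈ P', ∀ r ∈ P', p ≠ q → p ≠ r → q ≠ r → 1 ≤ m * |side p q r|) →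
      ∀ (k : ℕ) (T : Finset ((ℝ × ℝ) × (ℝ × ℝ))), (∀ e ∈ T, e.1 ∈ P' ∧ e.2 ∈ P' ∧ e.1.1 < e.2.1 ∧
        (P'.filter fun r => side e.1 e.2 r < 0).card = k ∧ e.2.2 ≤ e.1.2 ∧
        e.1.2 - e.2.2 ≤ e.2.1 - e.1.1) →
      (T.card : ℝ) ≤ C * (P'.card : ℝ) ^ ((4 : ℝ) / 3 - c)) (i : Fin 4) (k' : ℕ) :
    ((TT P i k').card : ℝ) ≤ C * (P.card : ℝ) ^ ((4 : ℝ) / 3 - c) := by
  classical
  have hc : (P.image (rho i)).card = P.card := Finset.card_image_of_injective P (rho_inj i)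
  have h1 := H (P.image (rho i)) hc ?_ ?_ k' ((TT P i k').image (Prod.map (rho i) (rho i))) ?_
  · rw [hc] at h1
    rw [Finset.card_image_of_injective _ ((rho_inj i).prodMap (rho_inj i))] at h1
    exact h1
  · intro p hp
    obtain ⟨p', hp', rfl⟩ := Finset.mem_image.1 hp
    exact sq_rho i p' (hsq p' hp')
  · intro p hp q hq r hr hpq hpr hqr
    obtain ⟨p', hp', rfl⟩ := Finset.mem_image.1 hp
    obtain ⟨q', hq', rfl⟩ := Finset.mem_image.1 hq
    obtain ⟨r', hr', rfl⟩ := Finset.mem_image.1 hr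
    rw [abs_side_rho]
    exact ha p' hp' q' hq' r' hr' (fun h => hpq (by rw [h])) (fun h => hpr (by rw [h]))
      (fun h => hqr (by rw [h]))
  · intro e he
    obtain ⟨e', he', rfl⟩ := Finset.mem_image.1 he
    unfold TT at he'
    rw [Finset.mem_filter, Finset.mem_product] at he'
    obtain ⟨⟨h1, h2⟩, ⟨h4, h5, h6⟩, h7⟩ := he'
    refine ⟨Finset.mem_image_of_mem _ h1, Finset.mem_image_of_mem _ h2, h4, ?_, h5, h6⟩
    rw [← h7, Finset.filter_image, Finset.card_image_of_injective _ (rho_inj i)]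
    rfl

end XPtSq

open XPtSq in
theorem I_PtSq (h : StOct) : StSq := by
  classical
  intro B hB
  obtain ⟨c, hc, C, hC, H⟩ := h B hB
  refine ⟨c, hc, 8 * C, by linarith, ?_⟩
  intro P m h3 hm hmB hsq ha k
  have H' : ∀ (P' : Finset (ℝ × ℝ)), P'.card = P.card →
      (∀ p ∈ P', |p.1| ≤ 1 ∧ |p.2| ≤ 1) →
      (∀ p ∈ P', ∀ q ∈ P', ∀ r ∈ P', p ≠ q → p ≠ r → q ≠ r → 1 ≤ m * |side p q r|) →
      ∀ (k : ℕ) (T : Finset ((ℝ × ℝ) × (ℝ × ℝ))), (∀ e ∈ T, e.1 ∈ P' ∧ e.2 ∈ P' ∧ e.1.1 < e.2.1 ∧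
        (P'.filter fun r => side e.1 e.2 r < 0).card = k ∧ e.2.2 ≤ e.1.2 ∧
        e.1.2 - e.2.2 ≤ e.2.1 - e.1.1) →
      (T.card : ℝ) ≤ C * (P'.card : ℝ) ^ ((4 : ℝ) / 3 - c) := by
    intro P' hc' h1 h2 k T hT
    exact H P' m (by rw [hc']; exact h3) hm (by rw [hc']; exact hmB) h1 h2 k T hT
  have hb := TT_card P m c C h3 hsq ha H'
  let kk : Bool → ℕ := fun b => if b then k else P.card - 2 - k
  have hsub : kEdges P k ⊆ (Finset.univ : Finset (Fin 4 × Bool)).biUnion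
      (fun ib => (TT P ib.1 (kk ib.2)).image (fun e => ({e.1, e.2} : Finset (ℝ × ℝ)))) := by
    intro e he
    unfold kEdges at he
    rw [Finset.mem_filter] at he
    obtain ⟨_, p, q, rfl, hk⟩ := he
    obtain ⟨i, hi⟩ := oct p q hk.2.2.1
    have hcn := cnt P k p q hk i
    have key : ∀ u v : ℝ × ℝ, u ∈ P → v ∈ P → Oc (rho i u) (rho i v) →
        ((P.filter fun r => side (rho i u) (rho i v) (rho i r) < 0).card = k ∨
        (P.filter fun r => side (rho i u) (rho i v) (rho i r) < 0).card = P.card - 2 - k) →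
        ({u, v} : Finset (ℝ × ℝ)) ∈ (Finset.univ : Finset (Fin 4 × Bool)).biUnion
      (fun ib => (TT P ib.1 (kk ib.2)).image (fun e => ({e.1, e.2} : Finset (ℝ × ℝ)))) := by
      intro u v hu hv ho hn
      rw [Finset.mem_biUnion]
      rcases hn with hn | hn
      · refine ⟨(i, true), Finset.mem_univ _, Finset.mem_image.2 ⟨(u, v), ?_, rfl⟩⟩
        unfold TT
        rw [Finset.mem_filter, Finset.mem_product]
        exact ⟨⟨hu, hv⟩, ho, by simpa [kk] using hn⟩
      · refine ⟨(i, false), Finset.mem_univ _, Finset.mem_image.2 ⟨(u, v), ?_, rfl⟩⟩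
        unfold TT
        rw [Finset.mem_filter, Finset.mem_product]
        exact ⟨⟨hu, hv⟩, ho, by simpa [kk] using hn⟩
    rcases hi with hi | hi
    · exact key p q hk.1 hk.2.1 hi hcn.1
    · rw [Finset.pair_comm]
      exact key q p hk.2.1 hk.1 hi hcn.2
  have h1 := (Finset.card_le_card hsub).trans Finset.card_biUnion_le
  have h2 : ∑ ib : Fin 4 × Bool, ((TT P ib.1 (kk ib.2)).image
      (fun e => ({e.1, e.2} : Finset (ℝ × ℝ)))).card ≤
      ∑ ib : Fin 4 × Bool, (TT P ib.1 (kk ib.2)).card :=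
    Finset.sum_le_sum fun ib _ => Finset.card_image_le
  have h4 : ((kEdges P k).card : ℝ) ≤ ∑ ib : Fin 4 × Bool, ((TT P ib.1 (kk ib.2)).card : ℝ) := by
    exact_mod_cast h1.trans h2
  have h5 : ∑ ib : Fin 4 × Bool, ((TT P ib.1 (kk ib.2)).card : ℝ) ≤
      ∑ _ib : Fin 4 × Bool, C * (P.card : ℝ) ^ ((4 : ℝ) / 3 - c) :=
    Finset.sum_le_sum fun ib _ => hb ib.1 (kk ib.2)
  rw [Finset.sum_const, Finset.card_univ, Fintype.card_prod, Fintype.card_fin, Fintype.card_bool,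
    nsmul_eq_mul] at h5
  push_cast at h5
  linarith

end Pool.Agent.Work.MP_e17eac_co.PS
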