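import Pool.Agent.Work.MP_e17eac_co.Bd.B23

/-!
# Project PS, item PtWp: edges of slope in (-1, 0] of a normalised point set
-/

namespace Pool.Agent.Work.MP_e17eac_co.PS

open Finset
open Pool.Agent.Work.MP_e17eac_co.DH

namespace XPtWp

/-- The number of lines below is the number of points with negative determinant. -/
theorem lvl_eq (P : Finset (ℝ × ℝ)) (p q : ℝ × ℝ) (hp : p ∈ P) (hq : q ∈ P) :
    lvl (ι := P) (fun i => (i : ℝ × ℝ).1) (fun i => (i : ℝ × ℝ).2) ⟨p, hp⟩ ⟨q, hq⟩ =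
      (P.filter fun r => side p q r < 0).card := by
  classical
  unfold lvl
  refine Finset.card_bij (fun i _ => (i : ℝ × ℝ)) ?_ ?_ ?_
  · intro i hi
    rw [Finset.mem_filter] at hi ⊢
    exact ⟨i.2, hi.2⟩
  · intro i _ j _ h
    exact Subtype.ext h
  · intro r hr
    rw [Finset.mem_filter] at hr
    exact ⟨⟨r, hr.1⟩, Finset.mem_filter.2 ⟨Finset.mem_univ _, hr.2⟩, rfl⟩

end XPtWp

open XPtWp in
theorem I_PtWp (hW : StWinPS) (hS : StSweepY) (hG : StGap) : StWP := by
  classical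
  intro B hB
  obtain ⟨c, hc, C, hC, hwin⟩ := hW (B + 1) (by linarith)
  refine ⟨c, hc, C, hC, ?_⟩
  intro P m hm hmB h01 hsep harea k T hT
  have hm0 : 0 < m := by linarith
  rcases Nat.lt_or_ge P.card 2 with hcard | hcard
  · have hT0 : T = ∅ := by
      apply Finset.eq_empty_of_forall_notMem
      intro e he
      obtain ⟨h1, h2, h3, -⟩ := hT e he
      have : e.1 = e.2 := Finset.card_le_one.1 (by omega) _ h1 _ h2
      rw [this] at h3
      exact lt_irrefl _ h3
    rw [hT0]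
    simp only [Finset.card_empty, Nat.cast_zero]
    positivity
  have hne : P.Nonempty := Finset.card_pos.1 (by omega)
  obtain ⟨p0, hp0⟩ := hne
  haveI : Nonempty P := ⟨⟨p0, hp0⟩⟩
  have hinj : Function.Injective (fun i : P => (i : ℝ × ℝ).1) := by
    intro i j h
    by_contra hij
    have h1 := hsep i i.2 j j.2 (fun h' => hij (Subtype.ext h'))
    have h2 : (i : ℝ × ℝ).1 - (j : ℝ × ℝ).1 = 0 := sub_eq_zero.2 h
    rw [h2, abs_zero, mul_zero] at h1
    linarith
  have hdet : ∀ i j l : P, i ≠ j → i ≠ l → j ≠ l →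
      1 ≤ m * |det3 (ι := P) (fun i => (i : ℝ × ℝ).1) (fun i => (i : ℝ × ℝ).2) i j l| := by
    intro i j l hij hil hjl
    exact harea i i.2 j j.2 l l.2 (fun h => hij (Subtype.ext h)) (fun h => hil (Subtype.ext h))
      (fun h => hjl (Subtype.ext h))
  have hdet0 : ∀ i j l : P, i ≠ j → i ≠ l → j ≠ l →
      det3 (ι := P) (fun i => (i : ℝ × ℝ).1) (fun i => (i : ℝ × ℝ).2) i j l ≠ 0 := by
    intro i j l hij hil hjl h
    have := hdet i j l hij hil hjl
    rw [h, abs_zero, mul_zero] at this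
    linarith
  obtain ⟨K, hKx, hKy, hKlvl, hKex⟩ := hS P (fun i => (i : ℝ × ℝ).1) (fun i => (i : ℝ × ℝ).2) k
    (fun i => h01 i i.2) hinj hdet0
  have hcardP : Fintype.card P = P.card := Fintype.card_coe P
  have hWin : Win K (2 * m) := by
    refine ⟨by linarith, ?_, ?_, ?_⟩
    · intro i j hij
      rw [hKx]
      have h1 := hsep i i.2 j j.2 (fun h' => hij (Subtype.ext h'))
      have h2 : 2 * m * |(i : ℝ × ℝ).1 - (j : ℝ × ℝ).1| =
          2 * (m * |(i : ℝ × ℝ).1 - (j : ℝ × ℝ).1|) := by ring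
      show 1 ≤ 2 * m * |(i : ℝ × ℝ).1 - (j : ℝ × ℝ).1|
      rw [h2]
      linarith
    · rw [hKx, hKy]
      exact hdet0
    · apply hG P K m hm0
      rw [hKx, hKy]
      exact hdet
  have hP2 : (2 : ℝ) ≤ (P.card : ℝ) := by exact_mod_cast hcard
  have hP0 : (0 : ℝ) < (P.card : ℝ) := by linarith
  have hbound : 2 * m ≤ (Fintype.card P : ℝ) ^ (B + 1) := by
    rw [hcardP, Real.rpow_add hP0, Real.rpow_one]
    calc 2 * m = m * 2 := by ring
      _ ≤ (P.card : ℝ) ^ B * (P.card : ℝ) :=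
        mul_le_mul hmB hP2 (by norm_num) (Real.rpow_nonneg hP0.le _)
  have hmain := hwin P K (2 * m) hWin hbound
  rw [hcardP] at hmain
  refine le_trans ?_ hmain
  have hidx : ∀ e ∈ T, ∃ n, n < K.N ∧ ((K.b n : P) : ℝ × ℝ) = e.1 ∧
      ((K.a n : P) : ℝ × ℝ) = e.2 ∧ 0 ≤ K.t n ∧ K.t n < 1 := by
    intro e he
    obtain ⟨h1, h2, h3, h4, h5, h6⟩ := hT e he
    obtain ⟨n, hn, hb, ha⟩ := hKex ⟨e.1, h1⟩ ⟨e.2, h2⟩ h3 (by rw [lvl_eq]; exact h4)
    have hmeet := K.meet n hn
    rw [hKx, hKy, ha, hb] at hmeet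
    simp only at hmeet
    have hpos : 0 < e.2.1 - e.1.1 := by linarith
    have ht : (e.2.1 - e.1.1) * K.t n = e.1.2 - e.2.2 := by linarith
    refine ⟨n, hn, by rw [hb], by rw [ha], ?_, ?_⟩
    · by_contra hneg
      push Not at hneg
      have := mul_neg_of_pos_of_neg hpos hneg
      linarith
    · by_contra hge
      push Not at hge
      have := mul_le_mul_of_nonneg_left hge hpos.le
      linarith
  choose! f hf1 hf2 hf3 hf4 hf5 using hidx
  have : T.card ≤ ((range K.N).filter (fun n => 0 ≤ K.t n ∧ K.t n < 1)).card := by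
    apply Finset.card_le_card_of_injOn f
    · intro e he
      have he' : e ∈ T := he
      rw [Finset.mem_coe, Finset.mem_filter, Finset.mem_range]
      exact ⟨hf1 e he', hf4 e he', hf5 e he'⟩
    · intro e he e' he' h
      have he1 : e ∈ T := he
      have he2 : e' ∈ T := he'
      have a1 := hf2 e he1
      have a2 := hf2 e' he2
      have b1 := hf3 e he1
      have b2 := hf3 e' he2
      rw [h] at a1 b1
      exact Prod.ext (a1.symm.trans a2) (b1.symm.trans b2)
  exact_mod_cast this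

end Pool.Agent.Work.MP_e17eac_co.PS
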