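import Pool.Agent.Work.MP_e17eac_co.PS.Lg

/-!
# Project PS: Dey in the cells (Q3)
-/

namespace Pool.Agent.Work.MP_e17eac_co.PS

open Finset
open Pool.Agent.Work.MP_e17eac_co.DH

namespace XQ3

variable {ι : Type} [Fintype ι] [DecidableEq ι]

theorem toReg (X : RS ι) (h : X.OK0) : Reg X.K X.Q X.J X.E X.Λ X.D where
  sub := h.sub
  ne := h.ne
  one_le := h.hL
  regM := h.regM
  regL := h.regL
  regT := h.regT
  dlo := h.dlo
  dhi := h.dhi

theorem PL_eq (X : RS ι) (s : Bool) (j : ℕ) :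
    X.lL s j = X.lg (PL X.K X.Q X.E s j : ℝ) := rfl

theorem PT_eq (X : RS ι) (p : Bool) (j : ℕ) :
    X.lT p j = X.lg (PT X.K X.Q X.E p j : ℝ) := rfl

theorem PM_eq (X : RS ι) (j : ℕ) : X.lM j = X.lg (PM X.K X.Q X.E j : ℝ) := rfl

theorem PL_pos (X : RS ι) (h : X.OK0) (s : Bool) (j : ℕ) : (0 : ℝ) < PL X.K X.Q X.E s j :=
  lt_of_lt_of_le one_pos (h.im_pos (fun n => (X.K.cell X.Q j n, X.K.ln s n)))

theorem PT_pos (X : RS ι) (h : X.OK0) (p : Bool) (j : ℕ) : (0 : ℝ) < PT X.K X.Q X.E p j :=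
  lt_of_lt_of_le one_pos (h.im_pos (fun n => (X.K.cell X.Q j n, X.K.tok p n)))

theorem PM_pos (X : RS ι) (h : X.OK0) (j : ℕ) : (0 : ℝ) < PM X.K X.Q X.E j :=
  lt_of_lt_of_le one_pos (h.im_pos (fun n => X.K.cell X.Q j n))

theorem cond (hQ1 : StQ1) (hQ2 : StQ2) (X : RS ι) (h : X.OK0) (j : ℕ) (hj : j ≤ X.J)
    (s : Bool) : 16 * X.Λ ^ 3 * (PL X.K X.Q X.E s j : ℝ) ≤ X.E.card := by
  have hE := (hQ1 ι X h).1
  have hL := (hQ2 ι X h j hj).1 s
  have hP := PL_pos X h s j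
  have hΛ := h.L_pos
  refine h.le_of_lg (by positivity) h.card_pos ?_
  rw [h.lg_mul (by positivity) hP, h.lg_mul (by norm_num) (by positivity), h.lg_pow]
  have h16 : X.lg 16 ≤ ((4 : ℕ) : ℝ) / 20 := h.lg_const (by norm_num) 4 (by norm_num)
  have hl := h.lgL_le
  rw [PL_eq] at hL
  have hJ : X.s * (j : ℝ) ≤ X.J := by
    have h1 : (j : ℝ) ≤ X.J := by exact_mod_cast hj
    have h2 : (0 : ℝ) ≤ j := Nat.cast_nonneg j
    nlinarith [h.hs1, h.hs0]
  obtain ⟨hw1, hw2⟩ := h.J_le_w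
  have hEe : X.lE = X.lg (X.E.card : ℝ) := rfl
  rw [hEe] at hE
  push_cast at h16 ⊢
  linarith

theorem main (hDey2 : StDey2) (hQ1 : StQ1) (hQ2 : StQ2) (X : RS ι) (h : X.OK0) (j : ℕ)
    (hj : j ≤ X.J) :
    4 * X.w + X.s * j - 10 ≤ X.lL false j + X.lL true j + X.lT false j + X.lT true j := by
  obtain ⟨m, hm, hsep⟩ := h.sep
  have hQ : 1 ≤ X.Q := by
    have := h.hQ
    norm_num at this
    omega
  have h1 := hDey2 ι X.K m X.Q X.J X.E X.Λ X.D (by linarith) hsep hQ (toReg X h) j hj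
    (cond hQ1 hQ2 X h j hj false) (cond hQ1 hQ2 X h j hj true)
  have hM := PM_pos X h j
  have hLf := PL_pos X h false j
  have hLt := PL_pos X h true j
  have hTf := PT_pos X h false j
  have hTt := PT_pos X h true j
  have hE := h.card_pos
  have hΛ := h.L_pos
  have h2 := h.lg_le (by positivity) h1
  rw [h.lg_mul hM (by positivity), h.lg_pow, h.lg_mul (by positivity) (by positivity),
    h.lg_mul (by norm_num) (by positivity), h.lg_pow, h.lg_mul (by positivity) (by positivity),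
    h.lg_mul hLf hLt, h.lg_mul hTf hTt] at h2
  have hc : X.lg 2048 ≤ ((11 : ℕ) : ℝ) / 20 := h.lg_const (by norm_num) 11 (by norm_num)
  have hl := h.lgL_le
  obtain ⟨hE1, hM1, _⟩ := hQ1 ι X h
  have hM2 := (hM1 j hj).1
  have hEe : X.lE = X.lg (X.E.card : ℝ) := rfl
  rw [hEe] at hE1
  rw [PM_eq] at hM2
  rw [PL_eq, PL_eq, PT_eq, PT_eq]
  push_cast at h2 hc
  linarith

end XQ3

theorem I_Q3 (hDey2 : StDey2) (hQ1 : StQ1) (hQ2 : StQ2) : StQ3 := by
  intro ι _ _ X h j hj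
  have h1 := XQ3.main hDey2 hQ1 hQ2 X h j hj
  obtain ⟨hL, hT⟩ := hQ2 ι X h j hj
  have a1 := hL false
  have a2 := hL true
  have a3 := hT false
  have a4 := hT true
  constructor
  · intro s
    cases s <;> linarith
  · intro p
    cases p <;> linarith

end Pool.Agent.Work.MP_e17eac_co.PS
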