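import Pool.Agent.Work.MP_e17eac_co.PS.SP

/-!
# Assembly of the sum-product theorem
-/

set_option autoImplicit false

namespace Pool.Agent.Work.MP_e17eac_co.PS

open Finset
open scoped Pointwise

namespace XSp

theorem floor_div_near {x q : ℝ} (hq : 1 ≤ q) :
    |⌊(1 / q) * ((⌊x⌋ : ℤ) : ℝ)⌋ - ⌊x / q⌋| ≤ ((1 : ℕ) : ℤ) := by
  have hq0 : 0 < q := by linarith
  have h1 : ((⌊x⌋ : ℤ) : ℝ) ≤ x := Int.floor_le x
  have h2 : x - 1 < ((⌊x⌋ : ℤ) : ℝ) := Int.sub_one_lt_floor x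
  have h3 : (1 / q) * ((⌊x⌋ : ℤ) : ℝ) ≤ x / q := by
    rw [div_mul_eq_mul_div, one_mul]
    exact div_le_div_of_nonneg_right h1 hq0.le
  have h4 : x / q - 1 < (1 / q) * ((⌊x⌋ : ℤ) : ℝ) := by
    rw [div_mul_eq_mul_div, one_mul, sub_lt_iff_lt_add]
    have h5 : x / q < (((⌊x⌋ : ℤ) : ℝ) + 1) / q := div_lt_div_of_pos_right (by linarith) hq0
    have h6 : (((⌊x⌋ : ℤ) : ℝ) + 1) / q = ((⌊x⌋ : ℤ) : ℝ) / q + 1 / q := by ring
    have h7 : 1 / q ≤ 1 := by rw [div_le_one hq0]; exact hq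
    linarith
  have h5 : ⌊(1 / q) * ((⌊x⌋ : ℤ) : ℝ)⌋ ≤ ⌊x / q⌋ := Int.floor_le_floor h3
  have h6 : ⌊x / q⌋ - 1 ≤ ⌊(1 / q) * ((⌊x⌋ : ℤ) : ℝ)⌋ := by
    rw [Int.le_floor]
    push_cast
    have := Int.floor_le (x / q)
    linarith
  rw [abs_le]
  push_cast
  constructor <;> linarith

theorem lam_sub {t t' t1 t2 : ℝ} (h : t2 - t ≠ 0) (h' : t2 - t' ≠ 0) :
    (t - t1) / (t2 - t) - (t' - t1) / (t2 - t') =
      (t - t') * (t2 - t1) / ((t2 - t) * (t2 - t')) := by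
  field_simp
  ring

/-- the final computation -/
theorem final {K σ y L : ℝ} {n1 n2 n3 : ℝ} (hK : 2 ≤ K) (hσ : 0 < σ) (hσ' : σ ≤ 1 / 2)
    (hy : 0 < y) (hL : L = K ^ (12 + 9 / σ)) (h1 : y ≤ K * n1)
    (h2 : n1 ≤ K ^ (7 : ℕ) * n2) (h3 : n2 ≤ L ^ (260 : ℕ) * n3) (hn3 : 0 ≤ n3)
    (h4 : n3 ≤ 1 ∨ n3 ^ 2 ≤ K ^ (162000000 / σ ^ 2) * (y * K ^ (9 : ℕ) * L ^ σ)) :
    y ≤ K ^ (1000000000 / σ ^ 2) := by
  have hK1 : (1 : ℝ) ≤ K := by linarith
  have hK0 : (0 : ℝ) < K := by linarith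
  have hs1 : 1 ≤ 1 / σ ^ 2 := by
    rw [le_div_iff₀ (by positivity)]
    nlinarith
  have hs2 : 1 / σ ≤ 1 / σ ^ 2 := by
    rw [div_le_div_iff₀ hσ (by positivity)]
    nlinarith
  have hL15 : L ≤ K ^ (21 / σ ^ 2) := by
    rw [hL]
    apply Real.rpow_le_rpow_of_exponent_le hK1
    have e1 : 9 / σ = 9 * (1 / σ) := by ring
    have e2 : 21 / σ ^ 2 = 21 * (1 / σ ^ 2) := by ring
    rw [e1, e2]
    linarith
  have hL0 : 0 < L := by rw [hL]; positivity
  have hL1 : 1 ≤ L := by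
    rw [hL]
    exact Real.one_le_rpow hK1 (by positivity)
  have hLσ : L ^ σ ≤ L := by
    calc L ^ σ ≤ L ^ (1 : ℝ) := Real.rpow_le_rpow_of_exponent_le hL1 (by linarith)
      _ = L := Real.rpow_one L
  have hy2 : y ≤ K ^ (8 : ℕ) * L ^ (260 : ℕ) * n3 := by
    calc y ≤ K * n1 := h1
      _ ≤ K * (K ^ (7 : ℕ) * n2) := by gcongr
      _ ≤ K * (K ^ (7 : ℕ) * (L ^ (260 : ℕ) * n3)) := by gcongr
      _ = K ^ (8 : ℕ) * L ^ (260 : ℕ) * n3 := by ring
  set w : ℝ := K ^ (1 / σ ^ 2) with hw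
  have hw1 : 1 ≤ w := Real.one_le_rpow hK1 (by positivity)
  have hw0 : 0 < w := by linarith
  have hKw : K ≤ w := by
    calc K = K ^ (1 : ℝ) := (Real.rpow_one K).symm
      _ ≤ w := Real.rpow_le_rpow_of_exponent_le hK1 hs1
  have hpw : ∀ n : ℕ, K ^ ((n : ℝ) / σ ^ 2) = w ^ n := by
    intro n
    rw [hw, ← Real.rpow_natCast (K ^ (1 / σ ^ 2)) n, ← Real.rpow_mul hK0.le]
    congr 1
    ring
  have hLw : L ≤ w ^ 21 := by
    have := hpw 21
    push_cast at this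
    rw [← this]
    exact hL15
  have hgoal : K ^ (1000000000 / σ ^ 2) = w ^ 1000000000 := by
    have := hpw 1000000000
    push_cast at this
    exact this
  rw [hgoal]
  rcases h4 with h4 | h4
  · calc y ≤ K ^ (8 : ℕ) * L ^ (260 : ℕ) * n3 := hy2
      _ ≤ w ^ 8 * (w ^ 21) ^ 260 * 1 := by gcongr
      _ = w ^ 5468 := by rw [← pow_mul, mul_one, ← pow_add]
      _ ≤ w ^ 1000000000 := pow_le_pow_right₀ hw1 (by norm_num)
  · have h5 : K ^ (162000000 / σ ^ 2) = w ^ 162000000 := by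
      have := hpw 162000000
      push_cast at this
      exact this
    rw [h5] at h4
    have h6 : y * y ≤ y * (w ^ 1000000000) := by
      calc y * y ≤ (K ^ (8 : ℕ) * L ^ (260 : ℕ) * n3) * (K ^ (8 : ℕ) * L ^ (260 : ℕ) * n3) :=
            mul_le_mul hy2 hy2 hy.le (by positivity)
        _ = K ^ (16 : ℕ) * L ^ (520 : ℕ) * n3 ^ 2 := by ring
        _ ≤ K ^ (16 : ℕ) * L ^ (520 : ℕ) * (w ^ 162000000 * (y * K ^ (9 : ℕ) * L ^ σ)) := by
            gcongr
        _ ≤ w ^ (16 : ℕ) * (w ^ 21) ^ (520 : ℕ) * (w ^ 162000000 * (y * w ^ (9 : ℕ) * w ^ 21)) := by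
            have := hLσ.trans hLw
            gcongr
        _ = y * w ^ (16 + 21 * 520 + (162000000 + 9 + 21)) := by
            rw [← pow_mul, pow_add w (16 + 21 * 520), pow_add w 16, pow_add w (162000000 + 9),
              pow_add w 162000000]
            ring
        _ ≤ y * (w ^ 1000000000) := by
            apply mul_le_mul_of_nonneg_left _ hy.le
            exact pow_le_pow_right₀ hw1 (by norm_num)
    exact le_of_mul_le_mul_left h6 hy

end XSp

open XSp in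
theorem I_Sp (hErr : StErr) (hFl : StFl) (hEnd : StEnd) (hTri : StTri) (hPr1 : StPr1)
    (hPr2 : StPr2) (hZcl : StZcl) : StSp := by
  refine ⟨1000000000, by norm_num, ?_⟩
  intro K σ R ξ A T At H hbig
  have hK := H.hK
  have hσ := H.hσ
  have hσ' := H.hσ'
  have hR := H.hR
  have hξ := H.hξ
  have hξ' := H.hξ'
  have hK1 : (1 : ℝ) ≤ K := by linarith
  have hK0 : (0 : ℝ) < K := by linarith
  have hy : 0 < ξ ^ (-σ) := Real.rpow_pos_of_pos hξ _
  have hs2 : 1 ≤ 1 / σ ^ 2 := by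
    rw [le_div_iff₀ (by positivity)]
    nlinarith
  have hs3 : 1 / σ ≤ 1 / σ ^ 2 := by
    rw [div_le_div_iff₀ hσ (by positivity)]
    nlinarith
  rcases lt_or_ge (K ^ (-(9 / σ))) ξ with hcase | hcase
  · have h1 : ξ ^ (-σ) ≤ (K ^ (-(9 / σ))) ^ (-σ) :=
      Real.rpow_le_rpow_of_nonpos (by positivity) hcase.le (by linarith)
    have h2 : (K ^ (-(9 / σ))) ^ (-σ) = K ^ (9 : ℝ) := by
      rw [← Real.rpow_mul hK0.le]
      congr 1
      field_simp
    rw [h2] at h1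
    refine h1.trans (Real.rpow_le_rpow_of_exponent_le hK1 ?_)
    have : (1000000000 : ℝ) / σ ^ 2 = 1000000000 * (1 / σ ^ 2) := by ring
    rw [this]
    linarith
  obtain ⟨t1, ht1, t2, ht2, T', hT', h12, hcard, hT'p, hpos, hpos2⟩ := hPr1 K σ R ξ A T At H hcase
  set L : ℝ := K ^ (12 + 9 / σ) with hL
  have hKL : K ≤ L := by
    calc K = K ^ (1 : ℝ) := (Real.rpow_one K).symm
      _ ≤ L := Real.rpow_le_rpow_of_exponent_le hK1 (by
          have : 0 < 9 / σ := by positivity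
          linarith)
  have hL2 : 2 ≤ L := hK.trans hKL
  have hL0 : 0 < L := by linarith
  have hL1 : 1 ≤ L := by linarith
  set N : ℝ := K * R ^ σ with hN
  have hRσ : 1 ≤ R ^ σ := Real.one_le_rpow hR hσ.le
  have hN0 : 0 < N := by positivity
  have hTne : T'.Nonempty := by
    rw [← card_pos]
    by_contra hcon
    have h0 : T'.card = 0 := by omega
    rw [h0] at hcard
    have h1 := H.Tlo
    have h2 : (T.card : ℝ) ≤ 0 := by simpa using hcard
    have h3 : K * (T.card : ℝ) ≤ 0 := mul_nonpos_of_nonneg_of_nonpos hK0.le h2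
    linarith
  set U : Finset ℤ := (At t1).image (fun p => ⌊(p.2 : ℝ) + (p.1 : ℝ) * t1⌋) with hU
  set V : Finset ℤ := (At t2).image (fun p => ⌊(p.2 : ℝ) + (p.1 : ℝ) * t2⌋) with hV
  have hUc : (U.card : ℝ) ≤ N := by
    have := H.crs t1 ht1 1 le_rfl hR
    simpa only [div_one] using this
  have hVc : (V.card : ℝ) ≤ N := by
    have := H.crs t2 ht2 1 le_rfl hR
    simpa only [div_one] using this
  set lam : ℝ → ℝ := fun t => (t - t1) / (t2 - t) with hlam
  set G : ℝ → Finset (ℤ × ℤ) := fun t => (At t1 ∩ At t2 ∩ At t).image (fun p =>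
    (⌊(p.2 : ℝ) + (p.1 : ℝ) * t1⌋, ⌊(p.2 : ℝ) + (p.1 : ℝ) * t2⌋)) with hG
  have hP2 : ∀ t ∈ T', N ^ 2 ≤ L * (G t).card ∧
      (((G t).image (fun p => p.1 + ⌊lam t * (p.2 : ℝ)⌋)).card : ℝ) ≤ L * N ∧
      L⁻¹ ≤ |lam t| ∧ |lam t| ≤ L := by
    intro t ht
    obtain ⟨a1, a2, a3⟩ := hT'p t ht
    exact hPr2 K σ R ξ A T At H t1 ht1 t2 ht2 t (hT' ht) h12 a1 a2 a3
  obtain ⟨t0, ht0, T1, hT1, V0, hV0, c1, c2, c3, c4⟩ := hTri U V T' lam G L N hL2 hN0 hUc hVc hTne
    (fun t ht => (hP2 t ht).2.2) hpos (fun t ht => ⟨by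
      intro x hx
      obtain ⟨p, hp, rfl⟩ := mem_image.1 hx
      rw [mem_inter, mem_inter] at hp
      exact mem_product.2 ⟨mem_image_of_mem _ hp.1.1, mem_image_of_mem _ hp.1.2⟩,
      (hP2 t ht).1, (hP2 t ht).2.1⟩)
  have hV0ne : V0.Nonempty := by
    rw [← card_pos]
    by_contra hcon
    have h0 : V0.card = 0 := by omega
    rw [h0] at c2
    simp only [Nat.cast_zero, mul_zero] at c2
    linarith
  have hZC : ZC (L ^ 270) σ R (fl (lam t0) V0) := by
    refine hZcl K σ R V V0 (lam t0) L hK hσ hσ' hR hKL ?_ ?_ ?_ hV0 hV0ne (hP2 t0 ht0).2.2.1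
      (hP2 t0 ht0).2.2.2 ?_
    · intro v hv
      obtain ⟨p, hp, rfl⟩ := mem_image.1 hv
      obtain ⟨b1, b2⟩ := H.box p (H.sub t2 ht2 hp)
      obtain ⟨b3, b4⟩ := H.T01 t2 ht2
      have e1 := Int.floor_le ((p.2 : ℝ) + (p.1 : ℝ) * t2)
      have e2 := Int.sub_one_lt_floor ((p.2 : ℝ) + (p.1 : ℝ) * t2)
      have e3 : |(p.1 : ℝ) * t2| ≤ R := by
        rw [abs_mul, abs_of_nonneg b3]
        calc |(p.1 : ℝ)| * t2 ≤ R * 1 := mul_le_mul b1 b4 b3 (by linarith)
          _ = R := mul_one R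
      rw [abs_le] at b2 e3 ⊢
      constructor <;> linarith [b2.1, b2.2, e3.1, e3.2]
    · exact H.loc t2 ht2
    · intro q hq1 hqR
      have e1 := hErr (sc q V) ((At t2).image (fun p => ⌊((p.2 : ℝ) + (p.1 : ℝ) * t2) / q⌋)) 1 (by
        intro x hx
        obtain ⟨v, hv, rfl⟩ := mem_image.1 hx
        obtain ⟨p, hp, rfl⟩ := mem_image.1 hv
        exact ⟨_, mem_image_of_mem _ hp, floor_div_near hq1⟩)
      have e2 := H.crs t2 ht2 q hq1 hqR
      have e3 : ((sc q V).card : ℝ) ≤ 3 * (((At t2).image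
          (fun p => ⌊((p.2 : ℝ) + (p.1 : ℝ) * t2) / q⌋)).card : ℝ) := by
        exact_mod_cast e1
      linarith
    · refine le_trans ?_ c2
      rw [hN]
      nlinarith
  set Z := fl (lam t0) V0 with hZ
  have hlt0 : 0 < |lam t0| := (inv_pos.2 hL0).trans_le (hP2 t0 ht0).2.2.1
  have hlne : lam t0 ≠ 0 := abs_pos.1 hlt0
  set ρ : ℝ := ξ * K ^ (-(9 / σ)) / L with hρ
  have hKn : 0 < K ^ (-(9 / σ)) := by positivity
  have hKn1 : K ^ (-(9 / σ)) ≤ 1 := by
    apply Real.rpow_le_one_of_one_le_of_nonpos hK1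
    have : 0 < 9 / σ := by positivity
    linarith
  have hρ0 : 0 < ρ := by positivity
  have hρ1 : ρ ≤ 1 := by
    rw [hρ, div_le_one hL0]
    calc ξ * K ^ (-(9 / σ)) ≤ 1 * 1 := mul_le_mul hξ' hKn1 hKn.le zero_le_one
      _ ≤ L := by linarith
  have hsep : ∀ t ∈ T1, ∀ t' ∈ T1, t ≠ t' → ρ ≤ |lam t / lam t0 - lam t' / lam t0| := by
    intro t ht t' ht' hne
    have hTt := hT' (hT1 ht)
    have hTt' := hT' (hT1 ht')
    obtain ⟨-, a2, -⟩ := hT'p t (hT1 ht)
    obtain ⟨-, a2', -⟩ := hT'p t' (hT1 ht')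
    have n1 : 0 < |t2 - t| := by rw [abs_sub_comm]; linarith
    have n2 : 0 < |t2 - t'| := by rw [abs_sub_comm]; linarith
    have l1 : |t2 - t| ≤ 1 := by
      obtain ⟨b1, b2⟩ := H.T01 t2 ht2
      obtain ⟨b3, b4⟩ := H.T01 t hTt
      rw [abs_le]; constructor <;> linarith
    have l2 : |t2 - t'| ≤ 1 := by
      obtain ⟨b1, b2⟩ := H.T01 t2 ht2
      obtain ⟨b3, b4⟩ := H.T01 t' hTt'
      rw [abs_le]; constructor <;> linarith
    rw [← sub_div, hlam]
    simp only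
    rw [lam_sub (abs_pos.1 n1) (abs_pos.1 n2), abs_div, abs_div, abs_mul, abs_mul, hρ]
    have e1 : ξ * K ^ (-(9 / σ)) ≤ |t - t'| * |t2 - t1| / (|t2 - t| * |t2 - t'|) := by
      rw [le_div_iff₀ (mul_pos n1 n2)]
      calc ξ * K ^ (-(9 / σ)) * (|t2 - t| * |t2 - t'|) ≤ ξ * K ^ (-(9 / σ)) * (1 * 1) := by
            gcongr
        _ = ξ * K ^ (-(9 / σ)) := by ring
        _ ≤ |t - t'| * |t2 - t1| := by
            apply mul_le_mul (H.Tsep t hTt t' hTt' hne) _ hKn.le (abs_nonneg _)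
            rw [abs_sub_comm]; exact h12
    exact div_le_div₀ (by positivity) e1 hlt0 (hP2 t0 ht0).2.2.2
  have hinj : Set.InjOn (fun t => lam t / lam t0) (T1 : Set ℝ) := by
    intro t ht t' ht' hEq
    by_contra hne
    have h1 := hsep t ht t' ht' hne
    simp only at hEq
    rw [hEq, sub_self, abs_zero] at h1
    linarith
  set TT : Finset ℝ := T1.image (fun t => lam t / lam t0) with hTT
  have hTTc : TT.card = T1.card := card_image_of_injOn hinj
  have hLL : L ^ 260 ≤ L ^ 270 := pow_le_pow_right₀ hL1 (by norm_num)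
  have hfin : (T1.card : ℝ) ≤ 1 ∨ (T1.card : ℝ) ^ 2 ≤
      K ^ (162000000 / σ ^ 2) * (ξ ^ (-σ) * K ^ (9 : ℕ) * L ^ σ) := by
    rcases Nat.lt_or_ge T1.card 2 with h2 | h2
    · left
      exact_mod_cast (by omega : T1.card ≤ 1)
    right
    have hKp : (L ^ 270) ^ (40000 / σ) ≤ K ^ (162000000 / σ ^ 2) := by
      rw [← Real.rpow_natCast L 270, hL, ← Real.rpow_mul hK0.le, ← Real.rpow_mul hK0.le]
      apply Real.rpow_le_rpow_of_exponent_le hK1
      have e1 : (12 + 9 / σ) * ((270 : ℕ) : ℝ) * (40000 / σ) =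
          10800000 * (12 * (1 / σ) + 9 * (1 / σ ^ 2)) := by
        push_cast
        field_simp
        ring
      have e2 : (162000000 : ℝ) / σ ^ 2 = 162000000 * (1 / σ ^ 2) := by ring
      have e3 : 1 / σ ≤ 1 / 2 * (1 / σ ^ 2) := by
        have : 1 / 2 * (1 / σ ^ 2) = (1 / (2 * σ)) * (1 / σ) := by field_simp
        rw [this]
        have h5 : 1 ≤ 1 / (2 * σ) := by
          rw [le_div_iff₀ (by positivity)]
          linarith
        have h6 : 0 < 1 / σ := by positivity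
        nlinarith
      rw [e1, e2]
      linarith
    have hE := hEnd Z (L ^ 270) σ R ρ TT hZC
      (c3.trans (mul_le_mul_of_nonneg_right hLL (Nat.cast_nonneg _))) ?_ ?_ hρ0 hρ1 ?_ ?_ ?_
    · rw [hTTc] at hE
      refine hE.trans ?_
      have e1 : ρ ^ (-σ) = ξ ^ (-σ) * K ^ (9 : ℕ) * L ^ σ := by
        rw [hρ, div_eq_mul_inv, Real.mul_rpow (by positivity) (by positivity),
          Real.mul_rpow hξ.le hKn.le, ← Real.rpow_mul hK0.le, Real.inv_rpow hL0.le,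
          Real.rpow_neg hL0.le, inv_inv]
        congr 2
        rw [← Real.rpow_natCast]
        congr 1
        push_cast
        field_simp
      rw [e1]
      exact mul_le_mul_of_nonneg_right hKp (by positivity)
    · intro m hm
      obtain ⟨t, ht, rfl⟩ := mem_image.1 hm
      have g1 := hpos t (hT1 ht) t0 ht0
      have g2 : 0 < lam t / lam t0 := by
        rcases pos_and_pos_or_neg_and_neg_of_mul_pos g1 with h | h
        · exact div_pos h.1 h.2
        · exact div_pos_of_neg_of_neg h.1 h.2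
      have g3 : lam t / lam t0 = |lam t| / |lam t0| := by
        rw [← abs_div, abs_of_pos g2]
      rw [g3]
      have g4 := (hP2 t (hT1 ht)).2.2
      have g5 := (hP2 t0 ht0).2.2
      constructor
      · calc (L ^ 270)⁻¹ ≤ (L ^ 2)⁻¹ := by
              apply inv_anti₀ (by positivity)
              exact pow_le_pow_right₀ hL1 (by norm_num)
          _ = L⁻¹ / L := by field_simp
          _ ≤ |lam t| / |lam t0| := div_le_div₀ (abs_nonneg _) g4.1 hlt0 g5.2
      · calc |lam t| / |lam t0| ≤ L / L⁻¹ := div_le_div₀ hL0.le g4.2 (by positivity) g5.1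
          _ = L ^ 2 := by field_simp
          _ ≤ L ^ 270 := pow_le_pow_right₀ hL1 (by norm_num)
    · intro m hm
      obtain ⟨t, ht, rfl⟩ := mem_image.1 hm
      exact (c4 t ht).trans (mul_le_mul_of_nonneg_right hLL (Nat.cast_nonneg _))
    · intro m hm m' hm' hne
      obtain ⟨t, ht, rfl⟩ := mem_image.1 hm
      obtain ⟨t', ht', rfl⟩ := mem_image.1 hm'
      apply hsep t ht t' ht'
      rintro rfl
      exact hne rfl
    · rw [hTTc]; exact h2
    · refine hKp.trans ?_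
      have e1 : ρ ^ 2 * R = (ξ ^ 2 * R) * (K ^ (-(18 / σ)) * L⁻¹ ^ 2) := by
        rw [hρ]
        have : K ^ (-(18 / σ)) = (K ^ (-(9 / σ))) ^ (2 : ℕ) := by
          rw [← Real.rpow_natCast, ← Real.rpow_mul hK0.le]
          congr 1
          push_cast
          ring
        rw [this]
        field_simp
      have e2 : K ^ (-(18 / σ)) * L⁻¹ ^ 2 = K ^ (-(24 + 36 / σ)) := by
        rw [hL, ← Real.rpow_neg hK0.le, ← Real.rpow_natCast, ← Real.rpow_mul hK0.le,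
          ← Real.rpow_add hK0]
        congr 1
        push_cast
        ring
      rw [e1, e2]
      calc K ^ (162000000 / σ ^ 2) ≤ K ^ (1000000000 / σ ^ 2 + -(24 + 36 / σ)) := by
            apply Real.rpow_le_rpow_of_exponent_le hK1
            have f1 : (162000000 : ℝ) / σ ^ 2 = 162000000 * (1 / σ ^ 2) := by ring
            have f2 : (1000000000 : ℝ) / σ ^ 2 = 1000000000 * (1 / σ ^ 2) := by ring
            have f3 : (36 : ℝ) / σ = 36 * (1 / σ) := by ring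
            rw [f1, f2, f3]
            linarith
        _ = K ^ (1000000000 / σ ^ 2) * K ^ (-(24 + 36 / σ)) := Real.rpow_add hK0 _ _
        _ ≤ ξ ^ 2 * R * K ^ (-(24 + 36 / σ)) :=
            mul_le_mul_of_nonneg_right hbig (by positivity)
  exact final hK hσ hσ' hy hL H.Tlo hcard c1 (Nat.cast_nonneg _) hfin

end Pool.Agent.Work.MP_e17eac_co.PS
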