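import Pool.Agent.Work.MP_e17eac_co.PS.SP

/-!
# Item Tri: common sets for many multipliers
-/

namespace Pool.Agent.Work.MP_e17eac_co.PS

open Finset
open scoped Pointwise

namespace XTri

theorem fl_mono {r : ℝ} {V V' : Finset ℤ} (h : V' ⊆ V) : fl r V' ⊆ fl r V :=
  Finset.image_subset_image h

theorem kk {K : ℝ} (hK : 2 ≤ K) {m n : ℕ} (h : m ≤ n) : K ^ m ≤ K ^ n :=
  pow_le_pow_right₀ (by linarith) h

theorem step1 (hFl : StFl) (hBsg : StBsg) {U V : Finset ℤ} {G : Finset (ℤ × ℤ)} {K N la : ℝ}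
    (hK : 2 ≤ K) (hN : 0 < N) (hU : (U.card : ℝ) ≤ N) (hV : (V.card : ℝ) ≤ N)
    (hla : K⁻¹ ≤ |la|) (hG : G ⊆ U ×ˢ V) (hG2 : N ^ 2 ≤ K * G.card)
    (hG3 : ((G.image (fun p => p.1 + ⌊la * (p.2 : ℝ)⌋)).card : ℝ) ≤ K * N) :
    ∃ U' ⊆ U, ∃ V' ⊆ V, N ≤ K ^ 9 * U'.card ∧ N ≤ K ^ 9 * (fl la V').card ∧
      ((U' + fl la V').card : ℝ) ≤ K ^ 39 * N := by
  obtain ⟨h1, _, h3, _⟩ := hFl
  set G' : Finset (ℤ × ℤ) := G.image (fun p : ℤ × ℤ => (p.1, ⌊la * (p.2 : ℝ)⌋)) with hG'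
  have hG'c : (G.card : ℝ) ≤ (K + 1) * G'.card := by
    have h4 : G.card ≤ ⌊K + 1⌋₊ * G'.card := by
      refine Finset.card_le_mul_card_image G _ ?_
      intro b hb
      apply Nat.le_floor
      set Z := (G.filter (fun a : ℤ × ℤ => (a.1, ⌊la * (a.2 : ℝ)⌋) = b)).image Prod.snd with hZ
      have hc : Z.card = (G.filter (fun a : ℤ × ℤ => (a.1, ⌊la * (a.2 : ℝ)⌋) = b)).card := by
        apply Finset.card_image_of_injOn
        intro x hx y hy hxy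
        rw [Finset.mem_coe, Finset.mem_filter] at hx hy
        have e1 := congrArg Prod.fst hx.2
        have e2 := congrArg Prod.fst hy.2
        simp only at e1 e2
        exact Prod.ext (e1.trans e2.symm) hxy
      rw [← hc]
      have h5 := h3 K la Z (by linarith) hla
      have h6 : (fl la Z).card ≤ 1 := by
        rw [Finset.card_le_one]
        intro x hx y hy
        have key : ∀ w ∈ fl la Z, w = b.2 := by
          intro w hw
          unfold fl at hw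
          rw [Finset.mem_image] at hw
          obtain ⟨z, hz, rfl⟩ := hw
          rw [hZ, Finset.mem_image] at hz
          obtain ⟨p, hp, rfl⟩ := hz
          rw [Finset.mem_filter] at hp
          exact congrArg Prod.snd hp.2
        rw [key x hx, key y hy]
      have h7 : ((fl la Z).card : ℝ) ≤ 1 := by exact_mod_cast h6
      nlinarith
    have h8 : (G.card : ℝ) ≤ (⌊K + 1⌋₊ : ℝ) * G'.card := by exact_mod_cast h4
    exact h8.trans (mul_le_mul_of_nonneg_right (Nat.floor_le (by linarith)) (Nat.cast_nonneg _))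
  have hflV : ((fl la V).card : ℝ) ≤ N := by
    have := h1 la V
    have h9 : ((fl la V).card : ℝ) ≤ V.card := by exact_mod_cast this
    linarith
  have hsub : G' ⊆ U ×ˢ fl la V := by
    intro x hx
    rw [hG', Finset.mem_image] at hx
    obtain ⟨p, hp, rfl⟩ := hx
    have h10 := Finset.mem_product.mp (hG hp)
    rw [Finset.mem_product]
    exact ⟨h10.1, Finset.mem_image_of_mem _ h10.2⟩
  have hN2 : N ^ 2 ≤ K ^ 3 * G'.card := by
    have hg : (0 : ℝ) ≤ G'.card := Nat.cast_nonneg _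
    have h11 : K * (G.card : ℝ) ≤ K * ((K + 1) * G'.card) :=
      mul_le_mul_of_nonneg_left hG'c (by linarith)
    have h12 : K * ((K + 1) * G'.card) ≤ K ^ 3 * G'.card := by
      have h13 : K * (K + 1) ≤ K ^ 3 := by
        have h13a : 0 ≤ K ^ 2 - K - 1 := by nlinarith
        have h13b : 0 ≤ K * (K ^ 2 - K - 1) := mul_nonneg (by linarith) h13a
        nlinarith
      have h13c := mul_le_mul_of_nonneg_right h13 hg
      linarith [h13c]
    linarith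
  have hK3 : (1 : ℝ) ≤ K ^ 3 := one_le_pow₀ (by linarith)
  have hsum : ((G'.image (fun p => p.1 + p.2)).card : ℝ) ≤ K ^ 3 * N := by
    have h14 : G'.image (fun p => p.1 + p.2) = G.image (fun p => p.1 + ⌊la * (p.2 : ℝ)⌋) := by
      rw [hG', Finset.image_image]
      rfl
    rw [h14]
    have h15 : K * N ≤ K ^ 3 * N := by
      have h16 : K ≤ K ^ 3 := by
        have := kk hK (m := 1) (n := 3) (by norm_num)
        simpa using this
      exact mul_le_mul_of_nonneg_right h16 hN.le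
    linarith
  obtain ⟨U', hU', V'', hV'', b1, b2, b3⟩ := hBsg U (fl la V) G' (K ^ 3) N hK3 hN hsub hU hflV
    hN2 hsum
  have h8K : (8 : ℝ) ≤ K ^ 3 := by
    have : (2 : ℝ) ^ 3 ≤ K ^ 3 := pow_le_pow_left₀ (by norm_num) hK 3
    norm_num at this
    exact this
  have h12K : (2 : ℝ) ^ 12 ≤ K ^ 12 := pow_le_pow_left₀ (by norm_num) hK 12
  refine ⟨U', hU', V.filter (fun v : ℤ => ⌊la * (v : ℝ)⌋ ∈ V''), Finset.filter_subset _ _, ?_,
    ?_, ?_⟩
  · have h17 : 8 * (K ^ 3) ^ 2 * (U'.card : ℝ) ≤ K ^ 9 * U'.card := by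
      have : 8 * (K ^ 3) ^ 2 ≤ K ^ 9 := by
        have h18 : (0 : ℝ) ≤ (K ^ 3) ^ 2 := by positivity
        nlinarith
      exact mul_le_mul_of_nonneg_right this (Nat.cast_nonneg _)
    linarith
  all_goals
    have hfl : fl la (V.filter (fun v : ℤ => ⌊la * (v : ℝ)⌋ ∈ V'')) = V'' := by
      ext x
      unfold fl
      rw [Finset.mem_image]
      constructor
      · rintro ⟨z, hz, rfl⟩
        exact (Finset.mem_filter.mp hz).2
      · intro hx
        have hx2 := hV'' hx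
        unfold fl at hx2
        rw [Finset.mem_image] at hx2
        obtain ⟨z, hz, rfl⟩ := hx2
        exact ⟨z, Finset.mem_filter.mpr ⟨hz, hx⟩, rfl⟩
    rw [hfl]
  · have h17 : 8 * (K ^ 3) ^ 2 * (V''.card : ℝ) ≤ K ^ 9 * V''.card := by
      have : 8 * (K ^ 3) ^ 2 ≤ K ^ 9 := by
        have h18 : (0 : ℝ) ≤ (K ^ 3) ^ 2 := by positivity
        nlinarith
      exact mul_le_mul_of_nonneg_right this (Nat.cast_nonneg _)
    linarith
  · have h19 : 2 ^ 12 * (K ^ 3) ^ 9 * N ≤ K ^ 39 * N := by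
      have h20 : (0 : ℝ) ≤ (K ^ 3) ^ 9 := by positivity
      have h21 : 2 ^ 12 * (K ^ 3) ^ 9 ≤ K ^ 12 * (K ^ 3) ^ 9 :=
        mul_le_mul_of_nonneg_right h12K h20
      have h22 : K ^ 12 * (K ^ 3) ^ 9 = K ^ 39 := by ring
      rw [h22] at h21
      exact mul_le_mul_of_nonneg_right h21 hN.le
    linarith

theorem cs (X : Finset (ℤ × ℤ)) (T : Finset ℝ) (P : ℝ → Finset (ℤ × ℤ))
    (hP : ∀ t ∈ T, P t ⊆ X) :
    (∑ t ∈ T, ((P t).card : ℝ)) ^ 2 ≤
      X.card * ∑ t ∈ T, ∑ t' ∈ T, ((P t ∩ P t').card : ℝ) := by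
  have h1 : ∀ t ∈ T, ((P t).card : ℝ) = ∑ x ∈ X, (if x ∈ P t then (1 : ℝ) else 0) := by
    intro t ht
    rw [Finset.sum_boole]
    congr 2
    ext x
    rw [Finset.mem_filter]
    exact ⟨fun h => ⟨hP t ht h, h⟩, fun h => h.2⟩
  have h2 : ∀ t ∈ T, ∀ t' ∈ T, ((P t ∩ P t').card : ℝ) =
      ∑ x ∈ X, (if x ∈ P t then (1 : ℝ) else 0) * (if x ∈ P t' then (1 : ℝ) else 0) := by
    intro t ht t' ht'
    have h3 : ∀ x ∈ X, (if x ∈ P t then (1 : ℝ) else 0) * (if x ∈ P t' then (1 : ℝ) else 0) =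
        if x ∈ P t ∩ P t' then (1 : ℝ) else 0 := by
      intro x _
      by_cases h4 : x ∈ P t
      · by_cases h5 : x ∈ P t'
        · simp [h4, h5]
        · simp [h4, h5]
      · simp [h4]
    rw [Finset.sum_congr rfl h3, Finset.sum_boole]
    congr 2
    ext x
    rw [Finset.mem_filter]
    exact ⟨fun h => ⟨hP t ht (Finset.mem_inter.mp h).1, h⟩, fun h => h.2⟩
  have h6 : ∑ t ∈ T, ((P t).card : ℝ) =
      ∑ x ∈ X, ∑ t ∈ T, (if x ∈ P t then (1 : ℝ) else 0) := by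
    rw [Finset.sum_congr rfl h1, Finset.sum_comm]
  have h7 : ∑ t ∈ T, ∑ t' ∈ T, ((P t ∩ P t').card : ℝ) =
      ∑ x ∈ X, (∑ t ∈ T, (if x ∈ P t then (1 : ℝ) else 0)) ^ 2 := by
    have h8 : ∀ x ∈ X, (∑ t ∈ T, (if x ∈ P t then (1 : ℝ) else 0)) ^ 2 =
        ∑ t ∈ T, ∑ t' ∈ T,
          (if x ∈ P t then (1 : ℝ) else 0) * (if x ∈ P t' then (1 : ℝ) else 0) := by
      intro x _
      rw [sq, Finset.sum_mul_sum]
    rw [Finset.sum_congr rfl h8]
    symm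
    rw [Finset.sum_comm]
    apply Finset.sum_congr rfl
    intro t ht
    rw [Finset.sum_comm]
    apply Finset.sum_congr rfl
    intro t' ht'
    exact (h2 t ht t' ht').symm
  rw [h6, h7]
  exact sq_sum_le_card_mul_sum_sq

theorem pick {X : Finset (ℤ × ℤ)} {T : Finset ℝ} (hT : T.Nonempty) {P : ℝ → Finset (ℤ × ℤ)}
    {K N : ℝ} (hK : 2 ≤ K) (hN : 0 < N) (hX : (X.card : ℝ) ≤ N ^ 2) (hP : ∀ t ∈ T, P t ⊆ X)
    (hlo : ∀ t ∈ T, N ^ 2 ≤ K ^ 18 * (P t).card) :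
    ∃ t0 ∈ T, ∃ T1 ⊆ T, (T.card : ℝ) ≤ K ^ 37 * T1.card ∧
      ∀ t ∈ T1, N ^ 2 ≤ K ^ 37 * (P t0 ∩ P t).card := by
  have hK0 : 0 < K := by linarith
  have hTc : (0 : ℝ) ≤ T.card := Nat.cast_nonneg _
  have hN2 : 0 < N ^ 2 := by positivity
  have hcs := cs X T P hP
  set S : ℝ := ∑ t ∈ T, ∑ t' ∈ T, ((P t ∩ P t').card : ℝ) with hS
  have hS0 : 0 ≤ S := Finset.sum_nonneg fun t _ => Finset.sum_nonneg fun t' _ => Nat.cast_nonneg _
  have h1 : (T.card : ℝ) * (N ^ 2 / K ^ 18) ≤ ∑ t ∈ T, ((P t).card : ℝ) := by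
    rw [← nsmul_eq_mul]
    apply Finset.card_nsmul_le_sum
    intro t ht
    rw [div_le_iff₀ (by positivity)]
    linarith [hlo t ht]
  have h2 : ((T.card : ℝ) * (N ^ 2 / K ^ 18)) ^ 2 ≤ N ^ 2 * S := by
    have h3 : ((T.card : ℝ) * (N ^ 2 / K ^ 18)) ^ 2 ≤ (∑ t ∈ T, ((P t).card : ℝ)) ^ 2 :=
      pow_le_pow_left₀ (by positivity) h1 2
    have h4 : (X.card : ℝ) * S ≤ N ^ 2 * S := mul_le_mul_of_nonneg_right hX hS0
    linarith
  have h5 : (T.card : ℝ) * ((T.card : ℝ) * (N ^ 2 / K ^ 36)) ≤ S := by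
    have h6 : ((T.card : ℝ) * (N ^ 2 / K ^ 18)) ^ 2 =
        N ^ 2 * ((T.card : ℝ) * ((T.card : ℝ) * (N ^ 2 / K ^ 36))) := by
      field_simp
    rw [h6] at h2
    exact le_of_mul_le_mul_left h2 hN2
  obtain ⟨t0, ht0, h7⟩ := Finset.exists_le_of_sum_le
    (f := fun _ : ℝ => (T.card : ℝ) * (N ^ 2 / K ^ 36))
    (g := fun t => ∑ t' ∈ T, ((P t ∩ P t').card : ℝ)) hT (by
      rw [Finset.sum_const, nsmul_eq_mul]
      exact h5)
  refine ⟨t0, ht0, T.filter (fun t => N ^ 2 ≤ K ^ 37 * (P t0 ∩ P t).card),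
    Finset.filter_subset _ _, ?_, fun t ht => (Finset.mem_filter.mp ht).2⟩
  set T1 := T.filter (fun t => N ^ 2 ≤ K ^ 37 * (P t0 ∩ P t).card) with hT1
  have h8 : ∑ t' ∈ T, ((P t0 ∩ P t').card : ℝ) ≤ T1.card * N ^ 2 + T.card * (N ^ 2 / K ^ 37) := by
    have h9 : ∀ t ∈ T, ((P t0 ∩ P t).card : ℝ) ≤
        (if N ^ 2 ≤ K ^ 37 * ((P t0 ∩ P t).card : ℝ) then (1 : ℝ) else 0) * N ^ 2 +
          N ^ 2 / K ^ 37 := by
      intro t ht
      by_cases h10 : N ^ 2 ≤ K ^ 37 * ((P t0 ∩ P t).card : ℝ)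
      · rw [if_pos h10]
        have h11 : (P t0 ∩ P t).card ≤ X.card :=
          Finset.card_le_card (Finset.inter_subset_left.trans (hP t0 ht0))
        have h12 : ((P t0 ∩ P t).card : ℝ) ≤ X.card := by exact_mod_cast h11
        have h13 : 0 ≤ N ^ 2 / K ^ 37 := by positivity
        linarith
      · rw [if_neg h10, zero_mul, zero_add, le_div_iff₀ (by positivity)]
        linarith [not_le.mp h10]
    calc ∑ t' ∈ T, ((P t0 ∩ P t').card : ℝ)
        ≤ ∑ t ∈ T, ((if N ^ 2 ≤ K ^ 37 * ((P t0 ∩ P t).card : ℝ) then (1 : ℝ) else 0) * N ^ 2 +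
          N ^ 2 / K ^ 37) := Finset.sum_le_sum h9
      _ = T1.card * N ^ 2 + T.card * (N ^ 2 / K ^ 37) := by
          rw [Finset.sum_add_distrib, ← Finset.sum_mul, Finset.sum_boole, Finset.sum_const,
            nsmul_eq_mul]
  have h14 : (T.card : ℝ) * (N ^ 2 / K ^ 36) ≤ T1.card * N ^ 2 + T.card * (N ^ 2 / K ^ 37) :=
    h7.trans h8
  have h15 : (T.card : ℝ) * K * N ^ 2 ≤ (K ^ 37 * T1.card + T.card) * N ^ 2 := by
    have h16 := mul_le_mul_of_nonneg_left h14 (pow_nonneg hK0.le 37)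
    have h17 : K ^ 37 * ((T.card : ℝ) * (N ^ 2 / K ^ 36)) = (T.card : ℝ) * K * N ^ 2 := by
      field_simp
    have h18 : K ^ 37 * ((T1.card : ℝ) * N ^ 2 + T.card * (N ^ 2 / K ^ 37)) =
        (K ^ 37 * T1.card + T.card) * N ^ 2 := by
      field_simp
    rw [h17, h18] at h16
    exact h16
  have h19 := le_of_mul_le_mul_right h15 hN2
  nlinarith

theorem cancel {a x N C D : ℝ} (ha : 0 ≤ a) (hN : 0 < N) (hC : 0 ≤ C) (hx : N ≤ C * x)
    (h : a * x ≤ D * N ^ 2) : a ≤ C * D * N := by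
  have h1 : a * N ≤ a * (C * x) := mul_le_mul_of_nonneg_left hx ha
  have h2 : C * (a * x) ≤ C * (D * N ^ 2) := mul_le_mul_of_nonneg_left h hC
  apply le_of_mul_le_mul_right _ hN
  calc a * N ≤ a * (C * x) := h1
    _ = C * (a * x) := by ring
    _ ≤ C * (D * N ^ 2) := h2
    _ = C * D * N * N := by ring

theorem errA {mu la la0 B : ℝ} (h : mu * la0 = la) (hmu : |mu| ≤ B) (v v' : ℤ) :
    |((⌊la * (v : ℝ)⌋ - ⌊la * (v' : ℝ)⌋ -
      ⌊mu * ((⌊la0 * (v : ℝ)⌋ - ⌊la0 * (v' : ℝ)⌋ : ℤ) : ℝ)⌋ : ℤ) : ℝ)| ≤ B + 2 := by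
  have a1 := Int.floor_le (la * (v : ℝ))
  have a2 := Int.lt_floor_add_one (la * (v : ℝ))
  have b1 := Int.floor_le (la * (v' : ℝ))
  have b2 := Int.lt_floor_add_one (la * (v' : ℝ))
  have c1 := Int.floor_le (la0 * (v : ℝ))
  have c2 := Int.lt_floor_add_one (la0 * (v : ℝ))
  have d1 := Int.floor_le (la0 * (v' : ℝ))
  have d2 := Int.lt_floor_add_one (la0 * (v' : ℝ))
  push_cast
  have e1 := Int.floor_le (mu * ((⌊la0 * (v : ℝ)⌋ : ℝ) - (⌊la0 * (v' : ℝ)⌋ : ℝ)))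
  have e2 := Int.lt_floor_add_one (mu * ((⌊la0 * (v : ℝ)⌋ : ℝ) - (⌊la0 * (v' : ℝ)⌋ : ℝ)))
  set w : ℝ := ((⌊la0 * (v : ℝ)⌋ : ℝ) - (⌊la0 * (v' : ℝ)⌋ : ℝ)) - la0 * (v - v') with hw
  have hw1 : |w| ≤ 1 := by
    rw [abs_le]
    constructor
    · rw [hw]
      nlinarith
    · rw [hw]
      nlinarith
  have hB : |mu * w| ≤ B := by
    rw [abs_mul]
    calc |mu| * |w| ≤ |mu| * 1 := mul_le_mul_of_nonneg_left hw1 (abs_nonneg _)
      _ = |mu| := mul_one _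
      _ ≤ B := hmu
  have hB2 := abs_le.mp hB
  have hm : mu * ((⌊la0 * (v : ℝ)⌋ : ℝ) - (⌊la0 * (v' : ℝ)⌋ : ℝ)) = mu * w + la * (v - v') := by
    rw [hw, ← h]
    ring
  rw [hm] at e1 e2
  rw [hm, abs_le]
  constructor
  · linarith [hB2.1, hB2.2]
  · linarith [hB2.1, hB2.2]

theorem errB {mu la la0 B : ℝ} (h : mu * la0 = la) (hmu : |mu| ≤ B) (v : ℤ) :
    |((⌊mu * (⌊la0 * (v : ℝ)⌋ : ℝ)⌋ - ⌊la * (v : ℝ)⌋ : ℤ) : ℝ)| ≤ B + 1 := by
  have a1 := Int.floor_le (la * (v : ℝ))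
  have a2 := Int.lt_floor_add_one (la * (v : ℝ))
  have c1 := Int.floor_le (la0 * (v : ℝ))
  have c2 := Int.lt_floor_add_one (la0 * (v : ℝ))
  push_cast
  have e1 := Int.floor_le (mu * (⌊la0 * (v : ℝ)⌋ : ℝ))
  have e2 := Int.lt_floor_add_one (mu * (⌊la0 * (v : ℝ)⌋ : ℝ))
  set w : ℝ := (⌊la0 * (v : ℝ)⌋ : ℝ) - la0 * v with hw
  have hw1 : |w| ≤ 1 := by
    rw [abs_le]
    constructor
    · rw [hw]
      linarith
    · rw [hw]
      linarith
  have hB : |mu * w| ≤ B := by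
    rw [abs_mul]
    calc |mu| * |w| ≤ |mu| * 1 := mul_le_mul_of_nonneg_left hw1 (abs_nonneg _)
      _ = |mu| := mul_one _
      _ ≤ B := hmu
  have hB2 := abs_le.mp hB
  have hm : mu * (⌊la0 * (v : ℝ)⌋ : ℝ) = mu * w + la * v := by
    rw [hw, ← h]
    ring
  rw [hm] at e1 e2
  rw [hm, abs_le]
  constructor
  · linarith [hB2.1, hB2.2]
  · linarith [hB2.1, hB2.2]

theorem err_nat {x : ℤ} {r : ℝ} (h : |(x : ℝ)| ≤ r) : |x| ≤ ((⌊r⌋₊ : ℕ) : ℤ) := by
  have h1 : x.natAbs ≤ ⌊r⌋₊ := by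
    apply Nat.le_floor
    rw [Nat.cast_natAbs]
    push_cast
    exact h
  rw [Int.abs_eq_natAbs]
  exact_mod_cast h1

theorem quad {s f : ℝ} (hs : 4 ≤ s) (hf : f ≤ s + 2) : 2 * f + 1 ≤ s * s := by
  nlinarith

theorem step3 (hErr : StErr) (hFl : StFl) {U0 V0 U1 V1 : Finset ℤ} {K N la la0 : ℝ}
    (hK : 2 ≤ K) (hN : 0 < N) (hla0 : K⁻¹ ≤ |la0|) (hla : K⁻¹ ≤ |la|) (hla' : |la| ≤ K)
    (hU0 : (U0.card : ℝ) ≤ N) (hV0 : (V0.card : ℝ) ≤ N) (h0a : N ≤ K ^ 9 * U0.card)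
    (h0b : N ≤ K ^ 9 * (fl la0 V0).card) (h0c : ((U0 + fl la0 V0).card : ℝ) ≤ K ^ 39 * N)
    (h1c : ((U1 + fl la V1).card : ℝ) ≤ K ^ 39 * N)
    (hUV : N ^ 2 ≤ K ^ 37 * (((U0 ∩ U1).card : ℝ) * ((V0 ∩ V1).card : ℝ))) :
    ((fl la0 V0 - fl (la / la0) (fl la0 V0)).card : ℝ) ≤ K ^ 260 * (fl la0 V0).card := by
  obtain ⟨f1, _, f3, _⟩ := hFl
  have hK0 : 0 < K := by linarith
  have hK1 : 1 ≤ K := by linarith
  have hla0pos : 0 < |la0| := lt_of_lt_of_le (inv_pos.mpr hK0) hla0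
  have hla0ne : la0 ≠ 0 := abs_pos.mp hla0pos
  set mu : ℝ := la / la0 with hmudef
  have hmu : mu * la0 = la := by
    rw [hmudef]
    field_simp
  have hmuB : |mu| ≤ K ^ 2 := by
    rw [hmudef, abs_div, div_le_iff₀ hla0pos]
    have h1 : K ^ 2 * K⁻¹ ≤ K ^ 2 * |la0| := mul_le_mul_of_nonneg_left hla0 (by positivity)
    have h2 : K ^ 2 * K⁻¹ = K := by
      field_simp
    linarith
  set Z := fl la0 V0 with hZ
  set U' := U0 ∩ U1 with hU'
  set V' := V0 ∩ V1 with hV'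
  have cU' : (U'.card : ℝ) ≤ N := by
    have : U'.card ≤ U0.card := Finset.card_le_card Finset.inter_subset_left
    have : (U'.card : ℝ) ≤ U0.card := by exact_mod_cast this
    linarith
  have cV' : (V'.card : ℝ) ≤ N := by
    have : V'.card ≤ V0.card := Finset.card_le_card Finset.inter_subset_left
    have : (V'.card : ℝ) ≤ V0.card := by exact_mod_cast this
    linarith
  have hK37 : (0 : ℝ) ≤ K ^ 37 := by positivity
  have lU' : N ≤ K ^ 37 * U'.card := by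
    apply le_of_mul_le_mul_right _ hN
    have h3 : K ^ 37 * ((U'.card : ℝ) * (V'.card : ℝ)) ≤ K ^ 37 * ((U'.card : ℝ) * N) :=
      mul_le_mul_of_nonneg_left (mul_le_mul_of_nonneg_left cV' (Nat.cast_nonneg _)) hK37
    calc N * N = N ^ 2 := by ring
      _ ≤ K ^ 37 * ((U'.card : ℝ) * (V'.card : ℝ)) := hUV
      _ ≤ K ^ 37 * ((U'.card : ℝ) * N) := h3
      _ = K ^ 37 * (U'.card : ℝ) * N := by ring
  have lV' : N ≤ K ^ 37 * V'.card := by
    apply le_of_mul_le_mul_right _ hN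
    have h3 : K ^ 37 * ((U'.card : ℝ) * (V'.card : ℝ)) ≤ K ^ 37 * (N * (V'.card : ℝ)) :=
      mul_le_mul_of_nonneg_left (mul_le_mul_of_nonneg_right cU' (Nat.cast_nonneg _)) hK37
    calc N * N = N ^ 2 := by ring
      _ ≤ K ^ 37 * ((U'.card : ℝ) * (V'.card : ℝ)) := hUV
      _ ≤ K ^ 37 * (N * (V'.card : ℝ)) := h3
      _ = K ^ 37 * (V'.card : ℝ) * N := by ring
  have cZU : ((Z + U0).card : ℝ) ≤ K ^ 39 * N := by
    rw [add_comm Z U0]
    exact h0c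
  have cZU' : ((Z + U').card : ℝ) ≤ K ^ 39 * N := by
    have h4 : (Z + U').card ≤ (Z + U0).card :=
      Finset.card_le_card (Finset.add_subset_add_left Finset.inter_subset_left)
    have h5 : ((Z + U').card : ℝ) ≤ (Z + U0).card := by exact_mod_cast h4
    linarith
  have cVU' : ((fl la V' + U').card : ℝ) ≤ K ^ 39 * N := by
    have h4 : (fl la V' + U').card ≤ (fl la V1 + U1).card :=
      Finset.card_le_card (Finset.add_subset_add (fl_mono Finset.inter_subset_right)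
        Finset.inter_subset_right)
    have h5 : ((fl la V' + U').card : ℝ) ≤ (fl la V1 + U1).card := by exact_mod_cast h4
    rw [add_comm (fl la V1) U1] at h5
    linarith
  have prod_bd : ∀ {x y p q : ℝ}, 0 ≤ x → 0 ≤ y → x ≤ p → y ≤ q → x * y ≤ p * q := by
    intro x y p q hx hy hp hq
    exact mul_le_mul hp hq hy (hx.trans hp)
  -- (b)
  have sB : ((Z - fl la V').card : ℝ) ≤ K ^ 115 * N := by
    have h6 := Finset.ruzsa_triangle_inequality_sub_add_add Z U' (fl la V')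
    have h7 : ((Z - fl la V').card : ℝ) * U'.card ≤ (Z + U').card * (fl la V' + U').card := by
      exact_mod_cast h6
    have h8 : ((Z + U').card : ℝ) * (fl la V' + U').card ≤ (K ^ 39 * N) * (K ^ 39 * N) :=
      prod_bd (Nat.cast_nonneg _) (Nat.cast_nonneg _) cZU' cVU'
    have h9 : ((Z - fl la V').card : ℝ) * U'.card ≤ K ^ 78 * N ^ 2 := by
      calc ((Z - fl la V').card : ℝ) * U'.card ≤ (K ^ 39 * N) * (K ^ 39 * N) := h7.trans h8
        _ = K ^ 78 * N ^ 2 := by ring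
    have h10 := cancel (Nat.cast_nonneg _) hN hK37 lU' h9
    calc ((Z - fl la V').card : ℝ) ≤ K ^ 37 * K ^ 78 * N := h10
      _ = K ^ 115 * N := by ring
  -- (c)
  have sC : ((Z - Z).card : ℝ) ≤ K ^ 87 * N := by
    have h6 := Finset.ruzsa_triangle_inequality_sub_add_add Z U0 Z
    have h7 : ((Z - Z).card : ℝ) * U0.card ≤ (Z + U0).card * (Z + U0).card := by
      exact_mod_cast h6
    have h8 : ((Z + U0).card : ℝ) * (Z + U0).card ≤ (K ^ 39 * N) * (K ^ 39 * N) :=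
      prod_bd (Nat.cast_nonneg _) (Nat.cast_nonneg _) cZU cZU
    have h9 : ((Z - Z).card : ℝ) * U0.card ≤ K ^ 78 * N ^ 2 := by
      calc ((Z - Z).card : ℝ) * U0.card ≤ (K ^ 39 * N) * (K ^ 39 * N) := h7.trans h8
        _ = K ^ 78 * N ^ 2 := by ring
    have h10 := cancel (Nat.cast_nonneg _) hN (by positivity : (0 : ℝ) ≤ K ^ 9) h0a h9
    calc ((Z - Z).card : ℝ) ≤ K ^ 9 * K ^ 78 * N := h10
      _ = K ^ 87 * N := by ring
  have hKsq : (4 : ℝ) ≤ K ^ 2 := by nlinarith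
  have hK4 : K ^ 4 = K ^ 2 * K ^ 2 := by ring
  -- (d)
  have sD : ((fl la V' - fl la V0).card : ℝ) ≤ K ^ 91 * N := by
    have h11 : (fl la V' - fl la V0).card ≤ (fl la V0 - fl la V0).card :=
      Finset.card_le_card (Finset.sub_subset_sub_right (fl_mono Finset.inter_subset_left))
    have h12 := hErr (fl la V0 - fl la V0) (fl mu (Z - Z)) ⌊K ^ 2 + 2⌋₊ (by
      intro x hx
      rw [Finset.mem_sub] at hx
      obtain ⟨p, hp, q, hq, rfl⟩ := hx
      unfold fl at hp hq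
      rw [Finset.mem_image] at hp hq
      obtain ⟨v, hv, rfl⟩ := hp
      obtain ⟨v', hv', rfl⟩ := hq
      refine ⟨⌊mu * ((⌊la0 * (v : ℝ)⌋ - ⌊la0 * (v' : ℝ)⌋ : ℤ) : ℝ)⌋, ?_, ?_⟩
      · unfold fl
        apply Finset.mem_image_of_mem (fun z : ℤ => ⌊mu * (z : ℝ)⌋)
        exact Finset.sub_mem_sub (Finset.mem_image_of_mem _ hv) (Finset.mem_image_of_mem _ hv')
      · exact err_nat (errA hmu hmuB v v'))
    have h13 := f1 mu (Z - Z)
    have h14 : ((fl la V' - fl la V0).card : ℝ) ≤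
        (2 * (⌊K ^ 2 + 2⌋₊ : ℝ) + 1) * (Z - Z).card := by
      have h15 : (fl la V' - fl la V0).card ≤ (2 * ⌊K ^ 2 + 2⌋₊ + 1) * (Z - Z).card :=
        h11.trans (h12.trans (Nat.mul_le_mul_left _ h13))
      exact_mod_cast h15
    have h16 : (⌊K ^ 2 + 2⌋₊ : ℝ) ≤ K ^ 2 + 2 := Nat.floor_le (by positivity)
    have h17 : 2 * (⌊K ^ 2 + 2⌋₊ : ℝ) + 1 ≤ K ^ 4 := by
      rw [hK4]
      exact quad hKsq h16
    have h18 : (2 * (⌊K ^ 2 + 2⌋₊ : ℝ) + 1) * (Z - Z).card ≤ K ^ 4 * (K ^ 87 * N) :=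
      prod_bd (by positivity) (Nat.cast_nonneg _) h17 sC
    calc ((fl la V' - fl la V0).card : ℝ) ≤ K ^ 4 * (K ^ 87 * N) := h14.trans h18
      _ = K ^ 91 * N := by ring
  -- (e)
  have lflV' : N ≤ K ^ 39 * (fl la V').card := by
    have h19 := f3 K la V' hK1 hla
    have h20 : K + 1 ≤ K ^ 2 := by nlinarith
    have h21 : (V'.card : ℝ) ≤ K ^ 2 * (fl la V').card :=
      h19.trans (mul_le_mul_of_nonneg_right h20 (Nat.cast_nonneg _))
    calc N ≤ K ^ 37 * V'.card := lV'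
      _ ≤ K ^ 37 * (K ^ 2 * (fl la V').card) := mul_le_mul_of_nonneg_left h21 hK37
      _ = K ^ 39 * (fl la V').card := by ring
  have sE : ((Z - fl la V0).card : ℝ) ≤ K ^ 245 * N := by
    have h6 := Finset.ruzsa_triangle_inequality_sub_sub_sub Z (fl la V') (fl la V0)
    have hsw : (fl la V0 - fl la V').card = (fl la V' - fl la V0).card := by
      rw [← Finset.card_neg, neg_sub]
    rw [hsw] at h6
    have h7 : ((Z - fl la V0).card : ℝ) * (fl la V').card ≤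
        (Z - fl la V').card * (fl la V' - fl la V0).card := by
      exact_mod_cast h6
    have h8 : ((Z - fl la V').card : ℝ) * (fl la V' - fl la V0).card ≤
        (K ^ 115 * N) * (K ^ 91 * N) :=
      prod_bd (Nat.cast_nonneg _) (Nat.cast_nonneg _) sB sD
    have h9 : ((Z - fl la V0).card : ℝ) * (fl la V').card ≤ K ^ 206 * N ^ 2 := by
      calc ((Z - fl la V0).card : ℝ) * (fl la V').card ≤ (K ^ 115 * N) * (K ^ 91 * N) :=
            h7.trans h8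
        _ = K ^ 206 * N ^ 2 := by ring
    have h10 := cancel (Nat.cast_nonneg _) hN (by positivity : (0 : ℝ) ≤ K ^ 39) lflV' h9
    calc ((Z - fl la V0).card : ℝ) ≤ K ^ 39 * K ^ 206 * N := h10
      _ = K ^ 245 * N := by ring
  -- (f)
  have h22 := hErr (Z - fl mu Z) (Z - fl la V0) ⌊K ^ 2 + 1⌋₊ (by
    intro x hx
    rw [Finset.mem_sub] at hx
    obtain ⟨p, hp, q, hq, rfl⟩ := hx
    have hq2 : q ∈ fl mu Z := hq
    unfold fl at hq2
    rw [Finset.mem_image] at hq2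
    obtain ⟨z, hz, rfl⟩ := hq2
    rw [hZ] at hz
    unfold fl at hz
    rw [Finset.mem_image] at hz
    obtain ⟨v, hv, rfl⟩ := hz
    refine ⟨p - ⌊la * (v : ℝ)⌋, Finset.sub_mem_sub hp (Finset.mem_image_of_mem _ hv), ?_⟩
    have h23 : p - ⌊mu * (⌊la0 * (v : ℝ)⌋ : ℝ)⌋ - (p - ⌊la * (v : ℝ)⌋) =
        -(⌊mu * (⌊la0 * (v : ℝ)⌋ : ℝ)⌋ - ⌊la * (v : ℝ)⌋) := by ring
    rw [h23, abs_neg]
    exact err_nat (errB hmu hmuB v))
  have h24 : ((Z - fl mu Z).card : ℝ) ≤ (2 * (⌊K ^ 2 + 1⌋₊ : ℝ) + 1) * (Z - fl la V0).card := by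
    exact_mod_cast h22
  have h25 : (⌊K ^ 2 + 1⌋₊ : ℝ) ≤ K ^ 2 + 1 := Nat.floor_le (by positivity)
  have h26 : 2 * (⌊K ^ 2 + 1⌋₊ : ℝ) + 1 ≤ K ^ 4 := by
    rw [hK4]
    exact quad hKsq (by linarith)
  have h27 : (2 * (⌊K ^ 2 + 1⌋₊ : ℝ) + 1) * (Z - fl la V0).card ≤ K ^ 4 * (K ^ 245 * N) :=
    prod_bd (by positivity) (Nat.cast_nonneg _) h26 sE
  calc ((Z - fl mu Z).card : ℝ) ≤ K ^ 4 * (K ^ 245 * N) := h24.trans h27
    _ = K ^ 249 * N := by ring
    _ ≤ K ^ 249 * (K ^ 9 * Z.card) := mul_le_mul_of_nonneg_left h0b (by positivity)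
    _ = K ^ 258 * Z.card := by ring
    _ ≤ K ^ 260 * Z.card :=
        mul_le_mul_of_nonneg_right (kk hK (by norm_num)) (Nat.cast_nonneg _)

end XTri

theorem I_Tri (hErr : StErr) (hFl : StFl) (hBsg : StBsg) : StTri := by
  intro U V T lam G K N hK hN hU hV hT hlam _hsg hG
  have hK0 : 0 < K := by linarith
  have hs1 : ∀ t : ℝ, ∃ U' V' : Finset ℤ, t ∈ T → U' ⊆ U ∧ V' ⊆ V ∧ N ≤ K ^ 9 * U'.card ∧
      N ≤ K ^ 9 * (fl (lam t) V').card ∧ ((U' + fl (lam t) V').card : ℝ) ≤ K ^ 39 * N := by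
    intro t
    by_cases ht : t ∈ T
    · obtain ⟨g1, g2, g3⟩ := hG t ht
      obtain ⟨U', hU', V', hV', c1, c2, c3⟩ :=
        XTri.step1 hFl hBsg hK hN hU hV (hlam t ht).1 g1 g2 g3
      exact ⟨U', V', fun _ => ⟨hU', hV', c1, c2, c3⟩⟩
    · exact ⟨∅, ∅, fun h => absurd h ht⟩
  choose Ut Vt hUV using hs1
  have hflc : ∀ (r : ℝ) (Y : Finset ℤ), ((fl r Y).card : ℝ) ≤ Y.card := fun r Y => by
    exact_mod_cast hFl.1 r Y
  have hX : ((U ×ˢ V).card : ℝ) ≤ N ^ 2 := by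
    rw [Finset.card_product]
    push_cast
    have := mul_le_mul hU hV (Nat.cast_nonneg _) hN.le
    linarith [this, sq N]
  have hVt : ∀ t ∈ T, N ≤ K ^ 9 * (Vt t).card := by
    intro t ht
    have h1 := (hUV t ht).2.2.2.1
    have h2 : K ^ 9 * ((fl (lam t) (Vt t)).card : ℝ) ≤ K ^ 9 * (Vt t).card :=
      mul_le_mul_of_nonneg_left (hflc _ _) (by positivity)
    linarith
  obtain ⟨t0, ht0, T1, hT1, hc, hin⟩ := XTri.pick (X := U ×ˢ V) hT (P := fun t => Ut t ×ˢ Vt t)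
    hK hN hX (fun t ht => Finset.product_subset_product (hUV t ht).1 (hUV t ht).2.1) (by
      intro t ht
      rw [Finset.card_product]
      push_cast
      have h1 := (hUV t ht).2.2.1
      have h2 := hVt t ht
      have h3 : N * N ≤ (K ^ 9 * (Ut t).card) * (K ^ 9 * (Vt t).card) :=
        mul_le_mul h1 h2 hN.le (by positivity)
      calc N ^ 2 = N * N := sq N
        _ ≤ (K ^ 9 * (Ut t).card) * (K ^ 9 * (Vt t).card) := h3
        _ = K ^ 18 * (((Ut t).card : ℝ) * ((Vt t).card : ℝ)) := by ring)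
  obtain ⟨a1, a2, a3, a4, a5⟩ := hUV t0 ht0
  have cU0 : ((Ut t0).card : ℝ) ≤ N := by
    have : ((Ut t0).card : ℝ) ≤ U.card := by exact_mod_cast Finset.card_le_card a1
    linarith
  have cV0 : ((Vt t0).card : ℝ) ≤ N := by
    have : ((Vt t0).card : ℝ) ≤ V.card := by exact_mod_cast Finset.card_le_card a2
    linarith
  refine ⟨t0, ht0, T1, hT1, Vt t0, a2, ?_, ?_, ?_, ?_⟩
  · exact hc.trans (mul_le_mul_of_nonneg_right (XTri.kk hK (by norm_num)) (Nat.cast_nonneg _))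
  · exact (hVt t0 ht0).trans
      (mul_le_mul_of_nonneg_right (XTri.kk hK (by norm_num)) (Nat.cast_nonneg _))
  · set Z := fl (lam t0) (Vt t0) with hZ
    have cZU : ((Z + Ut t0).card : ℝ) ≤ K ^ 39 * N := by
      rw [add_comm Z (Ut t0)]
      exact a5
    have h6 := Finset.ruzsa_triangle_inequality_sub_add_add Z (Ut t0) Z
    have h7 : ((Z - Z).card : ℝ) * (Ut t0).card ≤ (Z + Ut t0).card * (Z + Ut t0).card := by
      exact_mod_cast h6
    have h8 : ((Z + Ut t0).card : ℝ) * (Z + Ut t0).card ≤ (K ^ 39 * N) * (K ^ 39 * N) :=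
      mul_le_mul cZU cZU (Nat.cast_nonneg _) (by positivity)
    have h9 : ((Z - Z).card : ℝ) * (Ut t0).card ≤ K ^ 78 * N ^ 2 := by
      calc ((Z - Z).card : ℝ) * (Ut t0).card ≤ (K ^ 39 * N) * (K ^ 39 * N) := h7.trans h8
        _ = K ^ 78 * N ^ 2 := by ring
    have h10 := XTri.cancel (Nat.cast_nonneg _) hN (by positivity : (0 : ℝ) ≤ K ^ 9) a3 h9
    calc ((Z - Z).card : ℝ) ≤ K ^ 9 * K ^ 78 * N := h10
      _ = K ^ 87 * N := by ring
      _ ≤ K ^ 87 * (K ^ 9 * Z.card) := mul_le_mul_of_nonneg_left a4 (by positivity)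
      _ = K ^ 96 * Z.card := by ring
      _ ≤ K ^ 260 * Z.card :=
          mul_le_mul_of_nonneg_right (XTri.kk hK (by norm_num)) (Nat.cast_nonneg _)
  · intro t ht1
    have ht := hT1 ht1
    obtain ⟨b1, b2, b3, b4, b5⟩ := hUV t ht
    have h11 := hin t ht1
    rw [Finset.product_inter_product, Finset.card_product] at h11
    push_cast at h11
    exact XTri.step3 hErr hFl hK hN (hlam t0 ht0).1 (hlam t ht).1 (hlam t ht).2 cU0 cV0 a3 a4 a5
      b5 h11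

end Pool.Agent.Work.MP_e17eac_co.PS
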