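import Pool.Agent.Work.MP_e17eac_co.PS.SP

set_option autoImplicit false

namespace Pool.Agent.Work.MP_e17eac_co.PS

open Finset
open scoped Pointwise

namespace XZcl

/-- covering an interval of length `M q` by intervals of length `q` -/
lemma cover (V : Finset ℤ) (C q a : ℝ) (hq : 0 < q) (hC : 0 ≤ C)
    (h : ∀ a : ℝ, ((V.filter (fun k : ℤ => a ≤ (k : ℝ) ∧ (k : ℝ) ≤ a + q)).card : ℝ) ≤ C)
    (M : ℝ) (hM : 0 ≤ M) :
    ((V.filter (fun k : ℤ => a ≤ (k : ℝ) ∧ (k : ℝ) ≤ a + M * q)).card : ℝ) ≤ (M + 1) * C := by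
  classical
  have hsub : V.filter (fun k : ℤ => a ≤ (k : ℝ) ∧ (k : ℝ) ≤ a + M * q) ⊆
      (Finset.range (⌊M⌋₊ + 1)).biUnion fun j =>
        V.filter (fun k : ℤ => a + j * q ≤ (k : ℝ) ∧ (k : ℝ) ≤ a + j * q + q) := by
    intro k hk
    rw [mem_filter] at hk
    obtain ⟨hkV, h1, h2⟩ := hk
    rw [mem_biUnion]
    have h3 : 0 ≤ ((k : ℝ) - a) / q := div_nonneg (by linarith) hq.le
    refine ⟨⌊((k : ℝ) - a) / q⌋₊, ?_, ?_⟩
    · rw [mem_range, Nat.lt_succ_iff]
      apply Nat.floor_le_floor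
      rw [div_le_iff₀ hq]
      linarith
    · rw [mem_filter]
      have h4 := Nat.floor_le h3
      have h5 := Nat.lt_floor_add_one (((k : ℝ) - a) / q)
      rw [le_div_iff₀ hq] at h4
      rw [div_lt_iff₀ hq] at h5
      exact ⟨hkV, by linarith, by linarith⟩
  calc ((V.filter (fun k : ℤ => a ≤ (k : ℝ) ∧ (k : ℝ) ≤ a + M * q)).card : ℝ)
      ≤ (((Finset.range (⌊M⌋₊ + 1)).biUnion fun j =>
        V.filter (fun k : ℤ => a + j * q ≤ (k : ℝ) ∧ (k : ℝ) ≤ a + j * q + q)).card : ℝ) := by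
        exact_mod_cast card_le_card hsub
    _ ≤ ∑ j ∈ Finset.range (⌊M⌋₊ + 1),
        ((V.filter (fun k : ℤ => a + j * q ≤ (k : ℝ) ∧ (k : ℝ) ≤ a + j * q + q)).card : ℝ) := by
        exact_mod_cast card_biUnion_le
    _ ≤ ∑ _j ∈ Finset.range (⌊M⌋₊ + 1), C := sum_le_sum fun j _ => h _
    _ = ((⌊M⌋₊ : ℝ) + 1) * C := by
        rw [sum_const, card_range, nsmul_eq_mul]
        push_cast
        ring
    _ ≤ (M + 1) * C := by
        apply mul_le_mul_of_nonneg_right _ hC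
        linarith [Nat.floor_le hM]

lemma floor_close (s t c : ℝ) (h : |s - t| ≤ c) : |((⌊s⌋ : ℤ) : ℝ) - ((⌊t⌋ : ℤ) : ℝ)| ≤ c + 1 := by
  have h1 := Int.floor_le s
  have h2 := Int.lt_floor_add_one s
  have h3 := Int.floor_le t
  have h4 := Int.lt_floor_add_one t
  rw [abs_le] at h ⊢
  constructor <;> linarith [h.1, h.2]

lemma pow_bound {L : ℝ} (hL : 2 ≤ L) {m n : ℕ} (h : m ≤ n) : L ^ m ≤ L ^ n :=
  pow_le_pow_right₀ (by linarith) h

/-- the fibre of a box at scale `q` -/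
lemma fibre (V V0 : Finset ℤ) (K σ R lam L q : ℝ) (hK : 2 ≤ K) (hKL : K ≤ L)
    (hq : 1 ≤ q) (hqR : q ≤ R)
    (hloc : ∀ a q : ℝ, 1 ≤ q → q ≤ R →
      ((V.filter (fun k : ℤ => a ≤ (k : ℝ) ∧ (k : ℝ) ≤ a + q)).card : ℝ) ≤ K * q ^ σ)
    (hsub : V0 ⊆ V) (hl : L⁻¹ ≤ |lam|) (k : ℤ) :
    (((fl lam V0).filter (fun z : ℤ => ⌊(z : ℝ) / q⌋ = k)).card : ℝ) ≤
      (2 * L + 1) * (K * q ^ σ) := by
  classical
  have hL : 0 < L := by linarith
  have hq0 : 0 < q := by linarith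
  have hlam : 0 < |lam| := lt_of_lt_of_le (inv_pos.mpr hL) hl
  have hlam0 : lam ≠ 0 := abs_pos.mp hlam
  have hinv : 1 / |lam| ≤ L := by
    rw [div_le_iff₀ hlam]
    calc (1 : ℝ) = L * L⁻¹ := (mul_inv_cancel₀ hL.ne').symm
      _ ≤ L * |lam| := mul_le_mul_of_nonneg_left hl hL.le
  set u : ℝ := (k : ℝ) * q with hu
  -- the left end of the interval for `v`
  set a : ℝ := if 0 < lam then u / lam else (u + q + 1) / lam with ha
  have hint : ∀ v : ℝ, u ≤ lam * v → lam * v ≤ u + q + 1 → a ≤ v ∧ v ≤ a + 2 * L * q := by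
    intro v h1 h2
    have hlen : (q + 1) / |lam| ≤ 2 * L * q := by
      calc (q + 1) / |lam| = (q + 1) * (1 / |lam|) := by ring
        _ ≤ (2 * q) * L := mul_le_mul (by linarith) hinv (by positivity) (by positivity)
        _ = 2 * L * q := by ring
    rcases lt_or_gt_of_ne hlam0 with hneg | hpos
    · rw [ha, if_neg (not_lt.mpr hneg.le)]
      rw [abs_of_neg hneg] at hlen
      constructor
      · rw [div_le_iff_of_neg hneg]
        linarith
      · have h3 : v ≤ u / lam := by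
          rw [le_div_iff_of_neg hneg]
          linarith
        have h4 : u / lam = (u + q + 1) / lam + (q + 1) / (-lam) := by
          field_simp
          ring
        linarith
    · rw [ha, if_pos hpos]
      rw [abs_of_pos hpos] at hlen
      constructor
      · rw [div_le_iff₀ hpos]
        linarith
      · have h3 : v ≤ (u + q + 1) / lam := by
          rw [le_div_iff₀ hpos]
          linarith
        have h4 : (u + q + 1) / lam = u / lam + (q + 1) / lam := by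
          field_simp
          ring
        linarith
  have hsub2 : (fl lam V0).filter (fun z : ℤ => ⌊(z : ℝ) / q⌋ = k) ⊆
      (V.filter (fun v : ℤ => a ≤ (v : ℝ) ∧ (v : ℝ) ≤ a + (2 * L) * q)).image
        (fun z : ℤ => ⌊lam * (z : ℝ)⌋) := by
    intro z hz
    rw [mem_filter] at hz
    obtain ⟨hz1, hz2⟩ := hz
    obtain ⟨v, hv, hvz⟩ := mem_image.mp hz1
    rw [mem_image]
    refine ⟨v, ?_, hvz⟩
    rw [mem_filter]
    refine ⟨hsub hv, ?_⟩
    rw [Int.floor_eq_iff] at hz2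
    obtain ⟨h1, h2⟩ := hz2
    rw [le_div_iff₀ hq0] at h1
    rw [div_lt_iff₀ hq0] at h2
    have h3 := Int.floor_le (lam * (v : ℝ))
    have h4 := Int.lt_floor_add_one (lam * (v : ℝ))
    rw [hvz] at h3 h4
    exact hint v (by rw [hu]; linarith) (by rw [hu]; nlinarith)
  calc (((fl lam V0).filter (fun z : ℤ => ⌊(z : ℝ) / q⌋ = k)).card : ℝ)
      ≤ (((V.filter (fun v : ℤ => a ≤ (v : ℝ) ∧ (v : ℝ) ≤ a + (2 * L) * q)).image
        (fun z : ℤ => ⌊lam * (z : ℝ)⌋)).card : ℝ) := by exact_mod_cast card_le_card hsub2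
    _ ≤ ((V.filter (fun v : ℤ => a ≤ (v : ℝ) ∧ (v : ℝ) ≤ a + (2 * L) * q)).card : ℝ) := by
        exact_mod_cast card_image_le
    _ ≤ (2 * L + 1) * (K * q ^ σ) :=
        cover V (K * q ^ σ) q a hq0 (by positivity) (fun a => hloc a q hq hqR) (2 * L)
          (by positivity)

end XZcl

theorem I_Zcl (hErr : StErr) (hFl : StFl) : StZcl := by
  classical
  intro K σ R V V0 lam L hK hσ hσ' hR hKL hVr hloc hsc hsub hne hl hu hbig
  obtain ⟨hF1, hF2, hF3, hF4, hF5⟩ := hFl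
  have hL : 2 ≤ L := hK.trans hKL
  have hL0 : 0 < L := by linarith
  have hL1 : (1 : ℝ) ≤ L := by linarith
  have hL2 : 4 ≤ L ^ 2 := by nlinarith
  have hL3 : 8 ≤ L ^ 3 := by nlinarith
  refine ⟨?_, hσ, hσ', hR, ?_, ?_, ?_, ?_⟩
  · calc (2 : ℝ) ≤ L := hL
      _ = L ^ 1 := (pow_one L).symm
      _ ≤ L ^ 270 := XZcl.pow_bound hL (by norm_num)
  · exact hne.image _
  · intro z hz
    obtain ⟨v, hv, rfl⟩ := mem_image.mp hz
    have h1 : |((⌊lam * (v : ℝ)⌋ : ℤ) : ℝ)| ≤ |lam * (v : ℝ)| + 1 := by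
      have h2 := Int.floor_le (lam * (v : ℝ))
      have h3 := Int.lt_floor_add_one (lam * (v : ℝ))
      have h4 := abs_le.mp (le_refl |lam * (v : ℝ)|)
      rw [abs_le]
      constructor <;> linarith [h4.1, h4.2]
    have h2 : |lam * (v : ℝ)| ≤ L * (3 * R) := by
      rw [abs_mul]
      exact mul_le_mul hu (hVr v (hsub hv)) (abs_nonneg _) hL0.le
    have h3 : 4 * L ≤ L ^ 3 := by nlinarith
    calc |((⌊lam * (v : ℝ)⌋ : ℤ) : ℝ)| ≤ L * (3 * R) + 1 := h1.trans (by linarith)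
      _ ≤ 4 * L * R := by nlinarith
      _ ≤ L ^ 3 * R := mul_le_mul_of_nonneg_right h3 (by linarith)
      _ ≤ L ^ 270 * R := mul_le_mul_of_nonneg_right (XZcl.pow_bound hL (by norm_num)) (by linarith)
  · -- lower bound
    intro q hq hqR
    have hq0 : 0 < q := by linarith
    have hR0 : 0 < R := by linarith
    have h5 := hF5 q ((2 * L + 1) * (K * q ^ σ)) (fl lam V0) hq (by positivity)
      (fun k => XZcl.fibre V V0 K σ R lam L q hK hKL hq hqR hloc hsub hl k)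
    have h3 := hF3 L lam V0 hL1 hl
    have hqs : 0 < q ^ σ := Real.rpow_pos_of_pos hq0 σ
    rw [Real.div_rpow hR0.le hq0.le, div_le_iff₀ hqs]
    have hS : (0 : ℝ) ≤ ((sc q (fl lam V0)).card : ℝ) := Nat.cast_nonneg _
    have hc : (L + 1) * ((2 * L + 1) * K) ≤ L ^ 10 := by
      have h6 : L + 1 ≤ L ^ 2 := by nlinarith
      have h7 : 2 * L + 1 ≤ L ^ 3 := by nlinarith
      calc (L + 1) * ((2 * L + 1) * K) ≤ L ^ 2 * (L ^ 3 * L) :=
            mul_le_mul h6 (mul_le_mul h7 hKL (by linarith) (by positivity)) (by positivity)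
              (by positivity)
        _ = L ^ 6 := by ring
        _ ≤ L ^ 10 := XZcl.pow_bound hL (by norm_num)
    calc R ^ σ ≤ L ^ 260 * (V0.card : ℝ) := hbig
      _ ≤ L ^ 260 * ((L + 1) * ((2 * L + 1) * (K * q ^ σ) * ((sc q (fl lam V0)).card : ℝ))) := by
          refine mul_le_mul_of_nonneg_left (h3.trans ?_) (by positivity)
          exact mul_le_mul_of_nonneg_left h5 (by linarith)
      _ = L ^ 260 * ((L + 1) * ((2 * L + 1) * K)) * (((sc q (fl lam V0)).card : ℝ) * q ^ σ) := by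
          ring
      _ ≤ L ^ 260 * L ^ 10 * (((sc q (fl lam V0)).card : ℝ) * q ^ σ) :=
          mul_le_mul_of_nonneg_right (mul_le_mul_of_nonneg_left hc (by positivity))
            (by positivity)
      _ = L ^ 270 * ((sc q (fl lam V0)).card : ℝ) * q ^ σ := by ring
  · -- upper bound
    intro q hq hqR
    have hq0 : 0 < q := by linarith
    have hR0 : 0 < R := by linarith
    set e : ℕ := ⌈L + 2⌉₊ with he
    have he1 : L + 2 ≤ (e : ℝ) := Nat.le_ceil _
    have he2 : (e : ℝ) ≤ L + 3 := by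
      have := Nat.ceil_lt_add_one (show (0 : ℝ) ≤ L + 2 by linarith)
      linarith
    have hE := hErr (sc q (fl lam V0)) (fl lam (sc q V)) e (by
      intro x hx
      obtain ⟨z, hz, rfl⟩ := mem_image.mp hx
      obtain ⟨v, hv, rfl⟩ := mem_image.mp hz
      refine ⟨⌊lam * ((⌊1 / q * (v : ℝ)⌋ : ℤ) : ℝ)⌋, ?_, ?_⟩
      · exact mem_image.mpr ⟨_, mem_image.mpr ⟨v, hsub hv, rfl⟩, rfl⟩
      · have h1 : |1 / q * ((⌊lam * (v : ℝ)⌋ : ℤ) : ℝ) -
            lam * ((⌊1 / q * (v : ℝ)⌋ : ℤ) : ℝ)| ≤ L + 1 := by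
          have h2 : 1 / q * ((⌊lam * (v : ℝ)⌋ : ℤ) : ℝ) - lam * ((⌊1 / q * (v : ℝ)⌋ : ℤ) : ℝ) =
              1 / q * (((⌊lam * (v : ℝ)⌋ : ℤ) : ℝ) - lam * (v : ℝ)) +
              lam * (1 / q * (v : ℝ) - ((⌊1 / q * (v : ℝ)⌋ : ℤ) : ℝ)) := by ring
          rw [h2]
          refine (abs_add_le _ _).trans ?_
          have h3 : |1 / q * (((⌊lam * (v : ℝ)⌋ : ℤ) : ℝ) - lam * (v : ℝ))| ≤ 1 := by
            rw [abs_mul]
            have h4 : |1 / q| ≤ 1 := by
              rw [abs_of_pos (by positivity)]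
              rw [div_le_one hq0]
              exact hq
            have h5 : |((⌊lam * (v : ℝ)⌋ : ℤ) : ℝ) - lam * (v : ℝ)| ≤ 1 := by
              have h6 := Int.floor_le (lam * (v : ℝ))
              have h7 := Int.lt_floor_add_one (lam * (v : ℝ))
              rw [abs_le]
              constructor <;> linarith
            calc _ ≤ 1 * 1 := mul_le_mul h4 h5 (abs_nonneg _) zero_le_one
              _ = 1 := one_mul 1
          have h8 : |lam * (1 / q * (v : ℝ) - ((⌊1 / q * (v : ℝ)⌋ : ℤ) : ℝ))| ≤ L := by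
            rw [abs_mul]
            have h5 : |1 / q * (v : ℝ) - ((⌊1 / q * (v : ℝ)⌋ : ℤ) : ℝ)| ≤ 1 := by
              have h6 := Int.floor_le (1 / q * (v : ℝ))
              have h7 := Int.lt_floor_add_one (1 / q * (v : ℝ))
              rw [abs_le]
              constructor <;> linarith
            calc _ ≤ L * 1 := mul_le_mul hu h5 (abs_nonneg _) hL0.le
              _ = L := mul_one L
          linarith
        have h9 := XZcl.floor_close _ _ _ h1
        have h10 : (((|⌊1 / q * ((⌊lam * (v : ℝ)⌋ : ℤ) : ℝ)⌋ -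
            ⌊lam * ((⌊1 / q * (v : ℝ)⌋ : ℤ) : ℝ)⌋| : ℤ)) : ℝ) ≤ (e : ℝ) := by
          push_cast
          linarith
        exact_mod_cast h10)
    have h1 : ((sc q (fl lam V0)).card : ℝ) ≤ (2 * (e : ℝ) + 1) * ((fl lam (sc q V)).card : ℝ) := by
      exact_mod_cast hE
    have h2 : ((fl lam (sc q V)).card : ℝ) ≤ 3 * K * (R / q) ^ σ := by
      refine le_trans ?_ (hsc q hq hqR)
      exact_mod_cast hF1 lam (sc q V)
    have hRq : 0 ≤ (R / q) ^ σ := Real.rpow_nonneg (by positivity) _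
    have hc : (2 * (e : ℝ) + 1) * (3 * K) ≤ L ^ 270 := by
      have h6 : 2 * (e : ℝ) + 1 ≤ L ^ 4 := by nlinarith
      have h7 : 3 * K ≤ L ^ 3 := by nlinarith
      calc (2 * (e : ℝ) + 1) * (3 * K) ≤ L ^ 4 * L ^ 3 :=
            mul_le_mul h6 h7 (by linarith) (by positivity)
        _ = L ^ 7 := by ring
        _ ≤ L ^ 270 := XZcl.pow_bound hL (by norm_num)
    calc ((sc q (fl lam V0)).card : ℝ) ≤ (2 * (e : ℝ) + 1) * ((fl lam (sc q V)).card : ℝ) := h1
      _ ≤ (2 * (e : ℝ) + 1) * (3 * K * (R / q) ^ σ) :=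
          mul_le_mul_of_nonneg_left h2 (by positivity)
      _ = (2 * (e : ℝ) + 1) * (3 * K) * (R / q) ^ σ := by ring
      _ ≤ L ^ 270 * (R / q) ^ σ := mul_le_mul_of_nonneg_right hc hRq

end Pool.Agent.Work.MP_e17eac_co.PS
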