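import Pool.Agent.Work.MP_e17eac_co.PS.T2St

/-!
# Project PS, version 2: pre-base and the passage to a base cell
-/

namespace Pool.Agent.Work.MP_e17eac_co.PS

open Finset
open Pool.Agent.Work.MP_e17eac_co.DH

/-- The pre-base: nearly extremal set of edges, regular for the cells of the levels `j ≤ J0`
(length `q^(-j)`), with the window bound. -/
structure PreBase {ι : Type} [Fintype ι] [DecidableEq ι] (K : KSys ι) (q J0 : ℕ) (W Λ : ℝ)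
    (E : Finset ℕ) : Prop where
  sub : ∀ n ∈ E, n < K.N ∧ 0 ≤ K.t n ∧ K.t n < 1
  ne : E.Nonempty
  hq : 2 ≤ q
  hW : 1 ≤ W
  hΛ : 1 ≤ Λ
  big : W ^ ((4 : ℝ) / 3) ≤ Λ * (E.card : ℝ)
  reg : ∀ j, j ≤ J0 → RegF Λ E (K.cell q j)
  t2 : ∀ j, j ≤ J0 → ∑ c ∈ E.image (K.cell q j), ((visC K q j c).card : ℝ) ≤
    Λ * W * (im E (K.cell q j) : ℝ) ^ ((1 : ℝ) / 4)

/-- **(A)** From a pre-base to a base cell. -/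
def StPre : Prop := ∀ (J : ℕ) (σ : ℝ), 1 ≤ J → 0 < σ → ∃ κ0 : ℕ, 1 ≤ κ0 ∧
  ∀ (ι : Type) [Fintype ι] [DecidableEq ι] (K : KSys ι) (m : ℝ) (q J0 : ℕ) (W Λ : ℝ)
    (E : Finset ℕ) (B' : ℕ), 1 ≤ m → K.Sep m → PreBase K q J0 W Λ E →
    (κ0 : ℝ) ≤ 2 * σ * J0 → (q : ℝ) ^ (2 * σ * J0) ≤ (im E (K.cell q J0) : ℝ) →
    (J + 1) * Λ ^ 2 ≤ q → (q : ℝ) ^ (2 * σ * J0 + κ0 * B') ≤ W →
    ∃ (Q : ℕ) (s W' c R : ℝ) (hR : 0 < R) (E' : Finset ℕ),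
      Base (K.resc c R hR) Q J s W' m E' ∧ σ ≤ s ∧ q ≤ Q ∧ (Q : ℝ) ≤ (q : ℝ) ^ κ0 ∧
      (Q : ℝ) ^ B' ≤ W'

end Pool.Agent.Work.MP_e17eac_co.PS
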