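import Pool.Agent.Work.MP_e17eac_co.Bd.B13

/-!
# Project PS: the regular set (sections 3 and 4)

`RS` = data of the regular set of edges `E`; `RS.OK` = its properties. All sizes are measured by
`lg = log_Q`.
-/

namespace Pool.Agent.Work.MP_e17eac_co.PS

open Finset
open Pool.Agent.Work.MP_e17eac_co.DH

section geo

variable {ι : Type} [Fintype ι] [DecidableEq ι]

/-- The box of level `i` of the line `p` (in the plane of (slope, height at time 0)). -/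
noncomputable def bx (K : KSys ι) (Q i : ℕ) (p : ι) : ℤ × ℤ :=
  (⌊K.x p * (Q : ℝ) ^ i⌋, ⌊K.y p * (Q : ℝ) ^ i⌋)

/-- The slot of level `i` of the line `p`. -/
noncomputable def sl (K : KSys ι) (Q i : ℕ) (p : ι) : ℤ := ⌊K.x p * (Q : ℝ) ^ i⌋

/-- `r` belongs to the closed cell `c` of level `j`. -/
def InC (Q j c : ℕ) (r : ℝ) : Prop :=
  (c : ℝ) / (Q : ℝ) ^ j ≤ r ∧ r ≤ ((c : ℝ) + 1) / (Q : ℝ) ^ j

/-- At some time of the closed cell `c` some line of the bottom set is at least `δ` above `p`. -/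
def UpGap (K : KSys ι) (Q j c : ℕ) (p : ι) (δ : ℝ) : Prop :=
  ∃ (n : ℕ) (r : ℝ), K.ci Q j c ≤ n ∧ n ≤ K.ci Q j (c + 1) ∧ K.Valid n r ∧ InC Q j c r ∧
    ∃ q, q ∈ K.S n ∧ K.ht p r + δ ≤ K.ht q r

/-- At some time of the closed cell `c` some line of the top set is at least `δ` below `p`. -/
def DnGap (K : KSys ι) (Q j c : ℕ) (p : ι) (δ : ℝ) : Prop :=
  ∃ (n : ℕ) (r : ℝ), K.ci Q j c ≤ n ∧ n ≤ K.ci Q j (c + 1) ∧ K.Valid n r ∧ InC Q j c r ∧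
    ∃ q, q ∉ K.S n ∧ K.ht q r + δ ≤ K.ht p r

end geo

/-- Data of a regular set. `I` = number of box levels, `D` = displacement classes (`false` =
bottom tokens), `dl j` = common value (up to `2`) of `min (d+, d-) (a n, cell_j n)`,
`V i` = common value (up to `2`) of the number of visited lines near the box of `a n`. -/
structure RS (ι : Type) [Fintype ι] [DecidableEq ι] where
  K : KSys ι
  Q : ℕ
  J : ℕ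
  g : ℕ
  I : ℕ
  s : ℝ
  W : ℝ
  Λ : ℝ
  E : Finset ℕ
  D : Bool → ℕ → ℝ
  dl : ℕ → ℝ
  V : ℕ → ℝ

namespace RS

variable {ι : Type} [Fintype ι] [DecidableEq ι]

/-- The time cell of level `j` of the edge `n`. -/
noncomputable def cl (X : RS ι) (j n : ℕ) : ℕ := X.K.cell X.Q j n

/-- The box of level `i` of the line `a n`. -/
noncomputable def box (X : RS ι) (i n : ℕ) : ℤ × ℤ := bx X.K X.Q i (X.K.a n)

/-- The slot of level `i` of the line `a n`. -/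
noncomputable def slot (X : RS ι) (i n : ℕ) : ℤ := sl X.K X.Q i (X.K.a n)

/-- Logarithm to the base `Q`. -/
noncomputable def lg (X : RS ι) (r : ℝ) : ℝ := Real.logb X.Q r

noncomputable def w (X : RS ι) : ℝ := X.lg X.W

noncomputable def lE (X : RS ι) : ℝ := X.lg X.E.card

/-- Active cells. -/
noncomputable def lM (X : RS ι) (j : ℕ) : ℝ := X.lg (im X.E (fun n => X.cl j n))

/-- Pairs (cell, line of kind `s`). -/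
noncomputable def lL (X : RS ι) (s : Bool) (j : ℕ) : ℝ :=
  X.lg (im X.E (fun n => (X.cl j n, X.K.ln s n)))

/-- Pairs (cell, token of kind `p`). -/
noncomputable def lT (X : RS ι) (p : Bool) (j : ℕ) : ℝ :=
  X.lg (im X.E (fun n => (X.cl j n, X.K.tok p n)))

/-- Boxes. -/
noncomputable def lB (X : RS ι) (i : ℕ) : ℝ := X.lg (im X.E (fun n => X.box i n))

/-- Pairs (cell, box). -/
noncomputable def lG (X : RS ι) (j i : ℕ) : ℝ :=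
  X.lg (im X.E (fun n => (X.cl j n, X.box i n)))

/-- Pairs (cell, slot). -/
noncomputable def lS (X : RS ι) (j i : ℕ) : ℝ :=
  X.lg (im X.E (fun n => (X.cl j n, X.slot i n)))

open Classical in
/-- The lines visited in `[0,1)` whose box of level `i` is the box of `a n` or one of its two
vertical neighbours. -/
noncomputable def v3 (X : RS ι) (i n : ℕ) : ℕ :=
  ((visC X.K X.Q 0 0).filter (fun q => (bx X.K X.Q i q).1 = (X.box i n).1 ∧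
    |(bx X.K X.Q i q).2 - (X.box i n).2| ≤ 1)).card

/-- The regular set: first properties. -/
structure OK0 (X : RS ι) : Prop where
  hQ : 2 ^ 20 ≤ X.Q
  hg : 1 ≤ X.g
  hs0 : 0 < X.s
  hs1 : X.s ≤ 1
  hsg : 400 ≤ X.s * (X.g : ℝ)
  hL : 1 ≤ X.Λ
  hLQ : X.Λ ^ 100 ≤ (X.Q : ℝ)
  hW : 1 ≤ X.W
  hw : 100 * ((X.J : ℝ) + X.g) + 10000 ≤ X.w
  sep : ∃ m : ℝ, 1 ≤ m ∧ X.K.Sep m
  sub : ∀ n ∈ X.E, n < X.K.N ∧ 0 ≤ X.K.t n ∧ X.K.t n < 1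
  ne : X.E.Nonempty
  big : X.W ^ ((4 : ℝ) / 3) ≤ (X.Q : ℝ) ^ 2 * (X.E.card : ℝ)
  fib : ∀ j, j ≤ X.J → ∀ c : ℕ, ((X.E.filter (fun n => X.cl j n = c)).card : ℝ) *
    (X.Q : ℝ) ^ (X.s * (j : ℝ)) ≤ (X.Q : ℝ) ^ 3 * (X.E.card : ℝ)
  act : ∀ j, j ≤ X.J → (im X.E (fun n => X.cl j n) : ℝ) ≤
    (X.Q : ℝ) ^ 2 * (X.Q : ℝ) ^ (X.s * (j : ℝ))
  t2 : ∀ j, j ≤ X.J → ∑ c ∈ X.E.image (fun n => X.cl j n), ((visC X.K X.Q j c).card : ℝ) ≤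
    (X.Q : ℝ) ^ 2 * X.W * (X.Q : ℝ) ^ (X.s * (j : ℝ) / 4)
  regM : ∀ j, j ≤ X.J → RegF X.Λ X.E (fun n => X.cl j n)
  regL : ∀ s j, j ≤ X.J → RegF X.Λ X.E (fun n => (X.cl j n, X.K.ln s n))
  regT : ∀ p j, j ≤ X.J → RegF X.Λ X.E (fun n => (X.cl j n, X.K.tok p n))
  dlo : ∀ p j, j ≤ X.J → ∀ n ∈ X.E, X.D p j ≤ X.K.disp X.Q j (X.cl j n) (X.K.tok p n)
  dhi : ∀ p j, j ≤ X.J → ∀ n ∈ X.E, X.K.disp X.Q j (X.cl j n) (X.K.tok p n) < 2 * X.D p j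

/-- The regular set: all properties. -/
structure OK (X : RS ι) : Prop extends OK0 X where
  regB : ∀ i, i ≤ X.I → RegF X.Λ X.E (fun n => X.box i n)
  regG : ∀ j i, j ≤ X.J → i ≤ X.I → RegF X.Λ X.E (fun n => (X.cl j n, X.box i n))
  regS : ∀ j i, j ≤ X.J → i ≤ X.I → RegF X.Λ X.E (fun n => (X.cl j n, X.slot i n))
  gap : ∀ j, j + X.g ≤ X.J → ∀ n ∈ X.E, ∀ δ : ℝ, δ < X.dl j →
    UpGap X.K X.Q j (X.cl j n) (X.K.a n) δ ∧ DnGap X.K X.Q j (X.cl j n) (X.K.a n) δ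
  typ : ∀ j, j + X.g ≤ X.J → (∀ n ∈ X.E, ¬ UpGap X.K X.Q j (X.cl j n) (X.K.a n) (2 * X.dl j)) ∨
    (∀ n ∈ X.E, ¬ DnGap X.K X.Q j (X.cl j n) (X.K.a n) (2 * X.dl j))
  deep : ∀ j, j + X.g ≤ X.J → 16 ≤ X.dl j * (X.Q : ℝ) ^ X.I
  vlo : ∀ i, i ≤ X.I → ∀ n ∈ X.E, X.V i ≤ (X.v3 i n : ℝ)
  vhi : ∀ i, i ≤ X.I → ∀ n ∈ X.E, (X.v3 i n : ℝ) < 2 * X.V i

/-- The levels of the boxes of size `dl j`. -/
structure IJ (X : RS ι) (f : ℕ → ℕ) : Prop where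
  mono : ∀ j j', j ≤ j' → j' + X.g ≤ X.J → f j ≤ f j'
  le : ∀ j, j + X.g ≤ X.J → f j ≤ X.I
  lo : ∀ j, j + X.g ≤ X.J → 8 ≤ X.dl j * (X.Q : ℝ) ^ f j
  hi : ∀ j, j + X.g ≤ X.J → X.dl j * (X.Q : ℝ) ^ f j ≤ 16 * (X.Q : ℝ)

/-- `κ` is a class function of level `j`. -/
structure Cls (X : RS ι) (j : ℕ) (κ : ℕ → ℕ) : Prop where
  lt : ∀ n ∈ X.E, κ n < X.Q ^ (2 * X.g)
  same : ∀ n ∈ X.E, ∀ n' ∈ X.E, X.cl j n = X.cl j n' → X.K.a n = X.K.a n' → κ n = κ n'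
  flat : ∀ n ∈ X.E, ∀ n' ∈ X.E, X.cl j n = X.cl j n' → κ n = κ n' → ∀ r : ℝ,
    InC X.Q j (X.cl j n) r →
    |X.K.ht (X.K.a n) r - X.K.ht (X.K.a n') r| ≤ (X.Q : ℝ) ^ (X.g + 1) * X.dl j

end RS

/-! ### Exponents -/

/-- The relations between the exponents: `b i` = lg of the number of boxes of level `i`, `G j i` =
lg of the number of pairs (cell of level `j`, box of level `i`), `f j` = level of the boxes of size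
`dl j`. -/
structure Ex (s : ℝ) (g J I : ℕ) (f : ℕ → ℕ) (b : ℕ → ℝ) (G : ℕ → ℕ → ℝ) : Prop where
  mono : ∀ j j', j ≤ j' → j' + g ≤ J → f j ≤ f j'
  le : ∀ j, j + g ≤ J → f j ≤ I
  bmono : ∀ i i', i ≤ i' → i' ≤ I → b i ≤ b i'
  gj : ∀ j j' i, j ≤ j' → j' ≤ J → i ≤ I → G j i ≤ G j' i
  gi : ∀ j i i', j ≤ J → i ≤ i' → i' ≤ I → G j i ≤ G j i'
  triv : ∀ j i, j ≤ J → i ≤ I → G j i ≤ s * j + 2 + b i
  q4 : ∀ j i, j + g ≤ J → f j ≤ i → i ≤ I → G j i ≤ b i + s * j / 4 + 21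
  q5 : ∀ j i, j ≤ J → i ≤ I → b i + s * j / 4 - 21 ≤ G j i
  F : ∀ j0 j, j0 ≤ j → j + g ≤ J → G j (f j0) ≤ s * j + 6 * g + 20 ∨
    G j (f j0) ≤ 3 / 4 * (s * j) - 1 / 2 * (s * j0) + b (f j0) + 9 * g + 80
  A : ∀ j i0, g ≤ j → j + g ≤ J → i0 ≤ f j →
    b (f j) + b i0 + s * j / 2 ≤ 2 * G j i0 + 8 * g + 60
  A0 : b (f 0) ≤ 4 * g + 8
  P2 : ∀ j, j + g ≤ J → s * j - 80 ≤ b (f j)
  B : ∀ j l i' i'', j + g ≤ J → i' ≤ i'' → i'' ≤ f j → l ≤ j →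
    (l = 0 ∨ l + g + 4 + i'' ≤ f j) → 2 * g + 2 ≤ G j i'' - G j i' →
    G j (f j) + G l (f j) ≤ 2 * b (f j) - b i' + G j i' + 4 * g + 5
  Lo : ∀ j0 j, j0 ≤ j → j + g ≤ J → b (f j0) - s * j0 / 2 + 46 < s * j / 4 →
    f j0 + j ≤ f j

/-! ### Statements -/

/-- Nesting of cells, boxes, slots. -/
def StNest : Prop := ∀ (ι : Type) [Fintype ι] [DecidableEq ι] (K : KSys ι) (Q : ℕ), 1 ≤ Q →
  (∀ j j' n n', j ≤ j' → 0 ≤ K.t n → 0 ≤ K.t n' → K.cell Q j' n = K.cell Q j' n' →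
    K.cell Q j n = K.cell Q j n') ∧
  (∀ j j' n, j ≤ j' → 0 ≤ K.t n → K.cell Q j n = K.cell Q j' n / Q ^ (j' - j)) ∧
  (∀ j n, 0 ≤ K.t n → InC Q j (K.cell Q j n) (K.t n)) ∧
  (∀ i i' p q, i ≤ i' → bx K Q i' p = bx K Q i' q → bx K Q i p = bx K Q i q) ∧
  (∀ i i' p q, i ≤ i' → sl K Q i' p = sl K Q i' q → sl K Q i p = sl K Q i q) ∧
  (∀ i p, (bx K Q i p).1 = sl K Q i p) ∧
  (∀ i p q r, bx K Q i p = bx K Q i q → 0 ≤ r → r ≤ 1 →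
    |K.ht p r - K.ht q r| ≤ 2 / (Q : ℝ) ^ i ∧ |K.x p - K.x q| ≤ 1 / (Q : ℝ) ^ i) ∧
  (∀ n, 0 ≤ K.t n → K.t n < 1 → K.cell Q 0 n = 0)

/-- (D1) A line close to `p` in a cell changes its status. -/
def StVis : Prop := ∀ (ι : Type) [Fintype ι] [DecidableEq ι] (K : KSys ι) (Q j c : ℕ) (p q : ι)
  (δ : ℝ), 1 ≤ Q → UpGap K Q j c p δ → DnGap K Q j c p δ →
  (∀ r, InC Q j c r → |K.ht q r - K.ht p r| < δ) → q ∈ visC K Q j c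

/-- (D2) The gaps are bounded by the displacements, and grow with the cell. -/
def StGapR : Prop := ∀ (ι : Type) [Fintype ι] [DecidableEq ι] (K : KSys ι) (Q j n : ℕ) (δ : ℝ),
  1 ≤ Q → n < K.N → 0 ≤ K.t n →
  (UpGap K Q j (K.cell Q j n) (K.a n) δ →
    δ * (Q : ℝ) ^ j ≤ K.disp Q j (K.cell Q j n) (K.tokT n)) ∧
  (DnGap K Q j (K.cell Q j n) (K.a n) δ →
    δ * (Q : ℝ) ^ j ≤ K.disp Q j (K.cell Q j n) (K.tokB n)) ∧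
  ∀ j', j ≤ j' → ∀ p, (UpGap K Q j' (K.cell Q j' n) p δ → UpGap K Q j (K.cell Q j n) p δ) ∧
    (DnGap K Q j' (K.cell Q j' n) p δ → DnGap K Q j (K.cell Q j n) p δ)

/-- The numbers `dl j`. -/
def StGapD : Prop := ∀ (ι : Type) [Fintype ι] [DecidableEq ι] (X : RS ι), X.OK →
  (∀ j, j + X.g ≤ X.J → 0 < X.dl j ∧ X.dl j ≤ 2 ∧
    ∀ p, X.dl j * (X.Q : ℝ) ^ j ≤ 2 * X.D p j) ∧
  (∀ j j', j ≤ j' → j' + X.g ≤ X.J → X.dl j' ≤ 2 * X.dl j)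

/-- Existence of the levels `f j`. -/
def StIJ : Prop := ∀ (ι : Type) [Fintype ι] [DecidableEq ι] (X : RS ι), X.OK → ∃ f, X.IJ f

/-- Sizes. -/
def StQ1 : Prop := ∀ (ι : Type) [Fintype ι] [DecidableEq ι] (X : RS ι), X.OK0 →
  4 / 3 * X.w - 2 ≤ X.lE ∧
  (∀ j, j ≤ X.J → X.s * j - 3 ≤ X.lM j ∧ X.lM j ≤ X.s * j + 2) ∧
  (∀ j i, X.lS j i ≤ X.lG j i ∧ X.lG j i ≤ X.lM j + X.lB i) ∧
  (∀ i i', i ≤ i' → X.lB i ≤ X.lB i') ∧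
  (∀ j j' i, j ≤ j' → X.lG j i ≤ X.lG j' i) ∧ (∀ j i i', i ≤ i' → X.lG j i ≤ X.lG j i') ∧
  0 ≤ X.lB 0 ∧ (∀ i, X.lG 0 i = X.lB i) ∧ X.lM 0 = 0

/-- Lines and tokens of a cell are bounded by the visited lines. -/
def StQ2 : Prop := ∀ (ι : Type) [Fintype ι] [DecidableEq ι] (X : RS ι), X.OK0 → ∀ j, j ≤ X.J →
  (∀ s, X.lL s j ≤ X.w + X.s * j / 4 + 2) ∧ (∀ p, X.lT p j ≤ X.w + X.s * j / 4 + 2)

/-- Dey in the cells. -/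
def StQ3 : Prop := ∀ (ι : Type) [Fintype ι] [DecidableEq ι] (X : RS ι), X.OK0 → ∀ j, j ≤ X.J →
  (∀ s, X.w + X.s * j / 4 - 18 ≤ X.lL s j) ∧ (∀ p, X.w + X.s * j / 4 - 18 ≤ X.lT p j)

/-- Every line of a cell is visited in at least three children of depth `g`. -/
def StChild : Prop := ∀ (ι : Type) [Fintype ι] [DecidableEq ι] (X : RS ι), X.OK0 → ∀ j,
  j + X.g ≤ X.J → ∀ n ∈ X.E, ∃ n1 ∈ X.E, ∃ n2 ∈ X.E, X.cl j n1 = X.cl j n ∧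
    X.cl j n2 = X.cl j n ∧ X.K.a n1 = X.K.a n ∧ X.K.a n2 = X.K.a n ∧
    X.cl (j + X.g) n1 + 2 ≤ X.cl (j + X.g) n2

/-- (D3) Contact of two lines. -/
def StCont : Prop := ∀ (ι : Type) [Fintype ι] [DecidableEq ι] (K : KSys ι) (Q j g : ℕ) (δ : ℝ)
  (E : Finset ℕ), 2 ^ 20 ≤ Q → 0 < δ → (∀ n ∈ E, n < K.N ∧ 0 ≤ K.t n) →
  ((∀ n ∈ E, ¬ UpGap K Q j (K.cell Q j n) (K.a n) (2 * δ)) ∨
    (∀ n ∈ E, ¬ DnGap K Q j (K.cell Q j n) (K.a n) (2 * δ))) →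
  ∀ k ∈ E, ∀ l ∈ E, ∀ k' ∈ E, ∀ l' ∈ E,
  K.cell Q j l = K.cell Q j k → K.cell Q j k' = K.cell Q j k → K.cell Q j l' = K.cell Q j k →
  K.a k = K.a l → K.a k' = K.a l' →
  K.cell Q (j + g) k = K.cell Q (j + g) k' → K.cell Q (j + g) l = K.cell Q (j + g) l' →
  K.cell Q (j + g) k + 2 ≤ K.cell Q (j + g) l →
  ∀ r, InC Q j (K.cell Q j k) r → |K.ht (K.a k) r - K.ht (K.a k') r| ≤ (Q : ℝ) ^ (g + 1) * δ

/-- Classes (for a first version of the regular set). -/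
def StCls0 : Prop := ∀ (ι : Type) [Fintype ι] [DecidableEq ι] (X : RS ι), X.OK0 → ∀ j,
  j + X.g ≤ X.J → 0 < X.dl j →
  ((∀ n ∈ X.E, ¬ UpGap X.K X.Q j (X.cl j n) (X.K.a n) (2 * X.dl j)) ∨
    (∀ n ∈ X.E, ¬ DnGap X.K X.Q j (X.cl j n) (X.K.a n) (2 * X.dl j))) → ∃ κ, X.Cls j κ

/-- There are edges with gaps of size `2 * dl j`, if `dl j` is tiny. -/
def StBad : Prop := ∀ (ι : Type) [Fintype ι] [DecidableEq ι] (X : RS ι), X.OK0 → ∀ m : ℝ,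
  1 ≤ m → X.K.Sep m → ∀ j, j + X.g ≤ X.J → 0 < X.dl j →
  X.dl j * (m * (X.Q : ℝ) ^ (X.J + 2)) ≤ 1 →
  (∃ n ∈ X.E, UpGap X.K X.Q j (X.cl j n) (X.K.a n) (2 * X.dl j)) ∧
  (∃ n ∈ X.E, DnGap X.K X.Q j (X.cl j n) (X.K.a n) (2 * X.dl j))

/-- (Q4) -/
def StQ4 : Prop := ∀ (ι : Type) [Fintype ι] [DecidableEq ι] (X : RS ι), X.OK → ∀ j i,
  j + X.g ≤ X.J → i ≤ X.I → 8 ≤ X.dl j * (X.Q : ℝ) ^ i →
  X.lG j i ≤ X.lB i + X.s * j / 4 + 21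

/-- (Q5) -/
def StQ5 : Prop := ∀ (ι : Type) [Fintype ι] [DecidableEq ι] (X : RS ι), X.OK → ∀ j i,
  j ≤ X.J → i ≤ X.I → X.lB i + X.s * j / 4 - 21 ≤ X.lG j i

/-- (Q7) -/
def StQ7 : Prop := ∀ (ι : Type) [Fintype ι] [DecidableEq ι] (X : RS ι), X.OK → ∀ j i,
  j + X.g ≤ X.J → i ≤ X.I → X.dl j * (X.Q : ℝ) ^ i ≤ 16 * X.Q →
  X.lG j i ≤ X.lS j i + 3 * X.g + 6

/-- `E2` = edges in the middle of intervals of slopes of length at most `D / 4` with at least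
`l` active slots on both sides. -/
structure RS.Mid {ι : Type} [Fintype ι] [DecidableEq ι] (X : RS ι) (j i : ℕ) (E2 : Finset ℕ)
    (l : ℝ) : Prop where
  sub : E2 ⊆ X.E
  card : (X.E.card : ℝ) ≤ (X.Q : ℝ) ^ (3 * X.g + 2) * (E2.card : ℝ)
  one_le : 1 ≤ l
  hl : X.lS j i - X.lM j ≤ X.lg l + 3 * X.g + 2
  up : ∀ n ∈ E2, ∃ U : Finset ℤ, l ≤ (U.card : ℝ) ∧ ∀ σ ∈ U,
    (∃ n' ∈ X.E, X.cl j n' = X.cl j n ∧ X.slot i n' = σ) ∧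
    X.K.x (X.K.a n) * (X.Q : ℝ) ^ i ≤ σ ∧
    (σ : ℝ) + 1 ≤ (X.K.x (X.K.a n) + X.D false j / 4) * (X.Q : ℝ) ^ i
  dn : ∀ n ∈ E2, ∃ U : Finset ℤ, l ≤ (U.card : ℝ) ∧ ∀ σ ∈ U,
    (∃ n' ∈ X.E, X.cl j n' = X.cl j n ∧ X.slot i n' = σ) ∧
    (X.K.x (X.K.a n) - X.D false j / 4) * (X.Q : ℝ) ^ i ≤ σ ∧
    (σ : ℝ) + 1 ≤ X.K.x (X.K.a n) * (X.Q : ℝ) ^ i

/-- (Q8), first half. -/
def StQ8x : Prop := ∀ (ι : Type) [Fintype ι] [DecidableEq ι] (X : RS ι), X.OK → ∀ j i,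
  j + X.g ≤ X.J → i ≤ X.I → X.lM j + 3 * X.g + 10 < X.lS j i → ∃ E2 l, X.Mid j i E2 l

/-- (Q8), second half. -/
def StQ8y : Prop := ∀ (ι : Type) [Fintype ι] [DecidableEq ι] (X : RS ι), X.OK → ∀ j0 j i,
  j0 ≤ j → j + X.g ≤ X.J → i ≤ X.I → ∀ E2 l, X.Mid j i E2 l →
  X.lT false j + X.lS j i - X.lM j ≤ X.lT false j0 + X.lS j0 i - X.lM j0 + 6 * X.g + 8

/-- (A1) Two far cells share few boxes. -/
def StA1 : Prop := ∀ (ι : Type) [Fintype ι] [DecidableEq ι] (X : RS ι), X.OK → ∀ j i c c',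
  X.g ≤ j → j + X.g ≤ X.J → i ≤ X.I → X.dl j * (X.Q : ℝ) ^ i ≤ 16 * X.Q →
  c / X.Q ^ (j - X.g) + 2 ≤ c' / X.Q ^ (j - X.g) →
  (((X.E.filter (fun n => X.cl j n = c)).image (fun n => X.box i n) ∩
    (X.E.filter (fun n => X.cl j n = c')).image (fun n => X.box i n)).card : ℝ) ≤
    (X.Q : ℝ) ^ (8 * X.g + 6)

/-- (A) Cordoba between far cells. -/
def StA : Prop := ∀ (ι : Type) [Fintype ι] [DecidableEq ι] (X : RS ι), X.OK → ∀ j i i0,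
  X.g ≤ j → j + X.g ≤ X.J → i0 ≤ i → i ≤ X.I → X.dl j * (X.Q : ℝ) ^ i ≤ 16 * X.Q →
  X.lB i + X.lB i0 + X.s * j / 2 ≤ 2 * X.lG j i0 + 8 * X.g + 60

/-- (A0) -/
def StA0 : Prop := ∀ (ι : Type) [Fintype ι] [DecidableEq ι] (X : RS ι), X.OK → X.g ≤ X.J → ∀ i,
  i ≤ X.I → X.dl 0 * (X.Q : ℝ) ^ i ≤ 16 * X.Q → X.lB i ≤ 4 * X.g + 8

/-- (IN) Most edges stay in their slot. -/
def StIN : Prop := ∀ (ι : Type) [Fintype ι] [DecidableEq ι] (X : RS ι), X.OK → ∀ i, i ≤ X.I →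
  X.lB i ≤ 3 / 2 * (X.s * X.J) + 16 * X.g + 100 →
  2 * (X.E.filter (fun n => sl X.K X.Q i (X.K.a n) ≠ sl X.K X.Q i (X.K.b n))).card ≤ X.E.card

open Classical in
/-- The crossing pairs with equal boxes. -/
noncomputable def RS.crossB {ι : Type} [Fintype ι] [DecidableEq ι] (X : RS ι) (i : ℕ) :
    Finset (ℕ × ℕ) :=
  (X.E ×ˢ X.E).filter (fun z => z.1 < z.2 ∧ X.K.Cross z.1 z.2 ∧ X.box i z.1 = X.box i z.2)

/-- (P2), upper bound for the crossings. -/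
def StP2a : Prop := ∀ (ι : Type) [Fintype ι] [DecidableEq ι] (X : RS ι), X.OK → ∀ j i,
  j ≤ X.J → i ≤ X.I →
  X.lg (X.crossB i).card ≤ 2 * X.lG j i - X.lB i + X.lT false j + X.lT true j - 2 * X.lM j + 1

/-- (P2), lower bound for the crossings. -/
def StP2b : Prop := ∀ (ι : Type) [Fintype ι] [DecidableEq ι] (X : RS ι), X.OK → ∀ i,
  i ≤ X.I → X.lB i ≤ 3 / 2 * (X.s * X.J) + 16 * X.g + 100 →
  2 * (X.E.filter (fun n => sl X.K X.Q i (X.K.a n) ≠ sl X.K X.Q i (X.K.b n))).card ≤ X.E.card →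
  2 * X.w - 16 ≤ X.lg (X.crossB i).card

open Classical in
/-- Triples (cell, box, box) of class-mates which are not near. -/
noncomputable def RS.Psi {ι : Type} [Fintype ι] [DecidableEq ι] (X : RS ι) (κ : ℕ → ℕ)
    (j i i' i'' : ℕ) : Finset (ℕ × (ℤ × ℤ) × (ℤ × ℤ)) :=
  ((X.E ×ˢ X.E).filter (fun z => X.cl j z.1 = X.cl j z.2 ∧ κ z.1 = κ z.2 ∧
    X.box i' z.1 = X.box i' z.2 ∧ ¬ (|(X.box i'' z.1).1 - (X.box i'' z.2).1| ≤ 1 ∧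
      |(X.box i'' z.1).2 - (X.box i'' z.2).2| ≤ 1))).image
    (fun z => (X.cl j z.1, X.box i z.1, X.box i z.2))

/-- (B), lower bound. -/
def StB1 : Prop := ∀ (ι : Type) [Fintype ι] [DecidableEq ι] (X : RS ι), X.OK →
  ∀ j i i' i'' κ, j ≤ X.J → i ≤ X.I → i' ≤ i'' → i'' ≤ i → (∀ n ∈ X.E, κ n < X.Q ^ (2 * X.g)) →
  2 * X.g + 2 ≤ X.lG j i'' - X.lG j i' →
  2 * X.lG j i - X.lG j i' - 4 * X.g - 1 ≤ X.lg (X.Psi κ j i i' i'').card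

/-- (B), upper bound. -/
def StB2 : Prop := ∀ (ι : Type) [Fintype ι] [DecidableEq ι] (X : RS ι), X.OK →
  ∀ j l i i' i'' κ, j + X.g ≤ X.J → i ≤ X.I → X.dl j * (X.Q : ℝ) ^ i ≤ 16 * X.Q → i' ≤ i'' →
  i'' ≤ i → l ≤ j → (l = 0 ∨ l + X.g + 4 + i'' ≤ i) → X.Cls j κ →
  X.lg (X.Psi κ j i i' i'').card ≤ 2 * X.lB i - X.lB i' + X.lG j i - X.lG l i + 1

/-- (Lo) Tokens with large displacement leave their slots. -/
def StLo : Prop := ∀ (ι : Type) [Fintype ι] [DecidableEq ι] (X : RS ι), X.OK → ∀ j0 j i0,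
  j0 ≤ j → j ≤ X.J → i0 ≤ X.I → 1 < X.D false j * (X.Q : ℝ) ^ i0 →
  X.lT false j ≤ X.lT false j0 + X.lS j0 i0 - X.lM j0 + 2

/-- Most edges of the base cell have gaps that are not tiny. -/
def StRX1 : Prop := ∀ J g B : ℕ, 1 ≤ g → ∃ Q0 : ℕ, ∀ (ι : Type) [Fintype ι] [DecidableEq ι]
  (K : KSys ι) (Q : ℕ) (s W m : ℝ) (E : Finset ℕ), Base K Q J s W m E → Q0 ≤ Q →
  m ≤ (Q : ℝ) ^ B → 400 ≤ s * (g : ℝ) → 100 * ((J : ℝ) + g) + 10000 ≤ Real.logb Q W →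
  ∃ E1 ⊆ E, E.card ≤ 2 * E1.card ∧ ∀ n ∈ E1, ∀ j, j + g ≤ J →
    UpGap K Q j (K.cell Q j n) (K.a n) (2 / (m * (Q : ℝ) ^ (J + 2))) ∧
    DnGap K Q j (K.cell Q j n) (K.a n) (2 / (m * (Q : ℝ) ^ (J + 2)))

/-- Existence of the regular set. -/
def StRX : Prop := ∀ J g B : ℕ, 1 ≤ g → ∃ Q0 : ℕ, ∀ (ι : Type) [Fintype ι] [DecidableEq ι]
  (K : KSys ι) (Q : ℕ) (s W m : ℝ) (E : Finset ℕ), Base K Q J s W m E → Q0 ≤ Q →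
  m ≤ (Q : ℝ) ^ B → 400 ≤ s * (g : ℝ) → 100 * ((J : ℝ) + g) + 10000 ≤ Real.logb Q W →
  ∃ X : RS ι, X.OK ∧ X.K = K ∧ X.Q = Q ∧ X.J = J ∧ X.g = g ∧ X.s = s

/-- All relations together. -/
def StEx : Prop := ∀ (ι : Type) [Fintype ι] [DecidableEq ι] (X : RS ι), X.OK →
  2 * X.g ≤ X.J → ∀ f, X.IJ f → Ex X.s X.g X.J X.I f X.lB X.lG

/-- Consequences of the relations (abstract). -/
def StLin : Prop := ∀ σ : ℝ, 0 < σ → ∀ g : ℕ, ∃ C : ℝ, 1 ≤ C ∧ ∀ (s : ℝ) (J I : ℕ) (f : ℕ → ℕ)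
  (b : ℕ → ℝ) (G : ℕ → ℕ → ℝ), σ ≤ s → s ≤ 1 → 400 ≤ s * (g : ℝ) → 2 ≤ J → 2 * g ≤ J →
  Ex s g J I f b G →
  (∀ j, j + g ≤ J → |b (f j) - s * j| ≤ C * Real.logb 2 J) ∧
  ∀ j0 : ℕ, C * Real.logb 2 J ≤ j0 → 3 * j0 + g ≤ J →
    (∀ j1 j2, j0 ≤ j1 → j1 ≤ j2 → j2 ≤ 2 * j0 →
      |(f j2 : ℝ) - f j1 - 2 * ((j2 : ℝ) - j1)| ≤ C * Real.logb 2 J) ∧
    (∀ j, j0 ≤ j → 2 * j ≤ 3 * j0 →
      s * ((j : ℝ) - j0) / 2 - C * Real.logb 2 J ≤ G j (f j) - G j (f j0))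

end Pool.Agent.Work.MP_e17eac_co.PS
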