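import Pool.Agent.Work.MP_e17eac_co.PS.Lg
import Pool.Agent.Work.MP_e17eac_co.Bd.B03

/-!
# Project PS, section 7: the final configuration

Inside one coarse box `B` (level `i'`) the fine boxes (level `i' + l`) are the points `cT`, the
cells of level `l` in which `B` is active are the slopes `cA` of the configuration of the ring
module, and `cI` are the incidences of popular edges.
-/

namespace Pool.Agent.Work.MP_e17eac_co.PS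

open Finset
open Pool.Agent.Work.MP_e17eac_co.DH

variable {ι : Type} [Fintype ι] [DecidableEq ι]

/-- Boxes of level `i` of the class-mates of `n` in the box of level `i'` of `n`. -/
noncomputable def RS.mates (X : RS ι) (κ : ℕ → ℕ) (j i i' n : ℕ) : Finset (ℤ × ℤ) :=
  (X.E.filter (fun k => X.cl j k = X.cl j n ∧ X.box i' k = X.box i' n ∧ κ k = κ n)).image
    (fun k => X.box i k)

/-- The fine box (level `i' + l`) of `n` as a point of the box `B` of level `i'`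
(first coordinate reversed, unit = side of the fine boxes). -/
noncomputable def RS.pt (X : RS ι) (l i' : ℕ) (B : ℤ × ℤ) (n : ℕ) : ℝ × ℝ :=
  (-(((X.box (i' + l) n).1 : ℝ) - (B.1 : ℝ) * (X.Q : ℝ) ^ l),
    ((X.box (i' + l) n).2 : ℝ) - (B.2 : ℝ) * (X.Q : ℝ) ^ l)

/-- The starting time of the cell of level `l` of `n`. -/
noncomputable def RS.tm (X : RS ι) (l n : ℕ) : ℝ := (X.cl l n : ℝ) / (X.Q : ℝ) ^ l

noncomputable def RS.cA (X : RS ι) (l i' : ℕ) (B : ℤ × ℤ) : Finset ℝ :=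
  (X.E.filter (fun n => X.box i' n = B)).image (fun n => X.tm l n)

noncomputable def RS.cT (X : RS ι) (l i' : ℕ) (B : ℤ × ℤ) : Finset (ℝ × ℝ) :=
  (X.E.filter (fun n => X.box i' n = B)).image (fun n => X.pt l i' B n)

noncomputable def RS.cI (X : RS ι) (E2 : Finset ℕ) (l i' : ℕ) (B : ℤ × ℤ) :
    Finset ((ℝ × ℝ) × ℝ) :=
  (E2.filter (fun n => X.box i' n = B)).image (fun n => (X.pt l i' B n, X.tm l n))

/-- (F1) Popular edges. -/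
def StF1 : Prop := ∀ (ι : Type) [Fintype ι] [DecidableEq ι] (X : RS ι), X.OK →
  ∀ (j i i' : ℕ) (κ : ℕ → ℕ), j ≤ X.J → i' ≤ i → i ≤ X.I →
  (∀ n ∈ X.E, κ n < X.Q ^ (2 * X.g)) →
  ∃ E2 ⊆ X.E, X.E.card ≤ 2 * E2.card ∧ ∀ n ∈ E2,
    X.lG j i - X.lG j i' - 2 * X.g - 1 ≤ X.lg ((X.mates κ j i i' n).card : ℝ)

/-- (F2) Regularity of the times in which a box is active. -/
def StF2 : Prop := ∀ (ι : Type) [Fintype ι] [DecidableEq ι] (X : RS ι), X.OK →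
  ∀ (l i' : ℕ), l + X.g ≤ X.J → i' ≤ X.I → 8 ≤ X.dl l * (X.Q : ℝ) ^ i' →
  ∀ (B : ℤ × ℤ) (y r : ℝ), 1 ≤ r →
  (((X.cA l i' B).filter (fun x => |x - y| ≤ r / (X.Q : ℝ) ^ l)).card : ℝ) ≤
    (X.Q : ℝ) ^ (45 : ℝ) * r ^ (X.s / 4)

/-- (F3) Regularity of the fine boxes. -/
def StF3 : Prop := ∀ (ι : Type) [Fintype ι] [DecidableEq ι] (X : RS ι), X.OK →
  ∀ f, X.IJ f → ∀ (j' j l : ℕ) (e : ℝ), j' ≤ j → j + X.g ≤ X.J → f j = f j' + l → 0 ≤ e →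
  (∀ k, j' ≤ k → k ≤ j → |X.lB (f k) - X.s * k| ≤ e) →
  (∀ k k', j' ≤ k → k ≤ k' → k' ≤ j → |(f k' : ℝ) - f k - 2 * ((k' : ℝ) - k)| ≤ e) →
  ∀ (B : ℤ × ℤ) (q : ℝ × ℝ) (r : ℝ), 1 ≤ r →
  (((X.cT l (f j') B).filter (fun p => |p.1 - q.1| ≤ r ∧ |p.2 - q.2| ≤ r)).card : ℝ) ≤
    (X.Q : ℝ) ^ (3 * e + 5) * r ^ (X.s / 2)

/-- (F4) Few strips in every direction. -/
def StF4 : Prop := ∀ (ι : Type) [Fintype ι] [DecidableEq ι] (X : RS ι), X.OK →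
  ∀ (j i' l : ℕ) (κ : ℕ → ℕ), l ≤ j → j + X.g ≤ X.J → i' + l ≤ X.I →
  X.dl j * (X.Q : ℝ) ^ (i' + l) ≤ 16 * X.Q → X.Cls j κ → ∀ E2 ⊆ X.E, ∀ φ : ℝ,
  (∀ n ∈ E2, φ ≤ X.lg ((X.mates κ j (i' + l) i' n).card : ℝ)) → ∀ (B : ℤ × ℤ) (x : ℝ),
  ((((X.cI E2 l i' B).filter fun z => z.2 = x).image fun z => ⌊z.1.2 - x * z.1.1⌋).card : ℝ) ≤
    ((X.cT l i' B).card : ℝ) * (X.Q : ℝ) ^ ((X.g : ℝ) + 4 - φ)

/-- (F5) A box with many incidences. -/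
def StF5 : Prop := ∀ (ι : Type) [Fintype ι] [DecidableEq ι] (X : RS ι), X.OK →
  ∀ (l i' : ℕ), l ≤ X.J → i' + l ≤ X.I → ∀ E2 ⊆ X.E, X.E.card ≤ 2 * E2.card →
  ∃ B : ℤ × ℤ, (X.cI E2 l i' B).Nonempty ∧
    X.lG l (i' + l) - X.lB i' - 1 ≤ X.lg ((X.cI E2 l i' B).card : ℝ)

/-- The end: no regular set with many levels. -/
def StFin : Prop := ∀ (σ : ℝ) (g : ℕ), 0 < σ → 400 ≤ σ * (g : ℝ) → ∃ J Q0 : ℕ, 2 ≤ J ∧
  2 * g ≤ J ∧ ∀ (ι : Type) [Fintype ι] [DecidableEq ι] (X : RS ι), X.OK → X.J = J → X.g = g →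
    σ ≤ X.s → Q0 ≤ X.Q → False

end Pool.Agent.Work.MP_e17eac_co.PS
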