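import Mathlib

/-!
# Project PS, block SP: the discretised sum-product theorem (statements)

Everything is about finite sets of integers; `fl r Z` is the set of the integer parts of `r z`,
`sc q Z = fl (1/q) Z` is the set `Z` seen at scale `q`.
-/

namespace Pool.Agent.Work.MP_e17eac_co.PS

open Finset
open scoped Pointwise

/-- Integer parts of the dilate. -/
noncomputable def fl (r : ℝ) (Z : Finset ℤ) : Finset ℤ := Z.image (fun z : ℤ => ⌊r * (z : ℝ)⌋)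

/-- The set `Z` at scale `q`. -/
noncomputable def sc (q : ℝ) (Z : Finset ℤ) : Finset ℤ := fl (1 / q) Z

/-- Two-sided bounds for the covering numbers of `Z` at all scales. -/
structure ZC (K σ R : ℝ) (Z : Finset ℤ) : Prop where
  hK : 2 ≤ K
  hσ : 0 < σ
  hσ' : σ ≤ 1 / 2
  hR : 1 ≤ R
  ne : Z.Nonempty
  rng : ∀ z ∈ Z, |(z : ℝ)| ≤ K * R
  lo : ∀ q : ℝ, 1 ≤ q → q ≤ R → (R / q) ^ σ ≤ K * ((sc q Z).card : ℝ)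
  hi : ∀ q : ℝ, 1 ≤ q → q ≤ R → ((sc q Z).card : ℝ) ≤ K * (R / q) ^ σ

/-- Bounded errors. -/
def StErr : Prop := ∀ (X Y : Finset ℤ) (e : ℕ), (∀ x ∈ X, ∃ y ∈ Y, |x - y| ≤ (e : ℤ)) →
  X.card ≤ (2 * e + 1) * Y.card

/-- **Localisation.** -/
def StLoc : Prop := ∀ (Y Z : Finset ℤ) (q : ℝ), 1 ≤ q → (∀ y ∈ Y, |(y : ℝ)| ≤ q) →
  Y.card * (sc q Z).card ≤ 3 * (Y + Z).card

/-- Elementary properties of `fl` and `sc`. -/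
def StFl : Prop := (∀ (r : ℝ) (Z : Finset ℤ), (fl r Z).card ≤ Z.card) ∧
  (∀ Z : Finset ℤ, sc 1 Z = Z) ∧
  (∀ (K r : ℝ) (Z : Finset ℤ), 1 ≤ K → K⁻¹ ≤ |r| → (Z.card : ℝ) ≤ (K + 1) * (fl r Z).card) ∧
  (∀ (q p : ℝ) (Z : Finset ℤ), 1 ≤ q → 1 ≤ p → (sc (p * q) Z).card ≤ 3 * (sc p (sc q Z)).card ∧
    (sc p (sc q Z)).card ≤ 3 * (sc (p * q) Z).card) ∧
  (∀ (q B : ℝ) (Z : Finset ℤ), 1 ≤ q → 0 ≤ B →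
    (∀ k : ℤ, ((Z.filter (fun z : ℤ => ⌊(z : ℝ) / q⌋ = k)).card : ℝ) ≤ B) →
    (Z.card : ℝ) ≤ B * (sc q Z).card)

/-- Products of good multipliers are good. -/
def StPrd : Prop := ∀ (Z : Finset ℤ) (K r r' : ℝ), 2 ≤ K → Z.Nonempty → K⁻¹ ≤ r → r ≤ K →
  K⁻¹ ≤ r' → r' ≤ K → ((Z - fl r Z).card : ℝ) ≤ K * Z.card →
  ((Z - fl r' Z).card : ℝ) ≤ K * Z.card → ((Z - fl (r * r') Z).card : ℝ) ≤ K ^ 7 * Z.card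

/-- Multipliers `v` such that `d z - d v z'` is close to a bounded sum are good at the scales
`q ≥ 1 / d`. -/
def StGs : Prop := ∀ (Z B : Finset ℤ) (K σ R K₁ d v q : ℝ) (n m e : ℕ), ZC K σ R Z → Z ⊆ B →
  2 ≤ K₁ → ((Z - B).card : ℝ) ≤ K₁ * Z.card → 0 < d → d ≤ K₁ → |v| ≤ K₁ → 1 ≤ q → q ≤ R →
  1 ≤ q * d →
  (∀ z ∈ Z, ∀ z' ∈ Z, ∃ w ∈ n • B - m • B, |d * (z : ℝ) - d * v * (z' : ℝ) - (w : ℝ)| ≤ e) →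
  ((sc q Z - fl v (sc q Z)).card : ℝ) ≤
    400 * (2 * e + 3) * K₁ ^ (n + m + 5) * K ^ 4 * (sc q Z).card

/-- **Energy bound.** -/
def StEn : Prop := ∀ (X : Finset ℤ) (S : Finset ℝ) (K D ρ : ℝ), 1 ≤ K → X.Nonempty → 1 ≤ D →
  0 < ρ → ((X - X).card : ℝ) ≤ K * X.card →
  (∀ r ∈ S, ((X - fl r X).card : ℝ) ≤ K * X.card) →
  6 * K * (((X - X).filter (fun d : ℤ => |(d : ℝ)| ≤ D)).card : ℝ) ≤ X.card →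
  (∀ r ∈ S, ∀ r' ∈ S, r ≠ r' → ρ ≤ |r - r'|) →
  (S.card : ℝ) ≤ 2 * K ^ 3 * X.card * (1 + 2 / (D * ρ))

/-- Number of separated good multipliers at scale `q`. -/
def StEb : Prop := ∀ (Z : Finset ℤ) (K σ R L q : ℝ) (S : Finset ℝ), ZC K σ R Z → K ≤ L →
  1 ≤ q → q ≤ R → ((sc q Z - sc q Z).card : ℝ) ≤ L * (sc q Z).card →
  (∀ r ∈ S, |r| ≤ L ∧ ((sc q Z - fl r (sc q Z)).card : ℝ) ≤ L * (sc q Z).card) →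
  (∀ r ∈ S, ∀ r' ∈ S, r ≠ r' → q / R ≤ |r - r'|) →
  (S.card : ℝ) ≤ L ^ (11 / σ) * L ^ 12 * (R / q) ^ σ

/-- The dichotomy for sets containing `0` and `1`. -/
def StDich : Prop := ∀ (D : Set ℝ) (γ : ℝ), 0 < γ → (0 : ℝ) ∈ D → (1 : ℝ) ∈ D →
  (∀ x : ℝ, 0 ≤ x → x ≤ 1 → ∃ r ∈ D, 0 ≤ r ∧ r ≤ 1 ∧ |x - r| ≤ 2 * γ) ∨
  (∃ r ∈ D, 0 ≤ r ∧ r ≤ 1 ∧ ∃ ε : ℝ, (ε = 0 ∨ ε = 1) ∧ ∀ r' ∈ D, γ / 2 ≤ |(r + ε) / 2 - r'|)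

/-- **The ring step.** -/
def StEnd : Prop := ∀ (Z : Finset ℤ) (K σ R ρ : ℝ) (T : Finset ℝ), ZC K σ R Z →
  ((Z - Z).card : ℝ) ≤ K * Z.card → (∀ m ∈ T, K⁻¹ ≤ m ∧ m ≤ K) →
  (∀ m ∈ T, ((Z - fl m Z).card : ℝ) ≤ K * Z.card) → 0 < ρ → ρ ≤ 1 →
  (∀ m ∈ T, ∀ m' ∈ T, m ≠ m' → ρ ≤ |m - m'|) → 2 ≤ T.card →
  K ^ (40000 / σ) ≤ ρ ^ 2 * R → (T.card : ℝ) ^ 2 ≤ K ^ (40000 / σ) * ρ ^ (-σ)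

/-- Paths of length three in dense bipartite graphs. -/
def StPath3 : Prop := ∀ (A B : Finset ℤ) (E : Finset (ℤ × ℤ)) (K : ℝ), 1 ≤ K → A.Nonempty →
  B.Nonempty → E ⊆ A ×ˢ B → (A.card : ℝ) * B.card ≤ K * E.card →
  ∃ A' ⊆ A, ∃ B' ⊆ B, (A.card : ℝ) ≤ 8 * K * A'.card ∧ (B.card : ℝ) ≤ 4 * K * B'.card ∧
    ∀ a ∈ A', ∀ b ∈ B', (A.card : ℝ) * B.card ≤ 2 ^ 12 * K ^ 5 *
      ((B ×ˢ A).filter (fun p => (a, p.1) ∈ E ∧ (p.2, p.1) ∈ E ∧ (p.2, b) ∈ E)).card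

/-- **Balog–Szemerédi–Gowers.** -/
def StBsg : Prop := ∀ (U V : Finset ℤ) (G : Finset (ℤ × ℤ)) (K N : ℝ), 1 ≤ K → 0 < N →
  G ⊆ U ×ˢ V → (U.card : ℝ) ≤ N → (V.card : ℝ) ≤ N → N ^ 2 ≤ K * G.card →
  ((G.image (fun p => p.1 + p.2)).card : ℝ) ≤ K * N →
  ∃ U' ⊆ U, ∃ V' ⊆ V, N ≤ 8 * K ^ 2 * U'.card ∧ N ≤ 8 * K ^ 2 * V'.card ∧
    ((U' + V').card : ℝ) ≤ 2 ^ 12 * K ^ 9 * N

/-- Common sets for many multipliers. -/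
def StTri : Prop := ∀ (U V : Finset ℤ) (T : Finset ℝ) (lam : ℝ → ℝ) (G : ℝ → Finset (ℤ × ℤ))
  (K N : ℝ), 2 ≤ K → 0 < N → (U.card : ℝ) ≤ N → (V.card : ℝ) ≤ N → T.Nonempty →
  (∀ t ∈ T, K⁻¹ ≤ |lam t| ∧ |lam t| ≤ K) → (∀ t ∈ T, ∀ t' ∈ T, 0 < lam t * lam t') →
  (∀ t ∈ T, G t ⊆ U ×ˢ V ∧ N ^ 2 ≤ K * (G t).card ∧
    (((G t).image (fun p => p.1 + ⌊lam t * (p.2 : ℝ)⌋)).card : ℝ) ≤ K * N) →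
  ∃ t0 ∈ T, ∃ T1 ⊆ T, ∃ V0 ⊆ V, (T.card : ℝ) ≤ K ^ 260 * T1.card ∧
    N ≤ K ^ 260 * V0.card ∧
    ((fl (lam t0) V0 - fl (lam t0) V0).card : ℝ) ≤ K ^ 260 * (fl (lam t0) V0).card ∧
    ∀ t ∈ T1, ((fl (lam t0) V0 - fl (lam t / lam t0) (fl (lam t0) V0)).card : ℝ) ≤
      K ^ 260 * (fl (lam t0) V0).card

/-- The final configuration: a planar set `A` of boxes (integer points), a set `T` of times,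
and for each time a large subset `At t` with few heights `y + x t`. -/
structure SPC (K σ R ξ : ℝ) (A : Finset (ℤ × ℤ)) (T : Finset ℝ) (At : ℝ → Finset (ℤ × ℤ)) :
    Prop where
  hK : 2 ≤ K
  hσ : 0 < σ
  hσ' : σ ≤ 1 / 2
  hR : 1 ≤ R
  hξ : 0 < ξ
  hξ' : ξ ≤ 1
  box : ∀ a ∈ A, |(a.1 : ℝ)| ≤ R ∧ |(a.2 : ℝ)| ≤ R
  cardhi : (A.card : ℝ) ≤ K * R ^ (2 * σ)
  cardlo : R ^ (2 * σ) ≤ K * A.card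
  T01 : ∀ t ∈ T, 0 ≤ t ∧ t ≤ 1
  Tsep : ∀ t ∈ T, ∀ t' ∈ T, t ≠ t' → ξ ≤ |t - t'|
  Tlo : ξ ^ (-σ) ≤ K * T.card
  Thi : ∀ a r : ℝ, ξ ≤ r → r ≤ 1 →
    ((T.filter (fun t => a ≤ t ∧ t ≤ a + r)).card : ℝ) ≤ K * (r / ξ) ^ σ
  sub : ∀ t ∈ T, At t ⊆ A
  big : ∀ t ∈ T, (A.card : ℝ) ≤ K * (At t).card
  loc : ∀ t ∈ T, ∀ a q : ℝ, 1 ≤ q → q ≤ R →
    ((((At t).image (fun p => ⌊(p.2 : ℝ) + (p.1 : ℝ) * t⌋)).filter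
      (fun k : ℤ => a ≤ (k : ℝ) ∧ (k : ℝ) ≤ a + q)).card : ℝ) ≤ K * q ^ σ
  crs : ∀ t ∈ T, ∀ q : ℝ, 1 ≤ q → q ≤ R →
    (((At t).image (fun p => ⌊((p.2 : ℝ) + (p.1 : ℝ) * t) / q⌋)).card : ℝ) ≤ K * (R / q) ^ σ

/-- Two far times and many third times with a large common set. -/
def StPr1 : Prop := ∀ (K σ R ξ : ℝ) (A : Finset (ℤ × ℤ)) (T : Finset ℝ)
  (At : ℝ → Finset (ℤ × ℤ)), SPC K σ R ξ A T At → ξ ≤ K ^ (-(9 / σ)) →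
  ∃ t1 ∈ T, ∃ t2 ∈ T, ∃ T' ⊆ T, K ^ (-(9 / σ)) ≤ |t1 - t2| ∧
    (T.card : ℝ) ≤ K ^ 7 * T'.card ∧
    (∀ t ∈ T', K ^ (-(9 / σ)) ≤ |t - t1| ∧ K ^ (-(9 / σ)) ≤ |t - t2| ∧
      (A.card : ℝ) ≤ K ^ 5 * (At t1 ∩ At t2 ∩ At t).card) ∧
    (∀ t ∈ T', ∀ t' ∈ T', 0 < (t - t1) / (t2 - t) * ((t' - t1) / (t2 - t'))) ∧
    (∀ t ∈ T', ∀ t' ∈ T', 0 < (t2 - t) * (t2 - t'))

/-- The sets `U`, `V`, `G t` of the application of `StTri`. -/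
def StPr2 : Prop := ∀ (K σ R ξ : ℝ) (A : Finset (ℤ × ℤ)) (T : Finset ℝ)
  (At : ℝ → Finset (ℤ × ℤ)), SPC K σ R ξ A T At → ∀ t1 ∈ T, ∀ t2 ∈ T, ∀ t ∈ T,
  K ^ (-(9 / σ)) ≤ |t1 - t2| → K ^ (-(9 / σ)) ≤ |t - t1| → K ^ (-(9 / σ)) ≤ |t - t2| →
  (A.card : ℝ) ≤ K ^ 5 * (At t1 ∩ At t2 ∩ At t).card →
  let G := (At t1 ∩ At t2 ∩ At t).image (fun p =>
    (⌊(p.2 : ℝ) + (p.1 : ℝ) * t1⌋, ⌊(p.2 : ℝ) + (p.1 : ℝ) * t2⌋))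
  (K * R ^ σ) ^ 2 ≤ K ^ (12 + 9 / σ) * G.card ∧
  ((G.image (fun p => p.1 + ⌊(t - t1) / (t2 - t) * (p.2 : ℝ)⌋)).card : ℝ) ≤
    K ^ (12 + 9 / σ) * (K * R ^ σ) ∧
  (K ^ (12 + 9 / σ))⁻¹ ≤ |(t - t1) / (t2 - t)| ∧ |(t - t1) / (t2 - t)| ≤ K ^ (12 + 9 / σ)

/-- The dilate of a dense subset of the heights satisfies `ZC`. -/
def StZcl : Prop := ∀ (K σ R : ℝ) (V V0 : Finset ℤ) (lam L : ℝ), 2 ≤ K → 0 < σ → σ ≤ 1 / 2 →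
  1 ≤ R → K ≤ L → (∀ v ∈ V, |(v : ℝ)| ≤ 3 * R) →
  (∀ a q : ℝ, 1 ≤ q → q ≤ R →
    ((V.filter (fun k : ℤ => a ≤ (k : ℝ) ∧ (k : ℝ) ≤ a + q)).card : ℝ) ≤ K * q ^ σ) →
  (∀ q : ℝ, 1 ≤ q → q ≤ R → ((sc q V).card : ℝ) ≤ 3 * K * (R / q) ^ σ) →
  V0 ⊆ V → V0.Nonempty → L⁻¹ ≤ |lam| → |lam| ≤ L → R ^ σ ≤ L ^ 260 * V0.card →
  ZC (L ^ 270) σ R (fl lam V0)

/-- **Sum-product theorem for the final configuration.** -/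
def StSp : Prop := ∃ C : ℝ, 0 < C ∧ ∀ (K σ R ξ : ℝ) (A : Finset (ℤ × ℤ)) (T : Finset ℝ)
  (At : ℝ → Finset (ℤ × ℤ)), SPC K σ R ξ A T At → K ^ (C / σ ^ 2) ≤ ξ ^ 2 * R →
  ξ ^ (-σ) ≤ K ^ (C / σ ^ 2)

end Pool.Agent.Work.MP_e17eac_co.PS
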