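import Pool.Agent.Work.MP_e17eac_co.PS.Pre

/-!
# Project PS, version 2: windows from separated slopes alone (note 2661)

No hypothesis on the times of the edges. Blocks of consecutive edges of equal size; far blocks
share at most one line; the scales at the end of a super-block are controlled by the fan lemma.
-/

namespace Pool.Agent.Work.MP_e17eac_co.PS

open Finset
open Pool.Agent.Work.MP_e17eac_co.DH

section defs

variable {ι : Type} [Fintype ι] [DecidableEq ι]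

/-- Edges of the block `i` of `U` consecutive edges (starting at `p0`). -/
def blk (p0 U i : ℕ) : Finset ℕ := Ico (p0 + i * U) (p0 + (i + 1) * U)

/-- Duration of the block `i`. -/
noncomputable def bl (K : KSys ι) (p0 U i : ℕ) : ℝ :=
  K.t (p0 + (i + 1) * U - 1) - K.t (p0 + i * U)

/-- Distance in time of the blocks `i` and `k` (negative for `i = k`). -/
noncomputable def bd (K : KSys ι) (p0 U i k : ℕ) : ℝ :=
  max (K.t (p0 + k * U) - K.t (p0 + (i + 1) * U - 1))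
    (K.t (p0 + i * U) - K.t (p0 + (k + 1) * U - 1))

open Classical in
/-- The blocks near the block `i`, measured by its own duration. -/
noncomputable def nearB (K : KSys ι) (m : ℝ) (p0 U M i : ℕ) : Finset ℕ :=
  (range M).filter (fun k => bd K p0 U i k ≤ 4 * m * bl K p0 U i)

open Classical in
/-- Blocks of the super-block `h` (`T` blocks) of right type. -/
noncomputable def rightB (K : KSys ι) (m : ℝ) (p0 U T h : ℕ) : Finset ℕ :=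
  (Ico (h * T) ((h + 1) * T)).filter (fun i =>
    K.t (p0 + (h + 1) * T * U - 1) - K.t (p0 + (i + 1) * U - 1) ≤ 4 * m * bl K p0 U i)

open Classical in
/-- Blocks of the super-block `h` (`T` blocks) of left type. -/
noncomputable def leftB (K : KSys ι) (m : ℝ) (p0 U T h : ℕ) : Finset ℕ :=
  (Ico (h * T) ((h + 1) * T)).filter (fun i =>
    K.t (p0 + i * U) - K.t (p0 + h * T * U) ≤ 4 * m * bl K p0 U i)

/-- A window `[u, u + R)` inside the time span of the edges `p, ..., p' - 1`, with a set `E` of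
edges in it which has at most `2 U` edges in every cell of relative level `J0`. -/
structure PWin (K : KSys ι) (q J0 U p p' : ℕ) (u R : ℝ) (E : Finset ℕ) : Prop where
  pos : 0 < R
  sub : E ⊆ Ico p p'
  win : ∀ n ∈ E, u ≤ K.t n ∧ K.t n < u + R
  lo : K.t p ≤ u
  hi : ∀ n, p' ≤ n → n < K.N → u + R ≤ K.t n
  mass : ∀ c : ℕ, (E.filter (fun n => ⌊(K.t n - u) / R * (q : ℝ) ^ J0⌋₊ = c)).card ≤ 2 * U

end defs

/-- Far blocks share at most one line. -/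
def StFar2 : Prop := ∀ (ι : Type) [Fintype ι] [DecidableEq ι] (K : KSys ι) (m : ℝ) (p0 U M : ℕ),
  1 ≤ m → K.Sep m → 2 ≤ U → p0 + M * U ≤ K.N → ∀ i k, i < M → k < M →
  4 * m * max (bl K p0 U i) (bl K p0 U k) < bd K p0 U i k →
  (K.lines (blk p0 U i) ∩ K.lines (blk p0 U k)).card ≤ 1

open Classical in
/-- Greedy selection. -/
def StGreedy : Prop := ∀ (S : Finset ℕ) (l : ℕ → ℝ) (D : ℕ → ℕ → ℝ) (T : ℕ),
  (∀ i k, D i k = D k i) → (∀ i ∈ S, (S.filter (fun k => D i k ≤ l i)).card ≤ T) →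
  ∃ S' ⊆ S, S.card ≤ (T + 1) * S'.card ∧ ∀ i ∈ S', ∀ k ∈ S', i ≠ k → max (l i) (l k) < D i k

open Classical in
/-- Few thin blocks. -/
def StThin : Prop := ∀ (ι : Type) [Fintype ι] [DecidableEq ι] (K : KSys ι) (m : ℝ)
  (p0 U M T s : ℕ), 1 ≤ m → K.Sep m → 2 ≤ U → p0 + M * U ≤ K.N →
  (T + 1) * s ≤ ((range M).filter (fun i => (nearB K m p0 U M i).card ≤ T)).card →
  (s : ℝ) * (U : ℝ) ^ ((3 : ℝ) / 4) ≤ 8 * ((Fintype.card ι : ℝ) + (s : ℝ) ^ 2)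

/-- Thick blocks are of right or left type. -/
def StTypes : Prop := ∀ (ι : Type) [Fintype ι] [DecidableEq ι] (K : KSys ι) (m : ℝ)
  (p0 U M T h i : ℕ), 2 ≤ U → 1 ≤ T → (h + 1) * T ≤ M → p0 + M * U ≤ K.N →
  h * T ≤ i → i < (h + 1) * T → T < (nearB K m p0 U M i).card →
  i ∈ rightB K m p0 U T h ∨ i ∈ leftB K m p0 U T h

open Classical in
/-- One-sided fan lemma. -/
def StFan1 : Prop := ∀ (ι : Type) [Fintype ι] [DecidableEq ι] (K : KSys ι) (m : ℝ) (p p' : ℕ)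
  (e ρ R : ℝ), 1 ≤ m → K.Sep m → p' ≤ K.N → 0 ≤ ρ →
  ((∀ n, p ≤ n → n < p' → K.t n ≤ e) ∨ (∀ n, p ≤ n → n < p' → e ≤ K.t n)) →
  ((Ico p p').filter (fun n => 4 * m * ρ < |K.t n - e| ∧ |K.t n - e| ≤ R)).card ^ 3 ≤
    2 ^ 16 * (K.lines ((Ico p p').filter (fun n => |K.t n - e| ≤ R)) \
      K.lines ((Ico p p').filter (fun n => |K.t n - e| ≤ ρ))).card ^ 4

open Classical in
/-- The chain of scales at an end point: one scale contains many edges. -/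
def StChain1 : Prop := ∀ (ι : Type) [Fintype ι] [DecidableEq ι] (K : KSys ι) (m : ℝ)
  (q B p p' : ℕ) (e L : ℝ) (F : Finset ℕ) (k : ℕ → ℕ), 1 ≤ m → K.Sep m → 2 ≤ q →
  4 * m < (q : ℝ) ^ (B + 1) → p' ≤ K.N →
  ((∀ n, p ≤ n → n < p' → K.t n ≤ e) ∨ (∀ n, p ≤ n → n < p' → e ≤ K.t n)) → 0 < L →
  F ⊆ Ico p p' → F.Nonempty →
  (∀ n ∈ F, L / (q : ℝ) ^ (k n + 1) ≤ |K.t n - e| ∧ |K.t n - e| ≤ L / (q : ℝ) ^ k n) →
  ∃ k0, (F.card : ℝ) ≤ 16 * ((B : ℝ) + 2) * ((K.lines (Ico p p')).card : ℝ) *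
    ((F.filter (fun n => k n = k0)).card : ℝ) ^ ((1 : ℝ) / 4)

/-- Windows in super-blocks. -/
def StPWin : Prop := ∀ (ι : Type) [Fintype ι] [DecidableEq ι] (K : KSys ι) (m : ℝ)
  (q B p0 U M T h τ : ℕ), 1 ≤ m → K.Sep m → 2 ≤ q → 4 * m + 1 < (q : ℝ) ^ (B + 1) → 2 ≤ U →
  1 ≤ T → (h + 1) * T ≤ M → p0 + M * U ≤ K.N → 1 ≤ τ →
  (τ ≤ (rightB K m p0 U T h).card ∨ τ ≤ (leftB K m p0 U T h).card) →
  ∃ (u R : ℝ) (E : Finset ℕ),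
    PWin K q (B + 3) U (p0 + h * T * U) (p0 + (h + 1) * T * U) u R E ∧
    ((τ * U : ℕ) : ℝ) ≤ 2 + 16 * ((B : ℝ) + 2) *
      ((K.lines (Ico (p0 + h * T * U) (p0 + (h + 1) * T * U))).card : ℝ) *
      (E.card : ℝ) ^ ((1 : ℝ) / 4)

open Classical in
/-- A family of disjoint windows. -/
def StFam : Prop := ∀ B : ℕ, 1 ≤ B → ∀ c : ℝ, 0 < c → c ≤ 1 / 1000 → ∃ n0 : ℕ,
  ∀ (ι : Type) [Fintype ι] [DecidableEq ι] (K : KSys ι) (m : ℝ) (q : ℕ),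
  n0 ≤ Fintype.card ι → XSWEEP.GP K.x K.y → 1 ≤ m → K.Sep m → 2 ≤ q →
  4 * m + 1 < (q : ℝ) ^ (B + 1) →
  (Fintype.card ι : ℝ) ^ ((4 : ℝ) / 3 - c) ≤
    (((range K.N).filter (fun n => 0 ≤ K.t n ∧ K.t n < 1)).card : ℝ) →
  ∃ (P : Finset ℕ) (u R : ℕ → ℝ) (E : ℕ → Finset ℕ), P.Nonempty ∧
    (P.card : ℝ) ≤ (Fintype.card ι : ℝ) ^ ((1 : ℝ) / 2) ∧
    (∀ h ∈ P, 0 < R h ∧ ∀ n ∈ E h, n < K.N ∧ u h ≤ K.t n ∧ K.t n < u h + R h) ∧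
    (∀ h ∈ P, ∀ h' ∈ P, h ≠ h' → u h + R h ≤ u h' ∨ u h' + R h' ≤ u h) ∧
    (∀ h ∈ P, (Fintype.card ι : ℝ) ^ ((4 : ℝ) / 3 - 5 * c) ≤ (P.card : ℝ) * ((E h).card : ℝ)) ∧
    (∀ h ∈ P, ∀ c' : ℕ,
      (((E h).filter (fun n => ⌊(K.t n - u h) / R h * (q : ℝ) ^ (B + 3)⌋₊ = c')).card : ℝ) *
        (Fintype.card ι : ℝ) ^ ((1 : ℝ) / 32 - 5 * c) ≤ ((E h).card : ℝ))

open Classical in
/-- Existence of a `PreBase` (structure of PS/Pre.lean). -/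
def StPreEx : Prop := ∀ C0 : ℝ, 1 ≤ C0 → ∀ B : ℕ, 1 ≤ B → ∀ ε : ℝ, 0 < ε → ∃ c : ℝ, 0 < c ∧
  ∃ n0 : ℕ, ∀ (ι : Type) [Fintype ι] [DecidableEq ι] (K : KSys ι) (m : ℝ),
  n0 ≤ Fintype.card ι → XSWEEP.GP K.x K.y → 1 ≤ m → m ≤ (Fintype.card ι : ℝ) ^ C0 → K.Sep m →
  (Fintype.card ι : ℝ) ^ ((4 : ℝ) / 3 - c) ≤
    (((range K.N).filter (fun n => 0 ≤ K.t n ∧ K.t n < 1)).card : ℝ) →
  ∃ (u R : ℝ) (hR : 0 < R) (q : ℕ) (W Λ : ℝ) (E : Finset ℕ),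
    PreBase (K.resc u R hR) q (B + 3) W Λ E ∧ Λ ≤ (q : ℝ) ^ ε ∧
    (Fintype.card ι : ℝ) ^ C0 ≤ (q : ℝ) ^ (B + 1) ∧
    (q : ℝ) ^ (B + 1) ≤ (Fintype.card ι : ℝ) ^ (2 * C0) ∧
    (Fintype.card ι : ℝ) ^ ((1 : ℝ) / 2) ≤ W ∧
    (Fintype.card ι : ℝ) ^ ((1 : ℝ) / 40) ≤ (im E ((K.resc u R hR).cell q (B + 3)) : ℝ)

open Classical in
/-- **Existence of a base cell**, without a hypothesis on the times. -/
def StBaseEx2 : Prop := ∀ C0 : ℝ, 1 ≤ C0 → ∃ σ : ℝ, 0 < σ ∧ ∀ J B' : ℕ, 1 ≤ J →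
  ∃ (c : ℝ) (B : ℕ), 0 < c ∧ ∀ q0 : ℕ, ∃ n0 : ℕ, ∀ (ι : Type) [Fintype ι] [DecidableEq ι]
    (K : KSys ι) (m : ℝ), n0 ≤ Fintype.card ι → XSWEEP.GP K.x K.y →
    1 ≤ m → m ≤ (Fintype.card ι : ℝ) ^ C0 → K.Sep m →
    (Fintype.card ι : ℝ) ^ ((4 : ℝ) / 3 - c) ≤
      (((range K.N).filter (fun n => 0 ≤ K.t n ∧ K.t n < 1)).card : ℝ) →
    ∃ (K' : KSys ι) (Q : ℕ) (s W : ℝ) (E : Finset ℕ), Base K' Q J s W m E ∧
      σ ≤ s ∧ q0 ≤ Q ∧ m ≤ (Q : ℝ) ^ B ∧ (Q : ℝ) ^ B' ≤ W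

end Pool.Agent.Work.MP_e17eac_co.PS
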