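import Pool.Agent.Work.MP_e17eac_co.Bd.B12
import Pool.Agent.Work.MP_e17eac_co.Bd.B13

/-!
# Project PS, sections 1 and 2: statements

The window bound (T2) and the existence of a base cell.
-/

namespace Pool.Agent.Work.MP_e17eac_co.PS

open Finset
open Pool.Agent.Work.MP_e17eac_co.DH
open Pool.Agent.Work.MP_e17eac_co.DH.XSWEEP (GP EE tm)

/-- Existence of the complete sweep of a level. -/
def StSweepAll : Prop := ∀ (ι : Type) [Fintype ι] [DecidableEq ι] [Nonempty ι] (x y : ι → ℝ)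
  (k : ℕ), (∀ i, 0 ≤ x i ∧ x i ≤ 1) → Function.Injective x → GP x y →
  ∃ K : KSys ι, K.x = x ∧ K.y = y ∧ K.N = (EE x y k).card ∧
    (∀ n, n < K.N → (K.b n, K.a n) ∈ EE x y k ∧ tm x y (K.b n, K.a n) = K.t n) ∧
    (∀ e ∈ EE x y k, ∃ n, n < K.N ∧ (K.b n, K.a n) = e)

/-- The edges of any sweep are vertices of one level. -/
def StFullE : Prop := ∀ (ι : Type) [Fintype ι] [DecidableEq ι] (K : KSys ι),
  Function.Injective K.x → ∃ k : ℕ, ∀ n, n < K.N → (K.b n, K.a n) ∈ EE K.x K.y k ∧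
    tm K.x K.y (K.b n, K.a n) = K.t n

/-- Different lines have different ranks. -/
def StRinj : Prop := ∀ (ι : Type) [Fintype ι] [DecidableEq ι] (x y : ι → ℝ),
  Function.Injective x → ∀ s : ℝ, Function.Injective (fun i => XSWEEP.R x y i s)

/-- A crossing pair of edges of two sweeps (of two levels of the same lines) is determined by the
bottom token of the earlier one and the top token of the later one. -/
def StCinj2 : Prop := ∀ (ι : Type) [Fintype ι] [DecidableEq ι] (K K' : KSys ι),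
  ∀ n n' k k' : ℕ, n < K.N → k < K.N → n' < K'.N → k' < K'.N → K.t n < K'.t n' → K.t k < K'.t k' →
  (K.x (K.b n) < (K'.h n' - K.h n) / (K'.t n' - K.t n) ∧
    (K'.h n' - K.h n) / (K'.t n' - K.t n) < K.x (K.a n) ∧
    K'.x (K'.b n') < (K'.h n' - K.h n) / (K'.t n' - K.t n) ∧
    (K'.h n' - K.h n) / (K'.t n' - K.t n) < K'.x (K'.a n')) →
  (K.x (K.b k) < (K'.h k' - K.h k) / (K'.t k' - K.t k) ∧
    (K'.h k' - K.h k) / (K'.t k' - K.t k) < K.x (K.a k) ∧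
    K'.x (K'.b k') < (K'.h k' - K.h k) / (K'.t k' - K.t k) ∧
    (K'.h k' - K.h k) / (K'.t k' - K.t k) < K'.x (K'.a k')) →
  K.tokB n = K.tokB k → K'.tokT n' = K'.tokT k' → n = k ∧ n' = k'

/-- Height of the common point of the two lines of `e`. -/
noncomputable def hE {ι : Type} (x y : ι → ℝ) (e : ι × ι) : ℝ := XSWEEP.ht x y e.1 (tm x y e)

/-- The two segments cross, and `tm e < tm f`. -/
def PCross {ι : Type} (x y : ι → ℝ) (e f : ι × ι) : Prop :=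
  tm x y e < tm x y f ∧
  x e.1 < (hE x y f - hE x y e) / (tm x y f - tm x y e) ∧
  (hE x y f - hE x y e) / (tm x y f - tm x y e) < x e.2 ∧
  x f.1 < (hE x y f - hE x y e) / (tm x y f - tm x y e) ∧
  (hE x y f - hE x y e) / (tm x y f - tm x y e) < x f.2

open Classical in
/-- The crossing pairs of a set of segments. -/
noncomputable def pcp {ι : Type} (x y : ι → ℝ) (F : Finset (ι × ι)) :
    Finset ((ι × ι) × (ι × ι)) := (F ×ˢ F).filter (fun z => PCross x y z.1 z.2)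

/-- Crossing lemma for segments (sampling probability `1/s`). -/
def StCrlP : Prop := ∀ (ι : Type) [Fintype ι] [DecidableEq ι] (x y : ι → ℝ),
  Function.Injective x → GP x y → ∀ F : Finset (ι × ι), (∀ e ∈ F, x e.1 < x e.2) →
  ∀ s : ℕ, 1 ≤ s → F.card * s ^ 2 ≤ 4 * Fintype.card ι * s ^ 3 + (pcp x y F).card

/-- **Multilevel Dey bound.** -/
def StMDey : Prop := ∀ (ι : Type) [Fintype ι] [DecidableEq ι] (x y : ι → ℝ),
  (∀ i, 0 ≤ x i ∧ x i ≤ 1) → Function.Injective x → GP x y → ∀ Rs : Finset ℕ,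
  8 * Fintype.card ι ≤ ∑ r ∈ Rs, (EE x y r).card →
  (∑ r ∈ Rs, (EE x y r).card) ^ 3 ≤ 512 * (Fintype.card ι) ^ 4 * Rs.card ^ 2

open Classical in
/-- The lines visited in the time window `[u, v)`. -/
noncomputable def visI {ι : Type} [Fintype ι] [DecidableEq ι] (K : KSys ι) (u v : ℝ) : Finset ι :=
  K.lines ((range K.N).filter (fun n => u ≤ K.t n ∧ K.t n < v))

/-- **T2**: number of pairs (window, visited line) for disjoint windows. -/
def StT2 : Prop := ∃ C : ℝ, 0 < C ∧ ∀ (ι : Type) [Fintype ι] [DecidableEq ι] (K : KSys ι),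
  Function.Injective K.x → GP K.x K.y → ∀ (A : Finset ℕ) (u v : ℕ → ℝ),
  (∀ c ∈ A, ∀ c' ∈ A, c ≠ c' → v c ≤ u c' ∨ v c' ≤ u c) →
  ∑ c ∈ A, ((visI K (u c) (v c)).card : ℝ) ≤ C * Fintype.card ι * (A.card : ℝ) ^ ((1 : ℝ) / 4)

/-- **Near linearity** of the logarithm of the number of active cells. -/
def StNL : Prop := ∀ (J : ℕ) (σ : ℝ), 1 ≤ J → 0 < σ → ∃ κ0 : ℕ, ∀ (μ : ℕ → ℝ) (j1 : ℕ),
  Monotone μ → (∀ j, μ (j + 1) ≤ μ j + 1) → κ0 ≤ j1 → 2 * σ * j1 ≤ μ j1 - μ 0 →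
  ∃ κ a : ℕ, ∃ s : ℝ, 1 ≤ κ ∧ κ ≤ κ0 ∧ a + κ * J ≤ j1 ∧ σ ≤ s ∧ s ≤ 1 ∧
    ∀ i, i ≤ J → |μ (a + κ * i) - μ a - s * κ * i| ≤ κ

/-- The times of the edges are `1/m`-separated. -/
def Gap {ι : Type} [Fintype ι] [DecidableEq ι] (K : KSys ι) (m : ℝ) : Prop :=
  ∀ n n', n < n' → n' < K.N → 1 ≤ m * (K.t n' - K.t n)

open Classical in
/-- **Existence of a base cell.** -/
def StBaseEx : Prop := ∀ C0 : ℝ, 1 ≤ C0 → ∃ σ : ℝ, 0 < σ ∧ ∀ J B' : ℕ, 1 ≤ J →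
  ∃ (c : ℝ) (B : ℕ), 0 < c ∧ ∀ q0 : ℕ, ∃ n0 : ℕ, ∀ (ι : Type) [Fintype ι] [DecidableEq ι]
    (K : KSys ι) (m : ℝ), n0 ≤ Fintype.card ι → Function.Injective K.x → GP K.x K.y →
    1 ≤ m → m ≤ (Fintype.card ι : ℝ) ^ C0 → K.Sep m → Gap K m →
    (Fintype.card ι : ℝ) ^ ((4 : ℝ) / 3 - c) ≤
      (((range K.N).filter (fun n => 0 ≤ K.t n ∧ K.t n < 1)).card : ℝ) →
    ∃ (K' : KSys ι) (Q : ℕ) (s W : ℝ) (E : Finset ℕ), Base K' Q J s W m E ∧
      (∃ (c R : ℝ) (hR : 0 < R), K' = K.resc c R hR) ∧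
      σ ≤ s ∧ q0 ≤ Q ∧ m ≤ (Q : ℝ) ^ B ∧ (Q : ℝ) ^ B' ≤ W

end Pool.Agent.Work.MP_e17eac_co.PS
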