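import Pool.Agent.Work.MP_e17eac_co.PS.Spr
import Pool.Agent.Work.MP_e17eac_co.PS.S7
import Pool.Agent.Work.MP_e17eac_co.Bd.B07

/-!
# Project PS, version 2: the window theorem
-/

namespace Pool.Agent.Work.MP_e17eac_co.PS

open Finset
open Pool.Agent.Work.MP_e17eac_co.DH

open Classical in
/-- **Window theorem.** A level of `n` lines with slopes in `[0,1]` which are `n^(-B)`-separated
has at most `C n^(4/3-c)` vertices of one kind with abscissae in `[0,1)`. -/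
def StWinSp : Prop := ∀ B : ℝ, 1 ≤ B → ∃ c : ℝ, 0 < c ∧ ∃ C : ℝ, 0 < C ∧
  ∀ (ι : Type) [Fintype ι] [DecidableEq ι] (K : KSys ι) (m : ℝ), 1 ≤ m → K.Sep m →
  XSWEEP.GP K.x K.y → m ≤ (Fintype.card ι : ℝ) ^ B →
  (((range K.N).filter (fun n => 0 ≤ K.t n ∧ K.t n < 1)).card : ℝ) ≤
    C * (Fintype.card ι : ℝ) ^ ((4 : ℝ) / 3 - c)

theorem I_WinSp (hBase : StBaseEx2) (hRX : StRX) (hFin : StFin) : StWinSp := by
  intro B0 hB0
  obtain ⟨σ, hσ, H⟩ := hBase B0 hB0
  obtain ⟨g, hg1, hg2⟩ : ∃ g : ℕ, 1 ≤ g ∧ 400 ≤ σ * (g : ℝ) := by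
    refine ⟨⌈400 / σ⌉₊ + 1, by omega, ?_⟩
    have h1 := Nat.le_ceil (400 / σ)
    rw [div_le_iff₀ hσ] at h1
    push_cast
    nlinarith
  obtain ⟨J, Q0, hJ2, hJg, hF⟩ := hFin σ g hσ hg2
  obtain ⟨c, B1, hc, H2⟩ := H J (100 * (J + g) + 10000) (by omega)
  obtain ⟨Q1, hQ1⟩ := hRX J g B1 hg1
  obtain ⟨n0, H3⟩ := H2 (max (max Q0 Q1) 2)
  refine ⟨min c 1, lt_min hc one_pos, (n0 : ℝ) ^ 2 + 1, by positivity, ?_⟩
  intro ι _ _ K m hm hsep hgp hmB
  have hsub : ((range K.N).filter (fun n => 0 ≤ K.t n ∧ K.t n < 1)).card ≤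
      Fintype.card ι * Fintype.card ι := by
    apply XREGEX.card_le K
    intro n hn
    exact mem_range.1 (mem_filter.1 hn).1
  rcases Nat.eq_zero_or_pos (Fintype.card ι) with h0 | h0
  · rw [h0] at hsub
    have h1 : ((range K.N).filter (fun n => 0 ≤ K.t n ∧ K.t n < 1)).card = 0 := by omega
    rw [h1]
    push_cast
    positivity
  have hn1 : (1 : ℝ) ≤ (Fintype.card ι : ℝ) := by exact_mod_cast h0
  have hpow : (1 : ℝ) ≤ (Fintype.card ι : ℝ) ^ ((4 : ℝ) / 3 - min c 1) := by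
    apply Real.one_le_rpow hn1
    have := min_le_right c 1
    linarith
  rcases Nat.lt_or_ge (Fintype.card ι) n0 with hlt | hge
  · calc (((range K.N).filter (fun n => 0 ≤ K.t n ∧ K.t n < 1)).card : ℝ) ≤
        (Fintype.card ι : ℝ) * (Fintype.card ι : ℝ) := by exact_mod_cast hsub
      _ ≤ (n0 : ℝ) * n0 := by
        have : (Fintype.card ι : ℝ) ≤ n0 := by exact_mod_cast hlt.le
        exact mul_le_mul this this (by positivity) (by positivity)
      _ ≤ ((n0 : ℝ) ^ 2 + 1) * 1 := by nlinarith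
      _ ≤ _ := mul_le_mul_of_nonneg_left hpow (by positivity)
  · by_contra hcon
    push Not at hcon
    have hN : (Fintype.card ι : ℝ) ^ ((4 : ℝ) / 3 - c) ≤
        (((range K.N).filter (fun n => 0 ≤ K.t n ∧ K.t n < 1)).card : ℝ) := by
      calc (Fintype.card ι : ℝ) ^ ((4 : ℝ) / 3 - c) ≤
          (Fintype.card ι : ℝ) ^ ((4 : ℝ) / 3 - min c 1) := by
            apply Real.rpow_le_rpow_of_exponent_le hn1
            have := min_le_left c 1
            linarith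
        _ = 1 * (Fintype.card ι : ℝ) ^ ((4 : ℝ) / 3 - min c 1) := (one_mul _).symm
        _ ≤ ((n0 : ℝ) ^ 2 + 1) * (Fintype.card ι : ℝ) ^ ((4 : ℝ) / 3 - min c 1) := by
            apply mul_le_mul_of_nonneg_right _ (by positivity)
            nlinarith [sq_nonneg (n0 : ℝ)]
        _ ≤ _ := hcon.le
    obtain ⟨K', Q, s, W, E, hb, hs, hq, hmQ, hQW⟩ := H3 ι K m hge hgp hm hmB hsep hN
    have hQ0 : Q0 ≤ Q := le_trans (le_trans (le_max_left _ _) (le_max_left _ _)) hq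
    have hQ1' : Q1 ≤ Q := le_trans (le_trans (le_max_right _ _) (le_max_left _ _)) hq
    have hQ2 : 2 ≤ Q := le_trans (le_max_right _ _) hq
    have hQr : (1 : ℝ) < Q := by
      have : (2 : ℝ) ≤ Q := by exact_mod_cast hQ2
      linarith
    have hsg : 400 ≤ s * (g : ℝ) := by
      refine hg2.trans ?_
      apply mul_le_mul_of_nonneg_right hs (Nat.cast_nonneg _)
    have hlw : 100 * ((J : ℝ) + g) + 10000 ≤ Real.logb Q W := by
      have e := Real.logb_le_logb_of_le hQr (by positivity) hQW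
      rw [Real.logb_pow, Real.logb_self_eq_one hQr, mul_one] at e
      push_cast at e
      exact e
    obtain ⟨X, hX, -, hXQ, hXJ, hXg, hXs⟩ := hQ1 ι K' Q s W m E hb hQ1' hmQ hsg hlw
    exact hF ι X hX hXJ hXg (by rw [hXs]; exact hs) (by rw [hXQ]; exact hQ0)

end Pool.Agent.Work.MP_e17eac_co.PS
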